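import Pool.Agent.Work.MP_cfa43e_lc.Stmts

/-! Bundle of small proof modules (one section per former module). -/

section

/-!
# E7: capabilities of a long ladder (from E4, E5, E6)
-/

set_option autoImplicit false

namespace Pool.Agent.PEmb

namespace IE7

/-- Sum over eight consecutive blocks of length `w`. -/
theorem blocks (f : ℕ → ℕ) (w : ℕ) (m : ℕ) :
    ∑ i ∈ Finset.range m, ∑ x ∈ Finset.Ico (i * w) (i * w + w), f x =
      ∑ x ∈ Finset.range (m * w), f x := by
  induction m with
  | zero => simp
  | succ m ih =>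
    have e : (m + 1) * w = m * w + w := by ring
    rw [Finset.sum_range_succ, ih, e, Finset.range_eq_Ico, Finset.range_eq_Ico,
      Finset.sum_Ico_consecutive f (Nat.zero_le _) (Nat.le_add_right _ _)]

end IE7

theorem E7 (h4 : PE4) (h5 : PE5) (h6 : PE6) : PE7 := by
  intro V G n L D c e hlad hL
  obtain ⟨w, hw⟩ : ∃ w, w = n ^ 2 + 3 := ⟨_, rfl⟩
  rw [← hw] at hL
  obtain ⟨tot, htot⟩ : ∃ tot : ℕ → ℕ, ∀ m, tot m =
      ∑ x ∈ Finset.Ico (m * w) (m * w + w - 1), (tl c x + bl c x) +
        ∑ x ∈ Finset.Ico (m * w) (m * w + w), sl c x := ⟨_, fun _ => rfl⟩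
  obtain ⟨m, hm, hmin⟩ := Finset.exists_min_image (Finset.range 8) tot ⟨0, by simp⟩
  rw [Finset.mem_range] at hm
  have hmw : m * w + w ≤ L := by
    have : (m + 1) * w ≤ 8 * w := Nat.mul_le_mul_right w (by omega)
    have e1 : (m + 1) * w = m * w + w := by ring
    omega
  have hsum : 8 * tot m ≤ (∑ x ∈ Finset.range L, (tl c x + bl c x)) +
      (∑ x ∈ Finset.range (L + 1), sl c x) := by
    have e1 : 8 * tot m ≤ ∑ i ∈ Finset.range 8, tot i := by
      have := Finset.card_nsmul_le_sum (Finset.range 8) tot (tot m) hmin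
      simpa using this
    refine le_trans e1 ?_
    simp_rw [htot]
    rw [Finset.sum_add_distrib]
    refine Nat.add_le_add ?_ ?_
    · have a1 : ∑ i ∈ Finset.range 8, ∑ x ∈ Finset.Ico (i * w) (i * w + w - 1),
          (tl c x + bl c x) ≤
          ∑ i ∈ Finset.range 8, ∑ x ∈ Finset.Ico (i * w) (i * w + w), (tl c x + bl c x) := by
        refine Finset.sum_le_sum fun i _ => ?_
        refine Finset.sum_le_sum_of_subset ?_
        exact Finset.Ico_subset_Ico (le_refl _) (Nat.sub_le _ _)
      refine le_trans a1 ?_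
      rw [IE7.blocks (fun x => tl c x + bl c x) w 8]
      exact Finset.sum_le_sum_of_subset (Finset.range_subset_range.2 hL)
    · rw [IE7.blocks (fun x => sl c x) w 8]
      exact Finset.sum_le_sum_of_subset (Finset.range_subset_range.2 (by omega))
  refine ⟨tot m, ?_, ?_, ?_, ?_⟩
  · intro a b ha hb
    obtain ⟨l, hl, hl2⟩ := h4 G L D c e hlad (by omega) a b ha hb
    exact ⟨l, hl, by omega⟩
  · intro F hF
    obtain ⟨I, J, hI, hIJ, hJ, hnF⟩ := h6 (fun x => tl c x + bl c x) (sl c) (m * w) (n ^ 2 + 2) F
      (fun x => by unfold tl; omega) (by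
        have : F.card ^ 2 ≤ n ^ 2 := Nat.pow_le_pow_left (by omega) 2
        omega)
    obtain ⟨Z, w', hcell, hlen⟩ := h5 G L D c e hlad I J hIJ (by omega)
    refine ⟨Z, w', hcell, ?_, ?_, ?_⟩
    · rw [hlen]
      have s1 : 2 ≤ ∑ x ∈ Finset.Ico I J, (tl c x + bl c x) := by
        have : tl c I + bl c I ≤ ∑ x ∈ Finset.Ico I J, (tl c x + bl c x) :=
          Finset.single_le_sum (f := fun x => tl c x + bl c x) (fun _ _ => Nat.zero_le _)
            (Finset.mem_Ico.2 ⟨le_refl _, hIJ⟩)
        have h7 : 2 ≤ tl c I + bl c I := by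
          unfold tl bl
          omega
        omega
      unfold sl
      omega
    · rw [hlen, htot, add_assoc]
      refine Nat.add_le_add ?_ ?_
      · refine Finset.sum_le_sum_of_subset ?_
        exact Finset.Ico_subset_Ico hI (by omega)
      · have hne : I ≠ J := by omega
        rw [← Finset.sum_pair hne]
        refine Finset.sum_le_sum_of_subset ?_
        intro x hx
        rw [Finset.mem_insert, Finset.mem_singleton] at hx
        rw [Finset.mem_Ico]
        omega
    · rw [hlen]
      exact hnF
  · intro d hd hmem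
    rw [Set.mem_iUnion₂] at hmem
    obtain ⟨x, hx, hx2⟩ := hmem
    exact hlad.enD d hd x hx hx2
  · exact hlad.einj

end Pool.Agent.PEmb

end

section

/-!
# MP_cfa43e_lc, item E8: rotation by a half turn
-/

set_option autoImplicit false

namespace Pool.Agent.PEmb

namespace IE8

theorem pth_rev {V : Type} {G : SimpleGraph V} {S : Set V} {a b : V} {l : List V}
    (h : IsPth G S a b l) : IsPth G S b a l.reverse := by
  obtain ⟨h1, h2, h3, h4, h5⟩ := h
  refine ⟨?_, List.nodup_reverse.2 h2, ?_, ?_, ?_⟩
  · rw [List.isChain_reverse]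
    exact h1.imp fun x y hxy => hxy.symm
  · rw [List.head?_reverse]; exact h4
  · rw [List.getLast?_reverse]; exact h3
  · intro x hx
    exact h5 x (List.mem_reverse.1 hx)

/-- the permutation of the ends -/
def sg (d : ℕ) : ℕ := if d = 0 then 1 else if d = 1 then 0 else if d = 2 then 3 else 2

theorem sg_lt (d : ℕ) : sg d < 4 := by unfold sg; split_ifs <;> omega

theorem sg_inj {d d' : ℕ} (hd : d < 4) (hd' : d' < 4) (h : sg d = sg d') : d = d' := by
  unfold sg at h
  split_ifs at h <;> omega

end IE8

open IE8 in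
theorem E8 : PE8 := by
  intro V G S e n μ h
  have he : (fun d => if d = 0 then e 1 else if d = 1 then e 0 else if d = 2 then e 3 else e 2) =
      fun d => e (sg d) := by
    funext d
    unfold sg
    split_ifs <;> rfl
  rw [he]
  refine ⟨?_, ?_, ?_, ?_⟩
  · intro a b ha hb
    have ha' : sg a = 0 ∨ sg a = 3 := by
      rcases ha with rfl | rfl <;> simp [sg]
    have hb' : sg b = 1 ∨ sg b = 2 := by
      rcases hb with rfl | rfl <;> simp [sg]
    obtain ⟨l, hl, hlen⟩ := h.pass (sg b) (sg a) hb' ha'
    refine ⟨l.reverse, ?_, by rw [List.length_reverse]; exact hlen⟩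
    have := pth_rev hl
    rwa [Set.pair_comm] at this
  · intro F hF
    obtain ⟨Z, w, hc, h4, hμ, hFZ⟩ := h.cell F hF
    refine ⟨Z, fun d => w (sg d), ⟨hc.cyc, hc.zS, ?_, ?_, ?_⟩, h4, hμ, hFZ⟩
    · intro d _
      exact hc.pth (sg d) (sg_lt d)
    · intro d _
      exact hc.off (sg d) (sg_lt d)
    · intro d d' hd hd' hne
      exact hc.dis _ _ (sg_lt d) (sg_lt d') fun h => hne (sg_inj hd hd' h)
  · intro d _
    exact h.enS _ (sg_lt d)
  · intro d d' hd hd' h2
    exact sg_inj hd hd' (h.einj _ _ (sg_lt d) (sg_lt d') h2)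

end Pool.Agent.PEmb

end

section

/-!
# E9: monotone subsequences
-/

set_option autoImplicit false

namespace Pool.Agent.PEmb

namespace E9aux

/-- a chain of length `l + 1` which ends at `i` -/
def Ch (R : ℕ → ℕ → Prop) (l i : ℕ) : Prop :=
  ∃ φ : ℕ → ℕ, (∀ a b, a < b → b ≤ l → φ a < φ b ∧ R (φ a) (φ b)) ∧ φ l = i

theorem ch_zero (R : ℕ → ℕ → Prop) (i : ℕ) : Ch R 0 i :=
  ⟨fun _ => i, fun a b h1 h2 => by omega, rfl⟩

theorem ch_succ (R : ℕ → ℕ → Prop) (hR : ∀ x y z, R x y → R y z → R x z) (l i j : ℕ)
    (h : Ch R l i) (hij : i < j) (hr : R i j) : Ch R (l + 1) j := by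
  obtain ⟨φ, h1, h2⟩ := h
  refine ⟨fun a => if a ≤ l then φ a else j, ?_, by simp⟩
  intro a b hab hb
  have ha : a ≤ l := by omega
  by_cases hbl : b ≤ l
  · simp only [ha, hbl, if_true]
    exact h1 a b hab hbl
  · simp only [ha, hbl, if_true, if_false]
    by_cases hal : a = l
    · subst hal
      rw [h2]
      exact ⟨hij, hr⟩
    · have h3 := h1 a l (by omega) le_rfl
      rw [h2] at h3
      exact ⟨h3.1.trans hij, hR _ _ _ h3.2 hr⟩

end E9aux

open E9aux in
theorem E9 : PE9 := by
  classical
  intro m M μ hM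
  set R : ℕ → ℕ → Prop := fun x y => μ x ≤ μ y with hR
  set R' : ℕ → ℕ → Prop := fun x y => μ y ≤ μ x with hR'
  have htr : ∀ x y z, R x y → R y z → R x z := fun x y z => le_trans
  have htr' : ∀ x y z, R' x y → R' y z → R' x z := fun x y z h1 h2 => le_trans h2 h1
  have hfin : ∀ i < M, Ch R m i ∨ Ch R' m i → ∃ φ : ℕ → ℕ,
      (∀ a b, a < b → b ≤ m → φ a < φ b) ∧ (∀ a, a ≤ m → φ a < M) ∧
      ((∀ a b, a < b → b ≤ m → μ (φ a) ≤ μ (φ b)) ∨
        (∀ a b, a < b → b ≤ m → μ (φ b) ≤ μ (φ a))) := by
    rintro i hi (⟨φ, h1, h2⟩ | ⟨φ, h1, h2⟩)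
    · refine ⟨φ, fun a b h3 h4 => (h1 a b h3 h4).1, fun a ha => ?_,
        Or.inl fun a b h3 h4 => (h1 a b h3 h4).2⟩
      rcases eq_or_lt_of_le ha with h | h
      · rw [h, h2]; exact hi
      · exact ((h1 a m h le_rfl).1.trans_eq h2).trans hi
    · refine ⟨φ, fun a b h3 h4 => (h1 a b h3 h4).1, fun a ha => ?_,
        Or.inr fun a b h3 h4 => (h1 a b h3 h4).2⟩
      rcases eq_or_lt_of_le ha with h | h
      · rw [h, h2]; exact hi
      · exact ((h1 a m h le_rfl).1.trans_eq h2).trans hi
  set f : ℕ → ℕ × ℕ := fun i => (Nat.findGreatest (fun l => Ch R l i) m,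
    Nat.findGreatest (fun l => Ch R' l i) m) with hf
  have hcard : (Finset.range (m + 1) ×ˢ Finset.range (m + 1)).card < (Finset.range M).card := by
    rw [Finset.card_product, Finset.card_range, Finset.card_range, ← pow_two]
    exact hM
  obtain ⟨i, hi, j, hj, hne, heq⟩ := Finset.exists_ne_map_eq_of_card_lt_of_maps_to hcard
    (f := f) (fun i _ => by
      simp only [hf, Finset.coe_product, Set.mem_prod, Finset.mem_coe, Finset.mem_range]
      exact ⟨Nat.lt_succ_of_le (Nat.findGreatest_le m), Nat.lt_succ_of_le (Nat.findGreatest_le m)⟩)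
  have key : ∀ i j : ℕ, i < M → i < j → f i = f j → Ch R m i ∨ Ch R' m i := by
    intro i j _ hij hfe
    by_contra hc
    push Not at hc
    rw [hf, Prod.mk.injEq] at hfe
    rcases le_total (μ i) (μ j) with h | h
    · have h1 : Ch R (Nat.findGreatest (fun l => Ch R l i) m) i :=
        Nat.findGreatest_spec (P := fun l => Ch R l i) (Nat.zero_le m) (ch_zero R i)
      have h2 := ch_succ R htr _ i j h1 hij h
      have h3 : Nat.findGreatest (fun l => Ch R l i) m ≤ m := Nat.findGreatest_le m
      rcases eq_or_lt_of_le h3 with h4 | h4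
      · rw [h4] at h1; exact hc.1 h1
      · have h5 := Nat.le_findGreatest (P := fun l => Ch R l j) (Nat.succ_le_of_lt h4) h2
        rw [← hfe.1] at h5
        omega
    · have h1 : Ch R' (Nat.findGreatest (fun l => Ch R' l i) m) i :=
        Nat.findGreatest_spec (P := fun l => Ch R' l i) (Nat.zero_le m) (ch_zero R' i)
      have h2 := ch_succ R' htr' _ i j h1 hij h
      have h3 : Nat.findGreatest (fun l => Ch R' l i) m ≤ m := Nat.findGreatest_le m
      rcases eq_or_lt_of_le h3 with h4 | h4
      · rw [h4] at h1; exact hc.2 h1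
      · have h5 := Nat.le_findGreatest (P := fun l => Ch R' l j) (Nat.succ_le_of_lt h4) h2
        rw [← hfe.2] at h5
        omega
  rw [Finset.mem_range] at hi hj
  rcases lt_or_gt_of_ne hne with h | h
  · exact hfin i hi (key i j hi h heq)
  · exact hfin j hj (key j i hj h heq.symm)

end Pool.Agent.PEmb

end

section

/-!
# MP_cfa43e_lc, item M1: the table of the codes in `C` of bounded size is computable
-/

set_option autoImplicit false

namespace Pool.Agent.PEmb

namespace IM1

/-- all bit strings of length at most `n` -/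
def strs (n : ℕ) : List (List Bool) :=
  Nat.rec [[]] (fun _ IH => [] :: IH.flatMap fun w => [true :: w, false :: w]) n

/-- all lists of length at most `n` with entries in `s` -/
def cods (s : List (List Bool)) (n : ℕ) : List Code :=
  Nat.rec [[]] (fun _ IH => [] :: IH.flatMap fun c => s.map fun r => r :: c) n

theorem mem_strs : ∀ (n : ℕ) (w : List Bool), w.length ≤ n → w ∈ strs n := by
  intro n
  induction n with
  | zero =>
    intro w hw
    have : w = [] := List.length_eq_zero_iff.1 (by omega)
    subst this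
    simp [strs]
  | succ n ih =>
    intro w hw
    have he : strs (n + 1) = [] :: (strs n).flatMap fun w => [true :: w, false :: w] := rfl
    rw [he]
    rcases w with _ | ⟨b, w⟩
    · simp
    · have h1 := ih w (by simpa using hw)
      refine List.mem_cons_of_mem _ (List.mem_flatMap.2 ⟨w, h1, ?_⟩)
      cases b <;> simp

theorem mem_cods (s : List (List Bool)) : ∀ (n : ℕ) (c : Code), c.length ≤ n →
    (∀ r ∈ c, r ∈ s) → c ∈ cods s n := by
  intro n
  induction n with
  | zero =>
    intro c hc _
    have : c = [] := List.length_eq_zero_iff.1 (by omega)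
    subst this
    simp [cods]
  | succ n ih =>
    intro c hc hs
    have he : cods s (n + 1) = [] :: (cods s n).flatMap fun c => s.map fun r => r :: c := rfl
    rw [he]
    rcases c with _ | ⟨r, c⟩
    · simp
    · have h1 := ih c (by simpa using hc) (fun r hr => hs r (List.mem_cons_of_mem _ hr))
      refine List.mem_cons_of_mem _ (List.mem_flatMap.2 ⟨c, h1, ?_⟩)
      exact List.mem_map.2 ⟨r, hs r (List.mem_cons_self ..), rfl⟩

theorem primrec_strs : Primrec strs := by
  refine Primrec.nat_rec₁ (f := fun _ IH => [] :: IH.flatMap fun w => [true :: w, false :: w])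
    [[]] ?_
  refine Primrec.list_cons.comp (Primrec.const []) ?_
  refine Primrec.list_flatMap Primrec.snd ?_
  refine Primrec.list_cons.comp (Primrec.list_cons.comp (Primrec.const true) Primrec.snd) ?_
  exact Primrec.list_cons.comp (Primrec.list_cons.comp (Primrec.const false) Primrec.snd)
    (Primrec.const [])

theorem primrec_cods : Primrec₂ cods := by
  refine Primrec.nat_rec (f := fun _ : List (List Bool) => ([[]] : List Code))
    (g := fun s (p : ℕ × List Code) => [] :: p.2.flatMap fun c => s.map fun r => r :: c)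
    (Primrec.const [[]]) ?_
  refine Primrec.list_cons.comp (Primrec.const []) ?_
  refine Primrec.list_flatMap (Primrec.snd.comp Primrec.snd) ?_
  refine Primrec.list_map (Primrec.fst.comp Primrec.fst) ?_
  exact Primrec.list_cons.comp Primrec.snd (Primrec.snd.comp Primrec.fst)

theorem primrec_delimit : Primrec N487b59b3.delimit := by
  have h : N487b59b3.delimit = fun l : List Bool =>
      l.foldr (fun b s => true :: b :: s) [false] := by
    funext l
    induction l with
    | nil => rfl
    | cons b l ih => simp [N487b59b3.delimit, ih]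
  rw [h]
  refine Primrec.list_foldr (h := fun (_ : List Bool) (p : Bool × List Bool) =>
    true :: p.1 :: p.2) Primrec.id (Primrec.const [false]) ?_
  exact Primrec.list_cons.comp (Primrec.const true)
    (Primrec.list_cons.comp (Primrec.fst.comp Primrec.snd) (Primrec.snd.comp Primrec.snd))

theorem primrec_row : Primrec fun r : List Bool => N487b59b3.bitEncode r := by
  have h : (fun r : List Bool => N487b59b3.bitEncode r) = fun l : List Bool =>
      l.foldr (fun b s => true :: b :: false :: s) [] := by
    funext l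
    induction l with
    | nil => rfl
    | cons b l ih =>
      have h1 : N487b59b3.bitEncode (b :: l) = true :: b :: false :: N487b59b3.bitEncode l := rfl
      rw [h1, List.foldr_cons, ← ih]
  rw [h]
  refine Primrec.list_foldr (h := fun (_ : List Bool) (p : Bool × List Bool) =>
    true :: p.1 :: false :: p.2) Primrec.id (Primrec.const []) ?_
  exact Primrec.list_cons.comp (Primrec.const true)
    (Primrec.list_cons.comp (Primrec.fst.comp Primrec.snd)
      (Primrec.list_cons.comp (Primrec.const false) (Primrec.snd.comp Primrec.snd)))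

theorem primrec_code : Primrec fun c : Code => N487b59b3.bitEncode c := by
  have h : (fun c : Code => N487b59b3.bitEncode c) = fun c : Code =>
      c.foldr (fun r s => N487b59b3.delimit (N487b59b3.bitEncode r) ++ s) [] := by
    funext c
    induction c with
    | nil => rfl
    | cons r c ih =>
      have h1 : N487b59b3.bitEncode (r :: c) =
          N487b59b3.delimit (N487b59b3.bitEncode r) ++ N487b59b3.bitEncode c := rfl
      rw [h1, List.foldr_cons, ← ih]
  rw [h]
  refine Primrec.list_foldr (h := fun (_ : Code) (p : List Bool × List Bool) =>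
    N487b59b3.delimit (N487b59b3.bitEncode p.1) ++ p.2) Primrec.id (Primrec.const []) ?_
  exact Primrec.list_append.comp (primrec_delimit.comp
    (primrec_row.comp (Primrec.fst.comp Primrec.snd))) (Primrec.snd.comp Primrec.snd)

theorem length_row (r : List Bool) : (N487b59b3.bitEncode r).length = 3 * r.length := by
  induction r with
  | nil => rfl
  | cons b r ih =>
    have h : N487b59b3.bitEncode (b :: r) = true :: b :: false :: N487b59b3.bitEncode r := rfl
    rw [h, List.length_cons, List.length_cons, List.length_cons, ih, List.length_cons]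
    omega

theorem length_code (c : Code) : c.length ≤ (N487b59b3.bitEncode c).length ∧
    ∀ r ∈ c, r.length ≤ (N487b59b3.bitEncode c).length := by
  induction c with
  | nil => simp
  | cons r c ih =>
    have h : N487b59b3.bitEncode (r :: c) =
        N487b59b3.delimit (N487b59b3.bitEncode r) ++ N487b59b3.bitEncode c := rfl
    rw [h, List.length_append, N487b59b3.length_delimit, length_row, List.length_cons]
    refine ⟨by omega, ?_⟩
    intro r' hr'
    rcases List.mem_cons.1 hr' with rfl | hr'
    · omega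
    · have := ih.2 r' hr'
      omega

/-- the encodings of the entries of the list with `f = true` -/
def sel (f : Code → Bool) (l : List Code) (n : ℕ) : List (List Bool) :=
  Nat.rec [] (fun y IH => Option.casesOn (l[y]?) IH
    fun a => bif f a then IH ++ [N487b59b3.bitEncode a] else IH) n

theorem mem_sel (f : Code → Bool) (l : List Code) (n : ℕ) (x : List Bool) :
    x ∈ sel f l n ↔ ∃ i, i < n ∧ ∃ a, l[i]? = some a ∧ f a = true ∧
      x = N487b59b3.bitEncode a := by
  induction n with
  | zero => simp [sel]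
  | succ n ih =>
    have he : sel f l (n + 1) = Option.casesOn (l[n]?) (sel f l n)
        fun a => bif f a then sel f l n ++ [N487b59b3.bitEncode a] else sel f l n := rfl
    rw [he]
    have hstep : (∃ i, i < n + 1 ∧ ∃ a, l[i]? = some a ∧ f a = true ∧
        x = N487b59b3.bitEncode a) ↔ ((∃ i, i < n ∧ ∃ a, l[i]? = some a ∧ f a = true ∧
        x = N487b59b3.bitEncode a) ∨ ∃ a, l[n]? = some a ∧ f a = true ∧
        x = N487b59b3.bitEncode a) := by
      constructor
      · rintro ⟨i, hi, h⟩
        rcases Nat.lt_succ_iff_lt_or_eq.1 hi with h1 | rfl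
        · exact Or.inl ⟨i, h1, h⟩
        · exact Or.inr h
      · rintro (⟨i, hi, h⟩ | h)
        · exact ⟨i, by omega, h⟩
        · exact ⟨n, by omega, h⟩
    rw [hstep, ← ih]
    rcases hl : l[n]? with _ | a
    · simp
    · rcases hf : f a with _ | _
      · simp [hf]
      · simp [hf]

theorem comp_sel (f : Code → Bool) (hf : Computable f) :
    Computable fun l : List Code => sel f l l.length := by
  refine Computable.nat_rec (f := fun l : List Code => l.length) (g := fun _ => [])
    (h := fun (l : List Code) (p : ℕ × List (List Bool)) => Option.casesOn (l[p.1]?) p.2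
      fun a => bif f a then p.2 ++ [N487b59b3.bitEncode a] else p.2)
    Computable.list_length (Computable.const []) ?_
  refine Computable.option_casesOn
    (Computable.list_getElem?.comp Computable.fst (Computable.fst.comp Computable.snd))
    (Computable.snd.comp Computable.snd) ?_
  refine Computable.cond (hf.comp Computable.snd) ?_
    (Computable.snd.comp (Computable.snd.comp Computable.fst))
  exact Computable.list_concat.comp (Computable.snd.comp (Computable.snd.comp Computable.fst))
    (primrec_code.to_comp.comp Computable.snd)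

end IM1

open IM1 in
theorem M1 : PM1 := by
  rintro C ⟨hd, hc⟩
  refine ⟨fun m => sel (fun a => decide (C a)) (cods (strs m) m) (cods (strs m) m).length, ?_, ?_⟩
  · exact (comp_sel _ hc).comp (primrec_cods.comp primrec_strs Primrec.id).to_comp
  · intro m A hA
    obtain ⟨h1, h2⟩ := length_code A
    rw [mem_sel]
    constructor
    · rintro ⟨i, -, a, -, ha, he⟩
      have : A = a := N487b59b3.bitEncode_injective he
      subst this
      simpa using ha
    · intro hCA
      have hm : A ∈ cods (strs m) m :=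
        mem_cods _ _ _ (by omega) fun r hr => mem_strs _ _ (by have := h2 r hr; omega)
      obtain ⟨i, hi, rfl⟩ := List.mem_iff_getElem.1 hm
      exact ⟨i, hi, _, List.getElem?_eq_getElem hi, by simpa using hCA, rfl⟩

end Pool.Agent.PEmb

end

section

/-!
# M3: cliques of the graph of pairs are embeddings
-/

set_option autoImplicit false

namespace Pool.Agent.PEmb

namespace IM3

lemma adjB_iff (G : Code) (u v : ℕ) :
    adjB G u v = true ↔ u ≠ v ∧ (entry G u v = true ∨ entry G v u = true) := by
  simp [adjB]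

lemma adjB_symm (G : Code) (u v : ℕ) (h : adjB G u v = true) : adjB G v u = true := by
  rw [adjB_iff] at h ⊢
  exact ⟨h.1.symm, h.2.symm⟩

lemma graph_adj (G : Code) (a b : Fin G.length) : (graph G).Adj a b ↔ adjB G a b = true := by
  rw [adjB_iff]
  constructor
  · rintro ⟨h1, h2⟩
    exact ⟨fun h => h1 (Fin.ext h), h2⟩
  · rintro ⟨h1, h2⟩
    exact ⟨fun h => h1 (congrArg Fin.val h), h2⟩

lemma entry_prod (A B : Code) (p q : ℕ) (hp : p < A.length * B.length)
    (hq : q < A.length * B.length) : entry (prod A B) p q = true ↔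
      p / B.length ≠ q / B.length ∧ p % B.length ≠ q % B.length ∧
        (adjB A (p / B.length) (q / B.length) = true →
          adjB B (p % B.length) (q % B.length) = true) := by
  have h1 : entry (prod A B) p q = (decide (p / B.length ≠ q / B.length) &&
      decide (p % B.length ≠ q % B.length) &&
      (!(adjB A (p / B.length) (q / B.length)) || adjB B (p % B.length) (q % B.length))) := by
    simp [entry, prod, List.getD_eq_getElem?_getD, hp, hq]
  rw [h1]
  simp only [Bool.and_eq_true, decide_eq_true_eq, Bool.or_eq_true, Bool.not_eq_true']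
  cases adjB A (p / B.length) (q / B.length) <;> simp [and_assoc]

lemma adj_prod (A B : Code) (p q : Fin (prod A B).length) : (graph (prod A B)).Adj p q ↔
      (p : ℕ) / B.length ≠ q / B.length ∧ (p : ℕ) % B.length ≠ q % B.length ∧
        (adjB A (p / B.length) (q / B.length) = true →
          adjB B (p % B.length) (q % B.length) = true) := by
  have hl : (prod A B).length = A.length * B.length := by simp [prod]
  have hp : (p : ℕ) < A.length * B.length := hl ▸ p.2
  have hq : (q : ℕ) < A.length * B.length := hl ▸ q.2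
  constructor
  · rintro ⟨-, h | h⟩
    · exact (entry_prod A B p q hp hq).1 h
    · obtain ⟨h1, h2, h3⟩ := (entry_prod A B q p hq hp).1 h
      exact ⟨h1.symm, h2.symm, fun h => adjB_symm _ _ _ (h3 (adjB_symm _ _ _ h))⟩
  · intro h
    refine ⟨fun hpq => h.1 (by rw [hpq]), Or.inl ((entry_prod A B p q hp hq).2 h)⟩

end IM3

open IM3 in
theorem M3 : PM3 := by
  classical
  intro A B
  have hl : (prod A B).length = A.length * B.length := by simp [prod]
  constructor
  · rintro ⟨(s : Finset (Fin (prod A B).length)), hs⟩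
    have hcard : s.card = A.length := hs.card_eq
    have hcl := hs.isClique
    have hadj : ∀ p ∈ s, ∀ q ∈ s, p ≠ q → (p : ℕ) / B.length ≠ q / B.length ∧
        (p : ℕ) % B.length ≠ q % B.length ∧
        (adjB A (p / B.length) (q / B.length) = true →
          adjB B (p % B.length) (q % B.length) = true) := fun p hp q hq hpq =>
      (adj_prod A B p q).1 (hcl hp hq hpq)
    have hdlt : ∀ p : Fin (prod A B).length, (p : ℕ) / B.length < A.length := by
      intro p
      have hp : (p : ℕ) < A.length * B.length := hl ▸ p.2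
      exact Nat.div_lt_of_lt_mul (by rwa [Nat.mul_comm] at hp)
    have hBpos : ∀ _p : Fin (prod A B).length, 0 < B.length := by
      intro p
      have hp : (p : ℕ) < A.length * B.length := hl ▸ p.2
      rcases Nat.eq_zero_or_pos B.length with h | h
      · rw [h] at hp; omega
      · exact h
    -- the projection to the first coordinate is onto
    have hsurj : ∀ a : Fin A.length, ∃ p ∈ s, (p : ℕ) / B.length = a := by
      have himg : s.image (fun p : Fin (prod A B).length =>
          (⟨(p : ℕ) / B.length, hdlt p⟩ : Fin A.length)) = Finset.univ := by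
        apply Finset.eq_univ_of_card
        rw [Finset.card_image_of_injOn, hcard, Fintype.card_fin]
        intro p hp q hq hpq
        by_contra hne
        exact (hadj p hp q hq hne).1 (congrArg Fin.val hpq)
      intro a
      have ha : a ∈ s.image (fun p : Fin (prod A B).length =>
          (⟨(p : ℕ) / B.length, hdlt p⟩ : Fin A.length)) := by
        rw [himg]; exact Finset.mem_univ a
      rw [Finset.mem_image] at ha
      obtain ⟨p, hp, h⟩ := ha
      exact ⟨p, hp, congrArg Fin.val h⟩
    choose g hg1 hg2 using hsurj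
    refine ⟨fun a => ⟨(g a : ℕ) % B.length, Nat.mod_lt _ (hBpos (g a))⟩, ?_, ?_⟩
    · intro a b hab
      by_contra hne
      have hgne : g a ≠ g b := by
        intro h
        apply hne
        apply Fin.ext
        rw [← hg2 a, ← hg2 b, h]
      exact (hadj _ (hg1 a) _ (hg1 b) hgne).2.1 (congrArg Fin.val hab)
    · intro a b hab
      have hgne : g a ≠ g b := by
        intro h
        apply hab.1
        apply Fin.ext
        rw [← hg2 a, ← hg2 b, h]
      rw [graph_adj] at hab ⊢
      have h3 := (hadj _ (hg1 a) _ (hg1 b) hgne).2.2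
      rw [hg2 a, hg2 b] at h3
      exact h3 hab
  · rintro ⟨f, hf, hadj⟩
    have hlt : ∀ a : Fin A.length, (a : ℕ) * B.length + (f a : ℕ) < (prod A B).length := by
      intro a
      rw [hl]
      have h1 := (f a).2
      have h2 : (a : ℕ) + 1 ≤ A.length := a.2
      calc (a : ℕ) * B.length + (f a : ℕ) < (a : ℕ) * B.length + B.length := by omega
        _ = ((a : ℕ) + 1) * B.length := by ring
        _ ≤ A.length * B.length := Nat.mul_le_mul_right _ h2
    have hdiv : ∀ a : Fin A.length, ((a : ℕ) * B.length + (f a : ℕ)) / B.length = a := by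
      intro a
      have h1 := (f a).2
      rw [Nat.add_comm, Nat.add_mul_div_right _ _ (by omega), Nat.div_eq_of_lt h1, Nat.zero_add]
    have hmod : ∀ a : Fin A.length, ((a : ℕ) * B.length + (f a : ℕ)) % B.length = f a := by
      intro a
      have h1 := (f a).2
      rw [Nat.add_comm, Nat.add_mul_mod_self_right, Nat.mod_eq_of_lt h1]
    set F : Fin A.length → Fin (prod A B).length := fun a => ⟨_, hlt a⟩ with hF
    have hFinj : Function.Injective F := by
      intro a b hab
      have h1 := congrArg Fin.val hab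
      simp only [hF] at h1
      apply Fin.ext
      rw [← hdiv a, ← hdiv b, h1]
    refine ⟨Finset.univ.image F, ?_, ?_⟩
    · intro p hp q hq hpq
      rw [Finset.mem_coe, Finset.mem_image] at hp hq
      obtain ⟨a, -, rfl⟩ := hp
      obtain ⟨b, -, rfl⟩ := hq
      have hab : a ≠ b := fun h => hpq (by rw [h])
      rw [adj_prod]
      simp only [hF]
      rw [hdiv, hdiv, hmod, hmod]
      refine ⟨fun h => hab (Fin.ext h), fun h => hab (hf (Fin.ext h)), fun h => ?_⟩
      rw [← graph_adj]
      rw [← graph_adj] at h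
      exact hadj a b h
    · rw [Finset.card_image_of_injective _ hFinj, Finset.card_univ, Fintype.card_fin]

end Pool.Agent.PEmb

end

section

/-!
# Assembly of the main theorem (first version) from the items
-/

set_option autoImplicit false

namespace Pool.Agent.PEmb

theorem E23_of (h20 : PE20) (h22 : PE22) : PE23 := by
  intro k
  obtain ⟨K, hK⟩ := h22 k
  refine ⟨K, fun {V} G B hB => ?_⟩
  obtain ⟨B', L, X, Y, e, μ, h⟩ := hK G B hB
  exact h20 G K B' k L X Y e μ h

theorem length_codeA (k : ℕ) (t : List (List ℕ)) : (codeA k t).length = (vl k t).length := by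
  simp [codeA]

theorem length_adv (k : ℕ) (t : List (List ℕ)) : (adv k t).length / 2 = (vl k t).length := by
  simp only [adv, List.length_append, length_codeA, List.length_map]
  omega

theorem aCode_adv (k : ℕ) (t : List (List ℕ)) : aCode (adv k t) = codeA k t := by
  unfold aCode
  rw [length_adv, ← length_codeA]
  unfold adv
  exact List.take_left

theorem exists_par (h23 : PE23) (q3 : PQ3) (q4 : PQ4) (C : Code → Prop) (hm : Monotone C)
    (hg : ∀ K, ∃ A, C A ∧ ∃ B, Grid (graph A) K B) (k : ℕ) :
    ∃ t, AdmL k t ∧ C (codeA k t) := by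
  obtain ⟨K, hK⟩ := h23 k
  obtain ⟨A, hA, B, hB⟩ := hg K
  obtain ⟨P, hP, hpat⟩ := hK (graph A) B hB
  obtain ⟨t, ht, hpt⟩ := q4 k P (graph A) hP hpat
  exact ⟨t, ht, hm _ A hA (q3 k t (graph A) ht hpt)⟩

theorem red_fst (k : ℕ) (t : List (List ℕ)) (x : Code × ℕ) :
    (red (adv k t, x)).1 = codeA k t := aCode_adv k t

theorem comp_diag {α β γ : Type} [Primcodable α] [Primcodable β] [Primcodable γ]
    (F : α → β → γ) (hF : Computable fun p : α × β => F p.1 p.2) (T : α → β)
    (hT : Computable T) : Computable fun k => F k (T k) :=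
  Computable.comp hF (Computable.pair Computable.id hT)

theorem main_of (h23 : PE23) (q3 : PQ3) (q4 : PQ4) (q7 : PQ7) (q8 : PQ8) (q9 : PQ9) (q10 : PQ10)
    (q11 : PQ11) : PMain := by
  intro C hC hm hg
  obtain ⟨T, hT, hT2⟩ := q8 C hC (exists_par h23 q3 q4 C hm hg)
  have c2 : Computable fun k => adv k (T k) := comp_diag adv q7.2.to_comp T hT
  have c3 : Computable fun k => codeA k (T k) := comp_diag codeA q7.1.to_comp T hT
  have c4 : Computable fun k => (N487b59b3.bitEncode (codeA k (T k))).length :=
    Computable.comp (f := fun c : Code => (N487b59b3.bitEncode c).length) q11.to_comp c3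
  refine ⟨_, _, red, c2, c4, q9, ?_⟩
  rintro ⟨G, k⟩
  obtain ⟨h1, h2⟩ := hT2 k
  have e := red_fst k (T k) (G, k)
  constructor
  · have h3 := q10 k (T k) h1 G
    constructor
    · intro h
      refine ⟨?_, h3.1 h⟩
      rw [← e] at h2
      exact h2
    · exact fun h => h3.2 h.2
  · show (N487b59b3.bitEncode (red (adv k (T k), (G, k))).1).length ≤ _
    rw [e]
    exact le_refl _

theorem M4_of (m1 : PM1) (m2 : PM2) (m3 : PM3) : PM4 := by
  intro C hC
  obtain ⟨g, hg, hg2⟩ := m1 C hC
  refine ⟨g, fun m => m + 1, redM, hg, Computable.succ, m2, fun x => ?_⟩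
  obtain ⟨A, B⟩ := x
  have h1 := hg2 (embParam (A, B)) A (le_refl _)
  have hlen : A.length ≤ (N487b59b3.bitEncode A).length := by
    have h : N487b59b3.bitEncode A = ((A.map N487b59b3.bitEncode).map N487b59b3.delimit).flatten :=
      rfl
    rw [h, List.length_flatten, List.map_map, List.map_map]
    clear h h1
    induction A with
    | nil => simp
    | cons a A ih =>
      simp only [List.length_cons, List.map_cons, List.sum_cons, Function.comp_apply]
      have : 1 ≤ (N487b59b3.delimit (N487b59b3.bitEncode a)).length := by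
        cases N487b59b3.bitEncode a <;> simp [N487b59b3.delimit]
      have ih' : A.length ≤ (A.map (List.length ∘ N487b59b3.delimit ∘ N487b59b3.bitEncode)).sum :=
        ih
      have h2 : (A.map (List.length ∘ N487b59b3.delimit ∘ N487b59b3.bitEncode)).sum =
        (List.map ((List.length ∘ N487b59b3.delimit) ∘ N487b59b3.bitEncode) A).sum := rfl
      omega
  by_cases hA : N487b59b3.bitEncode A ∈ g (embParam (A, B))
  · have e : redM (g (embParam (A, B)), (A, B)) = (prod A B, A.length) := if_pos hA
    rw [e, m3 A B]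
    refine ⟨⟨fun h => h.2, fun h => ⟨h1.1 hA, h⟩⟩, ?_⟩
    show A.length ≤ (N487b59b3.bitEncode A).length + 1
    omega
  · have e : redM (g (embParam (A, B)), (A, B)) = ([], 1) := if_neg hA
    rw [e]
    refine ⟨⟨fun h => absurd (h1.2 h.1) hA, fun h => ?_⟩, ?_⟩
    · obtain ⟨s, hs⟩ := h
      have h2 : s.card = 1 := hs.card_eq
      obtain ⟨i, -⟩ := Finset.card_pos.1 (by omega : 0 < s.card)
      exact absurd i.2 (Nat.not_lt_zero _)
    · show 1 ≤ _
      simp

end Pool.Agent.PEmb

end

section

/-!
# Q1: the list of vertices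
-/

set_option autoImplicit false

namespace Pool.Agent.PEmb

namespace IQ1

lemma nodup_fm {α β : Type} {l : List α} {f : α → List β} (hl : l.Nodup)
    (h1 : ∀ x ∈ l, (f x).Nodup) (h2 : ∀ x y a, a ∈ f x → a ∈ f y → x = y) :
    (l.flatMap f).Nodup := by
  rw [List.nodup_flatMap]
  refine ⟨h1, ?_⟩
  refine List.Pairwise.imp ?_ hl
  intro x y hxy
  rw [Function.onFun, List.disjoint_left]
  intro a ha hb
  exact hxy (h2 x y a ha hb)

lemma mem_vl (k : ℕ) (t : List (List ℕ)) (x : LC) : x ∈ vl k t ↔
    ∃ o < 3, ∃ i < k, ∃ j < k, ∃ s < cnt k t o i j, (o, i, j, if o = 0 then s else s + 1) = x := by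
  simp only [vl, List.mem_flatMap, List.mem_range, List.mem_map]

end IQ1

open IQ1 in
theorem Q1 : PQ1 := by
  intro k t
  constructor
  · unfold vl
    refine nodup_fm List.nodup_range (fun o _ => nodup_fm List.nodup_range (fun i _ =>
      nodup_fm List.nodup_range (fun j _ => ?_) ?_) ?_) ?_
    · refine List.Nodup.map ?_ List.nodup_range
      intro s s' hss
      simp only [Prod.mk.injEq, true_and] at hss
      split_ifs at hss <;> omega
    · intro j j' a ha hb
      rw [List.mem_map] at ha hb
      obtain ⟨s, _, rfl⟩ := ha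
      obtain ⟨s', _, h⟩ := hb
      simp only [Prod.mk.injEq] at h
      exact h.2.2.1.symm
    · intro i i' a ha hb
      simp only [List.mem_flatMap, List.mem_map] at ha hb
      obtain ⟨j, _, s, _, rfl⟩ := ha
      obtain ⟨j', _, s', _, h⟩ := hb
      simp only [Prod.mk.injEq] at h
      exact h.2.1.symm
    · intro o o' a ha hb
      simp only [List.mem_flatMap, List.mem_map] at ha hb
      obtain ⟨i, _, j, _, s, _, rfl⟩ := ha
      obtain ⟨i', _, j', _, s', _, h⟩ := hb
      simp only [Prod.mk.injEq] at h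
      exact h.1.symm
  · intro x
    rw [mem_vl]
    constructor
    · rintro ⟨o, ho, i, hi, j, hj, s, hs, rfl⟩
      have ho' : o = 0 ∨ o = 1 ∨ o = 2 := by omega
      rcases ho' with h | h | h
      · subst h
        refine ⟨.core i j s, ⟨hi, hj, ?_⟩, rfl⟩
        simpa [cnt] using hs
      · subst h
        simp only [cnt, one_ne_zero, if_false, if_true] at hs
        split_ifs at hs with hc
        · refine ⟨.leg false i j (s + 1), ⟨⟨hi, hc⟩, by omega, by omega⟩, ?_⟩
          simp [labC]
        · omega
      · subst h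
        have hs' : s < if i + 1 < k then (parOf k t).l true i j - 1 else 0 := by
          simpa [cnt] using hs
        split_ifs at hs' with hc
        swap
        · omega
        refine ⟨.leg true i j (s + 1), ⟨⟨hc, hj⟩, by omega, by omega⟩, ?_⟩
        simp [labC]
    · rintro ⟨y, hy, rfl⟩
      match y, hy with
      | .core i j s, ⟨hi, hj, hs⟩ =>
        refine ⟨0, by omega, i, hi, j, hj, s, ?_, ?_⟩
        · simpa [cnt] using hs
        · simp [labC]
      | .leg false i j s, ⟨⟨hi, hj⟩, h1, h2⟩ =>
        simp only [nx] at hi hj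
        refine ⟨1, by omega, i, hi, j, by omega, s - 1, ?_, ?_⟩
        · simp only [cnt, one_ne_zero, if_false, if_true, if_pos hj]
          omega
        · simp only [labC, one_ne_zero, if_false]
          congr 3
          omega
      | .leg true i j s, ⟨⟨hi, hj⟩, h1, h2⟩ =>
        simp only [nx] at hi hj
        refine ⟨2, by omega, i, by omega, j, hj, s - 1, ?_, ?_⟩
        · simp only [cnt]
          norm_num
          rw [if_pos hi]
          omega
        · simp only [labC]
          norm_num
          omega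

end Pool.Agent.PEmb

end

section

/-!
# Q11: the length of the encoding is primitive recursive
-/

set_option autoImplicit false

namespace Pool.Agent.PEmb

namespace IQ11

theorem length_row (r : List Bool) : (N487b59b3.bitEncode r).length = 3 * r.length := by
  induction r with
  | nil => rfl
  | cons b r ih =>
    have h : N487b59b3.bitEncode (b :: r) =
        N487b59b3.delimit (N487b59b3.bitEncode b) ++ N487b59b3.bitEncode r := rfl
    have hb : (N487b59b3.bitEncode b).length = 1 := rfl
    rw [h, List.length_append, N487b59b3.length_delimit, ih, hb, List.length_cons]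
    omega

theorem length_code (c : Code) : (N487b59b3.bitEncode c).length =
    c.foldr (fun r s => 6 * r.length + 1 + s) 0 := by
  induction c with
  | nil => rfl
  | cons r c ih =>
    have h : N487b59b3.bitEncode (r :: c) =
        N487b59b3.delimit (N487b59b3.bitEncode r) ++ N487b59b3.bitEncode c := rfl
    rw [h, List.length_append, N487b59b3.length_delimit, ih, length_row, List.foldr_cons]
    omega

end IQ11

theorem Q11 : PQ11 := by
  unfold PQ11
  have h : (fun c : Code => (N487b59b3.bitEncode c).length) =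
      fun c => c.foldr (fun r s => 6 * r.length + 1 + s) 0 := funext IQ11.length_code
  rw [h]
  refine Primrec.list_foldr (h := fun (_ : Code) (p : List Bool × ℕ) => 6 * p.1.length + 1 + p.2) Primrec.id
    (Primrec.const 0) ?_
  have h1 : Primrec fun x : Code × (List Bool × ℕ) => x.2.1.length :=
    Primrec.list_length.comp (Primrec.fst.comp Primrec.snd)
  have h2 : Primrec fun x : Code × (List Bool × ℕ) => 6 * x.2.1.length + 1 :=
    Primrec.succ.comp (Primrec.nat_mul.comp (Primrec.const 6) h1)
  exact Primrec.nat_add.comp h2 (Primrec.snd.comp Primrec.snd)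

end Pool.Agent.PEmb

end

section

/-!
# Q12: cliques as functions
-/

set_option autoImplicit false

namespace Pool.Agent.PEmb

theorem Q12 : PQ12 := by
  classical
  intro G k hG
  constructor
  · rintro ⟨s, hs⟩
    have hc : s.card = k := hs.card_eq
    let e : Fin k ≃o s := s.orderIsoOfFin hc
    refine ⟨fun i => if h : i < k then (e ⟨i, h⟩ : Fin G.length) else ⟨0, hG⟩, ?_⟩
    intro i j hi hj hij
    simp only [hi, hj, dif_pos]
    apply hs.isClique (Finset.mem_coe.2 (e ⟨i, hi⟩).2) (Finset.mem_coe.2 (e ⟨j, hj⟩).2)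
    intro h
    have h2 := e.injective (Subtype.ext h)
    exact hij (by simpa using h2)
  · rintro ⟨w, hw⟩
    have hinj : Set.InjOn w (Finset.range k : Set ℕ) := by
      intro i hi j hj hij
      by_contra hne
      have h := hw i j (Finset.mem_range.1 hi) (Finset.mem_range.1 hj) hne
      exact h.ne hij
    refine ⟨(Finset.range k).image w, ?_⟩
    rw [SimpleGraph.isNClique_iff]
    refine ⟨?_, by rw [Finset.card_image_of_injOn hinj, Finset.card_range]⟩
    intro x hx y hy hxy
    rw [Finset.mem_coe, Finset.mem_image] at hx hy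
    obtain ⟨i, hi, rfl⟩ := hx
    obtain ⟨j, hj, rfl⟩ := hy
    apply hw i j (Finset.mem_range.1 hi) (Finset.mem_range.1 hj)
    rintro rfl
    exact hxy rfl

end Pool.Agent.PEmb

end

section

set_option autoImplicit false

namespace Pool.Agent.PEmb

/-- edges in terms of coordinates -/
theorem AE_iff (k : ℕ) (P : Par) (y y' : Lab) (h : Vx k P y) (h' : Vx k P y') :
    AE k P y y' ↔
      (∃ i j s s', y = .core i j s ∧ y' = .core i j s' ∧ (s' = s + 1 ∨ (s + 1 = P.z i j ∧ s' = 0))) ∨
      (∃ o i j s s', y = .core i j s ∧ y' = .leg o i j s' ∧ s' = 1 ∧ s = P.r i j (ro o)) ∨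
      (∃ o i j s s', y = .leg o i j s ∧ y' = .leg o i j s' ∧ s' = s + 1) ∨
      (∃ o i j s s', y = .leg o i j s ∧ y' = .core (nx o i j).1 (nx o i j).2 s' ∧
        s + 1 = P.l o i j ∧ s' = P.r (nx o i j).1 (nx o i j).2 (ri o)) := by
  constructor
  · intro hh
    cases hh with
    | cyc i j s hi hj hs => exact Or.inl ⟨i, j, s, s + 1, rfl, rfl, Or.inl rfl⟩
    | close i j hi hj =>
      refine Or.inl ⟨i, j, _, _, rfl, rfl, Or.inr ⟨?_, rfl⟩⟩
      obtain ⟨-, -, h3⟩ := h'
      omega
    | out o i j hx => exact Or.inr (Or.inl ⟨o, i, j, _, _, rfl, rfl, rfl, rfl⟩)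
    | step o i j s hx hs hl => exact Or.inr (Or.inr (Or.inl ⟨o, i, j, _, _, rfl, rfl, rfl⟩))
    | inn o i j hx =>
      refine Or.inr (Or.inr (Or.inr ⟨o, i, j, _, _, rfl, rfl, ?_, rfl⟩))
      obtain ⟨-, h2, h3⟩ := h
      omega
  · rintro (⟨i, j, s, s', rfl, rfl, hh⟩ | ⟨o, i, j, s, s', rfl, rfl, rfl, rfl⟩ |
      ⟨o, i, j, s, s', rfl, rfl, rfl⟩ | ⟨o, i, j, s, s', rfl, rfl, hl, rfl⟩)
    · obtain ⟨hi, hj, hs⟩ := h
      obtain ⟨-, -, hs'⟩ := h'
      rcases hh with rfl | ⟨h1, rfl⟩
      · exact AE.cyc i j s hi hj hs'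
      · have : s = P.z i j - 1 := by omega
        rw [this]
        exact AE.close i j hi hj
    · exact AE.out o i j h'.1
    · exact AE.step o i j s h.1 h.2.1 h'.2.2
    · have : s = P.l o i j - 1 := by omega
      rw [this]
      exact AE.inn o i j h.1

theorem Q2 : PQ2 := by
  intro k t y y' h h'
  rw [AE_iff k (parOf k t) y y' h h']
  rcases y with ⟨i, j, s⟩ | ⟨o, i, j, s⟩ <;> rcases y' with ⟨i', j', s'⟩ | ⟨o', i', j', s'⟩
  · unfold AEc
    dsimp only [labC]
    constructor
    · rintro (⟨-, -, h1, h2, h3⟩ | h | h | h | h | h)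
      · subst h1 h2
        exact Or.inl ⟨_, _, _, _, rfl, rfl, h3⟩
      all_goals simp at h
    · rintro (⟨a, b, c, d, h1, h2, h3⟩ | ⟨a, b, c, d, e, h1, h2, -⟩ | ⟨a, b, c, d, e, h1, h2, -⟩ |
        ⟨a, b, c, d, e, h1, h2, -⟩)
      · cases h1
        cases h2
        exact Or.inl ⟨rfl, rfl, rfl, rfl, h3⟩
      · cases h2
      · cases h1
      · cases h1
  · unfold AEc
    cases o' <;> dsimp only [labC] <;> constructor
    · rintro (h | ⟨-, -, h1, h2, h3, h4⟩ | h | h | h | h)
      · simp at h
      · subst h1 h2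
        exact Or.inr (Or.inl ⟨_, _, _, _, _, rfl, rfl, h3, h4⟩)
      all_goals simp at h
    · rintro (⟨a, b, c, d, h1, h2, h3⟩ | ⟨a, b, c, d, e, h1, h2, h3, h4⟩ |
        ⟨a, b, c, d, e, h1, h2, -⟩ | ⟨a, b, c, d, e, h1, h2, -⟩)
      · cases h2
      · cases h1
        cases h2
        exact Or.inr (Or.inl ⟨rfl, rfl, rfl, rfl, h3, h4⟩)
      all_goals cases h1
    · rintro (h | h | ⟨-, -, h1, h2, h3, h4⟩ | h | h | h)
      · simp at h
      · simp at h
      · subst h1 h2
        exact Or.inr (Or.inl ⟨_, _, _, _, _, rfl, rfl, h3, h4⟩)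
      all_goals simp at h
    · rintro (⟨a, b, c, d, h1, h2, h3⟩ | ⟨a, b, c, d, e, h1, h2, h3, h4⟩ |
        ⟨a, b, c, d, e, h1, h2, -⟩ | ⟨a, b, c, d, e, h1, h2, -⟩)
      · cases h2
      · cases h1
        cases h2
        exact Or.inr (Or.inr (Or.inl ⟨rfl, rfl, rfl, rfl, h3, h4⟩))
      all_goals cases h1
  · unfold AEc
    cases o <;> dsimp only [labC] <;> constructor
    · rintro (h | h | h | h | ⟨-, -, h1, h2, h3, h4⟩ | h)
      · simp at h
      · simp at h
      · simp at h
      · simp at h
      · subst h1 h2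
        exact Or.inr (Or.inr (Or.inr ⟨false, _, _, _, _, rfl, rfl, h3, h4⟩))
      · simp at h
    · rintro (⟨a, b, c, d, h1, h2, h3⟩ | ⟨a, b, c, d, e, h1, h2, h3, h4⟩ |
        ⟨a, b, c, d, e, h1, h2, -⟩ | ⟨a, b, c, d, e, h1, h2, h3, h4⟩)
      · cases h1
      · cases h1
      · cases h2
      · cases h1
        cases h2
        exact Or.inr (Or.inr (Or.inr (Or.inr (Or.inl ⟨rfl, rfl, rfl, rfl, h3, h4⟩))))
    · rintro (h | h | h | h | h | ⟨-, -, h1, h2, h3, h4⟩)
      · simp at h
      · simp at h
      · simp at h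
      · simp at h
      · simp at h
      · subst h1 h2
        exact Or.inr (Or.inr (Or.inr ⟨true, _, _, _, _, rfl, rfl, h3, h4⟩))
    · rintro (⟨a, b, c, d, h1, h2, h3⟩ | ⟨a, b, c, d, e, h1, h2, h3, h4⟩ |
        ⟨a, b, c, d, e, h1, h2, -⟩ | ⟨a, b, c, d, e, h1, h2, h3, h4⟩)
      · cases h1
      · cases h1
      · cases h2
      · cases h1
        cases h2
        exact Or.inr (Or.inr (Or.inr (Or.inr (Or.inr ⟨rfl, rfl, rfl, rfl, h3, h4⟩))))
  · have key : (labC (.leg o i j s)).1 ≠ 0 ∧ (labC (.leg o' i' j' s')).1 ≠ 0 ∧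
        ((labC (.leg o i j s)).1 = (labC (.leg o' i' j' s')).1 ↔ o = o') ∧
        (labC (.leg o i j s)).2 = (i, j, s) ∧ (labC (.leg o' i' j' s')).2 = (i', j', s') := by
      cases o <;> cases o' <;> simp [labC]
    obtain ⟨k1, k2, k3, k4, k5⟩ := key
    unfold AEc
    rw [k4, k5]
    constructor
    · rintro (h | h | h | ⟨-, h1, h2, h3, h4⟩ | h | h)
      · exact absurd h.1 k1
      · exact absurd h.1 k1
      · exact absurd h.1 k1
      · rw [k3] at h1
        simp only at h2 h3 h4
        subst h1 h2 h3
        exact Or.inr (Or.inr (Or.inl ⟨_, _, _, _, _, rfl, rfl, h4⟩))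
      · exact absurd h.2.1 k2
      · exact absurd h.2.1 k2
    · rintro (⟨a, b, c, d, h1, h2, h3⟩ | ⟨a, b, c, d, e, h1, h2, h3, h4⟩ |
        ⟨a, b, c, d, e, h1, h2, h3⟩ | ⟨a, b, c, d, e, h1, h2, h3, h4⟩)
      · cases h1
      · cases h1
      · cases h1
        cases h2
        exact Or.inr (Or.inr (Or.inr (Or.inl ⟨k1, k3.2 rfl, rfl, rfl, h3⟩)))
      · cases h2

end Pool.Agent.PEmb

end

section

/-!
# Q3: a pattern in `G` gives an embedding of its code
-/

set_option autoImplicit false

namespace Pool.Agent.PEmb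

theorem Q3 (h1 : PQ1) (h2 : PQ2) : PQ3 := by
  intro V k t G _ ⟨φ, hinj, hadj⟩
  obtain ⟨hnd, hmem⟩ := h1 k t
  have hlen : (codeA k t).length = (vl k t).length := by simp [codeA]
  have hlt : ∀ i : Fin (codeA k t).length, (i : ℕ) < (vl k t).length := fun i => by
    rw [← hlen]; exact i.2
  have hy : ∀ i : Fin (codeA k t).length, ∃ y, Vx k (parOf k t) y ∧
      labC y = (vl k t)[(i : ℕ)]'(hlt i) := fun i => (hmem _).1 (List.getElem_mem _)
  choose y hy hy' using hy
  have hent : ∀ i j : Fin (codeA k t).length, entry (codeA k t) i j = true →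
      AE k (parOf k t) (y i) (y j) := by
    intro i j h
    rw [← h2 k t _ _ (hy i) (hy j), hy' i, hy' j]
    have e1 : ∀ (n m : ℕ) (hn : n < (vl k t).length) (hm : m < (vl k t).length),
        entry (codeA k t) n m = decide (AEc k t ((vl k t)[n]'hn) ((vl k t)[m]'hm)) := by
      intro n m hn hm
      have e0 : (codeA k t).getD n [] =
          (vl k t).map fun y => decide (AEc k t ((vl k t)[n]'hn) y) := by
        unfold codeA
        rw [List.getD_eq_getElem _ _ (by rw [List.length_map]; exact hn), List.getElem_map]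
      unfold entry
      rw [e0, List.getD_eq_getElem _ _ (by rw [List.length_map]; exact hm), List.getElem_map]
    rw [e1 i j (hlt i) (hlt j)] at h
    exact of_decide_eq_true h
  refine ⟨fun i => φ (y i), ?_, ?_⟩
  · intro i j hij
    have h3 := hinj _ _ (hy i) (hy j) hij
    have h4 : (vl k t)[(i : ℕ)]'(hlt i) = (vl k t)[(j : ℕ)]'(hlt j) := by
      rw [← hy' i, ← hy' j, h3]
    exact Fin.ext ((hnd.getElem_inj_iff).1 h4)
  · rintro i j ⟨-, h | h⟩
    · exact hadj _ _ (hent i j h)
    · exact (hadj _ _ (hent j i h)).symm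

end Pool.Agent.PEmb

end

section

set_option autoImplicit false

namespace Pool.Agent.PEmb

theorem idx_lt (k i j : ℕ) (hi : i < k) (hj : j < k) : i * k + j < k * k := by
  nlinarith

theorem idx_inj (k i j i' j' : ℕ) (hj : j < k) (hj' : j' < k)
    (h : i * k + j = i' * k + j') : i = i' ∧ j = j' := by
  have h1 : (i * k + j) / k = i := by
    rw [mul_comm, Nat.mul_add_div (by omega), Nat.div_eq_of_lt hj, add_zero]
  have h2 : (i' * k + j') / k = i' := by
    rw [mul_comm, Nat.mul_add_div (by omega), Nat.div_eq_of_lt hj', add_zero]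
  have h3 : i = i' := by rw [← h1, ← h2, h]
  subst h3
  exact ⟨rfl, by omega⟩

theorem Q5 : PQ5 := by
  intro k t ht
  obtain ⟨hlen, hnd, h4, hr, hrj, hl⟩ := ht
  have hz : ∀ i j, i < k → j < k → ∃ h : i * k + j < (t.getD 0 []).length,
      (parOf k t).z i j = (t.getD 0 [])[i * k + j] := by
    intro i j hi hj
    have h : i * k + j < (t.getD 0 []).length := by rw [hlen]; exact idx_lt k i j hi hj
    exact ⟨h, List.getD_eq_getElem _ _ h⟩
  constructor
  · intro i j hi hj
    obtain ⟨h, e⟩ := hz i j hi hj
    rw [e]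
    exact h4 _ (List.getElem_mem h)
  · intro i j i' j' hi hj hi' hj' heq
    obtain ⟨h, e⟩ := hz i j hi hj
    obtain ⟨h', e'⟩ := hz i' j' hi' hj'
    rw [e, e'] at heq
    exact idx_inj k i j i' j' hj hj' ((hnd.getElem_inj_iff).1 heq)
  · intro i j d hi hj hd
    exact hr _ (idx_lt k i j hi hj) d hd
  · intro i j d d' hi hj hd hd' heq
    by_contra hne
    exact hrj _ (idx_lt k i j hi hj) d hd d' hd' hne heq
  · intro o i j i' j' hex hi' hj'
    obtain ⟨h', e'⟩ := hz i' j' hi' hj'
    rw [e']
    have hij : i < k ∧ j < k := by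
      unfold Ex at hex
      cases o <;> simp only [nx] at hex <;> omega
    refine hl _ (List.getElem_mem h') _ ?_
    have := idx_lt k i j hij.1 hij.2
    cases o <;> simp <;> omega

end Pool.Agent.PEmb

end

section

set_option autoImplicit false

namespace Pool.Agent.PEmb

theorem pp_all_lt {α : Type} [Primcodable α] {R : α → ℕ → Prop} {b : α → ℕ} (hb : Primrec b)
    (hR : PrimrecPred fun p : α × ℕ => R p.1 p.2) : PrimrecPred fun a => ∀ x < b a, R a x := by
  have h1 : PrimrecRel fun (x : ℕ) (a : α) => R a x := by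
    have : PrimrecRel fun (a : α) (x : ℕ) => R a x := hR
    exact this.swap
  have h2 := (PrimrecRel.forall_mem_list h1).comp (Primrec.list_range.comp hb) Primrec.id
  exact h2.of_eq fun a => by simp

theorem pp_all_mem {α β : Type} [Primcodable α] [Primcodable β] {R : α → β → Prop}
    {b : α → List β} (hb : Primrec b)
    (hR : PrimrecPred fun p : α × β => R p.1 p.2) : PrimrecPred fun a => ∀ x ∈ b a, R a x := by
  have h1 : PrimrecRel fun (x : β) (a : α) => R a x := by
    have : PrimrecRel fun (a : α) (x : β) => R a x := hR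
    exact this.swap
  exact (PrimrecRel.forall_mem_list h1).comp hb Primrec.id

theorem nodup_iff_getD (l : List ℕ) :
    l.Nodup ↔ ∀ i < l.length, ∀ j < l.length, l.getD i 0 = l.getD j 0 → i = j := by
  constructor
  · intro h i hi j hj e
    rw [List.getD_eq_getElem _ _ hi, List.getD_eq_getElem _ _ hj] at e
    exact (h.getElem_inj_iff).1 e
  · intro h
    rw [List.nodup_iff_injective_get]
    intro i j e
    apply Fin.ext
    refine h i i.2 j j.2 ?_
    rw [List.getD_eq_getElem _ _ i.2, List.getD_eq_getElem _ _ j.2]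
    exact e

theorem pr_gg {α : Type} [Primcodable α] (m : ℕ) {t : α → List (List ℕ)} {n : α → ℕ}
    (ht : Primrec t) (hn : Primrec n) : Primrec fun a => ((t a).getD m []).getD (n a) 0 :=
  (Primrec.list_getD 0).comp ((Primrec.list_getD []).comp ht (Primrec.const m)) hn

theorem pr_g {α : Type} [Primcodable α] (m : ℕ) {t : α → List (List ℕ)}
    (ht : Primrec t) : Primrec fun a => (t a).getD m [] :=
  (Primrec.list_getD []).comp ht (Primrec.const m)

theorem Q6 : PQ6 := by
  unfold PQ6
  have hk : Primrec fun p : ℕ × List (List ℕ) => p.1 := Primrec.fst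
  have ht : Primrec fun p : ℕ × List (List ℕ) => p.2 := Primrec.snd
  have hkk : Primrec fun p : ℕ × List (List ℕ) => p.1 * p.1 := Primrec.nat_mul.comp hk hk
  have c1 : PrimrecPred fun p : ℕ × List (List ℕ) => (p.2.getD 0 []).length = p.1 * p.1 :=
    Primrec.eq.comp (Primrec.list_length.comp (pr_g 0 ht)) hkk
  have c2 : PrimrecPred fun p : ℕ × List (List ℕ) => (p.2.getD 0 []).Nodup := by
    have h0 : PrimrecPred fun p : ℕ × List (List ℕ) =>
        ∀ i < (p.2.getD 0 []).length, ∀ j < (p.2.getD 0 []).length,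
          ¬ ((p.2.getD 0 []).getD i 0 = (p.2.getD 0 []).getD j 0) ∨ i = j := by
      refine pp_all_lt (Primrec.list_length.comp (pr_g 0 ht)) ?_
      refine pp_all_lt (α := (ℕ × List (List ℕ)) × ℕ)
        (Primrec.list_length.comp (pr_g 0 (ht.comp Primrec.fst))) ?_
      have hq : Primrec fun p : (((ℕ × List (List ℕ)) × ℕ) × ℕ) => p.1.1.2 :=
        ht.comp (Primrec.fst.comp Primrec.fst)
      refine PrimrecPred.or (PrimrecPred.not ?_) ?_
      · exact Primrec.eq.comp (pr_gg 0 hq (Primrec.snd.comp Primrec.fst)) (pr_gg 0 hq Primrec.snd)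
      · exact Primrec.eq.comp (Primrec.snd.comp Primrec.fst) Primrec.snd
    refine h0.of_eq fun p => ?_
    rw [nodup_iff_getD]
    constructor
    · intro h i hi j hj e
      rcases h i hi j hj with h | h
      · exact absurd e h
      · exact h
    · intro h i hi j hj
      by_cases e : (p.2.getD 0 []).getD i 0 = (p.2.getD 0 []).getD j 0
      · exact Or.inr (h i hi j hj e)
      · exact Or.inl e
  have c3 : PrimrecPred fun p : ℕ × List (List ℕ) => ∀ a ∈ p.2.getD 0 [], 4 ≤ a :=
    pp_all_mem (pr_g 0 ht) (Primrec.nat_le.comp (Primrec.const 4) Primrec.snd)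
  have c4 : PrimrecPred fun p : ℕ × List (List ℕ) => ∀ c < p.1 * p.1, ∀ d < 4,
      (p.2.getD 1 []).getD (c * 4 + d) 0 < (p.2.getD 0 []).getD c 0 := by
    refine pp_all_lt hkk ?_
    refine pp_all_lt (α := (ℕ × List (List ℕ)) × ℕ) (Primrec.const 4) ?_
    have hq : Primrec fun p : (((ℕ × List (List ℕ)) × ℕ) × ℕ) => p.1.1.2 :=
      ht.comp (Primrec.fst.comp Primrec.fst)
    have hc : Primrec fun p : (((ℕ × List (List ℕ)) × ℕ) × ℕ) => p.1.2 :=
      Primrec.snd.comp Primrec.fst
    exact Primrec.nat_lt.comp (pr_gg 1 hq (Primrec.nat_add.comp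
      (Primrec.nat_mul.comp hc (Primrec.const 4)) Primrec.snd)) (pr_gg 0 hq hc)
  have c5 : PrimrecPred fun p : ℕ × List (List ℕ) => ∀ c < p.1 * p.1, ∀ d < 4, ∀ d' < 4,
      ¬ (d ≠ d') ∨ ¬ ((p.2.getD 1 []).getD (c * 4 + d) 0 = (p.2.getD 1 []).getD (c * 4 + d') 0) := by
    refine pp_all_lt hkk ?_
    refine pp_all_lt (α := (ℕ × List (List ℕ)) × ℕ) (Primrec.const 4) ?_
    refine pp_all_lt (α := ((ℕ × List (List ℕ)) × ℕ) × ℕ) (Primrec.const 4) ?_
    have hq : Primrec fun p : ((((ℕ × List (List ℕ)) × ℕ) × ℕ) × ℕ) => p.1.1.1.2 :=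
      ht.comp (Primrec.fst.comp (Primrec.fst.comp Primrec.fst))
    have hc : Primrec fun p : ((((ℕ × List (List ℕ)) × ℕ) × ℕ) × ℕ) => p.1.1.2 :=
      Primrec.snd.comp (Primrec.fst.comp Primrec.fst)
    have hd : Primrec fun p : ((((ℕ × List (List ℕ)) × ℕ) × ℕ) × ℕ) => p.1.2 :=
      Primrec.snd.comp Primrec.fst
    refine PrimrecPred.or (PrimrecPred.not (PrimrecPred.not ?_)) (PrimrecPred.not ?_)
    · exact Primrec.eq.comp hd Primrec.snd
    · exact Primrec.eq.comp (pr_gg 1 hq (Primrec.nat_add.comp
        (Primrec.nat_mul.comp hc (Primrec.const 4)) hd)) (pr_gg 1 hq (Primrec.nat_add.comp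
        (Primrec.nat_mul.comp hc (Primrec.const 4)) Primrec.snd))
  have c6 : PrimrecPred fun p : ℕ × List (List ℕ) => ∀ a ∈ p.2.getD 0 [], ∀ c < p.1 * p.1 * 2,
      2 * a + 2 ≤ (p.2.getD 2 []).getD c 0 := by
    refine pp_all_mem (pr_g 0 ht) ?_
    refine pp_all_lt (α := (ℕ × List (List ℕ)) × ℕ)
      (Primrec.nat_mul.comp (hkk.comp Primrec.fst) (Primrec.const 2)) ?_
    have hq : Primrec fun p : (((ℕ × List (List ℕ)) × ℕ) × ℕ) => p.1.1.2 :=
      ht.comp (Primrec.fst.comp Primrec.fst)
    exact Primrec.nat_le.comp (Primrec.nat_add.comp (Primrec.nat_mul.comp (Primrec.const 2)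
      (Primrec.snd.comp Primrec.fst)) (Primrec.const 2)) (pr_gg 2 hq Primrec.snd)
  refine (c1.and (c2.and (c3.and (c4.and (c5.and c6))))).of_eq fun p => ?_
  unfold AdmL
  refine and_congr Iff.rfl (and_congr Iff.rfl (and_congr Iff.rfl (and_congr Iff.rfl
    (and_congr ?_ Iff.rfl))))
  constructor
  · intro h c hc d hd d' hd' hne
    rcases h c hc d hd d' hd' with h | h
    · exact absurd hne h
    · exact h
  · intro h c hc d hd d' hd'
    by_cases e : d = d'
    · exact Or.inl (fun h => h e)
    · exact Or.inr (h c hc d hd d' hd' e)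

end Pool.Agent.PEmb

end

section

/-!
# Q7: the code of the pattern and the advice are primitive recursive
-/

set_option autoImplicit false

namespace Pool.Agent.PEmb

namespace IQ7

open Primrec

variable {α : Type} [Primcodable α]

section ctx

variable {K : α → ℕ} {T : α → List (List ℕ)} {i j c d : α → ℕ}

theorem getg (n : ℕ) (hT : Primrec T) (hc : Primrec c) :
    Primrec fun a => ((T a).getD n []).getD (c a) 0 := by
  have h1 : Primrec fun a => (T a).getD n [] := (Primrec.list_getD []).comp hT (Primrec.const n)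
  exact (Primrec.list_getD 0).comp h1 hc

theorem add (hi : Primrec i) (hj : Primrec j) : Primrec fun a => i a + j a :=
  Primrec.nat_add.comp hi hj

theorem mul (hi : Primrec i) (hj : Primrec j) : Primrec fun a => i a * j a :=
  Primrec.nat_mul.comp hi hj

theorem pz (hK : Primrec K) (hT : Primrec T) (hi : Primrec i) (hj : Primrec j) :
    Primrec fun a => (parOf (K a) (T a)).z (i a) (j a) :=
  getg 0 hT (add (mul hi hK) hj)

theorem pr (hK : Primrec K) (hT : Primrec T) (hi : Primrec i) (hj : Primrec j) (d : ℕ) :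
    Primrec fun a => (parOf (K a) (T a)).r (i a) (j a) d :=
  getg 1 hT (add (mul (add (mul hi hK) hj) (Primrec.const 4)) (Primrec.const d))

theorem pl (hK : Primrec K) (hT : Primrec T) (hi : Primrec i) (hj : Primrec j) (o : Bool) :
    Primrec fun a => (parOf (K a) (T a)).l o (i a) (j a) :=
  getg 2 hT (add (mul (add (mul hi hK) hj) (Primrec.const 2))
    (Primrec.const (if o then 1 else 0)))

theorem eqn (hi : Primrec i) (hj : Primrec j) : PrimrecPred fun a => i a = j a :=
  Primrec.eq.comp hi hj

theorem ltn (hi : Primrec i) (hj : Primrec j) : PrimrecPred fun a => i a < j a :=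
  Primrec.nat_lt.comp hi hj

theorem sub1 (hi : Primrec i) : Primrec fun a => i a - 1 :=
  Primrec.nat_sub.comp hi (Primrec.const 1)

theorem suc (hi : Primrec i) : Primrec fun a => i a + 1 := Primrec.succ.comp hi

theorem pcnt (hK : Primrec K) (hT : Primrec T) (hd : Primrec d) (hi : Primrec i)
    (hj : Primrec j) : Primrec fun a => cnt (K a) (T a) (d a) (i a) (j a) := by
  unfold cnt
  refine Primrec.ite (eqn hd (Primrec.const 0)) (pz hK hT hi hj) ?_
  refine Primrec.ite (eqn hd (Primrec.const 1)) ?_ ?_
  · exact Primrec.ite (ltn (suc hj) hK) (sub1 (pl hK hT hi hj false)) (Primrec.const 0)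
  · exact Primrec.ite (ltn (suc hi) hK) (sub1 (pl hK hT hi hj true)) (Primrec.const 0)

end ctx

abbrev Cx := ℕ × List (List ℕ)

theorem pvl : Primrec fun p : Cx => vl p.1 p.2 := by
  unfold vl
  refine Primrec.list_flatMap (Primrec.const (List.range 3)) ?_
  refine Primrec.list_flatMap (f := fun q : Cx × ℕ => List.range q.1.1)
    (Primrec.list_range.comp (Primrec.fst.comp Primrec.fst)) ?_
  refine Primrec.list_flatMap (f := fun q : (Cx × ℕ) × ℕ => List.range q.1.1.1)
    (Primrec.list_range.comp (Primrec.fst.comp (Primrec.fst.comp Primrec.fst))) ?_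
  have hC : Primrec fun q : ((Cx × ℕ) × ℕ) × ℕ => q.1.1.1 :=
    Primrec.fst.comp (Primrec.fst.comp Primrec.fst)
  have ho : Primrec fun q : ((Cx × ℕ) × ℕ) × ℕ => q.1.1.2 :=
    Primrec.snd.comp (Primrec.fst.comp Primrec.fst)
  have hi : Primrec fun q : ((Cx × ℕ) × ℕ) × ℕ => q.1.2 := Primrec.snd.comp Primrec.fst
  have hj : Primrec fun q : ((Cx × ℕ) × ℕ) × ℕ => q.2 := Primrec.snd
  refine Primrec.list_map (f := fun q : ((Cx × ℕ) × ℕ) × ℕ =>
    List.range (cnt q.1.1.1.1 q.1.1.1.2 q.1.1.2 q.1.2 q.2))
    (g := fun (q : ((Cx × ℕ) × ℕ) × ℕ) (s : ℕ) =>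
      ((q.1.1.2, q.1.2, q.2, if q.1.1.2 = 0 then s else s + 1) : LC)) ?_ ?_
  · exact Primrec.list_range.comp
      (pcnt (Primrec.fst.comp hC) (Primrec.snd.comp hC) ho hi hj)
  · have hq : Primrec fun q : (((Cx × ℕ) × ℕ) × ℕ) × ℕ => q.1 := Primrec.fst
    refine Primrec.pair (ho.comp hq) (Primrec.pair (hi.comp hq) (Primrec.pair (hj.comp hq) ?_))
    exact Primrec.ite (eqn (ho.comp hq) (Primrec.const 0)) Primrec.snd (suc Primrec.snd)

theorem pAE : PrimrecPred fun q : (Cx × LC) × LC => AEc q.1.1.1 q.1.1.2 q.1.2 q.2 := by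
  have hK : Primrec fun q : (Cx × LC) × LC => q.1.1.1 :=
    Primrec.fst.comp (Primrec.fst.comp Primrec.fst)
  have hT : Primrec fun q : (Cx × LC) × LC => q.1.1.2 :=
    Primrec.snd.comp (Primrec.fst.comp Primrec.fst)
  have hx : Primrec fun q : (Cx × LC) × LC => q.1.2 := Primrec.snd.comp Primrec.fst
  have hy : Primrec fun q : (Cx × LC) × LC => q.2 := Primrec.snd
  have x1 := Primrec.fst.comp hx
  have x2 := Primrec.fst.comp (Primrec.snd.comp hx)
  have x3 := Primrec.fst.comp (Primrec.snd.comp (Primrec.snd.comp hx))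
  have x4 := Primrec.snd.comp (Primrec.snd.comp (Primrec.snd.comp hx))
  have y1 := Primrec.fst.comp hy
  have y2 := Primrec.fst.comp (Primrec.snd.comp hy)
  have y3 := Primrec.fst.comp (Primrec.snd.comp (Primrec.snd.comp hy))
  have y4 := Primrec.snd.comp (Primrec.snd.comp (Primrec.snd.comp hy))
  unfold AEc
  refine PrimrecPred.or ?_ (PrimrecPred.or ?_ (PrimrecPred.or ?_ (PrimrecPred.or ?_
    (PrimrecPred.or ?_ ?_))))
  · exact (eqn x1 (Primrec.const 0)).and ((eqn y1 (Primrec.const 0)).and ((eqn x2 y2).and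
      ((eqn x3 y3).and ((eqn y4 (suc x4)).or ((eqn (suc x4) (pz hK hT x2 x3)).and
        (eqn y4 (Primrec.const 0)))))))
  · exact (eqn x1 (Primrec.const 0)).and ((eqn y1 (Primrec.const 1)).and ((eqn x2 y2).and
      ((eqn x3 y3).and ((eqn y4 (Primrec.const 1)).and (eqn x4 (pr hK hT x2 x3 0))))))
  · exact (eqn x1 (Primrec.const 0)).and ((eqn y1 (Primrec.const 2)).and ((eqn x2 y2).and
      ((eqn x3 y3).and ((eqn y4 (Primrec.const 1)).and (eqn x4 (pr hK hT x2 x3 2))))))
  · exact (PrimrecPred.not (eqn x1 (Primrec.const 0))).and ((eqn x1 y1).and ((eqn x2 y2).and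
      ((eqn x3 y3).and (eqn y4 (suc x4)))))
  · exact (eqn x1 (Primrec.const 1)).and ((eqn y1 (Primrec.const 0)).and ((eqn y2 x2).and
      ((eqn y3 (suc x3)).and ((eqn (suc x4) (pl hK hT x2 x3 false)).and
        (eqn y4 (pr hK hT y2 y3 1))))))
  · exact (eqn x1 (Primrec.const 2)).and ((eqn y1 (Primrec.const 0)).and ((eqn y2 (suc x2)).and
      ((eqn y3 x3).and ((eqn (suc x4) (pl hK hT x2 x3 true)).and
        (eqn y4 (pr hK hT y2 y3 3))))))

theorem pcodeA : Primrec fun p : Cx => codeA p.1 p.2 := by
  unfold codeA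
  refine Primrec.list_map pvl ?_
  refine Primrec.list_map (f := fun q : Cx × LC => vl q.1.1 q.1.2)
    (g := fun (q : Cx × LC) (y : LC) => decide (AEc q.1.1 q.1.2 q.2 y))
    (pvl.comp Primrec.fst) ?_
  exact pAE.decide

theorem b3 {γ : Type} [Primcodable γ] (u v : Bool) {p : γ → Prop} [DecidablePred p]
    (hp : PrimrecPred p) : Primrec fun q => [u, v, decide (p q)] :=
  Primrec.list_cons.comp (Primrec.const u) (Primrec.list_cons.comp (Primrec.const v)
    (Primrec.list_cons.comp hp.decide (Primrec.const [])))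

theorem pz3 : Primrec fun q : Cx × LC => zrow q.1.1 q.1.2 q.2 := by
  have hK : Primrec fun q : Cx × LC => q.1.1 := Primrec.fst.comp Primrec.fst
  have hT : Primrec fun q : Cx × LC => q.1.2 := Primrec.snd.comp Primrec.fst
  have hx : Primrec fun q : Cx × LC => q.2 := Primrec.snd
  have x1 := Primrec.fst.comp hx
  have x2 := Primrec.fst.comp (Primrec.snd.comp hx)
  have x3 := Primrec.fst.comp (Primrec.snd.comp (Primrec.snd.comp hx))
  have x4 := Primrec.snd.comp (Primrec.snd.comp (Primrec.snd.comp hx))
  have hl : ∀ o : Bool, Primrec fun q : Cx × LC =>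
      (parOf q.1.1 q.1.2).l o q.2.2.1 q.2.2.2.1 / 2 := fun o =>
    Primrec.nat_div.comp (pl hK hT x2 x3 o) (Primrec.const 2)
  unfold zrow
  refine Primrec.ite (eqn x1 (Primrec.const 0)) (b3 false false (eqn x2 x3)) ?_
  refine Primrec.ite (eqn x1 (Primrec.const 1)) ?_ ?_
  · refine Primrec.ite (ltn x4 (hl false)) (b3 false false (eqn x2 x3)) ?_
    exact Primrec.ite (eqn x4 (hl false)) (Primrec.const _) (b3 false false (eqn x2 (suc x3)))
  · refine Primrec.ite (ltn x4 (hl true)) (b3 false false (eqn x2 x3)) ?_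
    exact Primrec.ite (eqn x4 (hl true)) (Primrec.const _) (b3 false false (eqn (suc x2) x3))

theorem padv : Primrec fun p : Cx => adv p.1 p.2 := by
  unfold adv
  exact Primrec.list_append.comp pcodeA (Primrec.list_map pvl pz3)

end IQ7

theorem Q7 : PQ7 := ⟨IQ7.pcodeA, IQ7.padv⟩

end Pool.Agent.PEmb

end

section

set_option autoImplicit false

namespace Pool.Agent.PEmb

theorem search_gen {β : Type} [Primcodable β] [Inhabited β] (g : ℕ → β → Bool)
    (hg : Computable₂ g) (h : ∀ k, ∃ t, g k t = true) :
    ∃ T : ℕ → β, Computable T ∧ ∀ k, g k (T k) = true := by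
  let u : ℕ → ℕ → Bool := fun k n => ((Encodable.decode n : Option β).map (g k)).getD false
  have hu : Computable₂ u := by
    have h1 : Computable fun p : ℕ × ℕ => (Encodable.decode p.2 : Option β) :=
      Computable.decode.comp Computable.snd
    have h2 : Computable fun p : ℕ × ℕ =>
        ((Encodable.decode p.2 : Option β).map fun b => g p.1 b) :=
      Computable.option_map h1 (hg.comp (Computable.fst.comp Computable.fst) Computable.snd)
    exact Computable.option_getD h2 (Computable.const false)
  have hex : ∀ k, ∃ n, u k n = true := by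
    intro k
    obtain ⟨t, ht⟩ := h k
    refine ⟨Encodable.encode t, ?_⟩
    simp [u, Encodable.encodek, ht]
  have hp : Partrec fun k => Nat.rfind (fun n => Part.some (u k n) : ℕ →. Bool) :=
    Partrec.rfind (Computable₂.partrec₂ hu)
  have hfind : ∀ k, Nat.find (hex k) ∈ Nat.rfind (fun n => Part.some (u k n) : ℕ →. Bool) := by
    intro k
    apply Nat.mem_rfind.2
    refine ⟨?_, fun {m} hm => ?_⟩
    · exact Part.mem_some_iff.2 (Nat.find_spec (hex k)).symm
    · have := Nat.find_min (hex k) hm
      exact Part.mem_some_iff.2 (by simpa using this)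
  have hN : Computable fun k => Nat.find (hex k) := Partrec.of_eq_tot hp hfind
  refine ⟨fun k => ((Encodable.decode (Nat.find (hex k)) : Option β)).getD default, ?_, ?_⟩
  · exact Computable.option_getD (Computable.decode.comp hN) (Computable.const default)
  · intro k
    show g k ((Encodable.decode (Nat.find (hex k)) : Option β).getD default) = true
    have h1 := Nat.find_spec (hex k)
    generalize Nat.find (hex k) = n at h1
    simp only [u] at h1
    cases hd : (Encodable.decode n : Option β) with
    | none => rw [hd] at h1; simp at h1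
    | some b => rw [hd] at h1; simpa using h1

theorem Q8 (q6 : PQ6) (q7 : PQ7) : PQ8 := by
  intro C hC hex
  obtain ⟨D6, h6⟩ := q6
  obtain ⟨DC, hC'⟩ := hC
  obtain ⟨T, hT, hT2⟩ := search_gen (β := List (List ℕ))
    (fun k t => @decide (AdmL k t) (D6 (k, t)) && @decide (C (codeA k t)) (DC _)) (by
      have c1 : Computable fun p : ℕ × List (List ℕ) => @decide (AdmL p.1 p.2) (D6 p) := h6.to_comp
      have c2 : Computable fun p : ℕ × List (List ℕ) => @decide (C (codeA p.1 p.2)) (DC _) :=
        Computable.comp (f := fun c : Code => @decide (C c) (DC _)) hC' q7.1.to_comp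
      exact (Primrec.and.to_comp : Computable₂ and).comp c1 c2) (by
      intro k
      obtain ⟨t, h1, h2⟩ := hex k
      exact ⟨t, by simp [h1, h2]⟩)
  refine ⟨T, hT, fun k => ?_⟩
  have := hT2 k
  simpa using this

end Pool.Agent.PEmb

end

section

set_option autoImplicit false

namespace Pool.Agent.PEmb

theorem R1 : PR1 := by
  intro V k P G hA o i j s v q hs hadj
  obtain ⟨ql, qv⟩ := q
  obtain ⟨hAA, hp, hq, hc⟩ := hadj
  obtain ⟨hvx, -⟩ := hp
  obtain ⟨hex, h1, hsl⟩ := hvx
  have hij : i < k ∧ j < k := by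
    unfold Ex at hex
    cases o <;> simp only [nx] at hex <;> omega
  have hbig := hA.lbig o i j i j hex hij.1 hij.2
  have hz4 := hA.z4 i j hij.1 hij.2
  have hzp : zone P (.leg o i j s) = .cell i j := by
    simp [zone, hs]
  simp only at hAA hc
  rw [hzp] at hc
  rcases hAA with h | h
  · -- forward
    generalize hx : Lab.leg o i j s = x at h
    cases h with
    | cyc => cases hx
    | close => cases hx
    | out => cases hx
    | step o' i' j' s' h' hs' hl' =>
      cases hx
      right
      refine ⟨rfl, fun h2 => ?_⟩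
      have hzq : zone P (.leg o i j (s + 1)) = .cell i j := by
        simp [zone, h2]
      rw [hzq] at hc
      exact hc.symm
    | inn o' i' j' h' =>
      exfalso
      simp only [Lab.leg.injEq] at hx
      obtain ⟨rfl, rfl, rfl, hx⟩ := hx
      omega
  · generalize hx : Lab.leg o i j s = x at h
    cases h with
    | cyc => cases hx
    | close => cases hx
    | out o' i' j' h' =>
      simp only [Lab.leg.injEq] at hx
      obtain ⟨rfl, rfl, rfl, rfl⟩ := hx
      left
      simp only [if_true, Prod.mk.injEq, true_and]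
      have hzq : zone P (.core i j (P.r i j (ro o))) = .cell i j := rfl
      rw [hzq] at hc
      exact hc.symm
    | step o' i' j' s' h' hs' hl' =>
      simp only [Lab.leg.injEq] at hx
      obtain ⟨rfl, rfl, rfl, rfl⟩ := hx
      left
      have h2 : s' < P.l o i j / 2 := by omega
      have hzq : zone P (.leg o i j s') = .cell i j := by
        simp [zone, h2]
      rw [hzq] at hc
      have h3 : ¬ (s' + 1 = 1) := by omega
      simp only [h3, if_false, Nat.add_sub_cancel]
      rw [Prod.mk.injEq]
      exact ⟨rfl, hc.symm⟩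
    | inn o' i' j' h' => cases hx

end Pool.Agent.PEmb

end
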