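import Pool.Agent.Work.MP_cfa43e_lc.Stmts

/-! Bundle of small proof modules (one section per former module). -/

section

/-!
# E1: paths inside a connected set
-/

set_option autoImplicit false

namespace Pool.Agent.PEmb

theorem E1 : PE1 := by
  intro V G S hS a ha b hb
  classical
  obtain ⟨p⟩ := hS.preconnected ⟨a, ha⟩ ⟨b, hb⟩
  have hq := p.bypass_isPath
  generalize p.bypass = q at hq
  refine ⟨q.support.map Subtype.val, ?_, ?_, ?_, ?_, ?_⟩
  · rw [List.isChain_map]
    exact q.isChain_adj_support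
  · exact (List.nodup_map_iff Subtype.val_injective).2 hq.support_nodup
  · rw [List.head?_map, ← q.cons_tail_support]
    rfl
  · rw [List.getLast?_map, List.getLast?_eq_some_getLast q.support_ne_nil, q.getLast_support]
    rfl
  · intro x hx
    rw [List.mem_map] at hx
    obtain ⟨y, _, rfl⟩ := hx
    exact y.2

end Pool.Agent.PEmb

end

section

/-!
# MP_cfa43e_lc, item E10: paths over connected sets of grid points
-/

set_option autoImplicit false

namespace Pool.Agent.PEmb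

namespace IE10

variable {V : Type} {G : SimpleGraph V} {K : ℕ} {B : ℕ → ℕ → Set V}

theorem mem_U {T : Set (ℕ × ℕ)} {p : ℕ × ℕ} (hp : p ∈ T) {a : V} (ha : a ∈ B p.1 p.2) :
    a ∈ ⋃ p ∈ T, B p.1 p.2 := Set.mem_biUnion hp ha

theorem reach_same (h : Grid G K B) {T : Set (ℕ × ℕ)} (hT : ∀ p ∈ T, p.1 < K ∧ p.2 < K)
    {p : ℕ × ℕ} (hp : p ∈ T) {a b : V} (ha : a ∈ B p.1 p.2) (hb : b ∈ B p.1 p.2) :
    (G.induce (⋃ p ∈ T, B p.1 p.2)).Reachable ⟨a, mem_U hp ha⟩ ⟨b, mem_U hp hb⟩ := by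
  have hc := (h.conn p.1 p.2 (hT p hp).1 (hT p hp).2).preconnected ⟨a, ha⟩ ⟨b, hb⟩
  have hle : B p.1 p.2 ⊆ ⋃ p ∈ T, B p.1 p.2 := fun x hx => mem_U hp hx
  exact hc.map (SimpleGraph.induceHomOfLE G hle).toHom

theorem edge (h : Grid G K B) {p q : ℕ × ℕ} (hp : p.1 < K ∧ p.2 < K) (hq : q.1 < K ∧ q.2 < K)
    (hpq : GAdj p q) : ∃ a ∈ B p.1 p.2, ∃ b ∈ B q.1 q.2, G.Adj a b := by
  obtain ⟨p1, p2⟩ := p
  obtain ⟨q1, q2⟩ := q
  simp only [GAdj] at hp hq hpq ⊢
  rcases hpq with ⟨rfl, h1 | h1⟩ | ⟨rfl, h1 | h1⟩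
  · subst h1
    exact h.ver p1 p2 hp.1 hq.2
  · subst h1
    obtain ⟨a, ha, b, hb, hab⟩ := h.ver p1 q2 hp.1 hp.2
    exact ⟨b, hb, a, ha, hab.symm⟩
  · subst h1
    exact h.hor p1 p2 hq.1 hp.2
  · subst h1
    obtain ⟨a, ha, b, hb, hab⟩ := h.hor q1 p2 hp.1 hp.2
    exact ⟨b, hb, a, ha, hab.symm⟩

theorem reach (h : Grid G K B) {T : Set (ℕ × ℕ)} (hT : ∀ p ∈ T, p.1 < K ∧ p.2 < K)
    {p q : ℕ × ℕ} (hp : p ∈ T)
    (hpq : Relation.ReflTransGen (fun x y => x ∈ T ∧ y ∈ T ∧ GAdj x y) p q) (hq : q ∈ T) :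
    ∀ (a b : V) (ha : a ∈ B p.1 p.2) (hb : b ∈ B q.1 q.2),
    (G.induce (⋃ p ∈ T, B p.1 p.2)).Reachable ⟨a, mem_U hp ha⟩ ⟨b, mem_U hq hb⟩ := by
  induction hpq with
  | refl =>
    intro a b ha hb
    exact reach_same h hT hp ha hb
  | @tail r s h1 h2 ih =>
    intro a b ha hb
    obtain ⟨hr, hs, hrs⟩ := h2
    obtain ⟨u, hu, v, hv, huv⟩ := edge h (hT r hr) (hT s hs) hrs
    have e1 := ih hr a u ha hu
    have e2 : (G.induce (⋃ p ∈ T, B p.1 p.2)).Adj ⟨u, mem_U hr hu⟩ ⟨v, mem_U hs hv⟩ := huv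
    have e3 := reach_same h hT hs hv hb
    exact (e1.trans e2.reachable).trans e3

end IE10

open IE10 in
theorem E10 (h1 : PE1) : PE10 := by
  intro V G K B h T hT hc p hp q hq a ha b hb
  refine h1 G _ ?_ a (mem_U hp ha) b (mem_U hq hb)
  have : Nonempty (↥(⋃ p ∈ T, B p.1 p.2)) := ⟨⟨a, mem_U hp ha⟩⟩
  refine SimpleGraph.Connected.mk ?_
  rintro ⟨x, hx⟩ ⟨y, hy⟩
  obtain ⟨r, hr, hxr⟩ := Set.mem_iUnion₂.1 hx
  obtain ⟨s, hs, hys⟩ := Set.mem_iUnion₂.1 hy
  exact reach h hT hr (hc r hr s hs) hs x y hxr hys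

end Pool.Agent.PEmb

end

section

/-!
# MP_cfa43e_lc, item E12: concatenation of paths
-/

set_option autoImplicit false

namespace Pool.Agent.PEmb

theorem E12 : PE12 := by
  intro V G S T a b c l l' h h' hd
  obtain ⟨c1, n1, a1, b1, s1⟩ := h
  obtain ⟨c2, n2, b2, d2, s2⟩ := h'
  cases l' with
  | nil => simp at b2
  | cons x t =>
    have hx : x = b := by simpa using b2
    subst hx
    have hl : l ≠ [] := by
      intro he
      rw [he] at a1
      simp at a1
    have hbl : x ∈ l := List.mem_of_mem_getLast? b1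
    have hmem : ∀ y, y ∈ l ++ (x :: t).tail ↔ y ∈ l ∨ y ∈ x :: t := by
      intro y
      simp only [List.tail_cons, List.mem_append, List.mem_cons]
      constructor
      · rintro (h | h)
        · exact Or.inl h
        · exact Or.inr (Or.inr h)
      · rintro (h | h | h)
        · exact Or.inl h
        · exact Or.inl (h ▸ hbl)
        · exact Or.inr h
    refine ⟨⟨?_, ?_, ?_, ?_, ?_⟩, hmem⟩
    · rw [List.tail_cons, List.isChain_append]
      refine ⟨c1, c2.tail, ?_⟩
      intro u hu v hv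
      have hu' : u = x := by
        rw [b1] at hu
        exact (Option.some.inj hu).symm
      subst hu'
      cases t with
      | nil => simp at hv
      | cons y t' =>
        have : v = y := by simpa using hv.symm
        subst this
        exact (List.isChain_cons_cons.1 c2).1
    · rw [List.tail_cons, List.nodup_append]
      refine ⟨n1, (List.nodup_cons.1 n2).2, ?_⟩
      intro u hu v hv huv
      subst huv
      have := hd u hu (List.mem_cons_of_mem _ hv)
      subst this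
      exact (List.nodup_cons.1 n2).1 hv
    · rw [List.head?_append_of_ne_nil _ hl]
      exact a1
    · cases t with
      | nil =>
        simp only [List.getLast?_singleton, Option.some.injEq] at d2
        simpa [d2] using b1
      | cons y t' =>
        rw [List.tail_cons, List.getLast?_append_of_ne_nil _ (by simp)]
        rw [List.getLast?_cons_cons] at d2
        exact d2
    · intro y hy
      rcases (hmem y).1 hy with h | h
      · exact Or.inl (s1 y h)
      · exact Or.inr (s2 y h)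

end Pool.Agent.PEmb

end

section

/-!
# E13: the strands are connected
-/

set_option autoImplicit false

namespace Pool.Agent.PEmb

theorem E13 (h11 : PE11) : PE13 := by
  obtain ⟨hh, hv, hu, -⟩ := h11
  intro k L X Y hP t i ht hU
  obtain ⟨hX0, hY0, hP⟩ := hP
  -- lower bounds for all positions
  have hlow : ∀ b, b ≤ 3 * (k * k) → 3 ≤ X b ∧ 3 ≤ Y b := by
    intro b hb
    rcases Nat.eq_zero_or_pos b with h | h
    · subst h; exact ⟨hX0, hY0⟩
    · have := hP 0 b h hb
      omega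
  unfold Us at hU
  unfold St
  split_ifs with h0 h1 h2
  · -- t = 0
    rw [if_pos (Or.inl h0)] at hU
    have hq1 : qv k i ≤ 3 * (k * k) := by unfold qv; omega
    have hq2 : i < qv k i := by unfold qv; omega
    have hp := hP i (qv k i) hq2 hq1
    unfold S1
    refine hu _ _ (X i - 1, Y (qv k i) + 1) (hv _ _ _) (hh _ _ _) ?_ ?_
    · refine ⟨rfl, ?_, ?_⟩ <;> simp only <;> omega
    · refine ⟨rfl, ?_, ?_⟩ <;> simp only <;> omega
  · -- t = 1
    rw [if_pos (Or.inr h1)] at hU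
    have hq1 : qv k i ≤ 3 * (k * k) := by unfold qv; omega
    have hq2 : i + k < qv k i := by unfold qv; omega
    have hp := hP (i + k) (qv k i) hq2 hq1
    unfold S2
    refine hu _ _ (X (qv k i) + L + 1, Y (i + k) - 1) (hv _ _ _)
      (hu _ _ (X (i + k) + L + 1, Y (i + k) - 1) (hh _ _ _) (hv _ _ _) ?_ ?_) ?_ (Or.inl ?_)
    · refine ⟨rfl, ?_, ?_⟩ <;> simp only <;> omega
    · refine ⟨rfl, ?_, ?_⟩ <;> simp only <;> omega
    · refine ⟨rfl, ?_, ?_⟩ <;> simp only <;> omega
    · refine ⟨rfl, ?_, ?_⟩ <;> simp only <;> omega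
  · -- t = 2
    rw [if_neg (by omega)] at hU
    have hq1 : qh k i ≤ 3 * (k * k) := by unfold qh; omega
    have hq2 : i < qh k i := by unfold qh; omega
    have hp := hP i (qh k i) hq2 hq1
    unfold S3
    refine hu _ _ (X i + L + 1, Y (qh k i) + 2) (hv _ _ _)
      (hu _ _ (X (qh k i) + L + 1, Y (qh k i) + 2) (hh _ _ _) (hv _ _ _) ?_ ?_) ?_ (Or.inl ?_)
    · refine ⟨rfl, ?_, ?_⟩ <;> simp only <;> omega
    · refine ⟨rfl, ?_, ?_⟩ <;> simp only <;> omega
    · refine ⟨rfl, ?_, ?_⟩ <;> simp only <;> omega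
    · refine ⟨rfl, ?_, ?_⟩ <;> simp only <;> omega
  · -- t = 3
    rw [if_neg (by omega)] at hU
    have hq1 : qh k i ≤ 3 * (k * k) := by unfold qh; omega
    have hq2 : i + 1 < qh k i := by unfold qh; omega
    have hp := hP (i + 1) (qh k i) hq2 hq1
    unfold S4
    refine hu _ _ (X (i + 1) - 2, Y (qh k i) + 1) (hh _ _ _)
      (hu _ _ (X (i + 1) - 2, Y (i + 1)) (hv _ _ _) (hh _ _ _) ?_ ?_) ?_ (Or.inl ?_)
    · refine ⟨rfl, ?_, ?_⟩ <;> simp only <;> omega
    · refine ⟨rfl, ?_, ?_⟩ <;> simp only <;> omega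
    · refine ⟨rfl, ?_, ?_⟩ <;> simp only <;> omega
    · refine ⟨rfl, ?_, ?_⟩ <;> simp only <;> omega

end Pool.Agent.PEmb

end

section

/-!
# MP_cfa43e_lc, item E14: the strands are disjoint
-/

namespace Pool.Agent.PEmb

namespace IE14

theorem d00 (k L : ℕ) (X Y : ℕ → ℕ)
    (inc : ∀ a b, a < b → b ≤ 3 * (k * k) → X a + L + 10 ≤ X b ∧ Y a + L + 10 ≤ Y b)
    (ge : ∀ a, a ≤ 3 * (k * k) → 3 ≤ X a ∧ 3 ≤ Y a) (i i' : ℕ) (hu : i + k < k * k) (hu' : i' + k < k * k)
    (hi : i < i') (x y : ℕ) (hx : (x, y) ∈ S1 k X Y i) (hx' : (x, y) ∈ S1 k X Y i') : False := by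
  have e1 : qv k i = 3 * (k * k) - 2 * i := rfl
  have e2 : qh k i = 3 * (k * k) - 2 * i - 1 := rfl
  have e3 : qv k i' = 3 * (k * k) - 2 * i' := rfl
  have e4 : qh k i' = 3 * (k * k) - 2 * i' - 1 := rfl
  have f1 := inc (qv k i') (qv k i) (by omega) (by omega)
  have f2 := inc i (qv k i') (by omega) (by omega)
  have f3 := inc i' (qv k i') (by omega) (by omega)
  have g1 := ge i (by omega)
  have g2 := ge i' (by omega)
  simp only [S1, vs, hs, Set.mem_union, Set.mem_ofPred_eq] at hx hx'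
  rcases Nat.lt_trichotomy i i' with h | h | h
  · have f4 := inc i i' h (by omega)
    rcases hx with hx | hx <;> rcases hx' with hx' | hx' <;> omega
  · have f4 : X i = X i' := congrArg X h
    have f5 : Y i = Y i' := congrArg Y h
    rcases hx with hx | hx <;> rcases hx' with hx' | hx' <;> omega
  · have f4 := inc i' i h (by omega)
    rcases hx with hx | hx <;> rcases hx' with hx' | hx' <;> omega

theorem d01 (k L : ℕ) (X Y : ℕ → ℕ)
    (inc : ∀ a b, a < b → b ≤ 3 * (k * k) → X a + L + 10 ≤ X b ∧ Y a + L + 10 ≤ Y b)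
    (ge : ∀ a, a ≤ 3 * (k * k) → 3 ≤ X a ∧ 3 ≤ Y a) (i i' : ℕ) (hu : i + k < k * k) (hu' : i' + k < k * k)
    (hi : i < i') (x y : ℕ) (hx : (x, y) ∈ S1 k X Y i) (hx' : (x, y) ∈ S2 k L X Y i') : False := by
  have e1 : qv k i = 3 * (k * k) - 2 * i := rfl
  have e2 : qh k i = 3 * (k * k) - 2 * i - 1 := rfl
  have e3 : qv k i' = 3 * (k * k) - 2 * i' := rfl
  have e4 : qh k i' = 3 * (k * k) - 2 * i' - 1 := rfl
  have f1 := inc (qv k i') (qv k i) (by omega) (by omega)
  have f2 := inc i (qv k i') (by omega) (by omega)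
  have f3 := inc (i' + k) (qv k i') (by omega) (by omega)
  have g1 := ge i (by omega)
  have g2 := ge (i' + k) (by omega)
  simp only [S1, S2, vs, hs, Set.mem_union, Set.mem_ofPred_eq] at hx hx'
  rcases Nat.lt_trichotomy i (i' + k) with h | h | h
  · have f4 := inc i (i' + k) h (by omega)
    rcases hx with hx | hx <;> rcases hx' with hx' | hx' | hx' <;> omega
  · have f4 : X i = X (i' + k) := congrArg X h
    have f5 : Y i = Y (i' + k) := congrArg Y h
    rcases hx with hx | hx <;> rcases hx' with hx' | hx' | hx' <;> omega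
  · have f4 := inc (i' + k) i h (by omega)
    rcases hx with hx | hx <;> rcases hx' with hx' | hx' | hx' <;> omega

theorem d02 (k L : ℕ) (X Y : ℕ → ℕ)
    (inc : ∀ a b, a < b → b ≤ 3 * (k * k) → X a + L + 10 ≤ X b ∧ Y a + L + 10 ≤ Y b)
    (ge : ∀ a, a ≤ 3 * (k * k) → 3 ≤ X a ∧ 3 ≤ Y a) (i i' : ℕ) (hu : i + k < k * k) (hu' : i' + 1 < k * k)
    (hi : i < i') (x y : ℕ) (hx : (x, y) ∈ S1 k X Y i) (hx' : (x, y) ∈ S3 k L X Y i') : False := by
  have e1 : qv k i = 3 * (k * k) - 2 * i := rfl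
  have e2 : qh k i = 3 * (k * k) - 2 * i - 1 := rfl
  have e3 : qv k i' = 3 * (k * k) - 2 * i' := rfl
  have e4 : qh k i' = 3 * (k * k) - 2 * i' - 1 := rfl
  have f1 := inc (qh k i') (qv k i) (by omega) (by omega)
  have f2 := inc i (qh k i') (by omega) (by omega)
  have f3 := inc i' (qh k i') (by omega) (by omega)
  have g1 := ge i (by omega)
  have g2 := ge i' (by omega)
  simp only [S1, S3, vs, hs, Set.mem_union, Set.mem_ofPred_eq] at hx hx'
  rcases Nat.lt_trichotomy i i' with h | h | h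
  · have f4 := inc i i' h (by omega)
    rcases hx with hx | hx <;> rcases hx' with hx' | hx' | hx' <;> omega
  · have f4 : X i = X i' := congrArg X h
    have f5 : Y i = Y i' := congrArg Y h
    rcases hx with hx | hx <;> rcases hx' with hx' | hx' | hx' <;> omega
  · have f4 := inc i' i h (by omega)
    rcases hx with hx | hx <;> rcases hx' with hx' | hx' | hx' <;> omega

theorem d03 (k L : ℕ) (X Y : ℕ → ℕ)
    (inc : ∀ a b, a < b → b ≤ 3 * (k * k) → X a + L + 10 ≤ X b ∧ Y a + L + 10 ≤ Y b)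
    (ge : ∀ a, a ≤ 3 * (k * k) → 3 ≤ X a ∧ 3 ≤ Y a) (i i' : ℕ) (hu : i + k < k * k) (hu' : i' + 1 < k * k)
    (hi : i < i') (x y : ℕ) (hx : (x, y) ∈ S1 k X Y i) (hx' : (x, y) ∈ S4 k X Y i') : False := by
  have e1 : qv k i = 3 * (k * k) - 2 * i := rfl
  have e2 : qh k i = 3 * (k * k) - 2 * i - 1 := rfl
  have e3 : qv k i' = 3 * (k * k) - 2 * i' := rfl
  have e4 : qh k i' = 3 * (k * k) - 2 * i' - 1 := rfl
  have f1 := inc (qh k i') (qv k i) (by omega) (by omega)
  have f2 := inc i (qh k i') (by omega) (by omega)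
  have f3 := inc (i' + 1) (qh k i') (by omega) (by omega)
  have g1 := ge i (by omega)
  have g2 := ge (i' + 1) (by omega)
  simp only [S1, S4, vs, hs, Set.mem_union, Set.mem_ofPred_eq] at hx hx'
  rcases Nat.lt_trichotomy i (i' + 1) with h | h | h
  · have f4 := inc i (i' + 1) h (by omega)
    rcases hx with hx | hx <;> rcases hx' with hx' | hx' | hx' <;> omega
  · have f4 : X i = X (i' + 1) := congrArg X h
    have f5 : Y i = Y (i' + 1) := congrArg Y h
    rcases hx with hx | hx <;> rcases hx' with hx' | hx' | hx' <;> omega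
  · have f4 := inc (i' + 1) i h (by omega)
    rcases hx with hx | hx <;> rcases hx' with hx' | hx' | hx' <;> omega

theorem d10 (k L : ℕ) (X Y : ℕ → ℕ)
    (inc : ∀ a b, a < b → b ≤ 3 * (k * k) → X a + L + 10 ≤ X b ∧ Y a + L + 10 ≤ Y b)
    (ge : ∀ a, a ≤ 3 * (k * k) → 3 ≤ X a ∧ 3 ≤ Y a) (i i' : ℕ) (hu : i + k < k * k) (hu' : i' + k < k * k)
    (hi : i < i') (x y : ℕ) (hx : (x, y) ∈ S2 k L X Y i) (hx' : (x, y) ∈ S1 k X Y i') : False := by
  have e1 : qv k i = 3 * (k * k) - 2 * i := rfl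
  have e2 : qh k i = 3 * (k * k) - 2 * i - 1 := rfl
  have e3 : qv k i' = 3 * (k * k) - 2 * i' := rfl
  have e4 : qh k i' = 3 * (k * k) - 2 * i' - 1 := rfl
  have f1 := inc (qv k i') (qv k i) (by omega) (by omega)
  have f2 := inc (i + k) (qv k i') (by omega) (by omega)
  have f3 := inc i' (qv k i') (by omega) (by omega)
  have g1 := ge (i + k) (by omega)
  have g2 := ge i' (by omega)
  simp only [S2, S1, vs, hs, Set.mem_union, Set.mem_ofPred_eq] at hx hx'
  rcases Nat.lt_trichotomy (i + k) i' with h | h | h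
  · have f4 := inc (i + k) i' h (by omega)
    rcases hx with hx | hx | hx <;> rcases hx' with hx' | hx' <;> omega
  · have f4 : X (i + k) = X i' := congrArg X h
    have f5 : Y (i + k) = Y i' := congrArg Y h
    rcases hx with hx | hx | hx <;> rcases hx' with hx' | hx' <;> omega
  · have f4 := inc i' (i + k) h (by omega)
    rcases hx with hx | hx | hx <;> rcases hx' with hx' | hx' <;> omega

theorem d11 (k L : ℕ) (X Y : ℕ → ℕ)
    (inc : ∀ a b, a < b → b ≤ 3 * (k * k) → X a + L + 10 ≤ X b ∧ Y a + L + 10 ≤ Y b)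
    (ge : ∀ a, a ≤ 3 * (k * k) → 3 ≤ X a ∧ 3 ≤ Y a) (i i' : ℕ) (hu : i + k < k * k) (hu' : i' + k < k * k)
    (hi : i < i') (x y : ℕ) (hx : (x, y) ∈ S2 k L X Y i) (hx' : (x, y) ∈ S2 k L X Y i') : False := by
  have e1 : qv k i = 3 * (k * k) - 2 * i := rfl
  have e2 : qh k i = 3 * (k * k) - 2 * i - 1 := rfl
  have e3 : qv k i' = 3 * (k * k) - 2 * i' := rfl
  have e4 : qh k i' = 3 * (k * k) - 2 * i' - 1 := rfl
  have f1 := inc (qv k i') (qv k i) (by omega) (by omega)
  have f2 := inc (i + k) (qv k i') (by omega) (by omega)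
  have f3 := inc (i' + k) (qv k i') (by omega) (by omega)
  have g1 := ge (i + k) (by omega)
  have g2 := ge (i' + k) (by omega)
  simp only [S2, vs, hs, Set.mem_union, Set.mem_ofPred_eq] at hx hx'
  rcases Nat.lt_trichotomy (i + k) (i' + k) with h | h | h
  · have f4 := inc (i + k) (i' + k) h (by omega)
    rcases hx with hx | hx | hx <;> rcases hx' with hx' | hx' | hx' <;> omega
  · have f4 : X (i + k) = X (i' + k) := congrArg X h
    have f5 : Y (i + k) = Y (i' + k) := congrArg Y h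
    rcases hx with hx | hx | hx <;> rcases hx' with hx' | hx' | hx' <;> omega
  · have f4 := inc (i' + k) (i + k) h (by omega)
    rcases hx with hx | hx | hx <;> rcases hx' with hx' | hx' | hx' <;> omega

theorem d12 (k L : ℕ) (X Y : ℕ → ℕ)
    (inc : ∀ a b, a < b → b ≤ 3 * (k * k) → X a + L + 10 ≤ X b ∧ Y a + L + 10 ≤ Y b)
    (ge : ∀ a, a ≤ 3 * (k * k) → 3 ≤ X a ∧ 3 ≤ Y a) (i i' : ℕ) (hu : i + k < k * k) (hu' : i' + 1 < k * k)
    (hi : i < i') (x y : ℕ) (hx : (x, y) ∈ S2 k L X Y i) (hx' : (x, y) ∈ S3 k L X Y i') : False := by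
  have e1 : qv k i = 3 * (k * k) - 2 * i := rfl
  have e2 : qh k i = 3 * (k * k) - 2 * i - 1 := rfl
  have e3 : qv k i' = 3 * (k * k) - 2 * i' := rfl
  have e4 : qh k i' = 3 * (k * k) - 2 * i' - 1 := rfl
  have f1 := inc (qh k i') (qv k i) (by omega) (by omega)
  have f2 := inc (i + k) (qh k i') (by omega) (by omega)
  have f3 := inc i' (qh k i') (by omega) (by omega)
  have g1 := ge (i + k) (by omega)
  have g2 := ge i' (by omega)
  simp only [S2, S3, vs, hs, Set.mem_union, Set.mem_ofPred_eq] at hx hx'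
  rcases Nat.lt_trichotomy (i + k) i' with h | h | h
  · have f4 := inc (i + k) i' h (by omega)
    rcases hx with hx | hx | hx <;> rcases hx' with hx' | hx' | hx' <;> omega
  · have f4 : X (i + k) = X i' := congrArg X h
    have f5 : Y (i + k) = Y i' := congrArg Y h
    rcases hx with hx | hx | hx <;> rcases hx' with hx' | hx' | hx' <;> omega
  · have f4 := inc i' (i + k) h (by omega)
    rcases hx with hx | hx | hx <;> rcases hx' with hx' | hx' | hx' <;> omega

theorem d13 (k L : ℕ) (X Y : ℕ → ℕ)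
    (inc : ∀ a b, a < b → b ≤ 3 * (k * k) → X a + L + 10 ≤ X b ∧ Y a + L + 10 ≤ Y b)
    (ge : ∀ a, a ≤ 3 * (k * k) → 3 ≤ X a ∧ 3 ≤ Y a) (i i' : ℕ) (hu : i + k < k * k) (hu' : i' + 1 < k * k)
    (hi : i < i') (x y : ℕ) (hx : (x, y) ∈ S2 k L X Y i) (hx' : (x, y) ∈ S4 k X Y i') : False := by
  have e1 : qv k i = 3 * (k * k) - 2 * i := rfl
  have e2 : qh k i = 3 * (k * k) - 2 * i - 1 := rfl
  have e3 : qv k i' = 3 * (k * k) - 2 * i' := rfl
  have e4 : qh k i' = 3 * (k * k) - 2 * i' - 1 := rfl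
  have f1 := inc (qh k i') (qv k i) (by omega) (by omega)
  have f2 := inc (i + k) (qh k i') (by omega) (by omega)
  have f3 := inc (i' + 1) (qh k i') (by omega) (by omega)
  have g1 := ge (i + k) (by omega)
  have g2 := ge (i' + 1) (by omega)
  simp only [S2, S4, vs, hs, Set.mem_union, Set.mem_ofPred_eq] at hx hx'
  rcases Nat.lt_trichotomy (i + k) (i' + 1) with h | h | h
  · have f4 := inc (i + k) (i' + 1) h (by omega)
    rcases hx with hx | hx | hx <;> rcases hx' with hx' | hx' | hx' <;> omega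
  · have f4 : X (i + k) = X (i' + 1) := congrArg X h
    have f5 : Y (i + k) = Y (i' + 1) := congrArg Y h
    rcases hx with hx | hx | hx <;> rcases hx' with hx' | hx' | hx' <;> omega
  · have f4 := inc (i' + 1) (i + k) h (by omega)
    rcases hx with hx | hx | hx <;> rcases hx' with hx' | hx' | hx' <;> omega

theorem d20 (k L : ℕ) (X Y : ℕ → ℕ)
    (inc : ∀ a b, a < b → b ≤ 3 * (k * k) → X a + L + 10 ≤ X b ∧ Y a + L + 10 ≤ Y b)
    (ge : ∀ a, a ≤ 3 * (k * k) → 3 ≤ X a ∧ 3 ≤ Y a) (i i' : ℕ) (hu : i + 1 < k * k) (hu' : i' + k < k * k)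
    (hi : i < i') (x y : ℕ) (hx : (x, y) ∈ S3 k L X Y i) (hx' : (x, y) ∈ S1 k X Y i') : False := by
  have e1 : qv k i = 3 * (k * k) - 2 * i := rfl
  have e2 : qh k i = 3 * (k * k) - 2 * i - 1 := rfl
  have e3 : qv k i' = 3 * (k * k) - 2 * i' := rfl
  have e4 : qh k i' = 3 * (k * k) - 2 * i' - 1 := rfl
  have f1 := inc (qv k i') (qh k i) (by omega) (by omega)
  have f2 := inc i (qv k i') (by omega) (by omega)
  have f3 := inc i' (qv k i') (by omega) (by omega)
  have g1 := ge i (by omega)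
  have g2 := ge i' (by omega)
  simp only [S3, S1, vs, hs, Set.mem_union, Set.mem_ofPred_eq] at hx hx'
  rcases Nat.lt_trichotomy i i' with h | h | h
  · have f4 := inc i i' h (by omega)
    rcases hx with hx | hx | hx <;> rcases hx' with hx' | hx' <;> omega
  · have f4 : X i = X i' := congrArg X h
    have f5 : Y i = Y i' := congrArg Y h
    rcases hx with hx | hx | hx <;> rcases hx' with hx' | hx' <;> omega
  · have f4 := inc i' i h (by omega)
    rcases hx with hx | hx | hx <;> rcases hx' with hx' | hx' <;> omega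

theorem d21 (k L : ℕ) (X Y : ℕ → ℕ)
    (inc : ∀ a b, a < b → b ≤ 3 * (k * k) → X a + L + 10 ≤ X b ∧ Y a + L + 10 ≤ Y b)
    (ge : ∀ a, a ≤ 3 * (k * k) → 3 ≤ X a ∧ 3 ≤ Y a) (i i' : ℕ) (hu : i + 1 < k * k) (hu' : i' + k < k * k)
    (hi : i < i') (x y : ℕ) (hx : (x, y) ∈ S3 k L X Y i) (hx' : (x, y) ∈ S2 k L X Y i') : False := by
  have e1 : qv k i = 3 * (k * k) - 2 * i := rfl
  have e2 : qh k i = 3 * (k * k) - 2 * i - 1 := rfl
  have e3 : qv k i' = 3 * (k * k) - 2 * i' := rfl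
  have e4 : qh k i' = 3 * (k * k) - 2 * i' - 1 := rfl
  have f1 := inc (qv k i') (qh k i) (by omega) (by omega)
  have f2 := inc i (qv k i') (by omega) (by omega)
  have f3 := inc (i' + k) (qv k i') (by omega) (by omega)
  have g1 := ge i (by omega)
  have g2 := ge (i' + k) (by omega)
  simp only [S3, S2, vs, hs, Set.mem_union, Set.mem_ofPred_eq] at hx hx'
  rcases Nat.lt_trichotomy i (i' + k) with h | h | h
  · have f4 := inc i (i' + k) h (by omega)
    rcases hx with hx | hx | hx <;> rcases hx' with hx' | hx' | hx' <;> omega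
  · have f4 : X i = X (i' + k) := congrArg X h
    have f5 : Y i = Y (i' + k) := congrArg Y h
    rcases hx with hx | hx | hx <;> rcases hx' with hx' | hx' | hx' <;> omega
  · have f4 := inc (i' + k) i h (by omega)
    rcases hx with hx | hx | hx <;> rcases hx' with hx' | hx' | hx' <;> omega

theorem d22 (k L : ℕ) (X Y : ℕ → ℕ)
    (inc : ∀ a b, a < b → b ≤ 3 * (k * k) → X a + L + 10 ≤ X b ∧ Y a + L + 10 ≤ Y b)
    (ge : ∀ a, a ≤ 3 * (k * k) → 3 ≤ X a ∧ 3 ≤ Y a) (i i' : ℕ) (hu : i + 1 < k * k) (hu' : i' + 1 < k * k)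
    (hi : i < i') (x y : ℕ) (hx : (x, y) ∈ S3 k L X Y i) (hx' : (x, y) ∈ S3 k L X Y i') : False := by
  have e1 : qv k i = 3 * (k * k) - 2 * i := rfl
  have e2 : qh k i = 3 * (k * k) - 2 * i - 1 := rfl
  have e3 : qv k i' = 3 * (k * k) - 2 * i' := rfl
  have e4 : qh k i' = 3 * (k * k) - 2 * i' - 1 := rfl
  have f1 := inc (qh k i') (qh k i) (by omega) (by omega)
  have f2 := inc i (qh k i') (by omega) (by omega)
  have f3 := inc i' (qh k i') (by omega) (by omega)
  have g1 := ge i (by omega)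
  have g2 := ge i' (by omega)
  simp only [S3, vs, hs, Set.mem_union, Set.mem_ofPred_eq] at hx hx'
  rcases Nat.lt_trichotomy i i' with h | h | h
  · have f4 := inc i i' h (by omega)
    rcases hx with hx | hx | hx <;> rcases hx' with hx' | hx' | hx' <;> omega
  · have f4 : X i = X i' := congrArg X h
    have f5 : Y i = Y i' := congrArg Y h
    rcases hx with hx | hx | hx <;> rcases hx' with hx' | hx' | hx' <;> omega
  · have f4 := inc i' i h (by omega)
    rcases hx with hx | hx | hx <;> rcases hx' with hx' | hx' | hx' <;> omega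

theorem d23 (k L : ℕ) (X Y : ℕ → ℕ)
    (inc : ∀ a b, a < b → b ≤ 3 * (k * k) → X a + L + 10 ≤ X b ∧ Y a + L + 10 ≤ Y b)
    (ge : ∀ a, a ≤ 3 * (k * k) → 3 ≤ X a ∧ 3 ≤ Y a) (i i' : ℕ) (hu : i + 1 < k * k) (hu' : i' + 1 < k * k)
    (hi : i < i') (x y : ℕ) (hx : (x, y) ∈ S3 k L X Y i) (hx' : (x, y) ∈ S4 k X Y i') : False := by
  have e1 : qv k i = 3 * (k * k) - 2 * i := rfl
  have e2 : qh k i = 3 * (k * k) - 2 * i - 1 := rfl
  have e3 : qv k i' = 3 * (k * k) - 2 * i' := rfl
  have e4 : qh k i' = 3 * (k * k) - 2 * i' - 1 := rfl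
  have f1 := inc (qh k i') (qh k i) (by omega) (by omega)
  have f2 := inc i (qh k i') (by omega) (by omega)
  have f3 := inc (i' + 1) (qh k i') (by omega) (by omega)
  have g1 := ge i (by omega)
  have g2 := ge (i' + 1) (by omega)
  simp only [S3, S4, vs, hs, Set.mem_union, Set.mem_ofPred_eq] at hx hx'
  rcases Nat.lt_trichotomy i (i' + 1) with h | h | h
  · have f4 := inc i (i' + 1) h (by omega)
    rcases hx with hx | hx | hx <;> rcases hx' with hx' | hx' | hx' <;> omega
  · have f4 : X i = X (i' + 1) := congrArg X h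
    have f5 : Y i = Y (i' + 1) := congrArg Y h
    rcases hx with hx | hx | hx <;> rcases hx' with hx' | hx' | hx' <;> omega
  · have f4 := inc (i' + 1) i h (by omega)
    rcases hx with hx | hx | hx <;> rcases hx' with hx' | hx' | hx' <;> omega

theorem d30 (k L : ℕ) (X Y : ℕ → ℕ)
    (inc : ∀ a b, a < b → b ≤ 3 * (k * k) → X a + L + 10 ≤ X b ∧ Y a + L + 10 ≤ Y b)
    (ge : ∀ a, a ≤ 3 * (k * k) → 3 ≤ X a ∧ 3 ≤ Y a) (i i' : ℕ) (hu : i + 1 < k * k) (hu' : i' + k < k * k)
    (hi : i < i') (x y : ℕ) (hx : (x, y) ∈ S4 k X Y i) (hx' : (x, y) ∈ S1 k X Y i') : False := by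
  have e1 : qv k i = 3 * (k * k) - 2 * i := rfl
  have e2 : qh k i = 3 * (k * k) - 2 * i - 1 := rfl
  have e3 : qv k i' = 3 * (k * k) - 2 * i' := rfl
  have e4 : qh k i' = 3 * (k * k) - 2 * i' - 1 := rfl
  have f1 := inc (qv k i') (qh k i) (by omega) (by omega)
  have f2 := inc (i + 1) (qv k i') (by omega) (by omega)
  have f3 := inc i' (qv k i') (by omega) (by omega)
  have g1 := ge (i + 1) (by omega)
  have g2 := ge i' (by omega)
  simp only [S4, S1, vs, hs, Set.mem_union, Set.mem_ofPred_eq] at hx hx'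
  rcases Nat.lt_trichotomy (i + 1) i' with h | h | h
  · have f4 := inc (i + 1) i' h (by omega)
    rcases hx with hx | hx | hx <;> rcases hx' with hx' | hx' <;> omega
  · have f4 : X (i + 1) = X i' := congrArg X h
    have f5 : Y (i + 1) = Y i' := congrArg Y h
    rcases hx with hx | hx | hx <;> rcases hx' with hx' | hx' <;> omega
  · have f4 := inc i' (i + 1) h (by omega)
    rcases hx with hx | hx | hx <;> rcases hx' with hx' | hx' <;> omega

theorem d31 (k L : ℕ) (X Y : ℕ → ℕ)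
    (inc : ∀ a b, a < b → b ≤ 3 * (k * k) → X a + L + 10 ≤ X b ∧ Y a + L + 10 ≤ Y b)
    (ge : ∀ a, a ≤ 3 * (k * k) → 3 ≤ X a ∧ 3 ≤ Y a) (i i' : ℕ) (hu : i + 1 < k * k) (hu' : i' + k < k * k)
    (hi : i < i') (x y : ℕ) (hx : (x, y) ∈ S4 k X Y i) (hx' : (x, y) ∈ S2 k L X Y i') : False := by
  have e1 : qv k i = 3 * (k * k) - 2 * i := rfl
  have e2 : qh k i = 3 * (k * k) - 2 * i - 1 := rfl
  have e3 : qv k i' = 3 * (k * k) - 2 * i' := rfl
  have e4 : qh k i' = 3 * (k * k) - 2 * i' - 1 := rfl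
  have f1 := inc (qv k i') (qh k i) (by omega) (by omega)
  have f2 := inc (i + 1) (qv k i') (by omega) (by omega)
  have f3 := inc (i' + k) (qv k i') (by omega) (by omega)
  have g1 := ge (i + 1) (by omega)
  have g2 := ge (i' + k) (by omega)
  simp only [S4, S2, vs, hs, Set.mem_union, Set.mem_ofPred_eq] at hx hx'
  rcases Nat.lt_trichotomy (i + 1) (i' + k) with h | h | h
  · have f4 := inc (i + 1) (i' + k) h (by omega)
    rcases hx with hx | hx | hx <;> rcases hx' with hx' | hx' | hx' <;> omega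
  · have f4 : X (i + 1) = X (i' + k) := congrArg X h
    have f5 : Y (i + 1) = Y (i' + k) := congrArg Y h
    rcases hx with hx | hx | hx <;> rcases hx' with hx' | hx' | hx' <;> omega
  · have f4 := inc (i' + k) (i + 1) h (by omega)
    rcases hx with hx | hx | hx <;> rcases hx' with hx' | hx' | hx' <;> omega

theorem d32 (k L : ℕ) (X Y : ℕ → ℕ)
    (inc : ∀ a b, a < b → b ≤ 3 * (k * k) → X a + L + 10 ≤ X b ∧ Y a + L + 10 ≤ Y b)
    (ge : ∀ a, a ≤ 3 * (k * k) → 3 ≤ X a ∧ 3 ≤ Y a) (i i' : ℕ) (hu : i + 1 < k * k) (hu' : i' + 1 < k * k)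
    (hi : i < i') (x y : ℕ) (hx : (x, y) ∈ S4 k X Y i) (hx' : (x, y) ∈ S3 k L X Y i') : False := by
  have e1 : qv k i = 3 * (k * k) - 2 * i := rfl
  have e2 : qh k i = 3 * (k * k) - 2 * i - 1 := rfl
  have e3 : qv k i' = 3 * (k * k) - 2 * i' := rfl
  have e4 : qh k i' = 3 * (k * k) - 2 * i' - 1 := rfl
  have f1 := inc (qh k i') (qh k i) (by omega) (by omega)
  have f2 := inc (i + 1) (qh k i') (by omega) (by omega)
  have f3 := inc i' (qh k i') (by omega) (by omega)
  have g1 := ge (i + 1) (by omega)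
  have g2 := ge i' (by omega)
  simp only [S4, S3, vs, hs, Set.mem_union, Set.mem_ofPred_eq] at hx hx'
  rcases Nat.lt_trichotomy (i + 1) i' with h | h | h
  · have f4 := inc (i + 1) i' h (by omega)
    rcases hx with hx | hx | hx <;> rcases hx' with hx' | hx' | hx' <;> omega
  · have f4 : X (i + 1) = X i' := congrArg X h
    have f5 : Y (i + 1) = Y i' := congrArg Y h
    rcases hx with hx | hx | hx <;> rcases hx' with hx' | hx' | hx' <;> omega
  · have f4 := inc i' (i + 1) h (by omega)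
    rcases hx with hx | hx | hx <;> rcases hx' with hx' | hx' | hx' <;> omega

theorem d33 (k L : ℕ) (X Y : ℕ → ℕ)
    (inc : ∀ a b, a < b → b ≤ 3 * (k * k) → X a + L + 10 ≤ X b ∧ Y a + L + 10 ≤ Y b)
    (ge : ∀ a, a ≤ 3 * (k * k) → 3 ≤ X a ∧ 3 ≤ Y a) (i i' : ℕ) (hu : i + 1 < k * k) (hu' : i' + 1 < k * k)
    (hi : i < i') (x y : ℕ) (hx : (x, y) ∈ S4 k X Y i) (hx' : (x, y) ∈ S4 k X Y i') : False := by
  have e1 : qv k i = 3 * (k * k) - 2 * i := rfl
  have e2 : qh k i = 3 * (k * k) - 2 * i - 1 := rfl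
  have e3 : qv k i' = 3 * (k * k) - 2 * i' := rfl
  have e4 : qh k i' = 3 * (k * k) - 2 * i' - 1 := rfl
  have f1 := inc (qh k i') (qh k i) (by omega) (by omega)
  have f2 := inc (i + 1) (qh k i') (by omega) (by omega)
  have f3 := inc (i' + 1) (qh k i') (by omega) (by omega)
  have g1 := ge (i + 1) (by omega)
  have g2 := ge (i' + 1) (by omega)
  simp only [S4, vs, hs, Set.mem_union, Set.mem_ofPred_eq] at hx hx'
  rcases Nat.lt_trichotomy (i + 1) (i' + 1) with h | h | h
  · have f4 := inc (i + 1) (i' + 1) h (by omega)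
    rcases hx with hx | hx | hx <;> rcases hx' with hx' | hx' | hx' <;> omega
  · have f4 : X (i + 1) = X (i' + 1) := congrArg X h
    have f5 : Y (i + 1) = Y (i' + 1) := congrArg Y h
    rcases hx with hx | hx | hx <;> rcases hx' with hx' | hx' | hx' <;> omega
  · have f4 := inc (i' + 1) (i + 1) h (by omega)
    rcases hx with hx | hx | hx <;> rcases hx' with hx' | hx' | hx' <;> omega

theorem s01 (k L : ℕ) (X Y : ℕ → ℕ)
    (inc : ∀ a b, a < b → b ≤ 3 * (k * k) → X a + L + 10 ≤ X b ∧ Y a + L + 10 ≤ Y b)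
    (ge : ∀ a, a ≤ 3 * (k * k) → 3 ≤ X a ∧ 3 ≤ Y a) (i : ℕ) (hu : i + k < k * k) (hu' : i + k < k * k)
    (x y : ℕ) (hx : (x, y) ∈ S1 k X Y i) (hx' : (x, y) ∈ S2 k L X Y i) : False := by
  have e1 : qv k i = 3 * (k * k) - 2 * i := rfl
  have e2 : qh k i = 3 * (k * k) - 2 * i - 1 := rfl
  have e5 : 1 ≤ k := by
    rcases Nat.eq_zero_or_pos k with h | h
    · subst h
      omega
    · exact h
  have f0 := inc (qh k i) (qv k i) (by omega) (by omega)
  have f2 := inc i (qh k i) (by omega) (by omega)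
  have f3 := inc (i + k) (qh k i) (by omega) (by omega)
  have g1 := ge i (by omega)
  have g2 := ge (i + k) (by omega)
  simp only [S1, S2, vs, hs, Set.mem_union, Set.mem_ofPred_eq] at hx hx'
  rcases Nat.lt_trichotomy i (i + k) with h | h | h
  · have f4 := inc i (i + k) h (by omega)
    rcases hx with hx | hx <;> rcases hx' with hx' | hx' | hx' <;> omega
  · have f4 : X i = X (i + k) := congrArg X h
    have f5 : Y i = Y (i + k) := congrArg Y h
    rcases hx with hx | hx <;> rcases hx' with hx' | hx' | hx' <;> omega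
  · have f4 := inc (i + k) i h (by omega)
    rcases hx with hx | hx <;> rcases hx' with hx' | hx' | hx' <;> omega

theorem s02 (k L : ℕ) (X Y : ℕ → ℕ)
    (inc : ∀ a b, a < b → b ≤ 3 * (k * k) → X a + L + 10 ≤ X b ∧ Y a + L + 10 ≤ Y b)
    (ge : ∀ a, a ≤ 3 * (k * k) → 3 ≤ X a ∧ 3 ≤ Y a) (i : ℕ) (hu : i + k < k * k) (hu' : i + 1 < k * k)
    (x y : ℕ) (hx : (x, y) ∈ S1 k X Y i) (hx' : (x, y) ∈ S3 k L X Y i) : False := by
  have e1 : qv k i = 3 * (k * k) - 2 * i := rfl
  have e2 : qh k i = 3 * (k * k) - 2 * i - 1 := rfl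
  have e5 : 1 ≤ k := by
    rcases Nat.eq_zero_or_pos k with h | h
    · subst h
      omega
    · exact h
  have f0 := inc (qh k i) (qv k i) (by omega) (by omega)
  have f2 := inc i (qh k i) (by omega) (by omega)
  have f3 := inc i (qh k i) (by omega) (by omega)
  have g1 := ge i (by omega)
  have g2 := ge i (by omega)
  simp only [S1, S3, vs, hs, Set.mem_union, Set.mem_ofPred_eq] at hx hx'
  rcases Nat.lt_trichotomy i i with h | h | h
  · have f4 := inc i i h (by omega)
    rcases hx with hx | hx <;> rcases hx' with hx' | hx' | hx' <;> omega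
  · have f4 : X i = X i := congrArg X h
    have f5 : Y i = Y i := congrArg Y h
    rcases hx with hx | hx <;> rcases hx' with hx' | hx' | hx' <;> omega
  · have f4 := inc i i h (by omega)
    rcases hx with hx | hx <;> rcases hx' with hx' | hx' | hx' <;> omega

theorem s03 (k L : ℕ) (X Y : ℕ → ℕ)
    (inc : ∀ a b, a < b → b ≤ 3 * (k * k) → X a + L + 10 ≤ X b ∧ Y a + L + 10 ≤ Y b)
    (ge : ∀ a, a ≤ 3 * (k * k) → 3 ≤ X a ∧ 3 ≤ Y a) (i : ℕ) (hu : i + k < k * k) (hu' : i + 1 < k * k)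
    (x y : ℕ) (hx : (x, y) ∈ S1 k X Y i) (hx' : (x, y) ∈ S4 k X Y i) : False := by
  have e1 : qv k i = 3 * (k * k) - 2 * i := rfl
  have e2 : qh k i = 3 * (k * k) - 2 * i - 1 := rfl
  have e5 : 1 ≤ k := by
    rcases Nat.eq_zero_or_pos k with h | h
    · subst h
      omega
    · exact h
  have f0 := inc (qh k i) (qv k i) (by omega) (by omega)
  have f2 := inc i (qh k i) (by omega) (by omega)
  have f3 := inc (i + 1) (qh k i) (by omega) (by omega)
  have g1 := ge i (by omega)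
  have g2 := ge (i + 1) (by omega)
  simp only [S1, S4, vs, hs, Set.mem_union, Set.mem_ofPred_eq] at hx hx'
  rcases Nat.lt_trichotomy i (i + 1) with h | h | h
  · have f4 := inc i (i + 1) h (by omega)
    rcases hx with hx | hx <;> rcases hx' with hx' | hx' | hx' <;> omega
  · have f4 : X i = X (i + 1) := congrArg X h
    have f5 : Y i = Y (i + 1) := congrArg Y h
    rcases hx with hx | hx <;> rcases hx' with hx' | hx' | hx' <;> omega
  · have f4 := inc (i + 1) i h (by omega)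
    rcases hx with hx | hx <;> rcases hx' with hx' | hx' | hx' <;> omega

theorem s12 (k L : ℕ) (X Y : ℕ → ℕ)
    (inc : ∀ a b, a < b → b ≤ 3 * (k * k) → X a + L + 10 ≤ X b ∧ Y a + L + 10 ≤ Y b)
    (ge : ∀ a, a ≤ 3 * (k * k) → 3 ≤ X a ∧ 3 ≤ Y a) (i : ℕ) (hu : i + k < k * k) (hu' : i + 1 < k * k)
    (x y : ℕ) (hx : (x, y) ∈ S2 k L X Y i) (hx' : (x, y) ∈ S3 k L X Y i) : False := by
  have e1 : qv k i = 3 * (k * k) - 2 * i := rfl
  have e2 : qh k i = 3 * (k * k) - 2 * i - 1 := rfl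
  have e5 : 1 ≤ k := by
    rcases Nat.eq_zero_or_pos k with h | h
    · subst h
      omega
    · exact h
  have f0 := inc (qh k i) (qv k i) (by omega) (by omega)
  have f2 := inc (i + k) (qh k i) (by omega) (by omega)
  have f3 := inc i (qh k i) (by omega) (by omega)
  have g1 := ge (i + k) (by omega)
  have g2 := ge i (by omega)
  simp only [S2, S3, vs, hs, Set.mem_union, Set.mem_ofPred_eq] at hx hx'
  rcases Nat.lt_trichotomy (i + k) i with h | h | h
  · have f4 := inc (i + k) i h (by omega)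
    rcases hx with hx | hx | hx <;> rcases hx' with hx' | hx' | hx' <;> omega
  · have f4 : X (i + k) = X i := congrArg X h
    have f5 : Y (i + k) = Y i := congrArg Y h
    rcases hx with hx | hx | hx <;> rcases hx' with hx' | hx' | hx' <;> omega
  · have f4 := inc i (i + k) h (by omega)
    rcases hx with hx | hx | hx <;> rcases hx' with hx' | hx' | hx' <;> omega

theorem s13 (k L : ℕ) (X Y : ℕ → ℕ)
    (inc : ∀ a b, a < b → b ≤ 3 * (k * k) → X a + L + 10 ≤ X b ∧ Y a + L + 10 ≤ Y b)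
    (ge : ∀ a, a ≤ 3 * (k * k) → 3 ≤ X a ∧ 3 ≤ Y a) (i : ℕ) (hu : i + k < k * k) (hu' : i + 1 < k * k)
    (x y : ℕ) (hx : (x, y) ∈ S2 k L X Y i) (hx' : (x, y) ∈ S4 k X Y i) : False := by
  have e1 : qv k i = 3 * (k * k) - 2 * i := rfl
  have e2 : qh k i = 3 * (k * k) - 2 * i - 1 := rfl
  have e5 : 1 ≤ k := by
    rcases Nat.eq_zero_or_pos k with h | h
    · subst h
      omega
    · exact h
  have f0 := inc (qh k i) (qv k i) (by omega) (by omega)
  have f2 := inc (i + k) (qh k i) (by omega) (by omega)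
  have f3 := inc (i + 1) (qh k i) (by omega) (by omega)
  have g1 := ge (i + k) (by omega)
  have g2 := ge (i + 1) (by omega)
  simp only [S2, S4, vs, hs, Set.mem_union, Set.mem_ofPred_eq] at hx hx'
  rcases Nat.lt_trichotomy (i + k) (i + 1) with h | h | h
  · have f4 := inc (i + k) (i + 1) h (by omega)
    rcases hx with hx | hx | hx <;> rcases hx' with hx' | hx' | hx' <;> omega
  · have f4 : X (i + k) = X (i + 1) := congrArg X h
    have f5 : Y (i + k) = Y (i + 1) := congrArg Y h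
    rcases hx with hx | hx | hx <;> rcases hx' with hx' | hx' | hx' <;> omega
  · have f4 := inc (i + 1) (i + k) h (by omega)
    rcases hx with hx | hx | hx <;> rcases hx' with hx' | hx' | hx' <;> omega

theorem s23 (k L : ℕ) (X Y : ℕ → ℕ)
    (inc : ∀ a b, a < b → b ≤ 3 * (k * k) → X a + L + 10 ≤ X b ∧ Y a + L + 10 ≤ Y b)
    (ge : ∀ a, a ≤ 3 * (k * k) → 3 ≤ X a ∧ 3 ≤ Y a) (i : ℕ) (hu : i + 1 < k * k) (hu' : i + 1 < k * k)
    (x y : ℕ) (hx : (x, y) ∈ S3 k L X Y i) (hx' : (x, y) ∈ S4 k X Y i) : False := by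
  have e1 : qv k i = 3 * (k * k) - 2 * i := rfl
  have e2 : qh k i = 3 * (k * k) - 2 * i - 1 := rfl
  have e5 : 1 ≤ k := by
    rcases Nat.eq_zero_or_pos k with h | h
    · subst h
      omega
    · exact h
  have f0 := inc (qh k i) (qv k i) (by omega) (by omega)
  have f2 := inc i (qh k i) (by omega) (by omega)
  have f3 := inc (i + 1) (qh k i) (by omega) (by omega)
  have g1 := ge i (by omega)
  have g2 := ge (i + 1) (by omega)
  simp only [S3, S4, vs, hs, Set.mem_union, Set.mem_ofPred_eq] at hx hx'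
  rcases Nat.lt_trichotomy i (i + 1) with h | h | h
  · have f4 := inc i (i + 1) h (by omega)
    rcases hx with hx | hx | hx <;> rcases hx' with hx' | hx' | hx' <;> omega
  · have f4 : X i = X (i + 1) := congrArg X h
    have f5 : Y i = Y (i + 1) := congrArg Y h
    rcases hx with hx | hx | hx <;> rcases hx' with hx' | hx' | hx' <;> omega
  · have f4 := inc (i + 1) i h (by omega)
    rcases hx with hx | hx | hx <;> rcases hx' with hx' | hx' | hx' <;> omega

theorem main (k L : ℕ) (X Y : ℕ → ℕ) (hP : Pos k L X Y) (t i t' i' : ℕ) (ht : t < 4)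
    (ht' : t' < 4) (hu : Us k t i) (hu' : Us k t' i') (hlt : i < i' ∨ (i = i' ∧ t < t'))
    (x y : ℕ) (hx : (x, y) ∈ St k L X Y t i) (hx' : (x, y) ∈ St k L X Y t' i') : False := by
  obtain ⟨hX, hY, inc⟩ := hP
  have ge : ∀ a, a ≤ 3 * (k * k) → 3 ≤ X a ∧ 3 ≤ Y a := by
    intro a ha
    rcases Nat.eq_zero_or_pos a with h | h
    · subst h
      exact ⟨hX, hY⟩
    · have := inc 0 a h ha
      omega
  rcases hlt with hi | ⟨rfl, htt⟩
  · interval_cases t <;> interval_cases t' <;>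
      simp only [Us, St, if_true, if_false, true_or, or_true, or_false, false_or,
        OfNat.ofNat_ne_zero, OfNat.ofNat_ne_one, one_ne_zero, zero_ne_one, Nat.reduceEqDiff] at hu hu' hx hx'
    · exact d00 k L X Y inc ge i i' hu hu' hi x y hx hx'
    · exact d01 k L X Y inc ge i i' hu hu' hi x y hx hx'
    · exact d02 k L X Y inc ge i i' hu hu' hi x y hx hx'
    · exact d03 k L X Y inc ge i i' hu hu' hi x y hx hx'
    · exact d10 k L X Y inc ge i i' hu hu' hi x y hx hx'
    · exact d11 k L X Y inc ge i i' hu hu' hi x y hx hx'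
    · exact d12 k L X Y inc ge i i' hu hu' hi x y hx hx'
    · exact d13 k L X Y inc ge i i' hu hu' hi x y hx hx'
    · exact d20 k L X Y inc ge i i' hu hu' hi x y hx hx'
    · exact d21 k L X Y inc ge i i' hu hu' hi x y hx hx'
    · exact d22 k L X Y inc ge i i' hu hu' hi x y hx hx'
    · exact d23 k L X Y inc ge i i' hu hu' hi x y hx hx'
    · exact d30 k L X Y inc ge i i' hu hu' hi x y hx hx'
    · exact d31 k L X Y inc ge i i' hu hu' hi x y hx hx'
    · exact d32 k L X Y inc ge i i' hu hu' hi x y hx hx'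
    · exact d33 k L X Y inc ge i i' hu hu' hi x y hx hx'
  · interval_cases t <;> interval_cases t' <;>
      first
      | omega
      | simp only [Us, St, if_true, if_false, true_or, or_true, or_false, false_or,
          OfNat.ofNat_ne_zero, OfNat.ofNat_ne_one, one_ne_zero, zero_ne_one, Nat.reduceEqDiff] at hu hu' hx hx'
    · exact s01 k L X Y inc ge i hu hu' x y hx hx'
    · exact s02 k L X Y inc ge i hu hu' x y hx hx'
    · exact s03 k L X Y inc ge i hu hu' x y hx hx'
    · exact s12 k L X Y inc ge i hu hu' x y hx hx'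
    · exact s13 k L X Y inc ge i hu hu' x y hx hx'
    · exact s23 k L X Y inc ge i hu hu' x y hx hx'

end IE14

theorem E14 : PE14 := by
  intro k L X Y hP t i t' i' ht ht' hu hu' hne
  rw [Set.disjoint_left]
  rintro ⟨x, y⟩ hx hx'
  rcases Nat.lt_trichotomy i i' with h | h | h
  · exact IE14.main k L X Y hP t i t' i' ht ht' hu hu' (Or.inl h) x y hx hx'
  · subst h
    rcases Nat.lt_trichotomy t t' with h | h | h
    · exact IE14.main k L X Y hP t i t' i ht ht' hu hu' (Or.inr ⟨rfl, h⟩) x y hx hx'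
    · exact hne (by rw [h])
    · exact IE14.main k L X Y hP t' i t i ht' ht hu' hu (Or.inr ⟨rfl, h⟩) x y hx' hx
  · exact IE14.main k L X Y hP t' i' t i ht' ht hu' hu (Or.inl h) x y hx' hx

end Pool.Agent.PEmb

end

section

/-!
# MP_cfa43e_lc, item E15: the strands avoid the blocks
-/

set_option autoImplicit false

namespace Pool.Agent.PEmb

theorem E15 : PE15 := by
  intro k L X Y hpos t i d ht hu hd
  obtain ⟨hX0, hY0, inc⟩ := hpos
  have ge : ∀ a, a ≤ 3 * (k * k) → 3 ≤ X a ∧ 3 ≤ Y a := by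
    intro a ha
    rcases Nat.eq_zero_or_pos a with h | h
    · subst h
      exact ⟨hX0, hY0⟩
    · have := inc 0 a h ha
      omega
  have tri : ∀ j, j ≤ 3 * (k * k) → (d = j ∧ X d = X j ∧ Y d = Y j) ∨
      (X d + L + 10 ≤ X j ∧ Y d + L + 10 ≤ Y j) ∨ (X j + L + 10 ≤ X d ∧ Y j + L + 10 ≤ Y d) := by
    intro j hj
    rcases Nat.lt_trichotomy d j with h | h | h
    · exact Or.inr (Or.inl (inc d j h hj))
    · subst h
      exact Or.inl ⟨rfl, rfl, rfl⟩
    · exact Or.inr (Or.inr (inc j d h hd))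
  have e1 : qv k i = 3 * (k * k) - 2 * i := rfl
  have e2 : qh k i = 3 * (k * k) - 2 * i - 1 := rfl
  rw [Set.disjoint_left]
  rintro ⟨x, y⟩ hx hr
  simp only [Rc, Set.mem_ofPred_eq] at hr
  have ht4 : t = 0 ∨ t = 1 ∨ t = 2 ∨ t = 3 := by omega
  rcases ht4 with rfl | rfl | rfl | rfl
  · have hu' : i + k < k * k := by simpa [Us] using hu
    have hx' : (x, y) ∈ S1 k X Y i := by simpa [St] using hx
    simp only [S1, vs, hs, Set.mem_union, Set.mem_ofPred_eq] at hx'
    have g1 := ge i (by omega)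
    have g2 := ge (qv k i) (by omega)
    rcases tri i (by omega) with h1 | h1 | h1 <;>
      rcases tri (qv k i) (by omega) with h2 | h2 | h2 <;>
      rcases hx' with hx' | hx' <;> omega
  · have hu' : i + k < k * k := by simpa [Us] using hu
    have hx' : (x, y) ∈ S2 k L X Y i := by simpa [St] using hx
    simp only [S2, vs, hs, Set.mem_union, Set.mem_ofPred_eq] at hx'
    have g1 := ge (i + k) (by omega)
    have g2 := ge (qv k i) (by omega)
    have g3 := inc (i + k) (qv k i) (by omega) (by omega)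
    rcases tri (i + k) (by omega) with h1 | h1 | h1 <;>
      rcases tri (qv k i) (by omega) with h2 | h2 | h2 <;>
      rcases hx' with hx' | hx' | hx' <;> omega
  · have hu' : i + 1 < k * k := by simpa [Us] using hu
    have hx' : (x, y) ∈ S3 k L X Y i := by simpa [St] using hx
    simp only [S3, vs, hs, Set.mem_union, Set.mem_ofPred_eq] at hx'
    have g1 := ge i (by omega)
    have g2 := ge (qh k i) (by omega)
    have g3 := inc i (qh k i) (by omega) (by omega)
    rcases tri i (by omega) with h1 | h1 | h1 <;>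
      rcases tri (qh k i) (by omega) with h2 | h2 | h2 <;>
      rcases hx' with hx' | hx' | hx' <;> omega
  · have hu' : i + 1 < k * k := by simpa [Us] using hu
    have hx' : (x, y) ∈ S4 k X Y i := by simpa [St] using hx
    simp only [S4, vs, hs, Set.mem_union, Set.mem_ofPred_eq] at hx'
    have g1 := ge (i + 1) (by omega)
    have g2 := ge (qh k i) (by omega)
    have g3 := inc (i + 1) (qh k i) (by omega) (by omega)
    rcases tri (i + 1) (by omega) with h1 | h1 | h1 <;>
      rcases tri (qh k i) (by omega) with h2 | h2 | h2 <;>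
      rcases hx' with hx' | hx' | hx' <;> omega

end Pool.Agent.PEmb

end

section

/-!
# E16: the middle part of a vertical leg
-/

set_option autoImplicit false

namespace Pool.Agent.PEmb

theorem mem_Rg {V : Type} {B : ℕ → ℕ → Set V} {T : Set (ℕ × ℕ)} {x : V} :
    x ∈ Rg B T ↔ ∃ p ∈ T, x ∈ B p.1 p.2 := by
  simp [Rg]

theorem Rg_disj {V : Type} {G : SimpleGraph V} {K : ℕ} {B : ℕ → ℕ → Set V} (hG : Grid G K B)
    {S T : Set (ℕ × ℕ)} (hS : ∀ p ∈ S, p.1 < K ∧ p.2 < K) (hT : ∀ p ∈ T, p.1 < K ∧ p.2 < K)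
    (hd : Disjoint S T) {x : V} (h1 : x ∈ Rg B S) (h2 : x ∈ Rg B T) : False := by
  obtain ⟨p, hp, hxp⟩ := mem_Rg.1 h1
  obtain ⟨q, hq, hxq⟩ := mem_Rg.1 h2
  have hne : (p.1, p.2) ≠ (q.1, q.2) := by
    intro h
    have : p = q := h
    exact Set.disjoint_left.1 hd hp (this ▸ hq)
  exact Set.disjoint_left.1
    (hG.disj p.1 p.2 q.1 q.2 (hS p hp).1 (hS p hp).2 (hT q hq).1 (hT q hq).2 hne) hxp hxq

theorem IsPth_mono {V : Type} {G : SimpleGraph V} {S T : Set V} {a b : V} {l : List V}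
    (h : IsPth G S a b l) (hST : S ⊆ T) : IsPth G T a b l :=
  ⟨h.1, h.2.1, h.2.2.1, h.2.2.2.1, fun x hx => hST (h.2.2.2.2 x hx)⟩

theorem IsPth_rev {V : Type} {G : SimpleGraph V} {S : Set V} {a b : V} {l : List V}
    (h : IsPth G S a b l) : IsPth G S b a l.reverse := by
  refine ⟨?_, List.nodup_reverse.2 h.2.1, ?_, ?_, ?_⟩
  · rw [List.isChain_reverse]
    exact h.1.imp fun _ _ hxy => hxy.symm
  · rw [List.head?_reverse]
    exact h.2.2.2.1
  · rw [List.getLast?_reverse]
    exact h.2.2.1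
  · intro x hx
    exact h.2.2.2.2 x (List.mem_reverse.1 hx)

/-- A path in a region `T1`, then a path through `R`, then a path in `T2`. -/
theorem mid (h10 : PE10) (h12 : PE12) {V : Type} {G : SimpleGraph V} {K : ℕ}
    {B : ℕ → ℕ → Set V} (hG : Grid G K B) {T1 T2 R : Set (ℕ × ℕ)}
    (b1 : ∀ p ∈ T1, p.1 < K ∧ p.2 < K) (b2 : ∀ p ∈ T2, p.1 < K ∧ p.2 < K)
    (bR : ∀ p ∈ R, p.1 < K ∧ p.2 < K) (c1 : GConn T1) (c2 : GConn T2)
    (d12 : Disjoint T1 T2) (d1 : Disjoint T1 R) (d2 : Disjoint T2 R) {a u v b : V}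
    {pa pu pv pb : ℕ × ℕ} (hpa : pa ∈ T1) (ha : a ∈ B pa.1 pa.2) (hpu : pu ∈ T1)
    (hu : u ∈ B pu.1 pu.2) (hpv : pv ∈ T2) (hv : v ∈ B pv.1 pv.2) (hpb : pb ∈ T2)
    (hb : b ∈ B pb.1 pb.2) {m : List V} (hm : IsPth G (Rg B R ∪ {u, v}) u v m) :
    ∃ l, IsPth G (Rg B (T1 ∪ T2 ∪ R)) a b l ∧ m.length ≤ l.length := by
  obtain ⟨l1, hl1⟩ := h10 G K B hG T1 b1 c1 pa hpa pu hpu a ha u hu
  obtain ⟨l3, hl3⟩ := h10 G K B hG T2 b2 c2 pv hpv pb hpb v hv b hb
  have hu1 : u ∈ Rg B T1 := mem_Rg.2 ⟨pu, hpu, hu⟩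
  have hv2 : v ∈ Rg B T2 := mem_Rg.2 ⟨pv, hpv, hv⟩
  have e1 : ∀ x, x ∈ l1 → x ∈ m → x = u := by
    intro x hx1 hx2
    have hx1' : x ∈ Rg B T1 := hl1.2.2.2.2 x hx1
    rcases hm.2.2.2.2 x hx2 with h | h | h
    · exact (Rg_disj hG b1 bR d1 hx1' h).elim
    · exact h
    · rw [Set.mem_singleton_iff] at h
      rw [h] at hx1'
      exact (Rg_disj hG b1 b2 d12 hx1' hv2).elim
  obtain ⟨h4, h5⟩ := h12 G _ _ a u v l1 m hl1 hm e1
  have e2 : ∀ x, x ∈ l1 ++ m.tail → x ∈ l3 → x = v := by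
    intro x hx1 hx2
    have hx2' : x ∈ Rg B T2 := hl3.2.2.2.2 x hx2
    rcases (h5 x).1 hx1 with h | h
    · exact (Rg_disj hG b1 b2 d12 (hl1.2.2.2.2 x h) hx2').elim
    · rcases hm.2.2.2.2 x h with h' | h' | h'
      · exact (Rg_disj hG b2 bR d2 hx2' h').elim
      · rw [h'] at hx2'
        exact (Rg_disj hG b1 b2 d12 hu1 hx2').elim
      · exact h'
  obtain ⟨h6, -⟩ := h12 G _ _ a v b (l1 ++ m.tail) l3 h4 hl3 e2
  refine ⟨_, IsPth_mono h6 ?_, ?_⟩
  · have f1 : Rg B T1 ⊆ Rg B (T1 ∪ T2 ∪ R) := by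
      intro x hx
      obtain ⟨p, hp, hxp⟩ := mem_Rg.1 hx
      exact mem_Rg.2 ⟨p, Or.inl (Or.inl hp), hxp⟩
    have f2 : Rg B T2 ⊆ Rg B (T1 ∪ T2 ∪ R) := by
      intro x hx
      obtain ⟨p, hp, hxp⟩ := mem_Rg.1 hx
      exact mem_Rg.2 ⟨p, Or.inl (Or.inr hp), hxp⟩
    have f3 : Rg B R ⊆ Rg B (T1 ∪ T2 ∪ R) := by
      intro x hx
      obtain ⟨p, hp, hxp⟩ := mem_Rg.1 hx
      exact mem_Rg.2 ⟨p, Or.inr hp, hxp⟩
    rintro x ((hx | hx | hx | hx) | hx)
    · exact f1 hx
    · exact f3 hx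
    · rw [hx]; exact f1 hu1
    · rw [Set.mem_singleton_iff] at hx
      rw [hx]; exact f2 hv2
    · exact f2 hx
  · have g1 : 1 ≤ l1.length := by
      cases l1 with
      | nil => simp [IsPth] at hl1
      | cons _ _ => simp
    simp only [List.length_append, List.length_tail]
    omega

theorem pos_le {k L : ℕ} {X Y : ℕ → ℕ} (hp : Pos k L X Y) {a b : ℕ} (hab : a ≤ b)
    (hb : b ≤ 3 * (k * k)) : X a ≤ X b ∧ Y a ≤ Y b := by
  rcases hab.lt_or_eq with h | h
  · have := hp.2.2 a b h hb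
    omega
  · rw [h]; exact ⟨le_rfl, le_rfl⟩

theorem mem_S1 {k : ℕ} {X Y : ℕ → ℕ} {i x y : ℕ} : (x, y) ∈ S1 k X Y i ↔
    ((x = X i - 1 ∧ Y i + 1 ≤ y ∧ y ≤ Y (qv k i) + 1) ∨
      (y = Y (qv k i) + 1 ∧ X i - 1 ≤ x ∧ x ≤ X (qv k i) - 1)) := Iff.rfl

theorem mem_S2 {k L : ℕ} {X Y : ℕ → ℕ} {i x y : ℕ} : (x, y) ∈ S2 k L X Y i ↔
    ((x = X (qv k i) + L + 1 ∧ Y (i + k) - 1 ≤ y ∧ y ≤ Y (qv k i)) ∨
      (y = Y (i + k) - 1 ∧ X (i + k) + L + 1 ≤ x ∧ x ≤ X (qv k i) + L + 1) ∨
      (x = X (i + k) + L + 1 ∧ Y (i + k) - 1 ≤ y ∧ y ≤ Y (i + k))) := Iff.rfl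

theorem mem_Rc {L : ℕ} {X Y : ℕ → ℕ} {d x y : ℕ} : (x, y) ∈ Rc L X Y d ↔
    (X d ≤ x ∧ x ≤ X d + L ∧ (y = Y d ∨ y = Y d + 1)) := Iff.rfl

theorem E16 (h10 : PE10) (h12 : PE12) (h13 : PE13) (h14 : PE14) (h15 : PE15) : PE16 := by
  intro V G K B k L X Y e μ hB i hi
  have hpos := hB.pos
  have hq : qv k i ≤ 3 * (k * k) := by unfold qv; omega
  have hik : i + k < qv k i := by unfold qv; omega
  have hXi := hpos.2.2 (i + k) (qv k i) hik hq
  have hXi' := pos_le hpos (Nat.le_add_right i k) (hik.le.trans hq)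
  have hX0 := pos_le hpos (Nat.zero_le i) (((Nat.le_add_right i k).trans hik.le).trans hq)
  have hXN := pos_le hpos hq le_rfl
  have hbX := hB.bdX
  have hbY := hB.bdY
  have h3 := hpos.1
  have h3' := hpos.2.1
  have hu0 : Us k 0 i := by simp [Us]; exact hi
  have hu1 : Us k 1 i := by simp [Us]; exact hi
  have s0 : St k L X Y 0 i = S1 k X Y i := by simp [St]
  have s1 : St k L X Y 1 i = S2 k L X Y i := by simp [St]
  have c1 := h13 k L X Y hpos 0 i (by norm_num) hu0
  have c2 := h13 k L X Y hpos 1 i (by norm_num) hu1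
  have d12 := h14 k L X Y hpos 0 i 1 i (by norm_num) (by norm_num) hu0 hu1 (by simp)
  have d1 := h15 k L X Y hpos 0 i (qv k i) (by norm_num) hu0 hq
  have d2 := h15 k L X Y hpos 1 i (qv k i) (by norm_num) hu1 hq
  rw [s0] at c1 d12 d1
  rw [s1] at c2 d12 d2
  obtain ⟨m, hm, hml⟩ := (hB.cap (qv k i) hq).pass 2 3 (Or.inr rfl) (Or.inr rfl)
  have b1 : ∀ p ∈ S1 k X Y i, p.1 < K ∧ p.2 < K := by
    rintro ⟨x, y⟩ hxy
    rw [mem_S1] at hxy
    dsimp only
    omega
  have b2 : ∀ p ∈ S2 k L X Y i, p.1 < K ∧ p.2 < K := by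
    rintro ⟨x, y⟩ hxy
    rw [mem_S2] at hxy
    dsimp only
    omega
  have bR : ∀ p ∈ Rc L X Y (qv k i), p.1 < K ∧ p.2 < K := by
    rintro ⟨x, y⟩ hxy
    rw [mem_Rc] at hxy
    dsimp only
    omega
  have m1 : (X i - 1, Y i + 1) ∈ S1 k X Y i := by
    rw [mem_S1]
    omega
  have m2 : (X (qv k i) - 1, Y (qv k i) + 1) ∈ S1 k X Y i := by
    rw [mem_S1]
    omega
  have m3 : (X (qv k i) + L + 1, Y (qv k i)) ∈ S2 k L X Y i := by
    rw [mem_S2]
    omega
  have m4 : (X (i + k) + L + 1, Y (i + k)) ∈ S2 k L X Y i := by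
    rw [mem_S2]
    omega
  obtain ⟨l, hl, hll⟩ := mid h10 h12 hB.grid b1 b2 bR c1 c2 d12 d1 d2
    m1 (hB.e2 i (((Nat.le_add_right i k).trans hik.le).trans hq)) m2 (hB.e2 _ hq) m3
    (hB.e3 _ hq) m4 (hB.e3 (i + k) (hik.le.trans hq)) hm
  exact ⟨l, hl, hml.trans hll⟩

end Pool.Agent.PEmb

end

section

/-!
# MP_cfa43e_lc, item E17: the middle part of a horizontal leg
-/

set_option autoImplicit false

namespace Pool.Agent.PEmb

namespace IE17

theorem rev {V : Type} {G : SimpleGraph V} {S : Set V} {a b : V} {l : List V}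
    (h : IsPth G S a b l) : IsPth G S b a l.reverse := by
  obtain ⟨h1, h2, h3, h4, h5⟩ := h
  refine ⟨?_, List.nodup_reverse.2 h2, ?_, ?_, ?_⟩
  · rw [List.isChain_reverse]
    exact h1.imp (fun _ _ h => h.symm)
  · rw [List.head?_reverse]
    exact h4
  · rw [List.getLast?_reverse]
    exact h3
  · intro x hx
    exact h5 x (by simpa using hx)

theorem mono {V : Type} {G : SimpleGraph V} {S T : Set V} {a b : V} {l : List V}
    (h : IsPth G S a b l) (hs : ∀ x, x ∈ S → x ∈ T) : IsPth G T a b l :=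
  ⟨h.1, h.2.1, h.2.2.1, h.2.2.2.1, fun x hx => hs x (h.2.2.2.2 x hx)⟩

theorem mem_Rg {V : Type} {B : ℕ → ℕ → Set V} {T : Set (ℕ × ℕ)} {x : V} :
    x ∈ Rg B T ↔ ∃ p ∈ T, x ∈ B p.1 p.2 := by
  simp [Rg]

theorem rgdis {V : Type} {G : SimpleGraph V} {K : ℕ} {B : ℕ → ℕ → Set V} (hg : Grid G K B)
    {T T' : Set (ℕ × ℕ)} (hT : ∀ p ∈ T, p.1 < K ∧ p.2 < K) (hT' : ∀ p ∈ T', p.1 < K ∧ p.2 < K)
    (hd : Disjoint T T') {x : V} (hx : x ∈ Rg B T) (hx' : x ∈ Rg B T') : False := by
  obtain ⟨p, hp, hxp⟩ := mem_Rg.1 hx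
  obtain ⟨q, hq, hxq⟩ := mem_Rg.1 hx'
  have hne : (p.1, p.2) ≠ (q.1, q.2) := by
    intro h
    have h' : p = q := h
    subst h'
    exact Set.disjoint_left.1 hd hp hq
  exact Set.disjoint_left.1 (hg.disj _ _ _ _ (hT p hp).1 (hT p hp).2 (hT' q hq).1 (hT' q hq).2 hne)
    hxp hxq

end IE17

open IE17 in
theorem E17 (h10 : PE10) (h12 : PE12) (h13 : PE13) (h14 : PE14) (h15 : PE15) : PE17 := by
  intro V G K B k L X Y e μ hB i hi
  obtain ⟨hX, hY, inc⟩ := hB.pos
  have hq : qh k i = 3 * (k * k) - 2 * i - 1 := rfl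
  have hqN : qh k i < 3 * (k * k) := by omega
  have g1 := inc (qh k i) (3 * (k * k)) hqN le_rfl
  have g2 := inc i (i + 1) (by omega) (by omega)
  have g3 := inc (i + 1) (qh k i) (by omega) (by omega)
  have g0 : 3 ≤ X i ∧ 3 ≤ Y i := by
    rcases Nat.eq_zero_or_pos i with h | h
    · subst h
      exact ⟨hX, hY⟩
    · have := inc 0 i h (by omega)
      omega
  have bx := hB.bdX
  have byy := hB.bdY
  have b3 : ∀ p ∈ S3 k L X Y i, p.1 < K ∧ p.2 < K := by
    rintro ⟨x, y⟩ hp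
    simp only [S3, vs, hs, Set.mem_union, Set.mem_ofPred_eq] at hp
    rcases hp with hp | hp | hp <;> dsimp only <;> omega
  have b4 : ∀ p ∈ S4 k X Y i, p.1 < K ∧ p.2 < K := by
    rintro ⟨x, y⟩ hp
    simp only [S4, vs, hs, Set.mem_union, Set.mem_ofPred_eq] at hp
    rcases hp with hp | hp | hp <;> dsimp only <;> omega
  have bR : ∀ p ∈ Rc L X Y (qh k i), p.1 < K ∧ p.2 < K := by
    rintro ⟨x, y⟩ hp
    simp only [Rc, Set.mem_ofPred_eq] at hp
    dsimp only
    omega
  have hs3 : St k L X Y 2 i = S3 k L X Y i := by simp [St]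
  have hs4 : St k L X Y 3 i = S4 k X Y i := by simp [St]
  have hu2 : Us k 2 i := by simpa [Us] using hi
  have hu3 : Us k 3 i := by simpa [Us] using hi
  have c3 := h13 k L X Y hB.pos 2 i (by omega) hu2
  have c4 := h13 k L X Y hB.pos 3 i (by omega) hu3
  have d34 := h14 k L X Y hB.pos 2 i 3 i (by omega) (by omega) hu2 hu3 (by simp)
  have d3 := h15 k L X Y hB.pos 2 i (qh k i) (by omega) hu2 hqN.le
  have d4 := h15 k L X Y hB.pos 3 i (qh k i) (by omega) hu3 hqN.le
  rw [hs3] at c3 d34 d3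
  rw [hs4] at c4 d34 d4
  -- points of the strands
  have p1 : (X i + L + 1, Y i + 1) ∈ S3 k L X Y i :=
    Or.inl ⟨rfl, le_rfl, show Y i + 1 ≤ Y (qh k i) + 2 by omega⟩
  have p2 : (X (qh k i) + L + 1, Y (qh k i) + 1) ∈ S3 k L X Y i :=
    Or.inr (Or.inr ⟨rfl, le_rfl, show Y (qh k i) + 1 ≤ Y (qh k i) + 2 by omega⟩)
  have p3 : (X (qh k i) - 1, Y (qh k i) + 1) ∈ S4 k X Y i :=
    Or.inl ⟨rfl, show X (i + 1) - 2 ≤ X (qh k i) - 1 by omega, le_rfl⟩
  have p4 : (X (i + 1) - 1, Y (i + 1)) ∈ S4 k X Y i :=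
    Or.inr (Or.inr ⟨rfl, show X (i + 1) - 2 ≤ X (i + 1) - 1 by omega, le_rfl⟩)
  have q1 : e (qh k i) 0 ∈ Rg B (S3 k L X Y i) := mem_Rg.2 ⟨_, p2, hB.e0 _ hqN.le⟩
  have q2 : e (qh k i) 2 ∈ Rg B (S4 k X Y i) := mem_Rg.2 ⟨_, p3, hB.e2 _ hqN.le⟩
  obtain ⟨l1, hl1⟩ := h10 G K B hB.grid (S3 k L X Y i) b3 c3 _ p1 _ p2 (e i 0)
    (hB.e0 i (by omega)) (e (qh k i) 0) (hB.e0 _ hqN.le)
  obtain ⟨l3, hl3⟩ := h10 G K B hB.grid (S4 k X Y i) b4 c4 _ p3 _ p4 (e (qh k i) 2)
    (hB.e2 _ hqN.le) (e (i + 1) 1) (hB.e1 _ (by omega))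
  obtain ⟨l2, hl2, hlen⟩ := (hB.cap (qh k i) hqN.le).pass 2 0 (Or.inr rfl) (Or.inl rfl)
  have hl2' := rev hl2
  have hl1' : IsPth G (Rg B (S3 k L X Y i)) (e i 0) (e (qh k i) 0) l1 := hl1
  have hl3' : IsPth G (Rg B (S4 k X Y i)) (e (qh k i) 2) (e (i + 1) 1) l3 := hl3
  obtain ⟨h1, h1m⟩ := h12 G _ _ _ _ _ l1 l2.reverse hl1' hl2' (by
    intro x hx hx'
    have k1 := hl1'.2.2.2.2 x hx
    have k2 := hl2'.2.2.2.2 x hx'
    rcases k2 with k2 | k2 | k2
    · exact (rgdis hB.grid b3 bR d3 k1 k2).elim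
    · subst k2
      exact (rgdis hB.grid b3 b4 d34 k1 q2).elim
    · exact k2)
  obtain ⟨h2, -⟩ := h12 G _ _ _ _ _ (l1 ++ l2.reverse.tail) l3 h1 hl3' (by
    intro x hx hx'
    have k3 := hl3'.2.2.2.2 x hx'
    rcases (h1m x).1 hx with hx | hx
    · exact (rgdis hB.grid b3 b4 d34 (hl1'.2.2.2.2 x hx) k3).elim
    · rcases hl2'.2.2.2.2 x hx with k2 | k2 | k2
      · exact (rgdis hB.grid b4 bR d4 k3 k2).elim
      · exact k2
      · have k2' : x = e (qh k i) 0 := k2
        subst k2'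
        exact (rgdis hB.grid b3 b4 d34 q1 k3).elim)
  refine ⟨_, mono h2 ?_, ?_⟩
  · intro x hx
    rcases hx with (hx | hx | hx | hx) | hx
    · obtain ⟨p, hp, hxp⟩ := mem_Rg.1 hx
      exact mem_Rg.2 ⟨p, Or.inl (Or.inl hp), hxp⟩
    · obtain ⟨p, hp, hxp⟩ := mem_Rg.1 hx
      exact mem_Rg.2 ⟨p, Or.inr hp, hxp⟩
    · have hx' : x = e (qh k i) 2 := hx
      subst hx'
      obtain ⟨p, hp, hxp⟩ := mem_Rg.1 q2
      exact mem_Rg.2 ⟨p, Or.inl (Or.inr hp), hxp⟩
    · have hx' : x = e (qh k i) 0 := hx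
      subst hx'
      obtain ⟨p, hp, hxp⟩ := mem_Rg.1 q1
      exact mem_Rg.2 ⟨p, Or.inl (Or.inl hp), hxp⟩
    · obtain ⟨p, hp, hxp⟩ := mem_Rg.1 hx
      exact mem_Rg.2 ⟨p, Or.inl (Or.inr hp), hxp⟩
  · have hl1len : 1 ≤ l1.length := by
      rcases l1 with _ | ⟨a, l⟩
      · simp [IsPth] at hl1'
      · simp
    simp only [List.length_append, List.length_tail, List.length_reverse]
    omega

end Pool.Agent.PEmb

end

section

/-!
# E18: a choice with distinct values
-/

set_option autoImplicit false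

namespace Pool.Agent.PEmb

theorem E18 : PE18 := by
  intro α hα n ok len h
  have key : ∀ m, m ≤ n → ∃ c : ℕ → α, (∀ i, i < m → ok i (c i)) ∧
      ∀ i j, i < m → j < m → len (c i) = len (c j) → i = j := by
    intro m
    induction m with
    | zero =>
      intro _
      obtain ⟨a⟩ := hα
      exact ⟨fun _ => a, fun i hi => absurd hi (Nat.not_lt_zero _),
        fun i j hi _ _ => absurd hi (Nat.not_lt_zero _)⟩
    | succ m ih =>
      intro hm
      obtain ⟨c, hc1, hc2⟩ := ih (by omega)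
      obtain ⟨x, hx1, hx2⟩ := h m (by omega) ((Finset.range m).image (fun i => len (c i)))
        (lt_of_le_of_lt Finset.card_image_le (by rw [Finset.card_range]; omega))
      have hx3 : ∀ i, i < m → len (c i) ≠ len x := by
        intro i hi he
        exact hx2 (Finset.mem_image.2 ⟨i, Finset.mem_range.2 hi, he⟩)
      refine ⟨fun i => if i = m then x else c i, ?_, ?_⟩
      · intro i hi
        by_cases him : i = m
        · subst him; simpa using hx1
        · simp only [him, if_false]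
          exact hc1 i (by omega)
      · intro i j hi hj he
        by_cases him : i = m
        · by_cases hjm : j = m
          · rw [him, hjm]
          · simp only [him, hjm, if_false, if_true] at he
            exact absurd he.symm (hx3 j (by omega))
        · by_cases hjm : j = m
          · simp only [him, hjm, if_false, if_true] at he
            exact absurd he (hx3 i (by omega))
          · simp only [him, hjm, if_false] at he
            exact hc2 i j (by omega) (by omega) he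
  exact key n le_rfl

end Pool.Agent.PEmb

end

section

/-!
# E19: assembly of the pattern from cycles and legs
-/

set_option autoImplicit false

namespace Pool.Agent.PEmb

namespace IE19

variable {V : Type}

lemma getD_mem {l : List V} {n : ℕ} {v : V} (h : n < l.length) : l.getD n v ∈ l := by
  rw [List.getD_eq_getElem _ _ h]
  exact List.getElem_mem h

lemma getD_inj {l : List V} {n m : ℕ} {v : V} (hl : l.Nodup) (hn : n < l.length)
    (hm : m < l.length) (h : l.getD n v = l.getD m v) : n = m := by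
  rw [List.getD_eq_getElem _ _ hn, List.getD_eq_getElem _ _ hm] at h
  exact (List.Nodup.getElem_inj_iff hl).1 h

lemma getD_adj {G : SimpleGraph V} {l : List V} {n : ℕ} {v : V} (hl : l.IsChain G.Adj)
    (h : n + 1 < l.length) : G.Adj (l.getD n v) (l.getD (n + 1) v) := by
  rw [List.getD_eq_getElem _ _ (by omega), List.getD_eq_getElem _ _ h]
  exact (List.isChain_iff_getElem.1 hl) n h

lemma getD_head {l : List V} {a v : V} (h : l.head? = some a) : l.getD 0 v = a := by
  cases l with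
  | nil => simp at h
  | cons x t => simpa using h

lemma getD_last {l : List V} {a v : V} (h : l.getLast? = some a) :
    l.getD (l.length - 1) v = a := by
  have hne : l ≠ [] := by
    rintro rfl
    simp at h
  have hlen : 0 < l.length := List.length_pos_of_ne_nil hne
  rw [List.getD_eq_getElem _ _ (by omega)]
  rw [List.getLast?_eq_getElem?] at h
  rw [List.getElem?_eq_getElem (by omega)] at h
  exact Option.some.inj h

end IE19

open IE19 in
theorem E19 : PE19 := by
  classical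
  intro V hV G k Z Λ rt h1 h2 h3 h4 h5 h6 h7 h8 h9
  obtain ⟨v0⟩ := hV
  have hr : ∀ i j d, ∃ n, (i < k → j < k → d < 4 → n < (Z i j).length ∧
      (Z i j).getD n v0 = rt i j d) := by
    intro i j d
    by_cases h : i < k ∧ j < k ∧ d < 4
    · obtain ⟨n, hn, he⟩ := List.getElem_of_mem (h4 i j d h.1 h.2.1 h.2.2)
      exact ⟨n, fun _ _ _ => ⟨hn, by rw [List.getD_eq_getElem _ _ hn, he]⟩⟩
    · exact ⟨0, fun a b c => absurd ⟨a, b, c⟩ h⟩
  choose r hr using hr
  have hroi : ∀ o, ro o < 4 ∧ ri o < 4 := by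
    intro o; cases o <;> simp [ro, ri]
  have hex : ∀ o i j, Ex k o i j → i < k ∧ j < k := by
    intro o i j h
    cases o <;> simp only [Ex, nx] at h <;> omega
  have hlen : ∀ o i j, Ex k o i j → 3 ≤ (Λ o i j).length := by
    intro o i j h
    have := h7 o i j i j h (hex o i j h).1 (hex o i j h).2
    omega
  -- start and end of a leg
  have hst : ∀ o i j, Ex k o i j → (Λ o i j).getD 0 v0 = rt i j (ro o) :=
    fun o i j h => getD_head (h6 o i j h).2.2.1
  have hen : ∀ o i j, Ex k o i j → (Λ o i j).getD ((Λ o i j).length - 1) v0 =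
      rt (nx o i j).1 (nx o i j).2 (ri o) :=
    fun o i j h => getD_last (h6 o i j h).2.2.2.1
  have hnd : ∀ o i j, Ex k o i j → (Λ o i j).Nodup := fun o i j h => (h6 o i j h).2.1
  -- internal vertices are not on cycles
  have hint : ∀ o i j s, Ex k o i j → 1 ≤ s → s < (Λ o i j).length - 1 → ∀ i' j', i' < k →
      j' < k → (Λ o i j).getD s v0 ∉ Z i' j' := by
    intro o i j s h hs1 hs2 i' j' hi' hj' hm
    have hl := hlen o i j h
    rcases h8 o i j i' j' h hi' hj' _ (getD_mem (by omega)) hm with he | he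
    · rw [← hst o i j h] at he
      have := getD_inj (hnd o i j h) (by omega) (by omega) he
      omega
    · rw [← hen o i j h] at he
      have := getD_inj (hnd o i j h) (by omega) (by omega) he
      omega
  refine ⟨⟨fun i j => (Z i j).length, r, fun o i j => (Λ o i j).length - 1⟩, ?_, ?_⟩
  · refine ⟨fun i j hi hj => (h1 i j hi hj).2, h2, fun i j d hi hj hd => (hr i j d hi hj hd).1,
      ?_, ?_⟩
    · intro i j d d' hi hj hd hd' he
      apply h5 i j d d' hi hj hd hd'
      rw [← (hr i j d hi hj hd).2, ← (hr i j d' hi hj hd').2]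
      have he' : r i j d = r i j d' := he
      rw [he']
    · intro o i j i' j' h hi' hj'
      have := h7 o i j i' j' h hi' hj'
      show 2 * (Z i' j').length + 2 ≤ (Λ o i j).length - 1
      omega
  · refine ⟨fun x => match x with
      | .core i j s => (Z i j).getD s v0
      | .leg o i j s => (Λ o i j).getD s v0, ?_, ?_⟩
    · intro x y hx hy he
      cases x with
      | core i j s =>
        obtain ⟨hi, hj, hs⟩ := hx
        have hs : s < (Z i j).length := hs
        cases y with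
        | core i' j' s' =>
          obtain ⟨hi', hj', hs'⟩ := hy
          have hs' : s' < (Z i' j').length := hs'
          have he : (Z i j).getD s v0 = (Z i' j').getD s' v0 := he
          by_cases hij : (i, j) = (i', j')
          · obtain ⟨rfl, rfl⟩ := Prod.mk.inj hij
            rw [getD_inj (h1 i j hi hj).1.2.1 hs hs' he]
          · exfalso
            have hm : (Z i j).getD s v0 ∈ Z i' j' := by
              rw [he]; exact getD_mem hs'
            exact h3 i j i' j' hi hj hi' hj' hij (getD_mem hs) hm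
        | leg o i' j' s' =>
          exfalso
          obtain ⟨hE, hs1, hs2⟩ := hy
          have he : (Z i j).getD s v0 = (Λ o i' j').getD s' v0 := he
          apply hint o i' j' s' hE hs1 hs2 i j hi hj
          rw [← he]
          exact getD_mem hs
      | leg o i j s =>
        obtain ⟨hE, hs1, hs2⟩ := hx
        cases y with
        | core i' j' s' =>
          exfalso
          obtain ⟨hi', hj', hs'⟩ := hy
          have hs' : s' < (Z i' j').length := hs'
          have he : (Λ o i j).getD s v0 = (Z i' j').getD s' v0 := he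
          apply hint o i j s hE hs1 hs2 i' j' hi' hj'
          rw [he]
          exact getD_mem hs'
        | leg o' i' j' s' =>
          obtain ⟨hE', hs1', hs2'⟩ := hy
          have hs2 : s < (Λ o i j).length - 1 := hs2
          have hs2' : s' < (Λ o' i' j').length - 1 := hs2'
          have he : (Λ o i j).getD s v0 = (Λ o' i' j').getD s' v0 := he
          by_cases hoij : (o, i, j) = (o', i', j')
          · obtain ⟨rfl, h⟩ := Prod.mk.inj hoij
            obtain ⟨rfl, rfl⟩ := Prod.mk.inj h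
            rw [getD_inj (hnd o i j hE) (by omega) (by omega) he]
          · exfalso
            apply h9 o i j o' i' j' hE hE' hoij _ (getD_mem (v := v0) (n := s) (by omega))
            rw [he]
            exact getD_mem (by omega)
    · intro x y hxy
      cases hxy with
      | cyc i j s hi hj hs =>
        exact getD_adj (h1 i j hi hj).1.1 hs
      | close i j hi hj =>
        obtain ⟨⟨hc1, hc2, hc3, hc4⟩, -⟩ := h1 i j hi hj
        show G.Adj ((Z i j).getD ((Z i j).length - 1) v0) ((Z i j).getD 0 v0)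
        have hne : Z i j ≠ [] := by
          intro h0
          rw [h0] at hc3
          simp at hc3
        have ha : (Z i j).head? = some ((Z i j).head hne) := List.head?_eq_some_head hne
        have hb : (Z i j).getLast? = some ((Z i j).getLast hne) := List.getLast?_eq_some_getLast hne
        rw [getD_head ha, getD_last hb]
        exact hc4 _ _ ha hb
      | out o i j h =>
        show G.Adj ((Z i j).getD (r i j (ro o)) v0) ((Λ o i j).getD 1 v0)
        rw [(hr i j (ro o) (hex o i j h).1 (hex o i j h).2 (hroi o).1).2, ← hst o i j h]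
        exact getD_adj (h6 o i j h).1 (by have := hlen o i j h; omega)
      | step o i j s h hs hl =>
        have hl : s + 1 < (Λ o i j).length - 1 := hl
        exact getD_adj (h6 o i j h).1 (by omega)
      | inn o i j h =>
        show G.Adj ((Λ o i j).getD ((Λ o i j).length - 1 - 1) v0)
          ((Z (nx o i j).1 (nx o i j).2).getD (r (nx o i j).1 (nx o i j).2 (ri o)) v0)
        rw [(hr _ _ (ri o) h.1 h.2 (hroi o).2).2, ← hen o i j h]
        have hl := hlen o i j h
        have := getD_adj (v := v0) (n := (Λ o i j).length - 1 - 1) (h6 o i j h).1 (by omega)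
        rwa [show (Λ o i j).length - 1 - 1 + 1 = (Λ o i j).length - 1 by omega] at this

end Pool.Agent.PEmb

end
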