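import Pool.Agent.Work.MP_cfa43e_lc.Stmts

/-! Bundle of small proof modules (one section per former module). -/

section

/-!
# MP_cfa43e_lc, item E21: rotation of a grid model
-/

set_option autoImplicit false

namespace Pool.Agent.PEmb

theorem E21 : PE21 := by
  intro V G K B h
  refine ⟨?_, ?_, ?_, ?_⟩
  · intro x y hx hy
    exact h.conn _ _ (by omega) (by omega)
  · intro x y x' y' hx hy hx' hy' hne
    refine h.disj _ _ _ _ (by omega) (by omega) (by omega) (by omega) ?_
    intro he
    rw [Prod.mk.injEq] at he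
    apply hne
    rw [Prod.mk.injEq]
    omega
  · intro x y hx hy
    obtain ⟨a, ha, b, hb, hab⟩ := h.hor (K - 1 - (x + 1)) (K - 1 - y) (by omega) (by omega)
    have e : K - 1 - (x + 1) + 1 = K - 1 - x := by omega
    rw [e] at hb
    exact ⟨b, hb, a, ha, hab.symm⟩
  · intro x y hx hy
    obtain ⟨a, ha, b, hb, hab⟩ := h.ver (K - 1 - x) (K - 1 - (y + 1)) (by omega) (by omega)
    have e : K - 1 - (y + 1) + 1 = K - 1 - y := by omega
    rw [e] at hb
    exact ⟨b, hb, a, ha, hab.symm⟩

end Pool.Agent.PEmb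

end

section

/-!
# E22: blocks in a large grid model
-/

set_option autoImplicit false

namespace Pool.Agent.PEmb

namespace ItE22

lemma rg_eq {V : Type} (B : ℕ → ℕ → Set V) (L : ℕ) (X Y : ℕ → ℕ) (d : ℕ) :
    (⋃ x ∈ Set.Iic L, (fun x => B (X d + x) (Y d) ∪ B (X d + x) (Y d + 1)) x) =
      Rg B (Rc L X Y d) := by
  ext v
  simp only [Set.mem_iUnion, Set.mem_Iic, Set.mem_union, Rg, Rc, Set.mem_ofPred_eq]
  constructor
  · rintro ⟨x, hx, h | h⟩
    · exact ⟨(X d + x, Y d), ⟨by simp, by simpa using hx, Or.inl rfl⟩, h⟩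
    · exact ⟨(X d + x, Y d + 1), ⟨by simp, by simpa using hx, Or.inr rfl⟩, h⟩
  · rintro ⟨⟨x, y⟩, ⟨h1, h2, h3⟩, h4⟩
    simp only at h1 h2 h3 h4
    refine ⟨x - X d, by omega, ?_⟩
    have e : X d + (x - X d) = x := by omega
    rw [e]
    rcases h3 with h3 | h3
    · rw [h3] at h4
      exact Or.inl h4
    · rw [h3] at h4
      exact Or.inr h4

/-- the block `d'` in the rotated model is the block `d` -/
lemma rg_rot {V : Type} (B : ℕ → ℕ → Set V) (K L : ℕ) (X Y X' Y' : ℕ → ℕ) (d d' : ℕ)
    (hX : X' d' + X d + L + 1 = K) (hY : Y' d' + Y d + 2 = K) :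
    Rg (fun x y => B (K - 1 - x) (K - 1 - y)) (Rc L X' Y' d') = Rg B (Rc L X Y d) := by
  ext v
  simp only [Set.mem_iUnion, Rg, Rc, Set.mem_ofPred_eq]
  constructor
  · rintro ⟨⟨x, y⟩, ⟨h1, h2, h3⟩, h4⟩
    simp only at h1 h2 h3 h4
    refine ⟨(K - 1 - x, K - 1 - y), ⟨?_, ?_, ?_⟩, h4⟩
    · simp only; omega
    · simp only; omega
    · simp only; omega
  · rintro ⟨⟨x, y⟩, ⟨h1, h2, h3⟩, h4⟩
    simp only at h1 h2 h3 h4
    refine ⟨(K - 1 - x, K - 1 - y), ⟨?_, ?_, ?_⟩, ?_⟩
    · simp only; omega
    · simp only; omega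
    · simp only; omega
    · simp only
      have e1 : K - 1 - (K - 1 - x) = x := by omega
      have e2 : K - 1 - (K - 1 - y) = y := by omega
      rw [e1, e2]
      exact h4

end ItE22

open ItE22 in
theorem E22 (h3 : PE3) (h7 : PE7) (h8 : PE8) (h9 : PE9) (h21 : PE21) : PE22 := by
  intro k
  obtain ⟨m, hm⟩ : ∃ m, m = 3 * (k * k) := ⟨_, rfl⟩
  obtain ⟨h, hh⟩ : ∃ h, h = 4 * ((k * k) ^ 2 + 3) := ⟨_, rfl⟩
  obtain ⟨L, hL⟩ : ∃ L, L = 2 * h + 1 := ⟨_, rfl⟩
  obtain ⟨S, hS⟩ : ∃ S, S = L + 10 := ⟨_, rfl⟩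
  obtain ⟨M, hM⟩ : ∃ M, M = (m + 1) ^ 2 + 1 := ⟨_, rfl⟩
  obtain ⟨K, hK⟩ : ∃ K, K = S * (M - 1) + L + 11 := ⟨_, rfl⟩
  refine ⟨K, ?_⟩
  intro V G B hG
  have hV : Nonempty V := by
    have h1 := hG.conn 0 0 (by omega) (by omega)
    obtain ⟨v⟩ := h1.nonempty
    exact ⟨v.1⟩
  obtain ⟨X, hX⟩ : ∃ X : ℕ → ℕ, X = fun d => S * d + 5 := ⟨_, rfl⟩
  obtain ⟨Y, hY⟩ : ∃ Y : ℕ → ℕ, Y = fun d => S * d + 5 + h := ⟨_, rfl⟩
  have hXd : ∀ d, X d = S * d + 5 := fun d => by rw [hX]
  have hYd : ∀ d, Y d = S * d + 5 + h := fun d => by rw [hY]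
  have hSd : ∀ d, d < M → S * d ≤ S * (M - 1) := fun d hd =>
    Nat.mul_le_mul_left S (by omega)
  have hblock : ∀ d, d < M → ∃ (e : ℕ → V) (μ : ℕ), Cap G (Rg B (Rc L X Y d)) e (k * k) μ ∧
      e 0 ∈ B (X d + L + 1) (Y d + 1) ∧ e 1 ∈ B (X d - 1) (Y d) ∧
      e 2 ∈ B (X d - 1) (Y d + 1) ∧ e 3 ∈ B (X d + L + 1) (Y d) := by
    intro d hd
    have h1 := hSd d hd
    have hx := hXd d
    have hy := hYd d
    obtain ⟨c, e, hlad, he2, he1, he0, he3⟩ := h3 G K B hG (X d) (Y d) L (by omega) (by omega)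
      (by omega)
    obtain ⟨μ, hμ⟩ := h7 G (k * k) L _ c e hlad (by omega)
    rw [rg_eq B L X Y d] at hμ
    exact ⟨e, μ, hμ, he0, he1, he2, he3⟩
  choose! e μ hcap he0 he1 he2 he3 using hblock
  obtain ⟨φ, hφ1, hφ2, hφ3⟩ := h9 m M μ (by omega)
  have hSlt : ∀ a b, a < b → S * a + S ≤ S * b := by
    intro a b hab
    have h1 : S * (a + 1) ≤ S * b := Nat.mul_le_mul_left S hab
    have h2 : S * (a + 1) = S * a + S := by ring
    omega
  rcases hφ3 with hmono | hanti
  · refine ⟨B, L, fun a => X (φ a), fun a => Y (φ a), fun a => e (φ a), fun a => μ (φ a), ?_⟩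
    have hmM := hφ2 m le_rfl
    have hmS := hSd _ hmM
    constructor
    · exact hG
    · rw [Pos]
      rw [← hm]
      refine ⟨?_, ?_, ?_⟩
      · have := hXd (φ 0); omega
      · have := hYd (φ 0); omega
      · intro a b hab hb
        have h1 := hSlt _ _ (hφ1 a b hab hb)
        have h2 := hXd (φ a)
        have h3 := hXd (φ b)
        have h4 := hYd (φ a)
        have h5 := hYd (φ b)
        omega
    · rw [← hm]; have := hXd (φ m); omega
    · rw [← hm]; have := hYd (φ m); omega
    · intro d hd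
      exact hcap (φ d) (hφ2 d (by omega))
    · intro d hd
      exact he0 (φ d) (hφ2 d (by omega))
    · intro d hd
      exact he1 (φ d) (hφ2 d (by omega))
    · intro d hd
      exact he2 (φ d) (hφ2 d (by omega))
    · intro d hd
      exact he3 (φ d) (hφ2 d (by omega))
    · intro a b hab hb
      exact hmono a b hab (by omega)
  · -- the rotated model
    have hG' := h21 G K B hG
    have hrot : ∀ a, a ≤ m → S * (M - 1 - φ (m - a)) + S * φ (m - a) = S * (M - 1) := by
      intro a ha
      have h1 := hφ2 (m - a) (by omega)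
      rw [← Nat.mul_add]
      congr 1
      omega
    have hXX : ∀ a, a ≤ m → X (M - 1 - φ (m - a)) + X (φ (m - a)) + L + 1 = K := by
      intro a ha
      have h1 := hrot a ha
      rw [hXd, hXd]
      omega
    have hYY : ∀ a, a ≤ m → Y (M - 1 - φ (m - a)) + Y (φ (m - a)) + 2 = K := by
      intro a ha
      have h1 := hrot a ha
      rw [hYd, hYd]
      omega
    have hX1 : ∀ d, 5 ≤ X d := fun d => by rw [hXd]; omega
    have hY1 : ∀ d, 5 ≤ Y d := fun d => by rw [hYd]; omega
    refine ⟨fun x y => B (K - 1 - x) (K - 1 - y), L, fun a => X (M - 1 - φ (m - a)),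
      fun a => Y (M - 1 - φ (m - a)),
      fun a => (fun d => if d = 0 then e (φ (m - a)) 1 else if d = 1 then e (φ (m - a)) 0
        else if d = 2 then e (φ (m - a)) 3 else e (φ (m - a)) 2),
      fun a => μ (φ (m - a)), ?_⟩
    constructor
    · exact hG'
    · rw [Pos, ← hm]
      refine ⟨?_, ?_, ?_⟩
      · have := hX1 (M - 1 - φ (m - 0)); omega
      · have := hY1 (M - 1 - φ (m - 0)); omega
      · intro a b hab hb
        have h1 := hφ1 (m - b) (m - a) (by omega) (by omega)
        have h2 := hφ2 (m - a) (by omega)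
        have h3 := hφ2 (m - b) (by omega)
        have h4 := hSlt (M - 1 - φ (m - a)) (M - 1 - φ (m - b)) (by omega)
        rw [hXd, hXd, hYd, hYd]
        omega
    · rw [← hm]
      have h1 := hXX m le_rfl
      have h2 := hX1 (φ (m - m))
      have h3 := hSd (M - 1 - φ (m - m)) (by omega)
      rw [hXd]
      omega
    · rw [← hm]
      have h3 := hSd (M - 1 - φ (m - m)) (by omega)
      rw [hYd]
      omega
    · intro d hd
      rw [← hm] at hd
      have h1 := h8 G _ _ _ _ (hcap (φ (m - d)) (hφ2 (m - d) (by omega)))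
      rw [← rg_rot B K L X Y (fun a => X (M - 1 - φ (m - a))) (fun a => Y (M - 1 - φ (m - a)))
        (φ (m - d)) d (hXX d hd) (hYY d hd)] at h1
      exact h1
    · intro d hd
      rw [← hm] at hd
      have h1 := he1 (φ (m - d)) (hφ2 (m - d) (by omega))
      have h2 := hXX d hd
      have h3 := hYY d hd
      have h4 := hX1 (φ (m - d))
      simp only [if_true]
      have e1 : K - 1 - (X (M - 1 - φ (m - d)) + L + 1) = X (φ (m - d)) - 1 := by omega
      have e2 : K - 1 - (Y (M - 1 - φ (m - d)) + 1) = Y (φ (m - d)) := by omega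
      rw [e1, e2]
      exact h1
    · intro d hd
      rw [← hm] at hd
      have h1 := he0 (φ (m - d)) (hφ2 (m - d) (by omega))
      have h2 := hXX d hd
      have h3 := hYY d hd
      have h4 := hX1 (M - 1 - φ (m - d))
      simp only [one_ne_zero, if_false, if_true]
      have e1 : K - 1 - (X (M - 1 - φ (m - d)) - 1) = X (φ (m - d)) + L + 1 := by omega
      have e2 : K - 1 - (Y (M - 1 - φ (m - d))) = Y (φ (m - d)) + 1 := by omega
      rw [e1, e2]
      exact h1
    · intro d hd
      rw [← hm] at hd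
      have h1 := he3 (φ (m - d)) (hφ2 (m - d) (by omega))
      have h2 := hXX d hd
      have h3 := hYY d hd
      have h4 := hX1 (M - 1 - φ (m - d))
      simp only [OfNat.ofNat_ne_zero, OfNat.ofNat_ne_one, if_false, if_true]
      have e1 : K - 1 - (X (M - 1 - φ (m - d)) - 1) = X (φ (m - d)) + L + 1 := by omega
      have e2 : K - 1 - (Y (M - 1 - φ (m - d)) + 1) = Y (φ (m - d)) := by omega
      rw [e1, e2]
      exact h1
    · intro d hd
      rw [← hm] at hd
      have h1 := he2 (φ (m - d)) (hφ2 (m - d) (by omega))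
      have h2 := hXX d hd
      have h3 := hYY d hd
      have h4 := hX1 (φ (m - d))
      have h32 : (3 : ℕ) ≠ 2 := by norm_num
      simp only [OfNat.ofNat_ne_zero, OfNat.ofNat_ne_one, h32, if_false]
      have e1 : K - 1 - (X (M - 1 - φ (m - d)) + L + 1) = X (φ (m - d)) - 1 := by omega
      have e2 : K - 1 - (Y (M - 1 - φ (m - d))) = Y (φ (m - d)) + 1 := by omega
      rw [e1, e2]
      exact h1
    · intro a b hab hb
      rw [← hm] at hb
      exact hanti (m - b) (m - a) (by omega) (by omega)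

end Pool.Agent.PEmb

end

section

/-!
# E3: ladders in a grid model (from E1 and E2)
-/

set_option autoImplicit false

namespace Pool.Agent.PEmb

namespace IE3

variable {V : Type}

theorem col (h1 : PE1) (h2 : PE2) (G : SimpleGraph V) (S1 S2 : Set V)
    (hc1 : (G.induce S1).Connected) (hc2 : (G.induce S2).Connected) (hd : Disjoint S1 S2)
    (he : ∃ a ∈ S2, ∃ b ∈ S1, G.Adj a b) (u v u' v' : V) (hu : u ∈ S1) (hv : v ∈ S1)
    (hu' : u' ∈ S2) (hv' : v' ∈ S2) :
    ∃ c : Col V, c.P.head? = some u ∧ c.P.getLast? = some v ∧ c.Q.head? = some u' ∧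
      c.Q.getLast? = some v' ∧ c.P.IsChain G.Adj ∧ c.Q.IsChain G.Adj ∧
      (c.a :: c.rh ++ [c.b]).IsChain G.Adj ∧ (c.P ++ c.Q ++ c.rh).Nodup ∧
      ∀ w ∈ c.P ++ c.Q ++ c.rh, w ∈ S2 ∪ S1 := by
  obtain ⟨p, hp1, hp2, hp3, hp4, hp5⟩ := h1 G S1 hc1 u hu v hv
  obtain ⟨q, hq1, hq2, hq3, hq4, hq5⟩ := h1 G S2 hc2 u' hu' v' hv'
  have hcc : (G.induce (S2 ∪ S1)).Connected := by
    obtain ⟨a, ha, b, hb, hab⟩ := he
    exact SimpleGraph.connected_induce_union hc2.preconnected hc1.preconnected ha hb hab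
  have hpd : Disjoint {w | w ∈ p} {w | w ∈ q} :=
    Set.disjoint_of_subset (fun w hw => hp5 w hw) (fun w hw => hq5 w hw) hd
  have hup : u ∈ p := List.mem_of_mem_head? hp3
  have huq : u' ∈ q := List.mem_of_mem_head? hq3
  obtain ⟨a, ha, b, hb, rh, ⟨hr1, hr2, -, -, hr5⟩, hr6⟩ := h2 G (S2 ∪ S1) {w | w ∈ p} {w | w ∈ q}
    hcc (fun w hw => Or.inr (hp5 w hw)) (fun w hw => Or.inl (hq5 w hw)) ⟨u, hup⟩ ⟨u', huq⟩ hpd
  obtain ⟨pm, pp, rfl⟩ := List.append_of_mem ha
  obtain ⟨qm, qp, rfl⟩ := List.append_of_mem hb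
  refine ⟨⟨pm, a, pp, qm, b, qp, rh⟩, hp3, hp4, hq3, hq4, hp1, hq1, hr1, ?_, ?_⟩
  · show ((pm ++ a :: pp) ++ (qm ++ b :: qp) ++ rh).Nodup
    rw [List.nodup_append, List.nodup_append]
    refine ⟨⟨hp2, hq2, ?_⟩, ?_, ?_⟩
    · intro x hx y hy hxy
      subst hxy
      exact Set.disjoint_left.1 hpd hx hy
    · have : (a :: rh ++ [b]) = a :: (rh ++ [b]) := rfl
      rw [this, List.nodup_cons, List.nodup_append] at hr2
      exact hr2.2.1
    · intro x hx y hy hxy
      subst hxy
      have := hr6 x hy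
      rw [List.mem_append] at hx
      rcases hx with hx | hx
      · exact this.1 hx
      · exact this.2 hx
  · intro w hw
    rw [List.mem_append, List.mem_append] at hw
    rcases hw with (hw | hw) | hw
    · exact Or.inr (hp5 w hw)
    · exact Or.inl (hq5 w hw)
    · exact hr5 w (by simp [hw])

end IE3

theorem E3 (h1 : PE1) (h2 : PE2) : PE3 := by
  intro V G K B hG X Y L hX hXL hY
  obtain ⟨X', rfl⟩ : ∃ X', X = X' + 1 := ⟨X - 1, by omega⟩
  have hne : Nonempty V := by
    obtain ⟨a, -⟩ := (hG.hor 0 0 (by omega) (by omega))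
    exact ⟨a⟩
  have hhor := hG.hor
  choose! ga hga gb hgb hadj using hhor
  have hcol : ∀ x, ∃ c : Col V, x ≤ L → c.P.head? = some (gb (X' + x) (Y + 1)) ∧
      c.P.getLast? = some (ga (X' + x + 1) (Y + 1)) ∧ c.Q.head? = some (gb (X' + x) Y) ∧
      c.Q.getLast? = some (ga (X' + x + 1) Y) ∧ c.P.IsChain G.Adj ∧ c.Q.IsChain G.Adj ∧
      (c.a :: c.rh ++ [c.b]).IsChain G.Adj ∧ (c.P ++ c.Q ++ c.rh).Nodup ∧
      ∀ w ∈ c.P ++ c.Q ++ c.rh, w ∈ B (X' + x + 1) Y ∪ B (X' + x + 1) (Y + 1) := by
    intro x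
    by_cases hx : x ≤ L
    · obtain ⟨c, hc⟩ := IE3.col h1 h2 G (B (X' + x + 1) (Y + 1)) (B (X' + x + 1) Y)
        (hG.conn _ _ (by omega) (by omega)) (hG.conn _ _ (by omega) (by omega))
        (hG.disj _ _ _ _ (by omega) (by omega) (by omega) (by omega) (by simp))
        (hG.ver _ _ (by omega) (by omega)) (gb (X' + x) (Y + 1)) (ga (X' + x + 1) (Y + 1))
        (gb (X' + x) Y) (ga (X' + x + 1) Y) (hgb _ _ (by omega) (by omega))
        (hga _ _ (by omega) (by omega)) (hgb _ _ (by omega) (by omega))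
        (hga _ _ (by omega) (by omega))
      exact ⟨c, fun _ => hc⟩
    · exact ⟨⟨[], hne.some, [], [], hne.some, [], []⟩, fun h => absurd h hx⟩
  choose c hc using hcol
  have hB : ∀ x, (B (X' + 1 + x) Y ∪ B (X' + 1 + x) (Y + 1)) =
      (B (X' + x + 1) Y ∪ B (X' + x + 1) (Y + 1)) := by
    intro x
    have : X' + 1 + x = X' + x + 1 := by omega
    rw [this]
  refine ⟨c, fun d => if d = 0 then gb (X' + L + 1) (Y + 1) else if d = 1 then ga X' Y else
    if d = 2 then ga X' (Y + 1) else gb (X' + L + 1) Y, ?_, ?_, ?_, ?_, ?_⟩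
  · refine ⟨?_, ?_, ?_, ?_, ?_, ?_, ?_, ?_, ?_, ?_, ?_, ?_, ?_, ?_⟩
    · intro x x' hx hx' hxx
      rw [Set.disjoint_union_left, Set.disjoint_union_right, Set.disjoint_union_right]
      refine ⟨⟨?_, ?_⟩, ?_, ?_⟩ <;>
        exact hG.disj _ _ _ _ (by omega) (by omega) (by omega) (by omega)
          (by rw [Ne, Prod.mk.injEq]; omega)
    · intro x hx v hv
      rw [hB]
      exact (hc x hx).2.2.2.2.2.2.2.2 v hv
    · exact fun x hx => (hc x hx).2.2.2.2.2.2.2.1
    · exact fun x hx => (hc x hx).2.2.2.2.1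
    · exact fun x hx => (hc x hx).2.2.2.2.2.1
    · exact fun x hx => (hc x hx).2.2.2.2.2.2.1
    · intro x hx u hu v hv
      rw [(hc x (by omega)).2.1, Option.mem_def, Option.some.injEq] at hu
      rw [(hc (x + 1) (by omega)).1, Option.mem_def, Option.some.injEq] at hv
      subst hu
      subst hv
      exact hadj _ _ (by omega) (by omega)
    · intro x hx u hu v hv
      rw [(hc x (by omega)).2.2.2.1, Option.mem_def, Option.some.injEq] at hu
      rw [(hc (x + 1) (by omega)).2.2.1, Option.mem_def, Option.some.injEq] at hv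
      subst hu
      subst hv
      exact hadj _ _ (by omega) (by omega)
    · intro v hv
      rw [(hc 0 (by omega)).1, Option.mem_def, Option.some.injEq] at hv
      subst hv
      exact hadj _ _ (by omega) (by omega)
    · intro v hv
      rw [(hc 0 (by omega)).2.2.1, Option.mem_def, Option.some.injEq] at hv
      subst hv
      exact hadj _ _ (by omega) (by omega)
    · intro v hv
      rw [(hc L (by omega)).2.1, Option.mem_def, Option.some.injEq] at hv
      subst hv
      exact hadj _ _ (by omega) (by omega)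
    · intro v hv
      rw [(hc L (by omega)).2.2.2.1, Option.mem_def, Option.some.injEq] at hv
      subst hv
      exact hadj _ _ (by omega) (by omega)
    · intro d hd x hx hmem
      have key : ∀ (p q : ℕ) (w : V), p < K → q < K → w ∈ B p q → (p = X' ∨ p = X' + L + 2) →
          w ∈ B (X' + 1 + x) Y ∪ B (X' + 1 + x) (Y + 1) → False := by
        intro p q w hp hq hw hpp h
        rcases h with h | h
        · exact Set.disjoint_left.1 (hG.disj p q (X' + 1 + x) Y hp hq (by omega) (by omega)
            (by rw [Ne, Prod.mk.injEq]; omega)) hw h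
        · exact Set.disjoint_left.1 (hG.disj p q (X' + 1 + x) (Y + 1) hp hq (by omega) (by omega)
            (by rw [Ne, Prod.mk.injEq]; omega)) hw h
      split_ifs at hmem
      · exact key _ _ _ (by omega) (by omega) (hgb _ _ (by omega) (by omega)) (by omega) hmem
      · exact key _ _ _ (by omega) (by omega) (hga _ _ (by omega) (by omega)) (by omega) hmem
      · exact key _ _ _ (by omega) (by omega) (hga _ _ (by omega) (by omega)) (by omega) hmem
      · exact key _ _ _ (by omega) (by omega) (hgb _ _ (by omega) (by omega)) (by omega) hmem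
    · intro d d' hd hd' hdd
      have key : ∀ (p q p' q' : ℕ) (w w' : V), p < K → q < K → p' < K → q' < K → w ∈ B p q →
          w' ∈ B p' q' → w = w' → p = p' ∧ q = q' := by
        intro p q p' q' w w' hp hq hp' hq' hw hw' h
        by_contra hne
        rw [h] at hw
        exact Set.disjoint_left.1 (hG.disj p q p' q' hp hq hp' hq'
          (by rw [Ne, Prod.mk.injEq]; exact hne)) hw hw'
      have m0 : gb (X' + L + 1) (Y + 1) ∈ B (X' + L + 2) (Y + 1) := hgb _ _ (by omega) (by omega)
      have m1 : ga X' Y ∈ B X' Y := hga _ _ (by omega) (by omega)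
      have m2 : ga X' (Y + 1) ∈ B X' (Y + 1) := hga _ _ (by omega) (by omega)
      have m3 : gb (X' + L + 1) Y ∈ B (X' + L + 2) Y := hgb _ _ (by omega) (by omega)
      interval_cases d <;> interval_cases d' <;> simp at hdd <;> first
        | rfl
        | (have := key _ _ _ _ _ _ (by omega) (by omega) (by omega) (by omega) m0 m1 hdd; omega)
        | (have := key _ _ _ _ _ _ (by omega) (by omega) (by omega) (by omega) m0 m2 hdd; omega)
        | (have := key _ _ _ _ _ _ (by omega) (by omega) (by omega) (by omega) m0 m3 hdd; omega)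
        | (have := key _ _ _ _ _ _ (by omega) (by omega) (by omega) (by omega) m1 m0 hdd; omega)
        | (have := key _ _ _ _ _ _ (by omega) (by omega) (by omega) (by omega) m1 m2 hdd; omega)
        | (have := key _ _ _ _ _ _ (by omega) (by omega) (by omega) (by omega) m1 m3 hdd; omega)
        | (have := key _ _ _ _ _ _ (by omega) (by omega) (by omega) (by omega) m2 m0 hdd; omega)
        | (have := key _ _ _ _ _ _ (by omega) (by omega) (by omega) (by omega) m2 m1 hdd; omega)
        | (have := key _ _ _ _ _ _ (by omega) (by omega) (by omega) (by omega) m2 m3 hdd; omega)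
        | (have := key _ _ _ _ _ _ (by omega) (by omega) (by omega) (by omega) m3 m0 hdd; omega)
        | (have := key _ _ _ _ _ _ (by omega) (by omega) (by omega) (by omega) m3 m1 hdd; omega)
        | (have := key _ _ _ _ _ _ (by omega) (by omega) (by omega) (by omega) m3 m2 hdd; omega)
  · show ga X' (Y + 1) ∈ B (X' + 1 - 1) (Y + 1)
    rw [Nat.add_sub_cancel]
    exact hga _ _ (by omega) (by omega)
  · show ga X' Y ∈ B (X' + 1 - 1) Y
    rw [Nat.add_sub_cancel]
    exact hga _ _ (by omega) (by omega)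
  · show gb (X' + L + 1) (Y + 1) ∈ B (X' + 1 + L + 1) (Y + 1)
    have : X' + 1 + L + 1 = X' + L + 1 + 1 := by omega
    rw [this]
    exact hgb _ _ (by omega) (by omega)
  · show gb (X' + L + 1) Y ∈ B (X' + 1 + L + 1) Y
    have : X' + 1 + L + 1 = X' + L + 1 + 1 := by omega
    rw [this]
    exact hgb _ _ (by omega) (by omega)

end Pool.Agent.PEmb

end

section

/-!
# E5: the cycle between two rungs of a ladder, and four disjoint paths to the ends
-/

set_option autoImplicit false

namespace Pool.Agent.PEmb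

namespace IE5

variable {V : Type}

/-- concatenation of the lists `f x, ..., f (x + n - 1)` -/
def cat (f : ℕ → List V) : ℕ → ℕ → List V
  | _, 0 => []
  | x, n + 1 => f x ++ cat f (x + 1) n

lemma cat_add (f : ℕ → List V) (n m : ℕ) : ∀ x, cat f x (n + m) = cat f x n ++ cat f (x + n) m := by
  induction n with
  | zero => intro x; simp [cat]
  | succ n ih =>
    intro x
    rw [show n + 1 + m = (n + m) + 1 by omega]
    simp only [cat, List.append_assoc]
    rw [ih (x + 1), show x + 1 + n = x + (n + 1) by omega]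

lemma mem_cat {f : ℕ → List V} {v : V} : ∀ {n x : ℕ}, v ∈ cat f x n ↔
    ∃ i, x ≤ i ∧ i < x + n ∧ v ∈ f i := by
  intro n
  induction n with
  | zero =>
    intro x
    simp only [cat, List.not_mem_nil, false_iff]
    rintro ⟨i, h1, h2, -⟩
    omega
  | succ n ih =>
    intro x
    simp only [cat, List.mem_append]
    rw [ih]
    constructor
    · rintro (h | ⟨i, h1, h2, h3⟩)
      · exact ⟨x, le_rfl, by omega, h⟩
      · exact ⟨i, by omega, by omega, h3⟩
    · rintro ⟨i, h1, h2, h3⟩
      by_cases hi : i = x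
      · subst hi; exact Or.inl h3
      · exact Or.inr ⟨i, by omega, by omega, h3⟩

lemma cat_ne {f : ℕ → List V} (hf : ∀ x, f x ≠ []) {n x : ℕ} (hn : 1 ≤ n) : cat f x n ≠ [] := by
  obtain ⟨m, rfl⟩ : ∃ m, n = m + 1 := ⟨n - 1, by omega⟩
  simp [cat, hf x]

lemma head_cat {f : ℕ → List V} (hf : ∀ x, f x ≠ []) {n x : ℕ} (hn : 1 ≤ n) :
    (cat f x n).head? = (f x).head? := by
  obtain ⟨m, rfl⟩ : ∃ m, n = m + 1 := ⟨n - 1, by omega⟩
  simp only [cat]
  rw [List.head?_append_of_ne_nil _ (hf x)]

lemma last_cat {f : ℕ → List V} (hf : ∀ x, f x ≠ []) : ∀ {n x : ℕ}, 1 ≤ n →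
    (cat f x n).getLast? = (f (x + n - 1)).getLast? := by
  intro n
  induction n with
  | zero => intro x h; omega
  | succ n ih =>
    intro x _
    by_cases hn : n = 0
    · subst hn
      simp [cat]
    · simp only [cat]
      rw [List.getLast?_append_of_ne_nil _ (cat_ne hf (by omega)), ih (by omega)]
      congr 2
      omega

lemma chain_cat {G : SimpleGraph V} {f : ℕ → List V} (hf : ∀ x, f x ≠ []) {L : ℕ}
    (hc : ∀ x, x ≤ L → (f x).IsChain G.Adj)
    (hl : ∀ x, x < L → ∀ u ∈ (f x).getLast?, ∀ v ∈ (f (x + 1)).head?, G.Adj u v) :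
    ∀ n x, x + n ≤ L + 1 → (cat f x n).IsChain G.Adj := by
  intro n
  induction n with
  | zero => intro x _; simp [cat]
  | succ n ih =>
    intro x hx
    simp only [cat]
    rw [List.isChain_append]
    refine ⟨hc x (by omega), ih (x + 1) (by omega), ?_⟩
    intro u hu v hv
    by_cases hn : n = 0
    · subst hn
      simp [cat] at hv
    · rw [head_cat hf (by omega)] at hv
      exact hl x (by omega) u hu v hv

lemma nodup_cat {f : ℕ → List V} {L : ℕ} (hnd : ∀ x, x ≤ L → (f x).Nodup)
    (hdis : ∀ x y, x ≤ L → y ≤ L → ∀ v, v ∈ f x → v ∈ f y → x = y) :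
    ∀ n x, x + n ≤ L + 1 → (cat f x n).Nodup := by
  intro n
  induction n with
  | zero => intro x _; simp [cat]
  | succ n ih =>
    intro x hx
    simp only [cat]
    rw [List.nodup_append]
    refine ⟨hnd x (by omega), ih (x + 1) (by omega), ?_⟩
    intro a ha b hb hab
    subst hab
    obtain ⟨i, h1, h2, h3⟩ := mem_cat.1 hb
    have := hdis x i (by omega) (by omega) a ha h3
    omega


lemma tags (ps : List (List V)) (nd : ps.flatten.Nodup) :
    ∃ t : V → ℕ, ∀ i v, v ∈ ps.getD i [] → t v = i := by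
  classical
  rw [List.nodup_flatten] at nd
  have hp := List.pairwise_iff_getElem.1 nd.2
  have huniq : ∀ i j v, v ∈ ps.getD i [] → v ∈ ps.getD j [] → i = j := by
    intro i j v hi hj
    have hil : i < ps.length := by
      by_contra h
      rw [List.getD_eq_default _ _ (by omega)] at hi
      simp at hi
    have hjl : j < ps.length := by
      by_contra h
      rw [List.getD_eq_default _ _ (by omega)] at hj
      simp at hj
    rw [List.getD_eq_getElem _ _ hil] at hi
    rw [List.getD_eq_getElem _ _ hjl] at hj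
    rcases lt_trichotomy i j with h | h | h
    · exact absurd hj (fun hj => hp i j hil hjl h hi hj)
    · exact h
    · exact absurd hi (fun hi => hp j i hjl hil h hj hi)
  refine ⟨fun v => if h : ∃ i, v ∈ ps.getD i [] then h.choose else 0, ?_⟩
  intro i v hv
  have h : ∃ i, v ∈ ps.getD i [] := ⟨i, hv⟩
  simp only [h, dif_pos]
  exact huniq _ _ v h.choose_spec hv

/-- the abstract statement on lists -/
lemma cell_of_lists {G : SimpleGraph V} {S : Set V} {e : ℕ → V}
    {X1 X2 X3 Y1 Y2 Y3 R R' : List V} {a a' b b' : V}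
    (hU : (e 2 :: (X1 ++ a :: (X2 ++ a' :: (X3 ++ [e 0])))).IsChain G.Adj)
    (hL : (e 1 :: (Y1 ++ b :: (Y2 ++ b' :: (Y3 ++ [e 3])))).IsChain G.Adj)
    (hR : (a :: (R ++ [b])).IsChain G.Adj) (hR' : (a' :: (R' ++ [b'])).IsChain G.Adj)
    (nd : ((e 2 :: (X1 ++ a :: (X2 ++ a' :: (X3 ++ [e 0])))) ++
      (e 1 :: (Y1 ++ b :: (Y2 ++ b' :: (Y3 ++ [e 3])))) ++ R ++ R').Nodup)
    (hS1 : ∀ v ∈ X1 ++ a :: (X2 ++ a' :: X3), v ∈ S)
    (hS2 : ∀ v ∈ Y1 ++ b :: (Y2 ++ b' :: Y3), v ∈ S)
    (hS3 : ∀ v ∈ R ++ R', v ∈ S) :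
    ∃ Z w, IsCell G S e Z w ∧
      Z.length = (X2.length + 1) + (Y2.length + 1) + (R.length + 1) + (R'.length + 1) := by
  -- chains
  have u1 := List.isChain_split.1 (show ((e 2 :: X1) ++ a :: (X2 ++ a' :: (X3 ++ [e 0]))).IsChain G.Adj from hU)
  have u2 := List.isChain_split.1 (show ((a :: X2) ++ a' :: (X3 ++ [e 0])).IsChain G.Adj from u1.2)
  have l1 := List.isChain_split.1 (show ((e 1 :: Y1) ++ b :: (Y2 ++ b' :: (Y3 ++ [e 3]))).IsChain G.Adj from hL)
  have l2 := List.isChain_split.1 (show ((b :: Y2) ++ b' :: (Y3 ++ [e 3])).IsChain G.Adj from l1.2)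
  have rev : ∀ l : List V, l.IsChain G.Adj → l.reverse.IsChain G.Adj := by
    intro l hl
    rw [List.isChain_reverse]
    exact hl.imp (fun _ _ h => h.symm)
  have cw2 : (a :: (X1.reverse ++ [e 2])).IsChain G.Adj := by
    have := rev _ u1.1
    simpa using this
  have cw1 : (b :: (Y1.reverse ++ [e 1])).IsChain G.Adj := by
    have := rev _ l1.1
    simpa using this
  have cY : (b' :: (Y2.reverse ++ [b])).IsChain G.Adj := by
    have := rev _ l2.1
    simpa using this
  have cR : (b :: (R.reverse ++ [a])).IsChain G.Adj := by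
    have := rev _ hR
    simpa using this
  have cZ : ((a :: (X2 ++ a' :: (R' ++ b' :: (Y2.reverse ++ b :: R.reverse)))) ++ [a]).IsChain
      G.Adj := by
    have e1 : (a :: (X2 ++ a' :: (R' ++ b' :: (Y2.reverse ++ b :: R.reverse)))) ++ [a] =
        (a :: X2) ++ a' :: (R' ++ b' :: (Y2.reverse ++ b :: (R.reverse ++ [a]))) := by simp
    rw [e1, List.isChain_split]
    refine ⟨u2.1, ?_⟩
    have e2 : a' :: (R' ++ b' :: (Y2.reverse ++ b :: (R.reverse ++ [a]))) =
        (a' :: R') ++ b' :: (Y2.reverse ++ b :: (R.reverse ++ [a])) := by simp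
    rw [e2, List.isChain_split]
    refine ⟨hR', ?_⟩
    have e3 : b' :: (Y2.reverse ++ b :: (R.reverse ++ [a])) =
        (b' :: Y2.reverse) ++ b :: (R.reverse ++ [a]) := by simp
    rw [e3, List.isChain_split]
    exact ⟨cY, cR⟩
  have cZ' := List.isChain_append.1 cZ
  -- tags
  obtain ⟨t, ht⟩ := tags [[e 2], X1, [a], X2, [a'], X3, [e 0], [e 1], Y1, [b], Y2, [b'], Y3,
    [e 3], R, R'] (by simpa using nd)
  have te2 : t (e 2) = 0 := ht 0 _ (by simp)
  have tX1 : ∀ v ∈ X1, t v = 1 := fun v hv => ht 1 v (by simpa using hv)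
  have ta : t a = 2 := ht 2 _ (by simp)
  have tX2 : ∀ v ∈ X2, t v = 3 := fun v hv => ht 3 v (by simpa using hv)
  have ta' : t a' = 4 := ht 4 _ (by simp)
  have tX3 : ∀ v ∈ X3, t v = 5 := fun v hv => ht 5 v (by simpa using hv)
  have te0 : t (e 0) = 6 := ht 6 _ (by simp)
  have te1 : t (e 1) = 7 := ht 7 _ (by simp)
  have tY1 : ∀ v ∈ Y1, t v = 8 := fun v hv => ht 8 v (by simpa using hv)
  have tb : t b = 9 := ht 9 _ (by simp)
  have tY2 : ∀ v ∈ Y2, t v = 10 := fun v hv => ht 10 v (by simpa using hv)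
  have tb' : t b' = 11 := ht 11 _ (by simp)
  have tY3 : ∀ v ∈ Y3, t v = 12 := fun v hv => ht 12 v (by simpa using hv)
  have te3 : t (e 3) = 13 := ht 13 _ (by simp)
  have tR : ∀ v ∈ R, t v = 14 := fun v hv => ht 14 v (by simpa using hv)
  have tR' : ∀ v ∈ R', t v = 15 := fun v hv => ht 15 v (by simpa using hv)
  have nds : X1.Nodup ∧ X2.Nodup ∧ X3.Nodup ∧ Y1.Nodup ∧ Y2.Nodup ∧ Y3.Nodup ∧ R.Nodup ∧
      R'.Nodup := by
    simp only [List.nodup_append, List.nodup_cons] at nd
    tauto
  obtain ⟨nX1, nX2, nX3, nY1, nY2, nY3, nR, nR'⟩ := nds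
  have tZ : ∀ v ∈ a :: (X2 ++ a' :: (R' ++ b' :: (Y2.reverse ++ b :: R.reverse))),
      (t v = 2 ∨ t v = 3 ∨ t v = 4 ∨ t v = 15 ∨ t v = 11 ∨ t v = 10 ∨ t v = 9 ∨ t v = 14) ∧
        v ∈ S := by
    intro v hv
    simp only [List.mem_append, List.mem_cons, List.mem_reverse] at hv hS1 hS2 hS3
    rcases hv with rfl | h | rfl | h | rfl | h | rfl | h
    · exact ⟨by omega, hS1 _ (by simp)⟩
    · exact ⟨by have := tX2 v h; omega, hS1 _ (by simp [h])⟩
    · exact ⟨by omega, hS1 _ (by simp)⟩
    · exact ⟨by have := tR' v h; omega, hS3 _ (by simp [h])⟩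
    · exact ⟨by omega, hS2 _ (by simp)⟩
    · exact ⟨by have := tY2 v h; omega, hS2 _ (by simp [h])⟩
    · exact ⟨by omega, hS2 _ (by simp)⟩
    · exact ⟨by have := tR v h; omega, hS3 _ (by simp [h])⟩
  have sX1 : ∀ v ∈ X1, v ∈ S := fun v hv => hS1 v (by simp [hv])
  have sX3 : ∀ v ∈ X3, v ∈ S := fun v hv => hS1 v (by simp [hv])
  have sY1 : ∀ v ∈ Y1, v ∈ S := fun v hv => hS2 v (by simp [hv])
  have sY3 : ∀ v ∈ Y3, v ∈ S := fun v hv => hS2 v (by simp [hv])
  have sa : a ∈ S := hS1 _ (by simp)
  have sa' : a' ∈ S := hS1 _ (by simp)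
  have sb : b ∈ S := hS2 _ (by simp)
  have sb' : b' ∈ S := hS2 _ (by simp)
  have nZ : (a :: (X2 ++ a' :: (R' ++ b' :: (Y2.reverse ++ b :: R.reverse)))).Nodup := by
    have t1 : ∀ v ∈ b :: R.reverse, t v = 9 ∨ t v = 14 := by
      intro v hv
      simp only [List.mem_cons, List.mem_reverse] at hv
      rcases hv with rfl | h
      · omega
      · have := tR v h; omega
    have t2 : ∀ v ∈ Y2.reverse ++ b :: R.reverse, t v = 10 ∨ t v = 9 ∨ t v = 14 := by
      intro v hv
      rw [List.mem_append, List.mem_reverse] at hv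
      rcases hv with h | h
      · have := tY2 v h; omega
      · have := t1 v h; omega
    have t3 : ∀ v ∈ b' :: (Y2.reverse ++ b :: R.reverse),
        t v = 11 ∨ t v = 10 ∨ t v = 9 ∨ t v = 14 := by
      intro v hv
      rw [List.mem_cons] at hv
      rcases hv with rfl | h
      · omega
      · have := t2 v h; omega
    have t4 : ∀ v ∈ R' ++ b' :: (Y2.reverse ++ b :: R.reverse),
        t v = 15 ∨ t v = 11 ∨ t v = 10 ∨ t v = 9 ∨ t v = 14 := by
      intro v hv
      rw [List.mem_append] at hv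
      rcases hv with h | h
      · have := tR' v h; omega
      · have := t3 v h; omega
    have t5 : ∀ v ∈ a' :: (R' ++ b' :: (Y2.reverse ++ b :: R.reverse)),
        4 ≤ t v := by
      intro v hv
      rw [List.mem_cons] at hv
      rcases hv with rfl | h
      · omega
      · have := t4 v h; omega
    have t6 : ∀ v ∈ X2 ++ a' :: (R' ++ b' :: (Y2.reverse ++ b :: R.reverse)),
        3 ≤ t v := by
      intro v hv
      rw [List.mem_append] at hv
      rcases hv with h | h
      · have := tX2 v h; omega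
      · have := t5 v h; omega
    have n1 : (b :: R.reverse).Nodup :=
      List.nodup_cons.2 ⟨fun h => by have := tR b (by simpa using h); omega, by simpa using nR⟩
    have n2 : (Y2.reverse ++ b :: R.reverse).Nodup := by
      refine List.nodup_append.2 ⟨by simpa using nY2, n1, fun u hu w hw huw => ?_⟩
      have h1 := tY2 u (by simpa using hu)
      have h2 := t1 w hw
      rw [huw] at h1
      omega
    have n3 : (b' :: (Y2.reverse ++ b :: R.reverse)).Nodup :=
      List.nodup_cons.2 ⟨fun h => by have := t2 b' h; omega, n2⟩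
    have n4 : (R' ++ b' :: (Y2.reverse ++ b :: R.reverse)).Nodup := by
      refine List.nodup_append.2 ⟨nR', n3, fun u hu w hw huw => ?_⟩
      have h1 := tR' u hu
      have h2 := t3 w hw
      rw [huw] at h1
      omega
    have n5 : (a' :: (R' ++ b' :: (Y2.reverse ++ b :: R.reverse))).Nodup :=
      List.nodup_cons.2 ⟨fun h => by have := t4 a' h; omega, n4⟩
    have n6 : (X2 ++ a' :: (R' ++ b' :: (Y2.reverse ++ b :: R.reverse))).Nodup := by
      refine List.nodup_append.2 ⟨nX2, n5, fun u hu w hw huw => ?_⟩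
      have h1 := tX2 u hu
      have h2 := t5 w hw
      rw [huw] at h1
      omega
    exact List.nodup_cons.2 ⟨fun h => by have := t6 a h; omega, n6⟩
  have nw : ∀ (l : List V) (x z : V) (i j m : ℕ), l.Nodup → t x = i → (∀ v ∈ l, t v = j) →
      t z = m → i ≠ j → j ≠ m → i ≠ m → (x :: (l ++ [z])).Nodup := by
    intro l x z i j m hl hx hv hz h1 h2 h3
    simp only [List.nodup_append, List.nodup_cons, List.mem_append, List.mem_singleton,
      List.not_mem_nil, not_false_eq_true, List.nodup_nil, and_true, true_and]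
    refine ⟨?_, hl, ?_⟩
    · rintro (h | h)
      · exact h1 (by rw [← hx, hv x h])
      · exact h3 (by rw [← hx, h, hz])
    · intro u hu w hw huw
      subst hw
      exact h2 (by rw [← hv u hu, huw, hz])
  refine ⟨a :: (X2 ++ a' :: (R' ++ b' :: (Y2.reverse ++ b :: R.reverse))),
    fun d => if d = 0 then a' :: (X3 ++ [e 0]) else if d = 1 then b :: (Y1.reverse ++ [e 1])
      else if d = 2 then a :: (X1.reverse ++ [e 2]) else b' :: (Y3 ++ [e 3]), ?_, ?_⟩
  · constructor
    · refine ⟨cZ'.1, nZ, ?_, ?_⟩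
      · simp only [List.length_cons, List.length_append, List.length_reverse]
        omega
      · intro x y hx hy
        have hx' : a = x := by simpa using hx
        subst hx'
        exact cZ'.2.2 y hy a (by simp)
    · intro v hv
      exact (tZ v hv).2
    · intro d hd
      interval_cases d
      · refine ⟨a', by simp, ?_⟩
        simp only [if_true]
        refine ⟨u2.2, nw X3 a' (e 0) 4 5 6 nX3 ta' tX3 te0 (by simp) (by simp) (by simp), by simp,
          by rw [← List.cons_append, List.getLast?_concat], ?_⟩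
        intro x hx
        simp only [List.mem_cons, List.mem_append, List.not_mem_nil, or_false] at hx
        rcases hx with rfl | h | rfl
        · exact Or.inl sa'
        · exact Or.inl (sX3 x h)
        · exact Or.inr rfl
      · refine ⟨b, by simp, ?_⟩
        simp only [one_ne_zero, if_false, if_true]
        refine ⟨cw1, nw Y1.reverse b (e 1) 9 8 7 (by simpa using nY1) tb
          (fun v hv => tY1 v (by simpa using hv)) te1 (by simp) (by simp) (by simp), by simp,
          by rw [← List.cons_append, List.getLast?_concat], ?_⟩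
        intro x hx
        simp only [List.mem_cons, List.mem_append, List.mem_reverse, List.not_mem_nil,
          or_false] at hx
        rcases hx with rfl | h | rfl
        · exact Or.inl sb
        · exact Or.inl (sY1 x h)
        · exact Or.inr rfl
      · refine ⟨a, by simp, ?_⟩
        simp only [OfNat.ofNat_ne_zero, OfNat.ofNat_ne_one, if_false, if_true]
        refine ⟨cw2, nw X1.reverse a (e 2) 2 1 0 (by simpa using nX1) ta
          (fun v hv => tX1 v (by simpa using hv)) te2 (by simp) (by simp) (by simp), by simp,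
          by rw [← List.cons_append, List.getLast?_concat], ?_⟩
        intro x hx
        simp only [List.mem_cons, List.mem_append, List.mem_reverse, List.not_mem_nil,
          or_false] at hx
        rcases hx with rfl | h | rfl
        · exact Or.inl sa
        · exact Or.inl (sX1 x h)
        · exact Or.inr rfl
      · refine ⟨b', by simp, ?_⟩
        simp only [OfNat.ofNat_ne_zero, OfNat.ofNat_ne_one, if_false,
          show (3 : ℕ) ≠ 2 by omega]
        refine ⟨l2.2, nw Y3 b' (e 3) 11 12 13 nY3 tb' tY3 te3 (by simp) (by simp) (by simp),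
          by simp, by rw [← List.cons_append, List.getLast?_concat], ?_⟩
        intro x hx
        simp only [List.mem_cons, List.mem_append, List.not_mem_nil, or_false] at hx
        rcases hx with rfl | h | rfl
        · exact Or.inl sb'
        · exact Or.inl (sY3 x h)
        · exact Or.inr rfl
    · intro d hd v hv hvZ
      have h1 := (tZ v hvZ).1
      interval_cases d
      · simp only [if_true, List.tail_cons, List.mem_append, List.mem_singleton] at hv
        rcases hv with h | rfl
        · have := tX3 v h; omega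
        · omega
      · simp only [one_ne_zero, if_false, if_true, List.tail_cons, List.mem_append,
          List.mem_singleton, List.mem_reverse] at hv
        rcases hv with h | rfl
        · have := tY1 v h; omega
        · omega
      · simp only [OfNat.ofNat_ne_zero, OfNat.ofNat_ne_one, if_false, if_true, List.tail_cons,
          List.mem_append, List.mem_singleton, List.mem_reverse] at hv
        rcases hv with h | rfl
        · have := tX1 v h; omega
        · omega
      · simp only [OfNat.ofNat_ne_zero, OfNat.ofNat_ne_one, if_false,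
          show (3 : ℕ) ≠ 2 by omega, List.tail_cons, List.mem_append, List.mem_singleton] at hv
        rcases hv with h | rfl
        · have := tY3 v h; omega
        · omega
    · have tw : ∀ d, d < 4 → ∀ v ∈ (if d = 0 then a' :: (X3 ++ [e 0]) else if d = 1 then
          b :: (Y1.reverse ++ [e 1]) else if d = 2 then a :: (X1.reverse ++ [e 2]) else
          b' :: (Y3 ++ [e 3])), (d = 0 ∧ 4 ≤ t v ∧ t v ≤ 6) ∨ (d = 1 ∧ 7 ≤ t v ∧ t v ≤ 9) ∨
          (d = 2 ∧ t v ≤ 2) ∨ (d = 3 ∧ 11 ≤ t v) := by
        intro d hd v hv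
        interval_cases d
        · simp only [if_true, List.mem_cons, List.mem_append, List.not_mem_nil, or_false] at hv
          rcases hv with rfl | h | rfl
          · omega
          · have := tX3 v h; omega
          · omega
        · simp only [one_ne_zero, if_false, if_true, List.mem_cons, List.mem_append,
            List.not_mem_nil, or_false, List.mem_reverse] at hv
          rcases hv with rfl | h | rfl
          · omega
          · have := tY1 v h; omega
          · omega
        · simp only [OfNat.ofNat_ne_zero, OfNat.ofNat_ne_one, if_false, if_true, List.mem_cons,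
            List.mem_append, List.not_mem_nil, or_false, List.mem_reverse] at hv
          rcases hv with rfl | h | rfl
          · omega
          · have := tX1 v h; omega
          · omega
        · simp only [OfNat.ofNat_ne_zero, OfNat.ofNat_ne_one, if_false,
            show (3 : ℕ) ≠ 2 by omega, List.mem_cons, List.mem_append, List.not_mem_nil,
            or_false] at hv
          rcases hv with rfl | h | rfl
          · omega
          · have := tY3 v h; omega
          · omega
      intro d d' hd hd' hne v hv hv'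
      have h1 := tw d hd v hv
      have h2 := tw d' hd' v hv'
      omega
  · simp only [List.length_cons, List.length_append, List.length_reverse]
    omega

lemma cat_split (f : ℕ → List V) (pm pp : ℕ → List V) (a : ℕ → V)
    (hf : ∀ x, f x = pm x ++ a x :: pp x) {I J L : ℕ} (hIJ : I < J) (hJ : J ≤ L) :
    cat f 0 (L + 1) = (cat f 0 I ++ pm I) ++ a I ::
      ((pp I ++ cat f (I + 1) (J - I - 1) ++ pm J) ++ a J :: (pp J ++ cat f (J + 1) (L - J))) := by
  have e1 : L + 1 = I + ((J - I - 1 + ((L - J) + 1)) + 1) := by omega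
  have succ : ∀ x n, cat f x (n + 1) = f x ++ cat f (x + 1) n := fun _ _ => rfl
  rw [e1, cat_add, Nat.zero_add, succ, cat_add, show I + 1 + (J - I - 1) = J by omega, succ]
  rw [hf I, hf J]
  simp only [List.append_assoc, List.cons_append]

lemma cat_len (f : ℕ → List V) (pm pp : ℕ → List V) (a : ℕ → V)
    (hf : ∀ x, f x = pm x ++ a x :: pp x) (I : ℕ) : ∀ n : ℕ,
    (pp I ++ cat f (I + 1) n ++ pm (I + n + 1)).length + 1 =
      ∑ x ∈ Finset.Ico I (I + n + 1), ((pp x).length + (pm (x + 1)).length + 1) := by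
  intro n
  induction n with
  | zero => simp [cat]
  | succ n ih =>
    rw [show I + (n + 1) + 1 = (I + n + 1) + 1 by omega, Finset.sum_Ico_succ_top (by omega), ← ih,
      cat_add]
    simp only [cat, List.append_nil, List.length_append]
    rw [show I + 1 + n = I + n + 1 by omega, hf (I + n + 1)]
    simp only [List.length_append, List.length_cons]
    omega

end IE5

open IE5 in
theorem E5 : PE5 := by
  intro V G L D c e h I J hIJ hJ
  have hIL : I ≤ L := by omega
  have hD : ∀ x y v, x ≤ L → y ≤ L → v ∈ D x → v ∈ D y → x = y := by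
    intro x y v hx hy h1 h2
    by_contra hne
    exact Set.disjoint_left.1 (h.dis x y hx hy hne) h1 h2
  have hP : ∀ x v, x ≤ L → v ∈ (c x).P → v ∈ D x :=
    fun x v hx hv => h.mem x hx v (by simp [hv])
  have hQ : ∀ x v, x ≤ L → v ∈ (c x).Q → v ∈ D x :=
    fun x v hx hv => h.mem x hx v (by simp [hv])
  have hR : ∀ x v, x ≤ L → v ∈ (c x).rh → v ∈ D x :=
    fun x v hx hv => h.mem x hx v (by simp [hv])
  have hnd : ∀ x, x ≤ L → (c x).P.Nodup ∧ (c x).Q.Nodup ∧ (c x).rh.Nodup ∧
      (∀ v, v ∈ (c x).P → v ∉ (c x).Q) ∧ (∀ v, v ∈ (c x).P → v ∉ (c x).rh) ∧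
      (∀ v, v ∈ (c x).Q → v ∉ (c x).rh) := by
    intro x hx
    have := h.nd x hx
    rw [List.nodup_append, List.nodup_append] at this
    obtain ⟨⟨h1, h2, h3⟩, h4, h5⟩ := this
    exact ⟨h1, h2, h4, fun v hv hv' => h3 v hv v hv' rfl,
      fun v hv hv' => h5 v (by simp [hv]) v hv' rfl, fun v hv hv' => h5 v (by simp [hv]) v hv' rfl⟩
  have hPQ : ∀ x y v, x ≤ L → y ≤ L → v ∈ (c x).P → v ∈ (c y).Q → False := by
    intro x y v hx hy h1 h2
    obtain rfl := hD x y v hx hy (hP x v hx h1) (hQ y v hy h2)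
    exact (hnd x hx).2.2.2.1 v h1 h2
  have hPR : ∀ x y v, x ≤ L → y ≤ L → v ∈ (c x).P → v ∈ (c y).rh → False := by
    intro x y v hx hy h1 h2
    obtain rfl := hD x y v hx hy (hP x v hx h1) (hR y v hy h2)
    exact (hnd x hx).2.2.2.2.1 v h1 h2
  have hQR : ∀ x y v, x ≤ L → y ≤ L → v ∈ (c x).Q → v ∈ (c y).rh → False := by
    intro x y v hx hy h1 h2
    obtain rfl := hD x y v hx hy (hQ x v hx h1) (hR y v hy h2)
    exact (hnd x hx).2.2.2.2.2 v h1 h2
  have fne : ∀ x, (c x).P ≠ [] := by intro x; simp [Col.P]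
  have gne : ∀ x, (c x).Q ≠ [] := by intro x; simp [Col.Q]
  have memW : ∀ {v : V}, v ∈ cat (fun x => (c x).P) 0 (L + 1) → ∃ x, x ≤ L ∧ v ∈ (c x).P := by
    intro v hv
    obtain ⟨i, -, h2, h3⟩ := mem_cat.1 hv
    exact ⟨i, by omega, h3⟩
  have memW' : ∀ {v : V}, v ∈ cat (fun x => (c x).Q) 0 (L + 1) → ∃ x, x ≤ L ∧ v ∈ (c x).Q := by
    intro v hv
    obtain ⟨i, -, h2, h3⟩ := mem_cat.1 hv
    exact ⟨i, by omega, h3⟩
  have eD : ∀ d, d < 4 → ∀ x, x ≤ L → e d ∉ D x := h.enD
  have cW : (e 2 :: (cat (fun x => (c x).P) 0 (L + 1) ++ [e 0])).IsChain G.Adj := by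
    have h1 := chain_cat (G := G) (f := fun x => (c x).P) fne (L := L) h.chP h.linkP (L + 1) 0
      (by omega)
    have h2 : (cat (fun x => (c x).P) 0 (L + 1) ++ [e 0]).IsChain G.Adj := by
      rw [List.isChain_append]
      refine ⟨h1, by simp, ?_⟩
      intro x hx y hy
      rw [last_cat fne (by omega)] at hx
      simp only [List.head?_cons, Option.mem_def, Option.some.injEq] at hy
      subst hy
      exact h.adj0 x (by simpa using hx)
    rw [List.isChain_cons]
    refine ⟨?_, h2⟩
    intro y hy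
    rw [List.head?_append_of_ne_nil _ (cat_ne fne (by omega)), head_cat fne (by omega)] at hy
    exact h.adj2 y hy
  have cW' : (e 1 :: (cat (fun x => (c x).Q) 0 (L + 1) ++ [e 3])).IsChain G.Adj := by
    have h1 := chain_cat (G := G) (f := fun x => (c x).Q) gne (L := L) h.chQ h.linkQ (L + 1) 0
      (by omega)
    have h2 : (cat (fun x => (c x).Q) 0 (L + 1) ++ [e 3]).IsChain G.Adj := by
      rw [List.isChain_append]
      refine ⟨h1, by simp, ?_⟩
      intro x hx y hy
      rw [last_cat gne (by omega)] at hx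
      simp only [List.head?_cons, Option.mem_def, Option.some.injEq] at hy
      subst hy
      exact h.adj3 x (by simpa using hx)
    rw [List.isChain_cons]
    refine ⟨?_, h2⟩
    intro y hy
    rw [List.head?_append_of_ne_nil _ (cat_ne gne (by omega)), head_cat gne (by omega)] at hy
    exact h.adj1 y hy
  have nW : (cat (fun x => (c x).P) 0 (L + 1)).Nodup :=
    nodup_cat (f := fun x => (c x).P) (L := L) (fun x hx => (hnd x hx).1)
      (fun x y hx hy v h1 h2 => hD x y v hx hy (hP x v hx h1) (hP y v hy h2)) (L + 1) 0 (by omega)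
  have nW' : (cat (fun x => (c x).Q) 0 (L + 1)).Nodup :=
    nodup_cat (f := fun x => (c x).Q) (L := L) (fun x hx => (hnd x hx).2.1)
      (fun x y hx hy v h1 h2 => hD x y v hx hy (hQ x v hx h1) (hQ y v hy h2)) (L + 1) 0 (by omega)
  have eW : ∀ d, d < 4 → e d ∉ cat (fun x => (c x).P) 0 (L + 1) := by
    intro d hd hm
    obtain ⟨x, hx, hv⟩ := memW hm
    exact eD d hd x hx (hP x _ hx hv)
  have eW' : ∀ d, d < 4 → e d ∉ cat (fun x => (c x).Q) 0 (L + 1) := by
    intro d hd hm
    obtain ⟨x, hx, hv⟩ := memW' hm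
    exact eD d hd x hx (hQ x _ hx hv)
  have ene : ∀ d d', d < 4 → d' < 4 → d ≠ d' → e d ≠ e d' :=
    fun d d' hd hd' hne he => hne (h.einj d d' hd hd' he)
  have nU : (e 2 :: (cat (fun x => (c x).P) 0 (L + 1) ++ [e 0])).Nodup := by
    rw [List.nodup_cons, List.nodup_append, List.mem_append, List.mem_singleton]
    refine ⟨?_, nW, by simp, ?_⟩
    · rintro (h1 | h1)
      · exact eW 2 (by omega) h1
      · exact ene 2 0 (by omega) (by omega) (by omega) h1
    · intro u hu w hw huw
      rw [List.mem_singleton] at hw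
      subst hw
      exact eW 0 (by omega) (huw ▸ hu)
  have nU' : (e 1 :: (cat (fun x => (c x).Q) 0 (L + 1) ++ [e 3])).Nodup := by
    rw [List.nodup_cons, List.nodup_append, List.mem_append, List.mem_singleton]
    refine ⟨?_, nW', by simp, ?_⟩
    · rintro (h1 | h1)
      · exact eW' 1 (by omega) h1
      · exact ene 1 3 (by omega) (by omega) (by omega) h1
    · intro u hu w hw huw
      rw [List.mem_singleton] at hw
      subst hw
      exact eW' 3 (by omega) (huw ▸ hu)
  have big : ((e 2 :: (cat (fun x => (c x).P) 0 (L + 1) ++ [e 0])) ++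
      (e 1 :: (cat (fun x => (c x).Q) 0 (L + 1) ++ [e 3])) ++ (c I).rh ++ (c J).rh).Nodup := by
    have n1 : ((e 2 :: (cat (fun x => (c x).P) 0 (L + 1) ++ [e 0])) ++
      (e 1 :: (cat (fun x => (c x).Q) 0 (L + 1) ++ [e 3]))).Nodup := by
      rw [List.nodup_append]
      refine ⟨nU, nU', ?_⟩
      intro u hu w hw huw
      subst huw
      simp only [List.mem_cons, List.mem_append, List.not_mem_nil, or_false] at hu hw
      rcases hu with rfl | hu | rfl
      · rcases hw with hw | hw | hw
        · exact ene 2 1 (by omega) (by omega) (by omega) hw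
        · exact eW' 2 (by omega) hw
        · exact ene 2 3 (by omega) (by omega) (by omega) hw
      · rcases hw with rfl | hw | rfl
        · exact eW 1 (by omega) hu
        · obtain ⟨x, hx, h1⟩ := memW hu
          obtain ⟨y, hy, h2⟩ := memW' hw
          exact hPQ x y u hx hy h1 h2
        · exact eW 3 (by omega) hu
      · rcases hw with hw | hw | hw
        · exact ene 0 1 (by omega) (by omega) (by omega) hw
        · exact eW' 0 (by omega) hw
        · exact ene 0 3 (by omega) (by omega) (by omega) hw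
    have rd : ∀ X, X ≤ L → ∀ u, u ∈ (e 2 :: (cat (fun x => (c x).P) 0 (L + 1) ++ [e 0])) ++
        (e 1 :: (cat (fun x => (c x).Q) 0 (L + 1) ++ [e 3])) → u ∉ (c X).rh := by
      intro X hX u hu hr
      have hrD := hR X u hX hr
      simp only [List.mem_append, List.mem_cons, List.not_mem_nil, or_false] at hu
      rcases hu with (rfl | hu | rfl) | (rfl | hu | rfl)
      · exact eD 2 (by omega) X hX hrD
      · obtain ⟨x, hx, h1⟩ := memW hu
        exact hPR x X u hx hX h1 hr
      · exact eD 0 (by omega) X hX hrD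
      · exact eD 1 (by omega) X hX hrD
      · obtain ⟨x, hx, h1⟩ := memW' hu
        exact hQR x X u hx hX h1 hr
      · exact eD 3 (by omega) X hX hrD
    rw [List.nodup_append, List.nodup_append]
    refine ⟨⟨n1, (hnd I hIL).2.2.1, ?_⟩, (hnd J hJ).2.2.1, ?_⟩
    · intro u hu w hw huw
      exact rd I hIL u hu (huw ▸ hw)
    · intro u hu w hw huw
      subst huw
      rcases List.mem_append.1 hu with hu | hu
      · exact rd J hJ u hu hw
      · have := hD I J u hIL hJ (hR I u hIL hu) (hR J u hJ hw)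
        omega
  have sU := cat_split (fun x => (c x).P) (fun x => (c x).pm) (fun x => (c x).pp)
    (fun x => (c x).a) (fun x => rfl) hIJ hJ
  have sL := cat_split (fun x => (c x).Q) (fun x => (c x).qm) (fun x => (c x).qp)
    (fun x => (c x).b) (fun x => rfl) hIJ hJ
  have lU := cat_len (fun x => (c x).P) (fun x => (c x).pm) (fun x => (c x).pp)
    (fun x => (c x).a) (fun x => rfl) I (J - I - 1)
  have lL := cat_len (fun x => (c x).Q) (fun x => (c x).qm) (fun x => (c x).qp)
    (fun x => (c x).b) (fun x => rfl) I (J - I - 1)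
  rw [show I + (J - I - 1) + 1 = J by omega] at lU lL
  have memS : ∀ x v, x ≤ L → v ∈ D x → v ∈ ⋃ x ∈ Set.Iic L, D x :=
    fun x v hx hv => Set.mem_biUnion (show x ∈ Set.Iic L from hx) hv
  have hS1 : ∀ v ∈ cat (fun x => (c x).P) 0 (L + 1), v ∈ ⋃ x ∈ Set.Iic L, D x := by
    intro v hv
    obtain ⟨x, hx, h1⟩ := memW hv
    exact memS x v hx (hP x v hx h1)
  have hS2 : ∀ v ∈ cat (fun x => (c x).Q) 0 (L + 1), v ∈ ⋃ x ∈ Set.Iic L, D x := by
    intro v hv
    obtain ⟨x, hx, h1⟩ := memW' hv
    exact memS x v hx (hQ x v hx h1)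
  rw [sU] at cW big hS1
  rw [sL] at cW' big hS2
  simp only [List.append_assoc, List.cons_append] at cW cW' big hS1 hS2 lU lL
  obtain ⟨Z, w, hc, hl⟩ := cell_of_lists (G := G) (S := ⋃ x ∈ Set.Iic L, D x) (e := e)
    (X1 := cat (fun x => (c x).P) 0 I ++ (c I).pm)
    (X2 := (c I).pp ++ (cat (fun x => (c x).P) (I + 1) (J - I - 1) ++ (c J).pm))
    (X3 := (c J).pp ++ cat (fun x => (c x).P) (J + 1) (L - J))
    (Y1 := cat (fun x => (c x).Q) 0 I ++ (c I).qm)
    (Y2 := (c I).qp ++ (cat (fun x => (c x).Q) (I + 1) (J - I - 1) ++ (c J).qm))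
    (Y3 := (c J).qp ++ cat (fun x => (c x).Q) (J + 1) (L - J))
    (R := (c I).rh) (R' := (c J).rh) (a := (c I).a) (a' := (c J).a) (b := (c I).b)
    (b' := (c J).b)
    (by simpa only [List.append_assoc, List.cons_append] using cW)
    (by simpa only [List.append_assoc, List.cons_append] using cW')
    (by simpa only [List.cons_append] using h.chR I hIL)
    (by simpa only [List.cons_append] using h.chR J hJ)
    (by simpa only [List.append_assoc, List.cons_append] using big)
    (by simpa only [List.append_assoc, List.cons_append] using hS1)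
    (by simpa only [List.append_assoc, List.cons_append] using hS2)
    (by
      intro v hv
      rcases List.mem_append.1 hv with hv | hv
      · exact memS I v hIL (hR I v hIL hv)
      · exact memS J v hJ (hR J v hJ hv))
  refine ⟨Z, w, hc, ?_⟩
  have hs : ∑ x ∈ Finset.Ico I J, (tl c x + bl c x) =
      (∑ x ∈ Finset.Ico I J, ((c x).pp.length + (c (x + 1)).pm.length + 1)) +
        ∑ x ∈ Finset.Ico I J, ((c x).qp.length + (c (x + 1)).qm.length + 1) :=
    Finset.sum_add_distrib
  rw [hl, hs, lU, lL]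
  simp only [sl]

end Pool.Agent.PEmb

end

section

/-!
# E6: many different lengths
-/

set_option autoImplicit false

namespace Pool.Agent.PEmb

namespace IE6

lemma clash {T s : ℕ → ℕ} (hT : ∀ x, 1 ≤ T x) {A B J J' : ℕ} (hAJ : A ≤ J) (hJ : J < J')
    (hB : J' ≤ B)
    (h1 : (∑ x ∈ Finset.Ico A J, T x) + s A + s J = (∑ x ∈ Finset.Ico A J', T x) + s A + s J')
    (h2 : (∑ x ∈ Finset.Ico J B, T x) + s J + s B = (∑ x ∈ Finset.Ico J' B, T x) + s J' + s B) :
    False := by
  have e1 := Finset.sum_Ico_consecutive T hAJ hJ.le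
  have e2 := Finset.sum_Ico_consecutive T hJ.le hB
  have e3 : 1 ≤ ∑ x ∈ Finset.Ico J J', T x :=
    (hT J).trans (Finset.single_le_sum (f := T) (fun _ _ => Nat.zero_le _)
      (Finset.mem_Ico.2 ⟨le_rfl, hJ⟩))
  omega

end IE6

open IE6 in
theorem E6 : PE6 := by
  intro T s A N F hT hN
  by_contra hno
  push Not at hno
  have hmaps : ∀ J ∈ Finset.Ioo A (A + N),
      ((∑ x ∈ Finset.Ico A J, T x) + s A + s J,
        (∑ x ∈ Finset.Ico J (A + N), T x) + s J + s (A + N)) ∈ F ×ˢ F := by
    intro J hJ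
    rw [Finset.mem_Ioo] at hJ
    rw [Finset.mem_product]
    exact ⟨hno A J le_rfl hJ.1 hJ.2.le, hno J (A + N) hJ.1.le hJ.2 le_rfl⟩
  have hcard : (F ×ˢ F).card < (Finset.Ioo A (A + N)).card := by
    rw [Finset.card_product, Nat.card_Ioo]
    have : F.card ^ 2 = F.card * F.card := sq _
    omega
  obtain ⟨J, hJ, J', hJ', hne, heq⟩ :=
    Finset.exists_ne_map_eq_of_card_lt_of_maps_to hcard hmaps
  rw [Finset.mem_Ioo] at hJ hJ'
  have h1 := congrArg Prod.fst heq
  have h2 := congrArg Prod.snd heq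
  simp only at h1 h2
  rcases lt_or_gt_of_ne hne with h | h
  · exact clash hT hJ.1.le h hJ'.2.le h1 h2
  · exact clash hT hJ'.1.le h hJ.2.le h1.symm h2.symm

end Pool.Agent.PEmb

end
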