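import Pool.Agent.Work.MP_cfa43e_lc.Stmts
import Pool.Agent.Work.MP_cfa43e_lc.Bd.B14
import Pool.Agent.Work.MP_cfa43e_lc.Q9
import Pool.Agent.Work.MP_cfa43e_lc.Bd.B02
import Pool.Agent.Work.MP_cfa43e_lc.Bd.B15
import Pool.Agent.Work.MP_cfa43e_lc.E4
import Pool.Agent.Work.MP_cfa43e_lc.E11
import Pool.Agent.Work.MP_cfa43e_lc.E20
import Pool.Agent.Work.MP_cfa43e_lc.Q4
import Pool.Agent.Work.MP_cfa43e_lc.Q10

/-! Bundle of small proof modules (one section per former module). -/

section

/-!
# R10: a clique gives an embedding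
-/

set_option autoImplicit false

namespace Pool.Agent.PEmb

/-- The value of a vertex of the pattern. -/
def vlR {V : Type} (P : Par) (w : ℕ → V) : Lab → V × V
  | .core i j _ => (w i, w j)
  | .leg o i j s => if s < P.l o i j / 2 then (w i, w j) else if s = P.l o i j / 2 then
      (if o = false then (w i, w i) else (w j, w j)) else (w (nx o i j).1, w (nx o i j).2)

theorem okR {V : Type} (k : ℕ) (P : Par) (G : SimpleGraph V) (w : ℕ → V)
    (hw : ∀ i j, i < k → j < k → i ≠ j → G.Adj (w i) (w j)) (x : Lab) (hx : Vx k P x) :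
    OKv G (zone P x) (vlR P w x) := by
  have hcell : ∀ i j, i < k → j < k → OKv G (.cell i j) (w i, w j) := by
    intro i j hi hj
    simp only [OKv]
    by_cases hij : i = j
    · rw [if_pos hij, hij]
    · rw [if_neg hij]
      exact hw i j hi hj hij
  cases x with
  | core i j s => exact hcell i j hx.1 hx.2.1
  | leg o i j s =>
    obtain ⟨hex, h1, h2⟩ := hx
    have hi : i < k := by
      have := hex.1; cases o <;> simp [nx] at this <;> omega
    have hj : j < k := by
      have := hex.2; cases o <;> simp [nx] at this <;> omega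
    simp only [zone, vlR]
    by_cases hs : s < P.l o i j / 2
    · rw [if_pos hs, if_pos hs]
      exact hcell i j hi hj
    · rw [if_neg hs, if_neg hs]
      by_cases hs' : s = P.l o i j / 2
      · rw [if_pos hs', if_pos hs']
        cases o <;> simp [OKv]
      · rw [if_neg hs', if_neg hs']
        exact hcell _ _ hex.1 hex.2

theorem R10 : PR10 := by
  rintro V k P G hA ⟨w, hw⟩
  have hok := fun x hx => okR k P G w hw x hx
  refine ⟨fun x => (x, vlR P w x), fun x y _ _ h => (Prod.mk.inj h).1, ?_, ?_⟩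
  · -- adjacency
    have main : ∀ x y, AE k P x y → Vx k P x ∧ Vx k P y ∧
        Comp (zone P x) (zone P y) (vlR P w x) (vlR P w y) := by
      intro x y h
      cases h with
      | cyc i j s hi hj hs =>
        exact ⟨⟨hi, hj, by omega⟩, ⟨hi, hj, hs⟩, rfl⟩
      | close i j hi hj =>
        have hz := hA.z4 i j hi hj
        exact ⟨⟨hi, hj, by omega⟩, ⟨hi, hj, by omega⟩, rfl⟩
      | out o i j h =>
        have hi : i < k := by
          have := h.1; cases o <;> simp [nx] at this <;> omega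
        have hj : j < k := by
          have := h.2; cases o <;> simp [nx] at this <;> omega
        have hz := hA.z4 i j hi hj
        have hl := hA.lbig o i j i j h hi hj
        refine ⟨⟨hi, hj, hA.rlt i j _ hi hj (by cases o <;> simp [ro])⟩, ⟨h, by omega, by omega⟩, ?_⟩
        simp only [zone, vlR]
        rw [if_pos (by omega), if_pos (by omega)]
        rfl
      | inn o i j h =>
        have hz := hA.z4 _ _ h.1 h.2
        have hl := hA.lbig o i j _ _ h h.1 h.2
        refine ⟨⟨h, by omega, by omega⟩,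
          ⟨h.1, h.2, hA.rlt _ _ _ h.1 h.2 (by cases o <;> simp [ri])⟩, ?_⟩
        simp only [zone, vlR]
        rw [if_neg (by omega), if_neg (by omega), if_neg (by omega), if_neg (by omega)]
        rfl
      | step o i j s h hs hl =>
        refine ⟨⟨h, hs, by omega⟩, ⟨h, by omega, hl⟩, ?_⟩
        simp only [zone, vlR]
        rcases lt_trichotomy (s + 1) (P.l o i j / 2) with h1 | h1 | h1
        · rw [if_pos (show s < P.l o i j / 2 by omega), if_pos (show s < P.l o i j / 2 by omega),
            if_pos h1, if_pos h1]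
          rfl
        · rw [if_pos (show s < P.l o i j / 2 by omega), if_pos (show s < P.l o i j / 2 by omega),
            if_neg (show ¬ s + 1 < P.l o i j / 2 by omega),
            if_neg (show ¬ s + 1 < P.l o i j / 2 by omega), if_pos h1, if_pos h1]
          cases o <;> simp [Comp]
        · rw [if_neg (show ¬ s < P.l o i j / 2 by omega), if_neg (show ¬ s < P.l o i j / 2 by omega),
            if_neg (show ¬ s + 1 < P.l o i j / 2 by omega),
            if_neg (show ¬ s + 1 < P.l o i j / 2 by omega),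
            if_neg (show ¬ s + 1 = P.l o i j / 2 by omega),
            if_neg (show ¬ s + 1 = P.l o i j / 2 by omega)]
          by_cases h2 : s = P.l o i j / 2
          · rw [if_pos h2, if_pos h2]
            cases o <;> simp [Comp, nx]
          · rw [if_neg h2, if_neg h2]
            rfl
    intro x y h
    obtain ⟨h1, h2, h3⟩ := main x y h
    exact ⟨Or.inl h, ⟨h1, hok x h1⟩, ⟨h2, hok y h2⟩, h3⟩
  · intro x hx
    exact ⟨hx, hok x hx⟩

end Pool.Agent.PEmb

end

section

/-!
# R2: neighbours in the host of a leg vertex behind the port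
-/

set_option autoImplicit false

namespace Pool.Agent.PEmb

theorem R2 : PR2 := by
  intro V k P G hP o i j s v q hs h
  obtain ⟨q1, q2⟩ := q
  obtain ⟨hA, hp, hq, hc⟩ := h
  simp only at hA hc
  have hEx : Ex k o i j := hp.1.1
  have hk : 0 < k := by
    have := hEx.1
    omega
  have hl : 10 ≤ P.l o i j := by
    have h1 := hP.lbig o i j 0 0 hEx hk hk
    have h2 := hP.z4 0 0 hk hk
    omega
  have hz : ∀ t, P.l o i j / 2 < t →
      zone P (.leg o i j t) = .cell (nx o i j).1 (nx o i j).2 := by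
    intro t ht
    simp only [zone]
    rw [if_neg (by omega), if_neg (by omega)]
  rw [hz s hs] at hc
  rcases hA with hA | hA
  · cases hA with
    | step _ _ _ _ h hs1 hl1 =>
      left
      rw [hz (s + 1) (by omega)] at hc
      rw [if_neg (by omega)]
      exact Prod.ext rfl hc.symm
    | inn _ _ _ h =>
      left
      rw [if_pos (by omega)]
      exact Prod.ext rfl (by
        have hc' : v = q2 := hc
        exact hc'.symm)
  · cases hA with
    | out _ _ _ h => omega
    | step _ _ _ s' h hs1 hl1 =>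
      right
      refine ⟨rfl, fun h2 => ?_⟩
      have h3 : P.l o i j / 2 < s' := by simpa using h2
      rw [hz s' h3] at hc
      exact hc.symm

end Pool.Agent.PEmb

end

section

/-!
# R3: neighbours in the host of a cycle vertex
-/

set_option autoImplicit false

namespace Pool.Agent.PEmb

theorem R3 : PR3 := by
  rintro V k P G hA i j s v ⟨x, w⟩ ⟨hadj, hp, hq, hc⟩
  simp only at hadj hp hq hc ⊢
  rcases hadj with h | h
  · generalize hy : Lab.core i j s = y at h
    cases h with
    | cyc i' j' s' hi hj hs =>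
      injection hy with e1 e2 e3
      subst e1; subst e2; subst e3
      refine ⟨hc.symm, Or.inl ?_⟩
      rw [Nat.mod_eq_of_lt hs]
    | close i' j' hi hj =>
      injection hy with e1 e2 e3
      subst e1; subst e2; subst e3
      have hz := hA.z4 i j hi hj
      refine ⟨hc.symm, Or.inl ?_⟩
      rw [show P.z i j - 1 + 1 = P.z i j by omega, Nat.mod_self]
    | step o i' j' s' h hs hl => cases hy
    | inn o i' j' h => cases hy
    | out o i' j' h =>
      injection hy with e1 e2 e3
      subst e1; subst e2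
      have hi : i < k := by
        have := h.1; cases o <;> simp [nx] at this <;> omega
      have hj : j < k := by
        have := h.2; cases o <;> simp [nx] at this <;> omega
      have hz := hA.z4 i j hi hj
      have hl := hA.lbig o i j i j h hi hj
      have hzone : zone P (.leg o i j 1) = .cell i j := by
        simp only [zone]; rw [if_pos (by omega)]
      rw [hzone] at hc
      exact ⟨hc.symm, Or.inr (Or.inr (Or.inl ⟨o, h, e3, rfl⟩))⟩
  · generalize hy : Lab.core i j s = y at h
    cases h with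
    | cyc i' j' s' hi hj hs =>
      injection hy with e1 e2 e3
      subst e1; subst e2; subst e3
      refine ⟨hc.symm, Or.inr (Or.inl ?_)⟩
      congr 1
      rw [show s' + 1 + P.z i j - 1 = s' + P.z i j by omega, Nat.add_mod_right,
        Nat.mod_eq_of_lt (by omega)]
    | close i' j' hi hj =>
      injection hy with e1 e2 e3
      subst e1; subst e2; subst e3
      have hz := hA.z4 i j hi hj
      refine ⟨hc.symm, Or.inr (Or.inl ?_)⟩
      congr 1
      rw [Nat.mod_eq_of_lt (by omega)]; omega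
    | out o i' j' h => cases hy
    | step o i' j' s' h hs hl => cases hy
    | inn o i' j' h =>
      injection hy with e1 e2 e3
      have hi : (nx o i' j').1 < k := h.1
      have hj : (nx o i' j').2 < k := h.2
      have hz := hA.z4 _ _ hi hj
      have hl := hA.lbig o i' j' _ _ h hi hj
      have hzone : zone P (.leg o i' j' (P.l o i' j' - 1)) = .cell i j := by
        simp only [zone]
        rw [if_neg (by omega), if_neg (by omega), ← e1, ← e2]
      rw [hzone] at hc
      refine ⟨hc.symm, Or.inr (Or.inr (Or.inr ⟨o, i', j', h, ?_, ?_, rfl⟩))⟩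
      · rw [e1, e2]
      · rw [e3, e1, e2]

end Pool.Agent.PEmb

end

section

/-!
# R7: the total length argument
-/

set_option autoImplicit false

namespace Pool.Agent.PEmb

namespace ItR7

variable {V : Type} {k : ℕ} {P : Par} {G : SimpleGraph V}

lemma lge (hA : Adm k P) {o : Bool} {i j : ℕ} (h : Ex k o i j) : 10 ≤ P.l o i j := by
  have hi : i < k ∧ j < k := by
    cases o
    · have h' := h
      simp only [Ex, nx] at h'
      omega
    · have h' := h
      simp only [Ex, nx] at h'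
      omega
  have h1 := hA.lbig o i j i j h hi.1 hi.2
  have h2 := hA.z4 i j hi.1 hi.2
  omega

lemma hl_zero (i j d : ℕ) : hl P i j d 0 = .core i j (P.r i j d) := by
  simp [hl]

lemma hl0 (i j s : ℕ) (hs : s ≠ 0) : hl P i j 0 s = .leg false i j s := by
  simp [hl, hs]

lemma hl1 (i j s : ℕ) (hs : s ≠ 0) :
    hl P i j 1 s = .leg false i (j - 1) (P.l false i (j - 1) - s) := by
  simp [hl, hs]

lemma hl2 (i j s : ℕ) (hs : s ≠ 0) : hl P i j 2 s = .leg true i j s := by
  simp [hl, hs]

lemma hl3 (i j s : ℕ) (hs : s ≠ 0) :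
    hl P i j 3 s = .leg true (i - 1) j (P.l true (i - 1) j - s) := by
  simp [hl, hs]

lemma al0 (i j : ℕ) : al P i j 0 = P.l false i j / 2 := by simp [al]
lemma al1 (i j : ℕ) : al P i j 1 = P.l false i (j - 1) - P.l false i (j - 1) / 2 := by simp [al]
lemma al2 (i j : ℕ) : al P i j 2 = P.l true i j / 2 := by simp [al]
lemma al3 (i j : ℕ) : al P i j 3 = P.l true (i - 1) j - P.l true (i - 1) j / 2 := by simp [al]
lemma lg0 (i j : ℕ) : lg P i j 0 = P.l false i j := by simp [lg]
lemma lg1 (i j : ℕ) : lg P i j 1 = P.l false i (j - 1) := by simp [lg]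
lemma lg2 (i j : ℕ) : lg P i j 2 = P.l true i j := by simp [lg]
lemma lg3 (i j : ℕ) : lg P i j 3 = P.l true (i - 1) j := by simp [lg]

/-- the length of the leg of a dart is at least 10 -/
lemma lg_ge (hA : Adm k P) {i j d : ℕ} (h : Dt k i j d) : 10 ≤ lg P i j d := by
  obtain ⟨hi, hj, ⟨rfl, h⟩ | ⟨rfl, h⟩ | ⟨rfl, h⟩ | ⟨rfl, h⟩⟩ := h
  · rw [lg0]; exact lge hA ⟨hi, h⟩
  · rw [lg1]; exact lge hA ⟨hi, by simp only [nx]; omega⟩
  · rw [lg2]; exact lge hA ⟨h, hj⟩
  · rw [lg3]; exact lge hA ⟨by simp only [nx]; omega, hj⟩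

/-- the half leg has length at least 5 -/
lemma al_ge (hA : Adm k P) {i j d : ℕ} (h : Dt k i j d) : 5 ≤ al P i j d := by
  have h10 := lg_ge hA h
  obtain ⟨hi, hj, ⟨rfl, h⟩ | ⟨rfl, h⟩ | ⟨rfl, h⟩ | ⟨rfl, h⟩⟩ := h
  · rw [al0]; rw [lg0] at h10; omega
  · rw [al1]; rw [lg1] at h10; omega
  · rw [al2]; rw [lg2] at h10; omega
  · rw [al3]; rw [lg3] at h10; omega

/-- vertices of the half leg before the port are in the zone of the cell -/
lemma zone_lt (hA : Adm k P) {i j d s : ℕ} (h : Dt k i j d) (hs : s < al P i j d) :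
    zone P (hl P i j d s) = .cell i j := by
  have h10 := lg_ge hA h
  by_cases h0 : s = 0
  · subst h0
    rw [hl_zero]
    rfl
  obtain ⟨hi, hj, ⟨rfl, h⟩ | ⟨rfl, h⟩ | ⟨rfl, h⟩ | ⟨rfl, h⟩⟩ := h
  · rw [al0] at hs
    rw [hl0 _ _ _ h0]
    simp [zone, hs]
  · rw [al1] at hs
    rw [lg1] at h10
    rw [hl1 _ _ _ h0]
    have e1 : ¬ P.l false i (j - 1) - s < P.l false i (j - 1) / 2 := by omega
    have e2 : ¬ P.l false i (j - 1) - s = P.l false i (j - 1) / 2 := by omega
    simp only [zone, e1, e2, if_false, nx]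
    congr 1
    omega
  · rw [al2] at hs
    rw [hl2 _ _ _ h0]
    simp [zone, hs]
  · rw [al3] at hs
    rw [lg3] at h10
    rw [hl3 _ _ _ h0]
    have e1 : ¬ P.l true (i - 1) j - s < P.l true (i - 1) j / 2 := by omega
    have e2 : ¬ P.l true (i - 1) j - s = P.l true (i - 1) j / 2 := by omega
    simp only [zone, e1, e2, if_false, nx]
    congr 1
    omega

/-- the end of the half leg is a port -/
lemma zone_al (hA : Adm k P) {i j d : ℕ} (h : Dt k i j d) :
    zone P (hl P i j d (al P i j d)) = .port (decide (2 ≤ d)) := by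
  have h10 := lg_ge hA h
  have h5 := al_ge hA h
  have h0 : al P i j d ≠ 0 := by omega
  obtain ⟨hi, hj, ⟨rfl, h⟩ | ⟨rfl, h⟩ | ⟨rfl, h⟩ | ⟨rfl, h⟩⟩ := h
  · rw [hl0 _ _ _ h0, al0]
    simp [zone]
  · rw [hl1 _ _ _ h0, al1]
    rw [lg1] at h10
    have e1 : ¬ P.l false i (j - 1) - (P.l false i (j - 1) - P.l false i (j - 1) / 2) <
      P.l false i (j - 1) / 2 := by omega
    have e2 : P.l false i (j - 1) - (P.l false i (j - 1) - P.l false i (j - 1) / 2) =
      P.l false i (j - 1) / 2 := by omega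
    simp only [zone, e1, if_false]
    rw [if_pos e2]
    simp
  · rw [hl2 _ _ _ h0, al2]
    simp [zone]
  · rw [hl3 _ _ _ h0, al3]
    rw [lg3] at h10
    have e1 : ¬ P.l true (i - 1) j - (P.l true (i - 1) j - P.l true (i - 1) j / 2) <
      P.l true (i - 1) j / 2 := by omega
    have e2 : P.l true (i - 1) j - (P.l true (i - 1) j - P.l true (i - 1) j / 2) =
      P.l true (i - 1) j / 2 := by omega
    simp only [zone, e1, if_false]
    rw [if_pos e2]
    simp

/-- the other dart of the same leg -/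
def bar (x : ℕ × ℕ × ℕ) : ℕ × ℕ × ℕ :=
  if x.2.2 = 0 then (x.1, x.2.1 + 1, 1)
  else if x.2.2 = 1 then (x.1, x.2.1 - 1, 0)
  else if x.2.2 = 2 then (x.1 + 1, x.2.1, 3)
  else (x.1 - 1, x.2.1, 2)

/-- all about `bar` -/
lemma bar_spec (P : Par) {i j d : ℕ} (h : Dt k i j d) : ∃ i' j' d', bar (i, j, d) = (i', j', d') ∧
    Dt k i' j' d' ∧ bar (i', j', d') = (i, j, d) ∧ lg P i' j' d' = lg P i j d ∧
    al P i j d + al P i' j' d' = lg P i j d ∧
    ∀ s, 1 ≤ s → s < lg P i j d → hl P i j d s = hl P i' j' d' (lg P i j d - s) := by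
  obtain ⟨hi, hj, ⟨rfl, h⟩ | ⟨rfl, h⟩ | ⟨rfl, h⟩ | ⟨rfl, h⟩⟩ := h
  · refine ⟨i, j + 1, 1, by simp [bar], ⟨hi, h, Or.inr (Or.inl ⟨rfl, by omega⟩)⟩, by simp [bar],
      ?_, ?_, ?_⟩
    · rw [lg0, lg1]; simp
    · rw [lg0, al0, al1]; simp only [Nat.add_sub_cancel]; omega
    · intro s hs hs'
      rw [lg0] at hs' ⊢
      rw [hl0 _ _ _ (by omega), hl1 _ _ _ (by omega)]
      simp only [Nat.add_sub_cancel]
      congr 1
      omega
  · obtain ⟨j', rfl⟩ : ∃ j', j = j' + 1 := ⟨j - 1, by omega⟩
    refine ⟨i, j', 0, by simp [bar], ⟨hi, by omega, Or.inl ⟨rfl, hj⟩⟩, by simp [bar],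
      ?_, ?_, ?_⟩
    · rw [lg0, lg1]; simp
    · rw [lg1, al0, al1]; simp only [Nat.add_sub_cancel]; omega
    · intro s hs hs'
      rw [lg1] at hs' ⊢
      rw [hl0 _ _ _ (by omega), hl1 _ _ _ (by omega)]
      simp only [Nat.add_sub_cancel]
  · refine ⟨i + 1, j, 3, by simp [bar], ⟨h, hj, Or.inr (Or.inr (Or.inr ⟨rfl, by omega⟩))⟩,
      by simp [bar], ?_, ?_, ?_⟩
    · rw [lg2, lg3]; simp
    · rw [lg2, al2, al3]; simp only [Nat.add_sub_cancel]; omega
    · intro s hs hs'
      rw [lg2] at hs' ⊢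
      rw [hl2 _ _ _ (by omega), hl3 _ _ _ (by omega)]
      simp only [Nat.add_sub_cancel]
      congr 1
      omega
  · obtain ⟨i', rfl⟩ : ∃ i', i = i' + 1 := ⟨i - 1, by omega⟩
    refine ⟨i', j, 2, by simp [bar], ⟨by omega, hj, Or.inr (Or.inr (Or.inl ⟨rfl, hi⟩))⟩,
      by simp [bar], ?_, ?_, ?_⟩
    · rw [lg2, lg3]; simp
    · rw [lg3, al2, al3]; simp only [Nat.add_sub_cancel]; omega
    · intro s hs hs'
      rw [lg3] at hs' ⊢
      rw [hl2 _ _ _ (by omega), hl3 _ _ _ (by omega)]
      simp only [Nat.add_sub_cancel]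

end ItR7

open ItR7 in
theorem R7 : PR7 := by
  intro V k P G f val τ hA hE h6 o i j hex
  classical
  set D : Finset (ℕ × ℕ × ℕ) :=
    (Finset.range k ×ˢ Finset.range k ×ˢ Finset.range 4).filter (fun x => Dt k x.1 x.2.1 x.2.2)
    with hD
  have hDm : ∀ x : ℕ × ℕ × ℕ, x ∈ D ↔ Dt k x.1 x.2.1 x.2.2 := by
    intro x
    simp only [hD, Finset.mem_filter, Finset.mem_product, Finset.mem_range]
    constructor
    · exact fun h => h.2
    · intro h
      refine ⟨⟨h.1, h.2.1, ?_⟩, h⟩
      have := h.2.2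
      omega
  set A : ℕ × ℕ × ℕ → ℕ := fun x => al P x.1 x.2.1 x.2.2 with hAdef
  set B : ℕ × ℕ × ℕ → ℕ := fun x => al P x.1 x.2.1 (τ x.1 x.2.1 x.2.2) with hBdef
  -- sum of `B` equals sum of `A`
  have hsum1 : ∑ x ∈ D, B x = ∑ x ∈ D, A x := by
    have hmaps : ∀ x ∈ D, (x.1, x.2.1, τ x.1 x.2.1 x.2.2) ∈ D := by
      intro x hx
      rw [hDm] at hx ⊢
      exact (h6 _ _ _ hx).1
    have hinj : Set.InjOn (fun x : ℕ × ℕ × ℕ => (x.1, x.2.1, τ x.1 x.2.1 x.2.2)) D := by
      rintro ⟨a, b, c⟩ hx ⟨a', b', c'⟩ hy hxy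
      simp only [Prod.mk.injEq] at hxy
      obtain ⟨rfl, rfl, h3⟩ := hxy
      have hx' := (hDm _).1 hx
      have hy' := (hDm _).1 hy
      have := (h6 _ _ _ hx').2.1 _ hy' h3
      simp only at this
      rw [this]
    have himg : D.image (fun x : ℕ × ℕ × ℕ => (x.1, x.2.1, τ x.1 x.2.1 x.2.2)) = D := by
      apply Finset.eq_of_subset_of_card_le
      · intro y hy
        obtain ⟨x, hx, rfl⟩ := Finset.mem_image.1 hy
        exact hmaps x hx
      · rw [Finset.card_image_of_injOn hinj]
    calc ∑ x ∈ D, B x = ∑ x ∈ D, A (x.1, x.2.1, τ x.1 x.2.1 x.2.2) := rfl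
      _ = ∑ y ∈ D.image (fun x : ℕ × ℕ × ℕ => (x.1, x.2.1, τ x.1 x.2.1 x.2.2)), A y := by
          rw [Finset.sum_image hinj]
      _ = ∑ x ∈ D, A x := by rw [himg]
  -- sums over `bar`
  have hbar : ∀ F : ℕ × ℕ × ℕ → ℕ, ∑ x ∈ D, F (bar x) = ∑ x ∈ D, F x := by
    intro F
    refine Finset.sum_nbij' bar bar ?_ ?_ ?_ ?_ ?_
    · rintro ⟨a, b, c⟩ hx
      obtain ⟨a', b', c', e, h1, h2, _⟩ := bar_spec P ((hDm _).1 hx)
      rw [e, hDm]
      exact h1
    · rintro ⟨a, b, c⟩ hx
      obtain ⟨a', b', c', e, h1, h2, _⟩ := bar_spec P ((hDm _).1 hx)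
      rw [e, hDm]
      exact h1
    · rintro ⟨a, b, c⟩ hx
      obtain ⟨a', b', c', e, h1, h2, _⟩ := bar_spec P ((hDm _).1 hx)
      rw [e]
      exact h2
    · rintro ⟨a, b, c⟩ hx
      obtain ⟨a', b', c', e, h1, h2, _⟩ := bar_spec P ((hDm _).1 hx)
      rw [e]
      exact h2
    · intro x hx
      rfl
  -- the claim
  have hle : ∀ x ∈ D, B x + B (bar x) ≤ A x + A (bar x) := by
    rintro ⟨a, b, c⟩ hx
    have hx' := (hDm _).1 hx
    simp only at hx'
    obtain ⟨a', b', c', e, h1, h2, h3, h4, h5⟩ := bar_spec P hx'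
    rw [e]
    simp only [hAdef, hBdef]
    rw [h4]
    by_contra hcon
    rw [not_le] at hcon
    obtain ⟨k1, _, k3, k4⟩ := h6 _ _ _ hx'
    obtain ⟨k1', _, k3', k4'⟩ := h6 _ _ _ h1
    have g1 := al_ge hA k1
    have e1 := (k4 _ le_rfl).1
    rw [h5 _ (by omega) k3] at e1
    have e2 := (k4' (lg P a b c - al P a b (τ a b c)) (by omega)).1
    rw [e1] at e2
    have z1 := zone_al hA k1
    have z2 := zone_lt hA k1' (s := lg P a b c - al P a b (τ a b c)) (by omega)
    rw [e2, z2] at z1
    exact Zone.noConfusion z1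
  have hsumeq : ∑ x ∈ D, (B x + B (bar x)) = ∑ x ∈ D, (A x + A (bar x)) := by
    rw [Finset.sum_add_distrib, Finset.sum_add_distrib, hbar, hbar, hsum1]
  have heq := (Finset.sum_eq_sum_iff_of_le hle).1 hsumeq
  cases o
  · have hd : Dt k i j 0 := by
      have h' := hex
      simp only [Ex, nx] at h'
      exact ⟨h'.1, by omega, Or.inl ⟨rfl, h'.2⟩⟩
    have h := heq (i, j, 0) ((hDm _).2 hd)
    obtain ⟨a', b', c', e, h1, h2, h3, h4, h5⟩ := bar_spec P hd
    rw [e] at h
    simp only [hAdef, hBdef] at h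
    rw [h4, lg0] at h
    have e' : bar (i, j, 0) = (i, j + 1, 1) := by simp [bar]
    rw [e'] at e
    simp only [Prod.mk.injEq] at e
    obtain ⟨rfl, rfl, rfl⟩ := e
    exact h
  · have hd : Dt k i j 2 := by
      have h' := hex
      simp only [Ex, nx] at h'
      exact ⟨by omega, h'.2, Or.inr (Or.inr (Or.inl ⟨rfl, h'.1⟩))⟩
    have h := heq (i, j, 2) ((hDm _).2 hd)
    obtain ⟨a', b', c', e, h1, h2, h3, h4, h5⟩ := bar_spec P hd
    rw [e] at h
    simp only [hAdef, hBdef] at h
    rw [h4, lg2] at h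
    have e' : bar (i, j, 2) = (i + 1, j, 3) := by simp [bar]
    rw [e'] at e
    simp only [Prod.mk.injEq] at e
    obtain ⟨rfl, rfl, rfl⟩ := e
    exact h

end Pool.Agent.PEmb

end

section

/-!
# R9: an embedding gives a clique
-/

set_option autoImplicit false

namespace Pool.Agent.PEmb

theorem R9 (h6 : PR6) (h7 : PR7) (h8 : PR8) : PR9 := by
  intro V k P G f hA hf
  obtain ⟨val, τ, hval, hleg⟩ := h6 k P G f hA hf
  obtain ⟨hrow, hcol⟩ := h8 k P G f val τ hA hf hleg (h7 k P G f val τ hA hf hleg)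
  have hrow' : ∀ i j, i < k → j < k → (val i j).1 = (val i 0).1 := by
    intro i j hi hj
    induction j with
    | zero => rfl
    | succ j ih => rw [← hrow i j hi hj]; exact ih (by omega)
  have hcol' : ∀ i j, i < k → j < k → (val i j).2 = (val 0 j).2 := by
    intro i j hi hj
    induction i with
    | zero => rfl
    | succ i ih => rw [← hcol i j hi hj]; exact ih (by omega)
  have hok : ∀ i j, i < k → j < k → OKv G (.cell i j) (val i j) := by
    intro i j hi hj
    have hz := hA.z4 i j hi hj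
    obtain ⟨s', hs', e⟩ := hval i j 0 hi hj (by omega)
    have := (hf.vx (.core i j 0) ⟨hi, hj, by omega⟩).2
    rw [e] at this
    exact this
  refine ⟨fun i => (val i 0).1, fun i j hi hj hij => ?_⟩
  have h1 := hok i j hi hj
  simp only [OKv] at h1
  rw [if_neg hij, hrow' i j hi hj, hcol' i j hi hj, ← hcol' j j hj hj] at h1
  have h2 := hok j j hj hj
  simp only [OKv] at h2
  rw [if_pos trivial, hrow' j j hj hj] at h2
  rw [← h2] at h1
  exact h1

end Pool.Agent.PEmb

end

section

/-!
# E2: shortest path between two subsets of a connected set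
-/

set_option autoImplicit false

namespace Pool.Agent.PEmb

theorem E2_gl {V : Type} (l : List V) (b : V) : (l ++ [b]).getLast? = some b := by
  simp

theorem E2 : PE2 := by
  intro V G S A B hS hA hB hAn hBn hdis
  classical
  have hex : ∃ n, ∃ a ∈ A, ∃ b ∈ B, ∃ l, IsPth G S a b l ∧ l.length = n := by
    obtain ⟨a, ha⟩ := hAn
    obtain ⟨b, hb⟩ := hBn
    obtain ⟨l, hl⟩ := E1 G S hS a (hA ha) b (hB hb)
    exact ⟨l.length, a, ha, b, hb, l, hl, rfl⟩
  obtain ⟨a, ha, b, hb, l, hl, hlen⟩ := Nat.find_spec hex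
  have hmin : ∀ a' ∈ A, ∀ b' ∈ B, ∀ l', IsPth G S a' b' l' → l.length ≤ l'.length := by
    intro a' ha' b' hb' l' hl'
    rw [hlen]
    exact Nat.find_min' hex ⟨a', ha', b', hb', l', hl', rfl⟩
  obtain ⟨hch, hnd, hhd, hlast, hmem⟩ := hl
  -- shape of `l`
  obtain ⟨t, rfl⟩ : ∃ t, l = a :: t := by
    cases l with
    | nil => simp at hhd
    | cons c t => simp at hhd; exact ⟨t, by rw [hhd]⟩
  have hne : a ≠ b := by
    rintro rfl
    exact (Set.disjoint_left.1 hdis) ha hb
  obtain ⟨rh, rfl⟩ : ∃ rh, t = rh ++ [b] := by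
    rcases List.eq_nil_or_concat t with rfl | ⟨rh, c, rfl⟩
    · simp at hlast; exact absurd hlast hne
    · refine ⟨rh, ?_⟩
      have : (a :: (rh ++ [c])).getLast? = some c := by
        rw [← List.cons_append, List.getLast?_append]; simp
      rw [List.concat_eq_append] at hlast
      rw [this] at hlast
      simp at hlast
      rw [List.concat_eq_append, hlast]
  refine ⟨a, ha, b, hb, rh, ⟨hch, hnd, hhd, hlast, hmem⟩, ?_⟩
  intro x hx
  obtain ⟨s, t, rfl⟩ := List.append_of_mem hx
  constructor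
  · intro hxA
    have hsub : IsPth G S x b (x :: t ++ [b]) := by
      have e : a :: (s ++ x :: t ++ [b]) = (a :: s) ++ (x :: t ++ [b]) := by simp
      rw [e] at hch hnd hmem
      refine ⟨hch.right_of_append, (List.nodup_append.1 hnd).2.1, rfl, E2_gl _ _, ?_⟩
      intro y hy
      exact hmem y (List.mem_append.2 (Or.inr hy))
    have h1 := hmin x hxA b hb _ hsub
    simp only [List.length_cons, List.length_append, List.length_nil] at h1
    omega
  · intro hxB
    have hsub : IsPth G S a x (a :: s ++ [x]) := by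
      have e : a :: (s ++ x :: t ++ [b]) = (a :: s ++ [x]) ++ (t ++ [b]) := by simp
      rw [e] at hch hnd hmem
      refine ⟨hch.left_of_append, (List.nodup_append.1 hnd).1, rfl, E2_gl _ _, ?_⟩
      intro y hy
      exact hmem y (List.mem_append.2 (Or.inl hy))
    have h1 := hmin a ha x hxB _ hsub
    simp only [List.length_cons, List.length_append, List.length_nil] at h1
    omega

end Pool.Agent.PEmb

end

section

/-!
# M2: the reduction `redM` is computed in polynomial time
-/

set_option autoImplicit false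

namespace Pool.Agent.PEmb

open Pool.Agent.PT N487b59b3 Pool.Agent.Work.MP_5296b6_lc

namespace IM2

variable {α : Type} [Enc α]

theorem ptf_prod {A B : α → Code} (hA : PTF A) (hB : PTF B) :
    PTF (fun t => prod (A t) (B t)) := by
  unfold prod
  have hr : PTF (fun t => List.range ((A t).length * (B t).length)) :=
    (hA.length.mul hB.length).range
  refine PTF.map' (f := fun t p => (List.range ((A t).length * (B t).length)).map fun q =>
    decide (p / (B t).length ≠ q / (B t).length) && decide (p % (B t).length ≠ q % (B t).length) &&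
      (!(adjB (A t) (p / (B t).length) (q / (B t).length)) ||
        adjB (B t) (p % (B t).length) (q % (B t).length))) ?_ hr
  refine PTF.map' (f := fun (t : α × ℕ) q =>
    decide (t.2 / (B t.1).length ≠ q / (B t.1).length) &&
      decide (t.2 % (B t.1).length ≠ q % (B t.1).length) &&
      (!(adjB (A t.1) (t.2 / (B t.1).length) (q / (B t.1).length)) ||
        adjB (B t.1) (t.2 % (B t.1).length) (q % (B t.1).length))) ?_ (hr.comp PTF.fst)
  have hA' : PTF (fun p : (α × ℕ) × ℕ => A p.1.1) := hA.comp (PTF.fst.comp PTF.fst)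
  have hB' : PTF (fun p : (α × ℕ) × ℕ => B p.1.1) := hB.comp (PTF.fst.comp PTF.fst)
  have hp : PTF (fun p : (α × ℕ) × ℕ => p.1.2) := PTF.snd.comp PTF.fst
  have hq : PTF (fun p : (α × ℕ) × ℕ => p.2) := PTF.snd
  have hl : PTF (fun p : (α × ℕ) × ℕ => (B p.1.1).length) := hB'.length
  exact (((hp.div hl).ne (hq.div hl)).and ((hp.mod hl).ne (hq.mod hl))).and
    ((IQ9.ptf_adjB hA' (hp.div hl) (hq.div hl)).not.or
      (IQ9.ptf_adjB hB' (hp.mod hl) (hq.mod hl)))

end IM2

theorem M2 : PM2 := by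
  unfold PM2 N68a2faeb.IsPolyTime N68a2faeb.IsPolyTimeWithEncoding
  have h1 : PTF (fun x : List Bool => IQ9.dLL (pPair x).1) :=
    IQ9.ptf_dLL.comp (PTF.fst.comp IQ9.ptf_pPair)
  have h2 : PTF (fun x : List Bool => IQ9.dLL (pPair (pPair x).2).1) :=
    IQ9.ptf_dLL.comp (PTF.fst.comp (IQ9.ptf_pPair.comp (PTF.snd.comp IQ9.ptf_pPair)))
  have h3 : PTF (fun x : List Bool => IQ9.dLL (pPair (pPair x).2).2) :=
    IQ9.ptf_dLL.comp (PTF.snd.comp (IQ9.ptf_pPair.comp (PTF.snd.comp IQ9.ptf_pPair)))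
  have h5 : EncP Code := EncP.list (EncP.list EncP.bool)
  have h6 : PTF (fun x : List Bool => redM (IQ9.dLL (pPair x).1,
      (IQ9.dLL (pPair (pPair x).2).1, IQ9.dLL (pPair (pPair x).2).2))) := by
    unfold redM
    exact PTF.ite ((PTF.mem (h5.apply h2) h1).congr fun a => decide_eq_decide.2 Iff.rfl)
      ((IM2.ptf_prod h2 h3).pair h2.length) (PTF.const _)
  have h4 : EncP (Code × ℕ) := EncP.prod h5 EncP.nat
  refine tm2_of (g := fun x => bitEncode (redM (IQ9.dLL (pPair x).1,
      (IQ9.dLL (pPair (pPair x).2).1, IQ9.dLL (pPair (pPair x).2).2)))) (h4.apply h6) ?_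
  intro x
  obtain ⟨a, G, k⟩ := x
  have e1 : pPair (bitEncode (a, (G, k))) = (bitEncode a, bitEncode (G, k)) := pPair_eq _
  have e2 : pPair (bitEncode (G, k)) = (bitEncode G, bitEncode k) := pPair_eq _
  show bitEncode (redM (IQ9.dLL (pPair (bitEncode (a, (G, k)))).1,
      (IQ9.dLL (pPair (pPair (bitEncode (a, (G, k)))).2).1,
        IQ9.dLL (pPair (pPair (bitEncode (a, (G, k)))).2).2))) = bitEncode _
  rw [e1]
  dsimp only
  rw [e2]
  dsimp only
  rw [IQ9.dLL_eq, IQ9.dLL_eq, IQ9.dLL_eq]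

end Pool.Agent.PEmb

end

section

/-!
# R8: neighbouring cells have compatible values
-/

set_option autoImplicit false

namespace Pool.Agent.PEmb

namespace ItR8

open ItR7

variable {V : Type} {k : ℕ} {P : Par} {G : SimpleGraph V}

/-- consecutive vertices of a leg are adjacent -/
lemma adj_hl (hA : Adm k P) {i j d s : ℕ} (h : Dt k i j d) (hs : s + 1 < lg P i j d) :
    AAdj k P (hl P i j d s) (hl P i j d (s + 1)) := by
  have h10 := lg_ge hA h
  obtain ⟨hi, hj, ⟨rfl, h⟩ | ⟨rfl, h⟩ | ⟨rfl, h⟩ | ⟨rfl, h⟩⟩ := h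
  · have hex : Ex k false i j := ⟨hi, h⟩
    rw [lg0] at hs
    by_cases h0 : s = 0
    · subst h0
      rw [hl_zero, hl0 _ _ _ (by omega)]
      exact Or.inl (AE.out false i j hex)
    · rw [hl0 _ _ _ h0, hl0 _ _ _ (by omega)]
      exact Or.inl (AE.step false i j s hex (by omega) hs)
  · obtain ⟨j', rfl⟩ : ∃ j', j = j' + 1 := ⟨j - 1, by omega⟩
    have hex : Ex k false i j' := ⟨hi, hj⟩
    rw [lg1] at hs
    simp only [Nat.add_sub_cancel] at hs
    by_cases h0 : s = 0
    · subst h0
      rw [hl_zero, hl1 _ _ _ (by omega)]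
      simp only [Nat.add_sub_cancel, Nat.zero_add]
      exact Or.inr (AE.inn false i j' hex)
    · rw [hl1 _ _ _ h0, hl1 _ _ _ (by omega)]
      simp only [Nat.add_sub_cancel]
      have h1 := AE.step (k := k) (P := P) false i j' (P.l false i j' - (s + 1)) hex (by omega)
        (by omega)
      have e : P.l false i j' - (s + 1) + 1 = P.l false i j' - s := by omega
      rw [e] at h1
      exact Or.inr h1
  · have hex : Ex k true i j := ⟨h, hj⟩
    rw [lg2] at hs
    by_cases h0 : s = 0
    · subst h0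
      rw [hl_zero, hl2 _ _ _ (by omega)]
      exact Or.inl (AE.out true i j hex)
    · rw [hl2 _ _ _ h0, hl2 _ _ _ (by omega)]
      exact Or.inl (AE.step true i j s hex (by omega) hs)
  · obtain ⟨i', rfl⟩ : ∃ i', i = i' + 1 := ⟨i - 1, by omega⟩
    have hex : Ex k true i' j := ⟨hi, hj⟩
    rw [lg3] at hs
    simp only [Nat.add_sub_cancel] at hs
    by_cases h0 : s = 0
    · subst h0
      rw [hl_zero, hl3 _ _ _ (by omega)]
      simp only [Nat.add_sub_cancel, Nat.zero_add]
      exact Or.inr (AE.inn true i' j hex)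
    · rw [hl3 _ _ _ h0, hl3 _ _ _ (by omega)]
      simp only [Nat.add_sub_cancel]
      have h1 := AE.step (k := k) (P := P) true i' j (P.l true i' j - (s + 1)) hex (by omega)
        (by omega)
      have e : P.l true i' j - (s + 1) + 1 = P.l true i' j - s := by omega
      rw [e] at h1
      exact Or.inr h1

lemma comp_symm {z z' : Zone} {p q : V × V} (h : Comp z z' p q) : Comp z' z q p := by
  cases z with
  | cell i j =>
    cases z' with
    | cell i' j' => exact Eq.symm h
    | port o => cases o <;> exact Eq.symm h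
  | port o =>
    cases z' with
    | cell i' j' => cases o <;> exact Eq.symm h
    | port o' => cases o <;> cases o' <;> exact False.elim h

/-- the value of the port vertex on the image of a dart is compatible with the value of the
cell -/
lemma comp_port {f : Lab → Lab × (V × V)} {val : ℕ → ℕ → V × V} {τ : ℕ → ℕ → ℕ → ℕ}
    (hA : Adm k P) (hE : IsEmb k P G f) (h6 : Leg6 k P f val τ) {i j d : ℕ} (h : Dt k i j d) :
    Comp (.cell i j) (.port (decide (2 ≤ τ i j d))) (val i j)
      (f (hl P i j d (al P i j (τ i j d)))).2 := by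
  obtain ⟨k1, _, k3, k4⟩ := h6 _ _ _ h
  have g1 := al_ge hA k1
  obtain ⟨a, ha⟩ : ∃ a, al P i j (τ i j d) = a + 1 := ⟨al P i j (τ i j d) - 1, by omega⟩
  rw [ha] at k3
  have hadj := adj_hl hA h k3
  have hH : Comp (zone P (f (hl P i j d a)).1) (zone P (f (hl P i j d (a + 1))).1)
      (f (hl P i j d a)).2 (f (hl P i j d (a + 1))).2 := by
    rcases hadj with h1 | h1
    · exact (hE.adj _ _ h1).2.2.2
    · exact comp_symm (hE.adj _ _ h1).2.2.2
  have e1 := k4 a (by omega)
  have e2 := k4 (a + 1) (by omega)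
  rw [e1.1, e2.1, e1.2 (by omega), zone_lt hA k1 (by omega), ← ha, zone_al hA k1] at hH
  exact hH

end ItR8

open ItR7 ItR8 in
theorem R8 : PR8 := by
  intro V k P G f val τ hA hE h6 hlen
  refine ⟨?_, ?_⟩
  · intro i j hi hj
    have hex : Ex k false i j := ⟨hi, hj⟩
    have d1 : Dt k i j 0 := ⟨hi, by omega, Or.inl ⟨rfl, hj⟩⟩
    have d2 : Dt k i (j + 1) 1 := ⟨hi, hj, Or.inr (Or.inl ⟨rfl, by omega⟩)⟩
    have hl1' := hlen false i j hex
    simp only [nx, ro, ri] at hl1'
    have c1 := comp_port hA hE h6 d1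
    have c2 := comp_port hA hE h6 d2
    obtain ⟨k1, _, _, k4⟩ := h6 _ _ _ d1
    obtain ⟨k1', _, _, k4'⟩ := h6 _ _ _ d2
    have g1 := al_ge hA k1
    have g1' := al_ge hA k1'
    have e1 := (k4 _ le_rfl).1
    have e2 := (k4' _ le_rfl).1
    have hv : hl P i j 0 (al P i j (τ i j 0)) = hl P i (j + 1) 1 (al P i (j + 1) (τ i (j + 1) 1)) := by
      rw [hl0 _ _ _ (by omega), hl1 _ _ _ (by omega)]
      simp only [Nat.add_sub_cancel]
      congr 1
      omega
    rw [hv, e2] at e1
    rw [hv] at c1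
    have n1 : al P i j (τ i j 0) ≠ 0 := by omega
    have n2 : al P i (j + 1) (τ i (j + 1) 1) ≠ 0 := by omega
    have hz1 := zone_al hA k1
    have hz2 := zone_al hA k1'
    have hτ1 : τ i j 0 = 0 ∨ τ i j 0 = 1 ∨ τ i j 0 = 2 ∨ τ i j 0 = 3 := by
      have := k1.2.2
      omega
    have hτ2 : τ i (j + 1) 1 = 0 ∨ τ i (j + 1) 1 = 1 ∨ τ i (j + 1) 1 = 2 ∨ τ i (j + 1) 1 = 3 := by
      have := k1'.2.2
      omega
    have hkey : τ i j 0 = 0 ∧ τ i (j + 1) 1 = 1 := by
      have hd1 := k1.2.2
      have hd2 := k1'.2.2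
      rcases hτ1 with h | h | h | h <;> rcases hτ2 with h' | h' | h' | h' <;>
        rw [h] at e1 n1 hd1 <;> rw [h'] at e1 n2 hd2 <;>
        simp only [hl, n1, n2, if_false, if_true, Lab.leg.injEq, one_ne_zero, OfNat.ofNat_ne_zero,
          OfNat.ofNat_ne_one, reduceCtorEq, false_and, true_and] at e1 <;>
        first
          | (exact ⟨h, h'⟩)
          | (exfalso; simp at e1; omega)
          | (exfalso; simp at e1)
          | (exfalso; omega)
    rw [hkey.1] at c1
    rw [hkey.2] at c2 c1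
    simp only [Comp] at c1 c2
    have c1' : (val i j).1 = _ := c1
    have c2' : (val i (j + 1)).1 = _ := c2
    rw [c1', c2']
  · intro i j hi hj
    have hex : Ex k true i j := ⟨hi, hj⟩
    have d1 : Dt k i j 2 := ⟨by omega, hj, Or.inr (Or.inr (Or.inl ⟨rfl, hi⟩))⟩
    have d2 : Dt k (i + 1) j 3 := ⟨hi, hj, Or.inr (Or.inr (Or.inr ⟨rfl, by omega⟩))⟩
    have hl1' := hlen true i j hex
    simp only [nx, ro, ri] at hl1'
    have c1 := comp_port hA hE h6 d1
    have c2 := comp_port hA hE h6 d2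
    obtain ⟨k1, _, _, k4⟩ := h6 _ _ _ d1
    obtain ⟨k1', _, _, k4'⟩ := h6 _ _ _ d2
    have g1 := al_ge hA k1
    have g1' := al_ge hA k1'
    have e1 := (k4 _ le_rfl).1
    have e2 := (k4' _ le_rfl).1
    have hv : hl P i j 2 (al P i j (τ i j 2)) = hl P (i + 1) j 3 (al P (i + 1) j (τ (i + 1) j 3)) := by
      rw [hl2 _ _ _ (by omega), hl3 _ _ _ (by omega)]
      simp only [Nat.add_sub_cancel]
      congr 1
      omega
    rw [hv, e2] at e1
    rw [hv] at c1
    have n1 : al P i j (τ i j 2) ≠ 0 := by omega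
    have n2 : al P (i + 1) j (τ (i + 1) j 3) ≠ 0 := by omega
    have hτ1 : τ i j 2 = 0 ∨ τ i j 2 = 1 ∨ τ i j 2 = 2 ∨ τ i j 2 = 3 := by
      have := k1.2.2
      omega
    have hτ2 : τ (i + 1) j 3 = 0 ∨ τ (i + 1) j 3 = 1 ∨ τ (i + 1) j 3 = 2 ∨ τ (i + 1) j 3 = 3 := by
      have := k1'.2.2
      omega
    have hkey : τ i j 2 = 2 ∧ τ (i + 1) j 3 = 3 := by
      have hd1 := k1.2.2
      have hd2 := k1'.2.2
      rcases hτ1 with h | h | h | h <;> rcases hτ2 with h' | h' | h' | h' <;>
        rw [h] at e1 n1 hd1 <;> rw [h'] at e1 n2 hd2 <;>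
        simp only [hl, n1, n2, if_false, if_true, Lab.leg.injEq, one_ne_zero, OfNat.ofNat_ne_zero,
          OfNat.ofNat_ne_one, reduceCtorEq, false_and, true_and] at e1 <;>
        first
          | (exact ⟨h, h'⟩)
          | (exfalso; simp at e1; omega)
          | (exfalso; simp at e1)
          | (exfalso; omega)
    rw [hkey.1] at c1
    rw [hkey.2] at c2 c1
    simp only [Comp] at c1 c2
    have c1' : (val i j).2 = _ := c1
    have c2' : (val (i + 1) j).2 = _ := c2
    rw [c1', c2']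

end Pool.Agent.PEmb

end

section

/-!
# Common lemmas for R4, R5, R6
-/

set_option autoImplicit false

namespace Pool.Agent.PEmb

namespace ItRC

open ItR7 ItR8

variable {V : Type} {k : ℕ} {P : Par} {G : SimpleGraph V}

lemma hadj_symm {p q : Lab × (V × V)} (h : HAdj k P G p q) : HAdj k P G q p :=
  ⟨h.1.symm, h.2.2.1, h.2.1, comp_symm h.2.2.2⟩

lemma map_adj {f : Lab → Lab × (V × V)} (hE : IsEmb k P G f) {x y : Lab} (h : AAdj k P x y) :
    HAdj k P G (f x) (f y) := by
  rcases h with h | h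
  · exact hE.adj x y h
  · exact hadj_symm (hE.adj y x h)

lemma ex_lt {o : Bool} {i j : ℕ} (h : Ex k o i j) : i < k ∧ j < k := by
  cases o <;> simp only [Ex, nx] at h <;> omega

/-- a neighbour of a vertex in a cell zone is determined by its label -/
lemma uniq {p q q' : Lab × (V × V)} (h : HAdj k P G p q) (h' : HAdj k P G p q')
    (e : q.1 = q'.1) (hp : ∀ o, zone P p.1 ≠ .port o) : q = q' := by
  obtain ⟨x, v⟩ := p
  obtain ⟨y, w⟩ := q
  obtain ⟨y', w'⟩ := q'
  simp only at e hp
  subst e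
  have hc : Comp (zone P x) (zone P y) v w := h.2.2.2
  have hc' : Comp (zone P x) (zone P y) v w' := h'.2.2.2
  have ho : OKv G (zone P y) w := h.2.2.1.2
  have ho' : OKv G (zone P y) w' := h'.2.2.1.2
  have hw : w = w' := by
    revert hc hc' ho ho'
    generalize hz : zone P y = z2
    generalize hz' : zone P x = z1
    intro hc hc' ho ho'
    cases z1 with
    | port o => exact absurd hz' (hp o)
    | cell i j =>
      cases z2 with
      | cell i' j' =>
        have h1 : v = w := hc
        have h2 : v = w' := hc'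
        rw [← h1, ← h2]
      | port o =>
        have h3 : w.1 = w.2 := ho
        have h4 : w'.1 = w'.2 := ho'
        cases o
        · have h1 : v.1 = w.1 := hc
          have h2 : v.1 = w'.1 := hc'
          exact Prod.ext (h1.symm.trans h2) (by rw [← h3, ← h4]; exact h1.symm.trans h2)
        · have h1 : v.2 = w.2 := hc
          have h2 : v.2 = w'.2 := hc'
          exact Prod.ext (by rw [h3, h4]; exact h1.symm.trans h2) (h1.symm.trans h2)
  rw [hw]

/-- the vertices of the pattern at an edge -/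
lemma ae_vx (hA : Adm k P) {x y : Lab} (h : AE k P x y) : Vx k P x ∧ Vx k P y := by
  cases h with
  | cyc i j s hi hj hs => exact ⟨⟨hi, hj, by omega⟩, ⟨hi, hj, hs⟩⟩
  | close i j hi hj =>
    have hz := hA.z4 i j hi hj
    exact ⟨⟨hi, hj, by omega⟩, ⟨hi, hj, by omega⟩⟩
  | out o i j h =>
    obtain ⟨hi, hj⟩ := ex_lt h
    have hl := lge hA h
    exact ⟨⟨hi, hj, hA.rlt i j _ hi hj (by cases o <;> simp [ro])⟩, ⟨h, by omega, by omega⟩⟩
  | inn o i j h =>
    have hl := lge hA h
    exact ⟨⟨h, by omega, by omega⟩,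
      ⟨h.1, h.2, hA.rlt _ _ _ h.1 h.2 (by cases o <;> simp [ri])⟩⟩
  | step o i j s h hs hl => exact ⟨⟨h, hs, by omega⟩, ⟨h, by omega, hl⟩⟩

lemma adj_vx (hA : Adm k P) {x y : Lab} (h : AAdj k P x y) : Vx k P x ∧ Vx k P y := by
  rcases h with h | h
  · exact ae_vx hA h
  · exact ⟨(ae_vx hA h).2, (ae_vx hA h).1⟩

/-- two different neighbours in the pattern are mapped to vertices with different labels, unless
the vertex itself is mapped to a port -/
lemma lab_ne (hA : Adm k P) {f : Lab → Lab × (V × V)} (hE : IsEmb k P G f) {x y y' : Lab}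
    (h : AAdj k P x y) (h' : AAdj k P x y') (hne : y ≠ y') (hp : ∀ o, zone P (f x).1 ≠ .port o) :
    (f y).1 ≠ (f y').1 := fun e =>
  hne (hE.inj y y' (adj_vx hA h).2 (adj_vx hA h').2 (uniq (map_adj hE h) (map_adj hE h') e hp))

/-- the next vertex on the cycle -/
lemma cyc_adj (hA : Adm k P) {i j s : ℕ} (hi : i < k) (hj : j < k) (hs : s < P.z i j) :
    AAdj k P (.core i j s) (.core i j ((s + 1) % P.z i j)) := by
  have hz := hA.z4 i j hi hj
  rcases Nat.lt_or_ge (s + 1) (P.z i j) with h | h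
  · rw [Nat.mod_eq_of_lt h]
    exact Or.inl (AE.cyc i j s hi hj h)
  · have e : s = P.z i j - 1 := by omega
    have e2 : (s + 1) % P.z i j = 0 := by
      rw [show s + 1 = P.z i j by omega, Nat.mod_self]
    rw [e2, e]
    exact Or.inl (AE.close i j hi hj)

/-- the vertex before on the cycle -/
lemma cyc_adj' (hA : Adm k P) {i j s : ℕ} (hi : i < k) (hj : j < k) (hs : s < P.z i j) :
    AAdj k P (.core i j s) (.core i j ((s + P.z i j - 1) % P.z i j)) := by
  have hz := hA.z4 i j hi hj
  have hlt : (s + P.z i j - 1) % P.z i j < P.z i j := Nat.mod_lt _ (by omega)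
  have h := cyc_adj hA hi hj hlt
  have e : ((s + P.z i j - 1) % P.z i j + 1) % P.z i j = s := by
    rw [Nat.mod_add_mod, show s + P.z i j - 1 + 1 = s + P.z i j by omega, Nat.add_mod_right,
      Nat.mod_eq_of_lt hs]
  rw [e] at h
  exact h.symm

lemma succ_ne_pred (hA : Adm k P) {i j s : ℕ} (hi : i < k) (hj : j < k) (hs : s < P.z i j) :
    (s + 1) % P.z i j ≠ (s + P.z i j - 1) % P.z i j := by
  have hz := hA.z4 i j hi hj
  intro h
  have h1 : (s + 1 + 1) % P.z i j = s % P.z i j := by
    rw [← Nat.mod_add_mod, h, Nat.mod_add_mod, show s + P.z i j - 1 + 1 = s + P.z i j by omega,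
      Nat.add_mod_right]
  rw [Nat.mod_eq_of_lt hs] at h1
  rcases Nat.lt_or_ge (s + 1 + 1) (P.z i j) with h2 | h2
  · rw [Nat.mod_eq_of_lt h2] at h1
    omega
  · rw [Nat.mod_eq_sub_mod h2, Nat.mod_eq_of_lt (by omega)] at h1
    omega

/-- a half leg in terms of the leg -/
lemma dt_cases {i j d : ℕ} (h : Dt k i j d) : (∃ o, Ex k o i j ∧ d = ro o) ∨
    (∃ o a b, Ex k o a b ∧ i = (nx o a b).1 ∧ j = (nx o a b).2 ∧ d = ri o) := by
  obtain ⟨hi, hj, ⟨rfl, h⟩ | ⟨rfl, h⟩ | ⟨rfl, h⟩ | ⟨rfl, h⟩⟩ := h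
  · exact Or.inl ⟨false, ⟨hi, h⟩, rfl⟩
  · obtain ⟨j', rfl⟩ : ∃ j', j = j' + 1 := ⟨j - 1, by omega⟩
    exact Or.inr ⟨false, i, j', ⟨hi, hj⟩, rfl, rfl, rfl⟩
  · exact Or.inl ⟨true, ⟨h, hj⟩, rfl⟩
  · obtain ⟨i', rfl⟩ : ∃ i', i = i' + 1 := ⟨i - 1, by omega⟩
    exact Or.inr ⟨true, i', j, ⟨hi, hj⟩, rfl, rfl, rfl⟩

lemma hl_ro (o : Bool) (i j s : ℕ) (hs : s ≠ 0) : hl P i j (ro o) s = .leg o i j s := by
  cases o <;> simp [hl, ro, hs]

lemma hl_ri (o : Bool) (a b s : ℕ) (hs : s ≠ 0) :
    hl P (nx o a b).1 (nx o a b).2 (ri o) s = .leg o a b (P.l o a b - s) := by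
  cases o <;> simp [hl, ri, nx, hs]

lemma al_ro (o : Bool) (i j : ℕ) : al P i j (ro o) = P.l o i j / 2 := by
  cases o <;> simp [al, ro]

lemma al_ri (o : Bool) (a b : ℕ) :
    al P (nx o a b).1 (nx o a b).2 (ri o) = P.l o a b - P.l o a b / 2 := by
  cases o <;> simp [al, ri, nx]

lemma lg_ro (o : Bool) (i j : ℕ) : lg P i j (ro o) = P.l o i j := by
  cases o <;> simp [lg, ro]

lemma lg_ri (o : Bool) (a b : ℕ) : lg P (nx o a b).1 (nx o a b).2 (ri o) = P.l o a b := by
  cases o <;> simp [lg, ri, nx]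

lemma dt_ro {o : Bool} {i j : ℕ} (h : Ex k o i j) : Dt k i j (ro o) := by
  obtain ⟨hi, hj⟩ := ex_lt h
  cases o
  · exact ⟨hi, hj, Or.inl ⟨rfl, h.2⟩⟩
  · exact ⟨hi, hj, Or.inr (Or.inr (Or.inl ⟨rfl, h.1⟩))⟩

lemma dt_ri {o : Bool} {a b : ℕ} (h : Ex k o a b) : Dt k (nx o a b).1 (nx o a b).2 (ri o) := by
  cases o
  · exact ⟨h.1, h.2, Or.inr (Or.inl ⟨rfl, Nat.succ_le_succ (Nat.zero_le _)⟩)⟩
  · exact ⟨h.1, h.2, Or.inr (Or.inr (Or.inr ⟨rfl, Nat.succ_le_succ (Nat.zero_le _)⟩))⟩

/-- R1 and R2 in terms of half legs -/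
lemma hl_nb (h1 : PR1) (h2 : PR2) (hA : Adm k P) {i j d s : ℕ} (h : Dt k i j d) (hs : 1 ≤ s)
    (hs' : s < al P i j d) {v : V × V} {q : Lab × (V × V)}
    (hadj : HAdj k P G (hl P i j d s, v) q) :
    q = (hl P i j d (s - 1), v) ∨
      (q.1 = hl P i j d (s + 1) ∧ (s + 1 < al P i j d → q.2 = v)) := by
  rcases dt_cases h with ⟨o, hex, rfl⟩ | ⟨o, a, b, hex, rfl, rfl, rfl⟩
  · rw [hl_ro _ _ _ _ (by omega)] at hadj
    rw [al_ro] at hs' ⊢
    rcases h1 k P G hA o i j s v q hs' hadj with h | h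
    · left
      rw [h]
      by_cases e : s = 1
      · subst e
        rw [if_pos rfl, show 1 - 1 = 0 from rfl, hl_zero]
      · rw [if_neg e, hl_ro _ _ _ _ (by omega)]
    · right
      rw [hl_ro _ _ _ _ (by omega)]
      exact h
  · have hl := lge hA hex
    rw [hl_ri _ _ _ _ (by omega)] at hadj
    rw [al_ri] at hs' ⊢
    rcases h2 k P G hA o a b (P.l o a b - s) v q (by omega) hadj with h | h
    · left
      rw [h]
      by_cases e : s = 1
      · subst e
        rw [if_pos (by omega), show 1 - 1 = 0 from rfl, hl_zero]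
      · rw [if_neg (by omega), hl_ri _ _ _ _ (by omega),
          show P.l o a b - s + 1 = P.l o a b - (s - 1) by omega]
    · right
      rw [hl_ri _ _ _ _ (by omega), show P.l o a b - (s + 1) = P.l o a b - s - 1 by omega]
      exact ⟨h.1, fun h3 => h.2 (by omega)⟩

/-- a leg vertex which is not a port is on a half leg -/
lemma leg_hl (hA : Adm k P) {x : Lab} (hx : Vx k P x) (hp : ∀ o, zone P x ≠ .port o) :
    (∃ i j s, x = .core i j s ∧ i < k ∧ j < k ∧ s < P.z i j) ∨
      (∃ i j d s, Dt k i j d ∧ 1 ≤ s ∧ s < al P i j d ∧ x = hl P i j d s) := by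
  cases x with
  | core i j s => exact Or.inl ⟨i, j, s, rfl, hx⟩
  | leg o i j s =>
    right
    obtain ⟨hex, h1, h2⟩ := hx
    rcases lt_trichotomy s (P.l o i j / 2) with h | h | h
    · exact ⟨i, j, ro o, s, dt_ro hex, h1, by rw [al_ro]; exact h,
        by rw [hl_ro _ _ _ _ (by omega)]⟩
    · exfalso
      apply hp o
      simp only [zone]
      rw [if_neg (by omega), if_pos h]
    · refine ⟨(nx o i j).1, (nx o i j).2, ri o, P.l o i j - s, dt_ri hex, by omega,
        by rw [al_ri]; omega, ?_⟩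
      rw [hl_ri _ _ _ _ (by omega), show P.l o i j - (P.l o i j - s) = s by omega]

end ItRC

end Pool.Agent.PEmb

end

section

/-!
# R4: core vertices are not mapped to ports
-/

set_option autoImplicit false

namespace Pool.Agent.PEmb

namespace ItR4

open ItR7 ItR8 ItRC

variable {V : Type} {k : ℕ} {P : Par} {G : SimpleGraph V}

lemma al_big (hA : Adm k P) {a b d i j : ℕ} (h : Dt k a b d) (hi : i < k) (hj : j < k) :
    P.z i j + 1 ≤ al P a b d := by
  rcases dt_cases h with ⟨o, hex, rfl⟩ | ⟨o, a', b', hex, rfl, rfl, rfl⟩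
  · have := hA.lbig o a b i j hex hi hj
    rw [al_ro]; omega
  · have := hA.lbig o a' b' i j hex hi hj
    rw [al_ri]; omega

/-- neighbours of a port -/
lemma port_nb (hA : Adm k P) {o : Bool} {a b : ℕ} {p q : Lab × (V × V)} (hex : Ex k o a b)
    (hp : p.1 = .leg o a b (P.l o a b / 2)) (h : HAdj k P G p q) :
    ∃ a' b' d, Dt k a' b' d ∧ p.1 = hl P a' b' d (al P a' b' d) ∧
      q.1 = hl P a' b' d (al P a' b' d - 1) := by
  have hl10 := lge hA hex
  have key : q.1 = .leg o a b (P.l o a b / 2 - 1) ∨ q.1 = .leg o a b (P.l o a b / 2 + 1) := by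
    have h' := h.1
    rw [hp] at h'
    generalize q.1 = y at h'
    rcases h' with h' | h'
    · generalize hx : Lab.leg o a b (P.l o a b / 2) = x at h'
      cases h' with
      | cyc => cases hx
      | close => cases hx
      | out => cases hx
      | step o' i' j' s' h' hs' hl' =>
        cases hx
        exact Or.inr rfl
      | inn o' i' j' h' =>
        exfalso
        simp only [Lab.leg.injEq] at hx
        obtain ⟨rfl, rfl, rfl, hx⟩ := hx
        omega
    · generalize hx : Lab.leg o a b (P.l o a b / 2) = x at h'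
      cases h' with
      | cyc => cases hx
      | close => cases hx
      | out o' i' j' h' =>
        exfalso
        simp only [Lab.leg.injEq] at hx
        obtain ⟨rfl, rfl, rfl, hx⟩ := hx
        omega
      | step o' i' j' s' h' hs' hl' =>
        simp only [Lab.leg.injEq] at hx
        obtain ⟨rfl, rfl, rfl, hx⟩ := hx
        left
        rw [hx, Nat.add_sub_cancel]
      | inn => cases hx
  rcases key with e | e
  · refine ⟨a, b, ro o, dt_ro hex, ?_, ?_⟩
    · rw [al_ro, hl_ro _ _ _ _ (by omega), hp]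
    · rw [al_ro, hl_ro _ _ _ _ (by omega), e]
  · refine ⟨(nx o a b).1, (nx o a b).2, ri o, dt_ri hex, ?_, ?_⟩
    · rw [al_ri, hl_ri _ _ _ _ (by omega), hp]
      congr 1
      omega
    · rw [al_ri, hl_ri _ _ _ _ (by omega), e]
      congr 1
      omega

/-- walking away from a port -/
lemma walk (h1 : PR1) (h2 : PR2) (hA : Adm k P) {f : Lab → Lab × (V × V)} (hE : IsEmb k P G f)
    (y : ℕ → Lab) (t : ℕ) (hy : ∀ m, m < t → AAdj k P (y m) (y (m + 1)))
    (hne : ∀ m, m + 2 ≤ t → y m ≠ y (m + 2)) {a b d : ℕ} (h : Dt k a b d)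
    (e0 : (f (y 0)).1 = hl P a b d (al P a b d))
    (e1 : (f (y 1)).1 = hl P a b d (al P a b d - 1)) (ht : t < al P a b d) :
    ∀ m, m ≤ t → (f (y m)).1 = hl P a b d (al P a b d - m) := by
  intro m
  induction m using Nat.strong_induction_on with
  | _ m ih =>
    intro hm
    match m, ih, hm with
    | 0, _, _ => exact e0
    | 1, _, _ => exact e1
    | m + 2, ih, hm =>
      have i1 := ih (m + 1) (by omega) (by omega)
      have i0 := ih m (by omega) (by omega)
      have hadj := map_adj hE (hy (m + 1) (by omega))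
      have hpair : f (y (m + 1)) = (hl P a b d (al P a b d - (m + 1)), (f (y (m + 1))).2) := by
        rw [← i1]
      have hadj' := hadj
      rw [hpair] at hadj'
      have hp : ∀ o, zone P (f (y (m + 1))).1 ≠ .port o := by
        intro o
        rw [i1, zone_lt hA h (by omega)]
        exact fun e => by cases e
      rcases hl_nb h1 h2 hA h (by omega) (by omega) hadj' with h3 | h3
      · rw [show m + 1 + 1 = m + 2 from rfl] at h3
        rw [h3]
        simp only
        congr 1
      · exfalso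
        have e : (f (y m)).1 = (f (y (m + 2))).1 := by
          rw [i0]
          rw [show m + 1 + 1 = m + 2 from rfl] at h3
          rw [h3.1]
          congr 1
          omega
        exact lab_ne hA hE (hy m (by omega)).symm (hy (m + 1) (by omega)) (hne m hm) hp e

/-- a leg vertex which is not a port does not have three neighbours -/
lemma three (h1 : PR1) (h2 : PR2) (hA : Adm k P) {f : Lab → Lab × (V × V)} (hE : IsEmb k P G f)
    {x y1 y2 y3 : Lab} {a b d s : ℕ} (h : Dt k a b d) (hs : 1 ≤ s) (hs' : s < al P a b d)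
    (e : (f x).1 = hl P a b d s) (a1 : AAdj k P x y1) (a2 : AAdj k P x y2) (a3 : AAdj k P x y3)
    (n12 : y1 ≠ y2) (n13 : y1 ≠ y3) (n23 : y2 ≠ y3) : False := by
  have hpair : f x = (hl P a b d s, (f x).2) := by rw [← e]
  have hp : ∀ o, zone P (f x).1 ≠ .port o := by
    intro o
    rw [e, zone_lt hA h hs']
    exact fun e => by cases e
  have key : ∀ y, AAdj k P x y → (f y).1 = hl P a b d (s - 1) ∨ (f y).1 = hl P a b d (s + 1) := by
    intro y hy
    have hadj := map_adj hE hy
    rw [hpair] at hadj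
    rcases hl_nb h1 h2 hA h hs hs' hadj with h3 | h3
    · left; rw [h3]
    · right; exact h3.1
  have m12 := lab_ne hA hE a1 a2 n12 hp
  have m13 := lab_ne hA hE a1 a3 n13 hp
  have m23 := lab_ne hA hE a2 a3 n23 hp
  rcases key y1 a1 with h4 | h4 <;> rcases key y2 a2 with h5 | h5 <;>
    rcases key y3 a3 with h6 | h6 <;> rw [h4, h5] at m12 <;> rw [h4, h6] at m13 <;>
    rw [h5, h6] at m23 <;> first | exact m12 rfl | exact m13 rfl | exact m23 rfl

end ItR4

open ItR7 ItR8 ItRC ItR4 in
theorem R4 (h1 : PR1) (h2 : PR2) : PR4 := by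
  intro V k P G f hA hE i j s hi hj hs o hz
  have hz4 := hA.z4 i j hi hj
  -- the port
  obtain ⟨o', a, b, hex, e⟩ : ∃ o' a b, Ex k o' a b ∧
      (f (.core i j s)).1 = .leg o' a b (P.l o' a b / 2) := by
    have hv := (hE.vx (.core i j s) ⟨hi, hj, hs⟩).1
    generalize (f (.core i j s)).1 = x at hz hv
    cases x with
    | core a b m => cases hz
    | leg o' a b m =>
      refine ⟨o', a, b, hv.1, ?_⟩
      simp only [zone] at hz
      by_cases c1 : m < P.l o' a b / 2
      · rw [if_pos c1] at hz; cases hz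
      · rw [if_neg c1] at hz
        by_cases c2 : m = P.l o' a b / 2
        · rw [c2]
        · rw [if_neg c2] at hz; cases hz
  have hk : 2 ≤ k := by
    cases o' <;> simp only [Ex, nx] at hex <;> omega
  -- a root different from s
  obtain ⟨d, hd, hds⟩ : ∃ d, Dt k i j d ∧ P.r i j d ≠ s := by
    obtain ⟨dh, hdh, hdh'⟩ : ∃ d, Dt k i j d ∧ (d = 0 ∨ d = 1) := by
      rcases Nat.lt_or_ge (j + 1) k with h | h
      · exact ⟨0, ⟨hi, hj, Or.inl ⟨rfl, h⟩⟩, Or.inl rfl⟩
      · exact ⟨1, ⟨hi, hj, Or.inr (Or.inl ⟨rfl, by omega⟩)⟩, Or.inr rfl⟩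
    obtain ⟨dv, hdv, hdv'⟩ : ∃ d, Dt k i j d ∧ (d = 2 ∨ d = 3) := by
      rcases Nat.lt_or_ge (i + 1) k with h | h
      · exact ⟨2, ⟨hi, hj, Or.inr (Or.inr (Or.inl ⟨rfl, h⟩))⟩, Or.inl rfl⟩
      · exact ⟨3, ⟨hi, hj, Or.inr (Or.inr (Or.inr ⟨rfl, by omega⟩))⟩, Or.inr rfl⟩
    by_cases c : P.r i j dh = s
    · refine ⟨dv, hdv, fun c' => ?_⟩
      have := hA.rinj i j dh dv hi hj (by omega) (by omega) (c.trans c'.symm)
      omega
    · exact ⟨dh, hdh, c⟩
  have hd4 : d < 4 := by have := hd.2.2; omega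
  have hr := hA.rlt i j d hi hj hd4
  -- the walk
  obtain ⟨t, ht1, ht2, ht3⟩ : ∃ t, 1 ≤ t ∧ t < P.z i j ∧ (s + t) % P.z i j = P.r i j d := by
    rcases Nat.lt_or_ge s (P.r i j d) with h | h
    · refine ⟨P.r i j d - s, by omega, by omega, ?_⟩
      rw [show s + (P.r i j d - s) = P.r i j d by omega, Nat.mod_eq_of_lt hr]
    · refine ⟨P.r i j d + P.z i j - s, by omega, by omega, ?_⟩
      rw [show s + (P.r i j d + P.z i j - s) = P.r i j d + P.z i j by omega, Nat.add_mod_right,
        Nat.mod_eq_of_lt hr]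
  have hstep : ∀ m, AAdj k P (.core i j ((s + m) % P.z i j)) (.core i j ((s + (m + 1)) % P.z i j)) := by
    intro m
    have h := cyc_adj hA hi hj (s := (s + m) % P.z i j) (Nat.mod_lt _ (by omega))
    rw [Nat.mod_add_mod] at h
    exact h
  have hp0 : f (.core i j ((s + 0) % P.z i j)) = f (.core i j s) := by
    rw [Nat.add_zero, Nat.mod_eq_of_lt hs]
  have hadj0 := map_adj hE (hstep 0)
  rw [hp0] at hadj0
  obtain ⟨a', b', d', hd', e0, e1⟩ := port_nb hA hex e hadj0
  have hbig := al_big hA hd' hi hj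
  have hw := walk h1 h2 hA hE (fun m => .core i j ((s + m) % P.z i j)) t (fun m _ => hstep m)
    (fun m _ he => by
      simp only [Lab.core.injEq, true_and] at he
      have h5 : ((s + m) % P.z i j + 2) % P.z i j = (s + m) % P.z i j := by
        rw [Nat.mod_add_mod, show s + m + 2 = s + (m + 2) by omega, ← he]
      have h6 : (s + m) % P.z i j < P.z i j := Nat.mod_lt _ (by omega)
      rcases Nat.lt_or_ge ((s + m) % P.z i j + 2) (P.z i j) with h7 | h7
      · rw [Nat.mod_eq_of_lt h7] at h5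
        omega
      · rw [Nat.mod_eq_sub_mod h7, Nat.mod_eq_of_lt (by omega)] at h5
        omega) hd' (by simp only [hp0]; exact e0) e1 (by omega) t le_rfl
  simp only [ht3] at hw
  refine three h1 h2 hA hE hd' (by omega) (by omega) hw (cyc_adj hA hi hj hr)
    (cyc_adj' hA hi hj hr) (y3 := hl P i j d 1) ?_ ?_ ?_ ?_
  · have h := adj_hl hA hd (s := 0) (by have := lg_ge hA hd; omega)
    rw [hl_zero] at h
    exact h
  · intro he
    simp only [Lab.core.injEq, true_and] at he
    exact succ_ne_pred hA hi hj hr he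
  · rcases dt_cases hd with ⟨o2, _, rfl⟩ | ⟨o2, a2, b2, _, rfl, rfl, rfl⟩
    · rw [hl_ro _ _ _ _ (by omega)]; exact fun h => by cases h
    · rw [hl_ri _ _ _ _ (by omega)]; exact fun h => by cases h
  · rcases dt_cases hd with ⟨o2, _, rfl⟩ | ⟨o2, a2, b2, _, rfl, rfl, rfl⟩
    · rw [hl_ro _ _ _ _ (by omega)]; exact fun h => by cases h
    · rw [hl_ri _ _ _ _ (by omega)]; exact fun h => by cases h

end Pool.Agent.PEmb

end

section

/-!
# R5: the cycle of a cell is mapped onto a copy of itself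
-/

set_option autoImplicit false

namespace Pool.Agent.PEmb

namespace ItR5

open ItR7 ItR8 ItRC ItR4

variable {V : Type} {k : ℕ} {P : Par} {G : SimpleGraph V}

/-- The distance from the cycle of the cell. -/
def dep (P : Par) : Lab → ℕ
  | .core _ _ _ => 0
  | .leg o a b m => if m < P.l o a b / 2 then m else P.l o a b - m

lemma dep_hl (hA : Adm k P) {a b d m : ℕ} (h : Dt k a b d) (hm : m < al P a b d) :
    dep P (hl P a b d m) = m := by
  rcases Nat.eq_zero_or_pos m with h0 | h0
  · subst h0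
    rw [hl_zero]
    rfl
  rcases dt_cases h with ⟨o, hex, rfl⟩ | ⟨o, a', b', hex, rfl, rfl, rfl⟩
  · rw [al_ro] at hm
    rw [hl_ro _ _ _ _ (by omega)]
    simp only [dep]
    rw [if_pos hm]
  · have hl10 := lge hA hex
    rw [al_ri] at hm
    rw [hl_ri _ _ _ _ (by omega)]
    simp only [dep]
    rw [if_neg (by omega)]
    omega

end ItR5

open ItR7 ItR8 ItRC ItR4 ItR5 in
theorem R5 (h1 : PR1) (h2 : PR2) (h3 : PR3) (h4 : PR4) : PR5 := by
  intro V k P G f hA hE i j hi hj
  have hz4 := hA.z4 i j hi hj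
  -- no leg vertices
  have hcore : ∀ s, s < P.z i j → ∃ a b c, (f (.core i j s)).1 = .core a b c ∧ a < k ∧ b < k ∧
      c < P.z a b := by
    intro s0 hs0
    obtain ⟨s, hs, hmax⟩ := Finset.exists_max_image (Finset.range (P.z i j))
      (fun s => dep P (f (.core i j s)).1) ⟨s0, Finset.mem_range.2 hs0⟩
    rw [Finset.mem_range] at hs
    have hcls : ∀ s, s < P.z i j → _ := fun s hs =>
      leg_hl hA (hE.vx (.core i j s) ⟨hi, hj, hs⟩).1 (h4 k P G f hA hE i j s hi hj hs)
    have hdep0 : dep P (f (.core i j s)).1 = 0 := by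
      rcases hcls s hs with ⟨a, b, c, e, _⟩ | ⟨a, b, d, m, hd, hm1, hm2, e⟩
      · rw [e]; rfl
      · exfalso
        have hdm : dep P (f (.core i j s)).1 = m := by rw [e, dep_hl hA hd hm2]
        have hpair : f (.core i j s) = (hl P a b d m, (f (.core i j s)).2) := by rw [← e]
        have n1 : (s + 1) % P.z i j < P.z i j := Nat.mod_lt _ (by omega)
        have n2 : (s + P.z i j - 1) % P.z i j < P.z i j := Nat.mod_lt _ (by omega)
        have hne := lab_ne hA hE (cyc_adj hA hi hj hs) (cyc_adj' hA hi hj hs)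
          (fun he => by
            simp only [Lab.core.injEq, true_and] at he
            exact succ_ne_pred hA hi hj hs he) (h4 k P G f hA hE i j s hi hj hs)
        have key : ∀ s', s' < P.z i j → AAdj k P (.core i j s) (.core i j s') →
            (f (.core i j s')).1 = hl P a b d (m - 1) := by
          intro s' hs' hadj
          have hh := map_adj hE hadj
          rw [hpair] at hh
          rcases hl_nb h1 h2 hA hd hm1 hm2 hh with h5 | h5
          · rw [h5]
          · exfalso
            rcases Nat.lt_or_ge (m + 1) (al P a b d) with h6 | h6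
            · have h7 := hmax s' (Finset.mem_range.2 hs')
              rw [hdm, h5.1, dep_hl hA hd h6] at h7
              omega
            · have h7 := h4 k P G f hA hE i j s' hi hj hs' (decide (2 ≤ d))
              rw [h5.1, show m + 1 = al P a b d by omega, zone_al hA hd] at h7
              exact h7 rfl
        rw [key _ n1 (cyc_adj hA hi hj hs), key _ n2 (cyc_adj' hA hi hj hs)] at hne
        exact hne rfl
    rcases hcls s0 hs0 with ⟨a, b, c, e, hh⟩ | ⟨a, b, d, m, hd, hm1, hm2, e⟩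
    · exact ⟨a, b, c, e, hh⟩
    · exfalso
      have h7 := hmax s0 (Finset.mem_range.2 hs0)
      rw [hdep0, e, dep_hl hA hd hm2] at h7
      omega
  -- one cell and one value
  obtain ⟨a, b, c0, e0, ha, hb, hc0⟩ := hcore 0 (by omega)
  obtain ⟨v, hv⟩ : ∃ v, v = (f (.core i j 0)).2 := ⟨_, rfl⟩
  have hall : ∀ s, s < P.z i j → ∃ c, c < P.z a b ∧ f (.core i j s) = (.core a b c, v) := by
    intro s
    induction s with
    | zero =>
      intro _
      exact ⟨c0, hc0, by rw [hv, ← e0]⟩
    | succ s ih =>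
      intro hs
      obtain ⟨c, hc, e⟩ := ih (by omega)
      have hadj := map_adj hE (Or.inl (AE.cyc i j s hi hj hs))
      rw [e] at hadj
      obtain ⟨q2, hq⟩ := h3 k P G hA a b c v _ hadj
      obtain ⟨a', b', c', e', -, -, hc'⟩ := hcore (s + 1) hs
      rw [e'] at hq
      have hab : a' = a ∧ b' = b := by
        rcases hq with hq | hq | ⟨o, _, _, hq⟩ | ⟨o, i', j', _, _, _, hq⟩
        · simp only [Lab.core.injEq] at hq; exact ⟨hq.1, hq.2.1⟩
        · simp only [Lab.core.injEq] at hq; exact ⟨hq.1, hq.2.1⟩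
        · cases hq
        · cases hq
      obtain ⟨rfl, rfl⟩ := hab
      exact ⟨c', hc', by rw [← e', ← q2]⟩
  choose! π hπ using hall
  have hinj : ∀ s s', s < P.z i j → s' < P.z i j → π s = π s' → s = s' := by
    intro s s' hs hs' he
    have h5 := hE.inj (.core i j s) (.core i j s') ⟨hi, hj, hs⟩ ⟨hi, hj, hs'⟩
      (by rw [(hπ s hs).2, (hπ s' hs').2, he])
    simp only [Lab.core.injEq, true_and] at h5
    exact h5
  have hzab := hA.z4 a b ha hb
  have hclos : ∀ s, s < P.z i j → ∃ s', s' < P.z i j ∧ π s' = (π s + 1) % P.z a b := by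
    intro s hs
    have n1 : (s + 1) % P.z i j < P.z i j := Nat.mod_lt _ (by omega)
    have n2 : (s + P.z i j - 1) % P.z i j < P.z i j := Nat.mod_lt _ (by omega)
    have key : ∀ s', s' < P.z i j → AAdj k P (.core i j s) (.core i j s') →
        π s' = (π s + 1) % P.z a b ∨ π s' = (π s + P.z a b - 1) % P.z a b := by
      intro s' hs' hadj
      have hh := map_adj hE hadj
      rw [(hπ s hs).2, (hπ s' hs').2] at hh
      obtain ⟨-, hq⟩ := h3 k P G hA a b (π s) v _ hh
      simp only at hq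
      rcases hq with hq | hq | ⟨o, _, _, hq⟩ | ⟨o, i', j', _, _, _, hq⟩
      · simp only [Lab.core.injEq, true_and] at hq; exact Or.inl hq
      · simp only [Lab.core.injEq, true_and] at hq; exact Or.inr hq
      · cases hq
      · cases hq
    rcases key _ n1 (cyc_adj hA hi hj hs) with h5 | h5
    · exact ⟨_, n1, h5⟩
    · rcases key _ n2 (cyc_adj' hA hi hj hs) with h6 | h6
      · exact ⟨_, n2, h6⟩
      · exact absurd (hinj _ _ n1 n2 (h5.trans h6.symm)) (succ_ne_pred hA hi hj hs)
  have hsur : ∀ n, ∃ s', s' < P.z i j ∧ π s' = (π 0 + n) % P.z a b := by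
    intro n
    induction n with
    | zero =>
      refine ⟨0, by omega, ?_⟩
      rw [Nat.add_zero, Nat.mod_eq_of_lt (hπ 0 (by omega)).1]
    | succ n ih =>
      obtain ⟨s', hs', e⟩ := ih
      obtain ⟨s'', hs'', e'⟩ := hclos s' hs'
      refine ⟨s'', hs'', ?_⟩
      rw [e', e, Nat.mod_add_mod]
      rfl
  have hsur' : ∀ c, c < P.z a b → ∃ s, s < P.z i j ∧ π s = c := by
    intro c hc
    have h0 := (hπ 0 (by omega)).1
    obtain ⟨s, hs, e⟩ := hsur (c + P.z a b - π 0)
    refine ⟨s, hs, ?_⟩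
    rw [e, show π 0 + (c + P.z a b - π 0) = c + P.z a b by omega, Nat.add_mod_right,
      Nat.mod_eq_of_lt hc]
  have hzz : P.z i j = P.z a b := by
    have h5 : (Finset.range (P.z i j)).image π = Finset.range (P.z a b) := by
      ext c
      simp only [Finset.mem_image, Finset.mem_range]
      constructor
      · rintro ⟨s, hs, rfl⟩
        exact (hπ s hs).1
      · exact hsur' c
    have h6 : ((Finset.range (P.z i j)).image π).card = (Finset.range (P.z i j)).card := by
      apply Finset.card_image_of_injOn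
      intro s hs s' hs' he
      rw [Finset.mem_coe, Finset.mem_range] at hs hs'
      exact hinj s s' hs hs' he
    rw [h5, Finset.card_range, Finset.card_range] at h6
    exact h6.symm
  obtain ⟨rfl, rfl⟩ := hA.zinj i j a b hi hj ha hb hzz
  exact ⟨v, π, fun s hs => hπ s hs, hsur'⟩

end Pool.Agent.PEmb

end

section

/-!
# R6: the legs start along whole half legs
-/

set_option autoImplicit false

namespace Pool.Agent.PEmb

namespace ItR6

open ItR7 ItR8 ItRC ItR4

variable {V : Type} {k : ℕ} {P : Par} {G : SimpleGraph V}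

lemma hl_leg {i j d s : ℕ} (hs : s ≠ 0) : ∃ o a b c, hl P i j d s = .leg o a b c := by
  unfold hl
  rw [if_neg hs]
  split
  · exact ⟨_, _, _, _, rfl⟩
  · split
    · exact ⟨_, _, _, _, rfl⟩
    · split
      · exact ⟨_, _, _, _, rfl⟩
      · exact ⟨_, _, _, _, rfl⟩

lemma hl_ne {i j d s : ℕ} (h : Dt k i j d) (hs : s + 2 < lg P i j d) :
    hl P i j d s ≠ hl P i j d (s + 2) := by
  rcases Nat.eq_zero_or_pos s with h0 | h0
  · subst h0
    obtain ⟨o, a, b, c, e⟩ := hl_leg (P := P) (i := i) (j := j) (d := d) (s := 0 + 2) (by omega)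
    rw [hl_zero, e]
    exact fun h => by cases h
  · rcases dt_cases h with ⟨o, hex, rfl⟩ | ⟨o, a', b', hex, rfl, rfl, rfl⟩
    · rw [hl_ro _ _ _ _ (by omega), hl_ro _ _ _ _ (by omega)]
      intro he
      simp only [Lab.leg.injEq, true_and] at he
      omega
    · rw [lg_ri] at hs
      rw [hl_ri _ _ _ _ (by omega), hl_ri _ _ _ _ (by omega)]
      intro he
      simp only [Lab.leg.injEq, true_and] at he
      omega

end ItR6

open ItR7 ItR8 ItRC ItR4 ItR6 in
theorem R6 (h1 : PR1) (h2 : PR2) (h3 : PR3) (h5 : PR5) : PR6 := by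
  intro V k P G f hA hE
  have hne : Nonempty (V × V) := ⟨(f (.core 0 0 0)).2⟩
  have h5' := fun i j hi hj => h5 k P G f hA hE i j hi hj
  choose! val π hπ using h5'
  have hroot : ∀ i j d, Dt k i j d → P.r i j d < P.z i j := by
    intro i j d h
    exact hA.rlt i j d h.1 h.2.1 (by have := h.2.2; omega)
  have hπinj : ∀ i j s s', i < k → j < k → s < P.z i j → s' < P.z i j → π i j s = π i j s' →
      s = s' := by
    intro i j s s' hi hj hs hs' he
    have h6 := hE.inj (.core i j s) (.core i j s') ⟨hi, hj, hs⟩ ⟨hi, hj, hs'⟩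
      (by rw [((hπ i j hi hj).1 s hs).2, ((hπ i j hi hj).1 s' hs').2, he])
    simp only [Lab.core.injEq, true_and] at h6
    exact h6
  -- first step
  have hfirst : ∀ i j d, Dt k i j d → ∃ d', Dt k i j d' ∧ P.r i j d' = π i j (P.r i j d) ∧
      f (hl P i j d 1) = (hl P i j d' 1, val i j) := by
    intro i j d hd
    obtain ⟨hi, hj, _⟩ := id hd
    have hr := hroot i j d hd
    have hadj0 := adj_hl hA hd (s := 0) (by have := lg_ge hA hd; omega)
    have hadj := map_adj hE hadj0
    rw [hl_zero, ((hπ i j hi hj).1 _ hr).2] at hadj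
    have hnc : ∀ c, c < P.z i j → f (hl P i j d 1) ≠ (.core i j c, val i j) := by
      intro c hc he
      obtain ⟨s, hs, e⟩ := (hπ i j hi hj).2 c hc
      rw [← e, ← ((hπ i j hi hj).1 s hs).2] at he
      have h6 := hE.inj _ (.core i j s) (adj_vx hA hadj0).2 ⟨hi, hj, hs⟩ he
      obtain ⟨o, a, b, c', e'⟩ := hl_leg (P := P) (i := i) (j := j) (d := d) (s := 1) (by omega)
      rw [e'] at h6
      cases h6
    have hz := hA.z4 i j hi hj
    obtain ⟨q2, hq⟩ := h3 k P G hA i j _ _ _ hadj
    have hpair : ∀ x, (f (hl P i j d 1)).1 = x → f (hl P i j d 1) = (x, val i j) := by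
      intro x hx
      rw [← hx, ← q2]
    rw [Nat.zero_add] at hq q2
    rcases hq with hq | hq | ⟨o, hex, e, hq⟩ | ⟨o, a, b, hex, hab, e, hq⟩
    · exact absurd (hpair _ hq) (hnc _ (Nat.mod_lt _ (by omega)))
    · exact absurd (hpair _ hq) (hnc _ (Nat.mod_lt _ (by omega)))
    · refine ⟨ro o, dt_ro hex, e.symm, ?_⟩
      rw [hpair _ hq, hl_ro _ _ _ _ (by omega)]
    · obtain ⟨ei, ej⟩ := Prod.ext_iff.1 hab
      simp only at ei ej
      subst ei; subst ej
      refine ⟨ri o, dt_ri hex, e.symm, ?_⟩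
      rw [hpair _ hq, hl_ri _ _ _ _ (by omega)]
  choose! τ hτ using hfirst
  refine ⟨val, τ, fun i j s hi hj hs => ⟨π i j s, (hπ i j hi hj).1 s hs⟩, ?_⟩
  intro i j d hd
  obtain ⟨hi, hj, _⟩ := id hd
  obtain ⟨hd', hr', hf1⟩ := hτ i j d hd
  have hlg := lg_ge hA hd
  have hr := hroot i j d hd
  -- along the half leg
  have hmain : ∀ s, s ≤ al P i j (τ i j d) → s < lg P i j d →
      (f (hl P i j d s)).1 = hl P i j (τ i j d) s ∧
        (s < al P i j (τ i j d) → (f (hl P i j d s)).2 = val i j) := by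
    intro s
    induction s using Nat.strong_induction_on with
    | _ s ih =>
      intro hs hs'
      match s, ih, hs, hs' with
      | 0, _, _, _ =>
        rw [hl_zero, hl_zero, hr', ((hπ i j hi hj).1 _ hr).2]
        exact ⟨rfl, fun _ => rfl⟩
      | 1, _, _, _ =>
        rw [hf1]
        exact ⟨rfl, fun _ => rfl⟩
      | s + 2, ih, hs, hs' =>
        obtain ⟨a1, b1⟩ := ih (s + 1) (by omega) (by omega) (by omega)
        obtain ⟨a0, _⟩ := ih s (by omega) (by omega) (by omega)
        have hadj1 := adj_hl hA hd (s := s + 1) hs'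
        have hadj0 := adj_hl hA hd (s := s) (by omega)
        have hadj := map_adj hE hadj1
        have hpair : f (hl P i j d (s + 1)) = (hl P i j (τ i j d) (s + 1), val i j) :=
          Prod.ext a1 (b1 (by omega))
        have hp : ∀ o, zone P (f (hl P i j d (s + 1))).1 ≠ .port o := by
          intro o
          rw [a1, zone_lt hA hd' (by omega)]
          exact fun e => by cases e
        rw [hpair] at hadj
        rcases hl_nb h1 h2 hA hd' (by omega) (by omega) hadj with h6 | h6
        · exfalso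
          refine lab_ne hA hE hadj0.symm hadj1 (hl_ne hd hs') hp ?_
          rw [a0]
          rw [h6]
          rfl
        · exact h6
  -- the leg is longer than the half leg
  have hlong : al P i j (τ i j d) < lg P i j d := by
    by_contra hcon
    rw [not_lt] at hcon
    obtain ⟨i', j', d2, -, hd2, -, -, -, hbar⟩ := bar_spec P hd
    obtain ⟨a1, b1⟩ := hmain (lg P i j d - 1) (by omega) (by omega)
    have hpair : f (hl P i j d (lg P i j d - 1)) = (hl P i j (τ i j d) (lg P i j d - 1), val i j) :=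
      Prod.ext a1 (b1 (by omega))
    have hadj0 := adj_hl hA hd2 (s := 0) (by have := lg_ge hA hd2; omega)
    have hb := hbar (lg P i j d - 1) (by omega) (by omega)
    rw [show lg P i j d - (lg P i j d - 1) = 0 + 1 by omega] at hb
    rw [← hb, hl_zero] at hadj0
    have hadj := map_adj hE hadj0.symm
    rw [hpair, ((hπ i' j' hd2.1 hd2.2.1).1 _ (hroot _ _ _ hd2)).2] at hadj
    rcases hl_nb h1 h2 hA hd' (by omega) (by omega) hadj with h6 | h6
    · obtain ⟨o, a, b, c', e'⟩ := hl_leg (P := P) (i := i) (j := j) (d := τ i j d)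
        (s := lg P i j d - 1 - 1) (by omega)
      rw [e'] at h6
      have h7 := congrArg Prod.fst h6
      simp only at h7
      cases h7
    · obtain ⟨o, a, b, c', e'⟩ := hl_leg (P := P) (i := i) (j := j) (d := τ i j d)
        (s := lg P i j d - 1 + 1) (by omega)
      rw [e'] at h6
      have h7 := h6.1
      simp only at h7
      cases h7
  refine ⟨hd', ?_, hlong, fun s hs => hmain s hs (by omega)⟩
  intro d2 hd2 he
  obtain ⟨hd2', hr2', _⟩ := hτ i j d2 hd2
  have h6 := hπinj i j _ _ hi hj hr (hroot i j d2 hd2) (by rw [← hr', ← hr2', he])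
  exact hA.rinj i j d d2 hi hj (by have := hd.2.2; omega) (by have := hd2.2.2; omega) h6

end Pool.Agent.PEmb

end

section

/-!
# All items together
-/

set_option autoImplicit false

namespace Pool.Agent.PEmb

theorem r4 : PR4 := R4 R1 R2
theorem r5 : PR5 := R5 R1 R2 R3 r4
theorem r6 : PR6 := R6 R1 R2 R3 r5
theorem r9 : PR9 := R9 r6 R7 R8
theorem e3 : PE3 := E3 E1 E2
theorem e7 : PE7 := E7 E4 E5 E6
theorem e10 : PE10 := E10 E1
theorem e13 : PE13 := E13 E11
theorem e16 : PE16 := E16 e10 E12 e13 E14 E15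
theorem e17 : PE17 := E17 e10 E12 e13 E14 E15
theorem e20 : PE20 := E20 E12 E14 E15 e16 e17 E18 E19
theorem e22 : PE22 := E22 e3 e7 E8 E9 E21
theorem e23 : PE23 := E23_of e20 e22
theorem q3 : PQ3 := Q3 Q1 Q2
theorem q8 : PQ8 := Q8 Q6 Q7
theorem q10 : PQ10 := Q10 Q1 Q2 Q5 r9 R10 Q12

/-- The problem is hard for classes closed under subgraphs that have large grid minors. -/
theorem main : PMain := main_of e23 q3 Q4 Q7 q8 Q9 q10 Q11

/-- The problem is in W[1]. -/
theorem m4 : PM4 := M4_of M1 M2 M3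

end Pool.Agent.PEmb

end
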