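import Pool.Agent.Work.MP_cfa43e_lc.Reg.Stmts

/-! Bundle of small proof modules (one section per former module). -/

section

/-!
# Item B9: the meaning of `Good`
-/

set_option autoImplicit false

namespace Pool.Agent.PReg

open Pool.Agent.PEmb

namespace ItB9

theorem okz_map {W1 W2 : Type} (Γ₁ : SimpleGraph W1) (Γ₂ : SimpleGraph W2) (h : W1 → W2)
    (hadj : ∀ x y, Γ₁.Adj x y → Γ₂.Adj (h x) (h y)) (z : ZB) (p : Option W1 × Option W1)
    (hp : okz Γ₁ z p) : okz Γ₂ z (p.1.map h, p.2.map h) := by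
  rcases z with _ | _ | _ | o
  · simp only [okz] at hp ⊢
    rw [hp]; rfl
  · obtain ⟨u, hu⟩ := hp
    exact ⟨h u, by rw [hu]; rfl⟩
  · obtain ⟨u, v, hu, huv⟩ := hp
    exact ⟨h u, h v, by rw [hu]; rfl, hadj _ _ huv⟩
  · obtain ⟨u, hu⟩ := hp
    exact ⟨h u, by rw [hu]; rfl⟩

theorem cmp_map {W1 W2 : Type} (h : W1 → W2) (z z' : ZB) (p q : Option W1 × Option W1)
    (hp : cmp z z' p q) : cmp z z' (p.1.map h, p.2.map h) (q.1.map h, q.2.map h) := by
  rcases z with _ | _ | _ | (_ | _) <;> rcases z' with _ | _ | _ | (_ | _) <;>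
    simp only [cmp] at hp ⊢ <;> rw [hp]

theorem host_map {V W1 W2 : Type} (G : SimpleGraph V) (ζ : V → ZB) (Γ₁ : SimpleGraph W1)
    (Γ₂ : SimpleGraph W2) (h : W1 → W2) (hinj : Function.Injective h)
    (hadj : ∀ x y, Γ₁.Adj x y → Γ₂.Adj (h x) (h y)) (he : Embeds G (host G ζ Γ₁)) :
    Embeds G (host G ζ Γ₂) := by
  obtain ⟨f, hf, hfa⟩ := he
  refine ⟨fun v => ((f v).1, ((f v).2.1.map h, (f v).2.2.map h)), ?_, ?_⟩
  · intro x y hxy
    apply hf
    have h1 := congrArg Prod.fst hxy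
    have h2 := congrArg (fun t => t.2.1) hxy
    have h3 := congrArg (fun t => t.2.2) hxy
    simp only at h1 h2 h3
    exact Prod.ext h1 (Prod.ext (Option.map_injective hinj h2) (Option.map_injective hinj h3))
  · intro x y hxy
    obtain ⟨h1, h2, h3, h4⟩ := hfa x y hxy
    exact ⟨h1, okz_map Γ₁ Γ₂ h hadj _ _ h2, okz_map Γ₁ Γ₂ h hadj _ _ h3, cmp_map h _ _ _ _ h4⟩

open Classical in
/-- the code of a graph on `Fin n` -/
noncomputable def codeOf {n : ℕ} (Γ : SimpleGraph (Fin n)) : Code :=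
  List.ofFn fun i => List.ofFn fun j => decide (Γ.Adj i j)

theorem codeOf_length {n : ℕ} (Γ : SimpleGraph (Fin n)) : (codeOf Γ).length = n := by
  simp [codeOf]

theorem entry_codeOf {n : ℕ} (Γ : SimpleGraph (Fin n)) (i j : Fin n) :
    entry (codeOf Γ) i j = true ↔ Γ.Adj i j := by
  classical
  simp [entry, codeOf, List.getD_eq_getElem?_getD]

end ItB9

open ItB9

theorem B9 (hB1 : PB1) (hB6 : PB6) (hB7 : PB7) (hB12 : PB12) : PB9 := by
  classical
  intro k A Z hG G
  obtain ⟨hZ, h1, h2⟩ := hG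
  rw [hB12, hB6 A Z G hZ]
  refine hB7 k (graph A) (fun v => zbOf (Z.getD v.1 [])) ?_ ?_ (graph G)
  · rw [hB6 A Z (kc k) hZ] at h1
    have hk : (kc k).length = k := by simp [kc]
    refine host_map (graph A) _ (graph (kc k)) ⊤ (Fin.cast hk) (Fin.cast_injective hk) ?_ h1
    intro x y hxy
    rw [SimpleGraph.top_adj]
    exact fun h => hxy.1 (Fin.cast_injective hk h)
  · intro n hn Γ hΓ
    rw [Nat.card_fin] at hn
    have hl := codeOf_length Γ
    have hm : codeOf Γ ∈ wordsOf (wordsOf [true, false] n) n := by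
      rw [hB1.1]
      refine ⟨hl, fun x hx => ?_⟩
      rw [hB1.1]
      rw [codeOf, List.mem_ofFn] at hx
      obtain ⟨i, rfl⟩ := hx
      refine ⟨by simp, fun b _ => ?_⟩
      cases b <;> simp
    have h3 : Embeds (graph A) (host (graph A) (fun v => zbOf (Z.getD v.1 []))
        (graph (codeOf Γ))) := by
      refine host_map (graph A) _ Γ (graph (codeOf Γ)) (Fin.cast hl.symm)
        (Fin.cast_injective hl.symm) ?_ hΓ
      intro x y hxy
      refine ⟨fun h => hxy.ne (Fin.cast_injective hl.symm h), Or.inl ?_⟩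
      exact (entry_codeOf Γ x y).mpr hxy
    have h4 := h2 n (by omega) _ hm ((hB6 A Z (codeOf Γ) hZ).mpr h3)
    rw [hB12] at h4
    obtain ⟨w, hw⟩ := h4
    refine ⟨fun a => Fin.cast hl (w a), fun a b hab => ?_⟩
    rcases (hw a b hab).2 with h | h
    · exact (entry_codeOf Γ (Fin.cast hl (w a)) (Fin.cast hl (w b))).mp h
    · exact ((entry_codeOf Γ (Fin.cast hl (w b)) (Fin.cast hl (w a))).mp h).symm

end Pool.Agent.PReg

end

section

/-!
# Item F1
-/

set_option autoImplicit false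

namespace Pool.Agent.PReg

open Pool.Agent.PEmb

namespace ItF1

variable {V : Type} [Finite V] {G : SimpleGraph V}

lemma nb3 {v a b c : V} (h3 : dg G v = 3) (hab : a ≠ b) (hac : a ≠ c) (hbc : b ≠ c)
    (ha : G.Adj v a) (hb : G.Adj v b) (hc : G.Adj v c) {u : V} (hu : G.Adj v u) :
    u = a ∨ u = b ∨ u = c := by
  have hsub : ({a, b, c} : Set V) ⊆ G.neighborSet v := by
    intro w hw
    rcases hw with rfl | rfl | rfl
    · exact ha
    · exact hb
    · exact hc
  have hcard : ({a, b, c} : Set V).ncard = 3 := by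
    rw [Set.ncard_eq_three]
    exact ⟨a, b, c, hab, hac, hbc, rfl⟩
  have heq : ({a, b, c} : Set V) = G.neighborSet v := by
    refine Set.eq_of_subset_of_ncard_le hsub ?_ (Set.toFinite _)
    rw [hcard]
    exact le_of_eq h3
  have : u ∈ ({a, b, c} : Set V) := by
    rw [heq]
    exact hu
  simpa using this

lemma le3 {v : V} (h : Sat G v) : dg G v ≤ 3 := by
  rcases h with h | h | h
  · omega
  · exact h.1.le
  · exact h.1.le

lemma cl_single {x : V} (h : ∀ y, G.Adj x y → dg G x = 3 → dg G y = 3 → False) :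
    cl G x = {x} := by
  ext y
  constructor
  · rintro (h1 | ⟨h1, h2, h3⟩)
    · exact h1.symm
    · exact (h y h1 h2 h3).elim
  · rintro rfl
    exact Or.inl rfl

end ItF1

open ItF1 in
theorem F1 : PF1 := by
  intro V _ G hS
  refine ⟨⟨fun x => Or.inl rfl, ?_, ?_⟩, ?_, ?_⟩
  · rintro x y (h | ⟨h1, h2, h3⟩)
    · exact Or.inl h.symm
    · exact Or.inr ⟨h1.symm, h3, h2⟩
  · rintro x y z (rfl | ⟨h1, h2, h3⟩) (rfl | ⟨h4, h5, h6⟩)
    · exact Or.inl rfl
    · exact Or.inr ⟨h4, h5, h6⟩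
    · exact Or.inr ⟨h1, h2, h3⟩
    · by_cases hxz : x = z
      · exact Or.inl hxz
      · rcases hS y with h | h | ⟨h, a, b, c, hab, hac, hbc, ha, hb, hc, hadj, hcd⟩
        · omega
        · have := h.2 x h1.symm
          omega
        · have hx := nb3 h hab hac hbc ha hb hc h1.symm
          have hz := nb3 h hab hac hbc ha hb hc h4
          have hxc : x ≠ c := by
            rintro rfl
            omega
          have hzc : z ≠ c := by
            rintro rfl
            omega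
          rcases hx with rfl | rfl | rfl
          · rcases hz with rfl | rfl | rfl
            · exact absurd rfl hxz
            · exact Or.inr ⟨hadj, h2, h6⟩
            · exact absurd rfl hzc
          · rcases hz with rfl | rfl | rfl
            · exact Or.inr ⟨hadj.symm, h2, h6⟩
            · exact absurd rfl hxz
            · exact absurd rfl hzc
          · exact absurd rfl hxc
  · intro x
    rcases hS x with h | h | ⟨h, a, b, c, hab, hac, hbc, ha, hb, hc, hadj, hcd⟩
    · rw [cl_single fun y _ h1 _ => by omega, Set.ncard_singleton]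
      omega
    · rw [cl_single fun y h0 _ h1 => by
        have := h.2 y h0
        omega, Set.ncard_singleton]
      omega
    · have hsub : cl G x ⊆ {x, a, b} := by
        rintro y (h1 | ⟨h1, h2, h3⟩)
        · exact Or.inl h1.symm
        · rcases nb3 h hab hac hbc ha hb hc h1 with rfl | rfl | rfl
          · exact Or.inr (Or.inl rfl)
          · exact Or.inr (Or.inr rfl)
          · omega
      refine le_trans (Set.ncard_le_ncard hsub (Set.toFinite _)) ?_
      refine le_trans (Set.ncard_insert_le _ _) ?_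
      have := Set.ncard_insert_le a {b}
      rw [Set.ncard_singleton] at this
      omega
  · intro x y hxy hne
    have hx := le3 (hS x)
    have hy := le3 (hS y)
    have h0 : ¬ (dg G x = 3 ∧ dg G y = 3) := fun h => hne (Or.inr ⟨hxy, h.1, h.2⟩)
    by_cases hx2 : dg G x ≤ 2
    · exact Or.inl ⟨hx2, cl_single fun _ _ h1 _ => by omega⟩
    · have hy2 : dg G y ≤ 2 := by omega
      exact Or.inr ⟨hy2, cl_single fun _ _ h1 _ => by omega⟩

end Pool.Agent.PReg

end

section

/-!
# F2: an induced model of the pattern in a graph with satisfied vertices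
-/

set_option autoImplicit false

namespace Pool.Agent.PReg

open Pool.Agent.PEmb

namespace ItF2

theorem cl_eq {V : Type} {G : SimpleGraph V} (he : Equivalence (Eqv G)) {a b u : V}
    (h1 : u ∈ cl G a) (h2 : u ∈ cl G b) : cl G a = cl G b := by
  have hab : Eqv G a b := he.trans h1 (he.symm h2)
  ext w
  exact ⟨fun h => he.trans (he.symm hab) h, fun h => he.trans hab h⟩

end ItF2

theorem F2 (hP0 : PP0) (hF1 : PF1) (hF2a : PF2a) (hF2b : PF2b) : PF2 := by
  classical
  intro V _ G hsat K P hadm hpat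
  obtain ⟨φ, hinj, hadj⟩ := hpat
  obtain ⟨heq, -, -⟩ := hF1 G hsat
  obtain ⟨-, h2, -⟩ := hP0 K P hadm
  have hclass : ∀ x, Vx K P x → ∃ v, φ x = cl G v := by
    intro x hx
    obtain ⟨y, z, -, hxy, -⟩ := h2 x hx
    rcases hxy with h | h
    · obtain ⟨-, a, b, ha, -, -⟩ := hadj x y h
      exact ⟨a, ha.symm⟩
    · obtain ⟨-, a, b, -, hb, -⟩ := hadj y x h
      exact ⟨b, hb.symm⟩
  have hdisj : ∀ x y, Vx K P x → Vx K P y → ∀ u, u ∈ φ x → u ∈ φ y → x = y := by
    intro x y hx hy u hux huy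
    obtain ⟨a, ha⟩ := hclass x hx
    obtain ⟨b, hb⟩ := hclass y hy
    apply hinj x y hx hy
    rw [ha] at hux
    rw [hb] at huy
    rw [ha, hb]
    exact ItF2.cl_eq heq hux huy
  let ρ : V → Lab := fun u =>
    if h : ∃ x, Vx K P x ∧ u ∈ φ x then h.choose else .core 0 0 0
  have hρ : ∀ x, Vx K P x → ∀ u ∈ φ x, ρ u = x := by
    intro x hx u hu
    have h : ∃ x, Vx K P x ∧ u ∈ φ x := ⟨x, hx, hu⟩
    have e : ρ u = h.choose := dif_pos h
    rw [e]
    exact hdisj _ _ h.choose_spec.1 hx u h.choose_spec.2 hu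
  obtain ⟨hip, hc⟩ := hF2a G hsat K P φ hadm hinj hadj ρ hρ
  exact ⟨_, ρ, hip, hF2b G hsat K P _ ρ hadm hip fun u hu v => hc u hu v⟩

end Pool.Agent.PReg

end

section

/-!
# F2a: a pattern in the quotient is an induced model
-/

set_option autoImplicit false

namespace Pool.Agent.PReg

open Pool.Agent.PEmb

theorem F2a (hF1 : PF1) (hP0 : PP0) : PF2a := by
  intro V _ G hSat K P φ hAdm hinj hedge ρ hρ
  obtain ⟨hEq, _, hF1'⟩ := hF1 G hSat
  obtain ⟨hP1, hP2, hP3⟩ := hP0 K P hAdm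
  have hq : ∀ x y, AAdj K P x y → (quo G (cl G)).Adj (φ x) (φ y) := by
    intro x y h
    rcases h with h | h
    · exact hedge x y h
    · exact (hedge y x h).symm
  have hclself : ∀ u, u ∈ cl G u := fun u => hEq.refl u
  have hcleq : ∀ u v, Eqv G u v → cl G u = cl G v := by
    intro u v h
    ext w
    exact ⟨fun hw => hEq.trans (hEq.symm h) hw, fun hw => hEq.trans h hw⟩
  have hφ : ∀ x, Vx K P x → ∀ u ∈ φ x, φ x = cl G u := by
    intro x hx u hu
    obtain ⟨y, z, _, hy, _⟩ := hP2 x hx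
    obtain ⟨_, a, b, ha, _, _⟩ := hq x y hy
    rw [← ha] at hu ⊢
    exact hcleq a u hu
  have hφne : ∀ x, Vx K P x → ∃ u, u ∈ φ x := by
    intro x hx
    obtain ⟨y, z, _, hy, _⟩ := hP2 x hx
    obtain ⟨_, a, b, ha, _, _⟩ := hq x y hy
    exact ⟨a, by rw [← ha]; exact hclself a⟩
  have hset : ∀ x, Vx K P x → {u | u ∈ {u | ∃ x, Vx K P x ∧ u ∈ φ x} ∧ ρ u = x} = φ x := by
    intro x hx
    ext u
    constructor
    · rintro ⟨⟨y, hy, hu⟩, h2⟩
      have := hρ y hy u hu
      rw [h2] at this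
      rw [this]
      exact hu
    · intro hu
      exact ⟨⟨x, hx, hu⟩, hρ x hx u hu⟩
  -- a vertex of degree at most two which is a class
  have key : ∀ x, Vx K P x → ∀ u ∈ φ x, ∀ v, G.Adj u v → dg G u ≤ 2 → cl G u = {u} →
      (∃ y, AAdj K P x y ∧ v ∈ φ y) := by
    intro x hx u hu v huv hdu hcu
    obtain ⟨y1, y2, hne, hy1, hy2⟩ := hP2 x hx
    have hφu : φ x = {u} := by rw [hφ x hx u hu, hcu]
    obtain ⟨_, a1, b1, ha1, hb1, hab1⟩ := hq x y1 hy1
    obtain ⟨_, a2, b2, ha2, hb2, hab2⟩ := hq x y2 hy2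
    have e1 : a1 = u := by
      have := hclself a1
      rw [ha1, hφu] at this
      exact this
    have e2 : a2 = u := by
      have := hclself a2
      rw [ha2, hφu] at this
      exact this
    rw [e1] at hab1
    rw [e2] at hab2
    have m1 : b1 ∈ φ y1 := by rw [← hb1]; exact hclself b1
    have m2 : b2 ∈ φ y2 := by rw [← hb2]; exact hclself b2
    have hb12 : b1 ≠ b2 := by
      intro h
      rw [h] at hb1
      exact hne (hinj y1 y2 (hP1 x y1 hy1).2.1 (hP1 x y2 hy2).2.1 (by rw [← hb1, ← hb2]))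
    by_cases h1 : v = b1
    · exact ⟨y1, hy1, h1 ▸ m1⟩
    by_cases h2 : v = b2
    · exact ⟨y2, hy2, h2 ▸ m2⟩
    exfalso
    have hsub : ({v, b1, b2} : Set V) ⊆ G.neighborSet u := by
      intro w hw
      rcases hw with hw | hw | hw
      · rw [hw]; exact huv
      · rw [hw]; exact hab1
      · rw [hw]; exact hab2
    have hcard : ({v, b1, b2} : Set V).ncard = 3 := by
      rw [Set.ncard_insert_of_notMem (by simp [h1, h2]), Set.ncard_pair hb12]
    have := Set.ncard_le_ncard hsub (Set.toFinite _)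
    unfold dg at hdu
    omega
  refine ⟨⟨?_, ?_, ?_, ?_⟩, ?_⟩
  · rintro u ⟨x, hx, hu⟩
    rw [hρ x hx u hu]
    exact hx
  · intro x hx
    rw [hset x hx]
    obtain ⟨u0, hu0⟩ := hφne x hx
    refine (SimpleGraph.connected_iff _).2 ⟨?_, ⟨⟨u0, hu0⟩⟩⟩
    rintro ⟨u, hu⟩ ⟨v, hv⟩
    have h1 := hφ x hx u hu
    have hv' : v ∈ cl G u := h1 ▸ hv
    rcases hv' with hv' | hv'
    · subst hv'
      exact SimpleGraph.Reachable.refl _
    · exact SimpleGraph.Adj.reachable (by exact hv'.1)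
  · intro x y hxy
    obtain ⟨_, a, b, ha, hb, hab⟩ := hq x y hxy
    have hxx := (hP1 x y hxy).1
    have hyy := (hP1 x y hxy).2.1
    have ma : a ∈ φ x := by rw [← ha]; exact hclself a
    have mb : b ∈ φ y := by rw [← hb]; exact hclself b
    exact ⟨a, ⟨x, hxx, ma⟩, b, ⟨y, hyy, mb⟩, hρ x hxx a ma, hρ y hyy b mb, hab⟩
  · rintro u ⟨x, hx, hu⟩ v ⟨y, hy, hv⟩ huv
    rw [hρ x hx u hu, hρ y hy v hv]
    by_cases hxy : x = y
    · exact Or.inl hxy
    right
    have hnE : ¬ Eqv G u v := by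
      intro h
      apply hxy
      apply hinj x y hx hy
      rw [hφ x hx u hu, hφ y hy v hv]
      exact hcleq u v h
    rcases hF1' u v huv hnE with ⟨h1, h2⟩ | ⟨h1, h2⟩
    · obtain ⟨y', hy', hv'⟩ := key x hx u hu v huv h1 h2
      have : y' = y := by
        rw [← hρ y' (hP1 x y' hy').2.1 v hv', hρ y hy v hv]
      rw [← this]
      exact hy'
    · obtain ⟨x', hx', hu'⟩ := key y hy v hv u huv.symm h1 h2
      have : x' = x := by
        rw [← hρ x' (hP1 y x' hx').2.1 u hu', hρ x hx u hu]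
      rw [← this]
      exact hx'.symm
  · rintro u ⟨x, hx, hu⟩ v
    constructor
    · rintro ⟨h1, y, hy, hv⟩
      rw [hρ x hx u hu, hρ y hy v hv] at h1
      subst h1
      have : v ∈ cl G u := by rw [← hφ y hy u hu]; exact hv
      exact this
    · intro h
      have hv : v ∈ φ x := by rw [hφ x hx u hu]; exact h
      exact ⟨by rw [hρ x hx u hu, hρ x hx v hv], x, hx, hv⟩

end Pool.Agent.PReg

end

section

/-!
# Graphs whose core has a large thin part: item F2b (lock vertices)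
-/

set_option autoImplicit false

namespace Pool.Agent.PReg

open Pool.Agent.PEmb

namespace ItF2b

variable {V : Type}

theorem dg_le_three {G : SimpleGraph V} {v : V} (h : Sat G v) : dg G v ≤ 3 := by
  rcases h with h | h | h
  · omega
  · exact h.1.le
  · exact h.1.le

/-- Three different neighbours of a vertex of degree at most `3` are all neighbours. -/
theorem nb_three [Finite V] {G : SimpleGraph V} {v x y z : V} (hd : dg G v ≤ 3)
    (hx : G.Adj v x) (hy : G.Adj v y) (hz : G.Adj v z) (hxy : x ≠ y) (hxz : x ≠ z) (hyz : y ≠ z)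
    {u : V} (hu : G.Adj v u) : u = x ∨ u = y ∨ u = z := by
  have hsub : ({x, y, z} : Set V) ⊆ G.neighborSet v := by
    intro t ht
    rcases ht with rfl | rfl | rfl
    · exact hx
    · exact hy
    · exact hz
  have hc : ({x, y, z} : Set V).ncard = 3 := Set.ncard_eq_three.2 ⟨x, y, z, hxy, hxz, hyz, rfl⟩
  have he : ({x, y, z} : Set V) = G.neighborSet v := by
    apply Set.eq_of_subset_of_ncard_le hsub _ (Set.toFinite _)
    rw [hc]
    exact hd
  have : u ∈ ({x, y, z} : Set V) := by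
    rw [he]
    exact hu
  simpa using this

theorem nb_two [Finite V] {G : SimpleGraph V} {v x y : V} (hd : dg G v ≤ 2)
    (hx : G.Adj v x) (hy : G.Adj v y) (hxy : x ≠ y) {u : V} (hu : G.Adj v u) :
    u = x ∨ u = y := by
  have hsub : ({x, y} : Set V) ⊆ G.neighborSet v := by
    intro t ht
    rcases ht with rfl | rfl
    · exact hx
    · exact hy
  have hc : ({x, y} : Set V).ncard = 2 := Set.ncard_pair hxy
  have he : ({x, y} : Set V) = G.neighborSet v := by
    apply Set.eq_of_subset_of_ncard_le hsub _ (Set.toFinite _)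
    rw [hc]
    exact hd
  have : u ∈ ({x, y} : Set V) := by
    rw [he]
    exact hu
  simpa using this

section

variable [Finite V] {G : SimpleGraph V} (hS : ∀ v, Sat G v) {K : ℕ} {P : Par} {U : Set V}
  {ρ : V → Lab} (hP0 : PP0) (hA : Adm K P) (hI : IPat K P G U ρ)
  (hE : ∀ u ∈ U, ∀ v, (ρ v = ρ u ∧ v ∈ U) ↔ Eqv G u v)

omit [Finite V] in
include hE in
theorem eqv_of {p : Lab} {z z' : V} (hz : z ∈ U) (hz' : z' ∈ U) (hp : ρ z = p) (hp' : ρ z' = p)
    (hne : z ≠ z') : G.Adj z z' ∧ dg G z = 3 ∧ dg G z' = 3 := by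
  have h := (hE z hz z').1 ⟨hp'.trans hp.symm, hz'⟩
  rcases h with h | h
  · exact absurd h hne
  · exact h

include hS hP0 hA hI hE in
/-- No vertex of another class is adjacent to two vertices of a class. -/
theorem no_common {p : Lab} {z z' w : V} (hz : z ∈ U) (hz' : z' ∈ U) (hp : ρ z = p)
    (hp' : ρ z' = p) (hne : z ≠ z') (hw : w ∈ U) (hq : AAdj K P p (ρ w)) (h1 : G.Adj w z)
    (h2 : G.Adj w z') : False := by
  obtain ⟨-, hd, -⟩ := eqv_of hE hz hz' hp hp' hne
  obtain ⟨p1, p2, -⟩ := hP0 K P hA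
  obtain ⟨-, hVq, hpq⟩ := p1 _ _ hq
  have hd3 : dg G w ≠ 3 := by
    intro h3
    have := (hE z hz w).2 (Or.inr ⟨h1.symm, hd, h3⟩)
    exact hpq (hp.symm.trans this.1.symm)
  have hd2 : dg G w ≤ 2 := by
    have := dg_le_three (hS w)
    omega
  have key : ∀ q', AAdj K P (ρ w) q' → q' = p := by
    intro q' hq'
    obtain ⟨u, hu, v, hv, hu1, hv1, huv⟩ := hI.adj _ _ hq'
    have huw : w = u := by
      rcases (hE w hw u).1 ⟨hu1, hu⟩ with h | h
      · exact h
      · exact absurd h.2.1 hd3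
    subst huw
    rcases nb_two hd2 h1 h2 hne huv with rfl | rfl
    · exact hv1.symm.trans hp
    · exact hv1.symm.trans hp'
  obtain ⟨y, y', hyy, hy, hy'⟩ := p2 _ hVq
  exact hyy ((key _ hy).trans (key _ hy').symm)

include hS hP0 hA hI hE in
/-- A vertex of a class of size at least two has at most one pattern neighbour. -/
theorem no_two {p : Lab} {z z' x y : V} (hz : z ∈ U) (hz' : z' ∈ U) (hp : ρ z = p)
    (hp' : ρ z' = p) (hne : z ≠ z') (hx : x ∈ U) (hy : y ∈ U) (hxy : x ≠ y)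
    (hpx : AAdj K P p (ρ x)) (hpy : AAdj K P p (ρ y)) (hzx : G.Adj z x) (hzy : G.Adj z y) :
    False := by
  obtain ⟨hzz, hd, hd'⟩ := eqv_of hE hz hz' hp hp' hne
  obtain ⟨p1, -, -⟩ := hP0 K P hA
  have hxz' : z' ≠ x := by
    rintro rfl
    exact (p1 _ _ hpx).2.2 hp'.symm
  have hyz' : z' ≠ y := by
    rintro rfl
    exact (p1 _ _ hpy).2.2 hp'.symm
  have hN : ∀ {u}, G.Adj z u → u = z' ∨ u = x ∨ u = y := fun hu =>
    nb_three hd.le hzz hzx hzy hxz' hyz' hxy hu
  have fin : ∀ w, G.Adj z w → G.Adj z' w → False := by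
    intro w hw hw'
    rcases hN hw with rfl | rfl | rfl
    · exact hw'.ne rfl
    · exact no_common hS hP0 hA hI hE hz hz' hp hp' hne hx hpx hzx.symm hw'.symm
    · exact no_common hS hP0 hA hI hE hz hz' hp hp' hne hy hpy hzy.symm hw'.symm
  rcases hS z with h | h | h
  · omega
  · have := h.2 _ hzz
    omega
  · obtain ⟨-, a0, b0, c0, hab, hac, hbc, ha, hb, hc, habA, hc2⟩ := h
    rcases nb_three hd.le ha hb hc hab hac hbc hzz with rfl | rfl | rfl
    · exact fin _ hb habA
    · exact fin _ ha habA.symm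
    · omega

end

end ItF2b

open ItF2b in
/-- F2b: lock vertices. -/
theorem F2b (hF1 : PF1) (hP0 : PP0) : PF2b := by
  intro V _ G hS K P U ρ hA hI hE p a b c hab hac hbc hpa hpb hpc
  obtain ⟨p1, -, -⟩ := hP0 K P hA
  obtain ⟨ua, hua, va, hva, hua1, hva1, hA1⟩ := hI.adj _ _ hpa
  obtain ⟨ub, hub, vb, hvb, hub1, hvb1, hB1⟩ := hI.adj _ _ hpb
  obtain ⟨uc, huc, vc, hvc, huc1, hvc1, hC1⟩ := hI.adj _ _ hpc
  have hvab : va ≠ vb := by
    rintro rfl
    exact hab (hva1.symm.trans hvb1)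
  have hvac : va ≠ vc := by
    rintro rfl
    exact hac (hva1.symm.trans hvc1)
  have hvbc : vb ≠ vc := by
    rintro rfl
    exact hbc (hvb1.symm.trans hvc1)
  have hpa' : AAdj K P p (ρ va) := by rw [hva1]; exact hpa
  have hpb' : AAdj K P p (ρ vb) := by rw [hvb1]; exact hpb
  have hpc' : AAdj K P p (ρ vc) := by rw [hvc1]; exact hpc
  by_cases hxab : ua = ub
  · subst hxab
    -- all members of the class are equal to `ua`
    have huniq : ∀ v ∈ U, ρ v = p → v = ua := by
      intro v hv hvp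
      by_contra hne
      exact no_two hS hP0 hA hI hE hua hv hua1 hvp (Ne.symm hne) hva hvb hvab hpa' hpb' hA1 hB1
    have hxc := huniq uc huc huc1
    subst hxc
    refine ⟨uc, huc, huc1, ?_, fun v hv hvp hne => absurd (huniq v hv hvp) hne⟩
    have hc : ({va, vb, vc} : Set V).ncard = 3 :=
      Set.ncard_eq_three.2 ⟨va, vb, vc, hvab, hvac, hvbc, rfl⟩
    rw [← hc]
    apply Set.ncard_le_ncard _ (Set.toFinite _)
    intro t ht
    rcases ht with rfl | rfl | rfl
    · exact ⟨hva, hA1⟩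
    · exact ⟨hvb, hB1⟩
    · exact ⟨hvc, hC1⟩
  · by_cases hxac : ua = uc
    · subst hxac
      exact (no_two hS hP0 hA hI hE hua hub hua1 hub1 hxab hva hvc hvac hpa' hpc' hA1 hC1).elim
    · by_cases hxbc : ub = uc
      · subst hxbc
        exact (no_two hS hP0 hA hI hE hub hua hub1 hua1 (Ne.symm hxab) hvb hvc hvbc hpb' hpc'
          hB1 hC1).elim
      · have hall : ∀ v ∈ U, ρ v = p → v = ua ∨ v = ub ∨ v = uc := by
          have hcl := (hF1 G hS).2.1 ua
          have hc : ({ua, ub, uc} : Set V).ncard = 3 :=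
            Set.ncard_eq_three.2 ⟨ua, ub, uc, hxab, hxac, hxbc, rfl⟩
          have hsub : ({ua, ub, uc} : Set V) ⊆ cl G ua := by
            intro t ht
            rcases ht with rfl | rfl | rfl
            · exact Or.inl rfl
            · exact (hE ua hua _).1 ⟨hub1.trans hua1.symm, hub⟩
            · exact (hE ua hua _).1 ⟨huc1.trans hua1.symm, huc⟩
          have he : ({ua, ub, uc} : Set V) = cl G ua := by
            apply Set.eq_of_subset_of_ncard_le hsub _ (Set.toFinite _)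
            rw [hc]
            exact hcl
          intro v hv hvp
          have : v ∈ ({ua, ub, uc} : Set V) := by
            rw [he]
            exact (hE ua hua _).1 ⟨hvp.trans hua1.symm, hv⟩
          simpa using this
        obtain ⟨hadjb, -, -⟩ := eqv_of hE hua hub hua1 hub1 hxab
        obtain ⟨hadjc, -, -⟩ := eqv_of hE hua huc hua1 huc1 hxac
        have hne1 : ub ≠ va := by
          rintro rfl
          exact (p1 _ _ hpa').2.2 hub1.symm
        have hne2 : uc ≠ va := by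
          rintro rfl
          exact (p1 _ _ hpa').2.2 huc1.symm
        refine ⟨ua, hua, hua1, ?_, ?_⟩
        · have hc : ({ub, uc, va} : Set V).ncard = 3 :=
            Set.ncard_eq_three.2 ⟨ub, uc, va, hxbc, hne1, hne2, rfl⟩
          rw [← hc]
          apply Set.ncard_le_ncard _ (Set.toFinite _)
          intro t ht
          rcases ht with rfl | rfl | rfl
          · exact ⟨hub, hadjb⟩
          · exact ⟨huc, hadjc⟩
          · exact ⟨hva, hA1⟩
        · intro v hv hvp hne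
          rcases hall v hv hvp with rfl | rfl | rfl
          · exact absurd rfl hne
          · exact ⟨vb, hvb, fun h => (p1 _ _ hpb').2.2 h.symm, hB1⟩
          · exact ⟨vc, hvc, fun h => (p1 _ _ hpc').2.2 h.symm, hC1⟩

end Pool.Agent.PReg

end

section

/-!
# F3: the layout
-/

set_option autoImplicit false

namespace Pool.Agent.PReg

open Pool.Agent.PEmb

namespace ItF3

theorem zlab_rt0 (P : Par) (i j : ℕ) : zlab (rt0 P i j) = .cell i j := by
  simp [rt0, zlab]

theorem vx_of_adj {V : Type} {K : ℕ} {P : Par} {G : SimpleGraph V} {U : Set V} {ρ : V → Lab}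
    (h : IPat K P G U ρ) {x y : Lab} (ha : AAdj K P x y) : Vx K P x ∧ Vx K P y := by
  obtain ⟨u, hu, v, hv, rfl, rfl, -⟩ := h.adj x y ha
  exact ⟨h.vx u hu, h.vx v hv⟩

end ItF3

open ItF3 in
theorem F3 (hF3a : PF3a) (hF3b : PF3b) (hF3c : PF3c) (hF3d : PF3d) : PF3 := by
  classical
  intro V _ G k P U ρ hP hI hR
  obtain ⟨c1, c2, c3, c4, c5, c6⟩ := hF3c k P hP
  have hz : ∀ i j, i < k → j < k → ∃ z, z ∈ U ∧ ρ z = rt0 P i j ∧
      3 ≤ {v | v ∈ U ∧ G.Adj z v}.ncard ∧
      ∀ v ∈ U, ρ v = rt0 P i j → v ≠ z → ∃ u ∈ U, ρ u ≠ rt0 P i j ∧ G.Adj v u := by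
    intro i j hi hj
    obtain ⟨-, ⟨a, b, c, hab, hac, hbc, ha, hb, hc⟩, -⟩ := c6 i j hi hj
    obtain ⟨z, hz, h1, h2, h3⟩ := hR (rt0 P i j) a b c hab hac hbc ha hb hc
    exact ⟨z, hz, h1, h2, h3⟩
  choose z hzU hzr hz3 hzn using hz
  let L : Set V := {v | ∃ i j hi hj, v = z i j hi hj}
  let zn : V → Zn := fun v => if v ∈ U ∧ v ∉ L then zlab (ρ v) else .pin
  have hzL : ∀ i j (hi : i < k) (hj : j < k), z i j hi hj ∈ L := fun i j hi hj => ⟨i, j, hi, hj, rfl⟩
  -- zones
  have znU : ∀ v, zn v ≠ .pin → v ∈ U ∧ v ∉ L ∧ zn v = zlab (ρ v) := by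
    intro v hv
    by_cases h : v ∈ U ∧ v ∉ L
    · exact ⟨h.1, h.2, by simp only [zn, if_pos h]⟩
    · exact absurd (by simp only [zn, if_neg h]) hv
  have znc : ∀ v i j, zn v = .cell i j → v ∈ U ∧ v ∉ L ∧ zlab (ρ v) = .cell i j := by
    intro v i j hv
    obtain ⟨h1, h2, h3⟩ := znU v (by rw [hv]; simp)
    exact ⟨h1, h2, by rw [← h3, hv]⟩
  have znp : ∀ v o i j, zn v = .port o i j → v ∈ U ∧ v ∉ L ∧ zlab (ρ v) = .port o i j := by
    intro v o i j hv
    obtain ⟨h1, h2, h3⟩ := znU v (by rw [hv]; simp)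
    exact ⟨h1, h2, by rw [← h3, hv]⟩
  have znc' : ∀ v i j, ∀ (hi : i < k) (hj : j < k), v ∈ U → zlab (ρ v) = .cell i j → v ≠ z i j hi hj →
      zn v = .cell i j := by
    intro v i j hi hj hv hl hne
    have : v ∉ L := by
      rintro ⟨i', j', hi', hj', rfl⟩
      rw [hzr, zlab_rt0] at hl
      obtain ⟨rfl, rfl⟩ := Zn.cell.inj hl
      exact hne rfl
    simp only [zn]
    rw [if_pos ⟨hv, this⟩, hl]
  have znp' : ∀ v o i j, v ∈ U → zlab (ρ v) = .port o i j → zn v = .port o i j := by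
    intro v o i j hv hl
    have : v ∉ L := by
      rintro ⟨i', j', hi', hj', rfl⟩
      rw [hzr, zlab_rt0] at hl
      cases hl
    simp only [zn]
    rw [if_pos ⟨hv, this⟩, hl]
  have znr : ∀ v i j, ∀ (hi : i < k) (hj : j < k), v ∈ U → zlab (ρ v) = .cell i j → ρ v ≠ rt0 P i j →
      zn v = .cell i j := by
    intro v i j hi hj hv hl hne
    refine znc' v i j hi hj hv hl ?_
    rintro rfl
    exact hne (hzr i j hi hj)
  have hcellset : ∀ i j, ∀ (hi : i < k) (hj : j < k), {v | zn v = .cell i j} =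
      {u | u ∈ U ∧ ρ u ∈ {x | Vx (2 * k) P x ∧ zlab x = .cell i j ∧ x ≠ rt0 P i j}} ∪
        {v | v ∈ U ∧ ρ v = rt0 P i j ∧ v ≠ z i j hi hj} := by
    intro i j hi hj
    ext v
    simp only [Set.mem_setOf_eq, Set.mem_union]
    constructor
    · intro hv
      obtain ⟨h1, h2, h3⟩ := znc v i j hv
      by_cases h : ρ v = rt0 P i j
      · refine Or.inr ⟨h1, h, ?_⟩
        rintro rfl
        exact h2 (hzL i j hi hj)
      · exact Or.inl ⟨h1, hI.vx v h1, h3, h⟩
    · rintro (⟨h1, -, h3, h4⟩ | ⟨h1, h2, h3⟩)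
      · exact znr v i j hi hj h1 h3 h4
      · exact znc' v i j hi hj h1 (by rw [h2, zlab_rt0]) h3
  have hportset : ∀ o i j, {v | zn v = .port o i j} =
      {u | u ∈ U ∧ ρ u ∈ {x | Vx (2 * k) P x ∧ zlab x = .port o i j}} ∪ ∅ := by
    intro o i j
    ext v
    simp only [Set.mem_setOf_eq, Set.union_empty]
    constructor
    · intro hv
      obtain ⟨h1, h2, h3⟩ := znp v o i j hv
      exact ⟨h1, hI.vx v h1, h3⟩
    · rintro ⟨h1, -, h3⟩
      exact znp' v o i j h1 h3
  refine ⟨zn, fun v hv => (znU v hv).1, ?_, ?_⟩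
  · refine ⟨?_, ?_, ?_, ?_, ?_, ?_, ?_, ?_, ?_⟩
    · intro v i j hv
      obtain ⟨h1, -, h3⟩ := znc v i j hv
      exact c1 _ i j (hI.vx v h1) h3
    · intro v o i j hv
      obtain ⟨h1, -, h3⟩ := znp v o i j hv
      exact c2 _ o i j (hI.vx v h1) h3
    · intro u v i j i' j' ha hu hv
      obtain ⟨h1, -, h3⟩ := znc u i j hu
      obtain ⟨h1', -, h3'⟩ := znc v i' j' hv
      rcases hI.ind u h1 v h1' ha with h | h
      · rw [h, h3'] at h3
        obtain ⟨rfl, rfl⟩ := Zn.cell.inj h3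
        exact ⟨rfl, rfl⟩
      · exact c3 _ _ i j i' j' h h3 h3'
    · intro u v o i j o' i' j' ha hu hv
      obtain ⟨h1, -, h3⟩ := znp u o i j hu
      obtain ⟨h1', -, h3'⟩ := znp v o' i' j' hv
      rcases hI.ind u h1 v h1' ha with h | h
      · rw [h, h3'] at h3
        obtain ⟨rfl, rfl, rfl⟩ := Zn.port.inj h3
        exact ⟨rfl, rfl, rfl⟩
      · exact c4 _ _ o i j o' i' j' h h3 h3'
    · intro u v o i j i' j' ha hu hv
      obtain ⟨h1, -, h3⟩ := znp u o i j hu
      obtain ⟨h1', -, h3'⟩ := znc v i' j' hv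
      rcases hI.ind u h1 v h1' ha with h | h
      · rw [h, h3'] at h3
        cases h3
      · exact c5 _ _ o i j i' j' h h3 h3'
    · intro i j hi hj
      rw [hcellset i j hi hj]
      obtain ⟨-, ⟨a, b, c, hab, hac, hbc, ha, hb, hc⟩, hn⟩ := c6 i j hi hj
      refine hF3d G (2 * k) P U ρ hI _ _ (fun x hx => hx.1)
        ⟨a, (vx_of_adj hI ha).2, hn a ha⟩ ?_ ?_
      · intro x hx y hy
        refine Relation.ReflTransGen.mono ?_ x y
          (hF3a k P hP i j hi hj x y hx.1 hy.1 hx.2.1 hy.2.1 hx.2.2 hy.2.2)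
        rintro a b ⟨h1, h2, h3, h4, h5⟩
        exact ⟨h1, ⟨(vx_of_adj hI h1).1, h2, h4⟩, ⟨(vx_of_adj hI h1).2, h3, h5⟩⟩
      · rintro v ⟨hv, hv1, hv2⟩
        obtain ⟨u, hu, hu1, hu2⟩ := hzn i j hi hj v hv hv1 hv2
        refine ⟨u, hu, ?_, hu2⟩
        rcases hI.ind v hv u hu hu2 with h | h
        · exact absurd (h.symm.trans hv1) hu1
        · rw [hv1] at h
          exact ⟨hI.vx u hu, hn _ h⟩
    · intro o i j he
      rw [hportset o i j]
      obtain ⟨h1, ⟨x, y, hxy, hx, -, -⟩, -⟩ := hF3b k P hP o i j he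
      refine hF3d G (2 * k) P U ρ hI _ _ (fun x hx => hx.1)
        ⟨x, (vx_of_adj hI hxy).1, hx⟩ ?_ (fun v hv => absurd hv (Set.notMem_empty v))
      intro x hx y hy
      refine Relation.ReflTransGen.mono ?_ x y (h1 x y hx.1 hy.1 hx.2 hy.2)
      rintro a b ⟨h1, h2, h3⟩
      exact ⟨h1, ⟨(vx_of_adj hI h1).1, h2⟩, ⟨(vx_of_adj hI h1).2, h3⟩⟩
    · intro o i j he
      obtain ⟨-, ⟨x, y, hxy, hx, hy, hne⟩, -⟩ := hF3b k P hP o i j he
      obtain ⟨u, hu, v, hv, rfl, rfl, ha⟩ := hI.adj x y hxy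
      obtain ⟨hi, hj⟩ := c1 _ i j (hI.vx v hv) hy
      exact ⟨u, v, ha, znp' u o i j hu hx, znr v i j hi hj hv hy hne⟩
    · intro o i j he
      obtain ⟨-, -, ⟨x, y, hxy, hx, hy, hne⟩⟩ := hF3b k P hP o i j he
      obtain ⟨u, hu, v, hv, rfl, rfl, ha⟩ := hI.adj x y hxy
      obtain ⟨hi, hj⟩ := c1 _ _ _ (hI.vx v hv) hy
      exact ⟨u, v, ha, znp' u o i j hu hx, znr v _ _ hi hj hv hy hne⟩
  · intro i j hi hj
    obtain ⟨-, -, hn⟩ := c6 i j hi hj
    refine ⟨z i j hi hj, ?_, ?_⟩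
    · simp only [zn]
      rw [if_neg]
      rintro ⟨-, h⟩
      exact h (hzL i j hi hj)
    · have hsub : {v | v ∈ U ∧ G.Adj (z i j hi hj) v} ⊆
          {v | G.Adj (z i j hi hj) v ∧ zn v = .cell i j} := by
        rintro v ⟨hv, ha⟩
        refine ⟨ha, ?_⟩
        rcases hI.ind _ (hzU i j hi hj) v hv ha with h | h
        · refine znc' v i j hi hj hv ?_ ha.ne'
          rw [← h, hzr, zlab_rt0]
        · rw [hzr] at h
          exact znc' v i j hi hj hv (hn _ h).1 ha.ne'
      have := Set.ncard_le_ncard hsub (Set.toFinite _)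
      have := hz3 i j hi hj
      omega

end Pool.Agent.PReg

end

section

/-!
# F3a: a block without its root is connected
-/

set_option autoImplicit false

namespace Pool.Agent.PReg

open Pool.Agent.PEmb

namespace ItF3a

/-- a path of steps in both directions connects all its members -/
lemma path_conn {α : Type} {R : α → α → Prop} (f : ℕ → α) (a b : ℕ)
    (h : ∀ s, a ≤ s → s + 1 < b → R (f s) (f (s + 1)) ∧ R (f (s + 1)) (f s)) :
    ∀ s s', a ≤ s → s < b → a ≤ s' → s' < b → Relation.ReflTransGen R (f s) (f s') := by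
  have up : ∀ n s, a ≤ s → s + n < b → Relation.ReflTransGen R (f s) (f (s + n)) := by
    intro n
    induction n with
    | zero => intro s _ _; exact Relation.ReflTransGen.refl
    | succ n ih =>
      intro s h1 h2
      exact (ih s h1 (by omega)).tail (h (s + n) (by omega) (by omega)).1
  have down : ∀ n s, a ≤ s → s + n < b → Relation.ReflTransGen R (f (s + n)) (f s) := by
    intro n
    induction n with
    | zero => intro s _ _; exact Relation.ReflTransGen.refl
    | succ n ih =>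
      intro s h1 h2
      exact Relation.ReflTransGen.head (h (s + n) (by omega) (by omega)).2 (ih s h1 (by omega))
  intro s s' h1 h2 h3 h4
  rcases le_total s s' with h5 | h5
  · obtain ⟨n, rfl⟩ := Nat.exists_eq_add_of_le h5
    exact up n s h1 h4
  · obtain ⟨n, rfl⟩ := Nat.exists_eq_add_of_le h5
    exact down n s' h3 h2

variable {k : ℕ} {P : Par} {i j : ℕ}

/-- steps in the block without its root -/
def Rl (k : ℕ) (P : Par) (i j : ℕ) (a b : Lab) : Prop :=
  AAdj (2 * k) P a b ∧ zlab a = .cell i j ∧ zlab b = .cell i j ∧ a ≠ rt0 P i j ∧ b ≠ rt0 P i j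

/-- in the block, but not the root -/
def Bk (P : Par) (i j : ℕ) (x : Lab) : Prop := zlab x = .cell i j ∧ x ≠ rt0 P i j

lemma mk {a b : Lab} (h : AE (2 * k) P a b) (ha : Bk P i j a) (hb : Bk P i j b) :
    Rl k P i j a b ∧ Rl k P i j b a :=
  ⟨⟨Or.inl h, ha.1, hb.1, ha.2, hb.2⟩, ⟨Or.inr h, hb.1, ha.1, hb.2, ha.2⟩⟩

lemma bk_core {a b : ℕ} (s : ℕ) (ha : a / 2 = i) (hb : b / 2 = j) (h : ¬ (a = 2 * i ∧ b = 2 * j)) :
    Bk P i j (.core a b s) := by
  refine ⟨?_, ?_⟩
  · rw [show zlab (.core a b s) = .cell (a / 2) (b / 2) from rfl, ha, hb]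
  · intro e
    simp only [rt0, Lab.core.injEq] at e
    exact h ⟨e.1, e.2.1⟩

lemma bk_core0 {s : ℕ} (h : s ≠ P.r (2 * i) (2 * j) 0) : Bk P i j (.core (2 * i) (2 * j) s) := by
  refine ⟨?_, ?_⟩
  · rw [show zlab (.core (2 * i) (2 * j) s) = .cell (2 * i / 2) (2 * j / 2) from rfl]
    congr 1 <;> omega
  · intro e
    simp only [rt0, Lab.core.injEq, true_and] at e
    exact h e

lemma bk_legf {a : ℕ} (s : ℕ) (ha : a / 2 = i) : Bk P i j (.leg false a (2 * j) s) := by
  refine ⟨?_, by simp [rt0]⟩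
  rw [show zlab (.leg false a (2 * j) s) = if (2 * j) % 2 = 0 then .cell (a / 2) (2 * j / 2)
      else if a % 2 = 0 then .port false (a / 2) (2 * j / 2) else .pin from rfl,
    if_pos (by omega), ha]
  congr 1
  omega

lemma bk_legt {b : ℕ} (s : ℕ) (hb : b / 2 = j) : Bk P i j (.leg true (2 * i) b s) := by
  refine ⟨?_, by simp [rt0]⟩
  rw [show zlab (.leg true (2 * i) b s) = if (2 * i) % 2 = 0 then .cell (2 * i / 2) (b / 2)
      else if b % 2 = 0 then .port true (2 * i / 2) (b / 2) else .pin from rfl,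
    if_pos (by omega), hb]
  congr 1
  omega

lemma core_conn {a b : ℕ} (ha : a / 2 = i) (hb : b / 2 = j) (h : ¬ (a = 2 * i ∧ b = 2 * j))
    (hi : a < 2 * k) (hj : b < 2 * k) (s s' : ℕ) (hs : s < P.z a b) (hs' : s' < P.z a b) :
    Relation.ReflTransGen (Rl k P i j) (.core a b s) (.core a b s') := by
  refine path_conn (fun s => Lab.core a b s) 0 (P.z a b) ?_ s s' (Nat.zero_le _) hs
    (Nat.zero_le _) hs'
  intro t _ ht
  exact mk (AE.cyc a b t hi hj ht) (bk_core t ha hb h) (bk_core (t + 1) ha hb h)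

lemma core0_conn (hA : Adm (2 * k) P) (hi : i < k) (hj : j < k) (s s' : ℕ)
    (hs : s < P.z (2 * i) (2 * j)) (hs' : s' < P.z (2 * i) (2 * j))
    (h : s ≠ P.r (2 * i) (2 * j) 0) (h' : s' ≠ P.r (2 * i) (2 * j) 0) :
    Relation.ReflTransGen (Rl k P i j) (.core (2 * i) (2 * j) s) (.core (2 * i) (2 * j) s') := by
  have hi2 : 2 * i < 2 * k := by omega
  have hj2 : 2 * j < 2 * k := by omega
  have hz := hA.z4 (2 * i) (2 * j) hi2 hj2
  have hr := hA.rlt (2 * i) (2 * j) 0 hi2 hj2 (by omega)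
  set r := P.r (2 * i) (2 * j) 0 with hr0
  have low : ∀ s s', s < r → s' < r →
      Relation.ReflTransGen (Rl k P i j) (.core (2 * i) (2 * j) s) (.core (2 * i) (2 * j) s') := by
    intro s s' h1 h2
    refine path_conn (fun s => Lab.core (2 * i) (2 * j) s) 0 r ?_ s s' (Nat.zero_le _) h1
      (Nat.zero_le _) h2
    intro t _ ht
    exact mk (AE.cyc (2 * i) (2 * j) t hi2 hj2 (by omega)) (bk_core0 (by omega))
      (bk_core0 (by omega))
  have high : ∀ s s', r < s → s < P.z (2 * i) (2 * j) → r < s' → s' < P.z (2 * i) (2 * j) →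
      Relation.ReflTransGen (Rl k P i j) (.core (2 * i) (2 * j) s) (.core (2 * i) (2 * j) s') := by
    intro s s' h1 h2 h3 h4
    refine path_conn (fun s => Lab.core (2 * i) (2 * j) s) (r + 1) (P.z (2 * i) (2 * j)) ?_ s s'
      h1 h2 h3 h4
    intro t ht1 ht2
    exact mk (AE.cyc (2 * i) (2 * j) t hi2 hj2 (by omega)) (bk_core0 (by omega))
      (bk_core0 (by omega))
  have cl : 0 < r → r < P.z (2 * i) (2 * j) - 1 →
      Rl k P i j (.core (2 * i) (2 * j) (P.z (2 * i) (2 * j) - 1)) (.core (2 * i) (2 * j) 0) ∧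
      Rl k P i j (.core (2 * i) (2 * j) 0) (.core (2 * i) (2 * j) (P.z (2 * i) (2 * j) - 1)) := by
    intro h1 h2
    exact mk (AE.close (2 * i) (2 * j) hi2 hj2) (bk_core0 (by omega)) (bk_core0 (by omega))
  rcases Nat.lt_or_gt_of_ne h with h1 | h1 <;> rcases Nat.lt_or_gt_of_ne h' with h2 | h2
  · exact low s s' h1 h2
  · exact ((low s 0 h1 (by omega)).tail (cl (by omega) (by omega)).2).trans
      (high _ s' (by omega) (by omega) h2 hs')
  · exact ((high s _ h1 hs (by omega) (by omega)).tail (cl (by omega) (by omega)).1).trans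
      (low 0 s' (by omega) h2)
  · exact high s s' h1 hs h2 hs'

lemma leg_conn {o : Bool} {a b : ℕ} (hex : Ex (2 * k) o a b) (hB : ∀ s, Bk P i j (.leg o a b s))
    (s s' : ℕ) (h1 : 1 ≤ s) (h2 : s < P.l o a b) (h3 : 1 ≤ s') (h4 : s' < P.l o a b) :
    Relation.ReflTransGen (Rl k P i j) (.leg o a b s) (.leg o a b s') := by
  refine path_conn (fun s => Lab.leg o a b s) 1 (P.l o a b) ?_ s s' h1 h2 h3 h4
  intro t ht1 ht2
  exact mk (AE.step o a b t hex ht1 ht2) (hB t) (hB (t + 1))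

/-- every vertex of the block is joined to the target -/
lemma main (hA : Adm (2 * k) P) (hi : i < k) (hj : j < k) {x : Lab} (hx : Vx (2 * k) P x)
    (hz : zlab x = .cell i j) (hne : x ≠ rt0 P i j) :
    Relation.ReflTransGen (Rl k P i j) x (.core (2 * i + 1) (2 * j + 1) 0) := by
  have i0 : 2 * i < 2 * k := by omega
  have i1 : 2 * i + 1 < 2 * k := by omega
  have j0 : 2 * j < 2 * k := by omega
  have j1 : 2 * j + 1 < 2 * k := by omega
  have di0 : 2 * i / 2 = i := by omega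
  have di1 : (2 * i + 1) / 2 = i := by omega
  have dj0 : 2 * j / 2 = j := by omega
  have dj1 : (2 * j + 1) / 2 = j := by omega
  have exf : ∀ a, a < 2 * k → Ex (2 * k) false a (2 * j) := fun a ha =>
    ⟨ha, show 2 * j + 1 < 2 * k by omega⟩
  have ext : ∀ b, b < 2 * k → Ex (2 * k) true (2 * i) b := fun b hb =>
    ⟨show 2 * i + 1 < 2 * k by omega, hb⟩
  have hll : ∀ o a b, Ex (2 * k) o a b → 2 ≤ P.l o a b := by
    intro o a b h
    have := hA.lbig o a b 0 0 h (by omega) (by omega)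
    omega
  have z00 := hA.z4 (2 * i) (2 * j) i0 j0
  have z10 := hA.z4 (2 * i + 1) (2 * j) i1 j0
  have z01 := hA.z4 (2 * i) (2 * j + 1) i0 j1
  have z11 := hA.z4 (2 * i + 1) (2 * j + 1) i1 j1
  have n10 : ¬ (2 * i + 1 = 2 * i ∧ 2 * j = 2 * j) := by omega
  have n01 : ¬ (2 * i = 2 * i ∧ 2 * j + 1 = 2 * j) := by omega
  have n11 : ¬ (2 * i + 1 = 2 * i ∧ 2 * j + 1 = 2 * j) := by omega
  -- the cycle (2i+1, 2j+1)
  have T1 : ∀ s, s < P.z (2 * i + 1) (2 * j + 1) → Relation.ReflTransGen (Rl k P i j)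
      (.core (2 * i + 1) (2 * j + 1) s) (.core (2 * i + 1) (2 * j + 1) 0) := fun s hs =>
    core_conn di1 dj1 n11 i1 j1 s 0 hs (by omega)
  -- the leg false (2i+1) (2j)
  have T2 : ∀ s, 1 ≤ s → s < P.l false (2 * i + 1) (2 * j) → Relation.ReflTransGen (Rl k P i j)
      (.leg false (2 * i + 1) (2 * j) s) (.core (2 * i + 1) (2 * j + 1) 0) := by
    intro s h1 h2
    have hl := hll _ _ _ (exf _ i1)
    exact ((leg_conn (exf _ i1) (fun s => bk_legf s di1) s _ h1 h2 (by omega) (by omega)).tail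
      (mk (AE.inn false (2 * i + 1) (2 * j) (exf _ i1)) (bk_legf _ di1)
        (bk_core _ di1 dj1 n11)).1).trans (T1 _ (hA.rlt _ _ _ i1 j1 (by decide)))
  -- the cycle (2i+1, 2j)
  have T3 : ∀ s, s < P.z (2 * i + 1) (2 * j) → Relation.ReflTransGen (Rl k P i j)
      (.core (2 * i + 1) (2 * j) s) (.core (2 * i + 1) (2 * j + 1) 0) := by
    intro s hs
    have hl := hll _ _ _ (exf _ i1)
    exact ((core_conn di1 dj0 n10 i1 j0 s (P.r (2 * i + 1) (2 * j) (ro false)) hs
      (hA.rlt _ _ _ i1 j0 (by decide))).tail (mk (AE.out false (2 * i + 1) (2 * j) (exf _ i1))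
        (bk_core _ di1 dj0 n10) (bk_legf _ di1)).1).trans (T2 1 le_rfl (by omega))
  -- the leg true (2i) (2j+1)
  have T4 : ∀ s, 1 ≤ s → s < P.l true (2 * i) (2 * j + 1) → Relation.ReflTransGen (Rl k P i j)
      (.leg true (2 * i) (2 * j + 1) s) (.core (2 * i + 1) (2 * j + 1) 0) := by
    intro s h1 h2
    have hl := hll _ _ _ (ext _ j1)
    exact ((leg_conn (ext _ j1) (fun s => bk_legt s dj1) s _ h1 h2 (by omega) (by omega)).tail
      (mk (AE.inn true (2 * i) (2 * j + 1) (ext _ j1)) (bk_legt _ dj1)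
        (bk_core _ di1 dj1 n11)).1).trans (T1 _ (hA.rlt _ _ _ i1 j1 (by decide)))
  -- the cycle (2i, 2j+1)
  have T5 : ∀ s, s < P.z (2 * i) (2 * j + 1) → Relation.ReflTransGen (Rl k P i j)
      (.core (2 * i) (2 * j + 1) s) (.core (2 * i + 1) (2 * j + 1) 0) := by
    intro s hs
    have hl := hll _ _ _ (ext _ j1)
    exact ((core_conn di0 dj1 n01 i0 j1 s (P.r (2 * i) (2 * j + 1) (ro true)) hs
      (hA.rlt _ _ _ i0 j1 (by decide))).tail (mk (AE.out true (2 * i) (2 * j + 1) (ext _ j1))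
        (bk_core _ di0 dj1 n01) (bk_legt _ dj1)).1).trans (T4 1 le_rfl (by omega))
  -- the leg true (2i) (2j)
  have T6 : ∀ s, 1 ≤ s → s < P.l true (2 * i) (2 * j) → Relation.ReflTransGen (Rl k P i j)
      (.leg true (2 * i) (2 * j) s) (.core (2 * i + 1) (2 * j + 1) 0) := by
    intro s h1 h2
    have hl := hll _ _ _ (ext _ j0)
    exact ((leg_conn (ext _ j0) (fun s => bk_legt s dj0) s _ h1 h2 (by omega) (by omega)).tail
      (mk (AE.inn true (2 * i) (2 * j) (ext _ j0)) (bk_legt _ dj0)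
        (bk_core _ di1 dj0 n10)).1).trans (T3 _ (hA.rlt _ _ _ i1 j0 (by decide)))
  -- the cycle (2i, 2j)
  have T7 : ∀ s, s < P.z (2 * i) (2 * j) → s ≠ P.r (2 * i) (2 * j) 0 →
      Relation.ReflTransGen (Rl k P i j)
      (.core (2 * i) (2 * j) s) (.core (2 * i + 1) (2 * j + 1) 0) := by
    intro s hs hs0
    have hl := hll _ _ _ (ext _ j0)
    have h20 : P.r (2 * i) (2 * j) (ro true) ≠ P.r (2 * i) (2 * j) 0 := by
      intro e
      have := hA.rinj (2 * i) (2 * j) (ro true) 0 i0 j0 (by decide) (by decide) e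
      simp [ro] at this
    exact ((core0_conn hA hi hj s (P.r (2 * i) (2 * j) (ro true)) hs
      (hA.rlt _ _ _ i0 j0 (by decide)) hs0 h20).tail (mk (AE.out true (2 * i) (2 * j) (ext _ j0))
        (bk_core0 h20) (bk_legt _ dj0)).1).trans (T6 1 le_rfl (by omega))
  -- the leg false (2i) (2j)
  have T8 : ∀ s, 1 ≤ s → s < P.l false (2 * i) (2 * j) → Relation.ReflTransGen (Rl k P i j)
      (.leg false (2 * i) (2 * j) s) (.core (2 * i + 1) (2 * j + 1) 0) := by
    intro s h1 h2
    have hl := hll _ _ _ (exf _ i0)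
    exact ((leg_conn (exf _ i0) (fun s => bk_legf s di0) s _ h1 h2 (by omega) (by omega)).tail
      (mk (AE.inn false (2 * i) (2 * j) (exf _ i0)) (bk_legf _ di0)
        (bk_core _ di0 dj1 n01)).1).trans (T5 _ (hA.rlt _ _ _ i0 j1 (by decide)))
  rcases x with ⟨a, b, s⟩ | ⟨_ | _, a, b, s⟩
  · rw [show zlab (.core a b s) = .cell (a / 2) (b / 2) from rfl, Zn.cell.injEq] at hz
    obtain ⟨h1, h2⟩ := hz
    obtain ⟨-, -, hs⟩ := hx
    have ha : a = 2 * i ∨ a = 2 * i + 1 := by omega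
    have hb : b = 2 * j ∨ b = 2 * j + 1 := by omega
    rcases ha with rfl | rfl <;> rcases hb with rfl | rfl
    · refine T7 s hs ?_
      rintro rfl
      exact hne rfl
    · exact T5 s hs
    · exact T3 s hs
    · exact T1 s hs
  · rw [show zlab (.leg false a b s) = if b % 2 = 0 then .cell (a / 2) (b / 2)
      else if a % 2 = 0 then .port false (a / 2) (b / 2) else .pin from rfl] at hz
    split_ifs at hz
    rw [Zn.cell.injEq] at hz
    obtain ⟨h1, h2⟩ := hz
    obtain ⟨-, hs1, hs2⟩ := hx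
    have ha : a = 2 * i ∨ a = 2 * i + 1 := by omega
    have hb : b = 2 * j := by omega
    subst hb
    rcases ha with rfl | rfl
    · exact T8 s hs1 hs2
    · exact T2 s hs1 hs2
  · rw [show zlab (.leg true a b s) = if a % 2 = 0 then .cell (a / 2) (b / 2)
      else if b % 2 = 0 then .port true (a / 2) (b / 2) else .pin from rfl] at hz
    split_ifs at hz
    rw [Zn.cell.injEq] at hz
    obtain ⟨h1, h2⟩ := hz
    obtain ⟨-, hs1, hs2⟩ := hx
    have ha : a = 2 * i := by omega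
    have hb : b = 2 * j ∨ b = 2 * j + 1 := by omega
    subst ha
    rcases hb with rfl | rfl
    · exact T6 s hs1 hs2
    · exact T4 s hs1 hs2

end ItF3a

open ItF3a

theorem F3a : PF3a := by
  intro k P hA i j hi hj x y hx hy hzx hzy hx0 hy0
  have hsym : Std.Symm (Rl k P i j) := ⟨by
    rintro a b ⟨h1, h2, h3, h4, h5⟩
    exact ⟨h1.symm, h3, h2, h5, h4⟩⟩
  have h2 : Std.Symm (Relation.ReflTransGen (Rl k P i j)) := Relation.ReflTransGen.symmetric
  exact (main hA hi hj hx hzx hx0).trans (h2.symm _ _ (main hA hi hj hy hzy hy0))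

end Pool.Agent.PReg

end

section

/-!
# F3b: ports are connected and not empty
-/

set_option autoImplicit false

namespace Pool.Agent.PReg

open Pool.Agent.PEmb

namespace ItF3b

/-- a path of steps in both directions connects all its members -/
lemma path_conn {α : Type} {R : α → α → Prop} (f : ℕ → α) (a b : ℕ)
    (h : ∀ s, a ≤ s → s + 1 < b → R (f s) (f (s + 1)) ∧ R (f (s + 1)) (f s)) :
    ∀ s s', a ≤ s → s < b → a ≤ s' → s' < b → Relation.ReflTransGen R (f s) (f s') := by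
  have up : ∀ n s, a ≤ s → s + n < b → Relation.ReflTransGen R (f s) (f (s + n)) := by
    intro n
    induction n with
    | zero => intro s _ _; exact Relation.ReflTransGen.refl
    | succ n ih =>
      intro s h1 h2
      exact (ih s h1 (by omega)).tail (h (s + n) (by omega) (by omega)).1
  have down : ∀ n s, a ≤ s → s + n < b → Relation.ReflTransGen R (f (s + n)) (f s) := by
    intro n
    induction n with
    | zero => intro s _ _; exact Relation.ReflTransGen.refl
    | succ n ih =>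
      intro s h1 h2
      exact Relation.ReflTransGen.head (h (s + n) (by omega) (by omega)).2 (ih s h1 (by omega))
  intro s s' h1 h2 h3 h4
  rcases le_total s s' with h5 | h5
  · obtain ⟨n, rfl⟩ := Nat.exists_eq_add_of_le h5
    exact up n s h1 h4
  · obtain ⟨n, rfl⟩ := Nat.exists_eq_add_of_le h5
    exact down n s' h3 h2

lemma port_false {K : ℕ} {P : Par} {x : Lab} {i j : ℕ} (hx : Vx K P x)
    (h : zlab x = .port false i j) :
    ∃ s, x = .leg false (2 * i) (2 * j + 1) s ∧ 1 ≤ s ∧ s < P.l false (2 * i) (2 * j + 1) := by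
  rcases x with ⟨a, b, s⟩ | ⟨_ | _, a, b, s⟩
  · simp [zlab] at h
  · simp only [zlab] at h
    split_ifs at h with h1 h2
    simp only [Zn.port.injEq, true_and] at h
    have ha : a = 2 * i := by omega
    have hb : b = 2 * j + 1 := by omega
    subst ha hb
    exact ⟨s, rfl, hx.2.1, hx.2.2⟩
  · simp only [zlab] at h
    split_ifs at h with h1 h2
    simp at h

lemma port_true {K : ℕ} {P : Par} {x : Lab} {i j : ℕ} (hx : Vx K P x)
    (h : zlab x = .port true i j) :
    ∃ s, x = .leg true (2 * i + 1) (2 * j) s ∧ 1 ≤ s ∧ s < P.l true (2 * i + 1) (2 * j) := by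
  rcases x with ⟨a, b, s⟩ | ⟨_ | _, a, b, s⟩
  · simp [zlab] at h
  · simp only [zlab] at h
    split_ifs at h with h1 h2
    simp at h
  · simp only [zlab] at h
    split_ifs at h with h1 h2
    simp only [Zn.port.injEq, true_and] at h
    have ha : a = 2 * i + 1 := by omega
    have hb : b = 2 * j := by omega
    subst ha hb
    exact ⟨s, rfl, hx.2.1, hx.2.2⟩

lemma zf (i j s : ℕ) : zlab (.leg false (2 * i) (2 * j + 1) s) = .port false i j := by
  simp only [zlab]
  rw [if_neg (by omega), if_pos (by omega)]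
  congr 1 <;> omega

lemma zt (i j s : ℕ) : zlab (.leg true (2 * i + 1) (2 * j) s) = .port true i j := by
  simp only [zlab]
  rw [if_neg (by omega), if_pos (by omega)]
  congr 1 <;> omega

end ItF3b

open ItF3b

theorem F3b : PF3b := by
  intro k P hA o i j hex
  cases o with
  | false =>
    have h1 : i < k := hex.1
    have h2 : j + 1 < k := hex.2
    have hex' : Ex (2 * k) false (2 * i) (2 * j + 1) :=
      ⟨show 2 * i < 2 * k by omega, show 2 * j + 1 + 1 < 2 * k by omega⟩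
    have hl := hA.lbig false (2 * i) (2 * j + 1) 0 0 hex' (by omega) (by omega)
    have hz := hA.z4 0 0 (by omega) (by omega)
    refine ⟨?_, ?_, ?_⟩
    · intro x y hx hy hzx hzy
      obtain ⟨s, rfl, hs1, hs2⟩ := port_false hx hzx
      obtain ⟨t, rfl, ht1, ht2⟩ := port_false hy hzy
      refine path_conn (fun s => Lab.leg false (2 * i) (2 * j + 1) s) 1
        (P.l false (2 * i) (2 * j + 1)) ?_ s t hs1 hs2 ht1 ht2
      intro s h3 h4
      have e := AE.step (P := P) false (2 * i) (2 * j + 1) s hex' h3 h4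
      exact ⟨⟨Or.inl e, zf i j s, zf i j (s + 1)⟩, ⟨Or.inr e, zf i j (s + 1), zf i j s⟩⟩
    · refine ⟨.leg false (2 * i) (2 * j + 1) 1,
        .core (2 * i) (2 * j + 1) (P.r (2 * i) (2 * j + 1) (ro false)),
        Or.inr (AE.out false (2 * i) (2 * j + 1) hex'), zf i j 1, ?_, ?_⟩
      · simp only [zlab]
        congr 1 <;> omega
      · intro h
        simp only [rt0, Lab.core.injEq] at h
        omega
    · refine ⟨.leg false (2 * i) (2 * j + 1) (P.l false (2 * i) (2 * j + 1) - 1),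
        .core (2 * i) (2 * j + 1 + 1) (P.r (2 * i) (2 * j + 1 + 1) (ri false)),
        Or.inl (AE.inn false (2 * i) (2 * j + 1) hex'), zf i j _, ?_, ?_⟩
      · simp only [zlab, nx]
        congr 1 <;> omega
      · intro h
        have e : 2 * j + 1 + 1 = 2 * (j + 1) := by ring
        simp only [rt0, nx, Lab.core.injEq, e, true_and, ri] at h
        have := hA.rinj (2 * i) (2 * (j + 1)) 1 0 (by omega) (by omega) (by omega) (by omega) h
        omega
  | true =>
    have h1 : i + 1 < k := hex.1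
    have h2 : j < k := hex.2
    have hex' : Ex (2 * k) true (2 * i + 1) (2 * j) :=
      ⟨show 2 * i + 1 + 1 < 2 * k by omega, show 2 * j < 2 * k by omega⟩
    have hl := hA.lbig true (2 * i + 1) (2 * j) 0 0 hex' (by omega) (by omega)
    have hz := hA.z4 0 0 (by omega) (by omega)
    refine ⟨?_, ?_, ?_⟩
    · intro x y hx hy hzx hzy
      obtain ⟨s, rfl, hs1, hs2⟩ := port_true hx hzx
      obtain ⟨t, rfl, ht1, ht2⟩ := port_true hy hzy
      refine path_conn (fun s => Lab.leg true (2 * i + 1) (2 * j) s) 1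
        (P.l true (2 * i + 1) (2 * j)) ?_ s t hs1 hs2 ht1 ht2
      intro s h3 h4
      have e := AE.step (P := P) true (2 * i + 1) (2 * j) s hex' h3 h4
      exact ⟨⟨Or.inl e, zt i j s, zt i j (s + 1)⟩, ⟨Or.inr e, zt i j (s + 1), zt i j s⟩⟩
    · refine ⟨.leg true (2 * i + 1) (2 * j) 1,
        .core (2 * i + 1) (2 * j) (P.r (2 * i + 1) (2 * j) (ro true)),
        Or.inr (AE.out true (2 * i + 1) (2 * j) hex'), zt i j 1, ?_, ?_⟩
      · simp only [zlab]
        congr 1 <;> omega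
      · intro h
        simp only [rt0, Lab.core.injEq] at h
        omega
    · refine ⟨.leg true (2 * i + 1) (2 * j) (P.l true (2 * i + 1) (2 * j) - 1),
        .core (2 * i + 1 + 1) (2 * j) (P.r (2 * i + 1 + 1) (2 * j) (ri true)),
        Or.inl (AE.inn true (2 * i + 1) (2 * j) hex'), zt i j _, ?_, ?_⟩
      · simp only [zlab, nx]
        congr 1 <;> omega
      · intro h
        have e : 2 * i + 1 + 1 = 2 * (i + 1) := by ring
        simp only [rt0, nx, Lab.core.injEq, e, true_and, ri] at h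
        have := hA.rinj (2 * (i + 1)) (2 * j) 3 0 (by omega) (by omega) (by omega) (by omega) h
        omega

end Pool.Agent.PReg

end

section

/-!
# Item F3d
-/

set_option autoImplicit false

namespace Pool.Agent.PReg

open Pool.Agent.PEmb

namespace ItF3d

variable {V : Type} {G : SimpleGraph V}

lemma reach_mono {A B : Set V} (h : A ⊆ B) {u v : A} (hr : (G.induce A).Reachable u v) :
    (G.induce B).Reachable ⟨u.1, h u.2⟩ ⟨v.1, h v.2⟩ := by
  have := hr.map (SimpleGraph.induceHomOfLE G h).toHom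
  exact this

end ItF3d

open ItF3d in
theorem F3d : PF3d := by
  intro V G K P U ρ hI Bl E hBl hne hconn hE
  set S : Set V := {u | u ∈ U ∧ ρ u ∈ Bl} ∪ E with hS
  obtain ⟨x0, hx0⟩ := hne
  obtain ⟨u0, hu0⟩ := (hI.conn x0 (hBl x0 hx0)).nonempty
  have hsub : ∀ x ∈ Bl, {u | u ∈ U ∧ ρ u = x} ⊆ S := by
    rintro x hx u ⟨h1, h2⟩
    refine Or.inl ⟨h1, ?_⟩
    rw [h2]
    exact hx
  have hu0S : u0 ∈ S := hsub x0 hx0 hu0
  have key : ∀ y, Relation.ReflTransGen (fun a b => AAdj K P a b ∧ a ∈ Bl ∧ b ∈ Bl) x0 y →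
      y ∈ Bl → ∀ (u : V) (hu : u ∈ U ∧ ρ u = y) (huS : u ∈ S),
        (G.induce S).Reachable ⟨u0, hu0S⟩ ⟨u, huS⟩ := by
    intro y hy
    induction hy with
    | refl =>
      intro hy u hu huS
      exact reach_mono (hsub x0 hx0) ((hI.conn x0 (hBl x0 hx0)).preconnected ⟨u0, hu0⟩ ⟨u, hu⟩)
    | tail hab hbc ih =>
      rename_i b c'
      intro hc u hu huS
      obtain ⟨hadj, hb, _⟩ := hbc
      obtain ⟨p, hp, q, hq, h1, h2, h3⟩ := hI.adj b c' hadj
      have hpS : p ∈ S := hsub b hb ⟨hp, h1⟩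
      have hqS : q ∈ S := hsub c' hc ⟨hq, h2⟩
      have r1 := ih hb p ⟨hp, h1⟩ hpS
      have r2 : (G.induce S).Reachable ⟨p, hpS⟩ ⟨q, hqS⟩ :=
        SimpleGraph.Adj.reachable (G := G.induce S) (by simpa using h3)
      have r3 := reach_mono (hsub c' hc)
        ((hI.conn c' (hBl c' hc)).preconnected ⟨q, hq, h2⟩ ⟨u, hu⟩)
      exact (r1.trans r2).trans r3
  have key2 : ∀ (u : V) (huS : u ∈ S), (G.induce S).Reachable ⟨u0, hu0S⟩ ⟨u, huS⟩ := by
    intro u huS
    rcases huS with h | h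
    · exact key (ρ u) (hconn x0 hx0 (ρ u) h.2) h.2 u ⟨h.1, rfl⟩ (Or.inl h)
    · obtain ⟨v, hv, hvB, hadj⟩ := hE u h
      have hvS : v ∈ S := Or.inl ⟨hv, hvB⟩
      have r1 := key (ρ v) (hconn x0 hx0 (ρ v) hvB) hvB v ⟨hv, rfl⟩ hvS
      have r2 : (G.induce S).Reachable ⟨v, hvS⟩ ⟨u, Or.inr h⟩ :=
        SimpleGraph.Adj.reachable (G := G.induce S) (by simpa using hadj.symm)
      exact r1.trans r2
  haveI : Nonempty S := ⟨⟨u0, hu0S⟩⟩
  exact SimpleGraph.Connected.mk fun a b =>
    ((key2 a.1 a.2).symm.trans (key2 b.1 b.2))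

end Pool.Agent.PReg

end

section

/-!
# F4: models in restrictions
-/

set_option autoImplicit false

namespace Pool.Agent.PReg

open Pool.Agent.PEmb

namespace ItF4

variable {V : Type}

theorem sub (hP0 : PP0) (G : SimpleGraph V) (S : Set V) (K : ℕ) (P : Par) (U : Set V)
    (ρ : V → Lab) (hA : Adm K P) (hI : IPat K P (rs G S) U ρ) : U ⊆ S := by
  intro u hu
  have hx : Vx K P (ρ u) := hI.vx u hu
  obtain ⟨y, z, hyz, hxy, hxz⟩ := (hP0 K P hA).2.1 (ρ u) hx
  obtain ⟨u', hu', v', hv', h1, h2, h3⟩ := hI.adj (ρ u) y hxy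
  by_cases huu : u' = u
  · rw [← huu]; exact h3.2.1
  · have hc := hI.conn (ρ u) hx
    have hne : (⟨u, hu, rfl⟩ : {w : V // w ∈ {w | w ∈ U ∧ ρ w = ρ u}}) ≠
        (⟨u', hu', h1⟩ : {w : V // w ∈ {w | w ∈ U ∧ ρ w = ρ u}}) := by
      intro h
      exact huu (congrArg Subtype.val h).symm
    have : Nontrivial {w : V // w ∈ {w | w ∈ U ∧ ρ w = ρ u}} := ⟨⟨_, _, hne⟩⟩
    have hs := hc.preconnected.support_eq_univ
    have hm : (⟨u, hu, rfl⟩ : {w : V // w ∈ {w | w ∈ U ∧ ρ w = ρ u}}) ∈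
        ((rs G S).induce {w | w ∈ U ∧ ρ w = ρ u}).support := by
      rw [hs]; exact Set.mem_univ _
    rw [SimpleGraph.mem_support] at hm
    obtain ⟨w, hw⟩ := hm
    have hw' : (rs G S).Adj u w.1 := hw
    exact hw'.2.1

theorem ipat (G : SimpleGraph V) (S : Set V) (K : ℕ) (P : Par) (U : Set V)
    (ρ : V → Lab) (hI : IPat K P (rs G S) U ρ) (hS : U ⊆ S) : IPat K P G U ρ where
  vx := hI.vx
  conn := by
    intro x hx
    have hle : (rs G S).induce {u | u ∈ U ∧ ρ u = x} ≤ G.induce {u | u ∈ U ∧ ρ u = x} := by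
      intro a b h
      have h' : (rs G S).Adj a.1 b.1 := h
      exact h'.1
    exact (hI.conn x hx).mono hle
  adj := by
    intro x y hxy
    obtain ⟨u, hu, v, hv, h1, h2, h3⟩ := hI.adj x y hxy
    exact ⟨u, hu, v, hv, h1, h2, h3.1⟩
  ind := by
    intro u hu v hv h
    exact hI.ind u hu v hv ⟨h, hS hu, hS hv⟩

end ItF4

/-- F4: models in restrictions. -/
theorem F4 (hP0 : PP0) : PF4 := by
  intro V _ G S K P U ρ hA hI hR
  have hS := ItF4.sub hP0 G S K P U ρ hA hI
  refine ⟨hS, ItF4.ipat G S K P U ρ hI hS, ?_⟩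
  intro p a b c hab hac hbc ha hb hc
  obtain ⟨z, hz, hzp, h3, h4⟩ := hR p a b c hab hac hbc ha hb hc
  refine ⟨z, hz, hzp, ?_, ?_⟩
  · exact h3.trans (Set.ncard_le_ncard (fun v hv => ⟨hv.1, hv.2.1⟩) (Set.toFinite _))
  · intro v hv hvp hvz
    obtain ⟨u, hu, hup, hadj⟩ := h4 v hv hvp hvz
    exact ⟨u, hu, hup, hadj.1⟩

end Pool.Agent.PReg

end

section

/-!
# F5: grid minors of induced subgraphs
-/

set_option autoImplicit false

namespace Pool.Agent.PReg

open Pool.Agent.PEmb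

namespace ItF5

theorem conn {V : Type} (G : SimpleGraph V) (D : Set V) (B : Set D)
    (h : ((G.induce D).induce B).Connected) : ((rs G D).induce (Subtype.val '' B)).Connected := by
  let φ : (G.induce D).induce B →g (rs G D).induce (Subtype.val '' B) :=
    { toFun := fun x => ⟨x.1.1, x.1, x.2, rfl⟩
      map_rel' := by
        intro x y hxy
        exact ⟨hxy, x.1.2, y.1.2⟩ }
  have hsurj : Function.Surjective φ := by
    rintro ⟨_, x, hx, rfl⟩
    exact ⟨⟨x, hx⟩, rfl⟩
  exact h.map φ hsurj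

end ItF5

theorem F5 : PF5 := by
  intro V G D K B hB
  refine ⟨fun x y => Subtype.val '' (B x y), ?_, ?_, ?_, ?_⟩
  · intro x y hx hy
    exact ItF5.conn G D _ (hB.conn x y hx hy)
  · intro x y x' y' hx hy hx' hy' hne
    exact (Set.disjoint_image_iff Subtype.val_injective).mpr (hB.disj x y x' y' hx hy hx' hy' hne)
  · intro x y hx hy
    obtain ⟨a, ha, b, hb, hab⟩ := hB.hor x y hx hy
    exact ⟨a.1, ⟨a, ha, rfl⟩, b.1, ⟨b, hb, rfl⟩, hab, a.2, b.2⟩
  · intro x y hx hy
    obtain ⟨a, ha, b, hb, hab⟩ := hB.ver x y hx hy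
    exact ⟨a.1, ⟨a, ha, rfl⟩, b.1, ⟨b, hb, rfl⟩, hab, a.2, b.2⟩

end Pool.Agent.PReg

end

section

/-!
# F: layouts in a thin part with a large grid minor
-/

set_option autoImplicit false

namespace Pool.Agent.PReg

open Pool.Agent.PEmb

theorem Fall (hS : PS) (h5 : PS5) (h1 : PS1) (h2 : PS2) (hG : PGr) (hE : PE23) (f1 : PF1)
    (f2 : PF2) (f3 : PF3) (f4 : PF4) : PF := by
  intro k d
  obtain ⟨K1, hK1⟩ := hE (2 * k)
  obtain ⟨w1, hw1⟩ := hG K1
  obtain ⟨K, hK⟩ := hS d (3 * (w1 + 1) + 2)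
  refine ⟨K, fun {V} _ G D hd B hB => ?_⟩
  obtain ⟨S, ⟨B', hB'⟩, hsat⟩ := hK (rs G D) hd B hB
  have e := (h5 G D S).2.1
  rw [e] at hB' hsat
  -- the quotient has large tree width
  have n1 : ¬ TreeWidthLE (rs G (D ∩ S)) (3 * (w1 + 1)) := by
    intro h
    have := h2 _ _ _ _ h hB'
    omega
  have n2 : ¬ TreeWidthLE (quo (rs G (D ∩ S)) (cl (rs G (D ∩ S)))) w1 := by
    intro h
    refine n1 (h1 _ _ 3 w1 (fun a => ?_) h)
    obtain ⟨g1, g2, -⟩ := f1 (rs G (D ∩ S)) hsat
    by_cases hne : (cl (rs G (D ∩ S)) ⁻¹' {a}).Nonempty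
    · obtain ⟨x, hx⟩ := hne
      have hx : cl (rs G (D ∩ S)) x = a := hx
      have hsub : cl (rs G (D ∩ S)) ⁻¹' {a} ⊆ a := by
        intro y hy
        have hy : cl (rs G (D ∩ S)) y = a := hy
        rw [← hy]
        exact g1.refl y
      refine (Set.encard_le_encard hsub).trans ?_
      rw [← hx, ← (Set.toFinite (cl (rs G (D ∩ S)) x)).cast_ncard_eq]
      exact_mod_cast g2 x
    · rw [Set.not_nonempty_iff_eq_empty.1 hne]
      simp
  obtain ⟨B2, hB2⟩ := hw1 _ n2
  obtain ⟨P, hP, hpat⟩ := hK1 _ B2 hB2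
  obtain ⟨U, ρ, hI, hR⟩ := f2 _ hsat (2 * k) P hP hpat
  obtain ⟨hU, hI', hR'⟩ := f4 G (D ∩ S) (2 * k) P U ρ hP hI hR
  obtain ⟨zn, z1, z2, z3⟩ := f3 G k P U ρ hP hI' hR'
  exact ⟨zn, fun v hv => (hU (z1 v hv)).1, z2, z3⟩

end Pool.Agent.PReg

end

section

/-!
# Assembly of the first main theorem
-/

set_option autoImplicit false

namespace Pool.Agent.PReg

open Pool.Agent.PEmb

theorem core_lo {V : Type} [Finite V] (δ : ℕ) (G : SimpleGraph V) :
    ∀ v ∈ core δ G, δ ≤ (G.neighborSet v ∩ core δ G).ncard := by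
  rintro v ⟨S, hv, hS⟩
  refine (hS v hv).trans (Set.ncard_le_ncard ?_ (Set.toFinite _))
  exact Set.inter_subset_inter_right _ fun u hu => ⟨S, hu, hS⟩

theorem thin_nb {V : Type} [Finite V] (δ : ℕ) (G : SimpleGraph V) {v w : V}
    (hv : v ∈ thin δ G) (h : G.Adj v w) : w ∈ core δ G := by
  have h1 := core_lo δ G v hv.1
  have h2 : (G.neighborSet v).ncard = δ := hv.2
  have h3 : G.neighborSet v ∩ core δ G = G.neighborSet v :=
    Set.eq_of_subset_of_ncard_le Set.inter_subset_left (by omega) (Set.toFinite _)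
  have : w ∈ G.neighborSet v ∩ core δ G := by rw [h3]; exact h
  exact this.2

/-- For every `k` there is `w` such that for every graph with a core of degree at most `5` and a
thin part of tree width larger than `w` there are zones such that embeddings into the host are
cliques with `k` vertices. -/
def PThinSem : Prop := ∀ k : ℕ, ∃ w : ℕ, ∀ {V : Type} [Finite V] (G : SimpleGraph V) (δ : ℕ),
  (∀ v ∈ core δ G, (G.neighborSet v ∩ core δ G).ncard ≤ 5) →
  ¬ TreeWidthLE (G.induce (thin δ G)) w →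
    ∃ ζ : V → ZB, ∀ {W : Type} (Γ : SimpleGraph W), Kq k Γ ↔ Embeds G (host G ζ Γ)

theorem ThinSem (hF : PF) (h5 : PF5) (hG : PGr) (a2 : PA2) (a5 : PA5) (a6 : PA6) :
    PThinSem := by
  intro k
  obtain ⟨K, hK⟩ := hF k 5
  obtain ⟨w, hw⟩ := hG K
  refine ⟨w, fun {V} _ G δ hΔ htw => ?_⟩
  obtain ⟨B, hB⟩ := hw _ htw
  obtain ⟨B', hB'⟩ := h5 G (thin δ G) K B hB
  obtain ⟨zn, z1, z2, z3⟩ := hK G (thin δ G) (fun v => by
    by_cases hv : v ∈ thin δ G
    · refine le_trans ?_ (hΔ v hv.1)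
      refine Set.ncard_le_ncard ?_ (Set.toFinite _)
      intro u hu
      exact ⟨hu.1, hu.2.2.1⟩
    · have : (rs G (thin δ G)).neighborSet v = ∅ := by
        ext u
        simp only [SimpleGraph.mem_neighborSet, Set.mem_empty_iff_false, iff_false]
        exact fun h => hv h.2.1
      unfold dg
      rw [this, Set.ncard_empty]
      exact Nat.zero_le _) B' hB'
  refine ⟨fun v => zb (zn v), fun {W} Γ => ⟨fun h => a6 k _ zn Γ z2 h, fun h => ?_⟩⟩
  rcases Nat.eq_zero_or_pos k with rfl | hk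
  · exact ⟨fun i => i.elim0, fun i => i.elim0⟩
  obtain ⟨f, hf, hf2⟩ := h
  have hs : Sit k δ 5 G zn Γ (core δ G) f := by
    refine ⟨z2, ?_, fun v hv => (z1 v hv).1, fun v hv => (z1 v hv).2,
      fun v w hv h => thin_nb δ _ (z1 v hv) h, core_lo δ _, hΔ, fun S hS v hv => ⟨S, hv, hS⟩,
      hf, hf2⟩
    obtain ⟨z, hz, hz2⟩ := z3 0 0 hk hk
    have hne : {v | G.Adj z v ∧ zn v = Zn.cell 0 0}.Nonempty := by
      by_contra hn
      rw [Set.not_nonempty_iff_eq_empty.1 hn, Set.ncard_empty] at hz2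
      omega
    obtain ⟨v, hv1, hv2⟩ := hne
    have hd : dg G v = δ := (z1 v (by rw [hv2]; simp)).2
    rw [← hd]
    exact (Set.ncard_pos (Set.toFinite _)).2 ⟨z, hv1.symm⟩
  exact a5 _ _ _ _ _ _ _ _ hs (a2 _ _ _ _ _ _ _ _ hs z3)

theorem MainR (hB : PB) (hT : PThinSem) : PMainR := by
  intro C hC hfat
  refine hB C hC fun k => ?_
  obtain ⟨w, hw⟩ := hT k
  obtain ⟨A, hA, δ, hΔ, htw⟩ := hfat w
  obtain ⟨ζ, hζ⟩ := hw (graph A) δ hΔ htw
  exact ⟨A, hA, ζ, fun n Γ => hζ Γ⟩

end Pool.Agent.PReg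

end

section

/-!
# Item S1
-/

set_option autoImplicit false

namespace Pool.Agent.PReg

open Pool.Agent.PEmb

namespace ItS1

theorem pre_encard {V V' : Type} (π : V → V') (s : ℕ) (h : ∀ a, (π ⁻¹' {a}).encard ≤ s)
    (F : Finset V') : (π ⁻¹' (F : Set V')).encard ≤ (s * F.card : ℕ) := by
  classical
  induction F using Finset.induction_on with
  | empty => simp
  | insert a F ha ih =>
    have e : π ⁻¹' ((insert a F : Finset V') : Set V') = π ⁻¹' {a} ∪ π ⁻¹' (F : Set V') := by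
      ext x
      simp
    rw [e, Finset.card_insert_of_notMem ha]
    refine (Set.encard_union_le _ _).trans ?_
    refine (add_le_add (h a) ih).trans ?_
    rw [← Nat.cast_add]
    exact_mod_cast le_of_eq (by ring)

theorem pre_set {V V' : Type} (π : V → V') (s w : ℕ) (h : ∀ a, (π ⁻¹' {a}).encard ≤ s)
    (A : Set V') (hA : A.encard ≤ (w + 1 : ℕ)) :
    (π ⁻¹' A).encard ≤ (s * (w + 1) : ℕ) := by
  have hfin : A.Finite := Set.finite_of_encard_le_coe hA
  obtain ⟨F, rfl⟩ : ∃ F : Finset V', (F : Set V') = A := ⟨hfin.toFinset, by simp⟩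
  refine (pre_encard π s h F).trans ?_
  rw [Set.encard_coe_eq_coe_finsetCard] at hA
  have : F.card ≤ w + 1 := by exact_mod_cast hA
  exact_mod_cast Nat.mul_le_mul_left s this

end ItS1

theorem S1 : PS1 := by
  intro V V' G π s w hs htw
  obtain ⟨T, t, bag, hT, hc, he, hb⟩ := htw
  refine ⟨T, t, fun x => π ⁻¹' bag x, hT, fun v => hc (π v), fun u v huv => ?_, fun x => ?_⟩
  · by_cases h : π u = π v
    · obtain ⟨x, hx⟩ := (hc (π u)).nonempty
      exact ⟨x, hx, show π v ∈ bag x by rw [← h]; exact hx⟩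
    · exact he (π u) (π v) ⟨h, u, v, rfl, rfl, huv⟩
  · have h1 : (bag x).encard ≤ ((w + 1 : ℕ) : ℕ∞) := by
      rw [Nat.cast_add, Nat.cast_one]
      exact hb x
    refine (ItS1.pre_set π s w hs (bag x) h1).trans ?_
    exact le_self_add

end Pool.Agent.PReg

end

section

set_option autoImplicit false

namespace Pool.Agent.PReg

open Pool.Agent.PEmb

namespace ItS2a

variable {T : Type}

/-- `S` contains all paths between its vertices. -/
def Conv (t : SimpleGraph T) (S : Set T) : Prop :=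
  ∀ x ∈ S, ∀ y ∈ S, ∀ p : t.Walk x y, p.IsPath → ∀ v ∈ p.support, v ∈ S

theorem exists_map (t : SimpleGraph T) (S : Set T) (u v : S) (q : (t.induce S).Walk u v)
    (hq : q.IsPath) : ∃ p : t.Walk (u : T) (v : T), p.IsPath ∧ ∀ w ∈ p.support, w ∈ S := by
  refine ⟨q.map (SimpleGraph.Embedding.induce (G := t) S).toHom,
    SimpleGraph.Walk.IsPath.map (SimpleGraph.Embedding.induce (G := t) S).injective hq, ?_⟩
  intro w hw
  have h2 : w ∈ q.support.map (SimpleGraph.Embedding.induce (G := t) S).toHom := by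
    have := SimpleGraph.Walk.support_map (SimpleGraph.Embedding.induce (G := t) S).toHom q
    exact this ▸ hw
  obtain ⟨z, _, rfl⟩ := List.mem_map.1 h2
  exact z.2

theorem conv_of_connected (t : SimpleGraph T) (ht : t.IsAcyclic) (S : Set T)
    (hS : (t.induce S).Connected) : Conv t S := by
  intro x hx y hy p hp v hv
  obtain ⟨q, hq⟩ := (hS.preconnected ⟨x, hx⟩ ⟨y, hy⟩).exists_isPath
  obtain ⟨p', hp', hs⟩ := exists_map t S _ _ q hq
  have h : p = p' := by
    have := (ht.subsingleton_path x y).elim ⟨p, hp⟩ ⟨p', hp'⟩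
    exact congrArg Subtype.val this
  rw [h] at hv
  exact hs v hv

theorem conv_inter {t : SimpleGraph T} {S S' : Set T} (h : Conv t S) (h' : Conv t S') :
    Conv t (S ∩ S') := fun x hx y hy p hp v hv =>
  ⟨h x hx.1 y hy.1 p hp v hv, h' x hx.2 y hy.2 p hp v hv⟩

theorem cross (t : SimpleGraph T) (ht : t.IsTree) (S1 S2 : Set T) (h1 : Conv t S1)
    (h2 : Conv t S2) (a : T) (ha1 : a ∈ S1) (ha2 : a ∈ S2) :
    ∀ {b c : T} (w : t.Walk b c), (∀ v ∈ w.support, v ∈ S1 ∨ v ∈ S2) → b ∈ S2 → c ∈ S1 →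
      ∃ v ∈ w.support, v ∈ S1 ∧ v ∈ S2 := by
  intro b c w
  induction w with
  | nil => intro _ hb hc; exact ⟨_, by simp, hc, hb⟩
  | @cons x y z h w ih =>
    intro hw hb hc
    rcases hw y (by simp) with hy | hy
    · obtain ⟨p, hp⟩ := (ht.connected.preconnected a x).exists_isPath
      by_cases hyp : y ∈ p.support
      · exact ⟨y, by simp, hy, h2 a ha2 x hb p hp y hyp⟩
      · refine ⟨x, by simp, ?_, hb⟩
        refine h1 a ha1 y hy (p.concat h) (hp.concat hyp h) x ?_
        simp [SimpleGraph.Walk.support_concat]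
    · obtain ⟨v, hv, hv'⟩ := ih (fun v hv => hw v (by simp [hv])) hy hc
      exact ⟨v, by simp [hv], hv'⟩

theorem helly3 (t : SimpleGraph T) (ht : t.IsTree) (S1 S2 S3 : Set T) (h1 : Conv t S1)
    (h2 : Conv t S2) (h3 : Conv t S3) (h12 : (S1 ∩ S2).Nonempty) (h13 : (S1 ∩ S3).Nonempty)
    (h23 : (S2 ∩ S3).Nonempty) : ((S1 ∩ S3) ∩ (S2 ∩ S3)).Nonempty := by
  classical
  obtain ⟨a, ha1, ha2⟩ := h12
  obtain ⟨c, hc1, hc3⟩ := h13
  obtain ⟨b, hb2, hb3⟩ := h23
  obtain ⟨p, hp⟩ := (ht.connected.preconnected a b).exists_isPath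
  obtain ⟨q, hq⟩ := (ht.connected.preconnected a c).exists_isPath
  let r := (p.reverse.append q).bypass
  have hr : r.IsPath := SimpleGraph.Walk.bypass_isPath _
  obtain ⟨v, hv, hv1, hv2⟩ := cross t ht S1 S2 h1 h2 a ha1 ha2 r (by
    intro v hv
    have := SimpleGraph.Walk.support_bypass_subset_support _ hv
    rw [SimpleGraph.Walk.mem_support_append_iff, SimpleGraph.Walk.support_reverse,
      List.mem_reverse] at this
    rcases this with h | h
    · exact Or.inr (h2 a ha2 b hb2 p hp v h)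
    · exact Or.inl (h1 a ha1 c hc1 q hq v h)) hb2 hc1
  have hv3 : v ∈ S3 := h3 b hb3 c hc3 r hr v hv
  exact ⟨v, ⟨hv1, hv3⟩, ⟨hv2, hv3⟩⟩

theorem hellyFin {ι : Type} (t : SimpleGraph T) (ht : t.IsTree) (s : Finset ι) :
    s.Nonempty → ∀ S : ι → Set T, (∀ i ∈ s, Conv t (S i)) →
      (∀ i ∈ s, ∀ j ∈ s, (S i ∩ S j).Nonempty) → ∃ x, ∀ i ∈ s, x ∈ S i := by
  classical
  induction s using Finset.induction_on with
  | empty => intro h; exact absurd h (by simp)
  | @insert k s hk ih =>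
    intro _ S hS hI
    by_cases hs : s.Nonempty
    · obtain ⟨x, hx⟩ := ih hs (fun i => S i ∩ S k)
        (fun i hi => conv_inter (hS i (Finset.mem_insert_of_mem hi))
          (hS k (Finset.mem_insert_self _ _)))
        (fun i hi j hj => helly3 t ht (S i) (S j) (S k) (hS i (Finset.mem_insert_of_mem hi))
          (hS j (Finset.mem_insert_of_mem hj)) (hS k (Finset.mem_insert_self _ _))
          (hI i (Finset.mem_insert_of_mem hi) j (Finset.mem_insert_of_mem hj))
          (hI i (Finset.mem_insert_of_mem hi) k (Finset.mem_insert_self _ _))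
          (hI j (Finset.mem_insert_of_mem hj) k (Finset.mem_insert_self _ _)))
      obtain ⟨i0, hi0⟩ := hs
      refine ⟨x, fun i hi => ?_⟩
      rcases Finset.mem_insert.1 hi with rfl | hi
      · exact (hx i0 hi0).2
      · exact (hx i hi).1
    · rw [Finset.not_nonempty_iff_eq_empty] at hs
      subst hs
      obtain ⟨x, hx, _⟩ := hI k (Finset.mem_insert_self _ _) k (Finset.mem_insert_self _ _)
      refine ⟨x, fun i hi => ?_⟩
      rcases Finset.mem_insert.1 hi with rfl | hi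
      · exact hx
      · exact absurd hi (by simp)

end ItS2a

/-- S2a: subtrees of a tree which intersect pairwise have a common vertex. -/
theorem S2a : PS2a := by
  intro T ι _ t ht S hS hI
  classical
  have : Fintype ι := Fintype.ofFinite ι
  by_cases h : (Finset.univ : Finset ι).Nonempty
  · obtain ⟨x, hx⟩ := ItS2a.hellyFin t ht Finset.univ h S
      (fun i _ => ItS2a.conv_of_connected t ht.isAcyclic (S i) (hS i)) (fun i _ j _ => hI i j)
    exact ⟨x, fun i => hx i (Finset.mem_univ i)⟩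
  · obtain ⟨x⟩ := ht.connected.nonempty
    exact ⟨x, fun i => absurd ⟨i, Finset.mem_univ i⟩ h⟩

end Pool.Agent.PReg

end

section

/-!
# Item S2b: the parts of a tree decomposition which meet a connected set form a subtree
-/

set_option autoImplicit false

namespace Pool.Agent.PReg

open Pool.Agent.PEmb

namespace ItS2b

variable {V T : Type} {G : SimpleGraph V} {t : SimpleGraph T} {bag : T → Set V} {S : Set V}

/-- the parts containing a fixed vertex of `S` are reachable from each other -/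
theorem same (hc : ∀ v, (t.induce {x | v ∈ bag x}).Connected) {v : V} (hv : v ∈ S) {x y : T}
    (hx : v ∈ bag x) (hy : v ∈ bag y) :
    (t.induce {x | (bag x ∩ S).Nonempty}).Reachable ⟨x, v, hx, hv⟩ ⟨y, v, hy, hv⟩ := by
  have hle : {x | v ∈ bag x} ≤ {x | (bag x ∩ S).Nonempty} := fun z hz => ⟨v, hz, hv⟩
  exact ((hc v).preconnected ⟨x, hx⟩ ⟨y, hy⟩).map (SimpleGraph.induceHomOfLE t hle).toHom

theorem walk (hc : ∀ v, (t.induce {x | v ∈ bag x}).Connected)
    (he : ∀ u v, G.Adj u v → ∃ x, u ∈ bag x ∧ v ∈ bag x) {v w : S}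
    (p : (G.induce S).Walk v w) : ∀ {x y : T} (hx : (v : V) ∈ bag x) (hy : (w : V) ∈ bag y),
    (t.induce {x | (bag x ∩ S).Nonempty}).Reachable ⟨x, v, hx, v.2⟩ ⟨y, w, hy, w.2⟩ := by
  induction p with
  | nil => exact fun hx hy => same hc (Subtype.mem _) hx hy
  | cons h p ih =>
    intro x y hx hy
    obtain ⟨z, hz1, hz2⟩ := he _ _ h
    exact (same hc (Subtype.mem _) hx hz1).trans (ih hz2 hy)

end ItS2b

/-- S2b: in a tree decomposition the parts which meet a connected set form a subtree. -/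
theorem S2b : PS2b := by
  intro V T G t bag hc he S hS
  obtain ⟨v0⟩ := hS.nonempty
  obtain ⟨x0, hx0⟩ := (hc v0).nonempty
  have : Nonempty {x | (bag x ∩ S).Nonempty} := ⟨⟨x0, v0, hx0, v0.2⟩⟩
  refine ⟨?_⟩
  rintro ⟨x, v, hx, hv⟩ ⟨y, w, hy, hw⟩
  obtain ⟨p⟩ := hS.preconnected ⟨v, hv⟩ ⟨w, hw⟩
  exact ItS2b.walk hc he p hx hy

end Pool.Agent.PReg

end
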