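import Pool.Agent.Work.MP_cfa43e_lc.Reg.Stmts
import Pool.Agent.Work.MP_cfa43e_lc.Bd.B03
import Pool.Agent.Work.MP_cfa43e_lc.Reg.StmtsB

/-! Bundle of small proof modules (one section per former module). -/

section

/-!
# Item S3: a colouring with disjoint balls
-/

set_option autoImplicit false

namespace Pool.Agent.PReg

open Pool.Agent.PEmb

namespace ItS3

variable {V : Type}

theorem ball_comp (G : SimpleGraph V) {r s : ℕ} {v x y : V} (hx : x ∈ ball G r v)
    (hy : y ∈ ball G s x) : y ∈ ball G (r + s) v := by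
  induction s generalizing y with
  | zero =>
    have h : y = x := hy
    rw [h]
    exact hx
  | succ s ih =>
    rcases hy with h | ⟨u, hu, huy⟩
    · exact Or.inl (ih h)
    · exact Or.inr ⟨u, ih hu, huy⟩

theorem ball_self (G : SimpleGraph V) (r : ℕ) (v : V) : v ∈ ball G r v := by
  induction r with
  | zero => exact rfl
  | succ r ih => exact Or.inl ih

theorem ball_symm (G : SimpleGraph V) {r : ℕ} {v x : V} (hx : x ∈ ball G r v) :
    v ∈ ball G r x := by
  induction r generalizing x with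
  | zero =>
    have h : x = v := hx
    rw [h]
    exact rfl
  | succ r ih =>
    rcases hx with h | ⟨u, hu, hux⟩
    · exact Or.inl (ih h)
    · have h1 : u ∈ ball G 1 x := Or.inr ⟨x, rfl, hux.symm⟩
      have h2 := ball_comp G h1 (ih hu)
      rw [add_comm] at h2
      exact h2

end ItS3

open ItS3 in
theorem S3 (hS3a : PS3a) (hS3b : PS3b) : PS3 := by
  intro V _ G d hd
  obtain ⟨c, hc, hR⟩ := hS3b (fun u v => ¬ Disjoint (ball G 2 u) (ball G 2 v)) ((d + 1) ^ 4)
    (fun u v h h' => h h'.symm) (fun v => by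
      refine le_trans (Set.ncard_le_ncard ?_ (Set.toFinite _)) (hS3a G d hd 4 v)
      rintro u ⟨-, hu⟩
      rw [Set.not_disjoint_iff] at hu
      obtain ⟨w, hwu, hwv⟩ := hu
      exact ball_comp G (r := 2) (s := 2) hwv (ball_symm G hwu))
  refine ⟨c, hc, fun u v huv hcc => ?_⟩
  by_contra h
  exact hR u v huv h hcc

end Pool.Agent.PReg

end

section

/-!
# S3a: the size of balls
-/

set_option autoImplicit false

namespace Pool.Agent.PReg

open Pool.Agent.PEmb

theorem S3a : PS3a := by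
  intro V _ G d hd r v
  classical
  induction r with
  | zero => simp [ball]
  | succ r ih =>
    have e1 : (ball G r v).ncard = (Set.toFinite (ball G r v)).toFinset.card :=
      Set.ncard_eq_toFinset_card _ _
    have hsub : ball G (r + 1) v ⊆ ↑((Set.toFinite (ball G r v)).toFinset.biUnion
        fun u => (Set.toFinite (insert u (G.neighborSet u))).toFinset) := by
      intro x hx
      rw [Finset.mem_coe, Finset.mem_biUnion]
      rcases hx with hx | ⟨u, hu, hux⟩
      · exact ⟨x, by simpa using hx, by simp⟩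
      · exact ⟨u, by simpa using hu, by simp [hux]⟩
    have h1 : (ball G (r + 1) v).ncard ≤ ((Set.toFinite (ball G r v)).toFinset.biUnion
        fun u => (Set.toFinite (insert u (G.neighborSet u))).toFinset).card := by
      rw [← Set.ncard_coe_finset]
      exact Set.ncard_le_ncard hsub (Finset.finite_toSet _)
    have h2 : ((Set.toFinite (ball G r v)).toFinset.biUnion
        fun u => (Set.toFinite (insert u (G.neighborSet u))).toFinset).card ≤
        (Set.toFinite (ball G r v)).toFinset.card * (d + 1) := by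
      refine Finset.card_biUnion_le_card_mul _ _ _ fun u _ => ?_
      rw [← Set.ncard_eq_toFinset_card]
      exact (Set.ncard_insert_le _ _).trans (Nat.succ_le_succ (hd u))
    calc (ball G (r + 1) v).ncard ≤ _ := h1
      _ ≤ _ := h2
      _ = (ball G r v).ncard * (d + 1) := by rw [e1]
      _ ≤ (d + 1) ^ r * (d + 1) := Nat.mul_le_mul_right _ ih
      _ = (d + 1) ^ (r + 1) := (pow_succ _ _).symm

end Pool.Agent.PReg

end

section

/-!
# Item S3b
-/

set_option autoImplicit false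

namespace Pool.Agent.PReg

open Pool.Agent.PEmb

namespace ItS3b

theorem step {V : Type} [Finite V] (R : V → V → Prop) (N : ℕ) (hs : ∀ u v, R u v → R v u)
    (hN : ∀ v, {u | u ≠ v ∧ R u v}.ncard ≤ N) (A : Finset V) :
    ∃ c : V → ℕ, (∀ v, c v ≤ N) ∧ ∀ u ∈ A, ∀ v ∈ A, u ≠ v → R u v → c u ≠ c v := by
  classical
  induction A using Finset.induction_on with
  | empty => exact ⟨fun _ => 0, fun _ => Nat.zero_le _, fun u hu => by simp at hu⟩
  | insert a A ha ih =>
    obtain ⟨c, hc, hA⟩ := ih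
    have hfin : {u | u ≠ a ∧ R u a}.Finite := Set.toFinite _
    have hex : ∃ k, k ≤ N ∧ ∀ u, u ≠ a → R u a → c u ≠ k := by
      by_contra hcon
      push Not at hcon
      have hsub : Finset.range (N + 1) ⊆ hfin.toFinset.image c := by
        intro k hk
        obtain ⟨u, h1, h2, h3⟩ := hcon k (Nat.lt_succ_iff.mp (Finset.mem_range.mp hk))
        exact Finset.mem_image.mpr ⟨u, by simpa using ⟨h1, h2⟩, h3⟩
      have h4 := Finset.card_le_card hsub
      rw [Finset.card_range] at h4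
      have h5 := h4.trans Finset.card_image_le
      have h6 := hN a
      rw [Set.ncard_eq_toFinset_card _ hfin] at h6
      omega
    obtain ⟨k, hk, hk2⟩ := hex
    refine ⟨Function.update c a k, fun v => ?_, fun u hu v hv huv hR => ?_⟩
    · by_cases h : v = a
      · subst h
        simpa using hk
      · rw [Function.update_of_ne h]
        exact hc v
    · by_cases h1 : u = a
      · subst h1
        rw [Function.update_self, Function.update_of_ne (Ne.symm huv)]
        exact (hk2 v (Ne.symm huv) (hs _ _ hR)).symm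
      · by_cases h2 : v = a
        · subst h2
          rw [Function.update_self, Function.update_of_ne huv]
          exact hk2 u huv hR
        · rw [Function.update_of_ne h1, Function.update_of_ne h2]
          exact hA u (Finset.mem_of_mem_insert_of_ne hu h1) v
            (Finset.mem_of_mem_insert_of_ne hv h2) huv hR

end ItS3b

theorem S3b : PS3b := by
  intro V hV R N hs hN
  classical
  have := Fintype.ofFinite V
  obtain ⟨c, hc, h⟩ := ItS3b.step R N hs hN Finset.univ
  exact ⟨c, hc, fun u v huv hR => h u (Finset.mem_univ _) v (Finset.mem_univ _) huv hR⟩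

end Pool.Agent.PReg

end

section

set_option autoImplicit false

namespace Pool.Agent.PReg

open Pool.Agent.PEmb

namespace ItS4

theorem four {V : Type} [Finite V] (T : Set V) (hT : T.ncard ≤ 3) {a b c d : V} (ha : a ∈ T)
    (hb : b ∈ T) (hc : c ∈ T) (hd : d ∈ T) (hab : a ≠ b) (hac : a ≠ c) (had : a ≠ d) (hbc : b ≠ c)
    (hbd : b ≠ d) (hcd : c ≠ d) : False := by
  classical
  have hsub : ((({a, b, c, d} : Finset V) : Finset V) : Set V) ⊆ T := by
    intro x hx
    simp only [Finset.coe_insert, Finset.coe_singleton, Set.mem_insert_iff,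
      Set.mem_singleton_iff] at hx
    rcases hx with rfl | rfl | rfl | rfl <;> assumption
  have h1 := Set.ncard_le_ncard hsub (Set.toFinite _)
  rw [Set.ncard_coe_finset] at h1
  have h2 : ({a, b, c, d} : Finset V).card = 4 := by
    simp [hab, hac, had, hbc, hbd, hcd]
  omega

theorem three {V : Type} [Finite V] (N : Set V) {a b c : V} (ha : a ∈ N)
    (hb : b ∈ N) (hc : c ∈ N) (hab : a ≠ b) (hac : a ≠ c) (hbc : b ≠ c)
    (h : ∀ x ∈ N, x = a ∨ x = b ∨ x = c) : N.ncard = 3 := by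
  classical
  have : N = ((({a, b, c} : Finset V) : Finset V) : Set V) := by
    ext x
    simp only [Finset.coe_insert, Finset.coe_singleton, Set.mem_insert_iff,
      Set.mem_singleton_iff]
    constructor
    · exact h x
    · rintro (rfl | rfl | rfl) <;> assumption
  rw [this, Set.ncard_coe_finset]
  simp [hab, hac, hbc]

theorem two {V : Type} [Finite V] (N : Set V) {a b : V}
    (h : ∀ x ∈ N, x = a ∨ x = b) : N.ncard ≤ 2 := by
  have hsub : N ⊆ {a, b} := by
    intro x hx
    exact h x hx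
  calc N.ncard ≤ ({a, b} : Set V).ncard := Set.ncard_le_ncard hsub (Set.toFinite _)
    _ ≤ ({b} : Set V).ncard + 1 := Set.ncard_insert_le _ _
    _ ≤ 2 := by rw [Set.ncard_singleton]

theorem trans {V : Type} (G : SimpleGraph V) (J : Set V) (v : V) {y y' z x : V}
    (h1 : z ∈ cmpt G J v y) (h2 : z ∈ cmpt G J v y') (h3 : x ∈ cmpt G J v y) :
    x ∈ cmpt G J v y' :=
  ⟨h3.1, h3.2.1, h2.2.2.trans (h1.2.2.symm.trans h3.2.2)⟩

/-- Two components, the second one with one terminal. -/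
theorem twoc (hS4b : PS4b) (hS4c : PS4c) {V : Type} [Finite V] (G : SimpleGraph V) (J T : Set V)
    (hM : MinC G J T) (hT : T.ncard ≤ 3) (v : V) (hvJ : v ∈ J) (hvT : v ∉ T)
    (hnad : ∀ t ∈ T, ¬ G.Adj v t) (y z : V) (hy : y ∈ J) (hyv : y ≠ v) (hz : z ∈ J) (hzv : z ≠ v)
    (hdis : ∀ x, x ∈ cmpt G J v y → x ∈ cmpt G J v z → False)
    (hcov : ∀ x ∈ J, x ≠ v → x ∈ cmpt G J v y ∨ x ∈ cmpt G J v z)
    (huniq : ∀ t ∈ T, ∀ t' ∈ T, t ∈ cmpt G J v z → t' ∈ cmpt G J v z → t = t') :
    Sat (rs G J) v := by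
  obtain ⟨c, hcC, hvc, hcu, hcd⟩ := hS4b G J T hM v hvJ hvT hnad z hz hzv huniq
  rcases hS4c G J T hM hT v hvJ hvT hnad y hy hyv with ⟨a, haC, hva, hau⟩ |
    ⟨a, haC, b, hbC, hab, hva, hvb, hadj, hu⟩
  · left
    unfold dg
    apply two (a := a) (b := c)
    intro x hx
    have hx' : G.Adj v x ∧ v ∈ J ∧ x ∈ J := hx
    rcases hcov x hx'.2.2 hx'.1.ne' with h | h
    · exact Or.inl (hau x h hx'.1)
    · exact Or.inr (hcu x h hx'.1)
  · right; right
    have hac : a ≠ c := fun h => hdis a haC (h ▸ hcC)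
    have hbc : b ≠ c := fun h => hdis b hbC (h ▸ hcC)
    have hvaR : (rs G J).Adj v a := ⟨hva, hvJ, haC.1⟩
    have hvbR : (rs G J).Adj v b := ⟨hvb, hvJ, hbC.1⟩
    have hvcR : (rs G J).Adj v c := ⟨hvc, hvJ, hcC.1⟩
    refine ⟨?_, a, b, c, hab, hac, hbc, hvaR, hvbR, hvcR, ⟨hadj, haC.1, hbC.1⟩, hcd⟩
    unfold dg
    apply three (a := a) (b := b) (c := c) _ hvaR hvbR hvcR hab hac hbc
    intro x hx
    have hx' : G.Adj v x ∧ v ∈ J ∧ x ∈ J := hx
    rcases hcov x hx'.2.2 hx'.1.ne' with h | h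
    · rcases hu x h hx'.1 with h' | h'
      · exact Or.inl h'
      · exact Or.inr (Or.inl h')
    · exact Or.inr (Or.inr (hcu x h hx'.1))

end ItS4

open ItS4

theorem S4 (hS4a : PS4a) (hS4b : PS4b) (hS4c : PS4c) : PS4 := by
  intro V _ G J T hM hT v hvT hnad
  by_cases hvJ : v ∈ J
  swap
  · left
    have : (rs G J).neighborSet v = ∅ := by
      ext x
      constructor
      · intro hx
        have hx' : G.Adj v x ∧ v ∈ J ∧ x ∈ J := hx
        exact absurd hx'.2.1 hvJ
      · intro hx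
        exact absurd hx (Set.notMem_empty _)
    unfold dg
    rw [this, Set.ncard_empty]
    omega
  by_cases hN : ∃ y ∈ J, y ≠ v
  swap
  · left
    push Not at hN
    have : (rs G J).neighborSet v = ∅ := by
      ext x
      constructor
      · intro hx
        have hx' : G.Adj v x ∧ v ∈ J ∧ x ∈ J := hx
        exact absurd (hN x hx'.2.2) hx'.1.ne'
      · intro hx
        exact absurd hx (Set.notMem_empty _)
    unfold dg
    rw [this, Set.ncard_empty]
    omega
  obtain ⟨hA, hB⟩ := hS4a G J T hM v hvJ hvT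
  obtain ⟨y, hy, hyv⟩ := hN
  obtain ⟨z, hz, hzv, hzy⟩ := hB y hy hyv
  have self : ∀ x ∈ J, x ≠ v → x ∈ cmpt G J v x := fun x hx hxv =>
    ⟨hx, hxv, SimpleGraph.Reachable.refl _⟩
  have hyz : ∀ x, x ∈ cmpt G J v y → x ∈ cmpt G J v z → False := fun x h1 h2 =>
    hzy (trans G J v h2 h1 (self z hz hzv))
  by_cases hthird : ∃ u ∈ J, u ≠ v ∧ u ∉ cmpt G J v y ∧ u ∉ cmpt G J v z
  · obtain ⟨u, hu, huv, huy, huz⟩ := hthird
    have hyu : ∀ x, x ∈ cmpt G J v y → x ∈ cmpt G J v u → False := fun x h1 h2 =>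
      huy (trans G J v h2 h1 (self u hu huv))
    have hzu : ∀ x, x ∈ cmpt G J v z → x ∈ cmpt G J v u → False := fun x h1 h2 =>
      huz (trans G J v h2 h1 (self u hu huv))
    obtain ⟨-, ⟨t1, ht1T, ht1⟩⟩ := hA y hy hyv
    obtain ⟨-, ⟨t2, ht2T, ht2⟩⟩ := hA z hz hzv
    obtain ⟨-, ⟨t3, ht3T, ht3⟩⟩ := hA u hu huv
    have h12 : t1 ≠ t2 := fun h => hyz t1 ht1 (h ▸ ht2)
    have h13 : t1 ≠ t3 := fun h => hyu t1 ht1 (h ▸ ht3)
    have h23 : t2 ≠ t3 := fun h => hzu t2 ht2 (h ▸ ht3)
    have hTall : ∀ t ∈ T, t = t1 ∨ t = t2 ∨ t = t3 := by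
      intro t ht
      by_contra hcon
      push Not at hcon
      exact four T hT ht ht1T ht2T ht3T hcon.1 hcon.2.1 hcon.2.2 h12 h13 h23
    have uy : ∀ t ∈ T, t ∈ cmpt G J v y → t = t1 := by
      intro t ht htC
      rcases hTall t ht with h | h | h
      · exact h
      · exact (hyz t htC (h ▸ ht2)).elim
      · exact (hyu t htC (h ▸ ht3)).elim
    have uz : ∀ t ∈ T, t ∈ cmpt G J v z → t = t2 := by
      intro t ht htC
      rcases hTall t ht with h | h | h
      · exact (hyz t (h ▸ ht1) htC).elim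
      · exact h
      · exact (hzu t htC (h ▸ ht3)).elim
    have uu : ∀ t ∈ T, t ∈ cmpt G J v u → t = t3 := by
      intro t ht htC
      rcases hTall t ht with h | h | h
      · exact (hyu t (h ▸ ht1) htC).elim
      · exact (hzu t (h ▸ ht2) htC).elim
      · exact h
    obtain ⟨a, haC, hva, hau, had⟩ := hS4b G J T hM v hvJ hvT hnad y hy hyv
      (fun t ht t' ht' h h' => (uy t ht h).trans (uy t' ht' h').symm)
    obtain ⟨b, hbC, hvb, hbu, hbd⟩ := hS4b G J T hM v hvJ hvT hnad z hz hzv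
      (fun t ht t' ht' h h' => (uz t ht h).trans (uz t' ht' h').symm)
    obtain ⟨c, hcC, hvc, hcu, hcd⟩ := hS4b G J T hM v hvJ hvT hnad u hu huv
      (fun t ht t' ht' h h' => (uu t ht h).trans (uu t' ht' h').symm)
    have hab : a ≠ b := fun h => hyz a haC (h ▸ hbC)
    have hac : a ≠ c := fun h => hyu a haC (h ▸ hcC)
    have hbc : b ≠ c := fun h => hzu b hbC (h ▸ hcC)
    have hall : ∀ x, (rs G J).Adj v x → x = a ∨ x = b ∨ x = c := by
      intro x hx
      have hx' : G.Adj v x ∧ v ∈ J ∧ x ∈ J := hx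
      have hxv : x ≠ v := hx'.1.ne'
      obtain ⟨-, ⟨t, htT, ht⟩⟩ := hA x hx'.2.2 hxv
      have hxx := self x hx'.2.2 hxv
      rcases hTall t htT with h | h | h
      · have := trans G J v ht (h ▸ ht1 : t ∈ cmpt G J v y) hxx
        exact Or.inl (hau x this hx'.1)
      · have := trans G J v ht (h ▸ ht2 : t ∈ cmpt G J v z) hxx
        exact Or.inr (Or.inl (hbu x this hx'.1))
      · have := trans G J v ht (h ▸ ht3 : t ∈ cmpt G J v u) hxx
        exact Or.inr (Or.inr (hcu x this hx'.1))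
    right; left
    refine ⟨?_, ?_⟩
    · unfold dg
      exact three (a := a) (b := b) (c := c) _ ⟨hva, hvJ, haC.1⟩ ⟨hvb, hvJ, hbC.1⟩
        ⟨hvc, hvJ, hcC.1⟩ hab hac hbc (fun x hx => hall x hx)
    · intro x hx
      rcases hall x hx with h | h | h
      · rw [h]; exact had
      · rw [h]; exact hbd
      · rw [h]; exact hcd
  · push Not at hthird
    have hcov : ∀ x ∈ J, x ≠ v → x ∈ cmpt G J v y ∨ x ∈ cmpt G J v z := by
      intro x hx hxv
      by_cases h : x ∈ cmpt G J v y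
      · exact Or.inl h
      · exact Or.inr (hthird x hx hxv h)
    by_cases huz : ∀ t ∈ T, ∀ t' ∈ T, t ∈ cmpt G J v z → t' ∈ cmpt G J v z → t = t'
    · exact twoc hS4b hS4c G J T hM hT v hvJ hvT hnad y z hy hyv hz hzv hyz hcov huz
    · push Not at huz
      obtain ⟨t, ht, t', ht', htz, htz', htt⟩ := huz
      refine twoc hS4b hS4c G J T hM hT v hvJ hvT hnad z y hz hzv hy hyv
        (fun x h1 h2 => hyz x h2 h1) (fun x hx hxv => (hcov x hx hxv).symm) ?_
      intro s hs s' hs' hsy hsy'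
      by_contra hss
      exact four T hT ht ht' hs hs' htt (fun h => hyz s hsy (h ▸ htz))
        (fun h => hyz s' hsy' (h ▸ htz)) (fun h => hyz s hsy (h ▸ htz'))
        (fun h => hyz s' hsy' (h ▸ htz')) hss

end Pool.Agent.PReg

end

section

set_option autoImplicit false

namespace Pool.Agent.PReg

open Pool.Agent.PEmb

namespace ItS4a

theorem reach_of_conn {V : Type} (G : SimpleGraph V) (A : Set V) (h : (G.induce A).Connected)
    {x y : V} (hx : x ∈ A) (hy : y ∈ A) : (rs G A).Reachable x y := by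
  have h1 : (G.induce A).Reachable ⟨x, hx⟩ ⟨y, hy⟩ := h.preconnected _ _
  let f : (G.induce A) →g (rs G A) :=
    { toFun := fun z => z.1
      map_rel' := by
        intro a b hab
        exact ⟨hab, a.2, b.2⟩ }
  exact h1.map f

theorem conn_of_reach {V : Type} (G : SimpleGraph V) (A : Set V) (hne : A.Nonempty)
    (h : ∀ x ∈ A, ∀ y ∈ A, (rs G A).Reachable x y) : (G.induce A).Connected := by
  have key : ∀ {x y : V} (w : (rs G A).Walk x y) (hx : x ∈ A) (hy : y ∈ A),
      (G.induce A).Reachable ⟨x, hx⟩ ⟨y, hy⟩ := by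
    intro x y w
    induction w with
    | nil => intro hx hy; exact SimpleGraph.Reachable.refl _
    | cons hab w ih =>
      intro hx hy
      have hb := hab.2.2
      have h1 : (G.induce A).Adj ⟨_, hx⟩ ⟨_, hb⟩ := hab.1
      exact h1.reachable.trans (ih hb hy)
  obtain ⟨a, ha⟩ := hne
  haveI : Nonempty A := ⟨⟨a, ha⟩⟩
  refine SimpleGraph.Connected.mk ?_
  rintro ⟨x, hx⟩ ⟨y, hy⟩
  obtain ⟨w⟩ := h x hx y hy
  exact key w hx hy

/-- A walk to `v` leaves the component at a neighbour of `v`. -/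
theorem leave {V : Type} (G : SimpleGraph V) (J : Set V) (v : V) {z v' : V}
    (w : (rs G J).Walk z v') (hv' : v' = v) (hz : z ∈ J) (hzv : z ≠ v) :
    ∃ a, (rs G (J \ {v})).Reachable z a ∧ a ∈ J ∧ a ≠ v ∧ G.Adj v a := by
  induction w with
  | nil => exact absurd hv' hzv
  | @cons a b c hab w ih =>
    by_cases hb : b = v
    · subst hb
      exact ⟨a, SimpleGraph.Reachable.refl _, hz, hzv, hab.1.symm⟩
    · obtain ⟨e, h1, h2, h3, h4⟩ := ih hv' hab.2.2 hb
      refine ⟨e, ?_, h2, h3, h4⟩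
      have : (rs G (J \ {v})).Adj a b := ⟨hab.1, ⟨hz, hzv⟩, ⟨hab.2.2, hb⟩⟩
      exact this.reachable.trans h1

theorem stay {V : Type} (G : SimpleGraph V) (J : Set V) (v y : V) {z a : V}
    (w : (rs G (J \ {v})).Walk z a) (hz : z ∈ J \ cmpt G J v y) :
    (rs G (J \ cmpt G J v y)).Reachable z a ∧ a ∈ J \ cmpt G J v y := by
  induction w with
  | nil => exact ⟨SimpleGraph.Reachable.refl _, hz⟩
  | @cons p b c hab w ih =>
    have hb : b ∈ J \ cmpt G J v y := by
      refine ⟨hab.2.2.1, ?_⟩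
      intro hbC
      apply hz.2
      refine ⟨hz.1, hab.2.1.2, hbC.2.2.trans ?_⟩
      exact hab.symm.reachable
    obtain ⟨h1, h2⟩ := ih hb
    have : (rs G (J \ cmpt G J v y)).Adj p b := ⟨hab.1, hz, hb⟩
    exact ⟨this.reachable.trans h1, h2⟩

end ItS4a

open ItS4a

theorem S4a : PS4a := by
  intro V _ G J T hM v hvJ hvT
  have h1 : ∀ z ∈ J, z ≠ v → ∃ a, (rs G (J \ {v})).Reachable z a ∧ a ∈ J ∧ a ≠ v ∧ G.Adj v a := by
    intro z hz hzv
    obtain ⟨w⟩ := reach_of_conn G J hM.conn hz hvJ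
    exact leave G J v w rfl hz hzv
  refine ⟨?_, ?_⟩
  · intro y hy hyv
    refine ⟨?_, ?_⟩
    · obtain ⟨a, ha1, ha2, ha3, ha4⟩ := h1 y hy hyv
      exact ⟨a, ⟨ha2, ha3, ha1⟩, ha4⟩
    · by_contra hcon
      push Not at hcon
      have hvC : v ∉ cmpt G J v y := fun h => h.2.1 rfl
      have hvJ' : v ∈ J \ cmpt G J v y := ⟨hvJ, hvC⟩
      have htov : ∀ z ∈ J \ cmpt G J v y, (rs G (J \ cmpt G J v y)).Reachable z v := by
        intro z hz
        by_cases hzv : z = v
        · subst hzv; exact SimpleGraph.Reachable.refl _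
        · obtain ⟨a, ⟨w⟩, ha2, ha3, ha4⟩ := h1 z hz.1 hzv
          obtain ⟨h2, h3⟩ := stay G J v y w hz
          have : (rs G (J \ cmpt G J v y)).Adj a v := ⟨ha4.symm, h3, hvJ'⟩
          exact h2.trans this.reachable
      have hconn : (G.induce (J \ cmpt G J v y)).Connected := by
        refine conn_of_reach G _ ⟨v, hvJ'⟩ ?_
        intro x hx x' hx'
        exact (htov x hx).trans (htov x' hx').symm
      have hJ := hM.min (J \ cmpt G J v y) Set.diff_subset
        (fun t ht => ⟨hM.sub ht, hcon t ht⟩) hconn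
      have hy' : y ∈ J \ cmpt G J v y := by rw [hJ]; exact hy
      exact hy'.2 ⟨hy, hyv, SimpleGraph.Reachable.refl _⟩
  · intro y hy hyv
    by_contra hcon
    push Not at hcon
    have hconn : (G.induce (J \ {v})).Connected := by
      refine conn_of_reach G _ ⟨y, hy, hyv⟩ ?_
      intro x hx x' hx'
      exact (hcon x hx.1 hx.2).2.2.symm.trans (hcon x' hx'.1 hx'.2).2.2
    have hJ := hM.min (J \ {v}) Set.diff_subset
      (fun t ht => ⟨hM.sub ht, fun h => hvT (h ▸ ht)⟩) hconn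
    have hv' : v ∈ J \ {v} := by rw [hJ]; exact hvJ
    exact hv'.2 rfl

end Pool.Agent.PReg

end

section

set_option autoImplicit false

namespace Pool.Agent.PReg

open Pool.Agent.PEmb

namespace ItS4b

theorem reach_of_conn {V : Type} (G : SimpleGraph V) (A : Set V) (h : (G.induce A).Connected)
    {x y : V} (hx : x ∈ A) (hy : y ∈ A) : (rs G A).Reachable x y := by
  have h1 : (G.induce A).Reachable ⟨x, hx⟩ ⟨y, hy⟩ := h.preconnected _ _
  let f : (G.induce A) →g (rs G A) :=
    { toFun := fun z => z.1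
      map_rel' := by
        intro a b hab
        exact ⟨hab, a.2, b.2⟩ }
  exact h1.map f

theorem conn_of_reach {V : Type} (G : SimpleGraph V) (A : Set V) (hne : A.Nonempty)
    (h : ∀ x ∈ A, ∀ y ∈ A, (rs G A).Reachable x y) : (G.induce A).Connected := by
  have key : ∀ {x y : V} (w : (rs G A).Walk x y) (hx : x ∈ A) (hy : y ∈ A),
      (G.induce A).Reachable ⟨x, hx⟩ ⟨y, hy⟩ := by
    intro x y w
    induction w with
    | nil => intro hx hy; exact SimpleGraph.Reachable.refl _
    | cons hab w ih =>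
      intro hx hy
      have hb := hab.2.2
      have h1 : (G.induce A).Adj ⟨_, hx⟩ ⟨_, hb⟩ := hab.1
      exact h1.reachable.trans (ih hb hy)
  obtain ⟨a, ha⟩ := hne
  have : Nonempty A := ⟨⟨a, ha⟩⟩
  refine SimpleGraph.Connected.mk ?_
  rintro ⟨x, hx⟩ ⟨y, hy⟩
  obtain ⟨w⟩ := h x hx y hy
  exact key w hx hy

/-- A walk to `v` leaves the component at a neighbour of `v`. -/
theorem leave {V : Type} (G : SimpleGraph V) (J : Set V) (v : V) {z v' : V}
    (w : (rs G J).Walk z v') (hv' : v' = v) (hz : z ∈ J) (hzv : z ≠ v) :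
    ∃ a, (rs G (J \ {v})).Reachable z a ∧ a ∈ J ∧ a ≠ v ∧ G.Adj v a := by
  induction w with
  | nil => exact absurd hv' hzv
  | @cons a b c hab w ih =>
    by_cases hb : b = v
    · subst hb
      exact ⟨a, SimpleGraph.Reachable.refl _, hz, hzv, hab.1.symm⟩
    · obtain ⟨e, h1, h2, h3, h4⟩ := ih hv' hab.2.2 hb
      refine ⟨e, ?_, h2, h3, h4⟩
      have : (rs G (J \ {v})).Adj a b := ⟨hab.1, ⟨hz, hzv⟩, ⟨hab.2.2, hb⟩⟩
      exact this.reachable.trans h1

/-- A walk in `J - v` which starts outside of the component of `y` stays outside. -/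
theorem stay {V : Type} (G : SimpleGraph V) (J : Set V) (v y : V) {z a : V}
    (w : (rs G (J \ {v})).Walk z a) (hz : z ∈ J \ cmpt G J v y) :
    (rs G (J \ cmpt G J v y)).Reachable z a ∧ a ∈ J \ cmpt G J v y := by
  induction w with
  | nil => exact ⟨SimpleGraph.Reachable.refl _, hz⟩
  | @cons p b c hab w ih =>
    have hb : b ∈ J \ cmpt G J v y := by
      refine ⟨hab.2.2.1, ?_⟩
      intro hbC
      apply hz.2
      refine ⟨hz.1, hab.2.1.2, hbC.2.2.trans ?_⟩
      exact hab.symm.reachable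
    obtain ⟨h1, h2⟩ := ih hb
    have : (rs G (J \ cmpt G J v y)).Adj p b := ⟨hab.1, hz, hb⟩
    exact ⟨this.reachable.trans h1, h2⟩

/-- A walk in `J - v` which starts in the component stays inside. -/
theorem stayIn {V : Type} (G : SimpleGraph V) (J : Set V) (v y : V) {z a : V}
    (w : (rs G (J \ {v})).Walk z a) (hz : z ∈ cmpt G J v y) :
    (rs G (cmpt G J v y ∪ {v})).Reachable z a ∧ a ∈ cmpt G J v y := by
  induction w with
  | nil => exact ⟨SimpleGraph.Reachable.refl _, hz⟩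
  | @cons p b c hab w ih =>
    have hb : b ∈ cmpt G J v y :=
      ⟨hab.2.2.1, hab.2.2.2, hz.2.2.trans hab.reachable⟩
    obtain ⟨h1, h2⟩ := ih hb
    have : (rs G (cmpt G J v y ∪ {v})).Adj p b := ⟨hab.1, Or.inl hz, Or.inl hb⟩
    exact ⟨this.reachable.trans h1, h2⟩

theorem mono {V : Type} (G : SimpleGraph V) {A B : Set V} (h : A ⊆ B) {x y : V}
    (hr : (rs G A).Reachable x y) : (rs G B).Reachable x y := by
  have hle : rs G A ≤ rs G B := by
    intro a b hab
    exact ⟨hab.1, h hab.2.1, h hab.2.2⟩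
  exact hr.mono hle

end ItS4b

open ItS4b

theorem S4b (hS4a : PS4a) : PS4b := by
  intro V _ G J T hM v hvJ hvT _hnad y hy hyv huniq
  obtain ⟨hA, -⟩ := hS4a G J T hM v hvJ hvT
  obtain ⟨⟨a0, ha0C, ha0⟩, ⟨t, htT, htC⟩⟩ := hA y hy hyv
  set C := cmpt G J v y with hC
  have hCJ : C ⊆ J := fun z hz => hz.1
  have hvC : v ∉ C := fun h => h.2.1 rfl
  have hyC : y ∈ C := ⟨hy, hyv, SimpleGraph.Reachable.refl _⟩
  -- closure of C
  have hclo : ∀ p ∈ C, ∀ q ∈ J, q ≠ v → G.Adj p q → q ∈ C := by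
    intro p hp q hq hqv hpq
    refine ⟨hq, hqv, hp.2.2.trans ?_⟩
    have : (rs G (J \ {v})).Adj p q := ⟨hpq, ⟨hp.1, hp.2.1⟩, ⟨hq, hqv⟩⟩
    exact this.reachable
  have hreachC : ∀ z ∈ C, (rs G (C ∪ {v})).Reachable y z := by
    intro z hz
    obtain ⟨w⟩ := hz.2.2
    exact (stayIn G J v y w hyC).1
  have hRva : (rs G (C ∪ {v})).Adj v a0 := ⟨ha0, Or.inr rfl, Or.inl ha0C⟩
  have hRvt : (rs G (C ∪ {v})).Reachable v t :=
    hRva.reachable.trans ((hreachC a0 ha0C).symm.trans (hreachC t htC))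
  obtain ⟨w, hw⟩ := hRvt.exists_walk_length_eq_dist
  have htv : t ≠ v := fun h => hvC (h ▸ htC)
  have hlen : 0 < w.length := by
    rcases Nat.eq_zero_or_pos w.length with h0 | h0
    · exact absurd (SimpleGraph.Walk.eq_of_length_eq_zero h0).symm htv
    · exact h0
  have hstep : ∀ i < w.length, (rs G (C ∪ {v})).Adj (w.getVert i) (w.getVert (i + 1)) := by
    intro i hi
    exact w.adj_getVert_succ hi
  -- the shortcut property
  have hshort : ∀ i j, i < j → j ≤ w.length →
      (rs G (C ∪ {v})).Adj (w.getVert i) (w.getVert j) → j = i + 1 := by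
    intro i j hij hj hadj
    have h1 : (rs G (C ∪ {v})).dist v t ≤
        ((w.take i).append (SimpleGraph.Walk.cons hadj (w.drop j))).length :=
      SimpleGraph.dist_le _
    rw [SimpleGraph.Walk.length_append, SimpleGraph.Walk.length_cons,
      SimpleGraph.Walk.take_length, SimpleGraph.Walk.drop_length, ← hw] at h1
    rw [min_eq_left (by omega)] at h1
    omega
  -- the vertices of the path
  let P : Set V := {x | ∃ i ≤ w.length, w.getVert i = x}
  have hvP : v ∈ P := ⟨0, Nat.zero_le _, w.getVert_zero⟩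
  have htP : t ∈ P := ⟨w.length, le_rfl, w.getVert_length⟩
  have hPC : P ⊆ C ∪ {v} := by
    rintro x ⟨i, hi, rfl⟩
    rcases Nat.eq_zero_or_pos i with h0 | h0
    · subst h0
      rw [w.getVert_zero]
      exact Or.inr rfl
    · obtain ⟨j, rfl⟩ : ∃ j, i = j + 1 := ⟨i - 1, by omega⟩
      exact (hstep j (by omega)).2.2
  have h1 : ∀ z ∈ J, z ≠ v →
      ∃ a, (rs G (J \ {v})).Reachable z a ∧ a ∈ J ∧ a ≠ v ∧ G.Adj v a := by
    intro z hz hzv
    obtain ⟨w⟩ := reach_of_conn G J hM.conn hz hvJ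
    exact leave G J v w rfl hz hzv
  have hvJ' : v ∈ (J \ C) ∪ P := Or.inr hvP
  have htov : ∀ z ∈ (J \ C) ∪ P, (rs G ((J \ C) ∪ P)).Reachable z v := by
    intro z hz
    rcases hz with hz | hz
    · by_cases hzv : z = v
      · subst hzv; exact SimpleGraph.Reachable.refl _
      · obtain ⟨a, ⟨w'⟩, ha2, ha3, ha4⟩ := h1 z hz.1 hzv
        obtain ⟨h2, h3⟩ := stay G J v y w' hz
        have : (rs G ((J \ C) ∪ P)).Adj a v := ⟨ha4.symm, Or.inl h3, hvJ'⟩
        exact (mono G Set.subset_union_left h2).trans this.reachable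
    · obtain ⟨i, hi, rfl⟩ := hz
      have hind : ∀ i, i ≤ w.length → (rs G ((J \ C) ∪ P)).Reachable (w.getVert i) v := by
        intro i
        induction i with
        | zero =>
          intro _
          rw [w.getVert_zero]
        | succ i ih =>
          intro hi
          have h4 := hstep i (by omega)
          have : (rs G ((J \ C) ∪ P)).Adj (w.getVert (i + 1)) (w.getVert i) :=
            ⟨h4.1.symm, Or.inr ⟨i + 1, hi, rfl⟩, Or.inr ⟨i, by omega, rfl⟩⟩
          exact this.reachable.trans (ih (by omega))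
      exact hind i hi
  have hconn : (G.induce ((J \ C) ∪ P)).Connected := by
    refine conn_of_reach G _ ⟨v, hvJ'⟩ ?_
    intro x hx x' hx'
    exact (htov x hx).trans (htov x' hx').symm
  have hsubJ : (J \ C) ∪ P ⊆ J := by
    rintro x (hx | hx)
    · exact hx.1
    · rcases hPC hx with hx | hx
      · exact hCJ hx
      · rw [hx]; exact hvJ
  have hTsub : T ⊆ (J \ C) ∪ P := by
    intro t' ht'
    by_cases h : t' ∈ C
    · rw [← huniq t htT t' ht' htC h]
      exact Or.inr htP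
    · exact Or.inl ⟨hM.sub ht', h⟩
  have hJ := hM.min ((J \ C) ∪ P) hsubJ hTsub hconn
  have hCP : C ⊆ P := by
    intro c hc
    have hc' : c ∈ (J \ C) ∪ P := by rw [hJ]; exact hCJ hc
    rcases hc' with hc' | hc'
    · exact absurd hc hc'.2
    · exact hc'
  -- the second vertex
  have h01 := hstep 0 hlen
  rw [w.getVert_zero] at h01
  simp only [zero_add] at h01
  have ha1C : w.getVert 1 ∈ C := by
    rcases h01.2.2 with h | h
    · exact h
    · exact absurd h.symm h01.1.ne
  refine ⟨w.getVert 1, ha1C, h01.1, ?_, ?_⟩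
  · intro b hb hvb
    obtain ⟨j, hj, rfl⟩ := hCP hb
    have hj0 : 0 < j := by
      rcases Nat.eq_zero_or_pos j with h0 | h0
      · subst h0
        rw [w.getVert_zero] at hb
        exact absurd hb hvC
      · exact h0
    have := hshort 0 j hj0 hj (by
      rw [w.getVert_zero]
      exact ⟨hvb, Or.inr rfl, Or.inl hb⟩)
    rw [this]
  · have hsub : (rs G J).neighborSet (w.getVert 1) ⊆ {v, w.getVert 2} := by
      intro x hx
      have hx' : G.Adj (w.getVert 1) x ∧ w.getVert 1 ∈ J ∧ x ∈ J := hx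
      by_cases hxv : x = v
      · exact Or.inl hxv
      · have hxC : x ∈ C := hclo _ ha1C x hx'.2.2 hxv hx'.1
        obtain ⟨j, hj, rfl⟩ := hCP hxC
        rcases Nat.lt_trichotomy j 1 with h | h | h
        · have h0 : j = 0 := by omega
          subst h0
          exact absurd w.getVert_zero hxv
        · subst h
          exact absurd rfl hx'.1.ne
        · have := hshort 1 j h hj ⟨hx'.1, Or.inl ha1C, Or.inl hxC⟩
          rw [this]
          exact Or.inr rfl
    unfold dg
    calc ((rs G J).neighborSet (w.getVert 1)).ncard ≤ ({v, w.getVert 2} : Set V).ncard :=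
          Set.ncard_le_ncard hsub (Set.toFinite _)
      _ ≤ ({w.getVert 2} : Set V).ncard + 1 := Set.ncard_insert_le _ _
      _ ≤ 2 := by rw [Set.ncard_singleton]

end Pool.Agent.PReg

end

section

/-!
# Item S4c: components with two terminals
-/

set_option autoImplicit false

namespace Pool.Agent.PReg

open Pool.Agent.PEmb

namespace ItS4c

variable {V : Type}

theorem rs_mono (G : SimpleGraph V) {A B : Set V} (h : A ⊆ B) : rs G A ≤ rs G B :=
  fun _ _ h' => ⟨h'.1, h h'.2.1, h h'.2.2⟩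

theorem closed_reach {H : SimpleGraph V} {P : V → Prop} (h : ∀ u w, P u → H.Adj u w → P w)
    {x y : V} (hx : P x) (hxy : H.Reachable x y) : P y := by
  obtain ⟨p⟩ := hxy
  induction p with
  | nil => exact hx
  | cons hadj _ ih => exact ih (h _ _ hx hadj)

theorem conn_of {G : SimpleGraph V} {A : Set V} {v : V} (hv : v ∈ A)
    (h : ∀ x ∈ A, (rs G A).Reachable x v) : (G.induce A).Connected := by
  have key : ∀ x : A, (G.induce A).Reachable ⟨v, hv⟩ x := by
    intro x
    have h1 : ∃ hx : (x : V) ∈ A, (G.induce A).Reachable ⟨v, hv⟩ ⟨x, hx⟩ := by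
      refine closed_reach (H := rs G A)
        (P := fun z => ∃ hz : z ∈ A, (G.induce A).Reachable ⟨v, hv⟩ ⟨z, hz⟩) ?_
        ⟨hv, SimpleGraph.Reachable.refl _⟩ (h x x.2).symm
      rintro u w ⟨hu, h1⟩ hadj
      refine ⟨hadj.2.2, h1.trans (SimpleGraph.Adj.reachable ?_)⟩
      exact hadj.1
    exact h1.2
  have : Nonempty A := ⟨⟨v, hv⟩⟩
  exact ⟨fun x y => (key x).symm.trans (key y)⟩

theorem reach_of_conn {G : SimpleGraph V} {A : Set V} (h : (G.induce A).Connected) {x y : V}
    (hx : x ∈ A) (hy : y ∈ A) : (rs G A).Reachable x y := by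
  have h1 := h.preconnected ⟨x, hx⟩ ⟨y, hy⟩
  let f : G.induce A →g rs G A := ⟨Subtype.val, fun {a b} hab => ⟨hab, a.2, b.2⟩⟩
  exact h1.map f

theorem cmpt_self {G : SimpleGraph V} {J : Set V} {x y : V} (hy : y ∈ J) (h : y ≠ x) :
    y ∈ cmpt G J x y := ⟨hy, h, SimpleGraph.Reachable.refl _⟩

theorem cmpt_closed {G : SimpleGraph V} {J : Set V} {x y z w : V} (hz : z ∈ cmpt G J x y)
    (hw : w ∈ J) (hwx : w ≠ x) (h : G.Adj z w) : w ∈ cmpt G J x y :=
  ⟨hw, hwx, hz.2.2.trans (SimpleGraph.Adj.reachable (G := rs G (J \ {x}))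
    ⟨h, ⟨hz.1, hz.2.1⟩, ⟨hw, hwx⟩⟩)⟩

theorem cmpt_trans {G : SimpleGraph V} {J : Set V} {x y z w : V} (hz : z ∈ cmpt G J x y)
    (hw : w ∈ J) (hwx : w ≠ x) (h : (rs G (J \ {x})).Reachable z w) : w ∈ cmpt G J x y :=
  ⟨hw, hwx, hz.2.2.trans h⟩

/-- every vertex of a component reaches the removed vertex -/
theorem cmpt_reach {G : SimpleGraph V} {J : Set V} {x y : V} (_ : x ∈ J)
    (ha : ∃ a ∈ cmpt G J x y, G.Adj x a) {R : Set V} (hR : cmpt G J x y ⊆ R) (hxR : x ∈ R)
    {z : V} (hz : z ∈ cmpt G J x y) : (rs G R).Reachable z x := by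
  obtain ⟨w, hw, hxw⟩ := ha
  have h1 : w ∈ cmpt G J x y ∧ (rs G R).Reachable z w := by
    refine closed_reach (H := rs G (J \ {x}))
      (P := fun u => u ∈ cmpt G J x y ∧ (rs G R).Reachable z u) ?_
      ⟨hz, SimpleGraph.Reachable.refl _⟩ (hz.2.2.symm.trans hw.2.2)
    rintro u u' ⟨hu, h1⟩ hadj
    have hu' : u' ∈ cmpt G J x y := cmpt_closed hu hadj.2.2.1 hadj.2.2.2 hadj.1
    exact ⟨hu', h1.trans (SimpleGraph.Adj.reachable (G := rs G R) ⟨hadj.1, hR hu, hR hu'⟩)⟩
  exact h1.2.trans (SimpleGraph.Adj.reachable (G := rs G R) ⟨hxw.symm, hR hw, hxR⟩)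

end ItS4c

open ItS4c in
theorem S4c (hS4a : PS4a) (hS4b : PS4b) : PS4c := by
  intro V _ G J T hJ hT v hv hvT hnadj y hy hyv
  classical
  set C := cmpt G J v y with hC
  by_cases hone : ∀ t ∈ T, ∀ t' ∈ T, t ∈ C → t' ∈ C → t = t'
  · obtain ⟨a, ha, hva, hu, -⟩ := hS4b G J T hJ v hv hvT hnadj y hy hyv hone
    exact Or.inl ⟨a, ha, hva, hu⟩
  by_cases hfirst : ∃ a ∈ C, G.Adj v a ∧ ∀ b ∈ C, G.Adj v b → b = a
  · exact Or.inl hfirst
  right
  obtain ⟨hA1, hA2⟩ := hS4a G J T hJ v hv hvT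
  have hCJ : C ⊆ J := fun z hz => hz.1
  have hvC : v ∉ C := fun h => h.2.1 rfl
  -- the components other than `C` are disjoint from `C`
  have hdis : ∀ z, z ∉ C → ∀ u, u ∈ cmpt G J v z → z ∈ J → z ≠ v → u ∉ C := by
    intro z hz u hu hzJ hzv huC
    exact hz (cmpt_trans huC hzJ hzv hu.2.2.symm)
  -- a terminal outside `C`
  obtain ⟨t3, ht3T, ht3C⟩ : ∃ t ∈ T, t ∉ C := by
    obtain ⟨z, hzJ, hzv, hzC⟩ := hA2 y hy hyv
    obtain ⟨-, t, htT, ht⟩ := hA1 z hzJ hzv
    exact ⟨t, htT, hdis z hzC t ht hzJ hzv⟩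
  have hTfin : T.Finite := Set.toFinite T
  -- at most two terminals in `C`
  have htwo : ∀ s ∈ T, ∀ s' ∈ T, s ∈ C → s' ∈ C → s ≠ s' → ∀ t ∈ T, t ∈ C → t = s ∨ t = s' := by
    intro s hs s' hs' hsC hs'C hne t ht htC
    by_contra hcon
    push Not at hcon
    have hsub : (({s, s', t, t3} : Finset V) : Set V) ⊆ T := by
      intro x hx
      simp only [Finset.coe_insert, Finset.coe_singleton, Set.mem_insert_iff,
        Set.mem_singleton_iff] at hx
      rcases hx with rfl | rfl | rfl | rfl <;> assumption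
    have h1 : (({s, s', t, t3} : Finset V) : Set V).ncard ≤ T.ncard :=
      Set.ncard_le_ncard hsub hTfin
    rw [Set.ncard_coe_finset] at h1
    have h2 : ({s, s', t, t3} : Finset V).card = 4 := by
      have e1 : s ≠ t3 := fun h => ht3C (h ▸ hsC)
      have e2 : s' ≠ t3 := fun h => ht3C (h ▸ hs'C)
      have e3 : t ≠ t3 := fun h => ht3C (h ▸ htC)
      have e4 : s ≠ t := fun h => hcon.1 h.symm
      have e5 : s' ≠ t := fun h => hcon.2 h.symm
      rw [Finset.card_insert_of_notMem, Finset.card_insert_of_notMem,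
        Finset.card_insert_of_notMem, Finset.card_singleton]
      · simpa using e3
      · simp [e5, e2]
      · simp [hne, e4, e1]
    omega
  -- facts on neighbours of `v` in `C`
  have nb : ∀ a ∈ C, G.Adj v a → a ∈ J ∧ a ∉ T ∧ a ≠ v := fun a ha hva =>
    ⟨ha.1, fun h => hnadj a h hva, ha.2.1⟩
  -- claim 1
  have cl1 : ∀ a ∈ C, G.Adj v a → ∀ z ∈ J, z ∉ C → z ∈ cmpt G J a v := by
    intro a ha hva z hzJ hzC
    obtain ⟨haJ, haT, hav⟩ := nb a ha hva
    have hvD : v ∈ cmpt G J a v := cmpt_self hv hav.symm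
    by_cases hzv : z = v
    · rw [hzv]; exact hvD
    have hza : z ≠ a := fun h => hzC (h ▸ ha)
    refine cmpt_trans hvD hzJ hza ?_
    refine (cmpt_reach hv (hA1 z hzJ hzv).1 (R := J \ {a}) ?_ ⟨hv, hav.symm⟩
      (cmpt_self hzJ hzv)).symm
    intro u hu
    refine ⟨hu.1, fun h => ?_⟩
    exact hdis z hzC u hu hzJ hzv (by rw [Set.mem_singleton_iff.mp h]; exact ha)
  -- claim 3
  have cl3 : ∀ a ∈ C, G.Adj v a → ∃ t ∈ T, t ∈ C ∧ t ∉ cmpt G J a v := by
    intro a ha hva
    obtain ⟨haJ, haT, hav⟩ := nb a ha hva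
    obtain ⟨hB1, hB2⟩ := hS4a G J T hJ a haJ haT
    obtain ⟨z, hzJ, hza, hz⟩ := hB2 v hv hav.symm
    obtain ⟨-, t, htT, ht⟩ := hB1 z hzJ hza
    have h1 : t ∉ cmpt G J a v := fun h => hz (cmpt_trans h hzJ hza ht.2.2.symm)
    refine ⟨t, htT, ?_, h1⟩
    by_contra htC
    exact h1 (cl1 a ha hva t ht.1 htC)
  -- claim 4
  have cl4 : ∀ a ∈ C, G.Adj v a → ∀ a' ∈ C, G.Adj v a' → a ≠ a' → ∀ t ∈ T,
      t ∈ cmpt G J a v ∨ t ∈ cmpt G J a' v := by
    intro a ha hva a' ha' hva' hne t ht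
    obtain ⟨haJ, haT, hav⟩ := nb a ha hva
    obtain ⟨haJ', haT', hav'⟩ := nb a' ha' hva'
    have htJ : t ∈ J := hJ.sub ht
    have hta : t ≠ a := fun h => haT (h ▸ ht)
    have hta' : t ≠ a' := fun h => haT' (h ▸ ht)
    by_contra hcon
    push Not at hcon
    obtain ⟨h1, h2⟩ := hcon
    -- the component of `t` in `J` minus `{a, a'}`
    have hreach : (rs G J).Reachable t v := reach_of_conn hJ.conn htJ hv
    have hP : v ≠ a ∧ v ≠ a' ∧ (rs G (J \ {a, a'})).Reachable t v := by
      refine closed_reach (H := rs G J)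
        (P := fun u => u ≠ a ∧ u ≠ a' ∧ (rs G (J \ {a, a'})).Reachable t u) ?_
        ⟨hta, hta', SimpleGraph.Reachable.refl _⟩ hreach
      rintro u w ⟨hua, hua', hu⟩ hadj
      have huJ : u ∈ J := hadj.2.1
      by_cases hwa : w = a
      · exfalso
        apply h2
        refine cmpt_trans (cmpt_self hv hav'.symm) htJ hta' ?_
        have s1 : (rs G (J \ {a'})).Reachable t u :=
          hu.mono (rs_mono G (fun x hx => ⟨hx.1, fun h => hx.2 (Or.inr h)⟩))
        have s2 : (rs G (J \ {a'})).Adj u a :=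
          ⟨hwa ▸ hadj.1, ⟨huJ, hua'⟩, ⟨haJ, hne⟩⟩
        have s3 : (rs G (J \ {a'})).Adj a v := ⟨hva.symm, ⟨haJ, hne⟩, ⟨hv, hav'.symm⟩⟩
        exact ((s1.trans s2.reachable).trans s3.reachable).symm
      by_cases hwa' : w = a'
      · exfalso
        apply h1
        refine cmpt_trans (cmpt_self hv hav.symm) htJ hta ?_
        have s1 : (rs G (J \ {a})).Reachable t u :=
          hu.mono (rs_mono G (fun x hx => ⟨hx.1, fun h => hx.2 (Or.inl h)⟩))
        have s2 : (rs G (J \ {a})).Adj u a' :=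
          ⟨hwa' ▸ hadj.1, ⟨huJ, hua⟩, ⟨haJ', hne.symm⟩⟩
        have s3 : (rs G (J \ {a})).Adj a' v := ⟨hva'.symm, ⟨haJ', hne.symm⟩, ⟨hv, hav.symm⟩⟩
        exact ((s1.trans s2.reachable).trans s3.reachable).symm
      refine ⟨hwa, hwa', hu.trans (SimpleGraph.Adj.reachable (G := rs G (J \ {a, a'})) ?_)⟩
      refine ⟨hadj.1, ⟨huJ, ?_⟩, ⟨hadj.2.2, ?_⟩⟩
      · rintro (h | h)
        · exact hua h
        · exact hua' h
      · rintro (h | h)
        · exact hwa h
        · exact hwa' h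
    apply h1
    refine cmpt_trans (cmpt_self hv hav.symm) htJ hta ?_
    have hsub : J \ {a, a'} ⊆ J \ {a} := fun x hx => ⟨hx.1, fun h => hx.2 (Or.inl h)⟩
    exact (hP.2.2.mono (rs_mono G hsub)).symm
  -- two neighbours
  obtain ⟨a, ha, hva⟩ := (hA1 y hy hyv).1
  obtain ⟨a', ha', hva', hne⟩ : ∃ a' ∈ C, G.Adj v a' ∧ a ≠ a' := by
    by_contra hcon
    push Not at hcon
    exact hfirst ⟨a, ha, hva, fun b hb hvb => (hcon b hb hvb).symm⟩
  obtain ⟨haJ, haT, hav⟩ := nb a ha hva
  obtain ⟨haJ', haT', hav'⟩ := nb a' ha' hva'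
  obtain ⟨t1, ht1T, ht1C, ht1⟩ := cl3 a ha hva
  obtain ⟨t2, ht2T, ht2C, ht2⟩ := cl3 a' ha' hva'
  have h12 : t1 ≠ t2 := by
    intro h
    rcases cl4 a ha hva a' ha' hva' hne t1 ht1T with h' | h'
    · exact ht1 h'
    · exact ht2 (h ▸ h')
  have ht1a : t1 ≠ a := fun h => haT (h ▸ ht1T)
  have ht2a' : t2 ≠ a' := fun h => haT' (h ▸ ht2T)
  have hCT := htwo t1 ht1T t2 ht2T ht1C ht2C h12
  refine ⟨a, ha, a', ha', hne, hva, hva', ?_, ?_⟩
  · -- adjacency
    by_contra hnad
    have hX1 : ∃ w ∈ cmpt G J a t1, G.Adj a w :=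
      ((hS4a G J T hJ a haJ haT).1 t1 (hJ.sub ht1T) ht1a).1
    have hX2 : ∃ w ∈ cmpt G J a' t2, G.Adj a' w :=
      ((hS4a G J T hJ a' haJ' haT').1 t2 (hJ.sub ht2T) ht2a').1
    let R : Set V := (J \ C) ∪ ({a, a'} ∪ (cmpt G J a t1 ∪ cmpt G J a' t2))
    have hvR : v ∈ R := Or.inl ⟨hv, hvC⟩
    have haR : a ∈ R := Or.inr (Or.inl (Or.inl rfl))
    have haR' : a' ∈ R := Or.inr (Or.inl (Or.inr rfl))
    have hav_r : (rs G R).Reachable a v :=
      SimpleGraph.Adj.reachable (G := rs G R) ⟨hva.symm, haR, hvR⟩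
    have hav_r' : (rs G R).Reachable a' v :=
      SimpleGraph.Adj.reachable (G := rs G R) ⟨hva'.symm, haR', hvR⟩
    have hconn : (G.induce R).Connected := by
      refine conn_of hvR ?_
      rintro x (⟨hxJ, hxC⟩ | (hx | hx) | hx | hx)
      · by_cases hxv : x = v
        · rw [hxv]
        refine cmpt_reach hv (hA1 x hxJ hxv).1 (R := R) ?_ hvR (cmpt_self hxJ hxv)
        intro u hu
        exact Or.inl ⟨hu.1, hdis x hxC u hu hxJ hxv⟩
      · rw [hx]; exact hav_r
      · rw [Set.mem_singleton_iff.mp hx]; exact hav_r'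
      · exact (cmpt_reach haJ hX1 (R := R) (fun u hu => Or.inr (Or.inr (Or.inl hu))) haR
          hx).trans hav_r
      · exact (cmpt_reach haJ' hX2 (R := R) (fun u hu => Or.inr (Or.inr (Or.inr hu))) haR'
          hx).trans hav_r'
    have hRJ : R ⊆ J := by
      rintro x (⟨hxJ, -⟩ | (hx | hx) | hx | hx)
      · exact hxJ
      · rw [hx]; exact haJ
      · rw [Set.mem_singleton_iff.mp hx]; exact haJ'
      · exact hx.1
      · exact hx.1
    have hTR : T ⊆ R := by
      intro t ht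
      by_cases htC : t ∈ C
      · rcases hCT t ht htC with rfl | rfl
        · exact Or.inr (Or.inr (Or.inl (cmpt_self (hJ.sub ht) ht1a)))
        · exact Or.inr (Or.inr (Or.inr (cmpt_self (hJ.sub ht) ht2a')))
      · exact Or.inl ⟨hJ.sub ht, htC⟩
    have hReq : R = J := hJ.min R hRJ hTR hconn
    -- the set `{a} ∪ X1` is closed in `C`
    have haa' : (rs G (J \ {v})).Reachable a a' := ha.2.2.symm.trans ha'.2.2
    have hP : a' ∈ C ∧ (a' = a ∨ a' ∈ cmpt G J a t1) := by
      refine closed_reach (H := rs G (J \ {v}))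
        (P := fun u => u ∈ C ∧ (u = a ∨ u ∈ cmpt G J a t1)) ?_ ⟨ha, Or.inl rfl⟩ haa'
      rintro u w ⟨huC, hu⟩ hadj
      have hwC : w ∈ C := cmpt_closed huC hadj.2.2.1 hadj.2.2.2 hadj.1
      refine ⟨hwC, ?_⟩
      by_cases hwa : w = a
      · exact Or.inl hwa
      right
      rcases hu with hu | hu
      · -- u = a
        have hwR : w ∈ R := by rw [hReq]; exact hwC.1
        rcases hwR with ⟨-, h⟩ | (h | h) | h | h
        · exact absurd hwC h
        · exact absurd h hwa
        · exfalso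
          apply hnad
          rw [← hu, ← Set.mem_singleton_iff.mp h]
          exact hadj.1
        · exact h
        · exfalso
          -- `a` is in `X2`
          have h1 : a ∈ cmpt G J a' t2 := by
            refine cmpt_closed h haJ hne ?_
            rw [← hu]
            exact hadj.1.symm
          apply ht2
          refine cmpt_trans (cmpt_self hv hav'.symm) (hJ.sub ht2T) ht2a' ?_
          have s3 : (rs G (J \ {a'})).Adj v a := ⟨hva, ⟨hv, hav'.symm⟩, ⟨haJ, hne⟩⟩
          exact s3.reachable.trans h1.2.2.symm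
      · exact cmpt_closed hu hwC.1 hwa hadj.1
    rcases hP.2 with h | h
    · exact hne h.symm
    · apply ht1
      refine cmpt_trans (cmpt_self hv hav.symm) (hJ.sub ht1T) ht1a ?_
      have s3 : (rs G (J \ {a})).Adj v a' := ⟨hva', ⟨hv, hav.symm⟩, ⟨haJ', hne.symm⟩⟩
      exact s3.reachable.trans h.2.2.symm
  · -- no third neighbour
    intro c hc hvc
    by_contra hcon
    push Not at hcon
    obtain ⟨t, htT, htC, ht⟩ := cl3 c hc hvc
    rcases hCT t htT htC with rfl | rfl
    · rcases cl4 a ha hva c hc hvc hcon.1.symm t htT with h | h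
      · exact ht1 h
      · exact ht h
    · rcases cl4 a' ha' hva' c hc hvc hcon.2.symm t htT with h | h
      · exact ht2 h
      · exact ht h

end Pool.Agent.PReg

end

section

/-!
# Item S5
-/

set_option autoImplicit false

namespace Pool.Agent.PReg

open Pool.Agent.PEmb

namespace ItS5

theorem sub {V : Type} (G : SimpleGraph V) (S : Set V) (v : V) :
    (rs G S).neighborSet v ⊆ G.neighborSet v := fun _ h => h.1

theorem dg_le {V : Type} [Finite V] (G : SimpleGraph V) (S : Set V) (v : V) :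
    dg (rs G S) v ≤ dg G v := Set.ncard_le_ncard (sub G S v) (Set.toFinite _)

theorem nb_eq {V : Type} [Finite V] (G : SimpleGraph V) (S : Set V) (v : V)
    (h : dg G v ≤ dg (rs G S) v) : (rs G S).neighborSet v = G.neighborSet v :=
  Set.eq_of_subset_of_ncard_le (sub G S v) h (Set.toFinite _)

end ItS5

theorem S5 : PS5 := by
  intro V hV G S S'
  refine ⟨fun v hv => ?_, ?_, ItS5.dg_le G S⟩
  · have hle := ItS5.dg_le G S v
    by_cases h2 : dg (rs G S) v ≤ 2
    · exact Or.inl h2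
    · rcases hv with h | ⟨h3, h⟩ | ⟨h3, a, b, c, hab, hac, hbc, ha, hb, hc, hab', hc2⟩
      · omega
      · have heq := ItS5.nb_eq G S v (by omega)
        refine Or.inr (Or.inl ⟨by omega, fun u hu => ?_⟩)
        exact (ItS5.dg_le G S u).trans (h u hu.1)
      · have heq := ItS5.nb_eq G S v (by omega)
        have key : ∀ u, G.Adj v u → (rs G S).Adj v u := by
          intro u hu
          have : u ∈ G.neighborSet v := hu
          rw [← heq] at this
          exact this
        refine Or.inr (Or.inr ⟨by omega, a, b, c, hab, hac, hbc, key a ha, key b hb, key c hc,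
          ⟨hab', (key a ha).2.2, (key b hb).2.2⟩, (ItS5.dg_le G S c).trans hc2⟩)
  · ext u v
    show ((G.Adj u v ∧ u ∈ S ∧ v ∈ S) ∧ u ∈ S' ∧ v ∈ S') ↔
      (G.Adj u v ∧ u ∈ S ∩ S' ∧ v ∈ S ∩ S')
    constructor
    · rintro ⟨⟨h1, h2, h3⟩, h4, h5⟩
      exact ⟨h1, ⟨h2, h4⟩, ⟨h3, h5⟩⟩
    · rintro ⟨h1, ⟨h2, h4⟩, ⟨h3, h5⟩⟩
      exact ⟨⟨h1, h2, h3⟩, h4, h5⟩

end Pool.Agent.PReg

end

section

/-!
# Reg, S7: lifting a grid minor through a quotient
-/

set_option autoImplicit false

namespace Pool.Agent.PReg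

open Pool.Agent.PEmb

namespace ItS7

/-- every vertex of a branch set has a neighbour -/
theorem nbr {V' : Type} {H : SimpleGraph V'} {k : ℕ} {B : ℕ → ℕ → Set V'} (hk : 2 ≤ k)
    (hB : Grid H k B) {x y : ℕ} (hx : x < k) (hy : y < k) {a : V'} (ha : a ∈ B x y) :
    ∃ b, H.Adj a b := by
  obtain ⟨a0, ha0, b0, hb0⟩ : ∃ a0 ∈ B x y, ∃ b, H.Adj a0 b := by
    by_cases h : x + 1 < k
    · obtain ⟨a0, ha0, b, _, hb⟩ := hB.hor x y h hy
      exact ⟨a0, ha0, b, hb⟩
    · obtain ⟨x', rfl⟩ : ∃ x', x = x' + 1 := ⟨x - 1, by omega⟩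
      obtain ⟨b, _, a0, ha0, hb⟩ := hB.hor x' y hx hy
      exact ⟨a0, ha0, b, hb.symm⟩
  by_cases h : a = a0
  · subst h; exact ⟨b0, hb0⟩
  · obtain ⟨w⟩ := (hB.conn x y hx hy).preconnected ⟨a, ha⟩ ⟨a0, ha0⟩
    cases w with
    | nil => exact absurd rfl h
    | cons hadj _ => exact ⟨_, hadj⟩

end ItS7

open ItS7 in
theorem S7 : PS7 := by
  intro V V' G π H J k B hJ hconn hadj hk hB
  set S : Set V := {x | ∃ a b, H.Adj a b ∧ x ∈ J a} with hS
  refine ⟨fun x y => {u | ∃ a ∈ B x y, u ∈ J a}, ?_, ?_, ?_, ?_⟩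
  · intro x y hx hy
    set B' : Set V := {u | ∃ a ∈ B x y, u ∈ J a} with hB'
    have hJS : ∀ a ∈ B x y, J a ⊆ S := by
      intro a ha u hu
      obtain ⟨b, hb⟩ := nbr hk hB hx hy ha
      exact ⟨a, b, hb, hu⟩
    have hJB : ∀ a ∈ B x y, J a ⊆ B' := fun a ha u hu => ⟨a, ha, hu⟩
    -- inside one set
    have h1 : ∀ (a : V') (ha : a ∈ B x y) (u v : V) (hu : u ∈ J a) (hv : v ∈ J a),
        ((rs G S).induce B').Reachable ⟨u, hJB a ha hu⟩ ⟨v, hJB a ha hv⟩ := by
      intro a ha u v hu hv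
      obtain ⟨b, hb⟩ := nbr hk hB hx hy ha
      have hc := (hconn a b hb).preconnected ⟨u, hu⟩ ⟨v, hv⟩
      let φ : (G.induce (J a)) →g ((rs G S).induce B') :=
        { toFun := fun w => ⟨w.1, hJB a ha w.2⟩
          map_rel' := fun {p q} h => ⟨h, hJS a ha p.2, hJS a ha q.2⟩ }
      exact hc.map φ
    have h2 : ∀ (a a' : B x y), (H.induce (B x y)).Walk a a' →
        ∀ (u v : V) (hu : u ∈ J a.1) (hv : v ∈ J a'.1),
        ((rs G S).induce B').Reachable ⟨u, hJB a.1 a.2 hu⟩ ⟨v, hJB a'.1 a'.2 hv⟩ := by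
      intro a a' w
      induction w with
      | @nil a => intro u v hu hv; exact h1 a.1 a.2 u v hu hv
      | @cons a c a' hac w ih =>
        intro u v hu hv
        have hac' : H.Adj a.1 c.1 := hac
        obtain ⟨p, hp, q, hq, hpq⟩ := hadj _ _ hac'
        have e1 := h1 a.1 a.2 u p hu hp
        have e2 : ((rs G S).induce B').Reachable ⟨p, hJB a.1 a.2 hp⟩ ⟨q, hJB c.1 c.2 hq⟩ := by
          apply SimpleGraph.Adj.reachable
          exact ⟨hpq, hJS a.1 a.2 hp, hJS c.1 c.2 hq⟩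
        exact e1.trans (e2.trans (ih q v hq hv))
    have hne : ∃ u, u ∈ B' := by
      obtain ⟨a, ha⟩ := (hB.conn x y hx hy).nonempty
      obtain ⟨b, hb⟩ := nbr hk hB hx hy ha
      obtain ⟨p, hp, _⟩ := hadj _ _ hb
      exact ⟨p, a, ha, hp⟩
    obtain ⟨u0, hu0⟩ := hne
    have : Nonempty B' := ⟨⟨u0, hu0⟩⟩
    refine ⟨?_⟩
    rintro ⟨u, a, ha, hu⟩ ⟨v, a', ha', hv⟩
    obtain ⟨w⟩ := (hB.conn x y hx hy).preconnected ⟨a, ha⟩ ⟨a', ha'⟩
    exact h2 _ _ w u v hu hv
  · intro x y x' y' hx hy hx' hy' hne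
    rw [Set.disjoint_left]
    rintro u ⟨a, ha, hu⟩ ⟨a', ha', hu'⟩
    have e1 : π u = a := hJ a hu
    have e2 : π u = a' := hJ a' hu'
    have e3 : a = a' := e1.symm.trans e2
    subst e3
    exact Set.disjoint_left.mp (hB.disj x y x' y' hx hy hx' hy' hne) ha ha'
  · intro x y hx hy
    obtain ⟨a, ha, b, hb, hab⟩ := hB.hor x y hx hy
    obtain ⟨p, hp, q, hq, hpq⟩ := hadj _ _ hab
    exact ⟨p, ⟨a, ha, hp⟩, q, ⟨b, hb, hq⟩, hpq, ⟨a, b, hab, hp⟩, ⟨b, a, hab.symm, hq⟩⟩
  · intro x y hx hy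
    obtain ⟨a, ha, b, hb, hab⟩ := hB.ver x y hx hy
    obtain ⟨p, hp, q, hq, hpq⟩ := hadj _ _ hab
    exact ⟨p, ⟨a, ha, hp⟩, q, ⟨b, hb, hq⟩, hpq, ⟨a, b, hab, hp⟩, ⟨b, a, hab.symm, hq⟩⟩

end Pool.Agent.PReg

end

section

/-!
# S8: minimal connected sets exist
-/

set_option autoImplicit false

namespace Pool.Agent.PReg

open Pool.Agent.PEmb

theorem S8 : PS8 := by
  intro V _ G K T hK hT
  classical
  have hP : ∃ n : ℕ, ∃ J : Set V, J ⊆ K ∧ T ⊆ J ∧ (G.induce J).Connected ∧ J.ncard = n :=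
    ⟨K.ncard, K, subset_rfl, hT, hK, rfl⟩
  obtain ⟨J, h1, h2, h3, h4⟩ := Nat.find_spec hP
  refine ⟨J, h1, h3, h2, ?_⟩
  intro J' hJ' hT' hc
  have h5 := Nat.find_min' hP ⟨J', hJ'.trans h1, hT', hc, rfl⟩
  exact Set.eq_of_subset_of_ncard_le hJ' (by omega) (Set.toFinite _)

end Pool.Agent.PReg

end

section

/-!
# S9: one round
-/

set_option autoImplicit false

namespace Pool.Agent.PReg

open Pool.Agent.PEmb

namespace ItS9

theorem grid_mono {V : Type} {G : SimpleGraph V} {K k : ℕ} {B : ℕ → ℕ → Set V}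
    (h : Grid G K B) (hk : k ≤ K) : Grid G k B where
  conn x y hx hy := h.conn x y (by omega) (by omega)
  disj x y x' y' hx hy hx' hy' hne := h.disj x y x' y' (by omega) (by omega) (by omega)
    (by omega) hne
  hor x y hx hy := h.hor x y (by omega) (by omega)
  ver x y hx hy := h.ver x y (by omega) (by omega)

/-- Transfer of satisfied vertices. -/
theorem sat_congr {V : Type} {G H : SimpleGraph V} {v : V}
    (hv : G.neighborSet v = H.neighborSet v)
    (hn : ∀ u, G.Adj v u → G.neighborSet u = H.neighborSet u) (h : Sat H v) : Sat G v := by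
  have ha : ∀ u, G.Adj v u ↔ H.Adj v u := fun u => by
    rw [← SimpleGraph.mem_neighborSet, ← SimpleGraph.mem_neighborSet, hv]
  have hd : dg G v = dg H v := by simp [dg, hv]
  have hdn : ∀ u, G.Adj v u → dg G u = dg H u := fun u hu => by simp [dg, hn u hu]
  rcases h with h | ⟨h, h'⟩ | ⟨h, a, b, c, hab, hac, hbc, h1, h2, h3, h4, h5⟩
  · exact Or.inl (by omega)
  · refine Or.inr (Or.inl ⟨by omega, fun u hu => ?_⟩)
    rw [hdn u hu]
    exact h' u ((ha u).1 hu)
  · refine Or.inr (Or.inr ⟨by omega, a, b, c, hab, hac, hbc, (ha a).2 h1, (ha b).2 h2,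
      (ha c).2 h3, ?_, ?_⟩)
    · rw [← SimpleGraph.mem_neighborSet, hn a ((ha a).2 h1)]
      exact h4
    · rw [hdn c ((ha c).2 h3)]
      exact h5

end ItS9

open ItS9 in
theorem S9 (hS1 : PS1) (hS2 : PS2) (hGr : PGr) (hS3a : PS3a) (hS4 : PS4) (hS6 : PS6)
    (hS7 : PS7) (hS9a : PS9a) (hS9b : PS9b) (hE : PE23) : PS9 := by
  classical
  intro d k
  obtain ⟨K1, hK1⟩ := hE (max k 2)
  obtain ⟨w1, hw1⟩ := hGr K1
  refine ⟨(d + 1) ^ 2 * (w1 + 1) + 2, ?_⟩
  intro V _ G I hd hI B hB
  have hself : ∀ v, v ∈ ball G 2 v := fun v => by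
    simp [ball]
  let π : V → V := fun x => if h : ∃ v ∈ I, x ∈ ball G 2 v then h.choose else x
  have hπ1 : ∀ v ∈ I, ∀ x ∈ ball G 2 v, π x = v := by
    intro v hv x hx
    have h : ∃ v ∈ I, x ∈ ball G 2 v := ⟨v, hv, hx⟩
    have e : π x = h.choose := dif_pos h
    by_contra hne
    have := hI (h.choose) h.choose_spec.1 v hv (by rw [← e]; exact hne)
    exact Set.disjoint_left.1 this h.choose_spec.2 hx
  have hπ2 : ∀ x, (∀ v ∈ I, x ∉ ball G 2 v) → π x = x := by
    intro x hx
    refine dif_neg ?_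
    rintro ⟨v, hv, h⟩
    exact hx v hv h
  have hfib1 : ∀ v ∈ I, π ⁻¹' {v} = ball G 2 v := by
    intro v hv
    ext x
    simp only [Set.mem_preimage, Set.mem_singleton_iff]
    constructor
    · intro hx
      by_cases h : ∃ v ∈ I, x ∈ ball G 2 v
      · obtain ⟨u, hu, hxu⟩ := h
        rw [hπ1 u hu x hxu] at hx
        exact hx ▸ hxu
      · push Not at h
        rw [hπ2 x h] at hx
        exact absurd (hx ▸ hself v) (hx ▸ h v hv)
    · exact hπ1 v hv x
  have hfib2 : ∀ a, a ∉ I → π ⁻¹' {a} ⊆ {a} := by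
    intro a ha x hx
    simp only [Set.mem_preimage, Set.mem_singleton_iff] at hx ⊢
    by_cases h : ∃ v ∈ I, x ∈ ball G 2 v
    · obtain ⟨u, hu, hxu⟩ := h
      rw [hπ1 u hu x hxu] at hx
      exact absurd (hx ▸ hu) ha
    · push Not at h
      rwa [hπ2 x h] at hx
  have hsize : ∀ a, (π ⁻¹' {a}).encard ≤ ((d + 1) ^ 2 : ℕ) := by
    intro a
    by_cases ha : a ∈ I
    · rw [hfib1 a ha, ← Set.Finite.cast_ncard_eq (Set.toFinite _)]
      exact_mod_cast hS3a G d hd 2 a
    · refine (Set.encard_le_encard (hfib2 a ha)).trans ?_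
      rw [Set.encard_singleton]
      exact_mod_cast Nat.one_le_pow _ _ (by omega)
  have hconn : ∀ x, (G.induce (π ⁻¹' {π x})).Connected := by
    intro x
    by_cases h : ∃ v ∈ I, x ∈ ball G 2 v
    · obtain ⟨v, hv, hx⟩ := h
      rw [hπ1 v hv x hx, hfib1 v hv]
      exact (hS9a G v).1 2
    · push Not at h
      have hx : π x = x := hπ2 x h
      have hxI : x ∉ I := fun hxI => h x hxI (hself x)
      have e : π ⁻¹' {π x} = {x} := by
        rw [hx]
        refine Set.Subset.antisymm (hfib2 x hxI) ?_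
        rintro _ rfl
        exact hx
      rw [e]
      haveI : Nonempty ↥({x} : Set V) := ⟨⟨x, rfl⟩⟩
      refine ⟨fun a b => ?_⟩
      have : a = b := Subtype.ext (a.2.trans b.2.symm)
      rw [this]
  have htw : ¬ TreeWidthLE G ((d + 1) ^ 2 * (w1 + 1)) := by
    intro h
    have := hS2 G _ _ B h hB
    omega
  have htw' : ¬ TreeWidthLE (quo G π) w1 := fun h => htw (hS1 G π _ w1 hsize h)
  obtain ⟨B1, hB1⟩ := hw1 (quo G π) htw'
  obtain ⟨P, hP, hPat⟩ := hK1 (quo G π) B1 hB1
  obtain ⟨H, hH, hdeg, B2, hB2⟩ := hS6 (quo G π) (max k 2) P hP hPat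
  obtain ⟨J, T, hJ, hMin, hT3, hTu, hJe⟩ := hS9b G π H hH hdeg hconn
  obtain ⟨B3, hB3⟩ := hS7 G π H J (max k 2) B2 hJ (fun a b hab => (hMin a b hab).conn) hJe
    (le_max_right _ _) hB2
  refine ⟨{x | ∃ a b, H.Adj a b ∧ x ∈ J a}, ⟨B3, grid_mono hB3 (le_max_left _ _)⟩, ?_⟩
  intro v hv
  set S : Set V := {x | ∃ a b, H.Adj a b ∧ x ∈ J a} with hS
  by_cases hvS : v ∈ S
  · obtain ⟨a, b, hab, hva⟩ := hvS
    have hπv : π v = v := hπ1 v hv v (hself v)
    have hav : a = v := by
      have : π v = a := hJ a hva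
      rw [← this, hπv]
    subst hav
    have hJS : S ∩ ball G 2 a = J a := by
      ext x
      constructor
      · rintro ⟨⟨a', b', -, hx⟩, hxb⟩
        have h1 : π x = a' := hJ a' hx
        have h2 : π x = a := hπ1 a hv x hxb
        rwa [← h1, h2] at hx
      · intro hx
        refine ⟨⟨a, b, hab, hx⟩, ?_⟩
        rw [← hfib1 a hv]
        exact hJ a hx
    have hT : ∀ t ∈ T a, ¬ (t = a ∨ G.Adj a t) := by
      intro t ht h
      obtain ⟨u, hu, hu'⟩ := hTu a t ht
      exact hu' (hπ1 a hv u ((hS9a G a).2 t u h hu).2)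
    have hsat := hS4 G (J a) (T a) (hMin a b hab) (hT3 a) a (fun h => hT a h (Or.inl rfl))
      (fun t ht h => hT t ht (Or.inr h))
    have hnb : ∀ x, (x = a ∨ G.Adj a x) →
        (rs G S).neighborSet x = (rs G (J a)).neighborSet x := by
      intro x hx
      ext y
      simp only [SimpleGraph.mem_neighborSet, rs]
      constructor
      · rintro ⟨h1, h2, h3⟩
        obtain ⟨h4, h5⟩ := (hS9a G a).2 x y hx h1
        refine ⟨h1, ?_, ?_⟩
        · rw [← hJS]; exact ⟨h2, h4⟩
        · rw [← hJS]; exact ⟨h3, h5⟩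
      · rintro ⟨h1, h2, h3⟩
        rw [← hJS] at h2 h3
        exact ⟨h1, h2.1, h3.1⟩
    refine sat_congr (hnb a (Or.inl rfl)) (fun u hu => hnb u (Or.inr hu.1)) hsat
  · refine Or.inl ?_
    have : (rs G S).neighborSet v = ∅ := by
      ext y
      simp only [SimpleGraph.mem_neighborSet, rs, Set.mem_empty_iff_false, iff_false]
      rintro ⟨-, h, -⟩
      exact hvS h
    simp [dg, this]

end Pool.Agent.PReg

end

section

/-!
# S9a: balls
-/

set_option autoImplicit false

namespace Pool.Agent.PReg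

open Pool.Agent.PEmb

namespace ItS9a

variable {V : Type}

theorem self_mem (G : SimpleGraph V) (v : V) : ∀ r, v ∈ ball G r v
  | 0 => rfl
  | r + 1 => Or.inl (self_mem G v r)

theorem reach (G : SimpleGraph V) (v : V) : ∀ r w (hw : w ∈ ball G r v),
    (G.induce (ball G r v)).Reachable ⟨v, self_mem G v r⟩ ⟨w, hw⟩ := by
  intro r
  induction r with
  | zero =>
    intro w hw
    have h : w = v := hw
    subst h
    exact SimpleGraph.Reachable.refl _
  | succ r ih =>
    have hle : ball G r v ⊆ ball G (r + 1) v := fun x hx => Or.inl hx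
    have lift : ∀ u (hu : u ∈ ball G r v), (G.induce (ball G (r + 1) v)).Reachable
        ⟨v, self_mem G v (r + 1)⟩ ⟨u, hle hu⟩ := by
      intro u hu
      have := (ih u hu).map (G.induceHomOfLE hle).toHom
      exact this
    intro w hw
    have hw' := hw
    rcases hw' with hw' | ⟨u, hu, huw⟩
    · exact lift w hw'
    · refine (lift u hu).trans (SimpleGraph.Adj.reachable ?_)
      exact huw

end ItS9a

theorem S9a : PS9a := by
  intro V G v
  refine ⟨fun r => ?_, fun x y hx hxy => ?_⟩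
  · refine (SimpleGraph.connected_iff_exists_forall_reachable _).mpr
      ⟨⟨v, ItS9a.self_mem G v r⟩, fun w => ItS9a.reach G v r w.1 w.2⟩
  · have h1 : x ∈ ball G 1 v := by
      rcases hx with hx | hx
      · exact Or.inl hx
      · exact Or.inr ⟨v, rfl, hx⟩
    exact ⟨Or.inl h1, Or.inr ⟨x, h1, hxy⟩⟩

end Pool.Agent.PReg

end

section

/-!
# S9b: choice of connected sets for a subcubic subgraph of a quotient
-/

set_option autoImplicit false

namespace Pool.Agent.PReg

open Pool.Agent.PEmb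

theorem S9b (hS8 : PS8) : PS9b := by
  intro V V' _ G π H hH h3 hc
  classical
  -- the choice of an edge over every unordered pair
  have h1 : ∀ s : Sym2 V', s ∈ H.edgeSet → ∃ p : Sym2 V, p ∈ G.edgeSet ∧ Sym2.map π p = s := by
    intro s
    induction s with | _ a b =>
    intro hs
    have hab : H.Adj a b := by simpa using hs
    obtain ⟨_, x, y, hx, hy, hxy⟩ := hH hab
    exact ⟨s(x, y), by simpa using hxy, by simp [hx, hy]⟩
  choose e he1 he2 using h1
  -- ordered choice
  have h2 : ∀ a b (h : H.Adj a b), ∃ x y, e s(a, b) h = s(x, y) ∧ π x = a ∧ π y = b ∧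
      G.Adj x y := by
    intro a b h
    have h4 := he1 s(a, b) h
    have h5 := he2 s(a, b) h
    generalize e s(a, b) h = p at h4 h5
    induction p with | _ x y =>
    have hxy : G.Adj x y := by simpa using h4
    have h6 : s(π x, π y) = s(a, b) := by simpa using h5
    rcases Sym2.eq_iff.1 h6 with ⟨h7, h8⟩ | ⟨h7, h8⟩
    · exact ⟨x, y, rfl, h7, h8, hxy⟩
    · exact ⟨y, x, Sym2.eq_swap, h8, h7, hxy.symm⟩
  choose x y hxy hx hy hadj using h2
  have hsw : ∀ a b (h : H.Adj a b), y a b h = x b a h.symm := by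
    intro a b h
    have h4 : s(x a b h, y a b h) = s(x b a h.symm, y b a h.symm) := by
      rw [← hxy a b h, ← hxy b a h.symm]
      congr 1
      exact Sym2.eq_swap
    rcases Sym2.eq_iff.1 h4 with ⟨h5, h6⟩ | ⟨h5, h6⟩
    · exfalso
      apply h.ne
      rw [← hx a b h, h5, hx b a h.symm]
    · exact h6
  let T : V' → Set V := fun a => {t | ∃ b, ∃ h : H.Adj a b, t = x a b h}
  have hT1 : ∀ a, T a ⊆ π ⁻¹' {a} := by
    rintro a t ⟨b, h, rfl⟩
    exact hx a b h
  have hJ : ∀ a, ∃ J : Set V, J ⊆ π ⁻¹' {a} ∧ ((∃ b, H.Adj a b) → MinC G J (T a)) := by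
    intro a
    by_cases h : ∃ b, H.Adj a b
    · obtain ⟨b, hb⟩ := h
      have h4 : (G.induce (π ⁻¹' {a})).Connected := by
        have := hc (x a b hb)
        rwa [hx a b hb] at this
      obtain ⟨J, hJ1, hJ2⟩ := hS8 G (π ⁻¹' {a}) (T a) h4 (hT1 a)
      exact ⟨J, hJ1, fun _ => hJ2⟩
    · exact ⟨∅, Set.empty_subset _, fun h' => absurd h' h⟩
  choose J hJ1 hJ2 using hJ
  refine ⟨J, T, hJ1, fun a b h => hJ2 a ⟨b, h⟩, ?_, ?_, ?_⟩
  · intro a
    have h4 : T a = (fun b : H.neighborSet a => x a b.1 b.2) '' Set.univ := by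
      ext t
      constructor
      · rintro ⟨b, h, rfl⟩
        exact ⟨⟨b, h⟩, trivial, rfl⟩
      · rintro ⟨b, _, rfl⟩
        exact ⟨b.1, b.2, rfl⟩
    have h5 : (T a).encard ≤ 3 := by
      rw [h4]
      refine (Set.encard_image_le _ _).trans ?_
      rw [Set.encard_univ]
      exact h3 a
    have h6 : ((T a).ncard : ℕ∞) = (T a).encard := (Set.toFinite _).cast_ncard_eq
    rw [← h6] at h5
    exact_mod_cast h5
  · rintro a t ⟨b, h, rfl⟩
    refine ⟨y a b h, hadj a b h, ?_⟩
    rw [hy a b h]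
    exact h.ne'
  · intro a b h
    refine ⟨x a b h, (hJ2 a ⟨b, h⟩).sub ⟨b, h, rfl⟩, y a b h, ?_, hadj a b h⟩
    rw [hsw a b h]
    exact (hJ2 b ⟨a, h.symm⟩).sub ⟨a, h.symm, rfl⟩

end Pool.Agent.PReg

end

section

/-!
# Item Sall: all rounds
-/

set_option autoImplicit false

namespace Pool.Agent.PReg

open Pool.Agent.PEmb

namespace ItSall

theorem ball_mono {V : Type} {G H : SimpleGraph V} (h : H ≤ G) (r : ℕ) (v : V) :
    ball H r v ⊆ ball G r v := by
  induction r with
  | zero => exact fun _ hx => hx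
  | succ r ih =>
    intro w hw
    rcases hw with hw | ⟨u, hu, huw⟩
    · exact Or.inl (ih hw)
    · exact Or.inr ⟨u, ih hu, h huw⟩

theorem rs_le {V : Type} (G : SimpleGraph V) (S : Set V) : rs G S ≤ G := fun _ _ h => h.1

theorem rs_univ {V : Type} (G : SimpleGraph V) : rs G Set.univ = G := by
  ext u v
  exact ⟨fun h => h.1, fun h => ⟨h, trivial, trivial⟩⟩

theorem rounds (h5 : PS5) (h9 : PS9) (d : ℕ) : ∀ m k : ℕ, ∃ K : ℕ, ∀ {V : Type} [Finite V]
    (G : SimpleGraph V) (c : V → ℕ), (∀ v, dg G v ≤ d) →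
    (∀ u v, u ≠ v → c u = c v → Disjoint (ball G 2 u) (ball G 2 v)) →
    ∀ B, Grid G K B → ∃ S : Set V, (∃ B', Grid (rs G S) k B') ∧
      ∀ v, c v < m → Sat (rs G S) v := by
  intro m
  induction m with
  | zero =>
    intro k
    refine ⟨k, fun {V} _ G c _ _ B hB => ⟨Set.univ, ⟨B, ?_⟩, fun v hv => absurd hv (by omega)⟩⟩
    rw [rs_univ]
    exact hB
  | succ m ih =>
    intro k
    obtain ⟨K9, hK9⟩ := h9 d k
    obtain ⟨K, hK⟩ := ih K9
    refine ⟨K, fun {V} _ G c hd hc B hB => ?_⟩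
    obtain ⟨S, ⟨B', hB'⟩, hS⟩ := hK G c hd hc B hB
    have hd' : ∀ v, dg (rs G S) v ≤ d := fun v => le_trans ((h5 G S Set.univ).2.2 v) (hd v)
    obtain ⟨S', ⟨B'', hB''⟩, hS'⟩ := hK9 (rs G S) {v | c v = m} hd' (by
      intro u hu v hv huv
      have hu' : c u = m := hu
      have hv' : c v = m := hv
      exact Set.disjoint_of_subset (ball_mono (rs_le G S) 2 u) (ball_mono (rs_le G S) 2 v)
        (hc u v huv (by rw [hu', hv']))) B' hB'
    have hrs : rs (rs G S) S' = rs G (S ∩ S') := (h5 G S S').2.1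
    refine ⟨S ∩ S', ⟨B'', ?_⟩, ?_⟩
    · rw [← hrs]; exact hB''
    · intro v hv
      rw [← hrs]
      rcases Nat.lt_succ_iff_lt_or_eq.mp hv with h | h
      · exact (h5 (rs G S) S' Set.univ).1 v (hS v h)
      · exact hS' v h

end ItSall

theorem Sall (h3 : PS3) (h5 : PS5) (h9 : PS9) : PS := by
  intro d k
  obtain ⟨K, hK⟩ := ItSall.rounds h5 h9 d ((d + 1) ^ 4 + 1) k
  refine ⟨K, fun {V} _ G hd B hB => ?_⟩
  obtain ⟨c, hc1, hc2⟩ := h3 G d hd
  obtain ⟨S, hS, hS'⟩ := hK G c hd hc2 B hB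
  exact ⟨S, hS, fun v => hS' v (Nat.lt_succ_of_le (hc1 v))⟩

end Pool.Agent.PReg

end

section

/-!
# F3c: zones of neighbours in the pattern
-/

set_option autoImplicit false

namespace Pool.Agent.PReg

open Pool.Agent.PEmb

namespace ItF3c

variable {K k : ℕ} {P : Par}

lemma zc (a b s : ℕ) : zlab (.core a b s) = .cell (a / 2) (b / 2) := rfl

lemma zf (a b s : ℕ) : zlab (.leg false a b s) = if b % 2 = 0 then .cell (a / 2) (b / 2)
      else if a % 2 = 0 then .port false (a / 2) (b / 2) else .pin := rfl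

lemma zt (a b s : ℕ) : zlab (.leg true a b s) = if a % 2 = 0 then .cell (a / 2) (b / 2)
      else if b % 2 = 0 then .port true (a / 2) (b / 2) else .pin := rfl

lemma c1 {x : Lab} {i j : ℕ} (hx : Vx (2 * k) P x) (h : zlab x = .cell i j) : i < k ∧ j < k := by
  rcases x with ⟨a, b, s⟩ | ⟨_ | _, a, b, s⟩
  · obtain ⟨h1, h2, -⟩ := hx
    rw [zc, Zn.cell.injEq] at h
    omega
  · obtain ⟨⟨h1, h2⟩, -⟩ := hx
    simp only [nx] at h1 h2
    rw [zf] at h
    split_ifs at h
    rw [Zn.cell.injEq] at h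
    omega
  · obtain ⟨⟨h1, h2⟩, -⟩ := hx
    simp only [nx] at h1 h2
    rw [zt] at h
    split_ifs at h
    rw [Zn.cell.injEq] at h
    omega

lemma c2 {x : Lab} {o : Bool} {i j : ℕ} (hx : Vx (2 * k) P x) (h : zlab x = .port o i j) :
    Ex k o i j := by
  rcases x with ⟨a, b, s⟩ | ⟨_ | _, a, b, s⟩
  · simp [zc] at h
  · obtain ⟨⟨h1, h2⟩, -⟩ := hx
    simp only [nx] at h1 h2
    rw [zf] at h
    split_ifs at h
    rw [Zn.port.injEq] at h
    obtain ⟨rfl, rfl, rfl⟩ := h
    refine ⟨?_, ?_⟩ <;> simp only [nx] <;> omega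
  · obtain ⟨⟨h1, h2⟩, -⟩ := hx
    simp only [nx] at h1 h2
    rw [zt] at h
    split_ifs at h
    rw [Zn.port.injEq] at h
    obtain ⟨rfl, rfl, rfl⟩ := h
    refine ⟨?_, ?_⟩ <;> simp only [nx] <;> omega

lemma c3 {x y : Lab} {i j i' j' : ℕ} (h : AE K P x y) (hx : zlab x = .cell i j)
    (hy : zlab y = .cell i' j') : i = i' ∧ j = j' := by
  cases h with
  | cyc a b s ha hb hs =>
    rw [zc, Zn.cell.injEq] at hx hy
    omega
  | close a b ha hb =>
    rw [zc, Zn.cell.injEq] at hx hy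
    omega
  | out o a b hex =>
    cases o
    · rw [zc, Zn.cell.injEq] at hx
      rw [zf] at hy
      split_ifs at hy
      rw [Zn.cell.injEq] at hy
      omega
    · rw [zc, Zn.cell.injEq] at hx
      rw [zt] at hy
      split_ifs at hy
      rw [Zn.cell.injEq] at hy
      omega
  | step o a b s hex hs hl =>
    cases o
    · rw [zf] at hx hy
      split_ifs at hx hy
      rw [Zn.cell.injEq] at hx hy
      omega
    · rw [zt] at hx hy
      split_ifs at hx hy
      rw [Zn.cell.injEq] at hx hy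
      omega
  | inn o a b hex =>
    cases o
    · rw [zc, Zn.cell.injEq] at hy
      rw [zf] at hx
      split_ifs at hx
      rw [Zn.cell.injEq] at hx
      simp only [nx] at hy
      omega
    · rw [zc, Zn.cell.injEq] at hy
      rw [zt] at hx
      split_ifs at hx
      rw [Zn.cell.injEq] at hx
      simp only [nx] at hy
      omega

lemma c4 {x y : Lab} {o o' : Bool} {i j i' j' : ℕ} (h : AE K P x y) (hx : zlab x = .port o i j)
    (hy : zlab y = .port o' i' j') : o = o' ∧ i = i' ∧ j = j' := by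
  cases h with
  | cyc a b s ha hb hs => simp [zc] at hx
  | close a b ha hb => simp [zc] at hx
  | out o a b hex => simp [zc] at hx
  | step o a b s hex hs hl =>
    cases o
    · rw [zf] at hx hy
      split_ifs at hx hy
      rw [Zn.port.injEq] at hx hy
      obtain ⟨rfl, rfl, rfl⟩ := hx
      exact hy
    · rw [zt] at hx hy
      split_ifs at hx hy
      rw [Zn.port.injEq] at hx hy
      obtain ⟨rfl, rfl, rfl⟩ := hx
      exact hy
  | inn o a b hex => simp [zc] at hy

lemma c5 {x y : Lab} {o : Bool} {i j i' j' : ℕ} (h : AE K P x y) (hx : zlab x = .port o i j)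
    (hy : zlab y = .cell i' j') : (i', j') = nx o i j := by
  cases h with
  | cyc a b s ha hb hs => simp [zc] at hx
  | close a b ha hb => simp [zc] at hx
  | out o a b hex => simp [zc] at hx
  | step o a b s hex hs hl =>
    exfalso
    cases o
    · rw [zf] at hx hy
      split_ifs at hx hy
    · rw [zt] at hx hy
      split_ifs at hx hy
  | inn o' a b hex =>
    cases o'
    · rw [zf] at hx
      split_ifs at hx
      rw [Zn.port.injEq] at hx
      obtain ⟨rfl, rfl, rfl⟩ := hx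
      rw [zc, Zn.cell.injEq] at hy
      obtain ⟨rfl, rfl⟩ := hy
      simp only [nx, Prod.mk.injEq, true_and, and_true]
      omega
    · rw [zt] at hx
      split_ifs at hx
      rw [Zn.port.injEq] at hx
      obtain ⟨rfl, rfl, rfl⟩ := hx
      rw [zc, Zn.cell.injEq] at hy
      obtain ⟨rfl, rfl⟩ := hy
      simp only [nx, Prod.mk.injEq, true_and, and_true]
      omega

lemma c5' {x y : Lab} {o : Bool} {i j i' j' : ℕ} (h : AE K P y x) (hx : zlab x = .port o i j)
    (hy : zlab y = .cell i' j') : (i', j') = (i, j) := by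
  cases h with
  | cyc a b s ha hb hs => simp [zc] at hx
  | close a b ha hb => simp [zc] at hx
  | inn o a b hex => simp [zc] at hx
  | step o a b s hex hs hl =>
    exfalso
    cases o
    · rw [zf] at hx hy
      split_ifs at hx hy
    · rw [zt] at hx hy
      split_ifs at hx hy
  | out o' a b hex =>
    cases o'
    · rw [zf] at hx
      split_ifs at hx
      rw [Zn.port.injEq] at hx
      obtain ⟨rfl, rfl, rfl⟩ := hx
      rw [zc, Zn.cell.injEq] at hy
      obtain ⟨rfl, rfl⟩ := hy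
      rfl
    · rw [zt] at hx
      split_ifs at hx
      rw [Zn.port.injEq] at hx
      obtain ⟨rfl, rfl, rfl⟩ := hx
      rw [zc, Zn.cell.injEq] at hy
      obtain ⟨rfl, rfl⟩ := hy
      rfl

lemma cell_eq (i j : ℕ) : Zn.cell (2 * i / 2) (2 * j / 2) = .cell i j := by
  congr 1 <;> omega

lemma c6 (hA : Adm (2 * k) P) {i j : ℕ} (hi : i < k) (hj : j < k) {a : Lab}
    (h : AAdj (2 * k) P (rt0 P i j) a) : zlab a = .cell i j ∧ a ≠ rt0 P i j := by
  have hi2 : 2 * i < 2 * k := by omega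
  have hj2 : 2 * j < 2 * k := by omega
  have hz := hA.z4 (2 * i) (2 * j) hi2 hj2
  generalize hx : rt0 P i j = x at h
  rcases h with h | h
  · cases h with
    | cyc a b s ha hb hs =>
      simp only [rt0, Lab.core.injEq] at hx
      obtain ⟨rfl, rfl, rfl⟩ := hx
      refine ⟨cell_eq i j, ?_⟩
      simp
    | close a b ha hb =>
      simp only [rt0, Lab.core.injEq] at hx
      obtain ⟨rfl, rfl, h3⟩ := hx
      refine ⟨cell_eq i j, ?_⟩
      simp only [ne_eq, Lab.core.injEq, true_and]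
      omega
    | out o a b hex =>
      simp only [rt0, Lab.core.injEq] at hx
      obtain ⟨rfl, rfl, h3⟩ := hx
      have h4 := hA.rinj (2 * i) (2 * j) 0 (ro o) hi2 hj2 (by omega)
        (by cases o <;> simp [ro]) h3
      cases o with
      | false =>
        refine ⟨?_, by simp⟩
        rw [zf, if_pos (by omega)]
        exact cell_eq i j
      | true => simp [ro] at h4
    | step o a b s hex hs hl => simp [rt0] at hx
    | inn o a b hex => simp [rt0] at hx
  · cases h with
    | cyc a b s ha hb hs =>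
      simp only [rt0, Lab.core.injEq] at hx
      obtain ⟨rfl, rfl, h3⟩ := hx
      refine ⟨cell_eq i j, ?_⟩
      simp
    | close a b ha hb =>
      simp only [rt0, Lab.core.injEq] at hx
      obtain ⟨rfl, rfl, h3⟩ := hx
      refine ⟨cell_eq i j, ?_⟩
      simp only [ne_eq, Lab.core.injEq, true_and]
      omega
    | out o a b hex => simp [rt0] at hx
    | step o a b s hex hs hl => simp [rt0] at hx
    | inn o a b hex =>
      exfalso
      simp only [rt0, Lab.core.injEq] at hx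
      obtain ⟨h1, h2, h3⟩ := hx
      rw [← h1, ← h2] at h3
      have h4 := hA.rinj (2 * i) (2 * j) 0 (ri o) hi2 hj2 (by omega)
        (by cases o <;> simp [ri]) h3
      cases o <;> simp [ri] at h4

end ItF3c

open ItF3c

theorem F3c : PF3c := by
  intro k P hA
  refine ⟨fun x i j hx h => c1 hx h, fun x o i j hx h => c2 hx h, ?_, ?_, ?_, ?_⟩
  · rintro x y i j i' j' (h | h) hx hy
    · exact c3 h hx hy
    · have := c3 h hy hx
      exact ⟨this.1.symm, this.2.symm⟩
  · rintro x y o i j o' i' j' (h | h) hx hy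
    · exact c4 h hx hy
    · have := c4 h hy hx
      exact ⟨this.1.symm, this.2.1.symm, this.2.2.symm⟩
  · rintro x y o i j i' j' (h | h) hx hy
    · exact Or.inr (c5 h hx hy)
    · exact Or.inl (c5' h hx hy)
  · intro i j hi hj
    have hi2 : 2 * i < 2 * k := by omega
    have hj2 : 2 * j < 2 * k := by omega
    have hr := hA.rlt (2 * i) (2 * j) 0 hi2 hj2 (by omega)
    have hex : Ex (2 * k) false (2 * i) (2 * j) :=
      ⟨show 2 * i < 2 * k by omega, show 2 * j + 1 < 2 * k by omega⟩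
    refine ⟨⟨hi2, hj2, hr⟩, ⟨_, _, .leg false (2 * i) (2 * j) 1, ?_, ?_, ?_,
      ItRC.cyc_adj hA hi2 hj2 hr, ItRC.cyc_adj' hA hi2 hj2 hr,
      Or.inl (AE.out false (2 * i) (2 * j) hex)⟩, fun a h => c6 hA hi hj h⟩
    · intro h
      rw [Lab.core.injEq] at h
      exact ItRC.succ_ne_pred hA hi2 hj2 hr h.2.2
    · simp
    · simp

end Pool.Agent.PReg

end

section

/-!
# Item K1: the case of one cell
-/

set_option autoImplicit false

namespace Pool.Agent.PReg

open Pool.Agent.PEmb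

theorem K1 : PK1 := by
  classical
  intro V _ G huv
  obtain ⟨u, v, huv⟩ := huv
  refine ⟨fun x => if x = u then .diag else .pin, fun {W} Γ => ⟨?_, ?_⟩⟩
  · rintro ⟨w, -⟩
    have hok : ∀ x : V, okz Γ (if x = u then ZB.diag else ZB.pin)
        (if x = u then ((some (w 0), some (w 0)) : Option W × Option W) else (none, none)) := by
      intro x
      by_cases hx : x = u
      · rw [if_pos hx, if_pos hx]
        exact ⟨w 0, rfl⟩
      · rw [if_neg hx, if_neg hx]
        rfl
    refine ⟨fun x => (x, if x = u then (some (w 0), some (w 0)) else (none, none)), ?_, ?_⟩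
    · intro x y h
      exact congrArg Prod.fst h
    · intro x y h
      refine ⟨h, hok x, hok y, ?_⟩
      simp only
      by_cases hx : x = u
      · have hy : y ≠ u := by
          intro hy
          exact h.ne (hx.trans hy.symm)
        rw [if_pos hx, if_neg hy]
        trivial
      · rw [if_neg hx]
        trivial
  · rintro ⟨f, hf, hadj⟩
    by_contra hK
    have hW : IsEmpty W := by
      rw [← not_nonempty_iff]
      rintro ⟨w⟩
      exact hK ⟨fun _ => w, fun a b hab => absurd (Subsingleton.elim a b) hab⟩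
    -- values of the non-isolated vertices
    have key : ∀ x y, G.Adj x y → (f x).1 ≠ u ∧ (f x).2 = (none, none) ∧
        G.Adj (f x).1 (f y).1 := by
      intro x y hxy
      obtain ⟨h1, h2, -, -⟩ := hadj x y hxy
      by_cases hx : (f x).1 = u
      · simp only [hx, if_true] at h2
        obtain ⟨w, -⟩ := h2
        exact (hW.false w).elim
      · simp only [hx, if_false] at h2
        exact ⟨hx, h2, h1⟩
    set N : Set V := {x | ∃ y, G.Adj x y} with hN
    have huN : u ∈ N := ⟨v, huv⟩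
    have hmap : ∀ x ∈ N, (f x).1 ∈ N \ {u} := by
      rintro x ⟨y, hxy⟩
      obtain ⟨h1, h2, h3⟩ := key x y hxy
      exact ⟨⟨_, h3⟩, h1⟩
    have hinj : Set.InjOn (fun x => (f x).1) N := by
      rintro x ⟨y, hxy⟩ x' ⟨y', hxy'⟩ h
      apply hf
      apply Prod.ext
      · exact h
      · rw [(key x y hxy).2.1, (key x' y' hxy').2.1]
    have hle : N.ncard ≤ (N \ {u}).ncard :=
      Set.ncard_le_ncard_of_injOn (fun x => (f x).1) hmap hinj (Set.toFinite _)
    have hlt : (N \ {u}).ncard < N.ncard := Set.ncard_sdiff_singleton_lt_of_mem huN (Set.toFinite _)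
    exact absurd hle (not_le.mpr hlt)

end Pool.Agent.PReg

end
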