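import Pool.Agent.Work.MP_cfa43e_lc.Reg.StmtsB
import Pool.Agent.Work.MP_cfa43e_lc.Bd.B05
import Pool.Agent.Work.MP_cfa43e_lc.Reg.Stmts
import Pool.Agent.Work.MP_cfa43e_lc.Bd.B03

/-! Bundle of small proof modules (one section per former module). -/

section

/-!
# L1: the pruned model
-/

set_option autoImplicit false

namespace Pool.Agent.PReg

open Pool.Agent.PEmb

namespace ItL1

theorem cl_eq {V : Type} {G : SimpleGraph V} (he : Equivalence (Eqv G)) {a b u : V}
    (h1 : u ∈ cl G a) (h2 : u ∈ cl G b) : cl G a = cl G b := by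
  have hab : Eqv G a b := he.trans h1 (he.symm h2)
  ext w
  exact ⟨fun h => he.trans (he.symm hab) h, fun h => he.trans hab h⟩

theorem conn_singleton {V : Type} (G : SimpleGraph V) (v : V) :
    (G.induce ({v} : Set V)).Connected := by
  haveI : Nonempty ↥({v} : Set V) := ⟨⟨v, rfl⟩⟩
  refine ⟨fun a b => ?_⟩
  have : a = b := Subtype.ext (a.2.trans b.2.symm)
  rw [this]

theorem conn_pair {V : Type} (G : SimpleGraph V) {s t : V} (h : G.Adj s t) :
    (G.induce ({s, t} : Set V)).Connected := by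
  have hs : s ∈ ({s, t} : Set V) := by simp
  have ht : t ∈ ({s, t} : Set V) := by simp
  haveI : Nonempty ↥({s, t} : Set V) := ⟨⟨s, hs⟩⟩
  have hst : (G.induce ({s, t} : Set V)).Adj ⟨s, hs⟩ ⟨t, ht⟩ := h
  have key : ∀ a : ↥({s, t} : Set V), (G.induce ({s, t} : Set V)).Reachable ⟨s, hs⟩ a := by
    rintro ⟨a, rfl | rfl⟩
    · exact SimpleGraph.Reachable.refl _
    · exact hst.reachable
  exact ⟨fun a b => (key a).symm.trans (key b)⟩

theorem sat_le {V : Type} {G : SimpleGraph V} {v : V} (h : Sat G v) : dg G v ≤ 3 := by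
  rcases h with h | ⟨h, -⟩ | ⟨h, -⟩ <;> omega

/-- the part of a class which is kept -/
theorem part {V : Type} [Finite V] {G : SimpleGraph V} (hsat : ∀ v, Sat G v)
    (hF : ∀ x y, G.Adj x y → ¬ Eqv G x y →
      (dg G x ≤ 2 ∧ cl G x = {x}) ∨ (dg G y ≤ 2 ∧ cl G y = {y}))
    {K : ℕ} {P : Par} {U : Set V} {ρ : V → Lab} (hI : IPat K P G U ρ)
    (hE : ∀ u ∈ U, ∀ v, (ρ v = ρ u ∧ v ∈ U) ↔ Eqv G u v) {x a b : Lab} (hx : Vx K P x)
    (hab : a ≠ b) (hxa : AAdj K P x a) (hxb : AAdj K P x b)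
    (hne : ∀ y, AAdj K P x y → y ≠ x)
    (honly : ∀ y, AAdj K P x y → y = a ∨ y = b) :
    ∃ Q : Set V, Q ⊆ {u | u ∈ U ∧ ρ u = x} ∧ (G.induce Q).Connected ∧
      (∀ y, AAdj K P x y → ∀ w ∈ U, ρ w = y → (∃ u ∈ U, ρ u = x ∧ G.Adj u w) →
        ∃ u ∈ Q, G.Adj u w) ∧
      ∀ v ∈ Q, {u | G.Adj v u ∧ (u ∈ Q ∨ (u ∈ U ∧ ρ u ≠ x))}.ncard ≤ 2 := by
  classical
  -- neighbours outside the class
  have hN : ∀ v ∈ U, ρ v = x → dg G v = 3 → ∀ w ∈ U, G.Adj v w → ρ w ≠ x →
      (ρ w = a ∨ ρ w = b) ∧ ∀ w' ∈ U, ρ w' = ρ w → w' = w := by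
    intro v hv hvx hd w hw hvw hwx
    have h1 : ¬ Eqv G v w := by
      intro h
      exact hwx (((hE v hv w).2 h).1.trans hvx)
    refine ⟨?_, ?_⟩
    · rcases hI.ind v hv w hw hvw with h | h
      · exact absurd (h.symm.trans hvx) hwx
      · rw [hvx] at h
        exact honly _ h
    · intro w' hw' hww
      rcases hF v w hvw h1 with h | h
      · exact absurd h.1 (by omega)
      · have : w' ∈ cl G w := (hE w hw w').1 ⟨hww, hw'⟩
        rw [h.2] at this
        exact this
  obtain ⟨⟨v0, hv0U, hv0x⟩⟩ := (hI.conn x hx).nonempty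
  by_cases hone : ∀ v ∈ U, ρ v = x → v = v0
  · -- one element
    refine ⟨{v0}, ?_, conn_singleton G v0, ?_, ?_⟩
    · rintro _ rfl
      exact ⟨hv0U, hv0x⟩
    · rintro y hy w hw hwy ⟨u, hu, hux, huw⟩
      rw [hone u hu hux] at huw
      exact ⟨v0, rfl, huw⟩
    · intro v hv
      rw [Set.mem_singleton_iff] at hv
      rw [hv]
      by_cases hd : dg G v0 ≤ 2
      · refine le_trans (Set.ncard_le_ncard ?_ (Set.toFinite _)) hd
        rintro u ⟨h, -⟩
        exact h
      · have hd3 : dg G v0 = 3 := by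
          have := sat_le (hsat v0)
          omega
        have hsub : ∀ u ∈ {u | G.Adj v0 u ∧ (u ∈ ({v0} : Set V) ∨ (u ∈ U ∧ ρ u ≠ x))},
            u ∈ U ∧ G.Adj v0 u ∧ ρ u ≠ x := by
          rintro u ⟨h1, h2 | h2⟩
          · exact absurd (h2 ▸ h1) (G.loopless.irrefl _)
          · exact ⟨h2.1, h1, h2.2⟩
        have hle : {u | G.Adj v0 u ∧ (u ∈ ({v0} : Set V) ∨ (u ∈ U ∧ ρ u ≠ x))}.ncard ≤
            ({a, b} : Set Lab).ncard := by
          refine Set.ncard_le_ncard_of_injOn ρ ?_ ?_ (Set.toFinite _)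
          · intro u hu
            obtain ⟨h1, h2, h3⟩ := hsub u hu
            rcases (hN v0 hv0U hv0x hd3 u h1 h2 h3).1 with h | h
            · exact Or.inl h
            · exact Or.inr h
          · intro u hu w hw huw
            obtain ⟨h1, h2, h3⟩ := hsub w hw
            exact (hN v0 hv0U hv0x hd3 w h1 h2 h3).2 u (hsub u hu).1 huw
        exact hle.trans (Set.ncard_pair hab).le
  · -- at least two elements
    have hdeg : ∀ v ∈ U, ρ v = x → dg G v = 3 := by
      intro v hv hvx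
      by_cases hvv : v = v0
      · push Not at hone
        obtain ⟨u, hu, hux, huv⟩ := hone
        rcases (hE v hv u).1 ⟨hux.trans hvx.symm, hu⟩ with h | h
        · exact absurd (h.symm.trans hvv) huv
        · exact h.2.1
      · rcases (hE v0 hv0U v).1 ⟨hvx.trans hv0x.symm, hv⟩ with h | h
        · exact absurd h.symm hvv
        · exact h.2.2
    have hadj : ∀ v ∈ U, ρ v = x → ∀ u ∈ U, ρ u = x → v ≠ u → G.Adj v u := by
      intro v hv hvx u hu hux hvu
      rcases (hE v hv u).1 ⟨hux.trans hvx.symm, hu⟩ with h | h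
      · exact absurd h hvu
      · exact h.1
    obtain ⟨s, hs, va, hva, hsx, hvaa, hsva⟩ := hI.adj x a hxa
    obtain ⟨t, ht, vb, hvb, htx, hvbb, htvb⟩ := hI.adj x b hxb
    have hax : a ≠ x := hne a hxa
    have hbx : b ≠ x := hne b hxb
    have ha1 : ∀ w ∈ U, ρ w = a → w = va := fun w hw hwa =>
      (hN s hs hsx (hdeg s hs hsx) va hva hsva (by rw [hvaa]; exact hax)).2 w hw
        (by rw [hwa, hvaa])
    have hb1 : ∀ w ∈ U, ρ w = b → w = vb := fun w hw hwb =>
      (hN t ht htx (hdeg t ht htx) vb hvb htvb (by rw [hvbb]; exact hbx)).2 w hw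
        (by rw [hwb, hvbb])
    have hout : ∀ v ∈ U, ρ v = x → ∀ w ∈ U, G.Adj v w → ρ w ≠ x → w = va ∨ w = vb := by
      intro v hv hvx w hw hvw hwx
      rcases (hN v hv hvx (hdeg v hv hvx) w hw hvw hwx).1 with h | h
      · exact Or.inl (ha1 w hw h)
      · exact Or.inr (hb1 w hw h)
    by_cases hboth : ∃ v1 ∈ U, ρ v1 = x ∧ G.Adj v1 va ∧ G.Adj v1 vb
    · obtain ⟨v1, hv1, hv1x, h1a, h1b⟩ := hboth
      refine ⟨{v1}, ?_, conn_singleton G v1, ?_, ?_⟩
      · rintro _ rfl
        exact ⟨hv1, hv1x⟩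
      · rintro y hy w hw hwy -
        rcases honly y hy with rfl | rfl
        · rw [ha1 w hw hwy]
          exact ⟨v1, rfl, h1a⟩
        · rw [hb1 w hw hwy]
          exact ⟨v1, rfl, h1b⟩
      · intro v hv
        rw [Set.mem_singleton_iff] at hv
        rw [hv]
        refine le_trans (Set.ncard_le_ncard (t := {va, vb}) ?_ (Set.toFinite _))
          (Set.ncard_insert_le _ _ |>.trans (by rw [Set.ncard_singleton]))
        rintro u ⟨h1, h2 | h2⟩
        · exact absurd (h2 ▸ h1) (G.loopless.irrefl _)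
        · exact hout v1 hv1 hv1x u h2.1 h1 h2.2
    · push Not at hboth
      have hst : s ≠ t := by
        rintro rfl
        exact hboth s hs hsx hsva htvb
      have hsb : ¬ G.Adj s vb := hboth s hs hsx hsva
      have hta : ¬ G.Adj t va := fun h => hboth t ht htx h htvb
      refine ⟨{s, t}, ?_, conn_pair G (hadj s hs hsx t ht htx hst), ?_, ?_⟩
      · rintro _ (rfl | rfl)
        · exact ⟨hs, hsx⟩
        · exact ⟨ht, htx⟩
      · rintro y hy w hw hwy -
        rcases honly y hy with rfl | rfl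
        · rw [ha1 w hw hwy]
          exact ⟨s, by simp, hsva⟩
        · rw [hb1 w hw hwy]
          exact ⟨t, by simp, htvb⟩
      · rintro v (rfl | rfl)
        · refine le_trans (Set.ncard_le_ncard (t := {t, va}) ?_ (Set.toFinite _))
            (Set.ncard_insert_le _ _ |>.trans (by rw [Set.ncard_singleton]))
          rintro u ⟨h1, (h2 | h2) | h2⟩
          · exact absurd (h2 ▸ h1) (G.loopless.irrefl _)
          · exact Or.inl h2
          · rcases hout v hs hsx u h2.1 h1 h2.2 with h | h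
            · exact Or.inr h
            · exact absurd (h ▸ h1) hsb
        · refine le_trans (Set.ncard_le_ncard (t := {s, vb}) ?_ (Set.toFinite _))
            (Set.ncard_insert_le _ _ |>.trans (by rw [Set.ncard_singleton]))
          rintro u ⟨h1, (h2 | h2) | h2⟩
          · exact Or.inl h2
          · exact absurd (h2 ▸ h1) (G.loopless.irrefl _)
          · rcases hout v ht htx u h2.1 h1 h2.2 with h | h
            · exact absurd (h ▸ h1) hta
            · exact Or.inr h

end ItL1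

open ItL1 in
theorem L1 (hP0 : PP0) (hF1 : PF1) (hF2a : PF2a) (hL0 : PL0) : PL1 := by
  classical
  intro V _ G hsat K P hadm hpat
  obtain ⟨φ, hinj, hadj⟩ := hpat
  obtain ⟨heq, hcl3, hF⟩ := hF1 G hsat
  obtain ⟨h1, h2, -⟩ := hP0 K P hadm
  have hclass : ∀ x, Vx K P x → ∃ v, φ x = cl G v := by
    intro x hx
    obtain ⟨y, z, -, hxy, -⟩ := h2 x hx
    rcases hxy with h | h
    · obtain ⟨-, a, b, ha, -, -⟩ := hadj x y h
      exact ⟨a, ha.symm⟩
    · obtain ⟨-, a, b, -, hb, -⟩ := hadj y x h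
      exact ⟨b, hb.symm⟩
  have hdisj : ∀ x y, Vx K P x → Vx K P y → ∀ u, u ∈ φ x → u ∈ φ y → x = y := by
    intro x y hx hy u hux huy
    obtain ⟨a, ha⟩ := hclass x hx
    obtain ⟨b, hb⟩ := hclass y hy
    apply hinj x y hx hy
    rw [ha] at hux
    rw [hb] at huy
    rw [ha, hb]
    exact cl_eq heq hux huy
  let ρ : V → Lab := fun u =>
    if h : ∃ x, Vx K P x ∧ u ∈ φ x then h.choose else .core 0 0 0
  have hρ : ∀ x, Vx K P x → ∀ u ∈ φ x, ρ u = x := by
    intro x hx u hu
    have h : ∃ x, Vx K P x ∧ u ∈ φ x := ⟨x, hx, hu⟩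
    have e : ρ u = h.choose := dif_pos h
    rw [e]
    exact hdisj _ _ h.choose_spec.1 hx u h.choose_spec.2 hu
  obtain ⟨hI, hc⟩ := hF2a G hsat K P φ hadm hinj hadj ρ hρ
  generalize hU : {u | ∃ x, Vx K P x ∧ u ∈ φ x} = U at hI
  have hE : ∀ u ∈ U, ∀ v, (ρ v = ρ u ∧ v ∈ U) ↔ Eqv G u v := by
    intro u hu v
    rw [← hU] at hu ⊢
    exact hc u hu v
  clear_value ρ
  -- the parts
  have hpart : ∀ x, ∃ Q : Set V, Vx K P x →
      Q ⊆ {u | u ∈ U ∧ ρ u = x} ∧ (G.induce Q).Connected ∧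
      (∀ y, AAdj K P x y → ∀ w ∈ U, ρ w = y → (∃ u ∈ U, ρ u = x ∧ G.Adj u w) →
        ∃ u ∈ Q, G.Adj u w) ∧
      ((∀ i j e, e < 4 → x ≠ .core i j (P.r i j e)) →
        ∀ v ∈ Q, {u | G.Adj v u ∧ (u ∈ Q ∨ (u ∈ U ∧ ρ u ≠ x))}.ncard ≤ 2) := by
    intro x
    by_cases hr : ∀ i j e, e < 4 → x ≠ .core i j (P.r i j e)
    · by_cases hx : Vx K P x
      · obtain ⟨a, b, hab⟩ := (hL0 K P hadm).1 x hr
        obtain ⟨y, z, hyz, hxy, hxz⟩ := h2 x hx
        have : a ≠ b ∧ AAdj K P x a ∧ AAdj K P x b := by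
          rcases hab y hxy with h | h <;> rcases hab z hxz with h' | h' <;> subst h <;> subst h'
          · exact absurd rfl hyz
          · exact ⟨hyz, hxy, hxz⟩
          · exact ⟨hyz.symm, hxz, hxy⟩
          · exact absurd rfl hyz
        obtain ⟨Q, q1, q2, q3, q4⟩ := part hsat hF hI hE hx this.1 this.2.1 this.2.2
          (fun y hy => (h1 x y hy).2.2.symm) hab
        exact ⟨Q, fun _ => ⟨q1, q2, q3, fun _ => q4⟩⟩
      · exact ⟨∅, fun h => absurd h hx⟩
    · refine ⟨{u | u ∈ U ∧ ρ u = x}, fun hx => ⟨subset_rfl, hI.conn x hx, ?_, fun h =>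
        absurd h hr⟩⟩
      rintro y hy w hw hwy ⟨u, hu, hux, huw⟩
      exact ⟨u, ⟨hu, hux⟩, huw⟩
  choose Q hQ using hpart
  have hset : ∀ x, Vx K P x → {u | u ∈ {u | u ∈ U ∧ u ∈ Q (ρ u)} ∧ ρ u = x} = Q x := by
    intro x hx
    ext u
    constructor
    · rintro ⟨⟨h1, h2⟩, rfl⟩
      exact h2
    · intro hu
      obtain ⟨h1, h2⟩ := (hQ x hx).1 hu
      exact ⟨⟨h1, by rw [h2]; exact hu⟩, h2⟩
  have hmem : ∀ x, Vx K P x → ∀ u ∈ Q x, u ∈ {u | u ∈ U ∧ u ∈ Q (ρ u)} ∧ ρ u = x := by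
    intro x hx u hu
    rw [← hset x hx] at hu
    exact hu
  refine ⟨{u | u ∈ U ∧ u ∈ Q (ρ u)}, ρ, ⟨⟨?_, ?_, ?_, ?_⟩, ?_, ?_, ?_⟩⟩
  · rintro u ⟨hu, -⟩
    exact hI.vx u hu
  · intro x hx
    rw [hset x hx]
    exact (hQ x hx).2.1
  · intro x y hxy
    obtain ⟨hx, hy, -⟩ := h1 x y hxy
    obtain ⟨u, hu, v, hv, hux, hvy, huv⟩ := hI.adj x y hxy
    obtain ⟨u', hu', huv'⟩ := (hQ x hx).2.2.1 y hxy v hv hvy ⟨u, hu, hux, huv⟩
    obtain ⟨k1, k2⟩ := hmem x hx u' hu'
    obtain ⟨v', hv', huv''⟩ := (hQ y hy).2.2.1 x hxy.symm u' k1.1 k2 ⟨v, hv, hvy, huv'.symm⟩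
    obtain ⟨k3, k4⟩ := hmem y hy v' hv'
    exact ⟨u', k1, v', k3, k2, k4, huv''.symm⟩
  · rintro u ⟨hu, -⟩ v ⟨hv, -⟩ huv
    exact hI.ind u hu v hv huv
  · intro x
    by_cases h : ∃ u ∈ U, ρ u = x
    · obtain ⟨u, hu, rfl⟩ := h
      refine le_trans (Set.ncard_le_ncard ?_ (Set.toFinite _)) (hcl3 u)
      rintro w ⟨⟨hw, -⟩, hwu⟩
      exact (hE u hu w).1 ⟨hwu, hw⟩
    · have : {u | u ∈ {u | u ∈ U ∧ u ∈ Q (ρ u)} ∧ ρ u = x} = ∅ := by
        ext u
        simp only [Set.mem_empty_iff_false, iff_false]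
        rintro ⟨⟨hu, -⟩, hux⟩
        exact h ⟨u, hu, hux⟩
      rw [this]
      simp
  · rintro v -
    refine le_trans (Set.ncard_le_ncard ?_ (Set.toFinite _)) (sat_le (hsat v))
    rintro u ⟨-, h⟩
    exact h
  · rintro v ⟨hv, hvQ⟩ hr
    have hx := hI.vx v hv
    refine le_trans (Set.ncard_le_ncard ?_ (Set.toFinite _)) ((hQ (ρ v) hx).2.2.2 hr v hvQ)
    rintro u ⟨⟨hu, huQ⟩, hvu⟩
    refine ⟨hvu, ?_⟩
    by_cases h : ρ u = ρ v
    · left
      rw [← h]
      exact huQ
    · exact Or.inr ⟨hu, h⟩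

end Pool.Agent.PReg

end

section

/-!
# L10: the layout with a pair of twins in every block
-/

set_option autoImplicit false

namespace Pool.Agent.PReg

open Pool.Agent.PEmb

namespace ItL10

theorem gam_blk {q i j : ℕ} {x : Lab} (h : Gam q i j x) : Blk q i j x := by
  rcases x with ⟨i', j', s⟩ | ⟨_ | _, i', j', s⟩
  · exact h.1
  · exact h.1
  · exact h.1

theorem vx_of_adj {V : Type} {K : ℕ} {P : Par} {G : SimpleGraph V} {U : Set V} {ρ : V → Lab}
    (h : IPat K P G U ρ) {x y : Lab} (ha : AAdj K P x y) : Vx K P x ∧ Vx K P y := by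
  obtain ⟨u, hu, v, hv, rfl, rfl, -⟩ := h.adj x y ha
  exact ⟨h.vx u hu, h.vx v hv⟩

theorem connSet (hF3d : PF3d) {V : Type} {K : ℕ} {P : Par} {G : SimpleGraph V} {U : Set V}
    {ρ : V → Lab} (hI : IPat K P G U ρ) (Q : Lab → Prop) (hne : ∃ x, Vx K P x ∧ Q x)
    (hc : ∀ x y, Vx K P x → Vx K P y → Q x → Q y →
      Relation.ReflTransGen (fun a b => AAdj K P a b ∧ Q a ∧ Q b) x y) :
    (G.induce {v | v ∈ U ∧ Q (ρ v)}).Connected := by
  have h := hF3d G K P U ρ hI {x | Vx K P x ∧ Q x} ∅ (fun x hx => hx.1) hne ?_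
    (fun v hv => absurd hv (Set.notMem_empty v))
  · have e : {u | u ∈ U ∧ ρ u ∈ {x | Vx K P x ∧ Q x}} ∪ ∅ = {v | v ∈ U ∧ Q (ρ v)} := by
      ext v
      simp only [Set.union_empty, Set.mem_setOf_eq]
      exact ⟨fun h => ⟨h.1, h.2.2⟩, fun h => ⟨h.1, hI.vx v h.1, h.2⟩⟩
    rwa [e] at h
  · intro x hx y hy
    refine Relation.ReflTransGen.mono ?_ x y (hc x y hx.1 hy.1 hx.2 hy.2)
    rintro a b ⟨h1, h2, h3⟩
    exact ⟨h1, ⟨(vx_of_adj hI h1).1, h2⟩, ⟨(vx_of_adj hI h1).2, h3⟩⟩

end ItL10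

open ItL10 in
theorem L10 (hL6 : PL6) (hL7 : PL7) (hL8 : PL8) (hL9 : PL9) (hF3d : PF3d) : PL10 := by
  classical
  intro V _ k q m P G U ρ hq hm hP hI hz
  obtain ⟨n1, n2, n3, n4, n5, n6, n7, n8⟩ := hL9 k q P hq hP
  have key : ∀ i j, i < k → j < k → ∃ C : Set V,
      {v | v ∈ U ∧ Gam q i j (ρ v)} ⊆ C ∧ C ⊆ {v | v ∈ U ∧ Blk q i j (ρ v)} ∧
      (G.induce C).Connected ∧ ∃ z0, z0 ∈ U ∧ Blk q i j (ρ z0) ∧ z0 ∉ C ∧
        m ≤ {v | G.Adj z0 v ∧ v ∈ C}.ncard := by
    intro i j hi hj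
    obtain ⟨b1, b2, b3⟩ := hL7 k q P hq hP i j hi hj
    have hR := connSet hF3d hI (Gam q i j) b3 b2
    have hB := connSet hF3d hI (Blk q i j) ⟨b3.choose, b3.choose_spec.1,
      gam_blk b3.choose_spec.2⟩ b1
    obtain ⟨z, z', hne, hmz, hall⟩ := hz i j hi hj
    have h1 := hall z (Or.inl rfl)
    have h2 := hall z' (Or.inr (Or.inl rfl))
    obtain ⟨C, c1, c2, c3, z0, c4, c5, c6⟩ := hL6 G {v | v ∈ U ∧ Blk q i j (ρ v)}
      {v | v ∈ U ∧ Gam q i j (ρ v)} z z' m hB hR (fun v hv => ⟨hv.1, gam_blk hv.2⟩) hne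
      ⟨⟨h1.1, h1.2.1⟩, fun h => h1.2.2 h.2⟩ ⟨⟨h2.1, h2.2.1⟩, fun h => h2.2.2 h.2⟩
      (fun v hv => ⟨⟨(hall v (Or.inr (Or.inr hv))).1, (hall v (Or.inr (Or.inr hv))).2.1⟩,
        fun h => (hall v (Or.inr (Or.inr hv))).2.2 h.2⟩) hmz hm
    refine ⟨C, c1, c2, c3, z0, ?_, ?_, c5, c6⟩
    · rcases c4 with rfl | rfl
      · exact h1.1
      · exact h2.1
    · rcases c4 with rfl | rfl
      · exact h1.2.1
      · exact h2.2.1
  choose C hRC hCB hCc z0 hzU hzB hzC hzm using key
  have hzn : ∀ v, ∃ z : Zn, (∀ i j, z = .cell i j ↔ ∃ (hi : i < k) (hj : j < k),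
      v ∈ C i j hi hj) ∧ ∀ o i j, z = .port o i j ↔ v ∈ U ∧ Prt q o i j (ρ v) := by
    intro v
    by_cases h1 : ∃ i j, ∃ (hi : i < k) (hj : j < k), v ∈ C i j hi hj
    · obtain ⟨i, j, hi, hj, hv⟩ := h1
      refine ⟨.cell i j, fun i' j' => ⟨?_, ?_⟩, fun o i' j' => ⟨fun h => ?_, fun h => ?_⟩⟩
      · intro h
        obtain ⟨rfl, rfl⟩ := Zn.cell.inj h
        exact ⟨hi, hj, hv⟩
      · rintro ⟨hi', hj', hv'⟩
        obtain ⟨rfl, rfl⟩ := n3 _ _ _ _ _ (hCB i j hi hj hv).2 (hCB i' j' hi' hj' hv').2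
        rfl
      · cases h
      · exact absurd (hCB i j hi hj hv).2 (n5 _ _ _ _ _ _ h.2)
    · by_cases h2 : ∃ o i j, v ∈ U ∧ Prt q o i j (ρ v)
      · obtain ⟨o, i, j, hv, hp⟩ := h2
        refine ⟨.port o i j, fun i' j' => ⟨fun h => ?_, fun h => ?_⟩,
          fun o' i' j' => ⟨fun h => ?_, fun h => ?_⟩⟩
        · cases h
        · exact absurd ⟨i', j', h⟩ h1
        · obtain ⟨rfl, rfl, rfl⟩ := Zn.port.inj h
          exact ⟨hv, hp⟩
        · obtain ⟨rfl, rfl, rfl⟩ := n4 _ _ _ _ _ _ _ hp h.2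
          rfl
      · refine ⟨.pin, fun i' j' => ⟨fun h => ?_, fun h => ?_⟩,
          fun o' i' j' => ⟨fun h => ?_, fun h => ?_⟩⟩
        · cases h
        · exact absurd ⟨i', j', h⟩ h1
        · cases h
        · exact absurd ⟨o', i', j', h⟩ h2
  choose zn znc znp using hzn
  have hcset : ∀ i j (hi : i < k) (hj : j < k), {v | zn v = .cell i j} = C i j hi hj := by
    intro i j hi hj
    ext v
    exact ⟨fun h => ((znc v i j).1 h).2.2, fun h => (znc v i j).2 ⟨hi, hj, h⟩⟩
  refine ⟨zn, ⟨?_, ?_, ?_, ?_, ?_, ?_, ?_, ?_, ?_⟩, ?_⟩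
  · intro v i j h
    obtain ⟨hi, hj, -⟩ := (znc v i j).1 h
    exact ⟨hi, hj⟩
  · intro v o i j h
    obtain ⟨h1, h2⟩ := (znp v o i j).1 h
    exact n2 _ o i j (hI.vx v h1) h2
  · intro u v i j i' j' ha hu hv
    obtain ⟨hi, hj, hu⟩ := (znc u i j).1 hu
    obtain ⟨hi', hj', hv⟩ := (znc v i' j').1 hv
    have h1 := hCB i j hi hj hu
    have h2 := hCB i' j' hi' hj' hv
    rcases hI.ind u h1.1 v h2.1 ha with h | h
    · exact n3 (ρ v) _ _ _ _ (h ▸ h1.2) h2.2
    · exact n6 _ _ _ _ _ _ h h1.2 h2.2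
  · intro u v o i j o' i' j' ha hu hv
    obtain ⟨h1, h1'⟩ := (znp u o i j).1 hu
    obtain ⟨h2, h2'⟩ := (znp v o' i' j').1 hv
    rcases hI.ind u h1 v h2 ha with h | h
    · exact n4 (ρ v) _ _ _ _ _ _ (h ▸ h1') h2'
    · exact n7 _ _ _ _ _ _ _ _ h h1' h2'
  · intro u v o i j i' j' ha hu hv
    obtain ⟨h1, h1'⟩ := (znp u o i j).1 hu
    obtain ⟨hi', hj', hv⟩ := (znc v i' j').1 hv
    have h2 := hCB i' j' hi' hj' hv
    rcases hI.ind u h1 v h2.1 ha with h | h
    · exact absurd h2.2 (n5 _ _ _ _ _ _ (h ▸ h1'))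
    · exact n8 _ _ _ _ _ _ _ h h1' h2.2
  · intro i j hi hj
    rw [hcset i j hi hj]
    exact hCc i j hi hj
  · intro o i j he
    obtain ⟨p1, ⟨x, y, hxy, hx, -⟩, -⟩ := hL8 k q P hq hP o i j he
    have h := connSet hF3d hI (Prt q o i j) ⟨x, (vx_of_adj hI hxy).1, hx⟩ p1
    have e : {v | zn v = .port o i j} = {v | v ∈ U ∧ Prt q o i j (ρ v)} := by
      ext v
      exact znp v o i j
    rwa [e]
  · intro o i j he
    obtain ⟨-, ⟨x, y, hxy, hx, hy⟩, -⟩ := hL8 k q P hq hP o i j he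
    obtain ⟨u, hu, v, hv, rfl, rfl, ha⟩ := hI.adj x y hxy
    obtain ⟨hi, hj⟩ := n1 _ i j (hI.vx v hv) (gam_blk hy)
    exact ⟨u, v, ha, (znp u o i j).2 ⟨hu, hx⟩, (znc v i j).2 ⟨hi, hj, hRC i j hi hj ⟨hv, hy⟩⟩⟩
  · intro o i j he
    obtain ⟨-, -, ⟨x, y, hxy, hx, hy⟩⟩ := hL8 k q P hq hP o i j he
    obtain ⟨u, hu, v, hv, rfl, rfl, ha⟩ := hI.adj x y hxy
    obtain ⟨hi, hj⟩ := n1 _ _ _ (hI.vx v hv) (gam_blk hy)
    exact ⟨u, v, ha, (znp u o i j).2 ⟨hu, hx⟩, (znc v _ _).2 ⟨hi, hj, hRC _ _ hi hj ⟨hv, hy⟩⟩⟩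
  · intro i j hi hj
    refine ⟨z0 i j hi hj, ?_, ?_⟩
    · rcases hc : zn (z0 i j hi hj) with _ | ⟨i', j'⟩ | ⟨o, i', j'⟩
      · rfl
      · exfalso
        obtain ⟨hi', hj', hv⟩ := (znc _ i' j').1 hc
        obtain ⟨rfl, rfl⟩ := n3 _ _ _ _ _ (hzB i j hi hj) (hCB i' j' hi' hj' hv).2
        exact hzC i j hi hj hv
      · exfalso
        exact n5 _ _ _ _ _ _ ((znp _ o i' j').1 hc).2 (hzB i j hi hj)
    · have e : {v | G.Adj (z0 i j hi hj) v ∧ zn v = .cell i j} =
          {v | G.Adj (z0 i j hi hj) v ∧ v ∈ C i j hi hj} := by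
        ext v
        have : zn v = .cell i j ↔ v ∈ C i j hi hj := by
          rw [← hcset i j hi hj]
          rfl
        simp only [Set.mem_setOf_eq, this]
      rw [e]
      exact hzm i j hi hj

end Pool.Agent.PReg

end

section

/-!
# L11: the shifted pattern in a block
-/

set_option autoImplicit false

namespace Pool.Agent.PReg

open Pool.Agent.PEmb

namespace ItL11

theorem dv (q i t : ℕ) (ht : t < q) : (q * i + t) / q = i := by
  rw [Nat.mul_add_div (by omega), Nat.div_eq_of_lt ht, add_zero]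

theorem md (q i t : ℕ) (ht : t < q) : (q * i + t) % q = t := by
  rw [Nat.mul_add_mod, Nat.mod_eq_of_lt ht]

theorem bd (k q i t : ℕ) (hi : i < k) (ht : t < q) : q * i + t < k * q := by
  calc q * i + t < q * i + q := by omega
    _ = q * (i + 1) := by ring
    _ ≤ q * k := Nat.mul_le_mul_left _ hi
    _ = k * q := by ring

end ItL11

theorem L11 : PL11 := by
  intro k q k1 P i j hq hk1 hi hj x hx
  have e1 : ∀ i i' : ℕ, q * i + 1 + i' = q * i + (1 + i') := fun i i' => by omega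
  have e2 : ∀ i i' : ℕ, q * i + 1 + i' + 1 = q * i + (1 + i' + 1) := fun i i' => by omega
  cases x with
  | core i' j' s =>
    obtain ⟨h1, h2, h3⟩ := hx
    simp only [shP] at h3
    simp only [shL, Vx, Blk, Gam]
    refine ⟨⟨?_, ?_, h3⟩, ⟨?_, ?_⟩, ?_⟩
    · rw [e1]; exact ItL11.bd _ _ _ _ hi (by omega)
    · rw [e1]; exact ItL11.bd _ _ _ _ hj (by omega)
    · rw [e1]; exact ItL11.dv _ _ _ (by omega)
    · rw [e1]; exact ItL11.dv _ _ _ (by omega)
    · rintro ⟨-, h4 | h4⟩
      · rw [e1, ItL11.md _ _ _ (by omega)] at h4; omega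
      · rw [e1, ItL11.md _ _ _ (by omega)] at h4; omega
  | leg o i' j' s =>
    obtain ⟨h1, h2, h3⟩ := hx
    simp only [shP] at h3
    cases o with
    | false =>
      obtain ⟨h4, h5⟩ := h1
      simp only [nx] at h4 h5
      simp only [shL, Vx, Blk, Gam, Ex, nx]
      refine ⟨⟨⟨?_, ?_⟩, h2, h3⟩, ⟨?_, ?_, ?_, ?_⟩, ?_⟩
      · rw [e1]; exact ItL11.bd _ _ _ _ hi (by omega)
      · rw [e2]; exact ItL11.bd _ _ _ _ hj (by omega)
      · rw [e1]; exact ItL11.dv _ _ _ (by omega)
      · rw [e1]; exact ItL11.dv _ _ _ (by omega)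
      · rw [e1]; exact ItL11.dv _ _ _ (by omega)
      · rw [e2]; exact ItL11.dv _ _ _ (by omega)
      · rintro ⟨-, h6⟩
        rw [e1, ItL11.md _ _ _ (by omega)] at h6; omega
    | true =>
      obtain ⟨h4, h5⟩ := h1
      simp only [nx] at h4 h5
      simp only [shL, Vx, Blk, Gam, Ex, nx]
      refine ⟨⟨⟨?_, ?_⟩, h2, h3⟩, ⟨?_, ?_, ?_, ?_⟩, ?_⟩
      · rw [e2]; exact ItL11.bd _ _ _ _ hi (by omega)
      · rw [e1]; exact ItL11.bd _ _ _ _ hj (by omega)
      · rw [e1]; exact ItL11.dv _ _ _ (by omega)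
      · rw [e1]; exact ItL11.dv _ _ _ (by omega)
      · rw [e2]; exact ItL11.dv _ _ _ (by omega)
      · rw [e1]; exact ItL11.dv _ _ _ (by omega)
      · rintro ⟨-, h6⟩
        rw [e1, ItL11.md _ _ _ (by omega)] at h6; omega

end Pool.Agent.PReg

end

section

/-!
# L2: shifted patterns
-/

set_option autoImplicit false

namespace Pool.Agent.PReg

open Pool.Agent.PEmb

namespace ItL2

theorem nx_sh (o : Bool) (a b i j : ℕ) :
    nx o (a + i) (b + j) = (a + (nx o i j).1, b + (nx o i j).2) := by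
  cases o <;> rfl

theorem ex_sh {K k a b : ℕ} (ha : a + k ≤ K) (hb : b + k ≤ K) {o : Bool} {i j : ℕ}
    (h : Ex k o i j) : Ex K o (a + i) (b + j) := by
  unfold Ex at h ⊢
  rw [nx_sh]
  simp only
  omega

theorem ae {K k : ℕ} {P : Par} {a b : ℕ} (ha : a + k ≤ K) (hb : b + k ≤ K) {x y : Lab}
    (h : AE k (shP P a b) x y) : AE K P (shL a b x) (shL a b y) := by
  cases h with
  | cyc i j s hi hj hs => exact AE.cyc (a + i) (b + j) s (by omega) (by omega) hs
  | close i j hi hj => exact AE.close (a + i) (b + j) (by omega) (by omega)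
  | out o i j h => exact AE.out o (a + i) (b + j) (ex_sh ha hb h)
  | step o i j s h hs hl => exact AE.step o (a + i) (b + j) s (ex_sh ha hb h) hs hl
  | inn o i j h =>
    have h1 := AE.inn (P := P) o (a + i) (b + j) (ex_sh ha hb h)
    cases o <;> exact h1

theorem inj {a b : ℕ} {x y : Lab} (h : shL a b x = shL a b y) : x = y := by
  cases x <;> cases y <;> simp only [shL, Lab.core.injEq, Lab.leg.injEq, reduceCtorEq] at h ⊢
  · omega
  · exact ⟨h.1, by omega, by omega, h.2.2.2⟩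

theorem ae' {K k : ℕ} {P : Par} {a b : ℕ} {x y : Lab}
    (hx : Vx k (shP P a b) x) (hy : Vx k (shP P a b) y)
    (h : AE K P (shL a b x) (shL a b y)) : AE k (shP P a b) x y := by
  generalize hX : shL a b x = X at h
  generalize hY : shL a b y = Y at h
  cases h with
  | cyc i j s hi hj hs =>
    cases x with
    | leg o' i' j' s' => simp [shL] at hX
    | core i' j' s' =>
      simp only [shL, Lab.core.injEq] at hX
      obtain ⟨rfl, rfl, rfl⟩ := hX
      have : y = .core i' j' (s' + 1) := inj (by rw [hY]; rfl)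
      subst this
      exact AE.cyc i' j' s' hx.1 hx.2.1 hs
  | close i j hi hj =>
    cases x with
    | leg o' i' j' s' => simp [shL] at hX
    | core i' j' s' =>
      simp only [shL, Lab.core.injEq] at hX
      obtain ⟨rfl, rfl, rfl⟩ := hX
      have : y = .core i' j' 0 := inj (by rw [hY]; rfl)
      subst this
      exact AE.close (P := shP P a b) i' j' hx.1 hx.2.1
  | out o i j h =>
    cases y with
    | core i' j' s' => simp [shL] at hY
    | leg o' i' j' s' =>
      simp only [shL, Lab.leg.injEq] at hY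
      obtain ⟨rfl, rfl, rfl, rfl⟩ := hY
      have : x = .core i' j' ((shP P a b).r i' j' (ro o')) := inj (by rw [hX]; rfl)
      subst this
      exact AE.out (P := shP P a b) o' i' j' hy.1
  | step o i j s h hs hl =>
    cases x with
    | core i' j' s' => simp [shL] at hX
    | leg o' i' j' s' =>
      simp only [shL, Lab.leg.injEq] at hX
      obtain ⟨rfl, rfl, rfl, rfl⟩ := hX
      have : y = .leg o' i' j' (s' + 1) := inj (by rw [hY]; rfl)
      subst this
      exact AE.step (P := shP P a b) o' i' j' s' hx.1 hs hl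
  | inn o i j h =>
    cases x with
    | core i' j' s' => simp [shL] at hX
    | leg o' i' j' s' =>
      simp only [shL, Lab.leg.injEq] at hX
      obtain ⟨rfl, rfl, rfl, rfl⟩ := hX
      have : y = .core (nx o' i' j').1 (nx o' i' j').2
          ((shP P a b).r (nx o' i' j').1 (nx o' i' j').2 (ri o')) :=
        inj (by rw [hY]; cases o' <;> rfl)
      subst this
      exact AE.inn (P := shP P a b) o' i' j' hx.1

end ItL2

theorem L2 : PL2 := by
  intro K k P a b hA ha hb
  refine ⟨⟨?_, ?_, ?_, ?_, ?_⟩, fun x y h => ItL2.inj h, ?_, ?_, ?_⟩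
  · intro i j hi hj
    exact hA.z4 (a + i) (b + j) (by omega) (by omega)
  · intro i j i' j' hi hj hi' hj' h
    have := hA.zinj (a + i) (b + j) (a + i') (b + j') (by omega) (by omega) (by omega) (by omega) h
    omega
  · intro i j d hi hj hd
    exact hA.rlt (a + i) (b + j) d (by omega) (by omega) hd
  · intro i j d d' hi hj hd hd' h
    exact hA.rinj (a + i) (b + j) d d' (by omega) (by omega) hd hd' h
  · intro o i j i' j' h hi' hj'
    exact hA.lbig o (a + i) (b + j) (a + i') (b + j') (ItL2.ex_sh ha hb h) (by omega) (by omega)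
  · intro x hx
    cases x with
    | core i j s =>
      obtain ⟨h1, h2, h3⟩ := hx
      exact ⟨by omega, by omega, h3⟩
    | leg o i j s =>
      obtain ⟨h1, h2, h3⟩ := hx
      exact ⟨ItL2.ex_sh ha hb h1, h2, h3⟩
  · intro x y h
    rcases h with h | h
    · exact Or.inl (ItL2.ae ha hb h)
    · exact Or.inr (ItL2.ae ha hb h)
  · intro x y hx hy h
    rcases h with h | h
    · exact Or.inl (ItL2.ae' hx hy h)
    · exact Or.inr (ItL2.ae' hy hx h)

end Pool.Agent.PReg

end

section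

/-!
# L3: shifted models
-/

set_option autoImplicit false

namespace Pool.Agent.PReg

open Pool.Agent.PEmb

namespace ItL3

/-- Labels shifted back. -/
def unsh (a b : ℕ) : Lab → Lab
  | .core i j s => .core (i - a) (j - b) s
  | .leg o i j s => .leg o (i - a) (j - b) s

theorem unsh_shL (a b : ℕ) (x : Lab) : unsh a b (shL a b x) = x := by
  rcases x with ⟨i, j, s⟩ | ⟨o, i, j, s⟩
  · simp only [shL, unsh, Nat.add_sub_cancel_left]
  · simp only [shL, unsh, Nat.add_sub_cancel_left]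

end ItL3

open ItL3 in
theorem L3 (hL2 : PL2) (hP0 : PP0) : PL3 := by
  intro V _ K k P a b G U ρ hA hak hbk hM
  obtain ⟨hA', hinj, hvx, hadj, hadj'⟩ := hL2 K k P a b hA hak hbk
  obtain ⟨⟨hip1, hip2, hip3, hip4⟩, hc3, hu3, hu2⟩ := hM
  have hr : ∀ u, ∀ x, ρ u = shL a b x → unsh a b (ρ u) = x := by
    intro u x h
    rw [h, unsh_shL]
  refine ⟨fun u => unsh a b (ρ u), ⟨⟨?_, ?_, ?_, ?_⟩, ?_, ?_, ?_⟩, hr⟩
  · rintro u ⟨_, x, hx, hux⟩
    show Vx k (shP P a b) (unsh a b (ρ u))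
    rw [hr u x hux]
    exact hx
  · intro x hx
    have he : {u | u ∈ {u | u ∈ U ∧ ∃ x, Vx k (shP P a b) x ∧ ρ u = shL a b x} ∧
        unsh a b (ρ u) = x} = {u | u ∈ U ∧ ρ u = shL a b x} := by
      ext u
      constructor
      · rintro ⟨⟨hu, y, hy, huy⟩, hux⟩
        rw [hr u y huy] at hux
        subst hux
        exact ⟨hu, huy⟩
      · rintro ⟨hu, hux⟩
        exact ⟨⟨hu, x, hx, hux⟩, hr u x hux⟩
    rw [he]
    exact hip2 _ (hvx x hx)
  · intro x y hxy
    obtain ⟨hx, hy, _⟩ := (hP0 k _ hA').1 x y hxy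
    obtain ⟨u, hu, v, hv, h1, h2, h3⟩ := hip3 _ _ (hadj x y hxy)
    exact ⟨u, ⟨hu, x, hx, h1⟩, v, ⟨hv, y, hy, h2⟩, hr u x h1, hr v y h2, h3⟩
  · rintro u ⟨hu, x, hx, hux⟩ v ⟨hv, y, hy, hvy⟩ huv
    show unsh a b (ρ u) = unsh a b (ρ v) ∨ AAdj k (shP P a b) (unsh a b (ρ u)) (unsh a b (ρ v))
    rw [hr u x hux, hr v y hvy]
    rcases hip4 u hu v hv huv with h | h
    · left
      rw [hux, hvy] at h
      exact hinj _ _ h
    · right
      rw [hux, hvy] at h
      exact hadj' x y hx hy h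
  · intro x
    refine le_trans (Set.ncard_le_ncard ?_ (Set.toFinite _)) (hc3 (shL a b x))
    rintro u ⟨⟨hu, y, hy, huy⟩, hux⟩
    have hux' : unsh a b (ρ u) = x := hux
    rw [hr u y huy] at hux'
    subst hux'
    exact ⟨hu, huy⟩
  · rintro v ⟨hv, _⟩
    refine le_trans (Set.ncard_le_ncard ?_ (Set.toFinite _)) (hu3 v hv)
    rintro u ⟨⟨hu, _⟩, huv⟩
    exact ⟨hu, huv⟩
  · rintro v ⟨hv, x, hx, hvx'⟩ hroot
    refine le_trans (Set.ncard_le_ncard ?_ (Set.toFinite _)) (hu2 v hv ?_)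
    · rintro u ⟨⟨hu, _⟩, huv⟩
      exact ⟨hu, huv⟩
    · intro i j e he hve
      rcases x with ⟨i', j', s⟩ | ⟨o, i', j', s⟩
      · rw [hvx'] at hve
        simp only [shL, Lab.core.injEq] at hve
        obtain ⟨rfl, rfl, rfl⟩ := hve
        refine hroot i' j' e he ?_
        show unsh a b (ρ v) = _
        rw [hr v _ hvx']
        rfl
      · rw [hvx'] at hve
        simp only [shL] at hve
        exact Lab.noConfusion hve

end Pool.Agent.PReg

end

section

/-!
# L4: zones far from twins, on the level of the pattern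
-/

set_option autoImplicit false

namespace Pool.Agent.PReg

open Pool.Agent.PEmb

namespace ItL4

variable {k : ℕ} {P : Par}

lemma ex_lt {o : Bool} {i j : ℕ} (h : Ex k o i j) : i < k ∧ j < k := by
  cases o <;> simp only [Ex, nx] at h <;> omega

lemma lge (hA : Adm k P) {o : Bool} {i j : ℕ} (h : Ex k o i j) : 10 ≤ P.l o i j := by
  have hi := ex_lt h
  have h1 := hA.lbig o i j i j h hi.1 hi.2
  have h2 := hA.z4 i j hi.1 hi.2
  omega

lemma z_lo {o : Bool} {i j s : ℕ} (h : s < P.l o i j / 2) :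
    zlab2 P (.leg o i j s) = .cell i j := by
  simp [zlab2, h]

lemma z_mid (o : Bool) (i j : ℕ) :
    zlab2 P (.leg o i j (P.l o i j / 2)) = .port o i j := by
  simp [zlab2]

lemma z_hi {o : Bool} {i j s : ℕ} (h : P.l o i j / 2 < s) :
    zlab2 P (.leg o i j s) = .cell (nx o i j).1 (nx o i j).2 := by
  have h1 : ¬ s < P.l o i j / 2 := by omega
  have h2 : ¬ s = P.l o i j / 2 := by omega
  simp [zlab2, h1, h2]

lemma z_core (i j s : ℕ) : zlab2 P (.core i j s) = .cell i j := rfl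

lemma ae_zone (hA : Adm k P) {x y : Lab} (h : AE k P x y) :
    (∃ i j, zlab2 P x = .cell i j ∧ zlab2 P y = .cell i j) ∨
    (∃ o i j, zlab2 P x = .cell i j ∧ zlab2 P y = .port o i j) ∨
    (∃ o i j, zlab2 P x = .port o i j ∧ zlab2 P y = .cell (nx o i j).1 (nx o i j).2) := by
  cases h with
  | cyc i j s hi hj hs => exact Or.inl ⟨i, j, rfl, rfl⟩
  | close i j hi hj => exact Or.inl ⟨i, j, rfl, rfl⟩
  | out o i j h =>
    have hl := lge hA h
    exact Or.inl ⟨i, j, rfl, z_lo (by omega)⟩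
  | inn o i j h =>
    have hl := lge hA h
    exact Or.inl ⟨(nx o i j).1, (nx o i j).2, z_hi (by omega), rfl⟩
  | step o i j s h hs hl =>
    rcases Nat.lt_trichotomy (s + 1) (P.l o i j / 2) with h1 | h1 | h1
    · exact Or.inl ⟨i, j, z_lo (by omega), z_lo h1⟩
    · refine Or.inr (Or.inl ⟨o, i, j, z_lo (by omega), ?_⟩)
      rw [h1]
      exact z_mid o i j
    · rcases Nat.lt_or_ge (P.l o i j / 2) s with h2 | h2
      · exact Or.inl ⟨_, _, z_hi h2, z_hi h1⟩
      · obtain rfl : s = P.l o i j / 2 := by omega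
        exact Or.inr (Or.inr ⟨o, i, j, z_mid o i j, z_hi h1⟩)

lemma z_port {x : Lab} {o : Bool} {i j : ℕ} (hx : Vx k P x) (h : zlab2 P x = .port o i j) :
    Ex k o i j ∧ x = .leg o i j (P.l o i j / 2) := by
  cases x with
  | core i' j' s => simp [zlab2] at h
  | leg o' i' j' s =>
    rcases Nat.lt_trichotomy s (P.l o' i' j' / 2) with h1 | h1 | h1
    · rw [z_lo h1] at h
      cases h
    · subst h1
      rw [z_mid] at h
      cases h
      exact ⟨hx.1, rfl⟩
    · rw [z_hi h1] at h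
      cases h

lemma z_cell {x : Lab} {i j : ℕ} (hx : Vx k P x) (h : zlab2 P x = .cell i j) :
    i < k ∧ j < k := by
  cases x with
  | core i' j' s =>
    rw [z_core] at h
    cases h
    exact ⟨hx.1, hx.2.1⟩
  | leg o' i' j' s =>
    rcases Nat.lt_trichotomy s (P.l o' i' j' / 2) with h1 | h1 | h1
    · rw [z_lo h1] at h
      cases h
      exact ex_lt hx.1
    · subst h1
      rw [z_mid] at h
      cases h
    · rw [z_hi h1] at h
      cases h
      exact hx.1

/-- A step inside a cell. -/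
def Rl (k : ℕ) (P : Par) (i j : ℕ) (a b : Lab) : Prop :=
  AAdj k P a b ∧ zlab2 P a = .cell i j ∧ zlab2 P b = .cell i j

lemma Rl_symm (i j : ℕ) {a b : Lab} (h : Rl k P i j a b) : Rl k P i j b a :=
  ⟨h.1.symm, h.2.2, h.2.1⟩

lemma core_to (i j : ℕ) (hi : i < k) (hj : j < k) : ∀ s, s < P.z i j →
    Relation.ReflTransGen (Rl k P i j) (.core i j s) (.core i j 0)
  | 0, _ => Relation.ReflTransGen.refl
  | s + 1, hs => Relation.ReflTransGen.head
      ⟨Or.inr (AE.cyc i j s hi hj hs), rfl, rfl⟩ (core_to i j hi hj s (by omega))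

lemma out_to (hA : Adm k P) (o : Bool) (i j : ℕ) (h : Ex k o i j) : ∀ s, 1 ≤ s →
    s < P.l o i j / 2 → Relation.ReflTransGen (Rl k P i j) (.leg o i j s) (.core i j 0) := by
  intro s h1
  induction s, h1 using Nat.le_induction with
  | base =>
    intro h2
    have hl := ex_lt h
    exact Relation.ReflTransGen.head ⟨Or.inr (AE.out o i j h), z_lo h2, rfl⟩
      (core_to i j hl.1 hl.2 _ (hA.rlt i j _ hl.1 hl.2 (by cases o <;> simp [ro])))
  | succ s h1 ih =>
    intro h2
    exact Relation.ReflTransGen.head ⟨Or.inr (AE.step o i j s h h1 (by omega)), z_lo h2,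
      z_lo (by omega)⟩ (ih (by omega))

lemma inn_to (hA : Adm k P) (o : Bool) (i j : ℕ) (h : Ex k o i j) : ∀ m s, s + m + 1 = P.l o i j →
    P.l o i j / 2 < s → Relation.ReflTransGen (Rl k P (nx o i j).1 (nx o i j).2) (.leg o i j s)
      (.core (nx o i j).1 (nx o i j).2 0)
  | 0, s, h1, h2 => by
    obtain rfl : s = P.l o i j - 1 := by omega
    exact Relation.ReflTransGen.head ⟨Or.inl (AE.inn o i j h), z_hi h2, rfl⟩
      (core_to _ _ h.1 h.2 _ (hA.rlt _ _ _ h.1 h.2 (by cases o <;> simp [ri])))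
  | m + 1, s, h1, h2 =>
    Relation.ReflTransGen.head ⟨Or.inl (AE.step o i j s h (by omega) (by omega)), z_hi h2,
      z_hi (by omega)⟩ (inn_to hA o i j h m (s + 1) (by omega) (by omega))

lemma all_to (hA : Adm k P) {x : Lab} {i j : ℕ} (hx : Vx k P x) (h : zlab2 P x = .cell i j) :
    Relation.ReflTransGen (Rl k P i j) x (.core i j 0) := by
  cases x with
  | core i' j' s =>
    rw [z_core] at h
    cases h
    exact core_to i j hx.1 hx.2.1 s hx.2.2
  | leg o' i' j' s =>
    rcases Nat.lt_trichotomy s (P.l o' i' j' / 2) with h1 | h1 | h1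
    · rw [z_lo h1] at h
      cases h
      exact out_to hA o' i j hx.1 s hx.2.1 h1
    · subst h1
      rw [z_mid] at h
      cases h
    · rw [z_hi h1] at h
      cases h
      have := hx.2.2
      exact inn_to hA o' i' j' hx.1 (P.l o' i' j' - 1 - s) s (by omega) h1

end ItL4

open ItL4 in
theorem L4 : PL4 := by
  intro k P hA
  refine ⟨fun x i j hx h => z_cell hx h, fun x o i j hx h => z_port hx h, ?_, ?_, ?_, ?_, ?_⟩
  · intro x y i j i' j' hxy hx hy
    rcases hxy with hxy | hxy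
    · rcases ae_zone hA hxy with ⟨a, b, h1, h2⟩ | ⟨o, a, b, h1, h2⟩ | ⟨o, a, b, h1, h2⟩
      · rw [h1] at hx; rw [h2] at hy; cases hx; cases hy; exact ⟨rfl, rfl⟩
      · rw [h2] at hy; cases hy
      · rw [h1] at hx; cases hx
    · rcases ae_zone hA hxy with ⟨a, b, h1, h2⟩ | ⟨o, a, b, h1, h2⟩ | ⟨o, a, b, h1, h2⟩
      · rw [h1] at hy; rw [h2] at hx; cases hx; cases hy; exact ⟨rfl, rfl⟩
      · rw [h2] at hx; cases hx
      · rw [h1] at hy; cases hy
  · intro x y o i j o' i' j' hxy hx hy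
    rcases hxy with hxy | hxy
    · rcases ae_zone hA hxy with ⟨a, b, h1, h2⟩ | ⟨o, a, b, h1, h2⟩ | ⟨o, a, b, h1, h2⟩
      · rw [h1] at hx; cases hx
      · rw [h1] at hx; cases hx
      · rw [h2] at hy; cases hy
    · rcases ae_zone hA hxy with ⟨a, b, h1, h2⟩ | ⟨o, a, b, h1, h2⟩ | ⟨o, a, b, h1, h2⟩
      · rw [h1] at hy; cases hy
      · rw [h1] at hy; cases hy
      · rw [h2] at hx; cases hx
  · intro x y o i j i' j' hxy hx hy
    rcases hxy with hxy | hxy
    · rcases ae_zone hA hxy with ⟨a, b, h1, h2⟩ | ⟨o, a, b, h1, h2⟩ | ⟨o, a, b, h1, h2⟩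
      · rw [h1] at hx; cases hx
      · rw [h1] at hx; cases hx
      · rw [h1] at hx; rw [h2] at hy; cases hx; cases hy; exact Or.inr rfl
    · rcases ae_zone hA hxy with ⟨a, b, h1, h2⟩ | ⟨o, a, b, h1, h2⟩ | ⟨o, a, b, h1, h2⟩
      · rw [h2] at hx; cases hx
      · rw [h2] at hx; rw [h1] at hy; cases hx; cases hy; exact Or.inl rfl
      · rw [h2] at hx; cases hx
  · intro i j _ _ x y hx hy hzx hzy
    have h1 := all_to hA hx hzx
    have h2 := all_to hA hy hzy
    have : Std.Symm (Rl k P i j) := ⟨fun a b h => Rl_symm i j h⟩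
    have h3 : Relation.ReflTransGen (Rl k P i j) (.core i j 0) y :=
      Relation.ReflTransGen.stdSymm.symm _ _ h2
    exact h1.trans h3
  · intro o i j h
    have hl := lge hA h
    refine ⟨⟨h, by omega, by omega⟩, z_mid o i j, ⟨.leg o i j (P.l o i j / 2 - 1), ?_, ?_⟩,
      ⟨.leg o i j (P.l o i j / 2 + 1), ?_, ?_⟩⟩
    · have h1 := AE.step (P := P) o i j (P.l o i j / 2 - 1) h (by omega) (by omega)
      rw [show P.l o i j / 2 - 1 + 1 = P.l o i j / 2 from by omega] at h1
      exact Or.inr h1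
    · exact z_lo (by omega)
    · exact Or.inl (AE.step o i j (P.l o i j / 2) h (by omega) (by omega))
    · exact z_hi (by omega)

end Pool.Agent.PReg

end

section

/-!
# L5: the layout far from twins
-/

set_option autoImplicit false

namespace Pool.Agent.PReg

open Pool.Agent.PEmb

namespace ItL5

theorem vx_of_adj {V : Type} {K : ℕ} {P : Par} {G : SimpleGraph V} {U : Set V} {ρ : V → Lab}
    (h : IPat K P G U ρ) {x y : Lab} (ha : AAdj K P x y) : Vx K P x ∧ Vx K P y := by
  obtain ⟨u, hu, v, hv, rfl, rfl, -⟩ := h.adj x y ha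
  exact ⟨h.vx u hu, h.vx v hv⟩

theorem connSet (hF3d : PF3d) {V : Type} {K : ℕ} {P : Par} {G : SimpleGraph V} {U : Set V}
    {ρ : V → Lab} (hI : IPat K P G U ρ) (Q : Lab → Prop) (hne : ∃ x, Vx K P x ∧ Q x)
    (hc : ∀ x y, Vx K P x → Vx K P y → Q x → Q y →
      Relation.ReflTransGen (fun a b => AAdj K P a b ∧ Q a ∧ Q b) x y) :
    (G.induce {v | v ∈ U ∧ Q (ρ v)}).Connected := by
  have h := hF3d G K P U ρ hI {x | Vx K P x ∧ Q x} ∅ (fun x hx => hx.1) hne ?_
    (fun v hv => absurd hv (Set.notMem_empty v))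
  · have e : {u | u ∈ U ∧ ρ u ∈ {x | Vx K P x ∧ Q x}} ∪ ∅ = {v | v ∈ U ∧ Q (ρ v)} := by
      ext v
      simp only [Set.union_empty, Set.mem_setOf_eq]
      exact ⟨fun h => ⟨h.1, h.2.2⟩, fun h => ⟨h.1, hI.vx v h.1, h.2⟩⟩
    rwa [e] at h
  · intro x hx y hy
    refine Relation.ReflTransGen.mono ?_ x y (hc x y hx.1 hy.1 hx.2 hy.2)
    rintro a b ⟨h1, h2, h3⟩
    exact ⟨h1, ⟨(vx_of_adj hI h1).1, h2⟩, ⟨(vx_of_adj hI h1).2, h3⟩⟩

theorem zlab2_ne (P : Par) (x : Lab) : zlab2 P x ≠ .pin := by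
  rcases x with ⟨i, j, s⟩ | ⟨o, i, j, s⟩
  · simp [zlab2]
  · simp only [zlab2]
    split_ifs <;> simp

/-- many labels give many vertices -/
theorem many {V : Type} [Finite V] {K : ℕ} {P : Par} {G : SimpleGraph V} {U : Set V}
    {ρ : V → Lab} (hI : IPat K P G U ρ) (x : ℕ → Lab) (N : ℕ) (hx : ∀ s < N, Vx K P (x s))
    (hinj : ∀ s < N, ∀ t < N, x s = x t → s = t) (S : Set V)
    (hS : ∀ s < N, ∀ v ∈ U, ρ v = x s → v ∈ S) : N ≤ S.ncard := by
  classical
  rcases Nat.eq_zero_or_pos N with rfl | h0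
  · exact Nat.zero_le _
  have h : ∀ s, ∃ v, s < N → v ∈ U ∧ ρ v = x s := by
    intro s
    by_cases hs : s < N
    · obtain ⟨⟨v, hv⟩⟩ := (hI.conn (x s) (hx s hs)).nonempty
      exact ⟨v, fun _ => hv⟩
    · obtain ⟨⟨v, hv⟩⟩ := (hI.conn (x 0) (hx 0 h0)).nonempty
      exact ⟨v, fun h => absurd h hs⟩
  choose v hv using h
  have hcard : ((Finset.range N).image v).card = N := by
    rw [Finset.card_image_of_injOn, Finset.card_range]
    intro s hs t ht hst
    have hs := Finset.mem_range.1 (Finset.mem_coe.1 hs)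
    have ht := Finset.mem_range.1 (Finset.mem_coe.1 ht)
    refine hinj s hs t ht ?_
    rw [← (hv s hs).2, ← (hv t ht).2]
    exact congrArg ρ hst
  rw [← hcard, ← Set.ncard_coe_finset]
  refine Set.ncard_le_ncard ?_ (Set.toFinite _)
  intro w hw
  obtain ⟨s, hs, rfl⟩ := Finset.mem_image.1 (Finset.mem_coe.1 hw)
  have hs := Finset.mem_range.1 hs
  exact hS s hs _ (hv s hs).1 (hv s hs).2

/-- few labels give few vertices -/
theorem few {V : Type} [Finite V] {U : Set V} {ρ : V → Lab} (F : Finset Lab) (n : ℕ)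
    (hc : ∀ x, {u | u ∈ U ∧ ρ u = x}.ncard ≤ n) (S : Set V)
    (hS : ∀ v ∈ S, v ∈ U ∧ ρ v ∈ F) : S.ncard ≤ F.card * n := by
  classical
  induction F using Finset.induction_on generalizing S with
  | empty =>
    have : S = ∅ := by
      ext v
      simp only [Set.mem_empty_iff_false, iff_false]
      intro hv
      exact absurd (hS v hv).2 (Finset.notMem_empty _)
    rw [this]
    simp
  | insert a F ha ih =>
    have h1 : (S ∩ {u | u ∈ U ∧ ρ u = a}).ncard ≤ n :=
      (Set.ncard_le_ncard Set.inter_subset_right (Set.toFinite _)).trans (hc a)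
    have h2 : (S \ {u | u ∈ U ∧ ρ u = a}).ncard ≤ F.card * n := by
      refine ih _ ?_
      rintro v ⟨hv, hn⟩
      obtain ⟨h1, h2⟩ := hS v hv
      refine ⟨h1, ?_⟩
      rcases Finset.mem_insert.1 h2 with h | h
      · exact absurd ⟨h1, h⟩ hn
      · exact h
    have h3 := Set.ncard_inter_add_ncard_sdiff_eq_ncard S {u | u ∈ U ∧ ρ u = a} (Set.toFinite _)
    rw [Finset.card_insert_of_notMem ha, Nat.succ_mul]
    omega

end ItL5

open ItL5 in
theorem L5 (hL4 : PL4) (hF3d : PF3d) : PL5 := by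
  classical
  intro V _ k d P G U ρ hk hP hGM hl htf
  obtain ⟨a1, a2, a3, a4, a5, a6, a7⟩ := hL4 k P hP
  have hI := hGM.ip
  let zn : V → Zn := fun v => if v ∈ U then zlab2 P (ρ v) else .pin
  have znU : ∀ v, zn v ≠ .pin → v ∈ U := by
    intro v hv
    by_contra h
    exact hv (if_neg h)
  have znv : ∀ v z, z ≠ .pin → (zn v = z ↔ v ∈ U ∧ zlab2 P (ρ v) = z) := by
    intro v z hz
    constructor
    · intro h
      have hv : v ∈ U := znU v (by rw [h]; exact hz)
      refine ⟨hv, ?_⟩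
      have e : zn v = zlab2 P (ρ v) := if_pos hv
      rw [← e, h]
    · rintro ⟨h1, h2⟩
      have e : zn v = zlab2 P (ρ v) := if_pos h1
      rw [e, h2]
  have znc : ∀ v i j, zn v = .cell i j ↔ v ∈ U ∧ zlab2 P (ρ v) = .cell i j :=
    fun v i j => znv v _ (by simp)
  have znp : ∀ v o i j, zn v = .port o i j ↔ v ∈ U ∧ zlab2 P (ρ v) = .port o i j :=
    fun v o i j => znv v _ (by simp)
  let E : Set V := {v | v ∈ U ∧ ∃ i j e, e < 4 ∧ ρ v = .core i j (P.r i j e)}
  refine ⟨zn, E, ⟨⟨?_, ?_, ?_, ?_, ?_, ?_, ?_, ?_, ?_⟩, ?_, ?_, ?_, ?_⟩⟩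
  · intro v i j h
    obtain ⟨h1, h2⟩ := (znc v i j).1 h
    exact a1 _ i j (hI.vx v h1) h2
  · intro v o i j h
    obtain ⟨h1, h2⟩ := (znp v o i j).1 h
    exact (a2 _ o i j (hI.vx v h1) h2).1
  · intro u v i j i' j' ha hu hv
    obtain ⟨h1, h1'⟩ := (znc u i j).1 hu
    obtain ⟨h2, h2'⟩ := (znc v i' j').1 hv
    rcases hI.ind u h1 v h2 ha with h | h
    · rw [h, h2'] at h1'
      obtain ⟨rfl, rfl⟩ := Zn.cell.inj h1'
      exact ⟨rfl, rfl⟩
    · exact a3 _ _ _ _ _ _ h h1' h2'
  · intro u v o i j o' i' j' ha hu hv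
    obtain ⟨h1, h1'⟩ := (znp u o i j).1 hu
    obtain ⟨h2, h2'⟩ := (znp v o' i' j').1 hv
    rcases hI.ind u h1 v h2 ha with h | h
    · rw [h, h2'] at h1'
      obtain ⟨rfl, rfl, rfl⟩ := Zn.port.inj h1'
      exact ⟨rfl, rfl, rfl⟩
    · exact absurd h2' (a4 _ _ _ _ _ _ _ _ h h1')
  · intro u v o i j i' j' ha hu hv
    obtain ⟨h1, h1'⟩ := (znp u o i j).1 hu
    obtain ⟨h2, h2'⟩ := (znc v i' j').1 hv
    rcases hI.ind u h1 v h2 ha with h | h
    · rw [h, h2'] at h1'
      cases h1'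
    · exact a5 _ _ _ _ _ _ _ h h1' h2'
  · intro i j hi hj
    have h := connSet hF3d hI (fun x => zlab2 P x = .cell i j)
      ⟨.core i j 0, ⟨hi, hj, by have := hP.z4 i j hi hj; omega⟩, rfl⟩
      (fun x y hx hy hx' hy' => a6 i j hi hj x y hx hy hx' hy')
    have e : {v | zn v = .cell i j} = {v | v ∈ U ∧ zlab2 P (ρ v) = .cell i j} := by
      ext v
      exact znc v i j
    rwa [e]
  · intro o i j he
    obtain ⟨p1, p2, -, -⟩ := a7 o i j he
    have h := connSet hF3d hI (fun x => zlab2 P x = .port o i j) ⟨_, p1, p2⟩ (by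
      intro x y hx hy hx' hy'
      rw [(a2 x o i j hx hx').2, (a2 y o i j hy hy').2])
    have e : {v | zn v = .port o i j} = {v | v ∈ U ∧ zlab2 P (ρ v) = .port o i j} := by
      ext v
      exact znp v o i j
    rwa [e]
  · intro o i j he
    obtain ⟨p1, p2, ⟨y, hy, hy'⟩, -⟩ := a7 o i j he
    obtain ⟨u, hu, v, hv, hu', rfl, ha⟩ := hI.adj _ y hy
    exact ⟨u, v, ha, (znp u o i j).2 ⟨hu, by rw [hu', p2]⟩, (znc v i j).2 ⟨hv, hy'⟩⟩
  · intro o i j he
    obtain ⟨p1, p2, -, ⟨y, hy, hy'⟩⟩ := a7 o i j he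
    obtain ⟨u, hu, v, hv, hu', rfl, ha⟩ := hI.adj _ y hy
    exact ⟨u, v, ha, (znp u o i j).2 ⟨hu, by rw [hu', p2]⟩, (znc v _ _).2 ⟨hv, hy'⟩⟩
  · intro v hv
    exact htf v (znU v hv)
  · intro v hv
    refine (Set.ncard_le_ncard ?_ (Set.toFinite _)).trans (hGM.u3 v (znU v hv))
    rintro u ⟨h1, h2⟩
    exact ⟨znU u h2, h1⟩
  · intro v i j hvE hv
    obtain ⟨h1, h2⟩ := (znc v i j).1 hv
    refine (Set.ncard_le_ncard ?_ (Set.toFinite _)).trans (hGM.u2 v h1 ?_)
    · rintro u ⟨h1, h2⟩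
      exact ⟨znU u h2, h1⟩
    · intro i' j' e he h
      exact hvE ⟨h1, i', j', e, he, h⟩
  · intro i j hi hj
    -- the exceptional vertices
    let F : Finset Lab := {.core i j (P.r i j 0), .core i j (P.r i j 1), .core i j (P.r i j 2),
      .core i j (P.r i j 3), .leg false i j (P.l false i j / 2), .leg true i j (P.l true i j / 2),
      .leg false i (j - 1) (P.l false i (j - 1) / 2), .leg true (i - 1) j (P.l true (i - 1) j / 2)}
    have hF : F.card ≤ 8 := (Finset.card_insert_le _ _).trans (Nat.succ_le_succ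
      ((Finset.card_insert_le _ _).trans (Nat.succ_le_succ Finset.card_le_six)))
    have h1 : (Exc zn E i j).ncard ≤ F.card * 3 := by
      refine few F 3 hGM.c3 _ ?_
      rintro v (⟨⟨hvU, i', j', e, he, hr⟩, hz⟩ | ⟨o, i', j', hz, hij⟩)
      · refine ⟨hvU, ?_⟩
        have h2 := ((znc v i j).1 hz).2
        rw [hr] at h2
        obtain ⟨rfl, rfl⟩ := Zn.cell.inj h2
        rw [hr]
        have : e = 0 ∨ e = 1 ∨ e = 2 ∨ e = 3 := by omega
        rcases this with rfl | rfl | rfl | rfl <;> simp [F]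
      · obtain ⟨hvU, h2⟩ := (znp v o i' j').1 hz
        refine ⟨hvU, ?_⟩
        obtain ⟨-, h3⟩ := a2 _ o i' j' (hI.vx v hvU) h2
        rw [h3]
        rcases hij with h | h
        · obtain ⟨rfl, rfl⟩ := Prod.mk.inj h
          cases o <;> simp [F]
        · cases o
          · obtain ⟨rfl, rfl⟩ := Prod.mk.inj h
            simp [F]
          · obtain ⟨rfl, rfl⟩ := Prod.mk.inj h
            simp [F]
    -- many vertices in the cell
    have h2 : 24 * d ^ 3 + 1 ≤ {v | v ∉ E ∧ zn v = .cell i j}.ncard := by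
      have hnE : ∀ v o i' j' s, ρ v = .leg o i' j' s → v ∉ E := by
        rintro v o i' j' s h ⟨-, i'', j'', e, -, h'⟩
        rw [h] at h'
        cases h'
      by_cases hj' : j + 1 < k
      · have hex : Ex k false i j := ⟨hi, hj'⟩
        have hll := hl false i j hex
        refine many hI (fun s => .leg false i j (s + 1)) (24 * d ^ 3 + 1) ?_ ?_ _ ?_
        · intro s hs
          refine ⟨hex, by omega, ?_⟩
          omega
        · intro s _ t _ h
          have := (Lab.leg.inj h).2.2.2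
          omega
        · intro s hs v hv hr
          refine ⟨hnE v _ _ _ _ hr, (znc v i j).2 ⟨hv, ?_⟩⟩
          rw [hr]
          simp only [zlab2]
          rw [if_pos (by omega)]
      · have hex : Ex k false i (j - 1) := ⟨hi, by
          change j - 1 + 1 < k
          omega⟩
        have hll := hl false i (j - 1) hex
        refine many hI (fun s => .leg false i (j - 1) (P.l false i (j - 1) / 2 + 1 + s))
          (24 * d ^ 3 + 1) ?_ ?_ _ ?_
        · intro s hs
          refine ⟨hex, by omega, ?_⟩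
          omega
        · intro s _ t _ h
          have := (Lab.leg.inj h).2.2.2
          omega
        · intro s hs v hv hr
          refine ⟨hnE v _ _ _ _ hr, (znc v i j).2 ⟨hv, ?_⟩⟩
          rw [hr]
          simp only [zlab2]
          rw [if_neg (by omega), if_neg (by omega)]
          simp only [nx]
          congr 1
          omega
    have h3 : d ^ 3 * (Exc zn E i j).ncard ≤ d ^ 3 * 24 := Nat.mul_le_mul_left _ (by omega)
    omega

end Pool.Agent.PReg

end

section

/-!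
# L7: blocks and their upper left borders are connected
-/

set_option autoImplicit false

namespace Pool.Agent.PReg

open Pool.Agent.PEmb

namespace ItL7

/-- a path of steps in both directions connects all its members -/
lemma path_conn {α : Type} {R : α → α → Prop} (f : ℕ → α) (a b : ℕ)
    (h : ∀ s, a ≤ s → s + 1 < b → R (f s) (f (s + 1)) ∧ R (f (s + 1)) (f s)) :
    ∀ s s', a ≤ s → s < b → a ≤ s' → s' < b → Relation.ReflTransGen R (f s) (f s') := by
  have up : ∀ n s, a ≤ s → s + n < b → Relation.ReflTransGen R (f s) (f (s + n)) := by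
    intro n
    induction n with
    | zero => intro s _ _; exact Relation.ReflTransGen.refl
    | succ n ih =>
      intro s h1 h2
      exact (ih s h1 (by omega)).tail (h (s + n) (by omega) (by omega)).1
  have down : ∀ n s, a ≤ s → s + n < b → Relation.ReflTransGen R (f (s + n)) (f s) := by
    intro n
    induction n with
    | zero => intro s _ _; exact Relation.ReflTransGen.refl
    | succ n ih =>
      intro s h1 h2
      exact Relation.ReflTransGen.head (h (s + n) (by omega) (by omega)).2 (ih s h1 (by omega))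
  intro s s' h1 h2 h3 h4
  rcases le_total s s' with h5 | h5
  · obtain ⟨n, rfl⟩ := Nat.exists_eq_add_of_le h5
    exact up n s h1 h4
  · obtain ⟨n, rfl⟩ := Nat.exists_eq_add_of_le h5
    exact down n s' h3 h2

/-- steps in a set of labels -/
def Rl (K : ℕ) (P : Par) (S : Lab → Prop) (a b : Lab) : Prop := AAdj K P a b ∧ S a ∧ S b

variable {K : ℕ} {P : Par} {S : Lab → Prop}

lemma mk {a b : Lab} (h : AE K P a b) (ha : S a) (hb : S b) : Rl K P S a b ∧ Rl K P S b a :=
  ⟨⟨Or.inl h, ha, hb⟩, ⟨Or.inr h, hb, ha⟩⟩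

lemma core_conn {a b : ℕ} (hS : ∀ s, S (.core a b s)) (ha : a < K) (hb : b < K) (s s' : ℕ)
    (hs : s < P.z a b) (hs' : s' < P.z a b) :
    Relation.ReflTransGen (Rl K P S) (.core a b s) (.core a b s') := by
  refine path_conn (fun s => Lab.core a b s) 0 (P.z a b) ?_ s s' (Nat.zero_le _) hs
    (Nat.zero_le _) hs'
  intro t _ ht
  exact mk (AE.cyc a b t ha hb ht) (hS t) (hS (t + 1))

lemma leg_conn {o : Bool} {a b : ℕ} (hex : Ex K o a b) (hS : ∀ s, S (.leg o a b s))
    (s s' : ℕ) (h1 : 1 ≤ s) (h2 : s < P.l o a b) (h3 : 1 ≤ s') (h4 : s' < P.l o a b) :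
    Relation.ReflTransGen (Rl K P S) (.leg o a b s) (.leg o a b s') := by
  refine path_conn (fun s => Lab.leg o a b s) 1 (P.l o a b) ?_ s s' h1 h2 h3 h4
  intro t ht1 ht2
  exact mk (AE.step o a b t hex ht1 ht2) (hS t) (hS (t + 1))

lemma ex_lt {o : Bool} {a b : ℕ} (hex : Ex K o a b) : a < K ∧ b < K := by
  rcases o with _ | _
  · have h1 : a < K := hex.1
    have h2 : b + 1 < K := hex.2
    exact ⟨h1, by omega⟩
  · have h1 : a + 1 < K := hex.1
    have h2 : b < K := hex.2
    exact ⟨by omega, h2⟩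

/-- a leg vertex is joined to the starting cycle -/
lemma leg_core (hA : Adm K P) {o : Bool} {a b : ℕ} (hex : Ex K o a b)
    (hL : ∀ s, S (.leg o a b s)) (hC : ∀ s, S (.core a b s)) (s : ℕ) (h1 : 1 ≤ s)
    (h2 : s < P.l o a b) : Relation.ReflTransGen (Rl K P S) (.leg o a b s) (.core a b 0) := by
  obtain ⟨ha, hb⟩ := ex_lt hex
  have hl := hA.lbig o a b a b hex ha hb
  have hz := hA.z4 a b ha hb
  have hr : P.r a b (ro o) < P.z a b := hA.rlt a b _ ha hb (by cases o <;> decide)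
  exact ((leg_conn hex hL s 1 h1 h2 le_rfl (by omega)).tail
    (mk (AE.out o a b hex) (hC _) (hL 1)).2).trans (core_conn hC ha hb _ 0 hr (by omega))

/-- the cycle at the end of a leg is joined to the starting cycle -/
lemma next_core (hA : Adm K P) {o : Bool} {a b : ℕ} (hex : Ex K o a b)
    (hL : ∀ s, S (.leg o a b s)) (hC : ∀ s, S (.core a b s))
    (hC' : ∀ s, S (.core (nx o a b).1 (nx o a b).2 s)) :
    Relation.ReflTransGen (Rl K P S) (.core (nx o a b).1 (nx o a b).2 0) (.core a b 0) := by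
  have hl := hA.lbig o a b _ _ hex hex.1 hex.2
  have hz := hA.z4 _ _ hex.1 hex.2
  have hr : P.r (nx o a b).1 (nx o a b).2 (ri o) < P.z (nx o a b).1 (nx o a b).2 :=
    hA.rlt _ _ _ hex.1 hex.2 (by cases o <;> decide)
  exact ((core_conn hC' hex.1 hex.2 0 _ (by omega) hr).tail
    (mk (AE.inn o a b hex) (hL _) (hC' _)).2).trans
    (leg_core hA hex hL hC _ (by omega) (by omega))

/-- a row of cells -/
lemma row (hA : Adm K P) {a b q : ℕ} (ha : a < K) (hb : b + q ≤ K)
    (hC : ∀ t < q, ∀ s, S (.core a (b + t) s))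
    (hL : ∀ t, t + 1 < q → ∀ s, S (.leg false a (b + t) s)) :
    ∀ t, t < q → Relation.ReflTransGen (Rl K P S) (.core a (b + t) 0) (.core a b 0) := by
  intro t
  induction t with
  | zero => intro _; exact Relation.ReflTransGen.refl
  | succ t ih =>
    intro ht
    have hex : Ex K false a (b + t) := ⟨ha, show b + t + 1 < K by omega⟩
    exact (next_core hA hex (hL t ht) (hC t (by omega)) (hC (t + 1) ht)).trans (ih (by omega))

/-- a column of cells -/
lemma col (hA : Adm K P) {a b q : ℕ} (ha : a + q ≤ K) (hb : b < K)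
    (hC : ∀ t < q, ∀ s, S (.core (a + t) b s))
    (hL : ∀ t, t + 1 < q → ∀ s, S (.leg true (a + t) b s)) :
    ∀ t, t < q → Relation.ReflTransGen (Rl K P S) (.core (a + t) b 0) (.core a b 0) := by
  intro t
  induction t with
  | zero => intro _; exact Relation.ReflTransGen.refl
  | succ t ih =>
    intro ht
    have hex : Ex K true (a + t) b := ⟨show a + t + 1 < K by omega, hb⟩
    exact (next_core hA hex (hL t ht) (hC t (by omega)) (hC (t + 1) ht)).trans (ih (by omega))

lemma dv {q : ℕ} (i : ℕ) {s : ℕ} (hs : s < q) : (q * i + s) / q = i := by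
  rw [Nat.mul_add_div (by omega), Nat.div_eq_of_lt hs, add_zero]

lemma of_dv {q a i : ℕ} (hq : 2 ≤ q) (h : a / q = i) : ∃ s < q, a = q * i + s := by
  refine ⟨a % q, Nat.mod_lt _ (by omega), ?_⟩
  rw [← h]
  exact (Nat.div_add_mod a q).symm

lemma le_of {k q i : ℕ} (h : i < k) : q * i + q ≤ k * q := by
  have : q * (i + 1) ≤ q * k := Nat.mul_le_mul_left q h
  rw [Nat.mul_succ] at this
  rw [mul_comm k q]
  exact this

lemma symm_rtg {x y : Lab} (h : Relation.ReflTransGen (Rl K P S) x y) :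
    Relation.ReflTransGen (Rl K P S) y x := by
  have hsym : Std.Symm (Rl K P S) := ⟨by
    rintro a b ⟨h1, h2, h3⟩
    exact ⟨h1.symm, h3, h2⟩⟩
  have h2 : Std.Symm (Relation.ReflTransGen (Rl K P S)) := Relation.ReflTransGen.symmetric
  exact h2.symm _ _ h

end ItL7

open ItL7

theorem L7 : PL7 := by
  intro k q P hq hA i j hi hj
  have hqi := le_of (q := q) hi
  have hqj := le_of (q := q) hj
  refine ⟨?_, ?_, ?_⟩
  · -- the block
    have bC : ∀ s t, s < q → t < q → ∀ u, Blk q i j (.core (q * i + s) (q * j + t) u) :=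
      fun s t hs ht u => ⟨dv i hs, dv j ht⟩
    have bF : ∀ s t, s < q → t + 1 < q → ∀ u, Blk q i j (.leg false (q * i + s) (q * j + t) u) :=
      fun s t hs ht u => ⟨dv i hs, dv j (by omega), dv i hs, dv j ht⟩
    have bT : ∀ s t, s + 1 < q → t < q → ∀ u, Blk q i j (.leg true (q * i + s) (q * j + t) u) :=
      fun s t hs ht u => ⟨dv i (by omega), dv j ht, dv i hs, dv j ht⟩
    have key0 : ∀ s t, s < q → t < q → Relation.ReflTransGen (Rl (k * q) P (Blk q i j))
        (.core (q * i + s) (q * j + t) 0) (.core (q * i) (q * j) 0) := by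
      intro s t hs ht
      refine (row hA (a := q * i + s) (b := q * j) (q := q) (by omega) hqj
        (fun t ht => bC s t hs ht) (fun t ht => bF s t hs ht) t ht).trans ?_
      exact col hA (a := q * i) (b := q * j) (q := q) hqi (by omega)
        (fun s hs => bC s 0 hs (by omega)) (fun s hs => bT s 0 hs (by omega)) s hs
    have key : ∀ x, Vx (k * q) P x → Blk q i j x →
        Relation.ReflTransGen (Rl (k * q) P (Blk q i j)) x (.core (q * i) (q * j) 0) := by
      intro x hx hb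
      rcases x with ⟨a, b, u⟩ | ⟨o, a, b, u⟩
      · obtain ⟨h1, h2, h3⟩ := hx
        obtain ⟨s, hs, rfl⟩ := of_dv hq hb.1
        obtain ⟨t, ht, rfl⟩ := of_dv hq hb.2
        exact (core_conn (bC s t hs ht) h1 h2 u 0 h3 (by omega)).trans (key0 s t hs ht)
      · obtain ⟨h1, h2, h3⟩ := hx
        have hL : ∀ u', Blk q i j (.leg o a b u') := fun _ => hb
        obtain ⟨s, hs, rfl⟩ := of_dv hq hb.1
        obtain ⟨t, ht, rfl⟩ := of_dv hq hb.2.1
        exact (leg_core hA h1 hL (bC s t hs ht) u h2 h3).trans (key0 s t hs ht)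
    intro x y hx hy hbx hby
    exact (key x hx hbx).trans (symm_rtg (key y hy hby))
  · -- the border
    have m0 : ∀ a, (q * a) % q = 0 := fun a => Nat.mul_mod_right q a
    have gC1 : ∀ t, t < q → ∀ u, Gam q i j (.core (q * i) (q * j + t) u) :=
      fun t ht u => ⟨⟨dv (s := 0) i (by omega), dv j ht⟩, Or.inl (m0 i)⟩
    have gC2 : ∀ s, s < q → ∀ u, Gam q i j (.core (q * i + s) (q * j) u) :=
      fun s hs u => ⟨⟨dv i hs, dv (s := 0) j (by omega)⟩, Or.inr (m0 j)⟩
    have gF : ∀ t, t + 1 < q → ∀ u, Gam q i j (.leg false (q * i) (q * j + t) u) :=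
      fun t ht u => ⟨⟨dv (s := 0) i (by omega), dv j (by omega), dv (s := 0) i (by omega),
        dv j ht⟩, m0 i⟩
    have gT : ∀ s, s + 1 < q → ∀ u, Gam q i j (.leg true (q * i + s) (q * j) u) :=
      fun s hs u => ⟨⟨dv i (by omega), dv (s := 0) j (by omega), dv i hs,
        dv (s := 0) j (by omega)⟩, m0 j⟩
    have kr : ∀ t, t < q → Relation.ReflTransGen (Rl (k * q) P (Gam q i j))
        (.core (q * i) (q * j + t) 0) (.core (q * i) (q * j) 0) :=
      row hA (a := q * i) (b := q * j) (q := q) (by omega) hqj gC1 gF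
    have kc : ∀ s, s < q → Relation.ReflTransGen (Rl (k * q) P (Gam q i j))
        (.core (q * i + s) (q * j) 0) (.core (q * i) (q * j) 0) :=
      col hA (a := q * i) (b := q * j) (q := q) hqi (by omega) gC2 gT
    have md : ∀ i a, a / q = i → a % q = 0 → a = q * i := by
      intro i a h1 h2
      have := Nat.div_add_mod a q
      rw [h1, h2, add_zero] at this
      exact this.symm
    have key : ∀ x, Vx (k * q) P x → Gam q i j x →
        Relation.ReflTransGen (Rl (k * q) P (Gam q i j)) x (.core (q * i) (q * j) 0) := by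
      intro x hx hb
      rcases x with ⟨a, b, u⟩ | ⟨_ | _, a, b, u⟩
      · obtain ⟨h1, h2, h3⟩ := hx
        obtain ⟨⟨hb1, hb2⟩, hb3⟩ := hb
        rcases hb3 with hb3 | hb3
        · obtain rfl := md i a hb1 hb3
          obtain ⟨t, ht, rfl⟩ := of_dv hq hb2
          exact (core_conn (gC1 t ht) h1 h2 u 0 h3 (by omega)).trans (kr t ht)
        · obtain rfl := md j b hb2 hb3
          obtain ⟨s, hs, rfl⟩ := of_dv hq hb1
          exact (core_conn (gC2 s hs) h1 h2 u 0 h3 (by omega)).trans (kc s hs)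
      · obtain ⟨h1, h2, h3⟩ := hx
        have hL : ∀ u', Gam q i j (.leg false a b u') := fun _ => hb
        obtain ⟨⟨hb1, hb2, -⟩, hb3⟩ := hb
        obtain rfl := md i a hb1 hb3
        obtain ⟨t, ht, rfl⟩ := of_dv hq hb2
        exact (leg_core hA h1 hL (gC1 t ht) u h2 h3).trans (kr t ht)
      · obtain ⟨h1, h2, h3⟩ := hx
        have hL : ∀ u', Gam q i j (.leg true a b u') := fun _ => hb
        obtain ⟨⟨hb1, hb2, -⟩, hb3⟩ := hb
        obtain rfl := md j b hb2 hb3
        obtain ⟨s, hs, rfl⟩ := of_dv hq hb1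
        exact (leg_core hA h1 hL (gC2 s hs) u h2 h3).trans (kc s hs)
    intro x y hx hy hbx hby
    exact (key x hx hbx).trans (symm_rtg (key y hy hby))
  · have hz := hA.z4 (q * i) (q * j) (by omega) (by omega)
    refine ⟨.core (q * i) (q * j) 0, ⟨by omega, by omega, by omega⟩,
      ⟨dv (s := 0) i (by omega), dv (s := 0) j (by omega)⟩, Or.inl (Nat.mul_mod_right q i)⟩

end Pool.Agent.PReg

end

section

/-!
# L8: ports between blocks
-/

set_option autoImplicit false

namespace Pool.Agent.PReg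

open Pool.Agent.PEmb

namespace ItL8

/-- a path of steps in both directions connects all its members -/
lemma path_conn {α : Type} {R : α → α → Prop} (f : ℕ → α) (a b : ℕ)
    (h : ∀ s, a ≤ s → s + 1 < b → R (f s) (f (s + 1)) ∧ R (f (s + 1)) (f s)) :
    ∀ s s', a ≤ s → s < b → a ≤ s' → s' < b → Relation.ReflTransGen R (f s) (f s') := by
  have up : ∀ n s, a ≤ s → s + n < b → Relation.ReflTransGen R (f s) (f (s + n)) := by
    intro n
    induction n with
    | zero => intro s _ _; exact Relation.ReflTransGen.refl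
    | succ n ih =>
      intro s h1 h2
      exact (ih s h1 (by omega)).tail (h (s + n) (by omega) (by omega)).1
  have down : ∀ n s, a ≤ s → s + n < b → Relation.ReflTransGen R (f (s + n)) (f s) := by
    intro n
    induction n with
    | zero => intro s _ _; exact Relation.ReflTransGen.refl
    | succ n ih =>
      intro s h1 h2
      exact Relation.ReflTransGen.head (h (s + n) (by omega) (by omega)).2 (ih s h1 (by omega))
  intro s s' h1 h2 h3 h4
  rcases le_total s s' with h5 | h5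
  · obtain ⟨n, rfl⟩ := Nat.exists_eq_add_of_le h5
    exact up n s h1 h4
  · obtain ⟨n, rfl⟩ := Nat.exists_eq_add_of_le h5
    exact down n s' h3 h2

lemma e1 {q : ℕ} (hq : 2 ≤ q) (j : ℕ) : q * j + (q - 1) + 1 = q * (j + 1) := by
  rw [Nat.mul_succ]; omega

lemma d0 {q : ℕ} (hq : 2 ≤ q) (j : ℕ) : q * j / q = j := Nat.mul_div_cancel_left _ (by omega)

lemma d1 {q : ℕ} (hq : 2 ≤ q) (j : ℕ) : (q * j + (q - 1)) / q = j := by
  rw [Nat.mul_add_div (by omega), Nat.div_eq_of_lt (by omega), add_zero]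

lemma lt_of {k q i : ℕ} (hq : 2 ≤ q) (h : i < k) : q * i < k * q := by
  rw [mul_comm k q]
  exact Nat.mul_lt_mul_of_pos_left h (by omega)

end ItL8

open ItL8

theorem L8 : PL8 := by
  intro k q P hq hA o i j hex
  cases o with
  | false =>
    have h1 : i < k := hex.1
    have h2 : j + 1 < k := hex.2
    have g1 := lt_of hq h1
    have g2 := lt_of hq h2
    have e := e1 hq j
    have hex' : Ex (k * q) false (q * i) (q * j + (q - 1)) :=
      ⟨g1, show q * j + (q - 1) + 1 < k * q by rw [e]; exact g2⟩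
    refine ⟨?_, ?_, ?_⟩
    · intro x y hx hy hzx hzy
      rcases x with ⟨a, b, s⟩ | ⟨_ | _, a, b, s⟩
      · exact hzx.elim
      · rcases y with ⟨a', b', s'⟩ | ⟨_ | _, a', b', s'⟩
        · exact hzy.elim
        · obtain ⟨rfl, rfl⟩ := hzx
          obtain ⟨rfl, rfl⟩ := hzy
          obtain ⟨-, hs1, hs2⟩ := hx
          obtain ⟨-, ht1, ht2⟩ := hy
          refine path_conn (fun s => Lab.leg false (q * i) (q * j + (q - 1)) s) 1
            (P.l false (q * i) (q * j + (q - 1))) ?_ s s' hs1 hs2 ht1 ht2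
          intro s h3 h4
          have e := AE.step (P := P) false (q * i) (q * j + (q - 1)) s hex' h3 h4
          exact ⟨⟨Or.inl e, ⟨rfl, rfl⟩, ⟨rfl, rfl⟩⟩, ⟨Or.inr e, ⟨rfl, rfl⟩, ⟨rfl, rfl⟩⟩⟩
        · exact hzy.elim
      · exact hzx.elim
    · refine ⟨.leg false (q * i) (q * j + (q - 1)) 1,
        .core (q * i) (q * j + (q - 1)) (P.r (q * i) (q * j + (q - 1)) (ro false)),
        Or.inr (AE.out false _ _ hex'), ⟨rfl, rfl⟩, ⟨d0 hq i, d1 hq j⟩,
        Or.inl (Nat.mul_mod_right q i)⟩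
    · refine ⟨.leg false (q * i) (q * j + (q - 1)) (P.l false (q * i) (q * j + (q - 1)) - 1),
        .core (q * i) (q * j + (q - 1) + 1) (P.r (q * i) (q * j + (q - 1) + 1) (ri false)),
        Or.inl (AE.inn false _ _ hex'), ⟨rfl, rfl⟩, ⟨d0 hq i, ?_⟩,
        Or.inl (Nat.mul_mod_right q i)⟩
      rw [e]
      exact d0 hq (j + 1)
  | true =>
    have h1 : i + 1 < k := hex.1
    have h2 : j < k := hex.2
    have g1 := lt_of hq h1
    have g2 := lt_of hq h2
    have e := e1 hq i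
    have hex' : Ex (k * q) true (q * i + (q - 1)) (q * j) :=
      ⟨show q * i + (q - 1) + 1 < k * q by rw [e]; exact g1, g2⟩
    refine ⟨?_, ?_, ?_⟩
    · intro x y hx hy hzx hzy
      rcases x with ⟨a, b, s⟩ | ⟨_ | _, a, b, s⟩
      · exact hzx.elim
      · exact hzx.elim
      · rcases y with ⟨a', b', s'⟩ | ⟨_ | _, a', b', s'⟩
        · exact hzy.elim
        · exact hzy.elim
        · obtain ⟨rfl, rfl⟩ := hzx
          obtain ⟨rfl, rfl⟩ := hzy
          obtain ⟨-, hs1, hs2⟩ := hx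
          obtain ⟨-, ht1, ht2⟩ := hy
          refine path_conn (fun s => Lab.leg true (q * i + (q - 1)) (q * j) s) 1
            (P.l true (q * i + (q - 1)) (q * j)) ?_ s s' hs1 hs2 ht1 ht2
          intro s h3 h4
          have e := AE.step (P := P) true (q * i + (q - 1)) (q * j) s hex' h3 h4
          exact ⟨⟨Or.inl e, ⟨rfl, rfl⟩, ⟨rfl, rfl⟩⟩, ⟨Or.inr e, ⟨rfl, rfl⟩, ⟨rfl, rfl⟩⟩⟩
    · refine ⟨.leg true (q * i + (q - 1)) (q * j) 1,
        .core (q * i + (q - 1)) (q * j) (P.r (q * i + (q - 1)) (q * j) (ro true)),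
        Or.inr (AE.out true _ _ hex'), ⟨rfl, rfl⟩, ⟨d1 hq i, d0 hq j⟩,
        Or.inr (Nat.mul_mod_right q j)⟩
    · refine ⟨.leg true (q * i + (q - 1)) (q * j) (P.l true (q * i + (q - 1)) (q * j) - 1),
        .core (q * i + (q - 1) + 1) (q * j) (P.r (q * i + (q - 1) + 1) (q * j) (ri true)),
        Or.inl (AE.inn true _ _ hex'), ⟨rfl, rfl⟩, ⟨?_, d0 hq j⟩,
        Or.inr (Nat.mul_mod_right q j)⟩
      rw [e]
      exact d0 hq (i + 1)

end Pool.Agent.PReg

end

section

/-!
# L9: adjacency between blocks and ports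
-/

set_option autoImplicit false

namespace Pool.Agent.PReg

open Pool.Agent.PEmb

namespace ItL9

lemma e1 {q : ℕ} (hq : 2 ≤ q) (j : ℕ) : q * j + (q - 1) + 1 = q * (j + 1) := by
  rw [Nat.mul_succ]; omega

lemma d0 {q : ℕ} (hq : 2 ≤ q) (j : ℕ) : q * j / q = j := Nat.mul_div_cancel_left _ (by omega)

lemma d1 {q : ℕ} (hq : 2 ≤ q) (j : ℕ) : (q * j + (q - 1)) / q = j := by
  rw [Nat.mul_add_div (by omega), Nat.div_eq_of_lt (by omega), add_zero]

lemma lt_of {k q i : ℕ} (h : q * i < k * q) : i < k := by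
  rw [mul_comm k q] at h
  exact lt_of_mul_lt_mul_left' h

lemma inj {q a b : ℕ} (hq : 2 ≤ q) (h : q * a = q * b) : a = b :=
  Nat.eq_of_mul_eq_mul_left (by omega) h

lemma port_not_blk {q : ℕ} (hq : 2 ≤ q) : ∀ x o i j i' j', Prt q o i j x → ¬ Blk q i' j' x := by
  intro x o i j i' j' hp hb
  rcases x with ⟨a, b, s⟩ | ⟨_ | _, a, b, s⟩ <;> rcases o with _ | _
  · exact hp.elim
  · exact hp.elim
  · obtain ⟨rfl, rfl⟩ := hp
    obtain ⟨-, h2, -, h4⟩ := hb
    rw [d1 hq] at h2
    simp only [nx] at h4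
    rw [e1 hq, d0 hq] at h4
    omega
  · exact hp.elim
  · exact hp.elim
  · obtain ⟨rfl, rfl⟩ := hp
    obtain ⟨h1, -, h3, -⟩ := hb
    rw [d1 hq] at h1
    simp only [nx] at h3
    rw [e1 hq, d0 hq] at h3
    omega

lemma blk_ae {K q : ℕ} {P : Par} {x y : Lab} {i j i' j' : ℕ} (h : AE K P x y)
    (hx : Blk q i j x) (hy : Blk q i' j' y) : i = i' ∧ j = j' := by
  cases h with
  | cyc a b s _ _ _ => exact ⟨hx.1.symm.trans hy.1, hx.2.symm.trans hy.2⟩
  | close a b _ _ => exact ⟨hx.1.symm.trans hy.1, hx.2.symm.trans hy.2⟩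
  | out o a b _ => exact ⟨hx.1.symm.trans hy.1, hx.2.symm.trans hy.2.1⟩
  | step o a b s _ _ _ => exact ⟨hx.1.symm.trans hy.1, hx.2.1.symm.trans hy.2.1⟩
  | inn o a b _ => exact ⟨hx.2.2.1.symm.trans hy.1, hx.2.2.2.symm.trans hy.2⟩

lemma port_uniq {q : ℕ} (hq : 2 ≤ q) {x : Lab} {o o' : Bool} {i j i' j' : ℕ}
    (h : Prt q o i j x) (h' : Prt q o' i' j' x) : o = o' ∧ i = i' ∧ j = j' := by
  rcases x with ⟨a, b, s⟩ | ⟨_ | _, a, b, s⟩ <;> rcases o with _ | _ <;> rcases o' with _ | _ <;>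
    first
    | exact h.elim
    | exact h'.elim
    | skip
  · obtain ⟨h1, h2⟩ := h
    obtain ⟨h3, h4⟩ := h'
    refine ⟨rfl, inj hq (h1.symm.trans h3), inj hq ?_⟩
    omega
  · obtain ⟨h1, h2⟩ := h
    obtain ⟨h3, h4⟩ := h'
    refine ⟨rfl, inj hq ?_, inj hq (h2.symm.trans h4)⟩
    omega

lemma prt_leg {q : ℕ} {o : Bool} {i j : ℕ} {x : Lab} (h : Prt q o i j x) :
    ∃ a b s, x = .leg o a b s ∧ ∀ s', Prt q o i j (.leg o a b s') := by
  rcases x with ⟨a, b, s⟩ | ⟨_ | _, a, b, s⟩ <;> rcases o with _ | _ <;>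
    first
    | exact h.elim
    | exact ⟨a, b, s, rfl, fun _ => h⟩

lemma prt_ae {K q : ℕ} (hq : 2 ≤ q) {P : Par} {x y : Lab} {o o' : Bool} {i j i' j' : ℕ}
    (h : AE K P x y) (hx : Prt q o i j x) (hy : Prt q o' i' j' y) : o = o' ∧ i = i' ∧ j = j' := by
  obtain ⟨a, b, s, rfl, h1⟩ := prt_leg hx
  obtain ⟨a', b', s', rfl, h2⟩ := prt_leg hy
  cases h with
  | step o a b s _ _ _ => exact port_uniq hq hx (h2 s)

lemma ends {q : ℕ} (hq : 2 ≤ q) {o : Bool} {i j a b s : ℕ} (h : Prt q o i j (.leg o a b s)) :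
    (a / q, b / q) = (i, j) ∧ ((nx o a b).1 / q, (nx o a b).2 / q) = nx o i j := by
  rcases o with _ | _
  · obtain ⟨rfl, rfl⟩ := h
    simp only [nx]
    rw [d0 hq, d1 hq, e1 hq, d0 hq]
    exact ⟨rfl, rfl⟩
  · obtain ⟨rfl, rfl⟩ := h
    simp only [nx]
    rw [d0 hq, d1 hq, e1 hq, d0 hq]
    exact ⟨rfl, rfl⟩

end ItL9

open ItL9

theorem L9 : PL9 := by
  intro k q P hq hA
  refine ⟨?_, ?_, ?_, ?_, port_not_blk hq, ?_, ?_, ?_⟩
  · intro x i j hx hb
    have key : ∀ a, a < k * q → a / q < k := fun a ha =>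
      Nat.div_lt_of_lt_mul (by rw [mul_comm]; exact ha)
    rcases x with ⟨a, b, s⟩ | ⟨_ | _, a, b, s⟩
    · obtain ⟨h1, h2, -⟩ := hx
      obtain ⟨rfl, rfl⟩ := hb
      exact ⟨key a h1, key b h2⟩
    · obtain ⟨⟨h1, h2⟩, -⟩ := hx
      obtain ⟨rfl, rfl, -⟩ := hb
      have h2' : b + 1 < k * q := h2
      exact ⟨key a h1, key b (by omega)⟩
    · obtain ⟨⟨h1, h2⟩, -⟩ := hx
      obtain ⟨rfl, rfl, -⟩ := hb
      have h1' : a + 1 < k * q := h1
      exact ⟨key a (by omega), key b h2⟩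
  · intro x o i j hx hp
    rcases x with ⟨a, b, s⟩ | ⟨_ | _, a, b, s⟩ <;> rcases o with _ | _
    · exact hp.elim
    · exact hp.elim
    · obtain ⟨rfl, rfl⟩ := hp
      obtain ⟨⟨h1, h2⟩, -⟩ := hx
      have h1' : q * i < k * q := h1
      have h2' : q * j + (q - 1) + 1 < k * q := h2
      rw [e1 hq] at h2'
      exact ⟨lt_of h1', lt_of h2'⟩
    · exact hp.elim
    · exact hp.elim
    · obtain ⟨rfl, rfl⟩ := hp
      obtain ⟨⟨h1, h2⟩, -⟩ := hx
      have h1' : q * i + (q - 1) + 1 < k * q := h1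
      have h2' : q * j < k * q := h2
      rw [e1 hq] at h1'
      exact ⟨lt_of h1', lt_of h2'⟩
  · intro x i j i' j' h h'
    rcases x with ⟨a, b, s⟩ | ⟨o, a, b, s⟩
    · exact ⟨h.1.symm.trans h'.1, h.2.symm.trans h'.2⟩
    · exact ⟨h.1.symm.trans h'.1, h.2.1.symm.trans h'.2.1⟩
  · intro x o i j o' i' j' h h'
    exact port_uniq hq h h'
  · intro x y i j i' j' h hx hy
    rcases h with h | h
    · exact blk_ae h hx hy
    · have := blk_ae h hy hx
      exact ⟨this.1.symm, this.2.symm⟩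
  · intro x y o i j o' i' j' h hx hy
    rcases h with h | h
    · exact prt_ae hq h hx hy
    · have := prt_ae hq h hy hx
      exact ⟨this.1.symm, this.2.1.symm, this.2.2.symm⟩
  · intro x y o i j i' j' h hx hy
    obtain ⟨a, b, s, rfl, h1⟩ := prt_leg hx
    rcases h with h | h
    · cases h with
      | step o a b s _ _ _ => exact absurd hy (port_not_blk hq _ _ _ _ _ _ (h1 (s + 1)))
      | inn o a b _ =>
        right
        rw [← (ends hq hx).2]
        exact Prod.ext hy.1.symm hy.2.symm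
    · cases h with
      | out o a b _ =>
        left
        rw [← (ends hq hx).1]
        exact Prod.ext hy.1.symm hy.2.symm
      | step o a b s _ _ _ => exact absurd hy (port_not_blk hq _ _ _ _ _ _ (h1 s))

end Pool.Agent.PReg

end

section

/-!
# Assembly of the second main theorem: regular graphs
-/

set_option autoImplicit false

namespace Pool.Agent.PReg

open Pool.Agent.PEmb

/-- For `d ≥ 5` and every `k ≥ 2` there is `w` such that for every `d`-regular graph of tree width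
larger than `w` there are zones such that embeddings into the host are cliques with `k`
vertices. -/
def PRegSem : Prop := ∀ d k : ℕ, 5 ≤ d → 2 ≤ k → ∃ w : ℕ, ∀ {V : Type} [Finite V]
  (G : SimpleGraph V), (∀ v, dg G v = d) → ¬ TreeWidthLE G w →
    ∃ ζ : V → ZB, ∀ {W : Type} (Γ : SimpleGraph W), Kq k Γ ↔ Embeds G (host G ζ Γ)

theorem encard_le_of_ncard {V : Type} [Finite V] {S : Set V} {n : ℕ} (h : S.ncard ≤ n) :
    S.encard ≤ n := by
  rw [← (Set.toFinite S).cast_ncard_eq]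
  exact_mod_cast h

theorem sit_reg {V W : Type} [Finite V] {k d : ℕ} {G : SimpleGraph V} {zn : V → Zn}
    {Γ : SimpleGraph W} {f : V → V × (Option W × Option W)} (hd : ∀ v, dg G v = d) (hd0 : 0 < d)
    (hl : Lay0 k G zn) (hf : Function.Injective f)
    (hf2 : ∀ x y, G.Adj x y → (host G (fun v => zb (zn v)) Γ).Adj (f x) (f y)) :
    Sit k d d G zn Γ Set.univ f := by
  refine ⟨hl, hd0, fun _ _ => trivial, fun v _ => hd v, fun _ _ _ _ => trivial, fun v _ => ?_,
    fun v _ => ?_, fun S _ v _ => trivial, hf, hf2⟩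
  · rw [Set.inter_univ]; exact (hd v).ge
  · rw [Set.inter_univ]; exact (hd v).le

/-- The pattern in the contracted graph. -/
theorem exists_model (hS : PS) (h1 : PS1) (h2 : PS2) (hG : PGr) (hE : PE23) (f1 : PF1)
    (hL1 : PL1) (hV6 : PV6) (d K : ℕ) : ∃ w : ℕ, ∀ {V : Type} [Finite V] (Q : SimpleGraph V),
      (∀ v, dg Q v ≤ d) → ¬ TreeWidthLE Q w → ∃ P U ρ, Adm K P ∧ GM K P Q U ρ ∧
        ∀ u ∈ U, ∃ v, Q.Adj u v := by
  obtain ⟨K1, hK1⟩ := hE K
  obtain ⟨w1, hw1⟩ := hG K1
  obtain ⟨K2, hK2⟩ := hS d (3 * (w1 + 1) + 2)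
  obtain ⟨w2, hw2⟩ := hG K2
  refine ⟨w2, fun {V} _ Q hd hQ => ?_⟩
  obtain ⟨B, hB⟩ := hw2 Q hQ
  obtain ⟨S, ⟨B', hB'⟩, hsat⟩ := hK2 Q hd B hB
  have n1 : ¬ TreeWidthLE (rs Q S) (3 * (w1 + 1)) := by
    intro h
    have := h2 _ _ _ _ h hB'
    omega
  have n2 : ¬ TreeWidthLE (quo (rs Q S) (cl (rs Q S))) w1 := by
    intro h
    refine n1 (h1 _ _ 3 w1 (fun a => ?_) h)
    obtain ⟨g1, g2, -⟩ := f1 (rs Q S) hsat
    by_cases hne : (cl (rs Q S) ⁻¹' {a}).Nonempty
    · obtain ⟨x, hx⟩ := hne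
      have hx : cl (rs Q S) x = a := hx
      have hsub : cl (rs Q S) ⁻¹' {a} ⊆ a := by
        intro y hy
        have hy : cl (rs Q S) y = a := hy
        rw [← hy]
        exact g1.refl y
      refine (Set.encard_le_encard hsub).trans ?_
      rw [← hx]
      exact encard_le_of_ncard (g2 x)
    · rw [Set.not_nonempty_iff_eq_empty.1 hne]
      simp
  obtain ⟨B2, hB2⟩ := hw1 _ n2
  obtain ⟨P, hP, hpat⟩ := hK1 _ B2 hB2
  obtain ⟨U, ρ, hM⟩ := hL1 (rs Q S) hsat K P hP hpat
  obtain ⟨-, hM'⟩ := hV6 Q S K P U ρ hP hM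
  have e : rs Q {v | ∃ u, Q.Adj v u} = Q := by
    ext a b
    constructor
    · exact fun h => h.1
    · exact fun h => ⟨h, ⟨b, h⟩, ⟨a, h.symm⟩⟩
  have hM2 : GM K P (rs Q {v | ∃ u, Q.Adj v u}) U ρ := by rw [e]; exact hM'
  exact ⟨P, U, ρ, hP, hM', fun u hu => (hV6 Q _ K P U ρ hP hM2).1 hu⟩

theorem RegSem (hS : PS) (h1 : PS1) (h2 : PS2) (hG : PGr) (hE : PE23) (f1 : PF1)
    (a2 : PA2) (a5 : PA5) (a6 : PA6) (hR7 : PR7) (hL0 : PL0) (hL1 : PL1) (hL2 : PL2) (hL3 : PL3)
    (hL5 : PL5) (hL10 : PL10) (hL11 : PL11) (hV0 : PV0) (hV1 : PV1) (hV2 : PV2) (hV3 : PV3)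
    (hV4 : PV4) (hV5 : PV5) (hV6 : PV6) : PRegSem := by
  intro d k hd5 hk
  set q := k + (24 * d ^ 3 + 10) with hq
  obtain ⟨w1, hw1⟩ := exists_model hS h1 h2 hG hE f1 hL1 hV6 ((d + 1) ^ 6 * d) (k * q)
  refine ⟨(d + 1) ^ 6 * (w1 + 1), fun {V} _ G hd htw => ?_⟩
  -- the contraction
  obtain ⟨Z, hZT, hZ, hZm⟩ := hV1 G {v | ¬ TFree d G v}
  obtain ⟨π, p1, p2, p3, p4⟩ := hV2 G d Z (fun v => (hd v).le) hZ
  have htw2 : ¬ TreeWidthLE (quo G π) w1 := fun h =>
    htw (h1 G π _ w1 (fun a => encard_le_of_ncard (p2 a)) h)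
  obtain ⟨P, U, ρ, hP, hM, hni⟩ := hw1 (quo G π)
    (fun a => hV3 G π d _ (fun v => (hd v).le) p2 a) htw2
  have hrange : ∀ u ∈ U, ∃ x, π x = u := by
    intro u hu
    obtain ⟨v, -, x, y, hx, -⟩ := hni u hu
    exact ⟨x, hx⟩
  have hdpos : 0 < d := by omega
  -- the final step
  have fin : ∀ zn : V → Zn, Lay0 k G zn →
      (∀ {W : Type} (Γ : SimpleGraph W) (f : V → V × (Option W × Option W)),
        Sit k d d G zn Γ Set.univ f → Uv zn Set.univ f) →
      ∃ ζ : V → ZB, ∀ {W : Type} (Γ : SimpleGraph W), Kq k Γ ↔ Embeds G (host G ζ Γ) := by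
    intro zn hl hu
    refine ⟨fun v => zb (zn v), fun {W} Γ => ⟨fun h => a6 k _ zn Γ hl h, fun h => ?_⟩⟩
    obtain ⟨f, hf, hf2⟩ := h
    have hs := sit_reg hd hdpos hl hf hf2
    exact a5 _ _ _ _ _ _ _ _ hs (hu Γ f hs)
  by_cases hcase : ∀ i j, i < k → j < k → ∃ u ∈ U, u ∈ Z ∧ Blk q i j (ρ u) ∧ ¬ Gam q i j (ρ u)
  · -- twins in every block
    have hI := hV4 G π (k * q) P U ρ p1 hrange hM.ip
    obtain ⟨zn, z1, z2⟩ := hL10 k q (d - 2) P G (π ⁻¹' U) (fun x => ρ (π x)) (by omega) (by omega)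
      hP hI (fun i j hi hj => by
        obtain ⟨z, hzU, hzZ, hzB, hzG⟩ := hcase i j hi hj
        have hzT : ¬ TFree d G z := hZT hzZ
        unfold TFree at hzT
        push Not at hzT
        obtain ⟨z', hne, hcard⟩ := hzT
        have hb : ball G 2 z ⊆ π ⁻¹' {z} := p3 z hzZ
        have key : ∀ v, (v = z ∨ v = z' ∨ (G.Adj z v ∧ G.Adj z' v)) → π v = z := by
          intro v hv
          apply hb
          rcases hv with rfl | rfl | hv
          · exact Or.inl (Or.inl rfl)
          · have : (G.neighborSet z ∩ G.neighborSet v).Nonempty := by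
              by_contra hn
              rw [Set.not_nonempty_iff_eq_empty.1 hn, Set.ncard_empty] at hcard
              omega
            obtain ⟨c, hc1, hc2⟩ := this
            exact Or.inr ⟨c, Or.inr ⟨z, rfl, hc1⟩, (hc2 : G.Adj v c).symm⟩
          · exact Or.inl (Or.inr ⟨z, rfl, hv.1⟩)
        refine ⟨z, z', hne, by omega, fun v hv => ?_⟩
        have hv' := key v hv
        refine ⟨?_, ?_, ?_⟩
        · show π v ∈ U
          rw [hv']; exact hzU
        · show Blk q i j (ρ (π v))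
          rw [hv']; exact hzB
        · show ¬ Gam q i j (ρ (π v))
          rw [hv']; exact hzG)
    refine fin zn z1 fun {W} Γ f hs => a2 _ _ _ _ _ _ _ _ hs fun i j hi hj => ?_
    obtain ⟨z0, h3, h4⟩ := z2 i j hi hj
    exact ⟨z0, h3, by omega⟩
  · -- a block without twins
    push Not at hcase
    obtain ⟨i, j, hi, hj, hno⟩ := hcase
    have ha : q * i + 1 + k ≤ k * q := by
      have : q * (i + 1) ≤ q * k := Nat.mul_le_mul_left q hi
      have e1 : q * (i + 1) = q * i + q := by ring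
      have e2 : k * q = q * k := by ring
      omega
    have hb : q * j + 1 + k ≤ k * q := by
      have : q * (j + 1) ≤ q * k := Nat.mul_le_mul_left q hj
      have e1 : q * (j + 1) = q * j + q := by ring
      have e2 : k * q = q * k := by ring
      omega
    obtain ⟨ρ', hM', hρ'⟩ := hL3 (k * q) k P (q * i + 1) (q * j + 1) (quo G π) U ρ hP ha hb hM
    have hA' := (hL2 (k * q) k P (q * i + 1) (q * j + 1) hP ha hb).1
    -- the vertices of the shifted model are not contracted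
    have hout : ∀ u ∈ {u | u ∈ U ∧ ∃ x, Vx k (shP P (q * i + 1) (q * j + 1)) x ∧
        ρ u = shL (q * i + 1) (q * j + 1) x},
        (π u = u ∧ π ⁻¹' {u} = {u}) ∧ Disjoint (ball G 6 u) Z := by
      rintro u ⟨huU, x, hx, hux⟩
      obtain ⟨-, hB, hG'⟩ := hL11 k q k P i j (by omega) (by omega) hi hj x hx
      rw [← hux] at hB hG'
      have huZ : u ∉ Z := fun h => hG' (hno u huU h hB)
      obtain ⟨y, hy⟩ := hrange u huU
      obtain ⟨q1, q2, q3⟩ := p4 y (by rw [hy]; exact huZ)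
      have : y = u := by rw [← q1, hy]
      subst this
      exact ⟨⟨hy, q2⟩, q3⟩
    have hM2 := hV5 G π k _ _ ρ' (fun u hu => (hout u hu).1) hM'
    have hlen : ∀ o i' j', Ex k o i' j' →
        48 * d ^ 3 + 4 ≤ (shP P (q * i + 1) (q * j + 1)).l o i' j' := by
      intro o i' j' hex
      have h3 : Ex (k * q) o (q * i + 1 + i') (q * j + 1 + j') := by
        cases o <;> simp only [Ex, nx] at hex ⊢ <;> omega
      have h4 := (hL0 (k * q) P hP).2 o _ _ h3
      have h5 : q ≤ k * q := Nat.le_mul_of_pos_left q (by omega)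
      have h6 : k * q ≤ (k * q) ^ 2 := Nat.le_self_pow (by norm_num) _
      show 48 * d ^ 3 + 4 ≤ P.l o (q * i + 1 + i') (q * j + 1 + j')
      omega
    obtain ⟨zn, E, hF⟩ := hL5 k d _ G _ ρ' hk hA' hM2 hlen (fun u hu v hv => by
      by_contra hT
      have h6 := hZm v hT
      apply h6
      rw [Set.disjoint_left]
      intro x hx hxZ
      have h7 := (hout u hu).2
      rw [Set.disjoint_left] at h7
      exact h7 ((hV0 G).2.1 2 4 v u x hv hx) hxZ)
    exact fin zn hF.lay fun {W} Γ f hs => hR7 k d G zn Γ f E hs hd (by omega) hF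

/-- The class `C` contains regular graphs of degree at most `d` and arbitrarily large tree
width. -/
def RegFat (d : ℕ) (C : Code → Prop) : Prop := ∀ w : ℕ, ∃ A : Code, C A ∧
  (∃ r ≤ d, ∀ v, dg (graph A) v = r) ∧ ¬ TreeWidthLE (graph A) w

theorem tw_mono {V : Type} {G : SimpleGraph V} {w w' : ℕ} (h : w ≤ w') (hG : TreeWidthLE G w) :
    TreeWidthLE G w' := by
  obtain ⟨T, t, bag, h1, h2, h3, h4⟩ := hG
  exact ⟨T, t, bag, h1, h2, h3, fun x => (h4 x).trans (by
    have : (w : ℕ∞) ≤ (w' : ℕ∞) := by exact_mod_cast h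
    exact add_le_add this le_rfl)⟩

theorem tw_induce {V : Type} {G : SimpleGraph V} {w : ℕ} {D : Set V} (hD : ∀ v, v ∈ D)
    (hG : TreeWidthLE (G.induce D) w) : TreeWidthLE G w := by
  obtain ⟨T, t, bag, h1, h2, h3, h4⟩ := hG
  refine ⟨T, t, fun x => Subtype.val '' bag x, h1, fun v => ?_, fun u v huv => ?_, fun x => ?_⟩
  · have : {x | v ∈ Subtype.val '' bag x} = {x | (⟨v, hD v⟩ : D) ∈ bag x} := by
      ext x
      constructor
      · rintro ⟨y, hy, rfl⟩
        exact hy
      · exact fun h => ⟨⟨v, hD v⟩, h, rfl⟩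
    rw [this]
    exact h2 ⟨v, hD v⟩
  · obtain ⟨x, hx, hx'⟩ := h3 ⟨u, hD u⟩ ⟨v, hD v⟩ huv
    exact ⟨x, ⟨_, hx, rfl⟩, ⟨_, hx', rfl⟩⟩
  · exact (Set.encard_image_le _ _).trans (h4 x)

/-- In a regular graph every vertex is thin. -/
theorem thin_reg {V : Type} {G : SimpleGraph V} {r : ℕ} (hr : ∀ v, dg G v = r) (v : V) :
    v ∈ thin r G :=
  ⟨⟨Set.univ, trivial, fun u _ => by rw [Set.inter_univ]; exact (hr u).ge⟩, hr v⟩

/-- All regular graphs of degree at most `d`. -/
theorem RegAll (hT : PThinSem) (hR : PRegSem) (hG : PGr) (hK : PK1) (d k : ℕ) :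
    ∃ w : ℕ, ∀ {V : Type} [Finite V] (G : SimpleGraph V), (∃ r ≤ d, ∀ v, dg G v = r) →
      ¬ TreeWidthLE G w →
        ∃ ζ : V → ZB, ∀ {W : Type} (Γ : SimpleGraph W), Kq k Γ ↔ Embeds G (host G ζ Γ) := by
  obtain ⟨w1, hw1⟩ := hG 2
  obtain ⟨w2, hw2⟩ := hT k
  have h3 : ∀ r, ∃ w3 : ℕ, 5 ≤ r → 2 ≤ k → ∀ {V : Type} [Finite V]
      (G : SimpleGraph V), (∀ v, dg G v = r) → ¬ TreeWidthLE G w3 →
        ∃ ζ : V → ZB, ∀ {W : Type} (Γ : SimpleGraph W), Kq k Γ ↔ Embeds G (host G ζ Γ) := by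
    intro r
    by_cases h : 5 ≤ r ∧ 2 ≤ k
    · obtain ⟨w3, hw3⟩ := hR r k h.1 h.2
      exact ⟨w3, fun _ _ => hw3⟩
    · exact ⟨0, fun h1 h2 => absurd ⟨h1, h2⟩ h⟩
  choose w3 hw3 using h3
  refine ⟨w1 + w2 + ∑ r ∈ Finset.range (d + 1), w3 r, fun {V} _ G hr hw => ?_⟩
  obtain ⟨r, hrd, hr⟩ := hr
  rcases Nat.lt_or_ge k 2 with hk | hk
  · rcases Nat.eq_zero_or_pos k with rfl | hk0
    · refine ⟨fun _ => .pin, fun {W} Γ => ⟨fun _ => ⟨fun v => (v, (none, none)), ?_, ?_⟩,
        fun _ => ⟨fun i => i.elim0, fun i => i.elim0⟩⟩⟩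
      · intro a b h
        exact (Prod.ext_iff.1 h).1
      · intro x y h
        exact ⟨h, rfl, rfl, trivial⟩
    · obtain rfl : k = 1 := by omega
      obtain ⟨B, hB⟩ := hw1 G fun h => hw (tw_mono (by omega) h)
      obtain ⟨a, -, b, -, hab⟩ := hB.hor 0 0 (by norm_num) (by norm_num)
      exact hK G ⟨a, b, hab⟩
  · rcases Nat.lt_or_ge r 5 with h5 | h5
    · refine hw2 G r (fun v _ => ?_) fun h => hw (tw_mono (by omega) (tw_induce (thin_reg hr) h))
      refine (Set.ncard_le_ncard_of_injOn id (fun x hx => hx.1) (fun _ _ _ _ h => h)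
        (Set.toFinite _) : _ ≤ (G.neighborSet v).ncard).trans ?_
      have : (G.neighborSet v).ncard = r := hr v
      omega
    · refine hw3 r h5 hk G hr fun h => hw (tw_mono ?_ h)
      have : w3 r ≤ ∑ r ∈ Finset.range (d + 1), w3 r :=
        Finset.single_le_sum (f := w3) (fun _ _ => Nat.zero_le _) (Finset.mem_range.2 (by omega))
      omega

theorem MainReg (hB : PB) (hT : PThinSem) (hR : PRegSem) (hG : PGr) (hK : PK1)
    (d : ℕ) (C : Code → Prop) (hC : ComputablePred C) (hfat : RegFat d C) :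
    FptReducible Clique cliqueParam (Emb C) embParam := by
  refine hB C hC fun k => ?_
  obtain ⟨w, hw⟩ := RegAll hT hR hG hK d k
  obtain ⟨A, hA, hr, htw⟩ := hfat w
  obtain ⟨ζ, hζ⟩ := hw (graph A) hr htw
  exact ⟨A, hA, ζ, fun n Γ => hζ Γ⟩

end Pool.Agent.PReg

end

section

/-!
# P0: neighbours in the pattern
-/

set_option autoImplicit false

namespace Pool.Agent.PReg

open Pool.Agent.PEmb

namespace ItP0

variable {k : ℕ} {P : Par}

/-- neighbours of a vertex of a cycle -/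
lemma nb_core {i j s : ℕ} {y : Lab} (hs : s < P.z i j) (h : AAdj k P (.core i j s) y) :
    y = .core i j ((s + 1) % P.z i j) ∨ y = .core i j ((s + P.z i j - 1) % P.z i j) ∨
      (∃ o, s = P.r i j (ro o) ∧ y = .leg o i j 1) ∨
      (∃ o a b, (nx o a b).1 = i ∧ (nx o a b).2 = j ∧ s = P.r i j (ri o) ∧
        y = .leg o a b (P.l o a b - 1)) := by
  rcases h with h | h
  · cases h with
    | cyc _ _ _ hi hj hs' =>
      left
      rw [Nat.mod_eq_of_lt hs']
    | close _ _ hi hj =>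
      left
      rw [show P.z i j - 1 + 1 = P.z i j by omega, Nat.mod_self]
    | out o _ _ hx =>
      right; right; left
      exact ⟨o, rfl, rfl⟩
  · cases h with
    | cyc _ _ s' hi hj hs' =>
      right; left
      rw [show s' + 1 + P.z i j - 1 = s' + P.z i j by omega, Nat.add_mod_right,
        Nat.mod_eq_of_lt (by omega)]
    | close _ _ hi hj =>
      right; left
      rw [show 0 + P.z i j - 1 = P.z i j - 1 by omega, Nat.mod_eq_of_lt (by omega)]
    | inn o a b hx =>
      right; right; right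
      exact ⟨o, a, b, rfl, rfl, rfl, rfl⟩

/-- neighbours of a vertex of a leg -/
lemma nb_leg (hA : Adm k P) {o : Bool} {i j s : ℕ} {y : Lab} (h : AAdj k P (.leg o i j s) y) :
    y = (if s = 1 then .core i j (P.r i j (ro o)) else .leg o i j (s - 1)) ∨
      y = (if s + 1 = P.l o i j then
        .core (nx o i j).1 (nx o i j).2 (P.r (nx o i j).1 (nx o i j).2 (ri o))
        else .leg o i j (s + 1)) := by
  have hv := (ItRC.adj_vx hA h).1
  obtain ⟨hex, h1, h2⟩ := hv
  have hl := ItR7.lge hA hex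
  rcases h with h | h
  · cases h with
    | step _ _ _ _ _ _ hl' =>
      right
      rw [if_neg (by omega)]
    | inn _ _ _ hx =>
      right
      rw [if_pos (by omega)]
  · cases h with
    | step _ _ _ s' _ _ hl' =>
      left
      rw [if_neg (by omega)]
      rfl
    | out _ _ _ hx =>
      left
      rw [if_pos rfl]

lemma adj_prev {o : Bool} {i j s : ℕ} (hex : Ex k o i j) (h1 : 1 ≤ s) (h2 : s < P.l o i j) :
    AAdj k P (.leg o i j s)
      (if s = 1 then .core i j (P.r i j (ro o)) else .leg o i j (s - 1)) := by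
  split_ifs with h
  · subst h
    exact Or.inr (AE.out o i j hex)
  · have h3 := AE.step (P := P) o i j (s - 1) hex (by omega) (by omega)
    rw [show s - 1 + 1 = s by omega] at h3
    exact Or.inr h3

lemma adj_next {o : Bool} {i j s : ℕ} (hex : Ex k o i j) (h1 : 1 ≤ s) (h2 : s < P.l o i j) :
    AAdj k P (.leg o i j s)
      (if s + 1 = P.l o i j then
        .core (nx o i j).1 (nx o i j).2 (P.r (nx o i j).1 (nx o i j).2 (ri o))
        else .leg o i j (s + 1)) := by
  split_ifs with h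
  · have h3 := AE.inn (P := P) o i j hex
    rw [show P.l o i j - 1 = s by omega] at h3
    exact Or.inl h3
  · exact Or.inl (AE.step o i j s hex h1 (by omega))

end ItP0

open ItP0

/-- P0. -/
theorem P0 : PP0 := by
  intro k P hA
  refine ⟨?_, ?_, ?_⟩
  · intro x y h
    refine ⟨(ItRC.adj_vx hA h).1, (ItRC.adj_vx hA h).2, ?_⟩
    have key : ∀ x y : Lab, AE k P x y → x ≠ y := by
      intro x y h
      cases h with
      | cyc i j s hi hj hs =>
        intro h
        injection h with _ _ h3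
        omega
      | close i j hi hj =>
        have hz := hA.z4 i j hi hj
        intro h
        injection h with _ _ h3
        omega
      | out o i j h => intro h'; cases h'
      | inn o i j h => intro h'; cases h'
      | step o i j s h hs hl =>
        intro h
        injection h with _ _ _ h3
        omega
    rcases h with h | h
    · exact key x y h
    · exact (key y x h).symm
  · intro x hx
    cases x with
    | core i j s =>
      obtain ⟨hi, hj, hs⟩ := hx
      refine ⟨_, _, ?_, ItRC.cyc_adj hA hi hj hs, ItRC.cyc_adj' hA hi hj hs⟩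
      intro h
      injection h with _ _ h3
      exact ItRC.succ_ne_pred hA hi hj hs h3
    | leg o i j s =>
      obtain ⟨hex, h1, h2⟩ := hx
      have hl := ItR7.lge hA hex
      refine ⟨_, _, ?_, adj_prev hex h1 h2, adj_next hex h1 h2⟩
      split_ifs with h3 h4
      · omega
      · simp
      · simp
      · intro h
        injection h with _ _ _ h5
        omega
  · intro x
    by_cases hx : Vx k P x
    · cases x with
      | core i j s =>
        obtain ⟨hi, hj, hs⟩ := hx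
        refine ⟨.core i j ((s + 1) % P.z i j), .core i j ((s + P.z i j - 1) % P.z i j),
          if s = P.r i j 0 then .leg false i j 1 else if s = P.r i j 2 then .leg true i j 1
            else if s = P.r i j 1 then .leg false i (j - 1) (P.l false i (j - 1) - 1)
              else .leg true (i - 1) j (P.l true (i - 1) j - 1), ?_⟩
        intro y hy
        rcases nb_core hs hy with h | h | h | h
        · exact Or.inl h
        · exact Or.inr (Or.inl h)
        · right; right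
          obtain ⟨o, h1, h2⟩ := h
          cases o
          · have h1 : s = P.r i j 0 := h1
            rw [if_pos h1]
            exact h2
          · have h1 : s = P.r i j 2 := h1
            have h3 : s ≠ P.r i j 0 := by
              intro h3
              have := hA.rinj i j 2 0 hi hj (by omega) (by omega) (h1.symm.trans h3)
              omega
            rw [if_neg h3, if_pos h1]
            exact h2
        · right; right
          obtain ⟨o, a, b, h1, h2, h3, h4⟩ := h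
          cases o
          · have h3 : s = P.r i j 1 := h3
            have e1 : a = i := h1
            have e2 : b + 1 = j := h2
            have h5 : s ≠ P.r i j 0 := by
              intro h5
              have := hA.rinj i j 1 0 hi hj (by omega) (by omega) (h3.symm.trans h5)
              omega
            have h6 : s ≠ P.r i j 2 := by
              intro h6
              have := hA.rinj i j 1 2 hi hj (by omega) (by omega) (h3.symm.trans h6)
              omega
            rw [if_neg h5, if_neg h6, if_pos h3, h4, e1, show j - 1 = b by omega]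
          · have h3 : s = P.r i j 3 := h3
            have e1 : a + 1 = i := h1
            have e2 : b = j := h2
            have h5 : s ≠ P.r i j 0 := by
              intro h5
              have := hA.rinj i j 3 0 hi hj (by omega) (by omega) (h3.symm.trans h5)
              omega
            have h6 : s ≠ P.r i j 2 := by
              intro h6
              have := hA.rinj i j 3 2 hi hj (by omega) (by omega) (h3.symm.trans h6)
              omega
            have h7 : s ≠ P.r i j 1 := by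
              intro h7
              have := hA.rinj i j 3 1 hi hj (by omega) (by omega) (h3.symm.trans h7)
              omega
            rw [if_neg h5, if_neg h6, if_neg h7, h4, e2, show i - 1 = a by omega]
      | leg o i j s =>
        exact ⟨if s = 1 then .core i j (P.r i j (ro o)) else .leg o i j (s - 1),
          if s + 1 = P.l o i j then
            .core (nx o i j).1 (nx o i j).2 (P.r (nx o i j).1 (nx o i j).2 (ri o))
            else .leg o i j (s + 1), .core 0 0 0, fun y hy =>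
          (nb_leg hA hy).elim Or.inl fun h => Or.inr (Or.inl h)⟩
    · exact ⟨x, x, x, fun y hy => absurd (ItRC.adj_vx hA hy).1 hx⟩

end Pool.Agent.PReg

end

section

/-!
# R1: twins far from multiple vertices
-/

set_option autoImplicit false

namespace Pool.Agent.PReg

open Pool.Agent.PEmb

namespace ItR1

variable {V W : Type}

theorem lift [Finite V] (d : ℕ) (G : SimpleGraph V) (f : V → V × (Option W × Option W))
    (hadj : ∀ x y, G.Adj x y → G.Adj (f x).1 (f y).1) (hd : ∀ v, dg G v = d) (b : V)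
    (hb : ∀ u, G.Adj (f b).1 u → ¬ Mul f u) (c : V) (hc : G.Adj (f b).1 c) :
    ∃ x, G.Adj b x ∧ (f x).1 = c := by
  have hinj : Set.InjOn (fun x => (f x).1) (G.neighborSet b) := by
    intro x hx y hy hxy
    by_contra hne
    exact hb (f x).1 (hadj b x hx) ⟨x, y, hne, rfl, hxy.symm⟩
  have hsub : (fun x => (f x).1) '' (G.neighborSet b) ⊆ G.neighborSet (f b).1 := by
    rintro _ ⟨x, hx, rfl⟩
    exact hadj b x hx
  have hcard : (G.neighborSet (f b).1).ncard ≤
      ((fun x => (f x).1) '' (G.neighborSet b)).ncard := by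
    rw [hinj.ncard_image]
    have h1 := hd (f b).1
    have h2 := hd b
    unfold dg at h1 h2
    omega
  have heq := Set.eq_of_subset_of_ncard_le hsub hcard (Set.toFinite _)
  have hc' : c ∈ (fun x => (f x).1) '' (G.neighborSet b) := by
    rw [heq]
    exact hc
  obtain ⟨x, hx, hxc⟩ := hc'
  exact ⟨x, hx, hxc⟩

end ItR1

theorem R1 : PR1 := by
  intro V W _ k d G zn Γ f hS hd h4 a hm hT v' hTw
  obtain ⟨hne, hcard⟩ := hTw
  have hadj : ∀ x y, G.Adj x y → G.Adj (f x).1 (f y).1 := fun x y h => (hS.adj x y h).1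
  have hb1 : ∀ u, G.Adj (f a).1 u → u ∈ ball G 1 (f a).1 := by
    intro u hu
    right
    exact ⟨(f a).1, rfl, hu⟩
  have hb2 : ∀ u, G.Adj (f a).1 u → u ∈ ball G 2 (f a).1 := fun u hu => Or.inl (hb1 u hu)
  have hb3 : ∀ u w, G.Adj (f a).1 u → G.Adj u w → w ∈ ball G 2 (f a).1 :=
    fun u w hu hw => Or.inr ⟨u, hb1 u hu, hw⟩
  have key : ∀ c, c ∈ G.neighborSet (f a).1 ∩ G.neighborSet v' →
      ∃ b a', G.Adj a b ∧ (f b).1 = c ∧ G.Adj b a' ∧ (f a').1 = v' := by
    rintro c ⟨hc1, hc2⟩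
    obtain ⟨b, hb, hbc⟩ := ItR1.lift d G f hadj hd a (fun u hu => hm u (hb2 u hu)) c hc1
    have hc1' : G.Adj (f a).1 (f b).1 := by rw [hbc]; exact hc1
    have hc2' : G.Adj (f b).1 v' := by rw [hbc]; exact SimpleGraph.Adj.symm hc2
    obtain ⟨a', ha', hav⟩ := ItR1.lift d G f hadj hd b
      (fun u hu => hm u (hb3 (f b).1 u hc1' hu)) v' hc2'
    exact ⟨b, a', hb, hbc, ha', hav⟩
  have hpos : 0 < (G.neighborSet (f a).1 ∩ G.neighborSet v').ncard := by omega
  obtain ⟨c0, hc0⟩ := (Set.ncard_pos (Set.toFinite _)).1 hpos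
  obtain ⟨b0, a', hb0, hbc0, hba0, hav0⟩ := key c0 hc0
  have hv' : ¬ Mul f v' := by
    refine hm v' (hb3 c0 v' hc0.1 (SimpleGraph.Adj.symm hc0.2))
  refine hT a' ⟨?_, ?_⟩
  · rintro rfl
    exact hne hav0
  · have hsub : G.neighborSet (f a).1 ∩ G.neighborSet v' ⊆
        (fun x => (f x).1) '' (G.neighborSet a ∩ G.neighborSet a') := by
      intro c hc
      obtain ⟨b, a'', hb, hbc, hba, hav⟩ := key c hc
      have haa : a'' = a' := by
        by_contra hcon
        exact hv' ⟨a'', a', hcon, hav, hav0⟩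
      subst haa
      exact ⟨b, ⟨hb, hba.symm⟩, hbc⟩
    have h1 := Set.ncard_le_ncard hsub (Set.toFinite _)
    have h2 := Set.ncard_image_le (f := fun x => (f x).1)
      (s := G.neighborSet a ∩ G.neighborSet a') (Set.toFinite _)
    omega

end Pool.Agent.PReg

end

section

/-!
# R2: two vertices over the same vertex of a cell are twins
-/

set_option autoImplicit false

namespace Pool.Agent.PReg

open Pool.Agent.PEmb

namespace ItR2

variable {V W : Type}

theorem pin_val {k δ Δ : ℕ} {G : SimpleGraph V} {zn : V → Zn}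
    {Γ : SimpleGraph W} {X : Set V} {f : V → V × (Option W × Option W)}
    (h : Sit k δ Δ G zn Γ X f) (a b : V) (hab : G.Adj a b) (hb : zn (f b).1 = Zn.pin) :
    (f b).2 = (none, none) := by
  have h1 : okz Γ (zb (zn (f b).1)) (f b).2 := (h.adj a b hab).2.2.1
  rw [hb] at h1
  exact h1

end ItR2

open ItR2 in
theorem R2 (hA1 : PA1) : PR2 := by
  intro V W _ k d G zn Γ f h hd a a' i j haa hf hz h2
  refine ⟨haa, ?_⟩
  set v := (f a).1 with hv
  have hsub : {s | G.Adj v s ∧ zn s = Zn.pin} ⊆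
      (fun b => (f b).1) '' (G.neighborSet a ∩ G.neighborSet a') := by
    rintro s ⟨hs, hsp⟩
    obtain ⟨b, _, hab, hb⟩ := hA1 k d d G zn Γ Set.univ f h a (Set.mem_univ _) i j hz s hs
    obtain ⟨b', _, hab', hb'⟩ := hA1 k d d G zn Γ Set.univ f h a' (Set.mem_univ _) i j
      (by rw [← hf]; exact hz) s (by rw [← hf]; exact hs)
    have e1 := pin_val h a b hab (by rw [hb]; exact hsp)
    have e2 := pin_val h a' b' hab' (by rw [hb']; exact hsp)
    have e3 : b = b' := h.inj (Prod.ext (hb.trans hb'.symm) (e1.trans e2.symm))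
    subst e3
    exact ⟨b, ⟨hab, hab'⟩, hb⟩
  have hunion : G.neighborSet v = {s | G.Adj v s ∧ zn s = Zn.pin} ∪
      {s | G.Adj v s ∧ zn s ≠ Zn.pin} := by
    ext s
    simp only [SimpleGraph.mem_neighborSet, Set.mem_union, Set.mem_setOf_eq]
    tauto
  have h3 : d ≤ {s | G.Adj v s ∧ zn s = Zn.pin}.ncard +
      {s | G.Adj v s ∧ zn s ≠ Zn.pin}.ncard := by
    have h4 := hd v
    unfold dg at h4
    rw [hunion] at h4
    rw [← h4]
    exact Set.ncard_union_le _ _
  have h5 : {s | G.Adj v s ∧ zn s = Zn.pin}.ncard ≤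
      (G.neighborSet a ∩ G.neighborSet a').ncard :=
    (Set.ncard_le_ncard hsub (Set.toFinite _)).trans (Set.ncard_image_le (Set.toFinite _))
  omega

end Pool.Agent.PReg

end

section

/-!
# R3: the number of vertices over one vertex
-/

set_option autoImplicit false

namespace Pool.Agent.PReg

open Pool.Agent.PEmb

namespace ItR3

variable {V W : Type}

theorem exists_adj {k d : ℕ} {G : SimpleGraph V} {zn : V → Zn}
    {Γ : SimpleGraph W} {f : V → V × (Option W × Option W)}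
    (h : Sit k d d G zn Γ Set.univ f) (a : V) : ∃ b, G.Adj a b := by
  have h1 := h.lo a (Set.mem_univ a)
  have h2 := h.pos
  have h3 : (G.neighborSet a ∩ Set.univ).ncard ≠ 0 := by omega
  obtain ⟨b, hb⟩ := Set.nonempty_of_ncard_ne_zero h3
  exact ⟨b, hb.1⟩

theorem pin_val {k d : ℕ} {G : SimpleGraph V} {zn : V → Zn}
    {Γ : SimpleGraph W} {f : V → V × (Option W × Option W)}
    (h : Sit k d d G zn Γ Set.univ f) (a : V) (ha : zn (f a).1 = .pin) :
    (f a).2 = (none, none) := by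
  obtain ⟨b, hb⟩ := exists_adj h a
  have h1 : okz Γ (zb (zn (f a).1)) (f a).2 := (h.adj a b hb).2.1
  rw [ha] at h1
  exact h1

theorem pin_uni {k d : ℕ} {G : SimpleGraph V} {zn : V → Zn}
    {Γ : SimpleGraph W} {f : V → V × (Option W × Option W)}
    (h : Sit k d d G zn Γ Set.univ f) (a a' : V) (ha : zn (f a).1 = .pin)
    (haa : (f a).1 = (f a').1) : a = a' := by
  apply h.inj
  exact Prod.ext haa (by rw [pin_val h a ha, pin_val h a' (by rw [← haa]; exact ha)])

theorem ncard_le [Finite V] (s : Set V) (t : V → Set V) (n : ℕ)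
    (h : ∀ x ∈ s, (t x).ncard ≤ n) : {y | ∃ x ∈ s, y ∈ t x}.ncard ≤ s.ncard * n := by
  classical
  have := Fintype.ofFinite V
  have h1 : {y | ∃ x ∈ s, y ∈ t x} =
      ((s.toFinset.biUnion fun x => (t x).toFinset : Finset V) : Set V) := by
    ext y
    simp
  rw [h1, Set.ncard_coe_finset, Set.ncard_eq_toFinset_card' s]
  apply Finset.card_biUnion_le_card_mul
  intro x hx
  rw [← Set.ncard_eq_toFinset_card']
  exact h x (by simpa using hx)

end ItR3

theorem R3 (hA1 : PA1) : PR3 := by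
  intro V W _ k d G zn Γ f h hd hd4 h3 v
  -- pinned
  have hpin : ∀ v, zn v = .pin → {a | (f a).1 = v}.ncard ≤ d := by
    intro v hv
    have h1 : {a | (f a).1 = v}.ncard ≤ 1 := by
      rw [Set.ncard_le_one (Set.toFinite _)]
      intro a ha b hb
      have ha' : (f a).1 = v := ha
      have hb' : (f b).1 = v := hb
      exact ItR3.pin_uni h a b (by rw [ha']; exact hv) (by rw [ha', hb'])
    omega
  -- cells
  have hcell : ∀ v i j, zn v = .cell i j → {a | (f a).1 = v}.ncard ≤ d := by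
    intro v i j hv
    have hvp : zn v ≠ .pin := by rw [hv]; simp
    obtain ⟨s, hs1, hs2⟩ : ∃ s, G.Adj v s ∧ zn s = .pin := by
      by_contra hcon
      push Not at hcon
      have h1 : G.neighborSet v ⊆ {u | G.Adj v u ∧ zn u ≠ .pin} := fun u hu => ⟨hu, hcon u hu⟩
      have h2 := Set.ncard_le_ncard h1 (Set.toFinite _)
      have h4 : (G.neighborSet v).ncard = d := hd v
      have h5 := h3 v hvp
      omega
    rcases Set.eq_empty_or_nonempty {a | (f a).1 = v} with he | ⟨a0, ha0⟩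
    · rw [he, Set.ncard_empty]
      omega
    · have ha0' : (f a0).1 = v := ha0
      obtain ⟨b0, -, hb1, hb2⟩ := hA1 k d d G zn Γ Set.univ f h a0 (Set.mem_univ _) i j
        (by rw [ha0']; exact hv) s (by rw [ha0']; exact hs1)
      have hsub : {a | (f a).1 = v} ⊆ G.neighborSet b0 := by
        intro a ha
        have ha' : (f a).1 = v := ha
        obtain ⟨b, -, hb3, hb4⟩ := hA1 k d d G zn Γ Set.univ f h a (Set.mem_univ _) i j
          (by rw [ha']; exact hv) s (by rw [ha']; exact hs1)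
        have hbb : b = b0 := ItR3.pin_uni h b b0 (by rw [hb4]; exact hs2) (by rw [hb4, hb2])
        rw [← hbb]
        exact hb3.symm
      have h1 := Set.ncard_le_ncard hsub (Set.toFinite _)
      have h4 : (G.neighborSet b0).ncard = d := hd b0
      omega
  have hdd : d ≤ d ^ 3 := Nat.le_self_pow (by norm_num) d
  match hv : zn v with
  | .pin => exact (hpin v hv).trans hdd
  | .cell i j => exact (hcell v i j hv).trans hdd
  | .port o i j =>
    have hvp : zn v ≠ .pin := by rw [hv]; simp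
    -- every preimage has a neighbour over a cell or a pinned vertex
    have key : ∀ a, (f a).1 = v → ∃ b, G.Adj a b ∧ G.Adj v (f b).1 ∧
        ∀ o' i' j', zn (f b).1 ≠ .port o' i' j' := by
      intro a ha
      by_contra hcon
      push Not at hcon
      have hall : ∀ b, G.Adj a b → ∃ o' i' j', zn (f b).1 = .port o' i' j' := by
        intro b hb
        refine hcon b hb ?_
        rw [← ha]
        exact (h.adj a b hb).1
      have hval : ∀ b, G.Adj a b → (f b).2 = (f a).2 := by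
        intro b hb
        obtain ⟨o', i', j', hz⟩ := hall b hb
        have h1 : cmp (zb (zn (f a).1)) (zb (zn (f b).1)) (f a).2 (f b).2 := (h.adj a b hb).2.2.2
        rw [ha, hv, hz] at h1
        simp only [zb, cmp] at h1
        exact h1.symm
      have hinj : Set.InjOn (fun b => (f b).1) (G.neighborSet a) := by
        intro b hb c hc hbc
        exact h.inj (Prod.ext hbc (by rw [hval b hb, hval c hc]))
      have h1 : (fun b => (f b).1) '' (G.neighborSet a) ⊆ {u | G.Adj v u ∧ zn u ≠ .pin} := by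
        rintro u ⟨b, hb, rfl⟩
        obtain ⟨o', i', j', hz⟩ := hall b hb
        refine ⟨?_, by rw [hz]; simp⟩
        rw [← ha]
        exact (h.adj a b hb).1
      have h2 := Set.ncard_le_ncard h1 (Set.toFinite _)
      rw [hinj.ncard_image] at h2
      have h4 : (G.neighborSet a).ncard = d := hd a
      have h5 := h3 v hvp
      omega
    set A : Set V := {c | G.Adj v c ∧ ∀ o' i' j', zn c ≠ .port o' i' j'} with hA
    set B : Set V := {b | ∃ c ∈ A, b ∈ {b | (f b).1 = c}} with hB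
    have hAc : A.ncard ≤ d := by
      have h1 : A ⊆ G.neighborSet v := fun c hc => hc.1
      have h2 := Set.ncard_le_ncard h1 (Set.toFinite _)
      have h4 : (G.neighborSet v).ncard = d := hd v
      omega
    have hBc : B.ncard ≤ d * d := by
      refine (ItR3.ncard_le A (fun c => {b | (f b).1 = c}) d ?_).trans
        (Nat.mul_le_mul_right d hAc)
      intro c hc
      match hz : zn c with
      | .pin => exact hpin c hz
      | .cell i' j' => exact hcell c i' j' hz
      | .port o' i' j' => exact absurd hz (hc.2 o' i' j')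
    have hsub : {a | (f a).1 = v} ⊆ {a | ∃ b ∈ B, a ∈ G.neighborSet b} := by
      intro a ha
      obtain ⟨b, hb1, hb2, hb3⟩ := key a ha
      exact ⟨b, ⟨(f b).1, ⟨hb2, hb3⟩, rfl⟩, hb1.symm⟩
    have h1 := Set.ncard_le_ncard hsub (Set.toFinite _)
    have h2 := ItR3.ncard_le B (fun b => G.neighborSet b) d (fun b _ => le_of_eq (hd b))
    calc _ ≤ _ := h1
      _ ≤ _ := h2
      _ ≤ d * d * d := Nat.mul_le_mul_right d hBc
      _ = d ^ 3 := by ring

end Pool.Agent.PReg

end

section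

/-!
# R4: a port which is used more than once is next to a cell with two values
-/

set_option autoImplicit false

namespace Pool.Agent.PReg

open Pool.Agent.PEmb

namespace ItR4

variable {V W : Type}

/-- The first (horizontal port) or second (vertical port) coordinate. -/
def co (o : Bool) (p : Option W × Option W) : Option W := if o then p.2 else p.1

lemma co_diag (o : Bool) (p q : Option W × Option W) (hp : ∃ u, p = (some u, some u))
    (hq : ∃ u, q = (some u, some u)) (h : co o p = co o q) : p = q := by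
  obtain ⟨u, rfl⟩ := hp
  obtain ⟨v, rfl⟩ := hq
  rcases o with _ | _ <;> · simp [co] at h; rw [h]

lemma cmp_port (o : Bool) (i j : ℕ) (p q : Option W × Option W)
    (h : cmp (zb (.port o i j)) (zb (.cell i j)) p q) : co o p = co o q := by
  by_cases hij : i = j
  · rcases o with _ | _ <;> simpa [zb, hij, cmp, co] using h
  · rcases o with _ | _ <;> simpa [zb, hij, cmp, co] using h

lemma cmp_pp (o : Bool) (i j : ℕ) (p q : Option W × Option W)
    (h : cmp (zb (.port o i j)) (zb (.port o i j)) p q) : p = q := by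
  rcases o with _ | _ <;> simpa [zb, cmp] using h

lemma ok {k δ Δ : ℕ} {G : SimpleGraph V} {zn : V → Zn} {Γ : SimpleGraph W}
    {f : V → V × (Option W × Option W)} (h : Sit k δ Δ G zn Γ Set.univ f) (a : V) :
    okz Γ (zb (zn (f a).1)) (f a).2 := by
  have h1 := h.lo a (Set.mem_univ a)
  have h2 : (G.neighborSet a ∩ Set.univ).ncard ≠ 0 := by have := h.pos; omega
  obtain ⟨b, hb⟩ := Set.nonempty_of_ncard_ne_zero h2
  exact (h.adj a b hb.1).2.1

lemma full [Finite V] {k δ Δ : ℕ} {G : SimpleGraph V} {zn : V → Zn} {Γ : SimpleGraph W}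
    {f : V → V × (Option W × Option W)} (S : Sit k δ Δ G zn Γ Set.univ f) {o : Bool} {i j : ℕ}
    (hd1 : ¬ Dbl zn f i j) (hd2 : ¬ Dbl zn f (nx o i j).1 (nx o i j).2) (a : V)
    (hz : zn (f a).1 = .port o i j) (c : V) (hc : G.Adj (f a).1 c) :
    ∃ b, G.Adj a b ∧ (f b).1 = c := by
  have hne : zn (f a).1 ≠ .pin := by rw [hz]; exact fun h => by cases h
  set N : Set V := G.neighborSet a ∩ Set.univ with hN
  have hmem : ∀ b ∈ N, (host G (fun v => zb (zn v)) Γ).Adj (f a) (f b) := fun b hb =>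
    S.adj a b hb.1
  have hinj : Set.InjOn (fun b => (f b).1) N := by
    intro b hb b' hb' hbb
    have hbb : (f b).1 = (f b').1 := hbb
    have h1 := hmem b hb
    have h2 := hmem b' hb'
    obtain ⟨ad1, -, ok1, cm1⟩ := h1
    obtain ⟨-, -, ok2, cm2⟩ := h2
    have hval : (f b).2 = (f b').2 := by
      rcases hzb : zn (f b).1 with _ | ⟨i', j'⟩ | ⟨o', i', j'⟩
      · have hzb' : zn (f b').1 = .pin := by rw [← hbb]; exact hzb
        simp only [hzb, zb, okz] at ok1
        simp only [hzb', zb, okz] at ok2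
        rw [ok1, ok2]
      · have hzb' : zn (f b').1 = .cell i' j' := by rw [← hbb]; exact hzb
        by_contra hcon
        rcases S.lay.cp (f a).1 (f b).1 o i j i' j' ad1 hz hzb with h3 | h3
        · rw [Prod.mk.injEq] at h3
          obtain ⟨rfl, rfl⟩ := h3
          exact hd1 ⟨b, b', hzb, hzb', hcon⟩
        · rw [← h3] at hd2
          exact hd2 ⟨b, b', hzb, hzb', hcon⟩
      · have hzb' : zn (f b').1 = .port o' i' j' := by rw [← hbb]; exact hzb
        simp only [hz, hzb, zb, cmp] at cm1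
        simp only [hz, hzb', zb, cmp] at cm2
        rw [← cm1, ← cm2]
    exact S.inj (Prod.ext hbb hval)
  have hsub : (fun b => (f b).1) '' N ⊆ G.neighborSet (f a).1 := by
    rintro _ ⟨b, hb, rfl⟩
    exact (hmem b hb).1
  have hcard : (G.neighborSet (f a).1).ncard ≤ ((fun b => (f b).1) '' N).ncard := by
    rw [Set.ncard_image_of_injOn hinj]
    have h1 : (G.neighborSet (f a).1).ncard = δ := S.deg _ hne
    rw [h1]
    exact S.lo a (Set.mem_univ a)
  have heq : (fun b => (f b).1) '' N = G.neighborSet (f a).1 :=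
    Set.eq_of_subset_of_ncard_le hsub hcard (Set.toFinite _)
  have hc' : c ∈ (fun b => (f b).1) '' N := by rw [heq]; exact hc
  obtain ⟨b, hb, hbc⟩ := hc'
  exact ⟨b, hb.1, hbc⟩

lemma walk [Finite V] {k δ Δ : ℕ} {G : SimpleGraph V} {zn : V → Zn} {Γ : SimpleGraph W}
    {f : V → V × (Option W × Option W)} (h : Sit k δ Δ G zn Γ Set.univ f)
    {o : Bool} {i j : ℕ}
    (hd1 : ¬ Dbl zn f i j) (hd2 : ¬ Dbl zn f (nx o i j).1 (nx o i j).2) {a : V}
    (hz : zn (f a).1 = .port o i j) {u v : V} (huv : G.Adj u v) (hu : zn u = .port o i j)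
    (hv : zn v = .cell i j) : ∃ b, (f b).1 = v ∧ co o (f a).2 = co o (f b).2 := by
  have h3 := full h hd1 hd2
  have hEx : Ex k o i j := h.lay.rp _ _ _ _ hz
  have hconn := h.lay.port o i j hEx
  have hr : (G.induce {v | zn v = .port o i j}).Reachable ⟨(f a).1, hz⟩ ⟨u, hu⟩ :=
    hconn.preconnected _ _
  have key : ∀ w : {v | zn v = .port o i j},
      (G.induce {v | zn v = .port o i j}).Reachable ⟨(f a).1, hz⟩ w →
        ∃ a2, (f a2).1 = w.1 ∧ (f a2).2 = (f a).2 := by
    intro w hw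
    rw [SimpleGraph.reachable_iff_reflTransGen] at hw
    induction hw with
    | refl => exact ⟨a, rfl, rfl⟩
    | @tail w1 w2 _ hst ih =>
      obtain ⟨a2, h21, h22⟩ := ih
      have hadj : G.Adj w1.1 w2.1 := hst
      have hz2 : zn (f a2).1 = .port o i j := by rw [h21]; exact w1.2
      obtain ⟨b, hab, hfb⟩ := h3 a2 hz2 w2.1 (by rw [h21]; exact hadj)
      refine ⟨b, hfb, ?_⟩
      have hh := (h.adj a2 b hab).2.2.2
      simp only at hh
      rw [hz2, hfb, show zn w2.1 = .port o i j from w2.2] at hh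
      rw [← h22]
      exact (cmp_pp o i j _ _ hh).symm
  obtain ⟨a2, h21, h22⟩ := key _ hr
  simp only at h21
  have hz2 : zn (f a2).1 = .port o i j := by rw [h21]; exact hu
  obtain ⟨b, hab, hfb⟩ := h3 a2 hz2 v (by rw [h21]; exact huv)
  refine ⟨b, hfb, ?_⟩
  have hh := (h.adj a2 b hab).2.2.2
  simp only at hh
  rw [hz2, hfb, hv] at hh
  rw [← h22]
  exact cmp_port o i j _ _ hh

end ItR4

open ItR4 in
theorem R4 : PR4 := by
  intro V W _ k d G zn Γ f S _ v o i j hv hM
  by_contra hcon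
  push Not at hcon
  obtain ⟨hd1, hd2⟩ := hcon
  obtain ⟨a, a', hne, ha, ha'⟩ := hM
  have hz : zn (f a).1 = .port o i j := by rw [ha]; exact hv
  have hz' : zn (f a').1 = .port o i j := by rw [ha']; exact hv
  have o1 := ok S a
  have o2 := ok S a'
  rw [hz] at o1
  rw [hz'] at o2
  simp only [zb, okz] at o1 o2
  obtain ⟨u, w, huw, hu, hw⟩ := S.lay.link o i j (S.lay.rp _ _ _ _ hz)
  obtain ⟨b, hfb, hco⟩ := walk S hd1 hd2 hz huw hu hw
  obtain ⟨b', hfb', hco'⟩ := walk S hd1 hd2 hz' huw hu hw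
  have hbb : (f b).2 = (f b').2 := by
    by_contra hcon
    exact hd1 ⟨b, b', by rw [hfb]; exact hw, by rw [hfb']; exact hw, hcon⟩
  have h5 : (f a).2 = (f a').2 := co_diag o _ _ o1 o2 (by rw [hco, hco', hbb])
  exact hne (S.inj (Prod.ext (by rw [ha, ha']) h5))

end Pool.Agent.PReg

end
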