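import Pool.Agent.Work.MP_cfa43e_lc.Reg.Stmts
import Pool.Agent.Work.MP_cfa43e_lc.Bd.B02
import Pool.Agent.Work.MP_cfa43e_lc.Q9

/-! Bundle of small proof modules (one section per former module). -/

section

/-!
# The core is mapped into the core
-/

set_option autoImplicit false

namespace Pool.Agent.PReg

open Pool.Agent.PEmb

theorem A0 : PA0 := by
  intro V W _ k δ Δ G zn Γ X f hS a0 ha0
  have key : ∀ v ∈ X ∪ (fun a => (f a).1) '' X,
      δ ≤ (G.neighborSet v ∩ (X ∪ (fun a => (f a).1) '' X)).ncard := by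
    intro v hv
    by_cases hvX : v ∈ X
    · refine (hS.lo v hvX).trans (Set.ncard_le_ncard ?_ (Set.toFinite _))
      exact Set.inter_subset_inter_right _ Set.subset_union_left
    · rcases hv with hv | ⟨a, ha, rfl⟩
      · exact absurd hv hvX
      · have hpin (b : V) (hb : G.Adj a b) : (f b).2 = (none, none) := by
          have h := hS.adj a b hb
          have hz : zn (f b).1 = .pin := by
            by_contra hne
            exact hvX (hS.nb _ _ hne h.1.symm)
          have h2 := h.2.2.1
          simp only [hz, zb, okz] at h2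
          exact h2
        refine (hS.lo a ha).trans (Set.ncard_le_ncard_of_injOn (fun b => (f b).1) ?_ ?_
          (Set.toFinite _))
        · rintro b ⟨hb, hbX⟩
          exact ⟨(hS.adj a b hb).1, Or.inr ⟨b, hbX, rfl⟩⟩
        · rintro b ⟨hb, _⟩ b' ⟨hb', _⟩ hbb
          exact hS.inj (Prod.ext hbb ((hpin b hb).trans (hpin b' hb').symm))
  exact hS.mx _ key (Or.inr ⟨a0, ha0, rfl⟩)

end Pool.Agent.PReg

end

section

/-!
# Item A1: a vertex mapped into a cell uses all neighbours
-/

set_option autoImplicit false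

namespace Pool.Agent.PReg

open Pool.Agent.PEmb

namespace ItA1

variable {W : Type}

theorem val_eq (Γ : SimpleGraph W) (e z : ZB) (he : e = .diag ∨ e = .off)
    (x p p' : Option W × Option W) (h1 : okz Γ z p) (h2 : okz Γ z p') (h3 : cmp e z x p)
    (h4 : cmp e z x p') : p = p' := by
  rcases he with rfl | rfl <;> rcases z with _ | _ | _ | (_ | _)
  · simp only [okz] at h1 h2; rw [h1, h2]
  · simp only [cmp] at h3 h4; rw [← h3, ← h4]
  · simp only [cmp] at h3 h4; rw [← h3, ← h4]
  · simp only [cmp] at h3 h4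
    obtain ⟨u, hu⟩ := h1
    obtain ⟨u', hu'⟩ := h2
    rw [hu] at h3
    rw [hu'] at h4
    have h5 : some u = some u' := h3.symm.trans h4
    rw [hu, hu', h5]
  · simp only [cmp] at h3 h4
    obtain ⟨u, hu⟩ := h1
    obtain ⟨u', hu'⟩ := h2
    rw [hu] at h3
    rw [hu'] at h4
    have h5 : some u = some u' := h3.symm.trans h4
    rw [hu, hu', h5]
  · simp only [okz] at h1 h2; rw [h1, h2]
  · simp only [cmp] at h3 h4; rw [← h3, ← h4]
  · simp only [cmp] at h3 h4; rw [← h3, ← h4]
  · simp only [cmp] at h3 h4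
    obtain ⟨u, hu⟩ := h1
    obtain ⟨u', hu'⟩ := h2
    rw [hu] at h3
    rw [hu'] at h4
    have h5 : some u = some u' := h3.symm.trans h4
    rw [hu, hu', h5]
  · simp only [cmp] at h3 h4
    obtain ⟨u, hu⟩ := h1
    obtain ⟨u', hu'⟩ := h2
    rw [hu] at h3
    rw [hu'] at h4
    have h5 : some u = some u' := h3.symm.trans h4
    rw [hu, hu', h5]

end ItA1

theorem A1 : PA1 := by
  intro V W _ k δ Δ G zn Γ X f S a ha i j hz c hc
  have hnp : zn (f a).1 ≠ .pin := by rw [hz]; simp
  have he : zb (zn (f a).1) = .diag ∨ zb (zn (f a).1) = .off := by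
    rw [hz]
    by_cases hij : i = j
    · left; simp [zb, hij]
    · right; simp [zb, hij]
  have hmap : (fun b => (f b).1) '' (G.neighborSet a ∩ X) ⊆ G.neighborSet (f a).1 := by
    rintro _ ⟨b, hb, rfl⟩
    exact (S.adj a b hb.1).1
  have hinj : Set.InjOn (fun b => (f b).1) (G.neighborSet a ∩ X) := by
    intro b hb b' hb' h
    have h' : (f b).1 = (f b').1 := h
    have h1 := S.adj a b hb.1
    have h2 := S.adj a b' hb'.1
    have h3 : okz Γ (zb (zn (f b).1)) (f b).2 := h1.2.2.1
    have h4 : cmp (zb (zn (f a).1)) (zb (zn (f b).1)) (f a).2 (f b).2 := h1.2.2.2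
    have h5 : okz Γ (zb (zn (f b').1)) (f b').2 := h2.2.2.1
    have h6 : cmp (zb (zn (f a).1)) (zb (zn (f b').1)) (f a).2 (f b').2 := h2.2.2.2
    rw [h'] at h3 h4
    have h7 := ItA1.val_eq Γ _ _ he _ _ _ h3 h5 h4 h6
    exact S.inj (Prod.ext h' h7)
  have hcard : (G.neighborSet (f a).1).ncard ≤ ((fun b => (f b).1) '' (G.neighborSet a ∩ X)).ncard := by
    rw [hinj.ncard_image]
    have h1 : dg G (f a).1 = δ := S.deg _ hnp
    unfold dg at h1
    rw [h1]
    exact S.lo a ha
  have heq := Set.eq_of_subset_of_ncard_le hmap hcard (Set.toFinite _)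
  have hc' : c ∈ (fun b => (f b).1) '' (G.neighborSet a ∩ X) := by rw [heq]; exact hc
  obtain ⟨b, hb, hbc⟩ := hc'
  exact ⟨b, hb.2, hb.1, hbc⟩

end Pool.Agent.PReg

end

section

/-!
# A2: locked cells have at most one value
-/

set_option autoImplicit false

namespace Pool.Agent.PReg

open Pool.Agent.PEmb

namespace ItA2

variable {V W : Type}

theorem cmp_cell {i j : ℕ} {p q : Option W × Option W}
    (h : cmp (zb (.cell i j)) (zb (.cell i j)) p q) : p = q := by
  by_cases hij : i = j
  · simp only [zb, if_pos hij, cmp] at h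
    exact h
  · simp only [zb, if_neg hij, cmp] at h
    exact h

theorem walk_copy [Finite V] (hA1 : PA1) {k δ Δ : ℕ} {G : SimpleGraph V} {zn : V → Zn}
    {Γ : SimpleGraph W} {X : Set V} {f : V → V × (Option W × Option W)}
    (h : Sit k δ Δ G zn Γ X f) (i j : ℕ) (x : Option W × Option W)
    {u v : {v | zn v = Zn.cell i j}} (p : (G.induce {v | zn v = Zn.cell i j}).Walk u v) :
    (∃ b ∈ X, f b = (u.1, x)) → ∃ b ∈ X, f b = (v.1, x) := by
  induction p with
  | nil => exact id
  | @cons u w v hadj p ih =>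
    rintro ⟨b, hb, hfb⟩
    apply ih
    have hG : G.Adj u.1 w.1 := hadj
    have hu : zn (f b).1 = Zn.cell i j := by rw [hfb]; exact u.2
    obtain ⟨b', hb', hbb', hfb'⟩ := hA1 k δ Δ G zn Γ X f h b hb i j hu w.1 (by rw [hfb]; exact hG)
    have hh : cmp (zb (zn (f b).1)) (zb (zn (f b').1)) (f b).2 (f b').2 :=
      (h.adj b b' hbb').2.2.2
    rw [hu, show zn (f b').1 = Zn.cell i j by rw [hfb']; exact w.2] at hh
    have := cmp_cell hh
    refine ⟨b', hb', ?_⟩
    rw [← Prod.mk.eta (p := f b'), hfb', ← this, hfb]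

theorem copy [Finite V] (hA1 : PA1) {k δ Δ : ℕ} {G : SimpleGraph V} {zn : V → Zn}
    {Γ : SimpleGraph W} {X : Set V} {f : V → V × (Option W × Option W)}
    (h : Sit k δ Δ G zn Γ X f) (i j : ℕ) (a : V) (ha : a ∈ X)
    (hz : zn (f a).1 = Zn.cell i j) (c : V) (hc : zn c = Zn.cell i j) :
    ∃ b ∈ X, f b = (c, (f a).2) := by
  obtain ⟨hi, hj⟩ := h.lay.rc _ _ _ hz
  have hconn := h.lay.cell i j hi hj
  obtain ⟨p⟩ := hconn.preconnected ⟨(f a).1, hz⟩ ⟨c, hc⟩
  exact walk_copy hA1 h i j (f a).2 p ⟨a, ha, rfl⟩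

theorem lock [Finite V] (hA1 : PA1) {k δ Δ : ℕ} {G : SimpleGraph V} {zn : V → Zn}
    {Γ : SimpleGraph W} {X : Set V} {f : V → V × (Option W × Option W)}
    (h : Sit k δ Δ G zn Γ X f) (i j : ℕ) (z : V) (hz : zn z = Zn.pin) (b c : V) (hb : b ∈ X)
    (hc : G.Adj z c) (hcz : zn c = Zn.cell i j) (hbc : (f b).1 = c) :
    ∃ b1 ∈ X, G.Adj b b1 ∧ f b1 = (z, (none, none)) := by
  obtain ⟨b1, hb1, hbb1, hfb1⟩ := hA1 k δ Δ G zn Γ X f h b hb i j (by rw [hbc]; exact hcz) z
    (by rw [hbc]; exact hc.symm)
  refine ⟨b1, hb1, hbb1, ?_⟩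
  have hok : okz Γ (zb (zn (f b1).1)) (f b1).2 := (h.adj b b1 hbb1).2.2.1
  rw [hfb1, hz] at hok
  have : (f b1).2 = (none, none) := hok
  rw [← Prod.mk.eta (p := f b1), hfb1, this]

end ItA2

theorem A2 (hA1 : PA1) : PA2 := by
  intro V W _ k δ Δ G zn Γ X f h hL a ha a' ha' i j hz hz'
  by_contra hne
  obtain ⟨hi, hj⟩ := h.lay.rc _ _ _ hz
  obtain ⟨z, hzz, hΔ⟩ := hL i j hi hj
  set M : Set V := {v | G.Adj z v ∧ zn v = Zn.cell i j} with hM
  have hMfin : M.Finite := Set.toFinite M
  have hMne : M.Nonempty := by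
    by_contra hcon
    rw [Set.not_nonempty_iff_eq_empty] at hcon
    rw [hcon, Set.ncard_empty] at hΔ
    omega
  obtain ⟨c0, hc0⟩ := hMne
  obtain ⟨b0, hb0, hfb0⟩ := ItA2.copy hA1 h i j a ha hz c0 hc0.2
  obtain ⟨a0, ha0, -, hfa0⟩ := ItA2.lock hA1 h i j z hzz b0 c0 hb0 hc0.1 hc0.2 (by rw [hfb0])
  have key : ∀ y ∈ X, zn (f y).1 = Zn.cell i j → ∀ c ∈ M,
      (c, (f y).2) ∈ f '' (G.neighborSet a0 ∩ X) := by
    intro y hy hyz c hc
    obtain ⟨b, hb, hfb⟩ := ItA2.copy hA1 h i j y hy hyz c hc.2
    obtain ⟨b1, hb1, hbb1, hfb1⟩ := ItA2.lock hA1 h i j z hzz b c hb hc.1 hc.2 (by rw [hfb])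
    have he : b1 = a0 := h.inj (by rw [hfb1, hfa0])
    subst he
    exact ⟨b, ⟨hbb1.symm, hb⟩, hfb⟩
  have hsub : (fun c => (c, (f a).2)) '' M ∪ (fun c => (c, (f a').2)) '' M ⊆
      f '' (G.neighborSet a0 ∩ X) := by
    rintro q (⟨c, hc, rfl⟩ | ⟨c, hc, rfl⟩)
    · exact key a ha hz c hc
    · exact key a' ha' hz' c hc
  have hdisj : Disjoint ((fun c => (c, (f a).2)) '' M) ((fun c => (c, (f a').2)) '' M) := by
    rw [Set.disjoint_left]
    rintro q ⟨c, hc, rfl⟩ ⟨c', hc', hq⟩
    exact hne (congrArg Prod.snd hq).symm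
  have h1 : ((fun c => (c, (f a).2)) '' M).ncard = M.ncard :=
    Set.ncard_image_of_injective M (fun c c' hcc => congrArg Prod.fst hcc)
  have h2 : ((fun c => (c, (f a').2)) '' M).ncard = M.ncard :=
    Set.ncard_image_of_injective M (fun c c' hcc => congrArg Prod.fst hcc)
  have h3 := Set.ncard_union_eq hdisj (hMfin.image _) (hMfin.image _)
  have hNfin : (G.neighborSet a0 ∩ X).Finite := Set.toFinite _
  have h4 := Set.ncard_le_ncard hsub (hNfin.image f)
  have h5 := Set.ncard_image_le (f := f) hNfin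
  have h6 := h.hi a0 ha0
  omega

end Pool.Agent.PReg

end

section

/-!
# A3: a vertex mapped into a port uses all neighbours
-/

set_option autoImplicit false

namespace Pool.Agent.PReg

open Pool.Agent.PEmb

theorem A3 : PA3 := by
  intro V W _ k δ Δ G zn Γ X f S hU a ha o i j hz c hc
  have hne : zn (f a).1 ≠ .pin := by rw [hz]; exact fun h => by cases h
  set N : Set V := G.neighborSet a ∩ X with hN
  have hmem : ∀ b ∈ N, (host G (fun v => zb (zn v)) Γ).Adj (f a) (f b) := fun b hb =>
    S.adj a b hb.1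
  have hinj : Set.InjOn (fun b => (f b).1) N := by
    intro b hb b' hb' hbb
    have hbb : (f b).1 = (f b').1 := hbb
    have h1 := hmem b hb
    have h2 := hmem b' hb'
    obtain ⟨-, -, ok1, cm1⟩ := h1
    obtain ⟨-, -, ok2, cm2⟩ := h2
    have hval : (f b).2 = (f b').2 := by
      rcases hzb : zn (f b).1 with _ | ⟨i', j'⟩ | ⟨o', i', j'⟩
      · have hzb' : zn (f b').1 = .pin := by rw [← hbb]; exact hzb
        simp only [hzb, zb, okz] at ok1
        simp only [hzb', zb, okz] at ok2
        rw [ok1, ok2]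
      · exact hU b hb.2 b' hb'.2 i' j' hzb (by rw [← hbb]; exact hzb)
      · have hzb' : zn (f b').1 = .port o' i' j' := by rw [← hbb]; exact hzb
        simp only [hz, hzb, zb, cmp] at cm1
        simp only [hz, hzb', zb, cmp] at cm2
        rw [← cm1, ← cm2]
    exact S.inj (Prod.ext hbb hval)
  have hsub : (fun b => (f b).1) '' N ⊆ G.neighborSet (f a).1 := by
    rintro _ ⟨b, hb, rfl⟩
    exact (hmem b hb).1
  have hcard : (G.neighborSet (f a).1).ncard ≤ ((fun b => (f b).1) '' N).ncard := by
    rw [Set.ncard_image_of_injOn hinj]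
    have h1 : (G.neighborSet (f a).1).ncard = δ := S.deg _ hne
    rw [h1]
    exact S.lo a ha
  have heq : (fun b => (f b).1) '' N = G.neighborSet (f a).1 :=
    Set.eq_of_subset_of_ncard_le hsub hcard (Set.toFinite _)
  have hc' : c ∈ (fun b => (f b).1) '' N := by rw [heq]; exact hc
  obtain ⟨b, hb, hbc⟩ := hc'
  exact ⟨b, hb.2, hb.1, hbc⟩

end Pool.Agent.PReg

end

section

/-!
# A4: every vertex of the core is used
-/

set_option autoImplicit false

namespace Pool.Agent.PReg

open Pool.Agent.PEmb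

namespace ItA4

variable {V W : Type}

/-- The first (horizontal port) or second (vertical port) coordinate. -/
def co (o : Bool) (p : Option W × Option W) : Option W := if o then p.2 else p.1

lemma co_diag (o : Bool) (p q : Option W × Option W) (hp : ∃ u, p = (some u, some u))
    (hq : ∃ u, q = (some u, some u)) (h : co o p = co o q) : p = q := by
  obtain ⟨u, rfl⟩ := hp
  obtain ⟨v, rfl⟩ := hq
  rcases o with _ | _ <;> · simp [co] at h; rw [h]

lemma cmp_port (o : Bool) (i j : ℕ) (p q : Option W × Option W)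
    (h : cmp (zb (.port o i j)) (zb (.cell i j)) p q) : co o p = co o q := by
  by_cases hij : i = j
  · rcases o with _ | _ <;> simpa [zb, hij, cmp, co] using h
  · rcases o with _ | _ <;> simpa [zb, hij, cmp, co] using h

lemma cmp_pp (o : Bool) (i j : ℕ) (p q : Option W × Option W)
    (h : cmp (zb (.port o i j)) (zb (.port o i j)) p q) : p = q := by
  rcases o with _ | _ <;> simpa [zb, cmp] using h

lemma ok {k δ Δ : ℕ} {G : SimpleGraph V} {zn : V → Zn} {Γ : SimpleGraph W} {X : Set V}
    {f : V → V × (Option W × Option W)} (h : Sit k δ Δ G zn Γ X f) {a : V} (ha : a ∈ X) :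
    okz Γ (zb (zn (f a).1)) (f a).2 := by
  have h1 := h.lo a ha
  have h2 : (G.neighborSet a ∩ X).ncard ≠ 0 := by have := h.pos; omega
  obtain ⟨b, hb⟩ := Set.nonempty_of_ncard_ne_zero h2
  exact (h.adj a b hb.1).2.1

lemma walk {k δ Δ : ℕ} {G : SimpleGraph V} {zn : V → Zn} {Γ : SimpleGraph W} {X : Set V}
    {f : V → V × (Option W × Option W)} (h : Sit k δ Δ G zn Γ X f)
    (h3 : ∀ a ∈ X, ∀ o i j, zn (f a).1 = .port o i j → ∀ c, G.Adj (f a).1 c →
      ∃ b ∈ X, G.Adj a b ∧ (f b).1 = c) {a : V} (ha : a ∈ X) {o : Bool} {i j : ℕ}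
    (hz : zn (f a).1 = .port o i j) {u v : V} (huv : G.Adj u v) (hu : zn u = .port o i j)
    (hv : zn v = .cell i j) : ∃ b ∈ X, (f b).1 = v ∧ co o (f a).2 = co o (f b).2 := by
  have hEx : Ex k o i j := h.lay.rp _ _ _ _ hz
  have hconn := h.lay.port o i j hEx
  have hr : (G.induce {v | zn v = .port o i j}).Reachable ⟨(f a).1, hz⟩ ⟨u, hu⟩ :=
    hconn.preconnected _ _
  have key : ∀ w : {v | zn v = .port o i j},
      (G.induce {v | zn v = .port o i j}).Reachable ⟨(f a).1, hz⟩ w →
        ∃ a2 ∈ X, (f a2).1 = w.1 ∧ (f a2).2 = (f a).2 := by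
    intro w hw
    rw [SimpleGraph.reachable_iff_reflTransGen] at hw
    induction hw with
    | refl => exact ⟨a, ha, rfl, rfl⟩
    | @tail w1 w2 _ hst ih =>
      obtain ⟨a2, ha2, h21, h22⟩ := ih
      have hadj : G.Adj w1.1 w2.1 := hst
      have hz2 : zn (f a2).1 = .port o i j := by rw [h21]; exact w1.2
      obtain ⟨b, hb, hab, hfb⟩ := h3 a2 ha2 o i j hz2 w2.1 (by rw [h21]; exact hadj)
      refine ⟨b, hb, hfb, ?_⟩
      have hh := (h.adj a2 b hab).2.2.2
      simp only at hh
      rw [hz2, hfb, show zn w2.1 = .port o i j from w2.2] at hh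
      rw [← h22]
      exact (cmp_pp o i j _ _ hh).symm
  obtain ⟨a2, ha2, h21, h22⟩ := key _ hr
  simp only at h21
  have hz2 : zn (f a2).1 = .port o i j := by rw [h21]; exact hu
  obtain ⟨b, hb, hab, hfb⟩ := h3 a2 ha2 o i j hz2 v (by rw [h21]; exact huv)
  refine ⟨b, hb, hfb, ?_⟩
  have hh := (h.adj a2 b hab).2.2.2
  simp only at hh
  rw [hz2, hfb, hv] at hh
  rw [← h22]
  exact cmp_port o i j _ _ hh

end ItA4

open ItA4 in
theorem A4 (hA0 : PA0) (hA3 : PA3) : PA4 := by
  intro V W _ k δ Δ G zn Γ X f h huv c hc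
  have h0 := hA0 k δ Δ G zn Γ X f h
  have h3 := hA3 k δ Δ G zn Γ X f h huv
  have hinj : Set.InjOn (fun a => (f a).1) X := by
    intro a ha a' ha' haa
    simp only at haa
    apply h.inj
    refine Prod.ext haa ?_
    have o1 := ok h ha
    have o2 := ok h ha'
    rw [← haa] at o2
    rcases hz : zn (f a).1 with _ | ⟨i, j⟩ | ⟨o, i, j⟩
    · rw [hz] at o1 o2
      simp only [zb, okz] at o1 o2
      rw [o1, o2]
    · exact huv a ha a' ha' i j hz (by rw [← haa]; exact hz)
    · rw [hz] at o1 o2
      simp only [zb, okz] at o1 o2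
      obtain ⟨u, v, huv', hu, hv⟩ := h.lay.link o i j (h.lay.rp _ _ _ _ hz)
      obtain ⟨b, hb, hfb, hco⟩ := walk h h3 ha hz huv' hu hv
      obtain ⟨b', hb', hfb', hco'⟩ := walk h h3 ha' (by rw [← haa]; exact hz) huv' hu hv
      have hbb : (f b).2 = (f b').2 := huv b hb b' hb' i j (by rw [hfb]; exact hv)
        (by rw [hfb']; exact hv)
      exact co_diag o _ _ o1 o2 (by rw [hco, hco', hbb])
  obtain ⟨a, ha, hac⟩ := Set.surj_on_of_inj_on_of_ncard_le (s := X) (t := X)
    (fun a _ => (f a).1) (fun a ha => h0 a ha) (fun a b ha hb hab => hinj ha hb hab) le_rfl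
    (Set.toFinite X) c hc
  exact ⟨a, ha, hac.symm⟩

end Pool.Agent.PReg

end

section

/-!
# A5: an embedding with at most one value for every cell gives a clique
-/

set_option autoImplicit false

namespace Pool.Agent.PReg

open Pool.Agent.PEmb

namespace ItA5

variable {V W : Type}

/-- The coordinate which is used in a port. -/
def sel {α : Type} : Bool → α × α → α
  | false, p => p.1
  | true, p => p.2

theorem cmp_port_port {o : Bool} {p q : Option W × Option W} (h : cmp (.port o) (.port o) p q) :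
    p = q := by
  rcases o with _ | _ <;> exact h

theorem cmp_port_cell {o : Bool} {i j : ℕ} {p q : Option W × Option W}
    (h : cmp (.port o) (zb (.cell i j)) p q) : sel o p = sel o q := by
  by_cases hij : i = j
  · have hz : zb (.cell i j) = .diag := by simp [zb, hij]
    rw [hz] at h
    rcases o with _ | _ <;> exact h
  · have hz : zb (.cell i j) = .off := by simp [zb, hij]
    rw [hz] at h
    rcases o with _ | _ <;> exact h

theorem ok [Finite V] {k δ Δ : ℕ} {G : SimpleGraph V} {zn : V → Zn}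
    {Γ : SimpleGraph W} {X : Set V} {f : V → V × (Option W × Option W)}
    (hS : Sit k δ Δ G zn Γ X f) (a : V) (ha : a ∈ X) :
    okz Γ (zb (zn (f a).1)) (f a).2 := by
  have h1 := hS.lo a ha
  have h2 : 0 < (G.neighborSet a ∩ X).ncard := lt_of_lt_of_le hS.pos h1
  rw [Set.ncard_pos (Set.toFinite _)] at h2
  obtain ⟨b, hb, _⟩ := h2
  exact (hS.adj a b hb).2.1

theorem portEq [Finite V] {k δ Δ : ℕ} {G : SimpleGraph V} {zn : V → Zn}
    {Γ : SimpleGraph W} {X : Set V} {f : V → V × (Option W × Option W)}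
    (hS : Sit k δ Δ G zn Γ X f)
    (h3 : ∀ a ∈ X, ∀ o i j, zn (f a).1 = .port o i j → ∀ c, G.Adj (f a).1 c →
      ∃ b ∈ X, G.Adj a b ∧ (f b).1 = c)
    (h4 : ∀ c ∈ X, ∃ a ∈ X, (f a).1 = c)
    (val : ℕ → ℕ → Option W × Option W)
    (hval : ∀ i j, i < k → j < k → ∀ a ∈ X, zn (f a).1 = .cell i j → (f a).2 = val i j)
    (o : Bool) (i j : ℕ) (hE : Ex k o i j) :
    sel o (val i j) = sel o (val (nx o i j).1 (nx o i j).2) := by
  have hij : i < k ∧ j < k := by
    unfold Ex at hE
    rcases o with _ | _ <;> simp only [nx] at hE <;> omega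
  obtain ⟨u0, v0, hadj0, hu0, hv0⟩ := hS.lay.link o i j hE
  obtain ⟨u1, v1, hadj1, hu1, hv1⟩ := hS.lay.link' o i j hE
  obtain ⟨a, haX, ha⟩ := h4 u0 (hS.mem u0 (by rw [hu0]; exact fun h => Zn.noConfusion h))
  have hfa : zn (f a).1 = .port o i j := by rw [ha]; exact hu0
  -- the first cell
  have e0 : sel o (f a).2 = sel o (val i j) := by
    obtain ⟨b, hbX, hab, hb⟩ := h3 a haX o i j hfa v0 (by rw [ha]; exact hadj0)
    have h : cmp (zb (zn (f a).1)) (zb (zn (f b).1)) (f a).2 (f b).2 :=
      (hS.adj a b hab).2.2.2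
    rw [hfa, hb, hv0] at h
    rw [cmp_port_cell h, hval i j hij.1 hij.2 b hbX (by rw [hb]; exact hv0)]
  -- the walk
  have hw : ∀ w : {v | zn v = .port o i j},
      Relation.ReflTransGen (G.induce {v | zn v = .port o i j}).Adj ⟨u0, hu0⟩ w →
      ∃ b ∈ X, f b = (w.1, (f a).2) := by
    intro w hw
    induction hw with
    | refl => exact ⟨a, haX, Prod.ext ha rfl⟩
    | @tail w w' _ hadj ih =>
      obtain ⟨b, hbX, hb⟩ := ih
      have hzb : zn (f b).1 = .port o i j := by rw [hb]; exact w.2
      obtain ⟨c, hcX, hbc, hc⟩ := h3 b hbX o i j hzb w'.1 (by rw [hb]; exact hadj)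
      refine ⟨c, hcX, ?_⟩
      have h : cmp (zb (zn (f b).1)) (zb (zn (f c).1)) (f b).2 (f c).2 :=
        (hS.adj b c hbc).2.2.2
      have hw' : zn w'.1 = .port o i j := w'.2
      rw [hzb, hc, hw'] at h
      have h' := cmp_port_port h
      rw [hb] at h'
      exact Prod.ext hc h'.symm
  have hr := (hS.lay.port o i j hE).preconnected ⟨u0, hu0⟩ ⟨u1, hu1⟩
  rw [SimpleGraph.reachable_iff_reflTransGen] at hr
  obtain ⟨b, hbX, hb⟩ := hw _ hr
  have hfb : zn (f b).1 = .port o i j := by rw [hb]; exact hu1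
  have e1 : sel o (f a).2 = sel o (val (nx o i j).1 (nx o i j).2) := by
    obtain ⟨c, hcX, hbc, hc⟩ := h3 b hbX o i j hfb v1 (by rw [hb]; exact hadj1)
    have h : cmp (zb (zn (f b).1)) (zb (zn (f c).1)) (f b).2 (f c).2 :=
      (hS.adj b c hbc).2.2.2
    rw [hfb, hc, hv1] at h
    have h5 := cmp_port_cell h
    rw [hb] at h5
    rw [← hval _ _ hE.1 hE.2 c hcX (by rw [hc]; exact hv1), ← h5]
  rw [← e0, ← e1]

end ItA5

open ItA5

theorem A5 (hA3 : PA3) (hA4 : PA4) : PA5 := by
  intro V W _ k δ Δ G zn Γ X f hS hU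
  have h3 := hA3 k δ Δ G zn Γ X f hS hU
  have h4 := hA4 k δ Δ G zn Γ X f hS hU
  -- the values
  have hv : ∀ i j : ℕ, ∃ p : Option W × Option W, (i < k → j < k →
      (∀ a ∈ X, zn (f a).1 = .cell i j → (f a).2 = p) ∧ okz Γ (zb (.cell i j)) p) := by
    intro i j
    by_cases hij : i < k ∧ j < k
    · obtain ⟨c⟩ := (hS.lay.cell i j hij.1 hij.2).nonempty
      have hc : zn c.1 = .cell i j := c.2
      obtain ⟨a, haX, ha⟩ := h4 c.1 (hS.mem _ (by rw [hc]; exact fun h => Zn.noConfusion h))
      refine ⟨(f a).2, fun _ _ => ⟨fun b hbX hb => hU b hbX a haX i j hb (by rw [ha]; exact hc),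
        ?_⟩⟩
      have := ok hS a haX
      rw [ha, hc] at this
      exact this
    · exact ⟨(none, none), fun h1 h2 => absurd ⟨h1, h2⟩ hij⟩
  choose val hval using hv
  have hpe : ∀ o i j, Ex k o i j → sel o (val i j) = sel o (val (nx o i j).1 (nx o i j).2) :=
    fun o i j hE => portEq hS h3 h4 val (fun i j hi hj => (hval i j hi hj).1) o i j hE
  have hrow : ∀ i j, i < k → j + 1 < k → (val i j).1 = (val i (j + 1)).1 := by
    intro i j hi hj
    exact hpe false i j ⟨hi, hj⟩
  have hcol : ∀ i j, i + 1 < k → j < k → (val i j).2 = (val (i + 1) j).2 := by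
    intro i j hi hj
    exact hpe true i j ⟨hi, hj⟩
  have hrow0 : ∀ i j, i < k → j < k → (val i j).1 = (val i 0).1 := by
    intro i j hi
    induction j with
    | zero => intro _; rfl
    | succ j ih => intro hj; rw [← ih (by omega), hrow i j hi hj]
  have hcol0 : ∀ j i, i < k → j < k → (val i j).2 = (val 0 j).2 := by
    intro j i
    induction i with
    | zero => intro _ _; rfl
    | succ i ih => intro hi hj; rw [← ih (by omega) hj, hcol i j hi hj]
  have hdiag : ∀ i : Fin k, ∃ u : W, val i i = (some u, some u) := by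
    intro i
    have := (hval i i i.2 i.2).2
    simpa [zb, okz] using this
  choose w hw using hdiag
  refine ⟨w, fun a b hab => ?_⟩
  have hab' : (a : ℕ) ≠ b := fun h => hab (Fin.ext h)
  have h5 := (hval a b a.2 b.2).2
  simp only [zb, hab', if_false, okz] at h5
  obtain ⟨u, v, huv, hadj⟩ := h5
  have h6 : (val a b).1 = (val a a).1 := by
    rw [hrow0 a b a.2 b.2, hrow0 a a a.2 a.2]
  have h7 : (val a b).2 = (val b b).2 := by
    rw [hcol0 b a a.2 b.2, hcol0 b b b.2 b.2]
  rw [huv, hw] at h6 h7
  have h8 : u = w a := by simpa using h6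
  have h9 : v = w b := by simpa using h7
  rw [← h8, ← h9]
  exact hadj

end Pool.Agent.PReg

end

section

/-!
# B: the framework
-/

set_option autoImplicit false

namespace Pool.Agent.PReg

open Pool.Agent.PEmb

theorem aCode_append (A : Code) (Z : List (List Bool)) (h : Z.length = A.length) :
    aCode (A ++ Z) = A := by
  unfold aCode
  rw [List.length_append, h, ← two_mul, Nat.mul_div_cancel_left _ (by norm_num)]
  exact List.take_left

theorem B (q11 : PQ11) (h8 : PB8) (h9 : PB9) (h10 : PB10) (h11 : PB11) : PB := by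
  intro C hC hex
  obtain ⟨DC, hC'⟩ := hC
  obtain ⟨D8, h8'⟩ := h8
  obtain ⟨T, hT, hT2⟩ := search_gen (β := Code × List (List Bool))
    (fun k p => @decide (Good k p.1 p.2) (D8 (k, p)) && @decide (C p.1) (DC _)) (by
      have c1 : Computable fun p : ℕ × (Code × List (List Bool)) =>
        @decide (Good p.1 p.2.1 p.2.2) (D8 p) := h8'.to_comp
      have c2 : Computable fun p : ℕ × (Code × List (List Bool)) => @decide (C p.2.1) (DC _) :=
        Computable.comp (f := fun c : Code => @decide (C c) (DC _)) hC'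
          (Computable.fst.comp Computable.snd)
      exact (Primrec.and.to_comp : Computable₂ and).comp c1 c2) (by
      intro k
      obtain ⟨A, hA, ζ, h⟩ := hex k
      obtain ⟨Z, hZ⟩ := h10 k A ζ h
      exact ⟨(A, Z), by simp [hA, hZ]⟩)
  have hT3 : ∀ k, Good k (T k).1 (T k).2 ∧ C (T k).1 := by
    intro k
    have := hT2 k
    simpa using this
  have c1 : Computable fun k => (T k).1 := Computable.fst.comp hT
  have c2 : Computable fun k => (T k).2 := Computable.snd.comp hT
  have c3 : Computable fun k => (T k).1 ++ (T k).2 :=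
    (Primrec.list_append.to_comp : Computable₂ _).comp c1 c2
  have c4 : Computable fun k => (N487b59b3.bitEncode (T k).1).length :=
    Computable.comp (f := fun c : Code => (N487b59b3.bitEncode c).length) q11.to_comp c1
  refine ⟨_, _, red2, c3, c4, h11, ?_⟩
  rintro ⟨G, k⟩
  obtain ⟨hg, hc⟩ := hT3 k
  have e : aCode ((T k).1 ++ (T k).2) = (T k).1 := aCode_append _ _ hg.1
  constructor
  · have h3 := h9 k (T k).1 (T k).2 hg G
    show Clique (G, k) ↔ C (aCode ((T k).1 ++ (T k).2)) ∧
      Embeds (graph (aCode ((T k).1 ++ (T k).2))) (graph (hCode2 ((T k).1 ++ (T k).2) G))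
    rw [e]
    exact ⟨fun h => ⟨hc, h3.1 h⟩, fun h => h3.2 h.2⟩
  · show (N487b59b3.bitEncode (aCode ((T k).1 ++ (T k).2))).length ≤ _
    rw [e]
    exact le_refl _

end Pool.Agent.PReg

end

section

/-!
# Words
-/

set_option autoImplicit false

namespace Pool.Agent.PReg

open Pool.Agent.PEmb

namespace ItB1

theorem mem_words {α : Type} (l : List α) : ∀ (n : ℕ) (w : List α),
    w ∈ wordsOf l n ↔ w.length = n ∧ ∀ x ∈ w, x ∈ l
  | 0, w => by
      simp only [wordsOf, List.mem_singleton, List.length_eq_zero_iff]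
      constructor
      · rintro rfl
        simp
      · exact fun h => h.1
  | n + 1, w => by
      simp only [wordsOf, List.mem_flatMap, List.mem_map, mem_words l n]
      constructor
      · rintro ⟨x, hx, w', ⟨h1, h2⟩, rfl⟩
        simp only [List.length_cons, h1, List.mem_cons, forall_eq_or_imp, true_and]
        exact ⟨hx, h2⟩
      · rintro ⟨h1, h2⟩
        rcases w with _ | ⟨x, w⟩
        · simp at h1
        · exact ⟨x, h2 x (by simp), w, ⟨by simpa using h1, fun y hy => h2 y (by simp [hy])⟩, rfl⟩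

theorem words_eq {α : Type} (l : List α) (n : ℕ) : wordsOf l n =
    Nat.rec (motive := fun _ => List (List α)) [[]]
      (fun _ ih => l.flatMap fun x => ih.map fun w => x :: w) n := by
  induction n with
  | zero => rfl
  | succ n ih => simp only [wordsOf, ih]

theorem prim_words {α : Type} [Primcodable α] :
    Primrec₂ (wordsOf : List α → ℕ → List (List α)) := by
  have h : Primrec₂ fun (l : List α) (n : ℕ) =>
      (Nat.rec (motive := fun _ => List (List α)) [[]]
        (fun _ ih => l.flatMap fun x => ih.map fun w => x :: w) n : List (List α)) := by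
    refine Primrec.nat_rec (f := fun _ => [[]])
      (g := fun (l : List α) (p : ℕ × List (List α)) => l.flatMap fun x => p.2.map fun w => x :: w)
      (Primrec.const _) ?_
    refine Primrec.list_flatMap Primrec.fst ?_
    refine Primrec.list_map (Primrec.snd.comp (Primrec.snd.comp Primrec.fst)) ?_
    exact Primrec.list_cons.comp (Primrec.snd.comp Primrec.fst) Primrec.snd
  exact h.of_eq fun l n => (words_eq l n).symm

end ItB1

theorem B1 : PB1 := ⟨fun l n w => ItB1.mem_words l n w, fun {_} _ => ItB1.prim_words⟩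

end Pool.Agent.PReg

end

section

/-!
# B10: good zones exist
-/

set_option autoImplicit false

namespace Pool.Agent.PReg

open Pool.Agent.PEmb

namespace ItB10

/-- bits of a kind of zones -/
def bits : ZB → List Bool
  | .pin => [false, false, false, true]
  | .port o => [true, o, false, false]
  | .diag => [false, false, true, false]
  | .off => [false, false, false, false]

theorem zbOf_bits (z : ZB) : zbOf (bits z) = z := by
  rcases z with _ | _ | _ | (_ | _) <;> rfl

theorem kc_length (k : ℕ) : (kc k).length = k := by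
  rw [kc, List.length_map, List.length_range]

theorem kc_entry (k i j : ℕ) (hi : i < k) (hj : j < k) : entry (kc k) i j = decide (i ≠ j) := by
  have e1 : (kc k).getD i [] = (List.range k).map fun j => decide (i ≠ j) := by
    rw [kc, List.getD_eq_getElem?_getD, List.getElem?_map, List.getElem?_range hi,
      Option.map_some, Option.getD_some]
  rw [entry, e1, List.getD_eq_getElem?_getD, List.getElem?_map, List.getElem?_range hj,
    Option.map_some, Option.getD_some]

theorem kq_kc (k : ℕ) : Kq k (graph (kc k)) := by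
  refine ⟨fun i => ⟨i.1, by rw [kc_length]; exact i.2⟩, fun a b hab => ?_⟩
  have hne : a.1 ≠ b.1 := fun h => hab (Fin.ext h)
  refine ⟨fun h => hne (by simpa using h), Or.inl ?_⟩
  show entry (kc k) a.1 b.1 = true
  rw [kc_entry k a.1 b.1 a.2 b.2]
  exact decide_eq_true hne

end ItB10

theorem B10 (hB6 : PB6) (hB12 : PB12) : PB10 := by
  intro k A ζ h
  set Z : List (List Bool) := List.ofFn fun v : Fin A.length => ItB10.bits (ζ v) with hZ
  have hlen : Z.length = A.length := by rw [hZ, List.length_ofFn]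
  have hζ : (fun v : Fin A.length => zbOf (Z.getD v.1 [])) = ζ := by
    funext v
    have e : Z.getD v.1 [] = ItB10.bits (ζ v) := by
      rw [hZ, List.getD_eq_getElem?_getD, List.getElem?_ofFn, dif_pos v.2, Option.getD_some]
    rw [e, ItB10.zbOf_bits]
  refine ⟨Z, hlen, ?_, ?_⟩
  · rw [hB6 A Z (kc k) hlen, hζ]
    exact (h (kc k).length (graph (kc k))).mp (ItB10.kq_kc k)
  · intro n _ Γ _ hE
    rw [hB6 A Z Γ hlen, hζ] at hE
    rw [hB12 Γ k]
    exact (h Γ.length (graph Γ)).mpr hE

end Pool.Agent.PReg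

end

section

/-!
# B11: the reduction is computed in polynomial time
-/

set_option autoImplicit false

namespace Pool.Agent.PReg

open Pool.Agent.PEmb Pool.Agent.PT N487b59b3 Pool.Agent.Work.MP_5296b6_lc

namespace ItB11

variable {α : Type} [Enc α]

theorem ptf_pos {u : α → ℕ} (hu : PTF u) : PTF (fun a => decide (0 < u a)) :=
  (PTF.const 0).lt hu

theorem ptf_okB2 {c : α → Code} {z : α → List Bool} {i j : α → ℕ} (hc : PTF c) (hz : PTF z)
    (hi : PTF i) (hj : PTF j) : PTF (fun a => okB2 (c a) (z a) (i a) (j a)) := by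
  unfold okB2
  exact PTF.cond (hz.getD (PTF.const 3) (PTF.const false))
    ((hi.eq (PTF.const 0)).and (hj.eq (PTF.const 0)))
    (PTF.cond ((hz.getD (PTF.const 0) (PTF.const false)).or
      (hz.getD (PTF.const 2) (PTF.const false))) ((ptf_pos hi).and (hi.eq hj))
      ((ptf_pos hi).and ((ptf_pos hj).and (IQ9.ptf_adjB hc (hi.sub (PTF.const 1))
        (hj.sub (PTF.const 1))))))

theorem ptf_compB2 {z z' : α → List Bool} {u v u' v' : α → ℕ} (hz : PTF z) (hz' : PTF z')
    (hu : PTF u) (hv : PTF v) (hu' : PTF u') (hv' : PTF v') :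
    PTF (fun a => compB2 (z a) (z' a) (u a) (v a) (u' a) (v' a)) := by
  unfold compB2
  exact PTF.cond ((hz.getD (PTF.const 3) (PTF.const false)).or
      (hz'.getD (PTF.const 3) (PTF.const false))) (PTF.const true)
    (PTF.cond (hz.getD (PTF.const 0) (PTF.const false))
      (PTF.cond (hz'.getD (PTF.const 0) (PTF.const false)) ((hu.eq hu').and (hv.eq hv'))
        (PTF.cond (hz.getD (PTF.const 1) (PTF.const false)) (hv.eq hv') (hu.eq hu')))
      (PTF.cond (hz'.getD (PTF.const 0) (PTF.const false))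
        (PTF.cond (hz'.getD (PTF.const 1) (PTF.const false)) (hv.eq hv') (hu.eq hu'))
        ((hu.eq hu').and (hv.eq hv'))))

theorem ptf_aCode {a : α → List (List Bool)} (ha : PTF a) : PTF (fun t => aCode (a t)) := by
  unfold aCode
  exact ha.take (ha.length.div (PTF.const 2))

theorem ptf_hadjB2 {a : α → List (List Bool)} {G : α → Code} {p q : α → ℕ} (ha : PTF a)
    (hG : PTF G) (hp : PTF p) (hq : PTF q) :
    PTF (fun t => hadjB2 (a t) (G t) (p t) (q t)) := by
  unfold hadjB2
  have hn : PTF (fun t => (G t).length + 1) := hG.length.add (PTF.const 1)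
  have hnn := hn.mul hn
  have hx := hp.div hnn
  have hy := hq.div hnn
  have hl : PTF (fun t => (a t).length / 2) := ha.length.div (PTF.const 2)
  have hz : PTF (fun t => (a t).getD ((a t).length / 2 +
      p t / (((G t).length + 1) * ((G t).length + 1))) []) :=
    ha.getD (hl.add hx) (PTF.const _)
  have hz' : PTF (fun t => (a t).getD ((a t).length / 2 +
      q t / (((G t).length + 1) * ((G t).length + 1))) []) :=
    ha.getD (hl.add hy) (PTF.const _)
  have hpu := (hp.div hn).mod hn
  have hpv := hp.mod hn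
  have hqu := (hq.div hn).mod hn
  have hqv := hq.mod hn
  exact (((IQ9.ptf_adjB (ptf_aCode ha) hx hy).and (ptf_okB2 hG hz hpu hpv)).and
    (ptf_okB2 hG hz' hqu hqv)).and (ptf_compB2 hz hz' hpu hpv hqu hqv)

theorem ptf_hCode2 {a : α → List (List Bool)} {G : α → Code} (ha : PTF a) (hG : PTF G) :
    PTF (fun t => hCode2 (a t) (G t)) := by
  unfold hCode2
  have hn : PTF (fun t => (G t).length + 1) := hG.length.add (PTF.const 1)
  have hr : PTF (fun t => List.range ((a t).length / 2 *
      (((G t).length + 1) * ((G t).length + 1)))) :=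
    ((ha.length.div (PTF.const 2)).mul (hn.mul hn)).range
  refine PTF.map' (f := fun t p => (List.range ((a t).length / 2 *
    (((G t).length + 1) * ((G t).length + 1)))).map fun q => hadjB2 (a t) (G t) p q) ?_ hr
  refine PTF.map' (f := fun (t : α × ℕ) q => hadjB2 (a t.1) (G t.1) t.2 q) ?_ (hr.comp PTF.fst)
  exact ptf_hadjB2 (ha.comp (PTF.fst.comp PTF.fst)) (hG.comp (PTF.fst.comp PTF.fst))
    (PTF.snd.comp PTF.fst) PTF.snd

end ItB11

theorem B11 : PB11 := by
  unfold PB11 N68a2faeb.IsPolyTime N68a2faeb.IsPolyTimeWithEncoding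
  have h1 : PTF (fun x : List Bool => IQ9.dLL (pPair x).1) :=
    IQ9.ptf_dLL.comp (PTF.fst.comp IQ9.ptf_pPair)
  have h2 : PTF (fun x : List Bool => IQ9.dLL (pPair (pPair x).2).1) :=
    IQ9.ptf_dLL.comp (PTF.fst.comp (IQ9.ptf_pPair.comp (PTF.snd.comp IQ9.ptf_pPair)))
  have h3 : PTF (fun x : List Bool => ((aCode (IQ9.dLL (pPair x).1),
      hCode2 (IQ9.dLL (pPair x).1) (IQ9.dLL (pPair (pPair x).2).1)) : Code × Code)) :=
    PTF.pair (ItB11.ptf_aCode h1) (ItB11.ptf_hCode2 h1 h2)
  have h4 : EncP (Code × Code) := EncP.prod (EncP.list (EncP.list EncP.bool))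
    (EncP.list (EncP.list EncP.bool))
  refine tm2_of (g := fun x => bitEncode ((aCode (IQ9.dLL (pPair x).1),
      hCode2 (IQ9.dLL (pPair x).1) (IQ9.dLL (pPair (pPair x).2).1)) : Code × Code))
    (h4.apply h3) ?_
  intro x
  obtain ⟨a, G, k⟩ := x
  have e1 : pPair (bitEncode (a, (G, k))) = (bitEncode a, bitEncode (G, k)) := pPair_eq _
  have e2 : pPair (bitEncode (G, k)) = (bitEncode G, bitEncode k) := pPair_eq _
  show bitEncode ((aCode (IQ9.dLL (pPair (bitEncode (a, (G, k)))).1),
      hCode2 (IQ9.dLL (pPair (bitEncode (a, (G, k)))).1)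
        (IQ9.dLL (pPair (pPair (bitEncode (a, (G, k)))).2).1)) : Code × Code) = bitEncode _
  rw [e1]
  dsimp only
  rw [e2]
  dsimp only
  rw [IQ9.dLL_eq, IQ9.dLL_eq]
  rfl

end Pool.Agent.PReg

end

section

/-!
# B12: cliques
-/

set_option autoImplicit false

namespace Pool.Agent.PReg

open Pool.Agent.PEmb

theorem B12 : PB12 := by
  intro G k
  classical
  constructor
  · rintro ⟨s, hs⟩
    have hcard : s.card = k := hs.card_eq
    have hclq := hs.isClique
    let e := (Finset.equivFinOfCardEq hcard).symm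
    refine ⟨fun a => (e a : Fin G.length), fun a b hab => ?_⟩
    refine hclq (Finset.mem_coe.mpr (e a).2) (Finset.mem_coe.mpr (e b).2) fun h => hab ?_
    exact e.injective (Subtype.ext h)
  · rintro ⟨w, hw⟩
    have hinj : Function.Injective w := by
      intro a b hab
      by_contra hne
      exact (hw a b hne).ne hab
    refine ⟨Finset.univ.image w, ?_, ?_⟩
    · intro x hx y hy hxy
      obtain ⟨a, -, rfl⟩ := Finset.mem_image.mp (Finset.mem_coe.mp hx)
      obtain ⟨b, -, rfl⟩ := Finset.mem_image.mp (Finset.mem_coe.mp hy)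
      exact hw a b fun h => hxy (by rw [h])
    · rw [Finset.card_image_of_injective _ hinj]
      simp

end Pool.Agent.PReg

end

section

/-!
# B2: `p`-CLIQUE is primitive recursive
-/

set_option autoImplicit false

namespace Pool.Agent.PReg

open Pool.Agent.PEmb

namespace ItB2

theorem pp_ex_mem {α β : Type} [Primcodable α] [Primcodable β] {R : α → β → Prop}
    {b : α → List β} (hb : Primrec b)
    (hR : PrimrecPred fun p : α × β => R p.1 p.2) : PrimrecPred fun a => ∃ x ∈ b a, R a x := by
  have h1 : PrimrecRel fun (x : β) (a : α) => R a x := by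
    have : PrimrecRel fun (a : α) (x : β) => R a x := hR
    exact this.swap
  exact (PrimrecRel.exists_mem_list h1).comp hb Primrec.id

theorem pp_entry {α : Type} [Primcodable α] {c : α → Code} {i j : α → ℕ} (hc : Primrec c)
    (hi : Primrec i) (hj : Primrec j) : PrimrecPred fun a => entry (c a) (i a) (j a) = true := by
  have h : Primrec fun a => entry (c a) (i a) (j a) :=
    (Primrec.list_getD false).comp ((Primrec.list_getD []).comp hc hi) hj
  exact Primrec.eq.comp h (Primrec.const true)

/-- The word `w` lists the vertices of a clique. -/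
def CW (p : Code × ℕ) (w : List ℕ) : Prop :=
  ∀ i < p.2, ∀ j < p.2, i = j ∨ (¬ w.getD i 0 = w.getD j 0 ∧
    (entry p.1 (w.getD i 0) (w.getD j 0) = true ∨ entry p.1 (w.getD j 0) (w.getD i 0) = true))

theorem pp_CW : PrimrecPred fun q : (Code × ℕ) × List ℕ => CW q.1 q.2 := by
  unfold CW
  refine pp_all_lt (Primrec.snd.comp Primrec.fst) ?_
  refine pp_all_lt (α := ((Code × ℕ) × List ℕ) × ℕ)
    (Primrec.snd.comp (Primrec.fst.comp Primrec.fst)) ?_
  have hG : Primrec fun p : (((Code × ℕ) × List ℕ) × ℕ) × ℕ => p.1.1.1.1 :=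
    Primrec.fst.comp (Primrec.fst.comp (Primrec.fst.comp Primrec.fst))
  have hw : Primrec fun p : (((Code × ℕ) × List ℕ) × ℕ) × ℕ => p.1.1.2 :=
    Primrec.snd.comp (Primrec.fst.comp Primrec.fst)
  have hi : Primrec fun p : (((Code × ℕ) × List ℕ) × ℕ) × ℕ => p.1.2 :=
    Primrec.snd.comp Primrec.fst
  have hj : Primrec fun p : (((Code × ℕ) × List ℕ) × ℕ) × ℕ => p.2 := Primrec.snd
  have hx : Primrec fun p : (((Code × ℕ) × List ℕ) × ℕ) × ℕ => p.1.1.2.getD p.1.2 0 :=
    (Primrec.list_getD 0).comp hw hi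
  have hy : Primrec fun p : (((Code × ℕ) × List ℕ) × ℕ) × ℕ => p.1.1.2.getD p.2 0 :=
    (Primrec.list_getD 0).comp hw hj
  exact (Primrec.eq.comp hi hj).or ((PrimrecPred.not (Primrec.eq.comp hx hy)).and
    ((pp_entry hG hx hy).or (pp_entry hG hy hx)))

theorem clique_iff (p : Code × ℕ) (hB : ∀ {α : Type} (l : List α) (n : ℕ) (w : List α),
    w ∈ wordsOf l n ↔ w.length = n ∧ ∀ x ∈ w, x ∈ l) :
    (∃ w ∈ wordsOf (List.range p.1.length) p.2, CW p w) ↔ Clique p := by
  obtain ⟨G, k⟩ := p
  classical
  constructor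
  · rintro ⟨w, hw, hc⟩
    rw [hB] at hw
    obtain ⟨hl, hm⟩ := hw
    simp only at hl hm hc
    have hlt : ∀ i : Fin k, w.getD i 0 < G.length := by
      intro i
      have hi : (i : ℕ) < w.length := by rw [hl]; exact i.2
      rw [List.getD_eq_getElem _ _ hi]
      exact List.mem_range.1 (hm _ (List.getElem_mem hi))
    let f : Fin k → Fin G.length := fun i => ⟨w.getD i 0, hlt i⟩
    have hf : ∀ i j : Fin k, i ≠ j → (graph G).Adj (f i) (f j) := by
      intro i j hij
      rcases hc i i.2 j j.2 with h | ⟨h1, h2⟩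
      · exact absurd (Fin.ext h) hij
      · exact ⟨fun h => h1 (congrArg Fin.val h), h2⟩
    have hinj : Function.Injective f := by
      intro i j hij
      by_contra hne
      exact (hf i j hne).ne hij
    refine ⟨Finset.univ.image f, ?_⟩
    rw [SimpleGraph.isNClique_iff]
    refine ⟨?_, by simp [Finset.card_image_of_injective _ hinj]⟩
    intro x hx y hy hxy
    rw [Finset.mem_coe, Finset.mem_image] at hx hy
    obtain ⟨i, -, rfl⟩ := hx
    obtain ⟨j, -, rfl⟩ := hy
    apply hf i j
    rintro rfl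
    exact hxy rfl
  · rintro ⟨s, hs⟩
    have hcard : s.card = k := hs.card_eq
    have hlen : (s.toList.map Fin.val).length = k := by simp [hcard]
    refine ⟨s.toList.map Fin.val, ?_, ?_⟩
    · rw [hB]
      refine ⟨hlen, ?_⟩
      intro x hx
      rw [List.mem_map] at hx
      obtain ⟨y, -, rfl⟩ := hx
      exact List.mem_range.2 y.2
    · intro i hi j hj
      simp only at hi hj
      by_cases hij : i = j
      · exact Or.inl hij
      refine Or.inr ?_
      have hi' : i < (s.toList.map Fin.val).length := by rw [hlen]; exact hi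
      have hj' : j < (s.toList.map Fin.val).length := by rw [hlen]; exact hj
      have hi2 : i < s.toList.length := by simpa using hi'
      have hj2 : j < s.toList.length := by simpa using hj'
      rw [List.getD_eq_getElem _ _ hi', List.getD_eq_getElem _ _ hj', List.getElem_map,
        List.getElem_map]
      have hne : s.toList[i] ≠ s.toList[j] := by
        intro h
        exact hij ((List.Nodup.getElem_inj_iff s.nodup_toList).1 h)
      have hadj := hs.isClique (Finset.mem_coe.2 (Finset.mem_toList.1 (List.getElem_mem hi2)))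
        (Finset.mem_coe.2 (Finset.mem_toList.1 (List.getElem_mem hj2))) hne
      exact ⟨fun h => hne (Fin.ext h), hadj.2⟩

end ItB2

theorem B2 (hB1 : PB1) : PB2 := by
  unfold PB2
  have h1 : Primrec fun p : Code × ℕ => wordsOf (List.range p.1.length) p.2 :=
    hB1.2.comp (Primrec.list_range.comp (Primrec.list_length.comp Primrec.fst)) Primrec.snd
  exact (ItB2.pp_ex_mem h1 ItB2.pp_CW).of_eq fun p => ItB2.clique_iff p hB1.1

end Pool.Agent.PReg

end

section

/-!
# Item B3: the graph of pairs is primitive recursive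
-/

set_option autoImplicit false

namespace Pool.Agent.PReg

open Pool.Agent.PEmb

namespace ItB3

variable {α : Type} [Primcodable α]

theorem pentry {c : α → Code} {i j : α → ℕ} (hc : Primrec c) (hi : Primrec i) (hj : Primrec j) :
    Primrec fun a => entry (c a) (i a) (j a) := by
  unfold entry
  have h1 : Primrec fun a => (c a).getD (i a) [] := (Primrec.list_getD []).comp hc hi
  exact (Primrec.list_getD false).comp h1 hj

theorem pne {i j : α → ℕ} (hi : Primrec i) (hj : Primrec j) :
    Primrec fun a => decide (i a ≠ j a) :=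
  (PrimrecPred.not (Primrec.eq.comp hi hj)).decide

theorem padj {c : α → Code} {i j : α → ℕ} (hc : Primrec c) (hi : Primrec i) (hj : Primrec j) :
    Primrec fun a => adjB (c a) (i a) (j a) := by
  unfold adjB
  exact Primrec.and.comp (pne hi hj)
    (Primrec.or.comp (pentry hc hi hj) (pentry hc hj hi))

end ItB3

open ItB3 in
theorem B3 : PB3 := by
  unfold PB3 prod
  have hn : Primrec fun p : Code × Code => List.range (p.1.length * p.2.length) :=
    Primrec.list_range.comp (Primrec.nat_mul.comp (Primrec.list_length.comp Primrec.fst)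
      (Primrec.list_length.comp Primrec.snd))
  refine Primrec.list_map hn ?_
  refine Primrec.list_map (f := fun q : (Code × Code) × ℕ =>
      List.range (q.1.1.length * q.1.2.length))
    (g := fun (x : (Code × Code) × ℕ) (q : ℕ) =>
      decide (x.2 / x.1.2.length ≠ q / x.1.2.length) &&
        decide (x.2 % x.1.2.length ≠ q % x.1.2.length) &&
      (!(adjB x.1.1 (x.2 / x.1.2.length) (q / x.1.2.length)) ||
        adjB x.1.2 (x.2 % x.1.2.length) (q % x.1.2.length))) (hn.comp Primrec.fst) ?_
  have hA : Primrec fun x : ((Code × Code) × ℕ) × ℕ => x.1.1.1 :=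
    Primrec.fst.comp (Primrec.fst.comp Primrec.fst)
  have hB : Primrec fun x : ((Code × Code) × ℕ) × ℕ => x.1.1.2 :=
    Primrec.snd.comp (Primrec.fst.comp Primrec.fst)
  have hl : Primrec fun x : ((Code × Code) × ℕ) × ℕ => x.1.1.2.length :=
    Primrec.list_length.comp hB
  have hp : Primrec fun x : ((Code × Code) × ℕ) × ℕ => x.1.2 := Primrec.snd.comp Primrec.fst
  have hq : Primrec fun x : ((Code × Code) × ℕ) × ℕ => x.2 := Primrec.snd
  have d1 := Primrec.nat_div.comp hp hl
  have d2 := Primrec.nat_div.comp hq hl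
  have m1 := Primrec.nat_mod.comp hp hl
  have m2 := Primrec.nat_mod.comp hq hl
  exact Primrec.and.comp (Primrec.and.comp (pne d1 d2) (pne m1 m2))
    (Primrec.or.comp (Primrec.not.comp (padj hA d1 d2)) (padj hB m1 m2))

end Pool.Agent.PReg

end

section

/-!
# B4: the embedding problem is primitive recursive
-/

set_option autoImplicit false

namespace Pool.Agent.PReg

open Pool.Agent.PEmb

theorem B4 (hB2 : PB2) (hB3 : PB3) : PB4 := by
  have h : PrimrecPred fun p : Code × Code => Clique (prod p.1 p.2, p.1.length) :=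
    PrimrecPred.comp hB2 (Primrec.pair hB3 (Primrec.list_length.comp Primrec.fst))
  exact h.of_eq fun p => M3 p.1 p.2

end Pool.Agent.PReg

end

section

/-!
# B5: the code of the host is primitive recursive
-/

set_option autoImplicit false

namespace Pool.Agent.PReg

open Pool.Agent.PEmb

namespace ItB5

variable {α : Type} [Primcodable α]

theorem bit {z : α → List Bool} (n : ℕ) (hz : Primrec z) :
    Primrec fun t => (z t).getD n false :=
  (Primrec.list_getD false).comp hz (Primrec.const n)

theorem tr {b : α → Bool} (hb : Primrec b) : PrimrecPred fun t => b t = true :=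
  Primrec.eq.comp hb (Primrec.const true)

theorem en {G : α → Code} {i j : α → ℕ} (hG : Primrec G) (hi : Primrec i) (hj : Primrec j) :
    Primrec fun t => entry (G t) (i t) (j t) :=
  (Primrec.list_getD false).comp ((Primrec.list_getD []).comp hG hi) hj

theorem dec {p : α → Prop} [DecidablePred p] (hp : PrimrecPred p) :
    Primrec fun t => decide (p t) := hp.decide

theorem adj {G : α → Code} {i j : α → ℕ} (hG : Primrec G) (hi : Primrec i) (hj : Primrec j) :
    Primrec fun t => adjB (G t) (i t) (j t) := by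
  unfold adjB
  exact Primrec.and.comp (dec (PrimrecPred.not (Primrec.eq.comp hi hj)))
    (Primrec.or.comp (en hG hi hj) (en hG hj hi))

theorem aCode_eq (a : List (List Bool)) :
    aCode a = (List.range (a.length / 2)).map fun i => a.getD i [] := by
  unfold aCode
  apply List.ext_getElem
  · simp; omega
  · intro n h1 h2
    simp only [List.length_take] at h1
    rw [List.getElem_take, List.getElem_map, List.getElem_range,
      List.getD_eq_getElem _ _ (by omega)]

theorem cod {a : α → List (List Bool)} (ha : Primrec a) : Primrec fun t => aCode (a t) := by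
  have h : Primrec fun t => (List.range ((a t).length / 2)).map fun i => (a t).getD i [] := by
    refine Primrec.list_map (Primrec.list_range.comp
      (Primrec.nat_div.comp (Primrec.list_length.comp ha) (Primrec.const 2))) ?_
    exact (Primrec.list_getD []).comp (ha.comp Primrec.fst) Primrec.snd
  exact h.of_eq fun t => (aCode_eq (a t)).symm

theorem ok {G : α → Code} {z : α → List Bool} {u v : α → ℕ} (hG : Primrec G) (hz : Primrec z)
    (hu : Primrec u) (hv : Primrec v) : Primrec fun t => okB2 (G t) (z t) (u t) (v t) := by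
  unfold okB2
  have h0 : PrimrecPred fun t => 0 < u t := Primrec.nat_lt.comp (Primrec.const 0) hu
  have h0' : PrimrecPred fun t => 0 < v t := Primrec.nat_lt.comp (Primrec.const 0) hv
  refine Primrec.ite (tr (bit 3 hz)) ?_ (Primrec.ite (tr (Primrec.or.comp (bit 0 hz) (bit 2 hz)))
    ?_ ?_)
  · exact Primrec.and.comp (dec (Primrec.eq.comp hu (Primrec.const 0)))
      (dec (Primrec.eq.comp hv (Primrec.const 0)))
  · exact Primrec.and.comp (dec h0) (dec (Primrec.eq.comp hu hv))
  · exact Primrec.and.comp (dec h0) (Primrec.and.comp (dec h0')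
      (adj hG (Primrec.nat_sub.comp hu (Primrec.const 1))
        (Primrec.nat_sub.comp hv (Primrec.const 1))))

theorem comp {z z' : α → List Bool} {u v u' v' : α → ℕ} (hz : Primrec z) (hz' : Primrec z')
    (hu : Primrec u) (hv : Primrec v) (hu' : Primrec u') (hv' : Primrec v') :
    Primrec fun t => compB2 (z t) (z' t) (u t) (v t) (u' t) (v' t) := by
  unfold compB2
  have e1 : Primrec fun t => decide (u t = u' t) := dec (Primrec.eq.comp hu hu')
  have e2 : Primrec fun t => decide (v t = v' t) := dec (Primrec.eq.comp hv hv')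
  refine Primrec.ite (tr (Primrec.or.comp (bit 3 hz) (bit 3 hz'))) (Primrec.const true) ?_
  refine Primrec.ite (tr (bit 0 hz)) ?_ ?_
  · exact Primrec.ite (tr (bit 0 hz')) (Primrec.and.comp e1 e2)
      (Primrec.ite (tr (bit 1 hz)) e2 e1)
  · exact Primrec.ite (tr (bit 0 hz')) (Primrec.ite (tr (bit 1 hz')) e2 e1)
      (Primrec.and.comp e1 e2)

theorem hadj {a : α → List (List Bool)} {G : α → Code} {p q : α → ℕ} (ha : Primrec a)
    (hG : Primrec G) (hp : Primrec p) (hq : Primrec q) :
    Primrec fun t => hadjB2 (a t) (G t) (p t) (q t) := by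
  have hn : Primrec fun t => (G t).length + 1 := Primrec.succ.comp (Primrec.list_length.comp hG)
  have hnn : Primrec fun t => ((G t).length + 1) * ((G t).length + 1) :=
    Primrec.nat_mul.comp hn hn
  have hx : Primrec fun t => p t / (((G t).length + 1) * ((G t).length + 1)) :=
    Primrec.nat_div.comp hp hnn
  have hy : Primrec fun t => q t / (((G t).length + 1) * ((G t).length + 1)) :=
    Primrec.nat_div.comp hq hnn
  have hl : Primrec fun t => (a t).length / 2 :=
    Primrec.nat_div.comp (Primrec.list_length.comp ha) (Primrec.const 2)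
  have hz : Primrec fun t => (a t).getD
      ((a t).length / 2 + p t / (((G t).length + 1) * ((G t).length + 1))) [] :=
    (Primrec.list_getD []).comp ha (Primrec.nat_add.comp hl hx)
  have hz' : Primrec fun t => (a t).getD
      ((a t).length / 2 + q t / (((G t).length + 1) * ((G t).length + 1))) [] :=
    (Primrec.list_getD []).comp ha (Primrec.nat_add.comp hl hy)
  have p1 : Primrec fun t => p t / ((G t).length + 1) % ((G t).length + 1) :=
    Primrec.nat_mod.comp (Primrec.nat_div.comp hp hn) hn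
  have p2 : Primrec fun t => p t % ((G t).length + 1) := Primrec.nat_mod.comp hp hn
  have q1 : Primrec fun t => q t / ((G t).length + 1) % ((G t).length + 1) :=
    Primrec.nat_mod.comp (Primrec.nat_div.comp hq hn) hn
  have q2 : Primrec fun t => q t % ((G t).length + 1) := Primrec.nat_mod.comp hq hn
  exact Primrec.and.comp (Primrec.and.comp (Primrec.and.comp (adj (cod ha) hx hy)
    (ok hG hz p1 p2)) (ok hG hz' q1 q2)) (comp hz hz' p1 p2 q1 q2)

end ItB5

theorem B5 : PB5 := by
  unfold PB5 hCode2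
  have hlen : Primrec fun p : List (List Bool) × Code =>
      List.range (p.1.length / 2 * ((p.2.length + 1) * (p.2.length + 1))) := by
    have hn : Primrec fun p : List (List Bool) × Code => p.2.length + 1 :=
      Primrec.succ.comp (Primrec.list_length.comp Primrec.snd)
    exact Primrec.list_range.comp (Primrec.nat_mul.comp
      (Primrec.nat_div.comp (Primrec.list_length.comp Primrec.fst) (Primrec.const 2))
      (Primrec.nat_mul.comp hn hn))
  refine Primrec.list_map hlen ?_
  refine Primrec.list_map (f := fun q : (List (List Bool) × Code) × ℕ =>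
    List.range (q.1.1.length / 2 * ((q.1.2.length + 1) * (q.1.2.length + 1))))
    (g := fun (q : (List (List Bool) × Code) × ℕ) (r : ℕ) => hadjB2 q.1.1 q.1.2 q.2 r)
    (hlen.comp Primrec.fst) ?_
  exact ItB5.hadj (Primrec.fst.comp (Primrec.fst.comp Primrec.fst))
    (Primrec.snd.comp (Primrec.fst.comp Primrec.fst)) (Primrec.snd.comp Primrec.fst) Primrec.snd

end Pool.Agent.PReg

end

section

/-!
# Reg, B8: the property `Good` is primitive recursive
-/

set_option autoImplicit false

namespace Pool.Agent.PReg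

open Pool.Agent.PEmb

namespace ItB8

theorem ballLt {α : Type} [Primcodable α] {b : α → ℕ} {R : α → ℕ → Prop} (hb : Primrec b)
    (hR : PrimrecPred fun p : α × ℕ => R p.1 p.2) : PrimrecPred fun a => ∀ x < b a, R a x := by
  have h1 : PrimrecRel fun (x : ℕ) (a : α) => R a x := by
    have : PrimrecRel fun (a : α) (x : ℕ) => R a x := hR
    exact this.swap
  have h2 := (PrimrecRel.forall_mem_list h1).comp (Primrec.list_range.comp hb) Primrec.id
  exact h2.of_eq fun a => by simp

theorem ballMem {α β : Type} [Primcodable α] [Primcodable β] {b : α → List β} {R : α → β → Prop}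
    (hb : Primrec b) (hR : PrimrecPred fun p : α × β => R p.1 p.2) :
    PrimrecPred fun a => ∀ x ∈ b a, R a x := by
  have h1 : PrimrecRel fun (x : β) (a : α) => R a x := by
    have : PrimrecRel fun (a : α) (x : β) => R a x := hR
    exact this.swap
  exact (PrimrecRel.forall_mem_list h1).comp hb Primrec.id

theorem kcPrim : Primrec kc := by
  unfold kc
  refine Primrec.list_map Primrec.list_range ?_
  refine Primrec.list_map (Primrec.list_range.comp Primrec.fst) ?_
  have h1 : PrimrecPred fun p : (ℕ × ℕ) × ℕ => p.1.2 ≠ p.2 :=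
    PrimrecPred.not (Primrec.eq.comp (Primrec.snd.comp Primrec.fst) Primrec.snd)
  exact h1.decide

theorem emb (hB4 : PB4) {α : Type} [Primcodable α] {f g : α → Code} (hf : Primrec f)
    (hg : Primrec g) : PrimrecPred fun a => Embeds (graph (f a)) (graph (g a)) :=
  PrimrecPred.comp hB4 (hf.pair hg)

theorem cli (hB2 : PB2) {α : Type} [Primcodable α] {f : α → Code} {g : α → ℕ} (hf : Primrec f)
    (hg : Primrec g) : PrimrecPred fun a => Clique (f a, g a) :=
  PrimrecPred.comp hB2 (hf.pair hg)

theorem hc2 (hB5 : PB5) {α : Type} [Primcodable α] {f : α → List (List Bool)} {g : α → Code}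
    (hf : Primrec f) (hg : Primrec g) : Primrec fun a => hCode2 (f a) (g a) :=
  Primrec.comp hB5 (hf.pair hg)

theorem imp {α : Type} [Primcodable α] {p q : α → Prop} (hp : PrimrecPred p)
    (hq : PrimrecPred q) : PrimrecPred fun a => p a → q a :=
  (hp.not.or hq).of_eq fun a => by
    constructor
    · rintro (h | h) h'
      · exact absurd h' h
      · exact h
    · intro h
      by_cases h' : p a
      · exact Or.inr (h h')
      · exact Or.inl h'

theorem wds (hB1 : PB1) {α : Type} [Primcodable α] {n : α → ℕ} (hn : Primrec n) :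
    Primrec fun a => wordsOf (wordsOf [true, false] (n a)) (n a) := by
  have h1 : Primrec fun a => wordsOf [true, false] (n a) :=
    Primrec₂.comp hB1.2 (Primrec.const [true, false]) hn
  exact Primrec₂.comp hB1.2 h1 hn


end ItB8

open ItB8 in
theorem B8 (hB1 : PB1) (hB2 : PB2) (hB4 : PB4) (hB5 : PB5) : PB8 := by
  have hk : Primrec fun p : ℕ × (Code × List (List Bool)) => p.1 := Primrec.fst
  have hA : Primrec fun p : ℕ × (Code × List (List Bool)) => p.2.1 :=
    Primrec.fst.comp Primrec.snd
  have hZ : Primrec fun p : ℕ × (Code × List (List Bool)) => p.2.2 :=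
    Primrec.snd.comp Primrec.snd
  have hAZ : Primrec fun p : ℕ × (Code × List (List Bool)) => p.2.1 ++ p.2.2 :=
    Primrec.list_append.comp hA hZ
  have c1 : PrimrecPred fun p : ℕ × (Code × List (List Bool)) => p.2.2.length = p.2.1.length :=
    Primrec.eq.comp (Primrec.list_length.comp hZ) (Primrec.list_length.comp hA)
  have c2 : PrimrecPred fun p : ℕ × (Code × List (List Bool)) =>
      Embeds (graph p.2.1) (graph (hCode2 (p.2.1 ++ p.2.2) (kc p.1))) :=
    emb hB4 hA (hc2 hB5 hAZ (kcPrim.comp hk))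
  have c3 : PrimrecPred fun p : ℕ × (Code × List (List Bool)) => ∀ n < 2 * p.2.1.length + 1,
      ∀ Γ ∈ wordsOf (wordsOf [true, false] n) n,
        Embeds (graph p.2.1) (graph (hCode2 (p.2.1 ++ p.2.2) Γ)) → Clique (Γ, p.1) := by
    have hl : Primrec fun p : ℕ × (Code × List (List Bool)) => 2 * p.2.1.length + 1 :=
      Primrec.succ.comp (Primrec.nat_mul.comp (Primrec.const 2) (Primrec.list_length.comp hA))
    have hf : Primrec fun q : (ℕ × (Code × List (List Bool))) × ℕ => q.1 := Primrec.fst
    have hg : Primrec fun r : ((ℕ × (Code × List (List Bool))) × ℕ) × Code => r.1.1 :=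
      hf.comp Primrec.fst
    have e1 : PrimrecPred fun r : ((ℕ × (Code × List (List Bool))) × ℕ) × Code =>
        Embeds (graph r.1.1.2.1) (graph (hCode2 (r.1.1.2.1 ++ r.1.1.2.2) r.2)) :=
      emb hB4 (hA.comp hg) (hc2 hB5 (hAZ.comp hg) Primrec.snd)
    have e2 : PrimrecPred fun r : ((ℕ × (Code × List (List Bool))) × ℕ) × Code =>
        Clique (r.2, r.1.1.1) := cli hB2 Primrec.snd (hk.comp hg)
    have e3 : PrimrecPred fun r : ((ℕ × (Code × List (List Bool))) × ℕ) × Code =>
        Embeds (graph r.1.1.2.1) (graph (hCode2 (r.1.1.2.1 ++ r.1.1.2.2) r.2)) →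
          Clique (r.2, r.1.1.1) := imp e1 e2
    have hw : Primrec fun q : (ℕ × (Code × List (List Bool))) × ℕ =>
        wordsOf (wordsOf [true, false] q.2) q.2 := wds hB1 Primrec.snd
    have e4 : PrimrecPred fun q : (ℕ × (Code × List (List Bool))) × ℕ =>
        ∀ Γ ∈ wordsOf (wordsOf [true, false] q.2) q.2,
          Embeds (graph q.1.2.1) (graph (hCode2 (q.1.2.1 ++ q.1.2.2) Γ)) → Clique (Γ, q.1.1) :=
      ballMem (R := fun (q : (ℕ × (Code × List (List Bool))) × ℕ) Γ =>
        Embeds (graph q.1.2.1) (graph (hCode2 (q.1.2.1 ++ q.1.2.2) Γ)) → Clique (Γ, q.1.1)) hw e3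
    exact ballLt (R := fun (p : ℕ × (Code × List (List Bool))) n =>
      ∀ Γ ∈ wordsOf (wordsOf [true, false] n) n,
        Embeds (graph p.2.1) (graph (hCode2 (p.2.1 ++ p.2.2) Γ)) → Clique (Γ, p.1)) hl e4
  exact c1.and (c2.and c3)

end Pool.Agent.PReg

end
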