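import Pool.Agent.Work.MP_cfa43e_lc.Reg.StmtsB
import Pool.Agent.Work.MP_cfa43e_lc.Bd.B07

/-! Bundle of small proof modules (one section per former module). -/

section

/-!
# R5: cells with two values
-/

set_option autoImplicit false

namespace Pool.Agent.PReg

open Pool.Agent.PEmb

namespace ItR5

variable {V W : Type}

theorem cmp_cell {i j : ℕ} {p q : Option W × Option W}
    (h : cmp (zb (.cell i j)) (zb (.cell i j)) p q) : p = q := by
  by_cases hij : i = j
  · simp only [zb, if_pos hij, cmp] at h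
    exact h
  · simp only [zb, if_neg hij, cmp] at h
    exact h

theorem walk_copy [Finite V] (hA1 : PA1) {k δ Δ : ℕ} {G : SimpleGraph V} {zn : V → Zn}
    {Γ : SimpleGraph W} {X : Set V} {f : V → V × (Option W × Option W)}
    (h : Sit k δ Δ G zn Γ X f) (i j : ℕ) (x : Option W × Option W)
    {u v : {v | zn v = Zn.cell i j}} (p : (G.induce {v | zn v = Zn.cell i j}).Walk u v) :
    (∃ b ∈ X, f b = (u.1, x)) → ∃ b ∈ X, f b = (v.1, x) := by
  induction p with
  | nil => exact id
  | @cons u w v hadj p ih =>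
    rintro ⟨b, hb, hfb⟩
    apply ih
    have hG : G.Adj u.1 w.1 := hadj
    have hu : zn (f b).1 = Zn.cell i j := by rw [hfb]; exact u.2
    obtain ⟨b', hb', hbb', hfb'⟩ := hA1 k δ Δ G zn Γ X f h b hb i j hu w.1 (by rw [hfb]; exact hG)
    have hh : cmp (zb (zn (f b).1)) (zb (zn (f b').1)) (f b).2 (f b').2 :=
      (h.adj b b' hbb').2.2.2
    rw [hu, show zn (f b').1 = Zn.cell i j by rw [hfb']; exact w.2] at hh
    have := cmp_cell hh
    refine ⟨b', hb', ?_⟩
    rw [← Prod.mk.eta (p := f b'), hfb', ← this, hfb]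

theorem copy [Finite V] (hA1 : PA1) {k δ Δ : ℕ} {G : SimpleGraph V} {zn : V → Zn}
    {Γ : SimpleGraph W} {X : Set V} {f : V → V × (Option W × Option W)}
    (h : Sit k δ Δ G zn Γ X f) (i j : ℕ) (a : V) (ha : a ∈ X)
    (hz : zn (f a).1 = Zn.cell i j) (c : V) (hc : zn c = Zn.cell i j) :
    ∃ b ∈ X, f b = (c, (f a).2) := by
  obtain ⟨hi, hj⟩ := h.lay.rc _ _ _ hz
  have hconn := h.lay.cell i j hi hj
  obtain ⟨p⟩ := hconn.preconnected ⟨(f a).1, hz⟩ ⟨c, hc⟩
  exact walk_copy hA1 h i j (f a).2 p ⟨a, ha, rfl⟩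

/-- every vertex has a neighbour -/
theorem exists_adj {k d : ℕ} {G : SimpleGraph V} {zn : V → Zn}
    {Γ : SimpleGraph W} {f : V → V × (Option W × Option W)}
    (h : Sit k d d G zn Γ Set.univ f) (a : V) : ∃ b, G.Adj a b := by
  have h1 := h.lo a (Set.mem_univ a)
  have h2 := h.pos
  have h3 : (G.neighborSet a ∩ Set.univ).ncard ≠ 0 := by omega
  obtain ⟨b, hb⟩ := Set.nonempty_of_ncard_ne_zero h3
  exact ⟨b, hb.1⟩

theorem pin_val {k d : ℕ} {G : SimpleGraph V} {zn : V → Zn}
    {Γ : SimpleGraph W} {f : V → V × (Option W × Option W)}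
    (h : Sit k d d G zn Γ Set.univ f) (a : V) (ha : zn (f a).1 = .pin) :
    (f a).2 = (none, none) := by
  obtain ⟨b, hb⟩ := exists_adj h a
  have h1 : okz Γ (zb (zn (f a).1)) (f a).2 := (h.adj a b hb).2.1
  rw [ha] at h1
  exact h1

theorem pin_uni {k d : ℕ} {G : SimpleGraph V} {zn : V → Zn}
    {Γ : SimpleGraph W} {f : V → V × (Option W × Option W)}
    (h : Sit k d d G zn Γ Set.univ f) (a a' : V) (ha : zn (f a).1 = .pin)
    (haa : (f a).1 = (f a').1) : a = a' := by
  apply h.inj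
  exact Prod.ext haa (by rw [pin_val h a ha, pin_val h a' (by rw [← haa]; exact ha)])

end ItR5

theorem R5 (hA1 : PA1) : PR5 := by
  intro V W _ k d G zn Γ f h _
  refine ⟨?_, ?_, ?_⟩
  · rintro i j ⟨a, a', h1, h2, h3⟩ c hc
    obtain ⟨b, -, hb⟩ := ItR5.copy hA1 h i j a (Set.mem_univ _) h1 c hc
    obtain ⟨b', -, hb'⟩ := ItR5.copy hA1 h i j a' (Set.mem_univ _) h2 c hc
    refine ⟨b, b', ?_, by rw [hb], by rw [hb']⟩
    rintro rfl
    rw [hb] at hb'
    exact h3 (Prod.mk.inj hb').2
  · rintro v hv ⟨a, a', hne, h1, h2⟩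
    exact hne (ItR5.pin_uni h a a' (by rw [h1]; exact hv) (by rw [h1, h2]))
  · rintro v i j hv ⟨a, a', hne, h1, h2⟩
    refine ⟨a, a', by rw [h1]; exact hv, by rw [h2]; exact hv, fun he => hne (h.inj ?_)⟩
    exact Prod.ext (by rw [h1, h2]) he

end Pool.Agent.PReg

end

section

/-!
# R6: counting vertices without twins
-/

set_option autoImplicit false

namespace Pool.Agent.PReg

open Pool.Agent.PEmb

namespace ItR6

theorem self_ball {V : Type} (G : SimpleGraph V) (v : V) : v ∈ ball G 2 v := by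
  left
  left
  rfl

/-- the abstract counting argument -/
theorem count {V : Type} [Fintype V] [DecidableEq V] (g : V → V) (TF M S : Finset V) (D : ℕ)
    (hM : M ⊆ TF)
    (h1 : ∀ v, v ∉ M → (TF.filter fun a => g a = v).card ≤ if v ∈ TF then 1 else 0)
    (h2 : ∀ v ∈ M, v ∉ S → (TF.filter fun a => g a = v).card = 0)
    (h3 : ∀ v ∈ M, (TF.filter fun a => g a = v).card ≤ D) :
    M.card ≤ D * (M.filter fun v => v ∈ S).card := by
  have e1 : TF.card = ∑ v : V, (TF.filter fun a => g a = v).card :=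
    Finset.card_eq_sum_card_fiberwise (f := g) (s := TF) (t := Finset.univ)
      (fun _ _ => Finset.mem_coe.2 (Finset.mem_univ _))
  have e2 : ∑ v : V, (TF.filter fun a => g a = v).card =
      ∑ v ∈ M, (TF.filter fun a => g a = v).card +
        ∑ v ∈ Mᶜ, (TF.filter fun a => g a = v).card :=
    (Finset.sum_add_sum_compl M _).symm
  have e3 : ∑ v ∈ Mᶜ, (TF.filter fun a => g a = v).card ≤ (TF \ M).card := by
    calc ∑ v ∈ Mᶜ, (TF.filter fun a => g a = v).card
        ≤ ∑ v ∈ Mᶜ, (if v ∈ TF then 1 else 0) :=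
          Finset.sum_le_sum fun v hv => h1 v (by simpa using hv)
      _ = (Mᶜ.filter fun v => v ∈ TF).card := by rw [Finset.card_filter]
      _ ≤ (TF \ M).card := by
          apply Finset.card_le_card
          intro v hv
          rw [Finset.mem_filter, Finset.mem_compl] at hv
          rw [Finset.mem_sdiff]
          exact ⟨hv.2, hv.1⟩
  have e4 : (TF \ M).card + M.card = TF.card := Finset.card_sdiff_add_card_eq_card hM
  have e5 : ∑ v ∈ M, (TF.filter fun a => g a = v).card ≤
      D * (M.filter fun v => v ∈ S).card := by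
    calc ∑ v ∈ M, (TF.filter fun a => g a = v).card
        ≤ ∑ v ∈ M, (if v ∈ S then D else 0) := by
          refine Finset.sum_le_sum fun v hv => ?_
          split_ifs with h
          · exact h3 v hv
          · exact (h2 v hv h).le
      _ = D * (M.filter fun v => v ∈ S).card := by
          rw [← Finset.sum_filter, Finset.sum_const, smul_eq_mul, mul_comm]
  omega

end ItR6

theorem R6 (hR1 : PR1) (hR2 : PR2) (hR3 : PR3) (hR5 : PR5) (hV0 : PV0) : PR6 := by
  intro V W _ k d G zn Γ f E hs hd h4 hE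
  classical
  cases nonempty_fintype V
  obtain ⟨h51, h52, h53⟩ := hR5 k d G zn Γ f hs hd
  have hpin : ∀ v, Mul f v → zn v ≠ .pin := fun v hv h => h52 v h hv
  have key := ItR6.count (fun a => (f a).1) (Finset.univ.filter fun a => TFree d G a)
    (Finset.univ.filter fun v => Mul f v)
    (Finset.univ.filter fun v => v ∈ E ∨ ∃ o i j, zn v = .port o i j) (d ^ 3) ?_ ?_ ?_ ?_
  · have e1 : {v | Mul f v} = ((Finset.univ.filter fun v => Mul f v : Finset V) : Set V) := by
      ext v; simp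
    have e2 : {v | Mul f v ∧ (v ∈ E ∨ ∃ o i j, zn v = .port o i j)} =
        (((Finset.univ.filter fun v => Mul f v).filter fun v =>
          v ∈ (Finset.univ.filter fun v => v ∈ E ∨ ∃ o i j, zn v = .port o i j) : Finset V) :
            Set V) := by
      ext v; simp
    rw [e1, e2, Set.ncard_coe_finset, Set.ncard_coe_finset]
    exact key
  · intro v hv
    rw [Finset.mem_filter] at hv ⊢
    exact ⟨Finset.mem_univ _, hE.tf v (hpin v hv.2) v (ItR6.self_ball G v)⟩
  · intro v hv
    have hv' : ¬ Mul f v := by simpa using hv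
    split_ifs with hTF
    · rw [Finset.card_le_one]
      intro a ha b hb
      rw [Finset.mem_filter] at ha hb
      by_contra hab
      exact hv' ⟨a, b, hab, ha.2, hb.2⟩
    · rw [Nat.le_zero, Finset.card_eq_zero, Finset.filter_eq_empty_iff]
      intro a ha hav
      have ha' : TFree d G a := (Finset.mem_filter.1 ha).2
      apply hTF
      rw [Finset.mem_filter]
      refine ⟨Finset.mem_univ _, ?_⟩
      by_cases hu : ∃ u ∈ ball G 2 v, Mul f u
      · obtain ⟨u, hu1, hu2⟩ := hu
        exact hE.tf u (hpin u hu2) v ((hV0 G).1 2 u v hu1)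
      · push Not at hu
        rw [← hav]
        refine hR1 k d G zn Γ f hs hd h4 a (fun u hu1 => ?_) ha'
        have hav' : (f a).1 = v := hav
        rw [hav'] at hu1
        exact hu u hu1
  · intro v hv hvS
    have hm : Mul f v := (Finset.mem_filter.1 hv).2
    have hvS' : ¬ (v ∈ E ∨ ∃ o i j, zn v = .port o i j) := by simpa using hvS
    push Not at hvS'
    rw [Finset.card_eq_zero, Finset.filter_eq_empty_iff]
    intro a ha hav
    have hav' : (f a).1 = v := hav
    have ha' : TFree d G a := (Finset.mem_filter.1 ha).2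
    obtain ⟨i, j, hij⟩ : ∃ i j, zn v = .cell i j := by
      rcases h : zn v with _ | ⟨i, j⟩ | ⟨o, i, j⟩
      · exact absurd h (hpin v hm)
      · exact ⟨i, j, rfl⟩
      · exact absurd h (hvS'.2 o i j)
    obtain ⟨a', hne, ha1⟩ : ∃ a', a ≠ a' ∧ (f a').1 = v := by
      obtain ⟨b, b', hbb, hb1, hb2⟩ := hm
      by_cases h : a = b
      · exact ⟨b', by rw [h]; exact hbb, hb2⟩
      · exact ⟨b, h, hb1⟩
    have h2 := hE.u2 v i j hvS'.1 hij
    exact ha' a' (hR2 k d G zn Γ f hs hd a a' i j hne (by rw [hav', ha1])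
      (by rw [hav']; exact hij) (by rw [hav']; exact h2))
  · intro v _
    have h3 := hR3 k d G zn Γ f hs hd h4 hE.u3 v
    refine le_trans ?_ h3
    rw [← Set.ncard_coe_finset]
    apply Set.ncard_le_ncard
    · intro a ha
      rw [Finset.mem_coe, Finset.mem_filter] at ha
      exact ha.2
    · exact Set.toFinite _

end Pool.Agent.PReg

end

section

/-!
# Item R7: every cell has at most one value
-/

set_option autoImplicit false

namespace Pool.Agent.PReg

open Pool.Agent.PEmb

namespace ItR7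

theorem ex_lt {k : ℕ} {o : Bool} {i j : ℕ} (h : Ex k o i j) : i < k ∧ j < k := by
  cases o
  · have h1 : i < k ∧ j + 1 < k := h
    exact ⟨h1.1, by omega⟩
  · have h1 : i + 1 < k ∧ j < k := h
    exact ⟨by omega, h1.2⟩

end ItR7

theorem R7 (hR4 : PR4) (hR5 : PR5) (hR6 : PR6) : PR7 := by
  intro V W _ k d G zn Γ f E hS hd h4 hF
  classical
  have := Fintype.ofFinite V
  obtain ⟨h5a, h5b, h5c⟩ := hR5 k d G zn Γ f hS hd
  have h6 := hR6 k d G zn Γ f E hS hd h4 hF
  intro a _ a' _ i0 j0 ha ha'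
  by_contra hne
  have hD0 : Dbl zn f i0 j0 := ⟨a, a', ha, ha', hne⟩
  have hk0 := hF.lay.rc _ _ _ ha
  set D : Finset (ℕ × ℕ) :=
    ((Finset.range k) ×ˢ (Finset.range k)).filter (fun p => Dbl zn f p.1 p.2) with hD
  have hmemD : ∀ i j, (i, j) ∈ D ↔ (i < k ∧ j < k) ∧ Dbl zn f i j := by
    intro i j
    simp [hD]
  have hDne : D.Nonempty := ⟨(i0, j0), (hmemD _ _).2 ⟨hk0, hD0⟩⟩
  set M : Set V := {v | Mul f v} with hM
  set M' : Set V := {v | Mul f v ∧ (v ∈ E ∨ ∃ o i j, zn v = .port o i j)} with hM'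
  -- (a)
  have hport : ∀ v, Mul f v → ∀ o i j, zn v = .port o i j → ∃ p ∈ D, v ∈ Exc zn E p.1 p.2 := by
    intro v hv o i j hz
    have hex := hF.lay.rp _ _ _ _ hz
    rcases hR4 k d G zn Γ f hS hd v o i j hz hv with h | h
    · exact ⟨(i, j), (hmemD _ _).2 ⟨ItR7.ex_lt hex, h⟩, Or.inr ⟨o, i, j, hz, Or.inl rfl⟩⟩
    · exact ⟨((nx o i j).1, (nx o i j).2), (hmemD _ _).2 ⟨hex, h⟩,
        Or.inr ⟨o, i, j, hz, Or.inr rfl⟩⟩
  have hsub : M' ⊆ ⋃ p ∈ D, Exc zn E p.1 p.2 := by
    intro v hv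
    obtain ⟨hv, hv2⟩ := hv
    have key : ∃ p ∈ D, v ∈ Exc zn E p.1 p.2 := by
      rcases hz : zn v with _ | ⟨i, j⟩ | ⟨o, i, j⟩
      · exact absurd hv (h5b v hz)
      · rcases hv2 with hE | ⟨o, i', j', hz'⟩
        · exact ⟨(i, j), (hmemD _ _).2 ⟨hF.lay.rc _ _ _ hz, h5c v i j hz hv⟩, Or.inl ⟨hE, hz⟩⟩
        · rw [hz] at hz'
          cases hz'
      · exact hport v hv o i j hz
    obtain ⟨p, hp, hvp⟩ := key
    exact Set.mem_biUnion hp hvp
  have hcard1 : M'.ncard ≤ ∑ p ∈ D, (Exc zn E p.1 p.2).ncard := by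
    refine (Set.ncard_le_ncard hsub (Set.toFinite _)).trans ?_
    have e : (⋃ p ∈ D, Exc zn E p.1 p.2) =
        ((D.biUnion fun p => (Exc zn E p.1 p.2).toFinset : Finset V) : Set V) := by
      ext v
      simp
    rw [e, Set.ncard_coe_finset]
    refine Finset.card_biUnion_le.trans (le_of_eq (Finset.sum_congr rfl fun p _ => ?_))
    rw [Set.ncard_eq_toFinset_card']
  -- (b)
  have hcard2 : ∑ p ∈ D, {v | v ∉ E ∧ zn v = .cell p.1 p.2}.ncard ≤ M.ncard := by
    have e : ∑ p ∈ D, {v | v ∉ E ∧ zn v = .cell p.1 p.2}.ncard =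
        (D.biUnion fun p => {v | v ∉ E ∧ zn v = .cell p.1 p.2}.toFinset).card := by
      rw [Finset.card_biUnion]
      · refine Finset.sum_congr rfl fun p _ => ?_
        rw [Set.ncard_eq_toFinset_card']
      · intro p _ q _ hpq
        refine Finset.disjoint_left.2 ?_
        intro v hv hv'
        rw [Set.mem_toFinset] at hv hv'
        have h1 := hv.2
        rw [hv'.2] at h1
        apply hpq
        simp only [Zn.cell.injEq] at h1
        exact Prod.ext h1.1.symm h1.2.symm
    rw [e, ← Set.ncard_coe_finset]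
    refine Set.ncard_le_ncard ?_ (Set.toFinite _)
    intro v hv
    simp only [Finset.coe_biUnion, Set.mem_iUnion, Set.coe_toFinset] at hv
    obtain ⟨⟨i, j⟩, hp, hv⟩ := hv
    exact h5a i j ((hmemD _ _).1 (Finset.mem_coe.1 hp)).2 v hv.2
  have hlt : ∑ p ∈ D, d ^ 3 * (Exc zn E p.1 p.2).ncard <
      ∑ p ∈ D, {v | v ∉ E ∧ zn v = .cell p.1 p.2}.ncard := by
    refine Finset.sum_lt_sum_of_nonempty hDne ?_
    rintro ⟨i, j⟩ hp
    have h1 := ((hmemD _ _).1 hp).1
    exact hF.size i j h1.1 h1.2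
  rw [← Finset.mul_sum] at hlt
  have h7 : d ^ 3 * M'.ncard ≤ d ^ 3 * ∑ p ∈ D, (Exc zn E p.1 p.2).ncard :=
    Nat.mul_le_mul_left _ hcard1
  omega

end Pool.Agent.PReg

end

section

/-!
# V0: balls
-/

set_option autoImplicit false

namespace Pool.Agent.PReg

open Pool.Agent.PEmb

namespace ItV0

variable {V : Type}

theorem mono (G : SimpleGraph V) (r s : ℕ) (v : V) (h : r ≤ s) : ball G r v ⊆ ball G s v := by
  induction s, h using Nat.le_induction with
  | base => exact subset_rfl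
  | succ s _ ih => exact fun w hw => Or.inl (ih hw)

theorem trans (G : SimpleGraph V) (r s : ℕ) (u v w : V) (h : u ∈ ball G r v)
    (h' : w ∈ ball G s u) : w ∈ ball G (r + s) v := by
  induction s generalizing w with
  | zero =>
    have e : w = u := h'
    rw [e]
    exact h
  | succ s ih =>
    rcases h' with h' | ⟨x, hx, hadj⟩
    · exact Or.inl (ih w h')
    · exact Or.inr ⟨x, ih x hx, hadj⟩

theorem symm (G : SimpleGraph V) (r : ℕ) (u v : V) (h : u ∈ ball G r v) : v ∈ ball G r u := by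
  induction r generalizing u with
  | zero =>
    have e : u = v := h
    rw [e]
    exact rfl
  | succ r ih =>
    rcases h with h | ⟨x, hx, hadj⟩
    · exact Or.inl (ih u h)
    · have h1 : x ∈ ball G 1 u := Or.inr ⟨u, rfl, hadj.symm⟩
      have h2 := trans G 1 r x u v h1 (ih x hx)
      rw [Nat.add_comm] at h2
      exact h2

end ItV0

/-- V0: balls. -/
theorem V0 : PV0 := by
  intro V G
  exact ⟨fun r u v h => ItV0.symm G r u v h, fun r s u v w h h' => ItV0.trans G r s u v w h h',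
    fun r s v h => ItV0.mono G r s v h⟩

end Pool.Agent.PReg

end

section

/-!
# V1: a maximal set with disjoint balls
-/

set_option autoImplicit false

namespace Pool.Agent.PReg

open Pool.Agent.PEmb

theorem V1 (hV0 : PV0) : PV1 := by
  intro V _ G T
  obtain ⟨h1, h2, h3⟩ := hV0 G
  let S : Set (Set V) := {Z | Z ⊆ T ∧
    ∀ u ∈ Z, ∀ v ∈ Z, u ≠ v → Disjoint (ball G 2 u) (ball G 2 v)}
  have hS : S.Finite := Set.toFinite S
  obtain ⟨Z, hZ, hmax⟩ := Set.exists_max_image S Set.ncard hS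
    ⟨∅, Set.empty_subset _, fun u hu => absurd hu (Set.notMem_empty u)⟩
  refine ⟨Z, hZ.1, hZ.2, fun t ht hd => ?_⟩
  have hself : t ∈ ball G 4 t := h3 0 4 t (by omega) rfl
  have htZ : t ∉ Z := fun h => Set.disjoint_left.mp hd hself h
  have key : ∀ v ∈ Z, Disjoint (ball G 2 t) (ball G 2 v) := by
    intro v hv
    rw [Set.disjoint_left]
    intro x hx hx'
    have h4 : v ∈ ball G 2 x := h1 2 x v hx'
    exact Set.disjoint_left.mp hd (h2 2 2 x t v hx h4) hv
  have hins : insert t Z ∈ S := by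
    refine ⟨Set.insert_subset ht hZ.1, ?_⟩
    intro u hu v hv huv
    rcases hu with rfl | hu
    · rcases hv with rfl | hv
      · exact absurd rfl huv
      · exact key v hv
    · rcases hv with rfl | hv
      · exact (key u hu).symm
      · exact hZ.2 u hu v hv huv
  have h5 := hmax _ hins
  rw [Set.ncard_insert_of_notMem htZ (Set.toFinite Z)] at h5
  omega

end Pool.Agent.PReg

end

section

/-!
# V3: degrees in the quotient
-/

set_option autoImplicit false

namespace Pool.Agent.PReg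

open Pool.Agent.PEmb

theorem V3 : PV3 := by
  classical
  intro V _ G π d s hd hs a
  have _ : Fintype V := Fintype.ofFinite V
  unfold dg
  have hsub : (quo G π).neighborSet a ⊆
      ((((Finset.univ.filter fun x => π x = a).biUnion fun x =>
        (Finset.univ.filter fun y => G.Adj x y).image π) : Finset V) : Set V) := by
    intro b hb
    rw [SimpleGraph.mem_neighborSet] at hb
    obtain ⟨-, x, y, hx, hy, hxy⟩ := hb
    rw [Finset.mem_coe, Finset.mem_biUnion]
    exact ⟨x, by simp [hx], Finset.mem_image.2 ⟨y, by simp [hxy], hy⟩⟩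
  refine (Set.ncard_le_ncard hsub (Finset.finite_toSet _)).trans ?_
  rw [Set.ncard_coe_finset]
  refine (Finset.card_biUnion_le_card_mul _ _ d fun x _ => ?_).trans ?_
  · refine Finset.card_image_le.trans ?_
    have h1 := hd x
    unfold dg at h1
    have h2 : G.neighborSet x = ((Finset.univ.filter fun y => G.Adj x y : Finset V) : Set V) := by
      ext y; simp
    rw [h2, Set.ncard_coe_finset] at h1
    exact h1
  · refine Nat.mul_le_mul_right _ ?_
    have h1 := hs a
    have h2 : π ⁻¹' {a} = ((Finset.univ.filter fun x => π x = a : Finset V) : Set V) := by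
      ext y; simp
    rw [h2, Set.ncard_coe_finset] at h1
    exact h1

end Pool.Agent.PReg

end

section

/-!
# V5: models with one-element classes
-/

set_option autoImplicit false

namespace Pool.Agent.PReg

open Pool.Agent.PEmb

theorem V5 : PV5 := by
  intro V _ G π K P U ρ hπ hM
  have hadj : ∀ u ∈ U, ∀ v ∈ U, (quo G π).Adj u v ↔ G.Adj u v := by
    intro u hu v hv
    constructor
    · rintro ⟨-, x, y, hx, hy, hxy⟩
      have e1 : x ∈ π ⁻¹' {u} := hx
      have e2 : y ∈ π ⁻¹' {v} := hy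
      rw [(hπ u hu).2, Set.mem_singleton_iff] at e1
      rw [(hπ v hv).2, Set.mem_singleton_iff] at e2
      rw [← e1, ← e2]
      exact hxy
    · intro h
      exact ⟨h.ne, u, v, (hπ u hu).1, (hπ v hv).1, h⟩
  have hind : ∀ S : Set V, S ⊆ U → (quo G π).induce S = G.induce S := by
    intro S hS
    ext x y
    exact hadj x.1 (hS x.2) y.1 (hS y.2)
  have hset : ∀ v ∈ U, {u | u ∈ U ∧ G.Adj v u} = {u | u ∈ U ∧ (quo G π).Adj v u} := by
    intro v hv
    ext u
    exact ⟨fun h => ⟨h.1, (hadj v hv u h.1).mpr h.2⟩, fun h => ⟨h.1, (hadj v hv u h.1).mp h.2⟩⟩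
  refine ⟨⟨hM.ip.vx, fun x hx => ?_, fun x y hxy => ?_, fun u hu v hv h => ?_⟩, hM.c3,
    fun v hv => ?_, fun v hv h => ?_⟩
  · rw [← hind _ (fun u hu => hu.1)]
    exact hM.ip.conn x hx
  · obtain ⟨u, hu, v, hv, h1, h2, h3⟩ := hM.ip.adj x y hxy
    exact ⟨u, hu, v, hv, h1, h2, (hadj u hu v hv).mp h3⟩
  · exact hM.ip.ind u hu v hv ((hadj u hu v hv).mpr h)
  · rw [hset v hv]
    exact hM.u3 v hv
  · rw [hset v hv]
    exact hM.u2 v hv h

end Pool.Agent.PReg

end

section

/-!
# V6: good models in restrictions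
-/

set_option autoImplicit false

namespace Pool.Agent.PReg

open Pool.Agent.PEmb

namespace ItV6

variable {V : Type}

theorem sub (hP0 : PP0) (G : SimpleGraph V) (S : Set V) (K : ℕ) (P : Par) (U : Set V)
    (ρ : V → Lab) (hA : Adm K P) (hI : IPat K P (rs G S) U ρ) : U ⊆ S := by
  intro u hu
  have hx : Vx K P (ρ u) := hI.vx u hu
  obtain ⟨y, z, hyz, hxy, hxz⟩ := (hP0 K P hA).2.1 (ρ u) hx
  obtain ⟨u', hu', v', hv', h1, h2, h3⟩ := hI.adj (ρ u) y hxy
  by_cases huu : u' = u
  · rw [← huu]; exact h3.2.1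
  · have hc := hI.conn (ρ u) hx
    have hne : (⟨u, hu, rfl⟩ : {w : V // w ∈ {w | w ∈ U ∧ ρ w = ρ u}}) ≠
        (⟨u', hu', h1⟩ : {w : V // w ∈ {w | w ∈ U ∧ ρ w = ρ u}}) := by
      intro h
      exact huu (congrArg Subtype.val h).symm
    have : Nontrivial {w : V // w ∈ {w | w ∈ U ∧ ρ w = ρ u}} := ⟨⟨_, _, hne⟩⟩
    have hs := hc.preconnected.support_eq_univ
    have hm : (⟨u, hu, rfl⟩ : {w : V // w ∈ {w | w ∈ U ∧ ρ w = ρ u}}) ∈
        ((rs G S).induce {w | w ∈ U ∧ ρ w = ρ u}).support := by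
      rw [hs]; exact Set.mem_univ _
    rw [SimpleGraph.mem_support] at hm
    obtain ⟨w, hw⟩ := hm
    have hw' : (rs G S).Adj u w.1 := hw
    exact hw'.2.1

theorem ipat (G : SimpleGraph V) (S : Set V) (K : ℕ) (P : Par) (U : Set V)
    (ρ : V → Lab) (hI : IPat K P (rs G S) U ρ) (hS : U ⊆ S) : IPat K P G U ρ where
  vx := hI.vx
  conn := by
    intro x hx
    have hle : (rs G S).induce {u | u ∈ U ∧ ρ u = x} ≤ G.induce {u | u ∈ U ∧ ρ u = x} := by
      intro a b h
      have h' : (rs G S).Adj a.1 b.1 := h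
      exact h'.1
    exact (hI.conn x hx).mono hle
  adj := by
    intro x y hxy
    obtain ⟨u, hu, v, hv, h1, h2, h3⟩ := hI.adj x y hxy
    exact ⟨u, hu, v, hv, h1, h2, h3.1⟩
  ind := by
    intro u hu v hv h
    exact hI.ind u hu v hv ⟨h, hS hu, hS hv⟩

theorem nbs (G : SimpleGraph V) (S U : Set V) (hS : U ⊆ S) (v : V) (hv : v ∈ U) :
    {u | u ∈ U ∧ G.Adj v u} = {u | u ∈ U ∧ (rs G S).Adj v u} := by
  ext u
  constructor
  · rintro ⟨hu, h⟩
    exact ⟨hu, h, hS hv, hS hu⟩
  · rintro ⟨hu, h⟩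
    exact ⟨hu, h.1⟩

end ItV6

/-- V6: good models in restrictions. -/
theorem V6 (hP0 : PP0) : PV6 := by
  intro V _ G S K P U ρ hA hG
  have hS := ItV6.sub hP0 G S K P U ρ hA hG.ip
  refine ⟨hS, ItV6.ipat G S K P U ρ hG.ip hS, hG.c3, ?_, ?_⟩
  · intro v hv
    rw [ItV6.nbs G S U hS v hv]
    exact hG.u3 v hv
  · intro v hv h
    rw [ItV6.nbs G S U hS v hv]
    exact hG.u2 v hv h

end Pool.Agent.PReg

end

section

/-!
# L0: vertices of the pattern which are not roots; long legs
-/

set_option autoImplicit false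

namespace Pool.Agent.PReg

open Pool.Agent.PEmb

namespace ItL0

lemma ro_lt (o : Bool) : ro o < 4 := by cases o <;> simp [ro]

lemma ri_lt (o : Bool) : ri o < 4 := by cases o <;> simp [ri]

/-- one of the cycles is long -/
lemma long {K : ℕ} {P : Par} (hA : Adm K P) (hK : 0 < K) :
    ∃ i j, i < K ∧ j < K ∧ K ^ 2 ≤ P.z i j + 1 := by
  by_contra hcon
  push Not at hcon
  have hinj : Set.InjOn (fun p : ℕ × ℕ => P.z p.1 p.2)
      (↑(Finset.range K ×ˢ Finset.range K) : Set (ℕ × ℕ)) := by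
    rintro ⟨i, j⟩ h ⟨i', j'⟩ h' e
    simp only [Finset.coe_product, Set.mem_prod, Finset.mem_coe, Finset.mem_range] at h h'
    obtain ⟨e1, e2⟩ := hA.zinj i j i' j' h.1 h.2 h'.1 h'.2 e
    rw [e1, e2]
  have hmaps : Set.MapsTo (fun p : ℕ × ℕ => P.z p.1 p.2)
      (↑(Finset.range K ×ˢ Finset.range K) : Set (ℕ × ℕ)) ↑(Finset.range (K ^ 2 - 1)) := by
    rintro ⟨i, j⟩ h
    simp only [Finset.coe_product, Set.mem_prod, Finset.mem_coe, Finset.mem_range] at h ⊢
    have := hcon i j h.1 h.2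
    omega
  have hc := Finset.card_le_card_of_injOn _ hmaps hinj
  rw [Finset.card_product, Finset.card_range, Finset.card_range] at hc
  have : 0 < K ^ 2 := by positivity
  have e : K ^ 2 = K * K := by ring
  omega

end ItL0

open ItL0 ItP0

/-- L0. -/
theorem L0 : PL0 := by
  intro K P hA
  refine ⟨?_, ?_⟩
  · intro x hx
    by_cases hv : Vx K P x
    · cases x with
      | core i j s =>
        obtain ⟨hi, hj, hs⟩ := hv
        refine ⟨.core i j ((s + 1) % P.z i j), .core i j ((s + P.z i j - 1) % P.z i j), ?_⟩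
        intro y hy
        rcases nb_core hs hy with h | h | h | h
        · exact Or.inl h
        · exact Or.inr h
        · obtain ⟨o, h1, -⟩ := h
          exact absurd (by rw [h1]) (hx i j (ro o) (ro_lt o))
        · obtain ⟨o, a, b, -, -, h3, -⟩ := h
          exact absurd (by rw [h3]) (hx i j (ri o) (ri_lt o))
      | leg o i j s => exact ⟨_, _, fun y hy => nb_leg hA hy⟩
    · exact ⟨x, x, fun y hy => absurd (ItRC.adj_vx hA hy).1 hv⟩
  · intro o i j hex
    have hK : 0 < K := by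
      have := hex.1
      omega
    obtain ⟨i', j', hi', hj', hz⟩ := long hA hK
    have := hA.lbig o i j i' j' hex hi' hj'
    omega

end Pool.Agent.PReg

end
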