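import Pool.Agent.Work.MP_cfa43e_lc.Her.Stmts
import Pool.Agent.Work.MP_cfa43e_lc.Bd.B14
import Pool.Agent.Work.MP_cfa43e_lc.E20
import Pool.Agent.Work.MP_cfa43e_lc.Bd.B15
import Pool.Agent.Work.MP_cfa43e_lc.Bd.B03
import Pool.Agent.Work.MP_cfa43e_lc.Bd.B07
import Pool.Agent.Work.MP_cfa43e_lc.Reg.A6

/-! Bundle of small proof modules (one section per former module). -/

section

/-!
# C1: a system of cells is a pattern with general cores
-/

set_option autoImplicit false

namespace Pool.Agent.PHer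

open Pool.Agent.PEmb Pool.Agent.PReg

namespace ItC1

/-- Enumeration of a finite set. -/
lemma enum {V : Type} [Nonempty V] (S : Set V) (hS : S.Finite) :
    ∃ en : ℕ → V, (∀ s s', s < S.ncard → s' < S.ncard → en s = en s' → s = s') ∧
      (∀ s, s < S.ncard → en s ∈ S) ∧ (∀ v ∈ S, ∃ s, s < S.ncard ∧ en s = v) := by
  classical
  have hc : S.ncard = hS.toFinset.card := Set.ncard_eq_toFinset_card S hS
  let e := hS.toFinset.equivFin
  refine ⟨fun s => if h : s < hS.toFinset.card then (e.symm ⟨s, h⟩ : V) else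
    Classical.arbitrary V, ?_, ?_, ?_⟩
  · intro s s' h h' he
    rw [hc] at h h'
    simp only [h, h', dif_pos] at he
    have h2 := e.symm.injective (Subtype.ext he)
    simpa using h2
  · intro s h
    rw [hc] at h
    simp only [h, dif_pos]
    exact hS.mem_toFinset.1 (e.symm ⟨s, h⟩).2
  · intro v hv
    have hv' : v ∈ hS.toFinset := by simpa using hv
    refine ⟨(e ⟨v, hv'⟩ : ℕ), ?_, ?_⟩
    · rw [hc]; exact (e ⟨v, hv'⟩).2
    · simp

end ItC1

/-- C1. -/
theorem C1 : PC1 := by
  classical
  intro V _ k G C rt L l hC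
  have hfin : ∀ i j, i < k → j < k → (C i j).Finite := by
    intro i j hi hj
    have := hC.size i j hi hj
    exact Set.finite_of_ncard_pos (by omega)
  have hen : ∀ i j, ∃ en : ℕ → V, i < k → j < k →
      (∀ s s', s < (C i j).ncard → s' < (C i j).ncard → en s = en s' → s = s') ∧
      (∀ s, s < (C i j).ncard → en s ∈ C i j) ∧
      (∀ v ∈ C i j, ∃ s, s < (C i j).ncard ∧ en s = v) := by
    intro i j
    by_cases h : i < k ∧ j < k
    · obtain ⟨en, he⟩ := ItC1.enum (C i j) (hfin i j h.1 h.2)
      exact ⟨en, fun _ _ => he⟩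
    · exact ⟨fun _ => Classical.arbitrary V, fun hi hj => absurd ⟨hi, hj⟩ h⟩
  choose en hen using hen
  have einj := fun i j hi hj => (hen i j hi hj).1
  have emem := fun i j hi hj => (hen i j hi hj).2.1
  have hidx : ∀ i j v, ∃ s, i < k → j < k → v ∈ C i j → s < (C i j).ncard ∧ en i j s = v := by
    intro i j v
    by_cases h : i < k ∧ j < k ∧ v ∈ C i j
    · obtain ⟨s, hs⟩ := (hen i j h.1 h.2.1).2.2 v h.2.2
      exact ⟨s, fun _ _ _ => hs⟩
    · exact ⟨0, fun hi hj hv => absurd ⟨hi, hj, hv⟩ h⟩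
  choose idx hidx using hidx
  have idx_en : ∀ i j s, i < k → j < k → s < (C i j).ncard → idx i j (en i j s) = s := by
    intro i j s hi hj hs
    have h := hidx i j (en i j s) hi hj (emem i j hi hj s hs)
    exact einj i j hi hj _ _ h.1 hs h.2
  let P : Par := ⟨fun i j => (C i j).ncard, fun i j d => idx i j (rt i j d), l⟩
  let E : ℕ → ℕ → ℕ → ℕ → Prop := fun i j s s' => G.Adj (en i j s) (en i j s')
  let φ : Lab → V := fun x => match x with
    | .core i j s => en i j s
    | .leg o i j s => L o i j s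
  have hr : ∀ i j d, i < k → j < k → d < 4 → P.r i j d < (C i j).ncard ∧
      en i j (P.r i j d) = rt i j d := fun i j d hi hj hd =>
    hidx i j (rt i j d) hi hj (hC.rtC i j d hi hj hd)
  have hro : ∀ o, ro o < 4 := by intro o; cases o <;> simp [ro]
  have hri : ∀ o, ri o < 4 := by intro o; cases o <;> simp [ri]
  have hExl : ∀ o i j, Ex k o i j → i < k ∧ j < k := by
    intro o i j h
    cases o <;> simp [Ex, nx] at h <;> omega
  have hadm : Adm k P := by
    refine ⟨hC.size, hC.sinj, ?_, ?_, hC.lbig⟩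
    · intro i j d hi hj hd
      exact (hr i j d hi hj hd).1
    · intro i j d d' hi hj hd hd' he
      apply hC.rtinj i j d d' hi hj hd hd'
      rw [← (hr i j d hi hj hd).2, ← (hr i j d' hi hj hd').2, he]
  refine ⟨P, E, φ, ?_, ?_, ?_, ?_⟩
  · refine ⟨hadm, ?_, ?_, ?_, ?_, ?_⟩
    · intro i j s h
      exact G.loopless.irrefl _ h
    · intro i j s s' h
      exact h.symm
    · intro i j s hi hj hs
      obtain ⟨a, ha, b, hb, hab, h1, h2⟩ := hC.deg2 i j hi hj (en i j s) (emem i j hi hj s hs)
      have ha' := hidx i j a hi hj ha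
      have hb' := hidx i j b hi hj hb
      refine ⟨idx i j a, idx i j b, ha'.1, hb'.1, ?_, ?_, ?_⟩
      · intro he
        apply hab
        rw [← ha'.2, ← hb'.2, he]
      · change G.Adj _ _
        rw [ha'.2]; exact h1
      · change G.Adj _ _
        rw [hb'.2]; exact h2
    · intro i j s s' hi hj hs hs'
      have hcon := hC.conn i j hi hj
      have hre := hcon.preconnected ⟨en i j s, emem i j hi hj s hs⟩
        ⟨en i j s', emem i j hi hj s' hs'⟩
      rw [SimpleGraph.reachable_iff_reflTransGen] at hre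
      have hl := Relation.ReflTransGen.lift (fun v : C i j => idx i j v.1)
        (p := fun a b => a < P.z i j ∧ b < P.z i j ∧ E i j a b) ?_ _ _ hre
      · have e1 := idx_en i j s hi hj hs
        have e2 := idx_en i j s' hi hj hs'
        simp only [Function.onFun] at hl
        rw [e1, e2] at hl
        exact hl
      · rintro ⟨a, ha⟩ ⟨b, hb⟩ hab
        have ha' := hidx i j a hi hj ha
        have hb' := hidx i j b hi hj hb
        refine ⟨ha'.1, hb'.1, ?_⟩
        change G.Adj _ _
        simp only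
        rw [ha'.2, hb'.2]
        exact hab
    · rintro i j i' j' hi hj hi' hj' hne ⟨g, g1, g2, g3⟩
      apply hC.nohom i j i' j' hi hj hi' hj' hne
      refine ⟨fun v => en i' j' (g (idx i j v)), ?_, ?_, ?_⟩
      · intro a ha b hb hab
        have ha' := hidx i j a hi hj ha
        have hb' := hidx i j b hi hj hb
        have h1 := einj i' j' hi' hj' _ _ (g1 _ ha'.1) (g1 _ hb'.1) hab
        have h2 := g2 _ _ ha'.1 hb'.1 h1
        rw [← ha'.2, ← hb'.2, h2]
      · intro a ha
        have ha' := hidx i j a hi hj ha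
        exact emem i' j' hi' hj' _ (g1 _ ha'.1)
      · intro a ha b hb hab
        have ha' := hidx i j a hi hj ha
        have hb' := hidx i j b hi hj hb
        apply g3 _ _ ha'.1 hb'.1
        change G.Adj _ _
        rw [ha'.2, hb'.2]
        exact hab
  · intro x y hx hy he
    cases x with
    | core i j s =>
      obtain ⟨hi, hj, hs⟩ := hx
      cases y with
      | core i' j' s' =>
        obtain ⟨hi', hj', hs'⟩ := hy
        change en i j s = en i' j' s' at he
        by_cases hne : (i, j) = (i', j')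
        · simp only [Prod.mk.injEq] at hne
          obtain ⟨rfl, rfl⟩ := hne
          rw [einj i j hi hj s s' hs hs' he]
        · exfalso
          have hd := hC.disj i j i' j' hi hj hi' hj' hne
          exact Set.disjoint_left.1 hd (emem i j hi hj s hs) (he ▸ emem i' j' hi' hj' s' hs')
      | leg o i' j' s' =>
        obtain ⟨h1, h2, h3⟩ := hy
        change en i j s = L o i' j' s' at he
        exfalso
        exact hC.Lout o i' j' s' i j h1 h2 h3 hi hj (he ▸ emem i j hi hj s hs)
    | leg o i j s =>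
      obtain ⟨h1, h2, h3⟩ := hx
      cases y with
      | core i' j' s' =>
        obtain ⟨hi', hj', hs'⟩ := hy
        change L o i j s = en i' j' s' at he
        exfalso
        exact hC.Lout o i j s i' j' h1 h2 h3 hi' hj' (he ▸ emem i' j' hi' hj' s' hs')
      | leg o' i' j' s' =>
        obtain ⟨h1', h2', h3'⟩ := hy
        obtain ⟨rfl, rfl, rfl, rfl⟩ := hC.Linj o i j o' i' j' s s' h1 h1' h2 h3 h2' h3' he
        rfl
  · -- adjacency
    have hAE : ∀ x y, GAE k P E x y → G.Adj (φ x) (φ y) := by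
      intro x y h
      cases h with
      | cor i j s s' hi hj hs hs' h => exact h
      | out o i j h =>
        obtain ⟨hi, hj⟩ := hExl o i j h
        have hl := hC.lbig o i j i j h hi hj
        change G.Adj (en i j (P.r i j (ro o))) (L o i j 1)
        rw [(hr i j (ro o) hi hj (hro o)).2, ← hC.L0 o i j h]
        exact hC.Lstep o i j 0 h (by omega)
      | step o i j s h hs hl =>
        change s + 1 < l o i j at hl
        exact hC.Lstep o i j s h (by omega)
      | inn o i j h =>
        obtain ⟨hi, hj⟩ := hExl o i j h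
        have hl := hC.lbig o i j i j h hi hj
        change G.Adj (L o i j (l o i j - 1)) (en _ _ (P.r _ _ (ri o)))
        rw [(hr _ _ (ri o) h.1 h.2 (hri o)).2, ← hC.L1 o i j h]
        have := hC.Lstep o i j (l o i j - 1) h (by omega)
        rwa [show l o i j - 1 + 1 = l o i j by omega] at this
    have hCL : ∀ i j s o i' j' s', Vx k P (.core i j s) → Vx k P (.leg o i' j' s') →
        G.Adj (en i j s) (L o i' j' s') → GAdj k P E (.core i j s) (.leg o i' j' s') := by
      rintro i j s o i' j' s' ⟨hi, hj, hs⟩ ⟨h1, h2, h3⟩ ha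
      rcases hC.CL o i' j' s' i j (en i j s) h1 h2 h3 hi hj (emem i j hi hj s hs) ha with
        ⟨rfl, rfl, rfl, he⟩ | ⟨hl, hn, he⟩
      · left
        have : s = P.r i j (ro o) := by
          have h4 := hr i j (ro o) hi hj (hro o)
          exact einj i j hi hj _ _ hs h4.1 (he.trans h4.2.symm)
        rw [this]
        exact GAE.out o i j h1
      · right
        have e1 : i = (nx o i' j').1 := by rw [← hn]
        have e2 : j = (nx o i' j').2 := by rw [← hn]
        have : s = P.r i j (ri o) := by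
          have h4 := hr i j (ri o) hi hj (hri o)
          exact einj i j hi hj _ _ hs h4.1 (he.trans h4.2.symm)
        have h5 : s' = P.l o i' j' - 1 := by
          change s' = l o i' j' - 1
          omega
        rw [this, h5]
        have := GAE.inn (k := k) (P := P) (E := E) o i' j' h1
        rwa [← e1, ← e2] at this
    intro x y hx hy
    constructor
    · intro ha
      cases x with
      | core i j s =>
        cases y with
        | core i' j' s' =>
          obtain ⟨hi, hj, hs⟩ := hx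
          obtain ⟨hi', hj', hs'⟩ := hy
          obtain ⟨rfl, rfl⟩ := hC.CC i j i' j' _ _ hi hj hi' hj' (emem i j hi hj s hs)
            (emem i' j' hi' hj' s' hs') ha
          exact Or.inl (GAE.cor i j s s' hi hj hs hs' ha)
        | leg o i' j' s' => exact hCL i j s o i' j' s' hx hy ha
      | leg o i j s =>
        cases y with
        | core i' j' s' => exact (hCL i' j' s' o i j s hy hx ha.symm).symm
        | leg o' i' j' s' =>
          obtain ⟨h1, h2, h3⟩ := hx
          obtain ⟨h1', h2', h3'⟩ := hy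
          obtain ⟨rfl, rfl, rfl, h | h⟩ := hC.LL o i j s o' i' j' s' h1 h1' h2 h3 h2' h3' ha
          · left
            subst h
            exact GAE.step o i j s h1 h2 h3'
          · right
            subst h
            exact GAE.step o i j s' h1 h2' h3
    · rintro (h | h)
      · exact hAE x y h
      · exact (hAE y x h).symm
  · intro x hx
    cases x with
    | core i j s =>
      obtain ⟨hi, hj, hs⟩ := hx
      exact Or.inl ⟨i, j, hi, hj, emem i j hi hj s hs⟩
    | leg o i j s =>
      obtain ⟨h1, h2, h3⟩ := hx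
      exact Or.inr ⟨o, i, j, s, h1, h2, h3, rfl⟩

end Pool.Agent.PHer

end

section

/-!
# C2 (T3): transport to codes
-/

set_option autoImplicit false

namespace Pool.Agent.PHer

open Pool.Agent.PEmb Pool.Agent.PReg

namespace ItC2

lemma emb_tr {V V' W : Type} (G : SimpleGraph V) (H : SimpleGraph V') (ζ : V → ZB) (ζ' : V' → ZB)
    (Γ : SimpleGraph W) (φ : V ≃ V') (hφ : ∀ x y, G.Adj x y ↔ H.Adj (φ x) (φ y))
    (hζ : ∀ x, ζ' (φ x) = ζ x) (h : Embeds G (host G ζ Γ)) : Embeds H (host H ζ' Γ) := by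
  obtain ⟨F, hF, hA⟩ := h
  refine ⟨fun x => (φ (F (φ.symm x)).1, (F (φ.symm x)).2), ?_, ?_⟩
  · intro x y hxy
    have h1 := (Prod.mk.injEq _ _ _ _).mp hxy
    have h2 := φ.injective h1.1
    exact φ.symm.injective (hF (Prod.ext h2 h1.2))
  · intro x y hxy
    have h1 : G.Adj (φ.symm x) (φ.symm y) := by
      rw [hφ]
      simpa using hxy
    obtain ⟨h2, h3, h4, h5⟩ := hA _ _ h1
    refine ⟨?_, ?_, ?_, ?_⟩
    · exact (hφ _ _).1 h2
    · simp only [hζ]
      exact h3
    · simp only [hζ]
      exact h4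
    · simp only [hζ]
      exact h5

lemma mk_entry (n : ℕ) (F : ℕ → ℕ → Bool) (i j : ℕ) (hi : i < n) (hj : j < n) :
    entry ((List.range n).map (fun i => (List.range n).map (fun j => F i j))) i j = F i j := by
  unfold entry
  simp [List.getD_eq_getElem?_getD, hi, hj]

end ItC2

open ItC2 Classical in
theorem C2 : PC2 := by
  intro V hfin k G ζ hK
  obtain ⟨n, ⟨e⟩⟩ := Finite.exists_equiv_fin V
  set F : ℕ → ℕ → Bool := fun i j =>
    decide (∃ (hi : i < n) (hj : j < n), G.Adj (e.symm ⟨i, hi⟩) (e.symm ⟨j, hj⟩)) with hF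
  set A : Code := (List.range n).map (fun i => (List.range n).map (fun j => F i j)) with hA
  have hlen : A.length = n := by simp [hA]
  set φ : Fin A.length ≃ V := (finCongr hlen).trans e.symm with hφ
  have hadj : ∀ x y : Fin A.length, (graph A).Adj x y ↔ G.Adj (φ x) (φ y) := by
    intro x y
    have hx : (x : ℕ) < n := by rw [← hlen]; exact x.2
    have hy : (y : ℕ) < n := by rw [← hlen]; exact y.2
    have e1 : entry A x y = F x y := mk_entry n F x y hx hy
    have e2 : entry A y x = F y x := mk_entry n F y x hy hx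
    have f1 : φ x = e.symm ⟨x, hx⟩ := rfl
    have f2 : φ y = e.symm ⟨y, hy⟩ := rfl
    show (x ≠ y ∧ (entry A x y = true ∨ entry A y x = true)) ↔ _
    rw [e1, e2, f1, f2]
    constructor
    · rintro ⟨_, h | h⟩
      · obtain ⟨_, _, h1⟩ := of_decide_eq_true h
        exact h1
      · obtain ⟨_, _, h1⟩ := of_decide_eq_true h
        exact h1.symm
    · intro h
      refine ⟨?_, Or.inl ?_⟩
      · intro hxy
        subst hxy
        exact h.ne rfl
      · exact decide_eq_true ⟨hx, hy, h⟩
  refine ⟨A, φ, fun x => ζ (φ x), φ.injective, hadj, ?_⟩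
  intro W Γ
  rw [hK Γ]
  constructor
  · intro h
    refine emb_tr G (graph A) ζ (fun x => ζ (φ x)) Γ φ.symm ?_ ?_ h
    · intro x y
      rw [hadj]
      simp
    · intro x
      simp
  · intro h
    refine emb_tr (graph A) G (fun x => ζ (φ x)) ζ Γ φ ?_ ?_ h
    · exact hadj
    · intro x
      rfl

end Pool.Agent.PHer

end

section

/-!
# E1: a choice with gaps
-/

set_option autoImplicit false

namespace Pool.Agent.PHer

open Pool.Agent.PEmb Pool.Agent.PReg

theorem E1 : PE1 := by
  intro α hα n ok len h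
  have key : ∀ m, m ≤ n → ∃ c : ℕ → α, (∀ i, i < m → ok i (c i)) ∧
      (∀ i, i < m → 20 ≤ len (c i)) ∧
      ∀ i j, i < m → j < m → i ≠ j → len (c i) + 10 ≤ len (c j) ∨ len (c j) + 10 ≤ len (c i) := by
    intro m
    induction m with
    | zero =>
      intro _
      obtain ⟨a⟩ := hα
      exact ⟨fun _ => a, fun i hi => absurd hi (Nat.not_lt_zero _),
        fun i hi => absurd hi (Nat.not_lt_zero _),
        fun i j hi _ _ => absurd hi (Nat.not_lt_zero _)⟩
    | succ m ih =>
      intro hm
      obtain ⟨c, hc1, hc2, hc3⟩ := ih (by omega)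
      have hcard : (Finset.range 20 ∪ (Finset.range m).biUnion
          (fun i => Finset.Icc (len (c i) - 9) (len (c i) + 9))).card < 21 * n + 20 := by
        have h1 : ((Finset.range m).biUnion
            (fun i => Finset.Icc (len (c i) - 9) (len (c i) + 9))).card ≤ m * 19 := by
          have h2 := Finset.card_biUnion_le_card_mul (Finset.range m)
            (fun i => Finset.Icc (len (c i) - 9) (len (c i) + 9)) 19 (by
              intro i _
              rw [Nat.card_Icc]
              omega)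
          rw [Finset.card_range] at h2
          exact h2
        have h3 := Finset.card_union_le (Finset.range 20) ((Finset.range m).biUnion
          (fun i => Finset.Icc (len (c i) - 9) (len (c i) + 9)))
        rw [Finset.card_range] at h3
        omega
      obtain ⟨x, hx1, hx2⟩ := h m (by omega) _ hcard
      have hx20 : 20 ≤ len x := by
        by_contra hcon
        exact hx2 (Finset.mem_union_left _ (Finset.mem_range.2 (by omega)))
      have hx3 : ∀ i, i < m → len (c i) + 10 ≤ len x ∨ len x + 10 ≤ len (c i) := by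
        intro i hi
        by_contra hcon
        push Not at hcon
        apply hx2
        apply Finset.mem_union_right
        rw [Finset.mem_biUnion]
        exact ⟨i, Finset.mem_range.2 hi, Finset.mem_Icc.2 ⟨by omega, by omega⟩⟩
      refine ⟨fun i => if i = m then x else c i, ?_, ?_, ?_⟩
      · intro i hi
        by_cases him : i = m
        · subst him; simpa using hx1
        · simp only [him, if_false]
          exact hc1 i (by omega)
      · intro i hi
        by_cases him : i = m
        · simpa [him] using hx20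
        · simp only [him, if_false]
          exact hc2 i (by omega)
      · intro i j hi hj hij
        by_cases him : i = m
        · by_cases hjm : j = m
          · exact absurd (him.trans hjm.symm) hij
          · simp only [him, hjm, if_false, if_true]
            exact (hx3 j (by omega)).symm
        · by_cases hjm : j = m
          · simp only [him, hjm, if_false, if_true]
            exact hx3 i (by omega)
          · simp only [him, hjm, if_false]
            exact hc3 i j (by omega) (by omega) hij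
  exact key n le_rfl

end Pool.Agent.PHer

end

section

/-!
# E2 (hereditary classes): assembly of the pattern with gaps
-/

set_option autoImplicit false

namespace Pool.Agent.PHer

open Pool.Agent.PEmb Pool.Agent.PReg

open Pool.Agent.PEmb.IE19 in
theorem E2 : PE2 := by
  classical
  intro V hV G k Z Λ rt h1 h2 h3 h4 h5 h6 h7 h8 h9
  obtain ⟨v0⟩ := hV
  have hr : ∀ i j d, ∃ n, (i < k → j < k → d < 4 → n < (Z i j).length ∧
      (Z i j).getD n v0 = rt i j d) := by
    intro i j d
    by_cases h : i < k ∧ j < k ∧ d < 4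
    · obtain ⟨n, hn, he⟩ := List.getElem_of_mem (h4 i j d h.1 h.2.1 h.2.2)
      exact ⟨n, fun _ _ _ => ⟨hn, by rw [List.getD_eq_getElem _ _ hn, he]⟩⟩
    · exact ⟨0, fun a b c => absurd ⟨a, b, c⟩ h⟩
  choose r hr using hr
  have hroi : ∀ o, ro o < 4 ∧ ri o < 4 := by
    intro o; cases o <;> simp [ro, ri]
  have hex : ∀ o i j, Ex k o i j → i < k ∧ j < k := by
    intro o i j h
    cases o <;> simp only [Ex, nx] at h <;> omega
  have hlen : ∀ o i j, Ex k o i j → 3 ≤ (Λ o i j).length := by
    intro o i j h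
    have := h7 o i j i j h (hex o i j h).1 (hex o i j h).2
    omega
  -- start and end of a leg
  have hst : ∀ o i j, Ex k o i j → (Λ o i j).getD 0 v0 = rt i j (ro o) :=
    fun o i j h => getD_head (h6 o i j h).2.2.1
  have hen : ∀ o i j, Ex k o i j → (Λ o i j).getD ((Λ o i j).length - 1) v0 =
      rt (nx o i j).1 (nx o i j).2 (ri o) :=
    fun o i j h => getD_last (h6 o i j h).2.2.2.1
  have hnd : ∀ o i j, Ex k o i j → (Λ o i j).Nodup := fun o i j h => (h6 o i j h).2.1
  -- internal vertices are not on cycles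
  have hint : ∀ o i j s, Ex k o i j → 1 ≤ s → s < (Λ o i j).length - 1 → ∀ i' j', i' < k →
      j' < k → (Λ o i j).getD s v0 ∉ Z i' j' := by
    intro o i j s h hs1 hs2 i' j' hi' hj' hm
    have hl := hlen o i j h
    rcases h8 o i j i' j' h hi' hj' _ (getD_mem (by omega)) hm with he | he
    · rw [← hst o i j h] at he
      have := getD_inj (hnd o i j h) (by omega) (by omega) he
      omega
    · rw [← hen o i j h] at he
      have := getD_inj (hnd o i j h) (by omega) (by omega) he
      omega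
  refine ⟨⟨fun i j => (Z i j).length, r, fun o i j => (Λ o i j).length - 1⟩, ?_, ?_⟩
  · refine ⟨⟨fun i j hi hj => ?_, ?_, fun i j d hi hj hd => (hr i j d hi hj hd).1,
      ?_, ?_⟩, h2, fun i j hi hj => (h1 i j hi hj).2, ?_⟩
    · have := (h1 i j hi hj).2
      show 4 ≤ (Z i j).length
      omega
    · intro i j i' j' hi hj hi' hj' he
      have he : (Z i j).length = (Z i' j').length := he
      by_contra hne
      have := h2 i j i' j' hi hj hi' hj' (by
        intro h
        exact hne ⟨congrArg Prod.fst h, congrArg Prod.snd h⟩)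
      omega
    · intro i j d d' hi hj hd hd' he
      apply h5 i j d d' hi hj hd hd'
      rw [← (hr i j d hi hj hd).2, ← (hr i j d' hi hj hd').2]
      have he' : r i j d = r i j d' := he
      rw [he']
    · intro o i j i' j' h hi' hj'
      have := h7 o i j i' j' h hi' hj'
      show 2 * (Z i' j').length + 2 ≤ (Λ o i j).length - 1
      omega
    · intro o i j i' j' h hi' hj'
      have := h7 o i j i' j' h hi' hj'
      show 2 * (Z i' j').length + 30 ≤ (Λ o i j).length - 1
      omega
  · refine ⟨fun x => match x with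
      | .core i j s => (Z i j).getD s v0
      | .leg o i j s => (Λ o i j).getD s v0, ?_, ?_⟩
    · intro x y hx hy he
      cases x with
      | core i j s =>
        obtain ⟨hi, hj, hs⟩ := hx
        have hs : s < (Z i j).length := hs
        cases y with
        | core i' j' s' =>
          obtain ⟨hi', hj', hs'⟩ := hy
          have hs' : s' < (Z i' j').length := hs'
          have he : (Z i j).getD s v0 = (Z i' j').getD s' v0 := he
          by_cases hij : (i, j) = (i', j')
          · obtain ⟨rfl, rfl⟩ := Prod.mk.inj hij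
            rw [getD_inj (h1 i j hi hj).1.2.1 hs hs' he]
          · exfalso
            have hm : (Z i j).getD s v0 ∈ Z i' j' := by
              rw [he]; exact getD_mem hs'
            exact h3 i j i' j' hi hj hi' hj' hij (getD_mem hs) hm
        | leg o i' j' s' =>
          exfalso
          obtain ⟨hE, hs1, hs2⟩ := hy
          have he : (Z i j).getD s v0 = (Λ o i' j').getD s' v0 := he
          apply hint o i' j' s' hE hs1 hs2 i j hi hj
          rw [← he]
          exact getD_mem hs
      | leg o i j s =>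
        obtain ⟨hE, hs1, hs2⟩ := hx
        cases y with
        | core i' j' s' =>
          exfalso
          obtain ⟨hi', hj', hs'⟩ := hy
          have hs' : s' < (Z i' j').length := hs'
          have he : (Λ o i j).getD s v0 = (Z i' j').getD s' v0 := he
          apply hint o i j s hE hs1 hs2 i' j' hi' hj'
          rw [he]
          exact getD_mem hs'
        | leg o' i' j' s' =>
          obtain ⟨hE', hs1', hs2'⟩ := hy
          have hs2 : s < (Λ o i j).length - 1 := hs2
          have hs2' : s' < (Λ o' i' j').length - 1 := hs2'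
          have he : (Λ o i j).getD s v0 = (Λ o' i' j').getD s' v0 := he
          by_cases hoij : (o, i, j) = (o', i', j')
          · obtain ⟨rfl, h⟩ := Prod.mk.inj hoij
            obtain ⟨rfl, rfl⟩ := Prod.mk.inj h
            rw [getD_inj (hnd o i j hE) (by omega) (by omega) he]
          · exfalso
            apply h9 o i j o' i' j' hE hE' hoij _ (getD_mem (v := v0) (n := s) (by omega))
            rw [he]
            exact getD_mem (by omega)
    · intro x y hxy
      cases hxy with
      | cyc i j s hi hj hs =>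
        exact getD_adj (h1 i j hi hj).1.1 hs
      | close i j hi hj =>
        obtain ⟨⟨hc1, hc2, hc3, hc4⟩, -⟩ := h1 i j hi hj
        show G.Adj ((Z i j).getD ((Z i j).length - 1) v0) ((Z i j).getD 0 v0)
        have hne : Z i j ≠ [] := by
          intro h0
          rw [h0] at hc3
          simp at hc3
        have ha : (Z i j).head? = some ((Z i j).head hne) := List.head?_eq_some_head hne
        have hb : (Z i j).getLast? = some ((Z i j).getLast hne) := List.getLast?_eq_some_getLast hne
        rw [getD_head ha, getD_last hb]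
        exact hc4 _ _ ha hb
      | out o i j h =>
        show G.Adj ((Z i j).getD (r i j (ro o)) v0) ((Λ o i j).getD 1 v0)
        rw [(hr i j (ro o) (hex o i j h).1 (hex o i j h).2 (hroi o).1).2, ← hst o i j h]
        exact getD_adj (h6 o i j h).1 (by have := hlen o i j h; omega)
      | step o i j s h hs hl =>
        have hl : s + 1 < (Λ o i j).length - 1 := hl
        exact getD_adj (h6 o i j h).1 (by omega)
      | inn o i j h =>
        show G.Adj ((Λ o i j).getD ((Λ o i j).length - 1 - 1) v0)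
          ((Z (nx o i j).1 (nx o i j).2).getD (r (nx o i j).1 (nx o i j).2 (ri o)) v0)
        rw [(hr _ _ (ri o) h.1 h.2 (hroi o).2).2, ← hen o i j h]
        have hl := hlen o i j h
        have := getD_adj (v := v0) (n := (Λ o i j).length - 1 - 1) (h6 o i j h).1 (by omega)
        rwa [show (Λ o i j).length - 1 - 1 + 1 = (Λ o i j).length - 1 by omega] at this

end Pool.Agent.PHer

end

section

/-!
# E3 (hereditary classes): the pattern from blocks with gaps
-/

set_option autoImplicit false

namespace Pool.Agent.PHer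

open Pool.Agent.PEmb Pool.Agent.PReg

open Pool.Agent.PEmb.ItE20 in
theorem E3 (h12 : Pool.Agent.PEmb.PE12) (h14 : Pool.Agent.PEmb.PE14)
    (h15 : Pool.Agent.PEmb.PE15) (h16 : Pool.Agent.PEmb.PE16) (h17 : Pool.Agent.PEmb.PE17)
    (hE1 : PE1) (hE2 : PE2) : PE3 := by
  intro V G K B k L X Y e μ hBG
  have hB := hBG.blk
  haveI : Nonempty V := ⟨e 0 0⟩
  have hP := hB.pos
  have hG := hB.grid
  -- the cells
  have hcell : ∀ i, i < k * k → ∀ F : Finset ℕ, F.card < 21 * (k * k) + 20 →
      ∃ x : List V × (ℕ → List V), (IsCell G (Rg B (Rc L X Y i)) (e i) x.1 x.2 ∧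
        4 ≤ x.1.length ∧ x.1.length ≤ μ i) ∧ x.1.length ∉ F := by
    intro i hi F hF
    obtain ⟨Z, w, h1, h2, h3, h4⟩ := (hBG.cap i (by omega)).cell F hF
    exact ⟨(Z, w), ⟨h1, h2, h3⟩, h4⟩
  obtain ⟨c, hc1, hc20, hc2⟩ := hE1 (k * k) (fun i (x : List V × (ℕ → List V)) =>
    IsCell G (Rg B (Rc L X Y i)) (e i) x.1 x.2 ∧ 4 ≤ x.1.length ∧ x.1.length ≤ μ i)
    (fun x => x.1.length) hcell
  -- if there are no cells, choose anything
  rcases Nat.eq_zero_or_pos k with hk0 | hk0
  · subst hk0
    have hEx : ∀ (o : Bool) (i j : ℕ), ¬ Ex 0 o i j := fun o i j h => Nat.not_lt_zero _ h.1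
    refine hE2 G 0 (fun _ _ => []) (fun _ _ _ => []) (fun _ _ _ => e 0 0) ?_ ?_ ?_ ?_ ?_ ?_ ?_ ?_ ?_
    · intro i j hi
      exact absurd hi (Nat.not_lt_zero _)
    · intro i j i' j' hi
      exact absurd hi (Nat.not_lt_zero _)
    · intro i j i' j' hi
      exact absurd hi (Nat.not_lt_zero _)
    · intro i j d hi
      exact absurd hi (Nat.not_lt_zero _)
    · intro i j d d' hi
      exact absurd hi (Nat.not_lt_zero _)
    · intro o i j h
      exact absurd h (hEx _ _ _)
    · intro o i j i' j' h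
      exact absurd h (hEx _ _ _)
    · intro o i j i' j' h
      exact absurd h (hEx _ _ _)
    · intro o i j o' i' j' h
      exact absurd h (hEx _ _ _)
  have hVne : Nonempty V := ⟨e 0 0⟩
  -- the roots
  have hroot : ∀ i d, i < k * k → d < 4 → ∃ a ∈ (c i).1,
      IsPth G (Rg B (Rc L X Y i) ∪ {e i d}) a (e i d) ((c i).2 d) :=
    fun i d hi hd => (hc1 i hi).1.pth d hd
  choose! r hr1 hr2 using hroot
  have hmid : ∀ (o : Bool) (i : ℕ), nn k o i < k * k → ∃ l,
      IsPth G (Rg B (TT k L X Y o i)) (e i (ro o)) (e (nn k o i) (ri o)) l ∧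
        4 * μ (qq k o i) ≤ l.length := fun o i h => mid h16 h17 hB h
  choose! m hm1 hm2 using hmid
  -- a vertex of a path of a cell is in the block or an end
  have hw : ∀ i d v, i < k * k → d < 4 → v ∈ (c i).2 d → v ∈ Rg B (Rc L X Y i) ∨ v = e i d := by
    intro i d v hi hd hv
    exact (hr2 i d hi hd).2.2.2.2 v hv
  -- disjointness
  have D1 : ∀ i i' v, i < k * k → i' < k * k → v ∈ Rg B (Rc L X Y i) → v ∈ Rg B (Rc L X Y i') →
      i = i' := by
    intro i i' v hi hi' hv hv'
    by_contra hne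
    exact rg_false hG (rc_bd hB (by omega)) (rc_bd hB (by omega))
      (rc_disj hP (by omega) (by omega) hne) hv hv'
  have D2 : ∀ (o : Bool) i i' v, nn k o i < k * k → i' < k * k → v ∈ Rg B (TT k L X Y o i) →
      v ∈ Rg B (Rc L X Y i') → False := by
    intro o i i' v hi hi' hv hv'
    exact rg_false hG (tt_bd hB hi) (rc_bd hB (by omega)) (tt_rc h15 hP hi hi') hv hv'
  have D3 : ∀ (o o' : Bool) i i' v, nn k o i < k * k → nn k o' i' < k * k →
      v ∈ Rg B (TT k L X Y o i) → v ∈ Rg B (TT k L X Y o' i') → o = o' ∧ i = i' := by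
    intro o o' i i' v hi hi' hv hv'
    by_contra hne
    refine rg_false hG (tt_bd hB hi) (tt_bd hB hi') (tt_disj h14 h15 hP hi hi' ?_) hv hv'
    intro h
    exact hne ⟨congrArg Prod.fst h, congrArg Prod.snd h⟩
  -- the legs
  obtain ⟨lam, hlam⟩ : ∃ lam : Bool → ℕ → List V, lam = fun o i =>
      ((c i).2 (ro o) ++ (m o i).tail) ++ (((c (nn k o i)).2 (ri o)).reverse).tail := ⟨_, rfl⟩
  have hleg : ∀ (o : Bool) (i : ℕ), nn k o i < k * k →
      IsPth G Set.univ (r i (ro o)) (r (nn k o i) (ri o)) (lam o i) ∧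
      4 * μ (qq k o i) ≤ (lam o i).length ∧
      ∀ v ∈ lam o i, (v ∈ (c i).2 (ro o) ∧ v ∈ Rg B (Rc L X Y i)) ∨
        (v ∈ (c (nn k o i)).2 (ri o) ∧ v ∈ Rg B (Rc L X Y (nn k o i))) ∨
        v ∈ Rg B (TT k L X Y o i) := by
    intro o i h
    have hi := nn_gt h
    have hi' : i < k * k := by omega
    have p1 := hr2 i (ro o) hi' (d_lt o).1
    have p2 := hm1 o i h
    have p3 := pth_rev (hr2 (nn k o i) (ri o) h (d_lt o).2)
    have E1 := end1 hB h
    have E2 := end2 hB h
    obtain ⟨q1, q2⟩ := h12 G _ _ _ _ _ _ _ p1 p2 (by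
      intro x hx hx'
      rcases hw i (ro o) x hi' (d_lt o).1 hx with h1 | h1
      · exact (D2 o i i x h hi' (p2.2.2.2.2 x hx') h1).elim
      · exact h1)
    obtain ⟨q3, q4⟩ := h12 G _ _ _ _ _ _ _ q1 p3 (by
      intro x hx hx'
      rcases hw _ _ x h (d_lt o).2 (List.mem_reverse.1 hx') with h1 | h1
      · exfalso
        rcases (q2 x).1 hx with h2 | h2
        · rcases hw i (ro o) x hi' (d_lt o).1 h2 with h3 | h3
          · have := D1 _ _ x hi' h h3 h1
            omega
          · rw [← h3] at E1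
            exact D2 o i _ x h h E1 h1
        · exact D2 o i _ x h h (p2.2.2.2.2 x h2) h1
      · exact h1)
    rw [hlam]
    refine ⟨pth_univ q3, ?_, ?_⟩
    · have l1 := pth_len p1
      have l3 := pth_len p3
      have l2 := hm2 o i h
      have l4 := pth_len p2
      simp only [List.length_append, List.length_tail]
      omega
    · intro v hv
      rcases (q4 v).1 hv with h1 | h1
      · rcases (q2 v).1 h1 with h2 | h2
        · rcases hw i (ro o) v hi' (d_lt o).1 h2 with h3 | h3
          · exact Or.inl ⟨h2, h3⟩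
          · rw [h3]
            exact Or.inr (Or.inr E1)
        · exact Or.inr (Or.inr (p2.2.2.2.2 v h2))
      · have h2 := List.mem_reverse.1 h1
        rcases hw _ _ v h (d_lt o).2 h2 with h3 | h3
        · exact Or.inr (Or.inl ⟨h2, h3⟩)
        · rw [h3]
          exact Or.inr (Or.inr E2)
  have hnn : ∀ (o : Bool) (i j : ℕ), Ex k o i j → nn k o (i * k + j) < k * k := by
    intro o i j h
    rw [← num_nx]
    exact num_lt h.1 h.2
  have hij : ∀ (o : Bool) (i j : ℕ), Ex k o i j → i < k ∧ j < k := by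
    intro o i j h
    cases o
    · simp only [Ex, nx] at h
      omega
    · simp only [Ex, nx] at h
      omega
  refine hE2 G k (fun i j => (c (i * k + j)).1) (fun o i j => lam o (i * k + j))
    (fun i j d => r (i * k + j) d) ?_ ?_ ?_ ?_ ?_ ?_ ?_ ?_ ?_
  · intro i j hi hj
    exact ⟨(hc1 _ (num_lt hi hj)).1.cyc, hc20 _ (num_lt hi hj)⟩
  · intro i j i' j' hi hj hi' hj' hne
    refine hc2 _ _ (num_lt hi hj) (num_lt hi' hj') ?_
    intro h
    obtain ⟨rfl, rfl⟩ := num_inj hj hj' h
    exact hne rfl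
  · intro i j i' j' hi hj hi' hj' hne v hv hv'
    have h1 := D1 _ _ v (num_lt hi hj) (num_lt hi' hj') ((hc1 _ (num_lt hi hj)).1.zS v hv)
      ((hc1 _ (num_lt hi' hj')).1.zS v hv')
    obtain ⟨rfl, rfl⟩ := num_inj hj hj' h1
    exact hne rfl
  · intro i j d hi hj hd
    exact hr1 _ _ (num_lt hi hj) hd
  · intro i j d d' hi hj hd hd' h
    by_contra hne
    have h1 := pth_head (hr2 _ d (num_lt hi hj) hd)
    have h2 := pth_head (hr2 _ d' (num_lt hi hj) hd')
    rw [h] at h1
    exact (hc1 _ (num_lt hi hj)).1.dis d d' hd hd' hne h1 h2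
  · intro o i j h
    have h1 := (hleg o _ (hnn o i j h)).1
    rw [num_nx]
    exact h1
  · intro o i j i' j' h hi' hj'
    have h1 := (hleg o _ (hnn o i j h)).2.1
    have h2 := (hc1 _ (num_lt hi' hj')).2
    have h20 := hc20 _ (num_lt hi' hj')
    have h3 := hB.mono (i' * k + j') (qq k o (i * k + j)) (by
      have h4 := qq_gt (hnn o i j h)
      have h5 := num_lt hi' hj'
      omega) (qq_le o _)
    omega
  · intro o i j i' j' h hi' hj' v hv hv'
    have hn := hnn o i j h
    have hi := nn_gt hn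
    have hZ := (hc1 _ (num_lt hi' hj')).1.zS v hv'
    rcases (hleg o _ hn).2.2 v hv with h1 | h1 | h1
    · left
      have h2 := D1 _ _ v (by omega) (num_lt hi' hj') h1.2 hZ
      rw [← h2] at hv'
      have h3 := (hc1 (i * k + j) (by omega)).1
      rcases pth_mem (hr2 _ (ro o) (by omega) (d_lt o).1) h1.1 with h4 | h4
      · exact h4
      · exact (h3.off (ro o) (d_lt o).1 v h4 hv').elim
    · right
      rw [num_nx]
      have h2 := D1 _ _ v hn (num_lt hi' hj') h1.2 hZ
      rw [← h2] at hv'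
      have h3 := (hc1 _ hn).1
      rcases pth_mem (hr2 _ (ri o) hn (d_lt o).2) h1.1 with h4 | h4
      · exact h4
      · exact (h3.off (ri o) (d_lt o).2 v h4 hv').elim
    · exact (D2 o _ _ v hn (num_lt hi' hj') h1 hZ).elim
  · intro o i j o' i' j' h h' hne v hv hv'
    have hn := hnn o i j h
    have hn' := hnn o' i' j' h'
    have hi := nn_gt hn
    have hi' := nn_gt hn'
    have key : o = o' ∧ i * k + j = i' * k + j' → False := by
      rintro ⟨rfl, h2⟩
      obtain ⟨rfl, rfl⟩ := num_inj (hij _ _ _ h).2 (hij _ _ _ h').2 h2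
      exact hne rfl
    have wd : ∀ a d d', a < k * k → d < 4 → d' < 4 → v ∈ (c a).2 d → v ∈ (c a).2 d' → d = d' := by
      intro a d d' ha hd hd' hv1 hv2
      by_contra hdd
      exact (hc1 a ha).1.dis d d' hd hd' hdd hv1 hv2
    rcases (hleg o _ hn).2.2 v hv with h1 | h1 | h1 <;>
      rcases (hleg o' _ hn').2.2 v hv' with h2 | h2 | h2
    · have h3 := D1 _ _ v (by omega) (by omega) h1.2 h2.2
      have h4 := wd _ _ _ (by omega) (d_lt o).1 (d_lt o').1 h1.1 (by rw [h3]; exact h2.1)
      apply key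
      refine ⟨?_, h3⟩
      cases o <;> cases o' <;> simp [ro] at h4 ⊢
    · have h3 := D1 _ _ v (by omega) (by omega) h1.2 h2.2
      have h4 := wd _ _ _ (by omega) (d_lt o).1 (d_lt o').2 h1.1 (by rw [h3]; exact h2.1)
      cases o <;> cases o' <;> simp [ro, ri] at h4
    · exact (D2 o' _ _ v hn' (by omega) h2 h1.2).elim
    · have h3 := D1 _ _ v (by omega) (by omega) h1.2 h2.2
      have h4 := wd _ _ _ (by omega) (d_lt o).2 (d_lt o').1 h1.1 (by rw [h3]; exact h2.1)
      cases o <;> cases o' <;> simp [ro, ri] at h4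
    · have h3 := D1 _ _ v (by omega) (by omega) h1.2 h2.2
      have h4 := wd _ _ _ (by omega) (d_lt o).2 (d_lt o').2 h1.1 (by rw [h3]; exact h2.1)
      have h5 : o = o' := by
        cases o <;> cases o' <;> simp [ri] at h4 ⊢
      subst h5
      apply key
      refine ⟨rfl, ?_⟩
      cases o
      · simp only [nn, Bool.false_eq_true, if_false] at h3
        omega
      · simp only [nn, if_true] at h3
        omega
    · exact (D2 o' _ _ v hn' (by omega) h2 h1.2).elim
    · exact (D2 o _ _ v hn (by omega) h1 h2.2).elim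
    · exact (D2 o _ _ v hn (by omega) h1 h2.2).elim
    · exact key (D3 _ _ _ _ v hn hn' h1 h2)

end Pool.Agent.PHer

end

section

/-!
# E4 (T3): blocks with more capabilities in a large grid model
-/

set_option autoImplicit false

namespace Pool.Agent.PHer

open Pool.Agent.PEmb Pool.Agent.PReg

namespace ItE4

lemma cap_mono {V : Type} (G : SimpleGraph V) (S : Set V) (e : ℕ → V) (n n' μ : ℕ)
    (h : Cap G S e n μ) (hn : n' ≤ n) : Cap G S e n' μ where
  pass := h.pass
  cell := fun F hF => h.cell F (lt_of_lt_of_le hF hn)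
  enS := h.enS
  einj := h.einj

end ItE4

open Pool.Agent.PEmb.ItE22 ItE4 in
theorem E4 (h3 : Pool.Agent.PEmb.PE3) (h7 : Pool.Agent.PEmb.PE7) (h8 : Pool.Agent.PEmb.PE8)
    (h9 : Pool.Agent.PEmb.PE9) (h21 : Pool.Agent.PEmb.PE21) : PE4 := by
  intro k
  obtain ⟨m, hm⟩ : ∃ m, m = 3 * (k * k) := ⟨_, rfl⟩
  obtain ⟨N, hN⟩ : ∃ N, N = 21 * (k * k) + 20 := ⟨_, rfl⟩
  obtain ⟨h, hh⟩ : ∃ h, h = 4 * (N ^ 2 + 3) := ⟨_, rfl⟩
  obtain ⟨L, hL⟩ : ∃ L, L = 2 * h + 1 := ⟨_, rfl⟩
  obtain ⟨S, hS⟩ : ∃ S, S = L + 10 := ⟨_, rfl⟩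
  obtain ⟨M, hM⟩ : ∃ M, M = (m + 1) ^ 2 + 1 := ⟨_, rfl⟩
  obtain ⟨K, hK⟩ : ∃ K, K = S * (M - 1) + L + 11 := ⟨_, rfl⟩
  refine ⟨K, ?_⟩
  intro V G B hG
  have hV : Nonempty V := by
    have h1 := hG.conn 0 0 (by omega) (by omega)
    obtain ⟨v⟩ := h1.nonempty
    exact ⟨v.1⟩
  obtain ⟨X, hX⟩ : ∃ X : ℕ → ℕ, X = fun d => S * d + 5 := ⟨_, rfl⟩
  obtain ⟨Y, hY⟩ : ∃ Y : ℕ → ℕ, Y = fun d => S * d + 5 + h := ⟨_, rfl⟩
  have hXd : ∀ d, X d = S * d + 5 := fun d => by rw [hX]
  have hYd : ∀ d, Y d = S * d + 5 + h := fun d => by rw [hY]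
  have hSd : ∀ d, d < M → S * d ≤ S * (M - 1) := fun d hd =>
    Nat.mul_le_mul_left S (by omega)
  have hblock : ∀ d, d < M → ∃ (e : ℕ → V) (μ : ℕ), Cap G (Rg B (Rc L X Y d)) e N μ ∧
      e 0 ∈ B (X d + L + 1) (Y d + 1) ∧ e 1 ∈ B (X d - 1) (Y d) ∧
      e 2 ∈ B (X d - 1) (Y d + 1) ∧ e 3 ∈ B (X d + L + 1) (Y d) := by
    intro d hd
    have h1 := hSd d hd
    have hx := hXd d
    have hy := hYd d
    obtain ⟨c, e, hlad, he2, he1, he0, he3⟩ := h3 G K B hG (X d) (Y d) L (by omega) (by omega)
      (by omega)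
    obtain ⟨μ, hμ⟩ := h7 G N L _ c e hlad (by omega)
    rw [rg_eq B L X Y d] at hμ
    exact ⟨e, μ, hμ, he0, he1, he2, he3⟩
  choose! e μ hcap he0 he1 he2 he3 using hblock
  obtain ⟨φ, hφ1, hφ2, hφ3⟩ := h9 m M μ (by omega)
  have hSlt : ∀ a b, a < b → S * a + S ≤ S * b := by
    intro a b hab
    have h1 : S * (a + 1) ≤ S * b := Nat.mul_le_mul_left S hab
    have h2 : S * (a + 1) = S * a + S := by ring
    omega
  rcases hφ3 with hmono | hanti
  · refine ⟨B, L, fun a => X (φ a), fun a => Y (φ a), fun a => e (φ a), fun a => μ (φ a), ?_⟩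
    have hmM := hφ2 m le_rfl
    have hmS := hSd _ hmM
    have hcapG : ∀ d, d ≤ 3 * (k * k) → Cap G (Rg B (Rc L (fun a => X (φ a)) (fun a => Y (φ a)) d))
        (e (φ d)) N (μ (φ d)) := fun d hd => hcap (φ d) (hφ2 d (by omega))
    refine ⟨?_, fun d hd => by rw [← hN]; exact hcapG d hd⟩
    constructor
    · exact hG
    · rw [Pos]
      rw [← hm]
      refine ⟨?_, ?_, ?_⟩
      · have := hXd (φ 0); omega
      · have := hYd (φ 0); omega
      · intro a b hab hb
        have h1 := hSlt _ _ (hφ1 a b hab hb)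
        have h2 := hXd (φ a)
        have h3 := hXd (φ b)
        have h4 := hYd (φ a)
        have h5 := hYd (φ b)
        omega
    · rw [← hm]; have := hXd (φ m); omega
    · rw [← hm]; have := hYd (φ m); omega
    · intro d hd
      exact cap_mono G _ _ _ _ _ (hcapG d hd) (by omega)
    · intro d hd
      exact he0 (φ d) (hφ2 d (by omega))
    · intro d hd
      exact he1 (φ d) (hφ2 d (by omega))
    · intro d hd
      exact he2 (φ d) (hφ2 d (by omega))
    · intro d hd
      exact he3 (φ d) (hφ2 d (by omega))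
    · intro a b hab hb
      exact hmono a b hab (by omega)
  · -- the rotated model
    have hG' := h21 G K B hG
    have hrot : ∀ a, a ≤ m → S * (M - 1 - φ (m - a)) + S * φ (m - a) = S * (M - 1) := by
      intro a ha
      have h1 := hφ2 (m - a) (by omega)
      rw [← Nat.mul_add]
      congr 1
      omega
    have hXX : ∀ a, a ≤ m → X (M - 1 - φ (m - a)) + X (φ (m - a)) + L + 1 = K := by
      intro a ha
      have h1 := hrot a ha
      rw [hXd, hXd]
      omega
    have hYY : ∀ a, a ≤ m → Y (M - 1 - φ (m - a)) + Y (φ (m - a)) + 2 = K := by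
      intro a ha
      have h1 := hrot a ha
      rw [hYd, hYd]
      omega
    have hX1 : ∀ d, 5 ≤ X d := fun d => by rw [hXd]; omega
    have hY1 : ∀ d, 5 ≤ Y d := fun d => by rw [hYd]; omega
    refine ⟨fun x y => B (K - 1 - x) (K - 1 - y), L, fun a => X (M - 1 - φ (m - a)),
      fun a => Y (M - 1 - φ (m - a)),
      fun a => (fun d => if d = 0 then e (φ (m - a)) 1 else if d = 1 then e (φ (m - a)) 0
        else if d = 2 then e (φ (m - a)) 3 else e (φ (m - a)) 2),
      fun a => μ (φ (m - a)), ?_⟩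
    have hcapG : ∀ d, d ≤ 3 * (k * k) → Cap G (Rg (fun x y => B (K - 1 - x) (K - 1 - y))
        (Rc L (fun a => X (M - 1 - φ (m - a))) (fun a => Y (M - 1 - φ (m - a))) d))
        (fun x => if x = 0 then e (φ (m - d)) 1 else if x = 1 then e (φ (m - d)) 0
        else if x = 2 then e (φ (m - d)) 3 else e (φ (m - d)) 2) N (μ (φ (m - d))) := by
      intro d hd
      rw [← hm] at hd
      have h1 := h8 G _ _ _ _ (hcap (φ (m - d)) (hφ2 (m - d) (by omega)))
      rw [← rg_rot B K L X Y (fun a => X (M - 1 - φ (m - a))) (fun a => Y (M - 1 - φ (m - a)))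
        (φ (m - d)) d (hXX d hd) (hYY d hd)] at h1
      exact h1
    refine ⟨?_, fun d hd => by rw [← hN]; exact hcapG d hd⟩
    constructor
    · exact hG'
    · rw [Pos, ← hm]
      refine ⟨?_, ?_, ?_⟩
      · have := hX1 (M - 1 - φ (m - 0)); omega
      · have := hY1 (M - 1 - φ (m - 0)); omega
      · intro a b hab hb
        have h1 := hφ1 (m - b) (m - a) (by omega) (by omega)
        have h2 := hφ2 (m - a) (by omega)
        have h3 := hφ2 (m - b) (by omega)
        have h4 := hSlt (M - 1 - φ (m - a)) (M - 1 - φ (m - b)) (by omega)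
        rw [hXd, hXd, hYd, hYd]
        omega
    · rw [← hm]
      have h1 := hXX m le_rfl
      have h2 := hX1 (φ (m - m))
      have h3 := hSd (M - 1 - φ (m - m)) (by omega)
      rw [hXd]
      omega
    · rw [← hm]
      have h3 := hSd (M - 1 - φ (m - m)) (by omega)
      rw [hYd]
      omega
    · intro d hd
      exact cap_mono G _ _ _ _ _ (hcapG d hd) (by omega)
    · intro d hd
      rw [← hm] at hd
      have h1 := he1 (φ (m - d)) (hφ2 (m - d) (by omega))
      have h2 := hXX d hd
      have h3 := hYY d hd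
      have h4 := hX1 (φ (m - d))
      simp only [if_true]
      have e1 : K - 1 - (X (M - 1 - φ (m - d)) + L + 1) = X (φ (m - d)) - 1 := by omega
      have e2 : K - 1 - (Y (M - 1 - φ (m - d)) + 1) = Y (φ (m - d)) := by omega
      rw [e1, e2]
      exact h1
    · intro d hd
      rw [← hm] at hd
      have h1 := he0 (φ (m - d)) (hφ2 (m - d) (by omega))
      have h2 := hXX d hd
      have h3 := hYY d hd
      have h4 := hX1 (M - 1 - φ (m - d))
      simp only [one_ne_zero, if_false, if_true]
      have e1 : K - 1 - (X (M - 1 - φ (m - d)) - 1) = X (φ (m - d)) + L + 1 := by omega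
      have e2 : K - 1 - (Y (M - 1 - φ (m - d))) = Y (φ (m - d)) + 1 := by omega
      rw [e1, e2]
      exact h1
    · intro d hd
      rw [← hm] at hd
      have h1 := he3 (φ (m - d)) (hφ2 (m - d) (by omega))
      have h2 := hXX d hd
      have h3 := hYY d hd
      have h4 := hX1 (M - 1 - φ (m - d))
      simp only [OfNat.ofNat_ne_zero, OfNat.ofNat_ne_one, if_false, if_true]
      have e1 : K - 1 - (X (M - 1 - φ (m - d)) - 1) = X (φ (m - d)) + L + 1 := by omega
      have e2 : K - 1 - (Y (M - 1 - φ (m - d)) + 1) = Y (φ (m - d)) := by omega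
      rw [e1, e2]
      exact h1
    · intro d hd
      rw [← hm] at hd
      have h1 := he2 (φ (m - d)) (hφ2 (m - d) (by omega))
      have h2 := hXX d hd
      have h3 := hYY d hd
      have h4 := hX1 (φ (m - d))
      have h32 : (3 : ℕ) ≠ 2 := by norm_num
      simp only [OfNat.ofNat_ne_zero, OfNat.ofNat_ne_one, h32, if_false]
      have e1 : K - 1 - (X (M - 1 - φ (m - d)) + L + 1) = X (φ (m - d)) - 1 := by omega
      have e2 : K - 1 - (Y (M - 1 - φ (m - d))) = Y (φ (m - d)) + 1 := by omega
      rw [e1, e2]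
      exact h1
    · intro a b hab hb
      rw [← hm] at hb
      exact hanti (m - b) (m - a) (by omega) (by omega)

end Pool.Agent.PHer

end

section

/-! Item G1: basic facts -/

set_option autoImplicit false

namespace Pool.Agent.PHer

open Pool.Agent.PEmb Pool.Agent.PReg

namespace ItG1

open ItR7 ItR8 ItRC

variable {W : Type} {k : ℕ} {P : Par} {E : ℕ → ℕ → ℕ → ℕ → Prop} {Γ : SimpleGraph W}

lemma gae_vx (hG : GAdm k P E) {x y : Lab} (h : GAE k P E x y) : Vx k P x ∧ Vx k P y := by
  have hA := hG.adm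
  cases h with
  | cor i j s s' hi hj hs hs' h => exact ⟨⟨hi, hj, hs⟩, ⟨hi, hj, hs'⟩⟩
  | out o i j h =>
    obtain ⟨hi, hj⟩ := ex_lt h
    have hl := lge hA h
    exact ⟨⟨hi, hj, hA.rlt i j _ hi hj (by cases o <;> simp [ro])⟩, ⟨h, by omega, by omega⟩⟩
  | inn o i j h =>
    have hl := lge hA h
    exact ⟨⟨h, by omega, by omega⟩,
      ⟨h.1, h.2, hA.rlt _ _ _ h.1 h.2 (by cases o <;> simp [ri])⟩⟩
  | step o i j s h hs hl => exact ⟨⟨h, hs, by omega⟩, ⟨h, by omega, hl⟩⟩

/-- consecutive vertices of a leg are adjacent -/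
lemma adj_hl (hA : Adm k P) {i j d s : ℕ} (h : Dt k i j d) (hs : s + 1 < lg P i j d) :
    GAdj k P E (hl P i j d s) (hl P i j d (s + 1)) := by
  have h10 := lg_ge hA h
  obtain ⟨hi, hj, ⟨rfl, h⟩ | ⟨rfl, h⟩ | ⟨rfl, h⟩ | ⟨rfl, h⟩⟩ := h
  · have hex : Ex k false i j := ⟨hi, h⟩
    rw [lg0] at hs
    by_cases h0 : s = 0
    · subst h0
      rw [hl_zero, hl0 _ _ _ (by omega)]
      exact Or.inl (GAE.out false i j hex)
    · rw [hl0 _ _ _ h0, hl0 _ _ _ (by omega)]
      exact Or.inl (GAE.step false i j s hex (by omega) hs)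
  · obtain ⟨j', rfl⟩ : ∃ j', j = j' + 1 := ⟨j - 1, by omega⟩
    have hex : Ex k false i j' := ⟨hi, hj⟩
    rw [lg1] at hs
    simp only [Nat.add_sub_cancel] at hs
    by_cases h0 : s = 0
    · subst h0
      rw [hl_zero, hl1 _ _ _ (by omega)]
      simp only [Nat.add_sub_cancel, Nat.zero_add]
      exact Or.inr (GAE.inn false i j' hex)
    · rw [hl1 _ _ _ h0, hl1 _ _ _ (by omega)]
      simp only [Nat.add_sub_cancel]
      have h1 := GAE.step (k := k) (P := P) (E := E) false i j' (P.l false i j' - (s + 1)) hex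
        (by omega) (by omega)
      have e : P.l false i j' - (s + 1) + 1 = P.l false i j' - s := by omega
      rw [e] at h1
      exact Or.inr h1
  · have hex : Ex k true i j := ⟨h, hj⟩
    rw [lg2] at hs
    by_cases h0 : s = 0
    · subst h0
      rw [hl_zero, hl2 _ _ _ (by omega)]
      exact Or.inl (GAE.out true i j hex)
    · rw [hl2 _ _ _ h0, hl2 _ _ _ (by omega)]
      exact Or.inl (GAE.step true i j s hex (by omega) hs)
  · obtain ⟨i', rfl⟩ : ∃ i', i = i' + 1 := ⟨i - 1, by omega⟩
    have hex : Ex k true i' j := ⟨hi, hj⟩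
    rw [lg3] at hs
    simp only [Nat.add_sub_cancel] at hs
    by_cases h0 : s = 0
    · subst h0
      rw [hl_zero, hl3 _ _ _ (by omega)]
      simp only [Nat.add_sub_cancel, Nat.zero_add]
      exact Or.inr (GAE.inn true i' j hex)
    · rw [hl3 _ _ _ h0, hl3 _ _ _ (by omega)]
      simp only [Nat.add_sub_cancel]
      have h1 := GAE.step (k := k) (P := P) (E := E) true i' j (P.l true i' j - (s + 1)) hex
        (by omega) (by omega)
      have e : P.l true i' j - (s + 1) + 1 = P.l true i' j - s := by omega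
      rw [e] at h1
      exact Or.inr h1

lemma zlab_lt (hA : Adm k P) {i j d s : ℕ} (h : Dt k i j d) (hs : s < al P i j d) :
    zlab2 P (hl P i j d s) = .cell i j := by
  have h10 := lg_ge hA h
  by_cases h0 : s = 0
  · subst h0
    rw [hl_zero]
    rfl
  obtain ⟨hi, hj, ⟨rfl, h⟩ | ⟨rfl, h⟩ | ⟨rfl, h⟩ | ⟨rfl, h⟩⟩ := h
  · rw [al0] at hs
    rw [hl0 _ _ _ h0]
    simp [zlab2, hs]
  · rw [al1] at hs
    rw [lg1] at h10
    rw [hl1 _ _ _ h0]
    have e1 : ¬ P.l false i (j - 1) - s < P.l false i (j - 1) / 2 := by omega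
    have e2 : ¬ P.l false i (j - 1) - s = P.l false i (j - 1) / 2 := by omega
    simp only [zlab2, e1, e2, if_false, nx]
    congr 1
    omega
  · rw [al2] at hs
    rw [hl2 _ _ _ h0]
    simp [zlab2, hs]
  · rw [al3] at hs
    rw [lg3] at h10
    rw [hl3 _ _ _ h0]
    have e1 : ¬ P.l true (i - 1) j - s < P.l true (i - 1) j / 2 := by omega
    have e2 : ¬ P.l true (i - 1) j - s = P.l true (i - 1) j / 2 := by omega
    simp only [zlab2, e1, e2, if_false, nx]
    congr 1
    omega

lemma zlab_al (hA : Adm k P) {i j d : ℕ} (h : Dt k i j d) :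
    ∃ o a b, zlab2 P (hl P i j d (al P i j d)) = .port o a b ∧ (o = true ↔ 2 ≤ d) := by
  have h10 := lg_ge hA h
  obtain ⟨hi, hj, ⟨rfl, h⟩ | ⟨rfl, h⟩ | ⟨rfl, h⟩ | ⟨rfl, h⟩⟩ := h
  · rw [lg0] at h10
    rw [al0, hl0 _ _ _ (by omega)]
    exact ⟨false, i, j, by simp [zlab2], by simp⟩
  · rw [lg1] at h10
    rw [al1, hl1 _ _ _ (by omega)]
    have e : P.l false i (j - 1) - (P.l false i (j - 1) - P.l false i (j - 1) / 2) =
      P.l false i (j - 1) / 2 := by omega
    rw [e]
    exact ⟨false, i, j - 1, by simp [zlab2], by simp⟩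
  · rw [lg2] at h10
    rw [al2, hl2 _ _ _ (by omega)]
    exact ⟨true, i, j, by simp [zlab2], by simp⟩
  · rw [lg3] at h10
    rw [al3, hl3 _ _ _ (by omega)]
    have e : P.l true (i - 1) j - (P.l true (i - 1) j - P.l true (i - 1) j / 2) =
      P.l true (i - 1) j / 2 := by omega
    rw [e]
    exact ⟨true, i - 1, j, by simp [zlab2], by simp⟩

lemma gk_ne_pin (x : Lab) : gk P x ≠ .pin := by
  unfold gk
  cases x with
  | core i j s =>
    simp only [zlab2, zb]
    split_ifs <;> simp
  | leg o i j s =>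
    simp only [zlab2]
    split_ifs <;> simp only [zb] <;> (try split_ifs) <;> simp

lemma uniq {p q q' : Lab × (Option W × Option W)} (h : GHAdj k P E Γ p q)
    (h' : GHAdj k P E Γ p q') (e : q.1 = q'.1) (hp : ∃ i j, zlab2 P p.1 = .cell i j) :
    q = q' := by
  obtain ⟨x, v⟩ := p
  obtain ⟨y, w⟩ := q
  obtain ⟨y', w'⟩ := q'
  simp only at e hp
  subst e
  obtain ⟨i, j, hp⟩ := hp
  have hx : gk P x = .diag ∨ gk P x = .off := by
    unfold gk
    rw [hp]
    simp only [zb]
    split_ifs <;> simp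
  have hc : cmp (gk P x) (gk P y) v w := h.2.2.2
  have hc' : cmp (gk P x) (gk P y) v w' := h'.2.2.2
  have ho : okz Γ (gk P y) w := h.2.2.1
  have ho' : okz Γ (gk P y) w' := h'.2.2.1
  have hw : w = w' := by
    have hny := gk_ne_pin (P := P) y
    revert hc hc' ho ho' hny hx
    generalize gk P y = z2
    generalize gk P x = z1
    intro hx hc hc' ho ho' hny
    cases z2 with
    | pin => exact absurd rfl hny
    | diag =>
      rcases hx with rfl | rfl
      · exact (show v = w from hc).symm.trans (show v = w' from hc')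
      · exact (show v = w from hc).symm.trans (show v = w' from hc')
    | off =>
      rcases hx with rfl | rfl
      · exact (show v = w from hc).symm.trans (show v = w' from hc')
      · exact (show v = w from hc).symm.trans (show v = w' from hc')
    | port o =>
      obtain ⟨u, rfl⟩ : ∃ u, w = (some u, some u) := ho
      obtain ⟨u', rfl⟩ : ∃ u, w' = (some u, some u) := ho'
      cases o
      · have h1 : v.1 = some u := by rcases hx with rfl | rfl <;> exact hc
        have h2 : v.1 = some u' := by rcases hx with rfl | rfl <;> exact hc'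
        have h3 : some u = some u' := h1.symm.trans h2
        rw [h3]
      · have h1 : v.2 = some u := by rcases hx with rfl | rfl <;> exact hc
        have h2 : v.2 = some u' := by rcases hx with rfl | rfl <;> exact hc'
        have h3 : some u = some u' := h1.symm.trans h2
        rw [h3]
  rw [hw]

end ItG1

open ItG1 in
theorem G1 : PG1 := by
  intro W k P E Γ hG
  refine ⟨?_, ?_, ?_, ?_, ?_⟩
  · rintro x y (h | h)
    · exact gae_vx hG h
    · exact (gae_vx hG h).symm
  · intro i j d s h hs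
    exact adj_hl hG.adm h hs
  · intro i j d s h hs
    exact zlab_lt hG.adm h hs
  · intro i j d h
    exact zlab_al hG.adm h
  · intro p q q' h h' e hp
    exact uniq h h' e hp

end Pool.Agent.PHer

end

section

/-!
# G10: an embedding of a pattern with general cores gives a clique
-/

set_option autoImplicit false

namespace Pool.Agent.PHer

open Pool.Agent.PEmb Pool.Agent.PReg

theorem G10 (_hG1 : PG1) (hG7 : PG7) (hG9 : PG9) : PG10 := by
  intro W k P E Γ f hA hf
  obtain ⟨val, τ, hval, hleg⟩ := hG7 k P E Γ f hA hf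
  obtain ⟨hrow, hcol⟩ := hG9 k P E Γ f val τ hA hf hleg
  have hrow' : ∀ i j, i < k → j < k → (val i j).1 = (val i 0).1 := by
    intro i j hi hj
    induction j with
    | zero => rfl
    | succ j ih => rw [← hrow i j hi hj]; exact ih (by omega)
  have hcol' : ∀ i j, i < k → j < k → (val i j).2 = (val 0 j).2 := by
    intro i j hi hj
    induction i with
    | zero => rfl
    | succ i ih => rw [← hcol i j hi hj]; exact ih (by omega)
  have hok : ∀ i j, i < k → j < k → okz Γ (if i = j then ZB.diag else ZB.off) (val i j) := by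
    intro i j hi hj
    have hz := hA.adm.z4 i j hi hj
    obtain ⟨s', hs', e⟩ := hval i j 0 hi hj (by omega)
    obtain ⟨a, b, ha, hb, hab, hEa, hEb⟩ := hA.deg2 i j 0 hi hj (by omega)
    have h := hf.adj (.core i j 0) (.core i j a)
      (Or.inl (GAE.cor i j 0 a hi hj (by omega) ha hEa))
    have h2 := h.2.1
    rw [e] at h2
    exact h2
  have hw : ∀ i : Fin k, ∃ u : W, val i i = (some u, some u) := by
    intro i
    have h := hok i i i.2 i.2
    rw [if_pos rfl] at h
    exact h
  choose w hw using hw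
  refine ⟨w, fun a b hab => ?_⟩
  have hab' : (a : ℕ) ≠ b := fun h => hab (Fin.ext h)
  have h := hok a b a.2 b.2
  rw [if_neg hab'] at h
  obtain ⟨u, v, huv, hadj⟩ := h
  have h1 : (val a b).1 = some (w a) := by
    rw [hrow' a b a.2 b.2, ← hrow' a a a.2 a.2, hw a]
  have h2 : (val a b).2 = some (w b) := by
    rw [hcol' a b a.2 b.2, ← hcol' b b b.2 b.2, hw b]
  rw [huv] at h1 h2
  have e1 : u = w a := Option.some.inj h1
  have e2 : v = w b := Option.some.inj h2
  rw [← e1, ← e2]
  exact hadj

end Pool.Agent.PHer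

end

section

/-!
# G11: a clique gives an embedding
-/

set_option autoImplicit false

namespace Pool.Agent.PHer

open Pool.Agent.PEmb Pool.Agent.PReg

namespace ItG11

variable {k : ℕ} {P : Par} {E : ℕ → ℕ → ℕ → ℕ → Prop} {W : Type}

lemma gae_zone (hA : Adm k P) {x y : Lab} (h : GAE k P E x y) :
    (∃ i j, zlab2 P x = .cell i j ∧ zlab2 P y = .cell i j) ∨
    (∃ o i j, zlab2 P x = .cell i j ∧ zlab2 P y = .port o i j) ∨
    (∃ o i j, zlab2 P x = .port o i j ∧ zlab2 P y = .cell (nx o i j).1 (nx o i j).2) := by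
  cases h with
  | cor i j s s' hi hj hs hs' hE => exact Or.inl ⟨i, j, rfl, rfl⟩
  | out o i j h =>
    have hl := ItL4.lge hA h
    exact Or.inl ⟨i, j, rfl, ItL4.z_lo (by omega)⟩
  | inn o i j h =>
    have hl := ItL4.lge hA h
    exact Or.inl ⟨(nx o i j).1, (nx o i j).2, ItL4.z_hi (by omega), rfl⟩
  | step o i j s h hs hl =>
    rcases Nat.lt_trichotomy (s + 1) (P.l o i j / 2) with h1 | h1 | h1
    · exact Or.inl ⟨i, j, ItL4.z_lo (by omega), ItL4.z_lo h1⟩
    · refine Or.inr (Or.inl ⟨o, i, j, ItL4.z_lo (by omega), ?_⟩)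
      rw [h1]
      exact ItL4.z_mid o i j
    · rcases Nat.lt_or_ge (P.l o i j / 2) s with h2 | h2
      · exact Or.inl ⟨_, _, ItL4.z_hi h2, ItL4.z_hi h1⟩
      · obtain rfl : s = P.l o i j / 2 := by omega
        exact Or.inr (Or.inr ⟨o, i, j, ItL4.z_mid o i j, ItL4.z_hi h1⟩)

lemma gae_vx (hA : Adm k P) {x y : Lab} (h : GAE k P E x y) : Vx k P x ∧ Vx k P y := by
  cases h with
  | cor i j s s' hi hj hs hs' hE => exact ⟨⟨hi, hj, hs⟩, ⟨hi, hj, hs'⟩⟩
  | out o i j h =>
    have hl := ItL4.lge hA h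
    have hij := ItL4.ex_lt h
    exact ⟨⟨hij.1, hij.2, hA.rlt i j _ hij.1 hij.2 (by cases o <;> simp [ro])⟩,
      ⟨h, le_refl 1, by omega⟩⟩
  | inn o i j h =>
    have hl := ItL4.lge hA h
    exact ⟨⟨h, by omega, by omega⟩,
      ⟨h.1, h.2, hA.rlt _ _ _ h.1 h.2 (by cases o <;> simp [ri])⟩⟩
  | step o i j s h hs hl => exact ⟨⟨h, hs, by omega⟩, ⟨h, by omega, hl⟩⟩

lemma okv {Γ : SimpleGraph W} {w : Fin k → W} (hw : ∀ a b, a ≠ b → Γ.Adj (w a) (w b))
    {x : Lab} (hx : Vx k P x) : okz Γ (zb (zlab2 P x)) (ItA6.val w (zlab2 P x)) := by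
  cases hz : zlab2 P x with
  | pin => rfl
  | cell i j =>
    obtain ⟨hi, hj⟩ := ItL4.z_cell hx hz
    by_cases hij : i = j
    · subst hij
      simp only [zb, if_true, okz, ItA6.val]
      exact ⟨w ⟨i, hi⟩, by rw [ItA6.ww_eq w hi]⟩
    · simp only [zb, if_neg hij, okz, ItA6.val]
      exact ⟨w ⟨i, hi⟩, w ⟨j, hj⟩, by rw [ItA6.ww_eq w hi, ItA6.ww_eq w hj],
        hw _ _ (fun h => hij (by simpa using h))⟩
  | port o i j =>
    obtain ⟨h, -⟩ := ItL4.z_port hx hz
    have hij := ItL4.ex_lt h
    cases o with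
    | false =>
      simp only [zb, okz, ItA6.val]
      exact ⟨w ⟨i, hij.1⟩, by rw [ItA6.ww_eq w hij.1]⟩
    | true =>
      simp only [zb, okz, ItA6.val]
      exact ⟨w ⟨j, hij.2⟩, by rw [ItA6.ww_eq w hij.2]⟩

lemma cmv (hA : Adm k P) (w : Fin k → W) {x y : Lab} (h : GAE k P E x y) :
    cmp (zb (zlab2 P x)) (zb (zlab2 P y)) (ItA6.val w (zlab2 P x))
      (ItA6.val w (zlab2 P y)) := by
  rcases gae_zone hA h with ⟨i, j, h1, h2⟩ | ⟨o, i, j, h1, h2⟩ | ⟨o, i, j, h1, h2⟩
  · rw [h1, h2]
    by_cases hij : i = j <;> simp [zb, PReg.cmp, hij]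
  · rw [h1, h2]
    cases o <;> by_cases hij : i = j <;> simp [zb, PReg.cmp, ItA6.val, hij]
  · rw [h1, h2]
    cases o
    · simp only [nx]
      by_cases hij : i = j + 1 <;> simp [zb, PReg.cmp, ItA6.val, hij]
    · simp only [nx]
      by_cases hij : i + 1 = j <;> simp [zb, PReg.cmp, ItA6.val, hij]

end ItG11

theorem G11 : PG11 := by
  intro W k P E Γ hA ⟨w, hw⟩
  refine ⟨fun x => (x, ItA6.val w (zlab2 P x)), ⟨fun x y _ _ h => (Prod.mk.inj h).1, ?_⟩,
    fun _ => rfl⟩
  intro x y h
  have hv : Vx k P x ∧ Vx k P y := by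
    rcases h with h | h
    · exact ItG11.gae_vx hA.adm h
    · exact (ItG11.gae_vx hA.adm h).symm
  refine ⟨h, ItG11.okv hw hv.1, ItG11.okv hw hv.2, ?_⟩
  rcases h with h | h
  · exact ItG11.cmv hA.adm w h
  · exact cmp_symm (ItG11.cmv hA.adm w h)

end Pool.Agent.PHer

end

section

/-!
# G12: graphs with labels
-/

set_option autoImplicit false

namespace Pool.Agent.PHer

open Pool.Agent.PEmb Pool.Agent.PReg

namespace ItG12

theorem ex_lt {k : ℕ} {o : Bool} {i j : ℕ} (h : Ex k o i j) : i < k ∧ j < k := by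
  obtain ⟨h1, h2⟩ := h
  cases o <;> simp only [nx] at h1 h2 <;> omega

theorem ro_lt (o : Bool) : ro o < 4 := by cases o <;> simp [ro]

theorem ri_lt (o : Bool) : ri o < 4 := by cases o <;> simp [ri]

theorem gae_vx {k : ℕ} {P : Par} {E : ℕ → ℕ → ℕ → ℕ → Prop} (hP : Adm k P) {x y : Lab}
    (h : GAE k P E x y) : Vx k P x ∧ Vx k P y := by
  cases h with
  | cor i j s s' hi hj hs hs' h => exact ⟨⟨hi, hj, hs⟩, ⟨hi, hj, hs'⟩⟩
  | out o i j h =>
    obtain ⟨hi, hj⟩ := ex_lt h
    have := hP.lbig o i j i j h hi hj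
    exact ⟨⟨hi, hj, hP.rlt i j _ hi hj (ro_lt o)⟩, ⟨h, le_rfl, by omega⟩⟩
  | step o i j s h hs hl => exact ⟨⟨h, hs, by omega⟩, ⟨h, by omega, hl⟩⟩
  | inn o i j h =>
    obtain ⟨hi, hj⟩ := ex_lt h
    have := hP.lbig o i j i j h hi hj
    exact ⟨⟨h, by omega, by omega⟩, ⟨h.1, h.2, hP.rlt _ _ _ h.1 h.2 (ri_lt o)⟩⟩

theorem gadj_vx {k : ℕ} {P : Par} {E : ℕ → ℕ → ℕ → ℕ → Prop} (hP : Adm k P) {x y : Lab}
    (h : GAdj k P E x y) : Vx k P x ∧ Vx k P y := by
  rcases h with h | h
  · exact gae_vx hP h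
  · exact (gae_vx hP h).symm

end ItG12

open ItG12 in
theorem G12 (hG10 : PG10) (hG11 : PG11) : PG12 := by
  classical
  intro V k P E G φ hP hinj hsur hadj
  choose ψ hψ using hsur
  have hψφ : ∀ x, Vx k P x → ψ (φ x) = x := fun x hx =>
    hinj _ _ (hψ (φ x)).1 hx (hψ (φ x)).2
  have hadj' : ∀ u v, G.Adj u v ↔ GAdj k P E (ψ u) (ψ v) := by
    intro u v
    rw [← hadj _ _ (hψ u).1 (hψ v).1, (hψ u).2, (hψ v).2]
  refine ⟨fun v => gk P (ψ v), ?_⟩
  intro W Γ
  constructor
  · intro hK
    obtain ⟨f, hf, hf1⟩ := hG11 k P E Γ hP hK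
    refine ⟨fun v => (v, (f (ψ v)).2), ?_, ?_⟩
    · intro u v huv
      exact congrArg Prod.fst huv
    · intro u v huv
      obtain ⟨h1, h2, h3, h4⟩ := hf.adj _ _ ((hadj' u v).mp huv)
      rw [hf1, hf1] at h1 h4
      rw [hf1] at h2 h3
      exact ⟨huv, h2, h3, h4⟩
  · rintro ⟨F, hF, hFa⟩
    refine hG10 k P E Γ (fun x => (ψ (F (φ x)).1, (F (φ x)).2)) hP ⟨?_, ?_⟩
    · intro x y hx hy hxy
      obtain ⟨h1, h2⟩ := Prod.mk.inj hxy
      have h3 : (F (φ x)).1 = (F (φ y)).1 := by
        rw [← (hψ (F (φ x)).1).2, ← (hψ (F (φ y)).1).2, h1]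
      exact hinj x y hx hy (hF (Prod.ext h3 h2))
    · intro x y hxy
      obtain ⟨hx, hy⟩ := gadj_vx hP.adm hxy
      obtain ⟨h1, h2, h3, h4⟩ := hFa _ _ ((hadj x y hx hy).mpr hxy)
      exact ⟨(hadj' _ _).mp h1, h2, h3, h4⟩

end Pool.Agent.PHer

end

section

/-!
# G2: neighbours in the host of a leg vertex which is not a port
-/

set_option autoImplicit false

namespace Pool.Agent.PHer

open Pool.Agent.PEmb Pool.Agent.PReg

namespace ItG2

open Pool.Agent.PEmb.ItR7 Pool.Agent.PEmb.ItRC

variable {k : ℕ} {P : Par} {E : ℕ → ℕ → ℕ → ℕ → Prop}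

/-- neighbours of a leg vertex in the pattern with general cores -/
lemma leg_nb {o : Bool} {i j s : ℕ} {y : Lab} (h : GAdj k P E (.leg o i j s) y) :
    (s = 1 ∧ y = .core i j (P.r i j (ro o))) ∨ (2 ≤ s ∧ y = .leg o i j (s - 1)) ∨
      (s + 1 < P.l o i j ∧ y = .leg o i j (s + 1)) ∨
      (s = P.l o i j - 1 ∧
        y = .core (nx o i j).1 (nx o i j).2 (P.r (nx o i j).1 (nx o i j).2 (ri o))) := by
  rcases h with h | h
  · generalize hx : Lab.leg o i j s = x at h
    cases h with
    | cor => cases hx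
    | out => cases hx
    | step o' i' j' s' h' hs' hl' =>
      cases hx
      exact Or.inr (Or.inr (Or.inl ⟨hl', rfl⟩))
    | inn o' i' j' h' =>
      simp only [Lab.leg.injEq] at hx
      obtain ⟨rfl, rfl, rfl, hx⟩ := hx
      exact Or.inr (Or.inr (Or.inr ⟨hx, rfl⟩))
  · generalize hx : Lab.leg o i j s = x at h
    cases h with
    | cor => cases hx
    | out o' i' j' h' =>
      simp only [Lab.leg.injEq] at hx
      obtain ⟨rfl, rfl, rfl, rfl⟩ := hx
      exact Or.inl ⟨rfl, rfl⟩
    | step o' i' j' s' h' hs' hl' =>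
      simp only [Lab.leg.injEq] at hx
      obtain ⟨rfl, rfl, rfl, rfl⟩ := hx
      exact Or.inr (Or.inl ⟨by omega, by rw [Nat.add_sub_cancel]⟩)
    | inn o' i' j' h' => cases hx

/-- neighbours of a vertex on a half leg -/
lemma hl_nb0 (hA : Adm k P) {i j d s : ℕ} {y : Lab} (h : Dt k i j d) (hs : 1 ≤ s)
    (hs' : s < al P i j d) (hadj : GAdj k P E (hl P i j d s) y) :
    y = hl P i j d (s - 1) ∨ y = hl P i j d (s + 1) := by
  rcases dt_cases h with ⟨o, hex, rfl⟩ | ⟨o, a, b, hex, rfl, rfl, rfl⟩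
  · have hl := lge hA hex
    rw [hl_ro _ _ _ _ (by omega)] at hadj
    rw [al_ro] at hs'
    rcases leg_nb hadj with ⟨h1, h2⟩ | ⟨h1, h2⟩ | ⟨h1, h2⟩ | ⟨h1, h2⟩
    · left
      rw [h2, h1, show 1 - 1 = 0 from rfl, hl_zero]
    · left
      rw [h2, hl_ro _ _ _ _ (by omega)]
    · right
      rw [h2, hl_ro _ _ _ _ (by omega)]
    · omega
  · have hl := lge hA hex
    rw [hl_ri _ _ _ _ (by omega)] at hadj
    rw [al_ri] at hs'
    rcases leg_nb hadj with ⟨h1, h2⟩ | ⟨h1, h2⟩ | ⟨h1, h2⟩ | ⟨h1, h2⟩
    · omega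
    · right
      rw [h2, hl_ri _ _ _ _ (by omega), show P.l o a b - (s + 1) = P.l o a b - s - 1 by omega]
    · left
      rw [h2, hl_ri _ _ _ _ (by omega), show P.l o a b - s + 1 = P.l o a b - (s - 1) by omega]
    · left
      have e : s = 1 := by omega
      rw [h2, e, show 1 - 1 = 0 from rfl, hl_zero]

/-- compatible values in the same cell -/
lemma cmp_cell {W : Type} {P : Par} {x y : Lab} {i j : ℕ} {v w : Option W × Option W}
    (hx : zlab2 P x = .cell i j) (hy : zlab2 P y = .cell i j) (h : cmp (gk P x) (gk P y) v w) :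
    w = v := by
  simp only [gk, hx, hy, zb] at h
  by_cases e : i = j
  · simp only [if_pos e, PReg.cmp] at h
    exact h.symm
  · simp only [if_neg e, PReg.cmp] at h
    exact h.symm

end ItG2

open ItG2

/-- **G2.** -/
theorem G2 (hG1 : PG1) : PG2 := by
  intro W k P E Γ hP i j d s v q hD hs hs' h
  obtain ⟨-, -, hz, -, -⟩ := hG1 k P E Γ hP
  obtain ⟨q1, q2⟩ := q
  obtain ⟨hA, -, -, hc⟩ := h
  simp only at hA hc
  have hz0 := hz i j d s hD hs'
  rcases hl_nb0 hP.adm hD hs hs' hA with h1 | h1
  · left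
    subst h1
    have h2 := cmp_cell hz0 (hz i j d (s - 1) hD (by omega)) hc
    rw [h2]
  · right
    subst h1
    exact ⟨rfl, fun h3 => cmp_cell hz0 (hz i j d (s + 1) hD h3) hc⟩

end Pool.Agent.PHer

end

section

/-!
# G3: neighbours in the host of a core vertex
-/

set_option autoImplicit false

namespace Pool.Agent.PHer

open Pool.Agent.PEmb Pool.Agent.PReg

namespace ItG3

open ItR7 ItRC

variable {W : Type}

lemma cmp_cell {a b : ℕ} {p q : Option W × Option W}
    (h : cmp (zb (.cell a b)) (zb (.cell a b)) p q) : q = p := by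
  simp only [zb] at h
  split_ifs at h <;> exact h.symm

end ItG3

open ItG3 ItR7 ItRC

theorem G3 (_hG1 : PG1) : PG3 := by
  rintro W k P E Γ hG i j s v ⟨x, w⟩ ⟨hadj, -, -, hc⟩
  have hA := hG.adm
  simp only [gk] at hadj hc ⊢
  rcases hadj with h | h
  · generalize hy : Lab.core i j s = y at h
    cases h with
    | cor i' j' s1 s2 hi hj hs hs' h =>
      injection hy with e1 e2 e3
      subst e1; subst e2; subst e3
      exact ⟨cmp_cell hc, Or.inl ⟨s2, hs', h, rfl⟩⟩
    | step o i' j' s' h hs hl => cases hy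
    | inn o i' j' h => cases hy
    | out o i' j' h =>
      injection hy with e1 e2 e3
      subst e1; subst e2
      have hl := lge hA h
      have hzone : zlab2 P (.leg o i j 1) = .cell i j := by
        simp only [zlab2]; rw [if_pos (by omega)]
      rw [hzone] at hc
      refine ⟨cmp_cell hc, Or.inr ⟨ro o, dt_ro h, e3, ?_⟩⟩
      rw [hl_ro _ _ _ _ one_ne_zero]
  · generalize hy : Lab.core i j s = y at h
    cases h with
    | cor i' j' s1 s2 hi hj hs hs' h =>
      injection hy with e1 e2 e3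
      subst e1; subst e2; subst e3
      exact ⟨cmp_cell hc, Or.inl ⟨s1, hs, hG.sym _ _ _ _ h, rfl⟩⟩
    | out o i' j' h => cases hy
    | step o i' j' s' h hs hl => cases hy
    | inn o i' j' h =>
      injection hy with e1 e2 e3
      subst e1; subst e2
      have hl := lge hA h
      have hzone : zlab2 P (.leg o i' j' (P.l o i' j' - 1)) =
          .cell (nx o i' j').1 (nx o i' j').2 := by
        simp only [zlab2]
        rw [if_neg (by omega), if_neg (by omega)]
      rw [hzone] at hc
      refine ⟨cmp_cell hc, Or.inr ⟨ri o, dt_ri h, e3, ?_⟩⟩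
      rw [hl_ri _ _ _ _ one_ne_zero]

end Pool.Agent.PHer

end

section

/-!
# G4: ports, trichotomy
-/

set_option autoImplicit false

namespace Pool.Agent.PHer

open Pool.Agent.PEmb Pool.Agent.PReg

namespace ItG4

open Pool.Agent.PEmb.ItR7 Pool.Agent.PEmb.ItRC

variable {k : ℕ} {P : Par}

lemma port_leg {x : Lab} {o : Bool} {a b : ℕ} (h : zlab2 P x = .port o a b) :
    x = .leg o a b (P.l o a b / 2) := by
  cases x with
  | core i j s => simp [zlab2] at h
  | leg o' i j s =>
    simp only [zlab2] at h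
    split_ifs at h with h1 h2
    simp only [Zn.port.injEq] at h
    obtain ⟨rfl, rfl, rfl⟩ := h
    rw [← h2]

end ItG4

open ItG4 Pool.Agent.PEmb.ItR7 Pool.Agent.PEmb.ItRC in
theorem G4 : PG4 := by
  intro W k P E Γ hG
  have hA := hG.adm
  refine ⟨?_, ?_, ?_, ?_⟩
  · intro x v q o a b hx hadj
    have hx' := port_leg hx
    obtain ⟨h1, -, -, -⟩ := hadj
    obtain ⟨y, w⟩ := q
    simp only at h1 ⊢
    subst hx'
    rcases h1 with h1 | h1
    · generalize hs : P.l o a b / 2 = s at h1
      cases h1 with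
      | step _ _ _ _ h hs' hl' =>
        have hl := lge hA h
        refine ⟨(nx o a b).1, (nx o a b).2, ri o, dt_ri h, ?_⟩
        rw [al_ri, hl_ri _ _ _ _ (by omega)]
        congr 1
        omega
      | inn _ _ _ h =>
        have hl := lge hA h
        exfalso
        omega
    · generalize hs : P.l o a b / 2 = s at h1
      cases h1 with
      | step _ _ _ s' h hs' hl' =>
        have hl := lge hA h
        refine ⟨a, b, ro o, dt_ro h, ?_⟩
        rw [al_ro, hl_ro _ _ _ _ (by omega)]
        congr 1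
        omega
      | out _ _ _ h =>
        have hl := lge hA h
        exfalso
        omega
  · intro x hx
    cases x with
    | core i j s => exact Or.inl ⟨i, j, s, hx.1, hx.2.1, hx.2.2, rfl⟩
    | leg o i j s =>
      right
      obtain ⟨hex, h1, h2⟩ := hx
      rcases lt_trichotomy s (P.l o i j / 2) with h | h | h
      · left
        exact ⟨i, j, ro o, s, dt_ro hex, h1, by rw [al_ro]; exact h,
          by rw [hl_ro _ _ _ _ (by omega)]⟩
      · right
        refine ⟨o, i, j, ?_⟩
        simp only [zlab2]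
        rw [if_neg (by omega), if_pos h]
      · left
        refine ⟨(nx o i j).1, (nx o i j).2, ri o, P.l o i j - s, dt_ri hex, by omega,
          by rw [al_ri]; omega, ?_⟩
        rw [hl_ri _ _ _ _ (by omega), show P.l o i j - (P.l o i j - s) = s by omega]
  · intro i j d h s s' hs hs' he
    rcases dt_cases h with ⟨o, hex, rfl⟩ | ⟨o, a, b, hex, rfl, rfl, rfl⟩
    · by_cases h0 : s = 0
      · by_cases h0' : s' = 0
        · omega
        · rw [h0, hl_zero, hl_ro _ _ _ _ h0'] at he
          exact absurd he (by simp)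
      · by_cases h0' : s' = 0
        · rw [h0', hl_zero, hl_ro _ _ _ _ h0] at he
          exact absurd he (by simp)
        · rw [hl_ro _ _ _ _ h0, hl_ro _ _ _ _ h0'] at he
          simpa using he
    · have hl := lge hA hex
      rw [al_ri] at hs hs'
      by_cases h0 : s = 0
      · by_cases h0' : s' = 0
        · omega
        · rw [h0, hl_zero, hl_ri _ _ _ _ h0'] at he
          exact absurd he (by simp)
      · by_cases h0' : s' = 0
        · rw [h0', hl_zero, hl_ri _ _ _ _ h0] at he
          exact absurd he (by simp)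
        · rw [hl_ri _ _ _ _ h0, hl_ri _ _ _ _ h0'] at he
          simp only [Lab.leg.injEq, true_and] at he
          omega
  · intro i j d i' j' h hi hj
    rcases dt_cases h with ⟨o, hex, rfl⟩ | ⟨o, a, b, hex, rfl, rfl, rfl⟩
    · have := hA.lbig o i j i' j' hex hi hj
      rw [al_ro]
      omega
    · have := hA.lbig o a b i' j' hex hi hj
      rw [al_ri]
      omega

end Pool.Agent.PHer

end

section

/-!
# G5: cores are mapped to cores
-/

set_option autoImplicit false

namespace Pool.Agent.PHer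

open Pool.Agent.PEmb Pool.Agent.PReg

theorem G5 (hG1 : PG1) (hG2 : PG2) (hG4 : PG4) : PG5 := by
  intro W k P E Γ f hA hF i j s0 hi hj hs0
  obtain ⟨hvx, -, hzone, -, huniq⟩ := hG1 k P E Γ hA
  obtain ⟨hport, htri, hinj, hzal⟩ := hG4 k P E Γ hA
  have hnb := hG2 k P E Γ hA
  -- two neighbours with different images
  have key : ∀ s, s < P.z i j → ∃ a b, a < P.z i j ∧ b < P.z i j ∧
      GHAdj k P E Γ (f (.core i j s)) (f (.core i j a)) ∧
      GHAdj k P E Γ (f (.core i j s)) (f (.core i j b)) ∧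
      f (.core i j a) ≠ f (.core i j b) := by
    intro s hs
    obtain ⟨a, b, ha, hb, hab, hEa, hEb⟩ := hA.deg2 i j s hi hj hs
    refine ⟨a, b, ha, hb, hF.adj _ _ (Or.inl (GAE.cor i j s a hi hj hs ha hEa)),
      hF.adj _ _ (Or.inl (GAE.cor i j s b hi hj hs hb hEb)), fun h => hab ?_⟩
    have h2 : Lab.core i j a = Lab.core i j b := hF.inj _ _ ⟨hi, hj, ha⟩ ⟨hi, hj, hb⟩ h
    exact (Lab.core.inj h2).2.2
  by_contra hcon
  have hcon' : ∃ s1, s1 < P.z i j ∧ ∃ i' j' d t, Dt k i' j' d ∧ 1 ≤ t ∧ t < al P i' j' d ∧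
      (f (.core i j s1)).1 = hl P i' j' d t := by
    obtain ⟨a, b, ha, hb, hadj, -, -⟩ := key s0 hs0
    rcases htri _ (hvx _ _ hadj.1).1 with ⟨i', j', s', h1, h2, h3, h4⟩ |
      ⟨i', j', d, t, h1, h2, h3, h4⟩ | ⟨o, a', b', h1⟩
    · exact absurd ⟨i', j', s', h1, h2, h3, h4⟩ hcon
    · exact ⟨s0, hs0, i', j', d, t, h1, h2, h3, h4⟩
    · obtain ⟨i', j', d, h2, h3⟩ := hport (f (.core i j s0)).1 (f (.core i j s0)).2
        (f (.core i j a)) o a' b' h1 hadj
      have hz := hzal i' j' d i j h2 hi hj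
      have hz4 := hA.adm.z4 i j hi hj
      exact ⟨a, ha, i', j', d, _, h2, by omega, by omega, h3⟩
  obtain ⟨s1, hs1, i', j', d, t, hd, ht1, ht2, hf1⟩ := hcon'
  obtain ⟨v, hv⟩ : ∃ v, (f (.core i j s1)).2 = v := ⟨_, rfl⟩
  have hf : f (.core i j s1) = (hl P i' j' d t, v) := Prod.ext hf1 hv
  have down : ∀ n, n ≤ t → ∃ s, s < P.z i j ∧ f (.core i j s) = (hl P i' j' d (t - n), v) := by
    intro n
    induction n with
    | zero => exact fun _ => ⟨s1, hs1, hf⟩
    | succ n ih =>
      intro hn
      obtain ⟨s, hs, hfs⟩ := ih (by omega)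
      obtain ⟨a, b, ha, hb, hsa, hsb, hab⟩ := key s hs
      rw [hfs] at hsa hsb
      rw [show t - (n + 1) = t - n - 1 by omega]
      rcases hnb i' j' d (t - n) v _ hd (by omega) (by omega) hsa with h | h
      · exact ⟨a, ha, h⟩
      rcases hnb i' j' d (t - n) v _ hd (by omega) (by omega) hsb with h' | h'
      · exact ⟨b, hb, h'⟩
      exact absurd (huniq _ _ _ hsa hsb (h.1.trans h'.1.symm)
        ⟨i', j', hzone i' j' d (t - n) hd (by omega)⟩) hab
  have up : ∀ n, t + n < al P i' j' d →
      ∃ s, s < P.z i j ∧ f (.core i j s) = (hl P i' j' d (t + n), v) := by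
    intro n
    induction n with
    | zero => exact fun _ => ⟨s1, hs1, hf⟩
    | succ n ih =>
      intro hn
      obtain ⟨s, hs, hfs⟩ := ih (by omega)
      obtain ⟨a, b, ha, hb, hsa, hsb, hab⟩ := key s hs
      rw [hfs] at hsa hsb
      rw [show t + (n + 1) = t + n + 1 by omega] at hn ⊢
      rcases hnb i' j' d (t + n) v _ hd (by omega) (by omega) hsa with h | h
      · rcases hnb i' j' d (t + n) v _ hd (by omega) (by omega) hsb with h' | h'
        · exact absurd (h.trans h'.symm) hab
        · exact ⟨b, hb, Prod.ext h'.1 (h'.2 hn)⟩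
      · exact ⟨a, ha, Prod.ext h.1 (h.2 hn)⟩
  have all : ∀ s', s' < al P i' j' d →
      ∃ s, s < P.z i j ∧ f (.core i j s) = (hl P i' j' d s', v) := by
    intro s' hs'
    rcases Nat.le_total s' t with h | h
    · obtain ⟨s, h1, h2⟩ := down (t - s') (by omega)
      exact ⟨s, h1, by rw [h2, show t - (t - s') = s' by omega]⟩
    · obtain ⟨s, h1, h2⟩ := up (s' - t) (by omega)
      exact ⟨s, h1, by rw [h2, show t + (s' - t) = s' by omega]⟩
  choose! c hc1 hc2 using all
  have hcard : (Finset.range (al P i' j' d)).card ≤ (Finset.range (P.z i j)).card := by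
    apply Finset.card_le_card_of_injOn c
    · intro x hx
      simp only [Finset.coe_range, Set.mem_Iio] at hx ⊢
      exact hc1 x hx
    · intro x hx y hy hxy
      simp only [Finset.coe_range, Set.mem_Iio] at hx hy
      have h1 := hc2 x hx
      rw [hxy, hc2 y hy] at h1
      exact (hinj i' j' d hd y x hy.le hx.le (Prod.ext_iff.mp h1).1).symm
  simp only [Finset.card_range] at hcard
  have := hzal i' j' d i j hd hi hj
  omega

end Pool.Agent.PHer

end

section

set_option autoImplicit false

namespace Pool.Agent.PHer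

open Pool.Agent.PEmb Pool.Agent.PReg

namespace ItG6

lemma hl_one_ne (P : Par) (i j d a b c : ℕ) : hl P i j d 1 ≠ .core a b c := by
  unfold hl
  rw [if_neg one_ne_zero]
  split_ifs <;> simp

/-- one step inside a core -/
lemma step (hG3 : PG3) {W : Type} (k : ℕ) (P : Par) (E : ℕ → ℕ → ℕ → ℕ → Prop)
    (Γ : SimpleGraph W) (f : Lab → Lab × (Option W × Option W)) (h : GAdm k P E)
    (hf : GEmb k P E Γ f) (i j s s2 : ℕ) (hi : i < k) (hj : j < k) (hs : s < P.z i j)
    (hs2 : s2 < P.z i j) (he : E i j s s2) (a b c a' b' c' : ℕ)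
    (h1 : (f (.core i j s)).1 = .core a b c) (h2 : (f (.core i j s2)).1 = .core a' b' c') :
    a' = a ∧ b' = b ∧ (f (.core i j s2)).2 = (f (.core i j s)).2 ∧ E a b c c' := by
  have h3 := hf.adj (.core i j s) (.core i j s2) (Or.inl (GAE.cor i j s s2 hi hj hs hs2 he))
  have h4 : f (.core i j s) = (.core a b c, (f (.core i j s)).2) := by
    rw [← h1]
  rw [h4] at h3
  obtain ⟨h5, h6⟩ := hG3 k P E Γ h a b c _ _ h3
  rcases h6 with ⟨s', hs', h7, h8⟩ | ⟨d, -, -, h8⟩
  · rw [h2] at h8
    simp only [Lab.core.injEq] at h8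
    obtain ⟨rfl, rfl, rfl⟩ := h8
    exact ⟨rfl, rfl, h5, h7⟩
  · rw [h2] at h8
    exact absurd h8.symm (hl_one_ne _ _ _ _ _ _ _)

end ItG6

open ItG6 in
theorem G6 (hG3 : PG3) (hG5 : PG5) : PG6 := by
  classical
  intro W k P E Γ f h hf i j hi hj
  have hz : 0 < P.z i j := by
    have := h.adm.z4 i j hi hj
    omega
  have h5 := hG5 k P E Γ f h hf i j
  -- the index
  have hx : ∀ s, ∃ i' j' s', s < P.z i j → (i' < k ∧ j' < k ∧ s' < P.z i' j' ∧
      (f (.core i j s)).1 = .core i' j' s') := by
    intro s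
    by_cases hs : s < P.z i j
    · obtain ⟨i', j', s', h6⟩ := h5 s hi hj hs
      exact ⟨i', j', s', fun _ => h6⟩
    · exact ⟨0, 0, 0, fun h => absurd h hs⟩
  choose I J g hg using hx
  have hconst : ∀ s, s < P.z i j → I s = I 0 ∧ J s = J 0 ∧
      (f (.core i j s)).2 = (f (.core i j 0)).2 := by
    intro s hs
    have hr := h.conn i j 0 s hi hj hz hs
    clear hs
    induction hr with
    | refl => exact ⟨rfl, rfl, rfl⟩
    | @tail b c _ hbc ih =>
      obtain ⟨hb, hc, he⟩ := hbc
      obtain ⟨-, -, -, e1⟩ := hg b hb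
      obtain ⟨-, -, -, e2⟩ := hg c hc
      obtain ⟨e3, e4, e5, -⟩ := step hG3 k P E Γ f h hf i j b c hi hj hb hc he _ _ _ _ _ _ e1 e2
      exact ⟨e3.trans ih.1, e4.trans ih.2.1, e5.trans ih.2.2⟩
  have hlab : ∀ s, s < P.z i j → (f (.core i j s)).1 = .core (I 0) (J 0) (g s) := by
    intro s hs
    obtain ⟨e1, e2, -⟩ := hconst s hs
    rw [(hg s hs).2.2.2, e1, e2]
  have hinj : ∀ s s', s < P.z i j → s' < P.z i j → g s = g s' → s = s' := by
    intro s s' hs hs' he
    have e1 : f (.core i j s) = f (.core i j s') := by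
      apply Prod.ext
      · rw [hlab s hs, hlab s' hs', he]
      · rw [(hconst s hs).2.2, (hconst s' hs').2.2]
    have e2 := hf.inj _ _ (show Vx k P (.core i j s) from ⟨hi, hj, hs⟩)
      (show Vx k P (.core i j s') from ⟨hi, hj, hs'⟩) e1
    simp only [Lab.core.injEq, true_and] at e2
    exact e2
  have hlt : ∀ s, s < P.z i j → g s < P.z (I 0) (J 0) := by
    intro s hs
    obtain ⟨e1, e2, -⟩ := hconst s hs
    have := (hg s hs).2.2.1
    rwa [e1, e2] at this
  obtain ⟨hI, hJ, -, -⟩ := hg 0 hz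
  have heq : (i, j) = (I 0, J 0) := by
    by_contra hne
    apply h.nohom i j (I 0) (J 0) hi hj hI hJ hne
    refine ⟨g, hlt, hinj, ?_⟩
    intro s s' hs hs' he
    exact (step hG3 k P E Γ f h hf i j s s' hi hj hs hs' he _ _ _ _ _ _ (hlab s hs)
      (hlab s' hs')).2.2.2
  obtain ⟨e1, e2⟩ := Prod.mk.inj heq
  rw [← e1, ← e2] at hlt hlab
  refine ⟨(f (.core i j 0)).2, g, ?_, ?_⟩
  · intro s hs
    refine ⟨hlt s hs, ?_⟩
    apply Prod.ext
    · exact hlab s hs
    · exact (hconst s hs).2.2
  · intro s' hs'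
    have h9 : Set.SurjOn g (Finset.range (P.z i j)) (Finset.range (P.z i j)) := by
      apply Finset.surjOn_of_injOn_of_card_le
      · intro s hs
        simp only [Finset.coe_range, Set.mem_Iio] at hs ⊢
        exact hlt s hs
      · intro s hs t ht hst
        simp only [Finset.coe_range, Set.mem_Iio] at hs ht
        exact hinj s t hs ht hst
      · exact le_rfl
    obtain ⟨s, hs, h10⟩ := h9 (by simpa using hs')
    exact ⟨s, by simpa using hs, h10⟩

end Pool.Agent.PHer

end

section

/-!
# G7: the legs start along whole half legs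
-/

set_option autoImplicit false

namespace Pool.Agent.PHer

open Pool.Agent.PEmb Pool.Agent.PReg

namespace ItG7

open Pool.Agent.PEmb.ItR7 Pool.Agent.PEmb.ItR8 Pool.Agent.PEmb.ItRC

variable {k : ℕ} {P : Par}

lemma hl_leg {i j d s : ℕ} (hs : s ≠ 0) : ∃ o a b c, hl P i j d s = .leg o a b c := by
  unfold hl
  rw [if_neg hs]
  split
  · exact ⟨_, _, _, _, rfl⟩
  · split
    · exact ⟨_, _, _, _, rfl⟩
    · split
      · exact ⟨_, _, _, _, rfl⟩
      · exact ⟨_, _, _, _, rfl⟩

lemma hl_ne {i j d s : ℕ} (h : Dt k i j d) (hs : s + 2 < lg P i j d) :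
    hl P i j d s ≠ hl P i j d (s + 2) := by
  rcases Nat.eq_zero_or_pos s with h0 | h0
  · subst h0
    obtain ⟨o, a, b, c, e⟩ := hl_leg (P := P) (i := i) (j := j) (d := d) (s := 0 + 2) (by omega)
    rw [hl_zero, e]
    exact fun h => by cases h
  · rcases dt_cases h with ⟨o, hex, rfl⟩ | ⟨o, a', b', hex, rfl, rfl, rfl⟩
    · rw [hl_ro _ _ _ _ (by omega), hl_ro _ _ _ _ (by omega)]
      intro he
      simp only [Lab.leg.injEq, true_and] at he
      omega
    · rw [lg_ri] at hs
      rw [hl_ri _ _ _ _ (by omega), hl_ri _ _ _ _ (by omega)]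
      intro he
      simp only [Lab.leg.injEq, true_and] at he
      omega

end ItG7

open ItG7 Pool.Agent.PEmb.ItR7 Pool.Agent.PEmb.ItR8 Pool.Agent.PEmb.ItRC in
theorem G7 (hG1 : PG1) (hG2 : PG2) (hG3 : PG3) (hG5 : PG5) (hG6 : PG6) : PG7 := by
  intro W k P E Γ f hA hE
  obtain ⟨g1, g2, g3, -, g5⟩ := hG1 k P E Γ hA
  have h6' := fun i j hi hj => hG6 k P E Γ f hA hE i j hi hj
  choose! val π hπ using h6'
  have hroot : ∀ i j d, Dt k i j d → P.r i j d < P.z i j := by
    intro i j d h
    exact hA.adm.rlt i j d h.1 h.2.1 (by have := h.2.2; omega)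
  have hπinj : ∀ i j s s', i < k → j < k → s < P.z i j → s' < P.z i j → π i j s = π i j s' →
      s = s' := by
    intro i j s s' hi hj hs hs' he
    have h6 := hE.inj (.core i j s) (.core i j s') ⟨hi, hj, hs⟩ ⟨hi, hj, hs'⟩
      (by rw [((hπ i j hi hj).1 s hs).2, ((hπ i j hi hj).1 s' hs').2, he])
    simp only [Lab.core.injEq, true_and] at h6
    exact h6
  -- first step
  have hfirst : ∀ i j d, Dt k i j d → ∃ d', Dt k i j d' ∧ P.r i j d' = π i j (P.r i j d) ∧
      f (hl P i j d 1) = (hl P i j d' 1, val i j) := by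
    intro i j d hd
    obtain ⟨hi, hj, _⟩ := id hd
    have hr := hroot i j d hd
    have hadj0 := g2 i j d 0 hd (by have := lg_ge hA.adm hd; omega)
    have hadj := hE.adj _ _ hadj0
    rw [hl_zero, ((hπ i j hi hj).1 _ hr).2] at hadj
    have hnc : ∀ c, c < P.z i j → f (hl P i j d 1) ≠ (.core i j c, val i j) := by
      intro c hc he
      obtain ⟨s, hs, e⟩ := (hπ i j hi hj).2 c hc
      rw [← e, ← ((hπ i j hi hj).1 s hs).2] at he
      have h6 := hE.inj _ (.core i j s) (g1 _ _ hadj0).2 ⟨hi, hj, hs⟩ he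
      obtain ⟨o, a, b, c', e'⟩ := hl_leg (P := P) (i := i) (j := j) (d := d) (s := 1) (by omega)
      rw [e'] at h6
      cases h6
    obtain ⟨q2, hq⟩ := hG3 k P E Γ hA i j _ _ _ hadj
    have hpair : ∀ x, (f (hl P i j d 1)).1 = x → f (hl P i j d 1) = (x, val i j) := by
      intro x hx
      rw [← hx, ← q2]
    rw [Nat.zero_add] at hq q2
    rcases hq with ⟨s', hs', -, hq⟩ | ⟨d', hd', e, hq⟩
    · exact absurd (hpair _ hq) (hnc _ hs')
    · exact ⟨d', hd', e.symm, hpair _ hq⟩
  choose! τ hτ using hfirst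
  refine ⟨val, τ, fun i j s hi hj hs => ⟨π i j s, (hπ i j hi hj).1 s hs⟩, ?_⟩
  intro i j d hd
  obtain ⟨hi, hj, _⟩ := id hd
  obtain ⟨hd', hr', hf1⟩ := hτ i j d hd
  have hlg := lg_ge hA.adm hd
  have hr := hroot i j d hd
  -- along the half leg
  have hmain : ∀ s, s ≤ al P i j (τ i j d) → s < lg P i j d →
      (f (hl P i j d s)).1 = hl P i j (τ i j d) s ∧
        (s < al P i j (τ i j d) → (f (hl P i j d s)).2 = val i j) := by
    intro s
    induction s using Nat.strong_induction_on with
    | _ s ih =>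
      intro hs hs'
      match s, ih, hs, hs' with
      | 0, _, _, _ =>
        rw [hl_zero, hl_zero, hr', ((hπ i j hi hj).1 _ hr).2]
        exact ⟨rfl, fun _ => rfl⟩
      | 1, _, _, _ =>
        rw [hf1]
        exact ⟨rfl, fun _ => rfl⟩
      | s + 2, ih, hs, hs' =>
        obtain ⟨a1, b1⟩ := ih (s + 1) (by omega) (by omega) (by omega)
        obtain ⟨a0, _⟩ := ih s (by omega) (by omega) (by omega)
        have hadj1 := g2 i j d (s + 1) hd hs'
        have hadj0 := g2 i j d s hd (by omega)
        have hadj := hE.adj _ _ hadj1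
        have hadj' := hE.adj _ _ (Or.symm hadj0)
        have hpair : f (hl P i j d (s + 1)) = (hl P i j (τ i j d) (s + 1), val i j) :=
          Prod.ext a1 (b1 (by omega))
        have hcell : zlab2 P (f (hl P i j d (s + 1))).1 = .cell i j := by
          rw [a1]
          exact g3 i j _ _ hd' (by omega)
        have hlab : (f (hl P i j d s)).1 = (f (hl P i j d (s + 2))).1 → False := by
          intro he
          have h7 := g5 _ _ _ hadj' hadj he ⟨i, j, hcell⟩
          exact hl_ne hd hs' (hE.inj _ _ (g1 _ _ hadj0).1 (g1 _ _ hadj1).2 h7)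
        rw [hpair] at hadj
        rcases hG2 k P E Γ hA i j (τ i j d) (s + 1) _ _ hd' (by omega) (by omega) hadj with h6 | h6
        · exfalso
          refine hlab ?_
          have h7 := congrArg Prod.fst h6
          simp only [Nat.add_sub_cancel] at h7
          rw [a0]
          exact h7.symm
        · exact h6
  -- the leg is longer than the half leg
  have hlong : al P i j (τ i j d) < lg P i j d := by
    by_contra hcon
    rw [not_lt] at hcon
    obtain ⟨i', j', d2, -, hd2, -, -, -, hbar⟩ := bar_spec P hd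
    obtain ⟨a1, b1⟩ := hmain (lg P i j d - 1) (by omega) (by omega)
    have hpair : f (hl P i j d (lg P i j d - 1)) = (hl P i j (τ i j d) (lg P i j d - 1), val i j) :=
      Prod.ext a1 (b1 (by omega))
    have hadj0 := g2 i' j' d2 0 hd2 (by have := lg_ge hA.adm hd2; omega)
    have hb := hbar (lg P i j d - 1) (by omega) (by omega)
    rw [show lg P i j d - (lg P i j d - 1) = 0 + 1 by omega] at hb
    rw [← hb, hl_zero] at hadj0
    have hadj := hE.adj _ _ (Or.symm hadj0)
    rw [hpair, ((hπ i' j' hd2.1 hd2.2.1).1 _ (hroot _ _ _ hd2)).2] at hadj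
    rcases hG2 k P E Γ hA i j (τ i j d) (lg P i j d - 1) _ _ hd' (by omega) (by omega) hadj
      with h6 | h6
    · obtain ⟨o, a, b, c', e'⟩ := hl_leg (P := P) (i := i) (j := j) (d := τ i j d)
        (s := lg P i j d - 1 - 1) (by omega)
      rw [e'] at h6
      have h7 := congrArg Prod.fst h6
      simp only at h7
      cases h7
    · obtain ⟨o, a, b, c', e'⟩ := hl_leg (P := P) (i := i) (j := j) (d := τ i j d)
        (s := lg P i j d - 1 + 1) (by omega)
      rw [e'] at h6
      have h7 := h6.1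
      simp only at h7
      cases h7
  refine ⟨hd', ?_, hlong, fun s hs => hmain s hs (by omega)⟩
  intro d2 hd2 he
  obtain ⟨hd2', hr2', _⟩ := hτ i j d2 hd2
  have h6 := hπinj i j _ _ hi hj hr (hroot i j d2 hd2) (by rw [← hr', ← hr2', he])
  exact hA.adm.rinj i j d d2 hi hj (by have := hd.2.2; omega) (by have := hd2.2.2; omega) h6

end Pool.Agent.PHer

end
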