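import Pool.Agent.Work.MP_cfa43e_lc.Her.Stmts
import Pool.Agent.Work.MP_cfa43e_lc.Bd.B03
import Pool.Agent.Work.MP_cfa43e_lc.Bd.B07
import Pool.Agent.Work.MP_cfa43e_lc.Her.StmtsD

/-! Bundle of small proof modules (one section per former module). -/

section

/-!
# G8: the total length argument (as in `R7`, without the embedding hypothesis)
-/

set_option autoImplicit false

namespace Pool.Agent.PHer

open Pool.Agent.PEmb Pool.Agent.PReg

open Pool.Agent.PEmb.ItR7 in
theorem G8 : PG8 := by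
  intro V k P f val τ hA h6 o i j hex
  classical
  set D : Finset (ℕ × ℕ × ℕ) :=
    (Finset.range k ×ˢ Finset.range k ×ˢ Finset.range 4).filter (fun x => Dt k x.1 x.2.1 x.2.2)
    with hD
  have hDm : ∀ x : ℕ × ℕ × ℕ, x ∈ D ↔ Dt k x.1 x.2.1 x.2.2 := by
    intro x
    simp only [hD, Finset.mem_filter, Finset.mem_product, Finset.mem_range]
    constructor
    · exact fun h => h.2
    · intro h
      refine ⟨⟨h.1, h.2.1, ?_⟩, h⟩
      have := h.2.2
      omega
  set A : ℕ × ℕ × ℕ → ℕ := fun x => al P x.1 x.2.1 x.2.2 with hAdef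
  set B : ℕ × ℕ × ℕ → ℕ := fun x => al P x.1 x.2.1 (τ x.1 x.2.1 x.2.2) with hBdef
  -- sum of `B` equals sum of `A`
  have hsum1 : ∑ x ∈ D, B x = ∑ x ∈ D, A x := by
    have hmaps : ∀ x ∈ D, (x.1, x.2.1, τ x.1 x.2.1 x.2.2) ∈ D := by
      intro x hx
      rw [hDm] at hx ⊢
      exact (h6 _ _ _ hx).1
    have hinj : Set.InjOn (fun x : ℕ × ℕ × ℕ => (x.1, x.2.1, τ x.1 x.2.1 x.2.2)) D := by
      rintro ⟨a, b, c⟩ hx ⟨a', b', c'⟩ hy hxy
      simp only [Prod.mk.injEq] at hxy
      obtain ⟨rfl, rfl, h3⟩ := hxy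
      have hx' := (hDm _).1 hx
      have hy' := (hDm _).1 hy
      have := (h6 _ _ _ hx').2.1 _ hy' h3
      simp only at this
      rw [this]
    have himg : D.image (fun x : ℕ × ℕ × ℕ => (x.1, x.2.1, τ x.1 x.2.1 x.2.2)) = D := by
      apply Finset.eq_of_subset_of_card_le
      · intro y hy
        obtain ⟨x, hx, rfl⟩ := Finset.mem_image.1 hy
        exact hmaps x hx
      · rw [Finset.card_image_of_injOn hinj]
    calc ∑ x ∈ D, B x = ∑ x ∈ D, A (x.1, x.2.1, τ x.1 x.2.1 x.2.2) := rfl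
      _ = ∑ y ∈ D.image (fun x : ℕ × ℕ × ℕ => (x.1, x.2.1, τ x.1 x.2.1 x.2.2)), A y := by
          rw [Finset.sum_image hinj]
      _ = ∑ x ∈ D, A x := by rw [himg]
  -- sums over `bar`
  have hbar : ∀ F : ℕ × ℕ × ℕ → ℕ, ∑ x ∈ D, F (bar x) = ∑ x ∈ D, F x := by
    intro F
    refine Finset.sum_nbij' bar bar ?_ ?_ ?_ ?_ ?_
    · rintro ⟨a, b, c⟩ hx
      obtain ⟨a', b', c', e, h1, h2, _⟩ := bar_spec P ((hDm _).1 hx)
      rw [e, hDm]
      exact h1
    · rintro ⟨a, b, c⟩ hx
      obtain ⟨a', b', c', e, h1, h2, _⟩ := bar_spec P ((hDm _).1 hx)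
      rw [e, hDm]
      exact h1
    · rintro ⟨a, b, c⟩ hx
      obtain ⟨a', b', c', e, h1, h2, _⟩ := bar_spec P ((hDm _).1 hx)
      rw [e]
      exact h2
    · rintro ⟨a, b, c⟩ hx
      obtain ⟨a', b', c', e, h1, h2, _⟩ := bar_spec P ((hDm _).1 hx)
      rw [e]
      exact h2
    · intro x hx
      rfl
  -- the claim
  have hle : ∀ x ∈ D, B x + B (bar x) ≤ A x + A (bar x) := by
    rintro ⟨a, b, c⟩ hx
    have hx' := (hDm _).1 hx
    simp only at hx'
    obtain ⟨a', b', c', e, h1, h2, h3, h4, h5⟩ := bar_spec P hx'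
    rw [e]
    simp only [hAdef, hBdef]
    rw [h4]
    by_contra hcon
    rw [not_le] at hcon
    obtain ⟨k1, _, k3, k4⟩ := h6 _ _ _ hx'
    obtain ⟨k1', _, k3', k4'⟩ := h6 _ _ _ h1
    have g1 := al_ge hA k1
    have e1 := (k4 _ le_rfl).1
    rw [h5 _ (by omega) k3] at e1
    have e2 := (k4' (lg P a b c - al P a b (τ a b c)) (by omega)).1
    rw [e1] at e2
    have z1 := zone_al hA k1
    have z2 := zone_lt hA k1' (s := lg P a b c - al P a b (τ a b c)) (by omega)
    rw [e2, z2] at z1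
    exact Zone.noConfusion z1
  have hsumeq : ∑ x ∈ D, (B x + B (bar x)) = ∑ x ∈ D, (A x + A (bar x)) := by
    rw [Finset.sum_add_distrib, Finset.sum_add_distrib, hbar, hbar, hsum1]
  have heq := (Finset.sum_eq_sum_iff_of_le hle).1 hsumeq
  cases o
  · have hd : Dt k i j 0 := by
      have h' := hex
      simp only [Ex, nx] at h'
      exact ⟨h'.1, by omega, Or.inl ⟨rfl, h'.2⟩⟩
    have h := heq (i, j, 0) ((hDm _).2 hd)
    obtain ⟨a', b', c', e, h1, h2, h3, h4, h5⟩ := bar_spec P hd
    rw [e] at h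
    simp only [hAdef, hBdef] at h
    rw [h4, lg0] at h
    have e' : bar (i, j, 0) = (i, j + 1, 1) := by simp [bar]
    rw [e'] at e
    simp only [Prod.mk.injEq] at e
    obtain ⟨rfl, rfl, rfl⟩ := e
    exact h
  · have hd : Dt k i j 2 := by
      have h' := hex
      simp only [Ex, nx] at h'
      exact ⟨by omega, h'.2, Or.inr (Or.inr (Or.inl ⟨rfl, h'.1⟩))⟩
    have h := heq (i, j, 2) ((hDm _).2 hd)
    obtain ⟨a', b', c', e, h1, h2, h3, h4, h5⟩ := bar_spec P hd
    rw [e] at h
    simp only [hAdef, hBdef] at h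
    rw [h4, lg2] at h
    have e' : bar (i, j, 2) = (i + 1, j, 3) := by simp [bar]
    rw [e'] at e
    simp only [Prod.mk.injEq] at e
    obtain ⟨rfl, rfl, rfl⟩ := e
    exact h

end Pool.Agent.PHer

end

section

/-!
# G9: neighbouring cells have compatible values
-/

set_option autoImplicit false

namespace Pool.Agent.PHer

open Pool.Agent.PEmb Pool.Agent.PReg

namespace ItG9

open Pool.Agent.PEmb.ItR7 Pool.Agent.PEmb.ItRC

variable {W : Type} {k : ℕ} {P : Par} {E : ℕ → ℕ → ℕ → ℕ → Prop} {Γ : SimpleGraph W}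

lemma cmp_cell (i j : ℕ) (o : Bool) (p q : Option W × Option W)
    (h : cmp (zb (.cell i j)) (.port o) p q) :
    (o = false → p.1 = q.1) ∧ (o = true → p.2 = q.2) := by
  simp only [zb] at h
  split_ifs at h
  · cases o
    · exact ⟨fun _ => h, fun h' => absurd h' (by simp)⟩
    · exact ⟨fun h' => absurd h' (by simp), fun _ => h⟩
  · cases o
    · exact ⟨fun _ => h, fun h' => absurd h' (by simp)⟩
    · exact ⟨fun h' => absurd h' (by simp), fun _ => h⟩

/-- the value of the port vertex on the image of a dart is compatible with the value of the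
cell -/
lemma comp_port (hG1 : PG1) {f : Lab → Lab × (Option W × Option W)}
    {val : ℕ → ℕ → Option W × Option W} {τ : ℕ → ℕ → ℕ → ℕ}
    (hG : GAdm k P E) (hE : GEmb k P E Γ f) (h6 : Leg6 k P f val τ) {i j d : ℕ}
    (h : Dt k i j d) :
    (τ i j d < 2 → (val i j).1 = (f (hl P i j d (al P i j (τ i j d)))).2.1) ∧
      (2 ≤ τ i j d → (val i j).2 = (f (hl P i j d (al P i j (τ i j d)))).2.2) := by
  have hA := hG.adm
  obtain ⟨-, g2, g3, g4, -⟩ := hG1 k P E Γ hG
  obtain ⟨k1, _, k3, k4⟩ := h6 _ _ _ h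
  have g1 := al_ge hA k1
  obtain ⟨a, ha⟩ : ∃ a, al P i j (τ i j d) = a + 1 := ⟨al P i j (τ i j d) - 1, by omega⟩
  rw [ha] at k3
  have hadj := g2 i j d a h k3
  have hH := (hE.adj _ _ hadj).2.2.2
  have e1 := k4 a (by omega)
  have e2 := k4 (a + 1) (by omega)
  obtain ⟨o, a', b', z1, z2⟩ := g4 i j (τ i j d) k1
  rw [ha] at z1
  have z3 := g3 i j (τ i j d) a k1 (by omega)
  rw [e1.1, e2.1, e1.2 (by omega)] at hH
  simp only [gk] at hH
  rw [z1, z3] at hH
  have hc := cmp_cell i j o _ _ hH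
  rw [ha]
  refine ⟨fun hlt => hc.1 ?_, fun hge => hc.2 (z2.2 hge)⟩
  by_contra hcon
  have : o = true := by
    cases o
    · exact absurd rfl hcon
    · rfl
  have := z2.1 this
  omega

end ItG9

open ItG9 Pool.Agent.PEmb.ItR7 Pool.Agent.PEmb.ItRC in
theorem G9 (hG1 : PG1) (hG8 : PG8) : PG9 := by
  intro W k P E Γ f val τ hG hE h6
  have hA := hG.adm
  have hlen := hG8 k P f val τ hA h6
  refine ⟨?_, ?_⟩
  · intro i j hi hj
    have hex : Ex k false i j := ⟨hi, hj⟩
    have d1 : Dt k i j 0 := ⟨hi, by omega, Or.inl ⟨rfl, hj⟩⟩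
    have d2 : Dt k i (j + 1) 1 := ⟨hi, hj, Or.inr (Or.inl ⟨rfl, by omega⟩)⟩
    have hl1' := hlen false i j hex
    simp only [nx, ro, ri] at hl1'
    have c1 := comp_port hG1 hG hE h6 d1
    have c2 := comp_port hG1 hG hE h6 d2
    obtain ⟨k1, _, _, k4⟩ := h6 _ _ _ d1
    obtain ⟨k1', _, _, k4'⟩ := h6 _ _ _ d2
    have g1 := al_ge hA k1
    have g1' := al_ge hA k1'
    have e1 := (k4 _ le_rfl).1
    have e2 := (k4' _ le_rfl).1
    have hv : hl P i j 0 (al P i j (τ i j 0)) =
        hl P i (j + 1) 1 (al P i (j + 1) (τ i (j + 1) 1)) := by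
      rw [hl0 _ _ _ (by omega), hl1 _ _ _ (by omega)]
      simp only [Nat.add_sub_cancel]
      congr 1
      omega
    rw [hv, e2] at e1
    rw [hv] at c1
    have n1 : al P i j (τ i j 0) ≠ 0 := by omega
    have n2 : al P i (j + 1) (τ i (j + 1) 1) ≠ 0 := by omega
    have hτ1 : τ i j 0 = 0 ∨ τ i j 0 = 1 ∨ τ i j 0 = 2 ∨ τ i j 0 = 3 := by
      have := k1.2.2
      omega
    have hτ2 : τ i (j + 1) 1 = 0 ∨ τ i (j + 1) 1 = 1 ∨ τ i (j + 1) 1 = 2 ∨ τ i (j + 1) 1 = 3 := by
      have := k1'.2.2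
      omega
    have hkey : τ i j 0 = 0 ∧ τ i (j + 1) 1 = 1 := by
      have hd1 := k1.2.2
      have hd2 := k1'.2.2
      rcases hτ1 with h | h | h | h <;> rcases hτ2 with h' | h' | h' | h' <;>
        rw [h] at e1 n1 hd1 <;> rw [h'] at e1 n2 hd2 <;>
        simp only [hl, n1, n2, if_false, if_true, Lab.leg.injEq, one_ne_zero, OfNat.ofNat_ne_zero,
          OfNat.ofNat_ne_one, reduceCtorEq, false_and, true_and] at e1 <;>
        first
          | (exact ⟨h, h'⟩)
          | (exfalso; simp at e1; omega)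
          | (exfalso; simp at e1)
          | (exfalso; omega)
    rw [c1.1 (by omega), c2.1 (by omega)]
  · intro i j hi hj
    have hex : Ex k true i j := ⟨hi, hj⟩
    have d1 : Dt k i j 2 := ⟨by omega, hj, Or.inr (Or.inr (Or.inl ⟨rfl, hi⟩))⟩
    have d2 : Dt k (i + 1) j 3 := ⟨hi, hj, Or.inr (Or.inr (Or.inr ⟨rfl, by omega⟩))⟩
    have hl1' := hlen true i j hex
    simp only [nx, ro, ri] at hl1'
    have c1 := comp_port hG1 hG hE h6 d1
    have c2 := comp_port hG1 hG hE h6 d2
    obtain ⟨k1, _, _, k4⟩ := h6 _ _ _ d1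
    obtain ⟨k1', _, _, k4'⟩ := h6 _ _ _ d2
    have g1 := al_ge hA k1
    have g1' := al_ge hA k1'
    have e1 := (k4 _ le_rfl).1
    have e2 := (k4' _ le_rfl).1
    have hv : hl P i j 2 (al P i j (τ i j 2)) =
        hl P (i + 1) j 3 (al P (i + 1) j (τ (i + 1) j 3)) := by
      rw [hl2 _ _ _ (by omega), hl3 _ _ _ (by omega)]
      simp only [Nat.add_sub_cancel]
      congr 1
      omega
    rw [hv, e2] at e1
    rw [hv] at c1
    have n1 : al P i j (τ i j 2) ≠ 0 := by omega
    have n2 : al P (i + 1) j (τ (i + 1) j 3) ≠ 0 := by omega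
    have hτ1 : τ i j 2 = 0 ∨ τ i j 2 = 1 ∨ τ i j 2 = 2 ∨ τ i j 2 = 3 := by
      have := k1.2.2
      omega
    have hτ2 : τ (i + 1) j 3 = 0 ∨ τ (i + 1) j 3 = 1 ∨ τ (i + 1) j 3 = 2 ∨ τ (i + 1) j 3 = 3 := by
      have := k1'.2.2
      omega
    have hkey : τ i j 2 = 2 ∧ τ (i + 1) j 3 = 3 := by
      have hd1 := k1.2.2
      have hd2 := k1'.2.2
      rcases hτ1 with h | h | h | h <;> rcases hτ2 with h' | h' | h' | h' <;>
        rw [h] at e1 n1 hd1 <;> rw [h'] at e1 n2 hd2 <;>
        simp only [hl, n1, n2, if_false, if_true, Lab.leg.injEq, one_ne_zero, OfNat.ofNat_ne_zero,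
          OfNat.ofNat_ne_one, reduceCtorEq, false_and, true_and] at e1 <;>
        first
          | (exact ⟨h, h'⟩)
          | (exfalso; simp at e1; omega)
          | (exfalso; simp at e1)
          | (exfalso; omega)
    rw [c1.2 (by omega), c2.2 (by omega)]

end Pool.Agent.PHer

end

section

/-!
# Assembly of the third main theorem: hereditary classes of bounded degree
-/

set_option autoImplicit false

namespace Pool.Agent.PHer

open Pool.Agent.PEmb Pool.Agent.PReg

theorem E_of (h3 : PE3) (h4 : PE4) : PE := by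
  intro k
  obtain ⟨K, hK⟩ := h4 k
  refine ⟨K, fun {V} G B hB => ?_⟩
  obtain ⟨B', L, X, Y, e, μ, hb⟩ := hK G B hB
  exact h3 G K B' k L X Y e μ hb

theorem P_of (h1 : PP1) (h2 : PP2) (h4 : PP4) (h5 : PP5) (h6 : PP6) (h7 : PP7) (h8 : PP8) :
    PP := by
  intro k P col hP ha
  have ex : ∀ {o : Bool} {i j : ℕ}, Ex k o i j → i < k ∧ j < k := by
    intro o i j h
    cases o <;> simp only [Ex, nx] at h <;> omega
  have ex' : ∀ i j, i < k → j < k → i + 1 < k + 2 ∧ j + 1 < k + 2 := fun i j hi hj =>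
    ⟨by omega, by omega⟩
  refine
    { size := ?_, sinj := ?_, lbig := ?_, disj := ?_, conn := ?_, deg2 := ?_, nohom := ?_,
      rtC := ?_, rtinj := ?_, L0 := ?_, L1 := ?_, Lstep := ?_, Linj := ?_, Lout := ?_, CC := ?_,
      CL := ?_, LL := ?_ }
  · intro i j hi hj
    have a1 := h1 k P col hP ha i j hi hj
    have a2 := hP.z20 (i + 1) (j + 1) (by omega) (by omega)
    omega
  · intro i j i' j' hi hj hi' hj' he
    by_contra hne
    have a1 := h1 k P col hP ha i j hi hj
    have a2 := h1 k P col hP ha i' j' hi' hj'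
    have a3 := hP.gap (i + 1) (j + 1) (i' + 1) (j' + 1) (by omega) (by omega) (by omega)
      (by omega) (by
        intro h
        simp only [Prod.mk.injEq, Nat.add_right_cancel_iff] at h
        exact hne h)
    omega
  · intro o i j i' j' he hi' hj'
    have a1 := h1 k P col hP ha i' j' hi' hj'
    have a2 := (h6 k P col hP ha o i j he).1 i' j' hi' hj'
    omega
  · intro i j i' j' hi hj hi' hj' hne
    exact (h5 k P col hP ha i j i' j' hi hj hi' hj').1 hne
  · intro i j hi hj
    exact (h2 k P col hP ha i j hi hj).1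
  · intro i j hi hj
    exact (h2 k P col hP ha i j hi hj).2.1
  · intro i j i' j' hi hj hi' hj' hne
    exact h4 k P col hP ha i j i' j' hi hj hi' hj' hne
  · intro i j d hi hj hd
    exact (h2 k P col hP ha i j hi hj).2.2.1 d hd
  · intro i j d d' hi hj hd hd' he
    exact (h2 k P col hP ha i j hi hj).2.2.2 d d' hd hd' he
  · intro o i j he
    exact (h6 k P col hP ha o i j he).2.2.2.1
  · intro o i j he
    simp [Lg]
  · intro o i j s he hs
    exact (h6 k P col hP ha o i j he).2.2.2.2 s hs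
  · intro o i j o' i' j' s s' he he' h1s h2s h1s' h2s' heq
    exact (h8 k P col hP ha o i j s o' i' j' s' he he' h1s h2s h1s' h2s').1 heq
  · intro o i j s i' j' he h1s h2s hi' hj' hmem
    exact (h7 k P col hP ha o i j s i' j' _ he h1s h2s hi' hj' hmem).1 hmem
  · intro i j i' j' u v hi hj hi' hj' hu hv huv
    exact (h5 k P col hP ha i j i' j' hi hj hi' hj').2 u hu v hv huv
  · intro o i j s i' j' u he h1s h2s hi' hj' hu huv
    exact (h7 k P col hP ha o i j s i' j' u he h1s h2s hi' hj' hu).2 huv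
  · intro o i j s o' i' j' s' he he' h1s h2s h1s' h2s' huv
    exact (h8 k P col hP ha o i j s o' i' j' s' he he' h1s h2s h1s' h2s').2 huv

/-- For all `d`, `k` there is `w` such that every graph of degree at most `d` and tree width
larger than `w` has an induced subgraph with zones such that embeddings into the host are cliques
with `k` vertices. -/
def PHerSem : Prop := ∀ d k : ℕ, ∃ w : ℕ, ∀ {V : Type} [Finite V] (G : SimpleGraph V),
  (∀ v, dg G v ≤ d) → ¬ TreeWidthLE G w →
    ∃ (A : Code) (f : Fin A.length → V) (ζ : Fin A.length → ZB), Function.Injective f ∧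
      (∀ x y, (graph A).Adj x y ↔ G.Adj (f x) (f y)) ∧
      ∀ {W : Type} (Γ : SimpleGraph W), Kq k Γ ↔ Embeds (graph A) (host (graph A) ζ Γ)

theorem ae_inc {V : Type} {G : SimpleGraph V} {a b : V ⊕ Set V} (h : (Inc G).Adj a b) :
    a.isLeft ≠ b.isLeft := by
  rcases h with ⟨v, s, rfl, rfl, -⟩ | ⟨v, s, rfl, rfl, -⟩ <;> simp

theorem mem_of_inc {V : Type} {G : SimpleGraph V} {v : V} {b : V ⊕ Set V}
    (h : (Inc G).Adj (.inl v) b) : ∃ u, G.Adj v u := by
  rcases h with ⟨v', s, h1, h2, h3, h4⟩ | ⟨v', s, h1, h2, -⟩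
  · cases h1
    rcases h3 with ⟨x, y, hxy, rfl, -⟩ | ⟨x, y, z, hxy, hyz, hxz, rfl⟩
    · rcases h4 with rfl | h4
      · exact ⟨y, hxy⟩
      · rw [Set.mem_singleton_iff.1 h4]
        exact ⟨x, hxy.symm⟩
    · rcases h4 with rfl | rfl | h4
      · exact ⟨y, hxy⟩
      · exact ⟨x, hxy.symm⟩
      · rw [Set.mem_singleton_iff.1 h4]
        exact ⟨x, hxz.symm⟩
  · cases h2

theorem HerSem (hS : PS) (h2 : PS2) (hG : PGr) (hE : PE) (hP0 : PP0) (hT2 : PT2)
    (hT4 : PT4) (hT5 : PT5) (hP : PP) (hC1 : PC1) (hG12 : PG12) (hC2 : PC2) : PHerSem := by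
  intro d k
  obtain ⟨K1, hK1⟩ := hE (k + 2)
  obtain ⟨w1, hw1⟩ := hG K1
  obtain ⟨K2, hK2⟩ := hS d (3 * (w1 + 1) + 2)
  obtain ⟨w2, hw2⟩ := hG K2
  refine ⟨w2, fun {V} _ G hd hG' => ?_⟩
  -- the case k = 0
  rcases Nat.eq_zero_or_pos k with rfl | hk
  · refine ⟨[], Fin.elim0, Fin.elim0, fun x => x.elim0, fun x => x.elim0, fun {W} Γ => ?_⟩
    constructor
    · intro _
      exact ⟨fun x => x.elim0, fun x => x.elim0, fun x => x.elim0⟩
    · intro _
      exact ⟨fun x => x.elim0, fun x => x.elim0⟩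
  obtain ⟨B, hB⟩ := hw2 G hG'
  obtain ⟨S, ⟨B', hB'⟩, hsat⟩ := hK2 G hd B hB
  have n1 : ¬ TreeWidthLE (rs G S) (3 * (w1 + 1)) := by
    intro h
    have := h2 _ _ _ _ h hB'
    omega
  obtain ⟨S2, hsat2, n2, hcl⟩ := hT2 (rs G S) (3 * (w1 + 1)) (by omega) hsat n1
  set G2 := rs (rs G S) S2 with hG2
  have n3 : ¬ TreeWidthLE (Inc G2) w1 := fun h => n2 (hT4 G2 w1 h)
  obtain ⟨B3, hB3⟩ := hw1 (Inc G2) n3
  obtain ⟨P, hPa, φ, φinj, φadj⟩ := hK1 (Inc G2) B3 hB3
  have hadj : ∀ x y, AAdj (k + 2) P x y → (Inc G2).Adj (φ x) (φ y) := by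
    rintro x y (h | h)
    · exact φadj x y h
    · exact (φadj y x h).symm
  have hvx := (hP0 (k + 2) P hPa.toAdm).1
  set col : Lab → Bool := fun x => (φ x).isLeft with hcol
  have halt : Alt (k + 2) P col := fun x y h => ae_inc (hadj x y h)
  have hsys := hP k P col hPa halt
  have : Nonempty Lab := ⟨.core 0 0 0⟩
  obtain ⟨P', E, φ', hGA, φ'inj, φ'adj, φ'loc⟩ := hC1 k (Hs (k + 2) P col) _ _ _ _ hsys
  -- the vertices
  have hnb : ∀ x, Vx k P' x → ∃ y, (Hs (k + 2) P col).Adj (φ' x) y := by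
    intro x hx
    rcases φ'loc x hx with ⟨i, j, hi, hj, h⟩ | ⟨o, i, j, s, he, hs1, hs2, h⟩
    · obtain ⟨a, -, b, -, -, hab, -⟩ := hsys.deg2 i j hi hj _ h
      exact ⟨a, hab⟩
    · rw [h]
      exact ⟨_, hsys.Lstep o i j s he hs2⟩
  have hval : ∀ x, Vx k P' x → ∃ v : V, φ (φ' x) = .inl v ∧ Vx (k + 2) P (φ' x) ∧
      ∃ z, AAdj (k + 2) P (φ' x) z := by
    intro x hx
    obtain ⟨y, -, hc, -, z, hz, -⟩ := hnb x hx
    obtain ⟨v, hv⟩ := Sum.isLeft_iff.1 hc
    exact ⟨v, hv, (hvx _ _ hz).1, z, hz⟩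
  have hV0 : Vx k P' (.core 0 0 0) := by
    have := hGA.adm.z4 0 0 hk hk
    exact ⟨hk, hk, by omega⟩
  have hne : Nonempty V := ⟨(hval _ hV0).choose⟩
  have hval' : ∀ x, ∃ v : V, Vx k P' x → φ (φ' x) = .inl v ∧ Vx (k + 2) P (φ' x) ∧
      ∃ z, AAdj (k + 2) P (φ' x) z := by
    intro x
    by_cases hx : Vx k P' x
    · obtain ⟨v, hv⟩ := hval x hx
      exact ⟨v, fun _ => hv⟩
    · exact ⟨hne.some, fun h => absurd h hx⟩
  choose Φ hΦ using hval'
  have hΦinj : ∀ x y, Vx k P' x → Vx k P' y → Φ x = Φ y → x = y := by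
    intro x y hx hy he
    apply φ'inj x y hx hy
    apply φinj _ _ (hΦ x hx).2.1 (hΦ y hy).2.1
    rw [(hΦ x hx).1, (hΦ y hy).1, he]
  have hΦS : ∀ x, Vx k P' x → Φ x ∈ S ∧ Φ x ∈ S2 := by
    intro x hx
    obtain ⟨z, hz⟩ := (hΦ x hx).2.2
    have h1 := hadj _ _ hz
    rw [(hΦ x hx).1] at h1
    obtain ⟨u, hu⟩ := mem_of_inc h1
    exact ⟨hu.1.2.1, hu.2.1⟩
  have hGG : ∀ x y, Vx k P' x → Vx k P' y → (G2.Adj (Φ x) (Φ y) ↔ G.Adj (Φ x) (Φ y)) := by
    intro x y hx hy
    constructor
    · exact fun h => h.1.1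
    · exact fun h => ⟨⟨h, (hΦS x hx).1, (hΦS y hy).1⟩, (hΦS x hx).2, (hΦS y hy).2⟩
  have hΦadj : ∀ x y, Vx k P' x → Vx k P' y → (G.Adj (Φ x) (Φ y) ↔ GAdj k P' E x y) := by
    intro x y hx hy
    rw [← hGG x y hx hy, ← φ'adj x y hx hy,
      hT5 G2 hsat2 hcl (k + 2) P φ hPa.toAdm φinj φadj (φ' x) (φ' y) (Φ x) (Φ y)
        (hΦ x hx).2.1 (hΦ y hy).2.1 (hΦ x hx).1 (hΦ y hy).1]
    constructor
    · rintro ⟨hxy, hz⟩
      refine ⟨hxy, ?_, ?_, hz⟩
      · show (φ (φ' x)).isLeft = true
        rw [(hΦ x hx).1]; rfl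
      · show (φ (φ' y)).isLeft = true
        rw [(hΦ y hy).1]; rfl
    · rintro ⟨hxy, -, -, hz⟩
      exact ⟨hxy, hz⟩
  -- the induced subgraph
  let U : Set V := {v | ∃ x, Vx k P' x ∧ Φ x = v}
  classical
  let ψ : Lab → U := fun x => if hx : Vx k P' x then ⟨Φ x, x, hx, rfl⟩ else
    ⟨Φ (.core 0 0 0), _, hV0, rfl⟩
  have hψ : ∀ x, Vx k P' x → (ψ x : V) = Φ x := by
    intro x hx
    simp only [ψ, dif_pos hx]
  obtain ⟨ζ, hζ⟩ := hG12 k P' E (G.induce U) ψ hGA
    (fun x y hx hy he => hΦinj x y hx hy (by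
      rw [← hψ x hx, ← hψ y hy, he]))
    (fun v => by
      obtain ⟨v, x, hx, rfl⟩ := v
      exact ⟨x, hx, Subtype.ext (hψ x hx)⟩)
    (fun x y hx hy => by
      rw [← hΦadj x y hx hy, SimpleGraph.induce_adj, hψ x hx, hψ y hy])
  obtain ⟨A, f, ζ', hf, hfa, hA⟩ := hC2 k (G.induce U) ζ hζ
  exact ⟨A, fun x => (f x : V), ζ', fun x y h => hf (Subtype.ext h), fun x y => by
    rw [hfa x y, SimpleGraph.induce_adj], hA⟩

/-- Classes closed under induced subgraphs (and isomorphism). -/
def Hereditary (C : Code → Prop) : Prop :=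
  ∀ A B : Code, C B → Nonempty (graph A ↪g graph B) → C A

/-- The class contains graphs of degree at most `d` of arbitrarily large tree width. -/
def BDUnb (d : ℕ) (C : Code → Prop) : Prop := ∀ w : ℕ, ∃ A : Code, C A ∧
  (∀ v, ((graph A).neighborSet v).ncard ≤ d) ∧ ¬ TreeWidthLE (graph A) w

theorem MainHer (hb : PB) (hs : PHerSem) (d : ℕ) (C : Code → Prop) (hC : ComputablePred C)
    (hH : Hereditary C) (hU : BDUnb d C) : FptReducible Clique cliqueParam (Emb C) embParam := by
  refine hb C hC fun k => ?_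
  obtain ⟨w, hw⟩ := hs d k
  obtain ⟨A0, hA0, hdeg, htw⟩ := hU w
  obtain ⟨A, f, ζ, hf, hfa, hA⟩ := hw (graph A0) hdeg htw
  refine ⟨A, hH A A0 hA0 ⟨⟨⟨f, hf⟩, fun {x y} => (hfa x y).symm⟩⟩, ζ, fun n Γ => hA Γ⟩

end Pool.Agent.PHer

end

section

/-!
# P1: the size of the cores
-/

set_option autoImplicit false

namespace Pool.Agent.PHer

open Pool.Agent.PEmb Pool.Agent.PReg

namespace ItP1

open Finset

lemma count (q : ℕ → Bool) : ∀ m : ℕ, (∀ t, t < m → q (2 * t) ≠ q (2 * t + 1)) →
    ((range (2 * m)).filter (fun s => q s = true)).card = m := by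
  intro m
  induction m with
  | zero => intro _; simp
  | succ m ih =>
    intro h
    have h1 := ih (fun t ht => h t (by omega))
    have h2 := h m (by omega)
    have h3 : 2 * (m + 1) = 2 * m + 1 + 1 := by ring
    rw [h3, range_add_one, filter_insert, range_add_one, filter_insert]
    have n1 : (2 * m : ℕ) ∉ (range (2 * m)).filter (fun s => q s = true) := by simp
    have n2 : (2 * m + 1 : ℕ) ∉ (range (2 * m)).filter (fun s => q s = true) := by simp
    cases hq1 : q (2 * m) <;> cases hq2 : q (2 * m + 1)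
    · rw [hq1, hq2] at h2; exact absurd rfl h2
    · simp only [if_true, if_false, Bool.false_eq_true]
      rw [card_insert_of_notMem n2, h1]
    · simp only [if_true, if_false, Bool.false_eq_true]
      rw [card_insert_of_notMem n1, h1]
    · rw [hq1, hq2] at h2; exact absurd rfl h2

lemma alt (q : ℕ → Bool) (z : ℕ) (h : ∀ s, s + 1 < z → q s ≠ q (s + 1)) :
    ∀ s, s < z → (q s = q 0 ↔ Even s) := by
  intro s
  induction s with
  | zero => intro _; simp
  | succ s ih =>
    intro hs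
    have h1 := ih (by omega)
    have h2 := h s hs
    rw [Nat.even_add_one, ← h1]
    cases hq1 : q s <;> cases hq2 : q (s + 1) <;> cases hq3 : q 0 <;> simp_all

end ItP1

open ItP1

theorem P1 : PP1 := by
  intro k P col hA hAlt i j hi hj
  have hi' : i + 1 < k + 2 := by omega
  have hj' : j + 1 < k + 2 := by omega
  have hz20 := hA.z20 (i + 1) (j + 1) hi' hj'
  set z := P.z (i + 1) (j + 1) with hz
  let q : ℕ → Bool := fun s => col (.core (i + 1) (j + 1) s)
  have hstep : ∀ s, s + 1 < z → q s ≠ q (s + 1) := fun s hs =>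
    hAlt _ _ (Or.inl (AE.cyc (i + 1) (j + 1) s hi' hj' hs))
  have hclose : q (z - 1) ≠ q 0 := hAlt _ _ (Or.inl (AE.close (i + 1) (j + 1) hi' hj'))
  have halt := alt q z hstep (z - 1) (by omega)
  have hodd : ¬ Even (z - 1) := fun h => hclose (halt.2 h)
  have heven : 2 ∣ z := by
    rw [Nat.not_even_iff_odd] at hodd
    obtain ⟨t, ht⟩ := hodd
    exact ⟨t + 1, by omega⟩
  obtain ⟨m, hm⟩ := heven
  have hcount := count q m (fun t ht => hstep (2 * t) (by omega))
  let A : Finset Lab := ((Finset.range (2 * m)).filter (fun s => q s = true)).image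
    (fun s => Lab.core (i + 1) (j + 1) s)
  have hAcard : A.card = m := by
    rw [Finset.card_image_of_injective _ (fun a b h => by injection h), hcount]
  let D : Finset Lab := (Finset.range 4).image (fun d => hl P (i + 1) (j + 1) d 1)
  have hDcard : D.card ≤ 4 := by
    have := Finset.card_image_le (s := Finset.range 4) (f := fun d => hl P (i + 1) (j + 1) d 1)
    rw [Finset.card_range] at this
    exact this
  have hAC : (A : Set Lab) ⊆ Cs P col i j := by
    intro x hx
    simp only [A, Finset.coe_image, Set.mem_image, Finset.mem_coe, Finset.mem_filter,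
      Finset.mem_range] at hx
    obtain ⟨s, ⟨hs1, hs2⟩, rfl⟩ := hx
    exact ⟨hs2, Or.inl ⟨s, by omega, rfl⟩⟩
  have hCAD : Cs P col i j ⊆ ((A ∪ D : Finset Lab) : Set Lab) := by
    rintro x ⟨hx1, ⟨s, hs, rfl⟩ | ⟨d, hd, -, rfl⟩⟩
    · rw [Finset.coe_union]
      left
      simp only [A, Finset.coe_image, Set.mem_image, Finset.mem_coe, Finset.mem_filter,
        Finset.mem_range]
      exact ⟨s, ⟨by omega, hx1⟩, rfl⟩
    · rw [Finset.coe_union]
      right
      simp only [D, Finset.coe_image, Set.mem_image, Finset.mem_coe, Finset.mem_range]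
      exact ⟨d, hd, rfl⟩
  have hfin : (Cs P col i j).Finite := (Finset.finite_toSet _).subset hCAD
  have hm2 : z / 2 = m := by omega
  refine ⟨⟨m, hm⟩, ?_, ?_, hfin⟩
  · rw [hm2, ← hAcard, ← Set.ncard_coe_finset]
    exact Set.ncard_le_ncard hAC hfin
  · have h1 := Set.ncard_le_ncard hCAD (Finset.finite_toSet _)
    rw [Set.ncard_coe_finset] at h1
    have h2 := Finset.card_union_le A D
    omega

end Pool.Agent.PHer

end

section

/-!
# P2: neighbours in the cores, roots
-/

set_option autoImplicit false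

namespace Pool.Agent.PHer

open Pool.Agent.PEmb Pool.Agent.PReg

namespace ItP2

variable {K k : ℕ} {P : Par} {col : Lab → Bool}

/-- a common neighbour transports the colour -/
lemma col_tr (hC : Alt K P col) {x y z : Lab} (h1 : AAdj K P x z) (h2 : AAdj K P z y)
    (hx : col x = true) : col y = true := by
  have h3 := hC x z h1
  have h4 := hC z y h2
  cases hz : col z
  · rw [hz] at h4
    cases hy : col y
    · exact absurd hy.symm h4
    · rfl
  · rw [hz, hx] at h3
    exact absurd rfl h3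

lemma mk_adj (hC : Alt K P col) {x y z : Lab} (hne : x ≠ y) (h1 : AAdj K P x z)
    (h2 : AAdj K P z y) (hx : col x = true) : (Hs K P col).Adj x y :=
  ⟨hne, hx, col_tr hC h1 h2 hx, z, h1, h2⟩

lemma nxt {z s : ℕ} (hs : s < z) : (s + 1) % z = if s + 1 < z then s + 1 else 0 := by
  split_ifs with h
  · exact Nat.mod_eq_of_lt h
  · rw [show s + 1 = z by omega, Nat.mod_self]

lemma prv {z s : ℕ} (hs : s < z) : (s + z - 1) % z = if s = 0 then z - 1 else s - 1 := by
  split_ifs with h
  · subst h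
    rw [Nat.zero_add]
    exact Nat.mod_eq_of_lt (by omega)
  · rw [show s + z - 1 = s - 1 + z by omega, Nat.add_mod_right]
    exact Nat.mod_eq_of_lt (by omega)

/-- the first edge of a half leg -/
lemma hl01 {i j d : ℕ} (hi : i < k) (hj : j < k) (hd : d < 4) :
    AAdj (k + 2) P (hl P (i + 1) (j + 1) d 0) (hl P (i + 1) (j + 1) d 1) := by
  have h0 : Ex (k + 2) false (i + 1) (j + 1) := ⟨by simp only [nx]; omega, by simp only [nx]; omega⟩
  have h1 : Ex (k + 2) false (i + 1) j := ⟨by simp only [nx]; omega, by simp only [nx]; omega⟩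
  have h2 : Ex (k + 2) true (i + 1) (j + 1) := ⟨by simp only [nx]; omega, by simp only [nx]; omega⟩
  have h3 : Ex (k + 2) true i (j + 1) := ⟨by simp only [nx]; omega, by simp only [nx]; omega⟩
  have hd' : d = 0 ∨ d = 1 ∨ d = 2 ∨ d = 3 := by omega
  rcases hd' with rfl | rfl | rfl | rfl
  · exact Or.inl (AE.out (P := P) false (i + 1) (j + 1) h0)
  · exact Or.inr (AE.inn (P := P) false (i + 1) j h1)
  · exact Or.inl (AE.out (P := P) true (i + 1) (j + 1) h2)
  · exact Or.inr (AE.inn (P := P) true i (j + 1) h3)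

lemma hl1_leg (i j d : ℕ) : ∃ o a b c, hl P i j d 1 = .leg o a b c := by
  by_cases h0 : d = 0
  · exact ⟨false, i, j, 1, by simp [hl, h0]⟩
  by_cases h1 : d = 1
  · exact ⟨false, i, j - 1, P.l false i (j - 1) - 1, by simp [hl, h1]⟩
  by_cases h2 : d = 2
  · exact ⟨true, i, j, 1, by simp [hl, h2]⟩
  · exact ⟨true, i - 1, j, P.l true (i - 1) j - 1, by simp [hl, h0, h1, h2]⟩

lemma hl1_inj {i j d d' : ℕ} (hd : d < 4) (hd' : d' < 4)
    (h : hl P (i + 1) (j + 1) d 1 = hl P (i + 1) (j + 1) d' 1) : d = d' := by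
  have e1 : d = 0 ∨ d = 1 ∨ d = 2 ∨ d = 3 := by omega
  have e2 : d' = 0 ∨ d' = 1 ∨ d' = 2 ∨ d' = 3 := by omega
  rcases e1 with rfl | rfl | rfl | rfl <;> rcases e2 with rfl | rfl | rfl | rfl <;>
    simp [hl] at h ⊢

end ItP2

open ItP2 in
theorem P2 : PP2 := by
  intro k P col hA hC i j hi hj
  have hI : i + 1 < k + 2 := by omega
  have hJ : j + 1 < k + 2 := by omega
  have hz : 20 ≤ P.z (i + 1) (j + 1) := hA.z20 _ _ hI hJ
  have hAd : Adm (k + 2) P := hA.toAdm
  -- steps
  have step2 : ∀ s, s < P.z (i + 1) (j + 1) → col (.core (i + 1) (j + 1) s) = true →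
      (Hs (k + 2) P col).Adj (.core (i + 1) (j + 1) s) (.core (i + 1) (j + 1)
        (((s + 1) % P.z (i + 1) (j + 1) + 1) % P.z (i + 1) (j + 1))) := by
    intro s hs hc
    have hlt : (s + 1) % P.z (i + 1) (j + 1) < P.z (i + 1) (j + 1) := Nat.mod_lt _ (by omega)
    refine mk_adj hC ?_ (ItRC.cyc_adj hAd hI hJ hs) (ItRC.cyc_adj hAd hI hJ hlt) hc
    intro h
    simp only [Lab.core.injEq, true_and] at h
    rw [nxt hlt, nxt hs] at h
    split_ifs at h <;> omega
  have step2' : ∀ s, s < P.z (i + 1) (j + 1) → col (.core (i + 1) (j + 1) s) = true →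
      (Hs (k + 2) P col).Adj (.core (i + 1) (j + 1) s) (.core (i + 1) (j + 1)
        (((s + P.z (i + 1) (j + 1) - 1) % P.z (i + 1) (j + 1) + P.z (i + 1) (j + 1) - 1) %
          P.z (i + 1) (j + 1))) := by
    intro s hs hc
    have hlt : (s + P.z (i + 1) (j + 1) - 1) % P.z (i + 1) (j + 1) < P.z (i + 1) (j + 1) :=
      Nat.mod_lt _ (by omega)
    refine mk_adj hC ?_ (ItRC.cyc_adj' hAd hI hJ hs) (ItRC.cyc_adj' hAd hI hJ hlt) hc
    intro h
    simp only [Lab.core.injEq, true_and] at h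
    rw [prv hlt, prv hs] at h
    split_ifs at h <;> omega
  have rlt : ∀ d, d < 4 → P.r (i + 1) (j + 1) d < P.z (i + 1) (j + 1) := fun d hd =>
    hA.rlt _ _ _ hI hJ hd
  have hleg : ∀ d, d < 4 → col (hl P (i + 1) (j + 1) d 0) = false →
      col (hl P (i + 1) (j + 1) d 1) = true := by
    intro d hd h
    have h1 := hC _ _ (hl01 (P := P) hi hj hd)
    rw [h] at h1
    cases h2 : col (hl P (i + 1) (j + 1) d 1)
    · exact absurd h2.symm h1
    · rfl
  have stepn : ∀ d, d < 4 → col (hl P (i + 1) (j + 1) d 0) = false →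
      (Hs (k + 2) P col).Adj (hl P (i + 1) (j + 1) d 1) (.core (i + 1) (j + 1)
        ((P.r (i + 1) (j + 1) d + 1) % P.z (i + 1) (j + 1))) := by
    intro d hd h
    refine mk_adj hC ?_ (hl01 (P := P) hi hj hd).symm (ItRC.cyc_adj hAd hI hJ (rlt d hd))
      (hleg d hd h)
    obtain ⟨o, a, b, c, e⟩ := hl1_leg (P := P) (i + 1) (j + 1) d
    rw [e]
    exact fun h => Lab.noConfusion h
  have stepp : ∀ d, d < 4 → col (hl P (i + 1) (j + 1) d 0) = false →
      (Hs (k + 2) P col).Adj (hl P (i + 1) (j + 1) d 1) (.core (i + 1) (j + 1)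
        ((P.r (i + 1) (j + 1) d + P.z (i + 1) (j + 1) - 1) % P.z (i + 1) (j + 1))) := by
    intro d hd h
    refine mk_adj hC ?_ (hl01 (P := P) hi hj hd).symm (ItRC.cyc_adj' hAd hI hJ (rlt d hd))
      (hleg d hd h)
    obtain ⟨o, a, b, c, e⟩ := hl1_leg (P := P) (i + 1) (j + 1) d
    rw [e]
    exact fun h => Lab.noConfusion h
  -- membership
  have mcore : ∀ s, s < P.z (i + 1) (j + 1) → col (.core (i + 1) (j + 1) s) = true →
      (.core (i + 1) (j + 1) s : Lab) ∈ Cs P col i j := fun s hs h =>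
    ⟨h, Or.inl ⟨s, hs, rfl⟩⟩
  have mleg : ∀ d, d < 4 → col (hl P (i + 1) (j + 1) d 0) = false →
      hl P (i + 1) (j + 1) d 1 ∈ Cs P col i j := fun d hd h =>
    ⟨hleg d hd h, Or.inr ⟨d, hd, h, rfl⟩⟩
  have zpos : 0 < P.z (i + 1) (j + 1) := by omega
  refine ⟨?_, ?_, ?_, ?_⟩
  · -- connected
    -- the base point
    obtain ⟨s0, hs0, hc0, hpar⟩ : ∃ s0, s0 < 2 ∧ col (.core (i + 1) (j + 1) s0) = true ∧
        ∀ s, s < P.z (i + 1) (j + 1) → col (.core (i + 1) (j + 1) s) = true →
          s % 2 = s0 := by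
      have hstep : ∀ s, s + 1 < P.z (i + 1) (j + 1) →
          col (.core (i + 1) (j + 1) s) ≠ col (.core (i + 1) (j + 1) (s + 1)) := fun s hs =>
        hC _ _ (Or.inl (AE.cyc (i + 1) (j + 1) s hI hJ hs))
      have hind : ∀ s, s < P.z (i + 1) (j + 1) → col (.core (i + 1) (j + 1) s) =
          if s % 2 = 0 then col (.core (i + 1) (j + 1) 0) else
            !(col (.core (i + 1) (j + 1) 0)) := by
        intro s
        induction s with
        | zero => intro _; rfl
        | succ s ih =>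
          intro hs
          have h1 := ih (by omega)
          have h2 := hstep s hs
          rw [h1] at h2
          rcases Nat.mod_two_eq_zero_or_one s with e | e
          · rw [if_pos e] at h2
            rw [if_neg (by omega)]
            cases h3 : col (.core (i + 1) (j + 1) 0) <;>
              cases h4 : col (.core (i + 1) (j + 1) (s + 1)) <;> simp_all
          · rw [if_neg (by omega)] at h2
            rw [if_pos (by omega)]
            cases h3 : col (.core (i + 1) (j + 1) 0) <;>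
              cases h4 : col (.core (i + 1) (j + 1) (s + 1)) <;> simp_all
      cases h0 : col (.core (i + 1) (j + 1) 0)
      · refine ⟨1, by omega, ?_, ?_⟩
        · have h1 := hind 1 (by omega)
          rw [if_neg (by omega), h0] at h1
          exact h1
        · intro s hs hc
          have h1 := hind s hs
          rw [hc, h0] at h1
          by_contra hne
          rw [if_pos (by omega)] at h1
          exact Bool.noConfusion h1
      · refine ⟨0, by omega, h0, ?_⟩
        intro s hs hc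
        have h1 := hind s hs
        rw [hc, h0] at h1
        by_contra hne
        rw [if_neg hne] at h1
        exact Bool.noConfusion h1
    have hm0 := mcore s0 (by omega) hc0
    let Rr : Lab → Prop := fun y => ∃ hy : y ∈ Cs P col i j,
      ((Hs (k + 2) P col).induce (Cs P col i j)).Reachable ⟨_, hm0⟩ ⟨y, hy⟩
    have hstepR : ∀ y y', Rr y → (Hs (k + 2) P col).Adj y y' → y' ∈ Cs P col i j → Rr y' := by
      rintro y y' ⟨hy, hr⟩ hadj hy'
      refine ⟨hy', hr.trans (SimpleGraph.Adj.reachable ?_)⟩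
      exact hadj
    have hcore : ∀ m, s0 + 2 * m < P.z (i + 1) (j + 1) → Rr (.core (i + 1) (j + 1) (s0 + 2 * m)) := by
      intro m
      induction m with
      | zero => intro _; exact ⟨hm0, SimpleGraph.Reachable.refl _⟩
      | succ m ih =>
        intro hm
        have h1 := ih (by omega)
        have hcm : col (.core (i + 1) (j + 1) (s0 + 2 * m)) = true := by
          obtain ⟨hy, _⟩ := h1
          exact hy.1
        have h2 := step2 (s0 + 2 * m) (by omega) hcm
        rw [Nat.mod_eq_of_lt (show s0 + 2 * m + 1 < P.z (i + 1) (j + 1) by omega),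
          Nat.mod_eq_of_lt (show s0 + 2 * m + 1 + 1 < P.z (i + 1) (j + 1) by omega)] at h2
        have h3 : s0 + 2 * (m + 1) = s0 + 2 * m + 1 + 1 := by ring
        rw [h3]
        exact hstepR _ _ h1 h2 (mcore _ (by omega) h2.2.2.1)
    have hcoreAll : ∀ s, s < P.z (i + 1) (j + 1) → col (.core (i + 1) (j + 1) s) = true →
        Rr (.core (i + 1) (j + 1) s) := by
      intro s hs hc
      have h1 := hpar s hs hc
      have h2 : s = s0 + 2 * (s / 2) := by omega
      rw [h2]
      exact hcore _ (by omega)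
    have hall : ∀ y, y ∈ Cs P col i j → Rr y := by
      rintro y ⟨hc, ⟨s, hs, rfl⟩ | ⟨d, hd, hf, rfl⟩⟩
      · exact hcoreAll s hs hc
      · have h1 := stepn d hd hf
        have hlt : (P.r (i + 1) (j + 1) d + 1) % P.z (i + 1) (j + 1) < P.z (i + 1) (j + 1) :=
          Nat.mod_lt _ zpos
        exact hstepR _ _ (hcoreAll _ hlt h1.2.2.1) h1.symm (mleg d hd hf)
    have : Nonempty (Cs P col i j) := ⟨⟨_, hm0⟩⟩
    refine SimpleGraph.Connected.mk ?_
    rintro ⟨x, hx⟩ ⟨y, hy⟩
    obtain ⟨_, h1⟩ := hall x hx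
    obtain ⟨_, h2⟩ := hall y hy
    exact h1.symm.trans h2
  · rintro x ⟨hc, ⟨s, hs, rfl⟩ | ⟨d, hd, hf, rfl⟩⟩
    · have h1 := step2 s hs hc
      have h2 := step2' s hs hc
      refine ⟨_, mcore _ (Nat.mod_lt _ zpos) h1.2.2.1, _, mcore _ (Nat.mod_lt _ zpos) h2.2.2.1,
        ?_, h1, h2⟩
      intro h
      simp only [Lab.core.injEq, true_and] at h
      rw [nxt (Nat.mod_lt _ zpos), nxt hs, prv (Nat.mod_lt _ zpos), prv hs] at h
      split_ifs at h <;> omega
    · have h1 := stepn d hd hf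
      have h2 := stepp d hd hf
      refine ⟨_, mcore _ (Nat.mod_lt _ zpos) h1.2.2.1, _, mcore _ (Nat.mod_lt _ zpos) h2.2.2.1,
        ?_, h1, h2⟩
      intro h
      simp only [Lab.core.injEq, true_and] at h
      exact ItRC.succ_ne_pred hAd hI hJ (rlt d hd) h
  · intro d hd
    unfold rts sta
    split_ifs with h
    · exact mcore _ (rlt d hd) h
    · exact mleg d hd (by simpa using h)
  · intro d d' hd hd' h
    unfold rts sta at h
    split_ifs at h with h1 h2 h2
    · simp only [hl, if_true, Lab.core.injEq, true_and] at h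
      exact hA.rinj _ _ _ _ hI hJ hd hd' h
    · obtain ⟨o, a, b, c, e⟩ := hl1_leg (P := P) (i + 1) (j + 1) d'
      rw [e] at h
      simp [hl] at h
    · obtain ⟨o, a, b, c, e⟩ := hl1_leg (P := P) (i + 1) (j + 1) d
      rw [e] at h
      simp [hl] at h
    · exact hl1_inj hd hd' h

end Pool.Agent.PHer

end

section

/-! Item P3: an integer lemma -/

set_option autoImplicit false

namespace Pool.Agent.PHer

open Pool.Agent.PEmb Pool.Agent.PReg

theorem P3 : PP3 := by
  intro m p hm hinj hstep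
  obtain ⟨t0, ht0, hmin⟩ := Finset.exists_min_image (Finset.range m) p ⟨0, by simp; omega⟩
  rw [Finset.mem_range] at ht0
  have hm0 : 0 < m := by omega
  let q : ℕ → ℤ := fun t => p ((t0 + t) % m)
  have hlt : ∀ t, (t0 + t) % m < m := fun t => Nat.mod_lt _ hm0
  have hqinj : ∀ s t, s < m → t < m → q s = q t → s = t := by
    intro s t hs ht h
    have h1 := hinj _ _ (hlt s) (hlt t) h
    have h2 : s ≡ t [MOD m] := Nat.ModEq.add_left_cancel' t0 h1
    exact Nat.ModEq.eq_of_lt_of_lt h2 hs ht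
  have hqstep : ∀ t, (q (t + 1) = q t + 1 ∨ q (t + 1) = q t - 1) ∨
      ((q (t + 1) = q t + 2 ∨ q (t + 1) = q t - 2) ∧ Even (q t)) := by
    intro t
    have h := hstep _ (hlt t)
    have e : ((t0 + t) % m + 1) % m = (t0 + (t + 1)) % m := by
      rw [Nat.mod_add_mod, add_assoc]
    rw [e] at h
    exact h
  have hqm : q m = q 0 := by
    show p ((t0 + m) % m) = p ((t0 + 0) % m)
    rw [Nat.add_mod_right, add_zero]
  have hq0 : q 0 = p t0 := by
    show p ((t0 + 0) % m) = p t0
    rw [add_zero, Nat.mod_eq_of_lt ht0]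
  have hqmin : ∀ t, q 0 ≤ q t := by
    intro t
    rw [hq0]
    exact hmin _ (Finset.mem_range.2 (hlt t))
  have s0 := hqstep 0
  have s1 := hqstep 1
  have s2 := hqstep (m - 1)
  have s3 := hqstep (m - 2)
  rw [show m - 1 + 1 = m by omega, hqm] at s2
  rw [show m - 2 + 1 = m - 1 by omega] at s3
  have h1 := hqmin 1
  have h2 := hqmin (m - 1)
  have n01 : q 1 ≠ q 0 := fun h => by
    have := hqinj 1 0 (by omega) (by omega) h
    omega
  have n0m : q (m - 1) ≠ q 0 := fun h => by
    have := hqinj (m - 1) 0 (by omega) (by omega) h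
    omega
  have n1m : q (m - 1) ≠ q 1 := fun h => by
    have := hqinj (m - 1) 1 (by omega) (by omega) h
    omega
  have n20 : q 2 ≠ q 0 := fun h => by
    have := hqinj 2 0 (by omega) (by omega) h
    omega
  have n2m : q 2 ≠ q (m - 1) := fun h => by
    have := hqinj 2 (m - 1) (by omega) (by omega) h
    omega
  have nm0 : q (m - 2) ≠ q 0 := fun h => by
    have := hqinj (m - 2) 0 (by omega) (by omega) h
    omega
  have nm1 : q (m - 2) ≠ q 1 := fun h => by
    have := hqinj (m - 2) 1 (by omega) (by omega) h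
    omega
  simp only [Int.even_iff, Nat.zero_add, Nat.reduceAdd] at s0 s1 s2 s3
  omega

end Pool.Agent.PHer

end

section

/-!
# P4: no core embeds into another one
-/

set_option autoImplicit false

namespace Pool.Agent.PHer

open Pool.Agent.PEmb Pool.Agent.PReg

namespace ItP4

variable {K : ℕ} {P : Par} {col : Lab → Bool}

/-- neighbours of a vertex of a cycle, in terms of half legs -/
lemma nb_core' {I J s : ℕ} {y : Lab} (hs : s < P.z I J) (h : AAdj K P (.core I J s) y) :
    y = .core I J ((s + 1) % P.z I J) ∨ y = .core I J ((s + P.z I J - 1) % P.z I J) ∨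
      ∃ d, d < 4 ∧ s = P.r I J d ∧ y = hl P I J d 1 := by
  rcases ItP0.nb_core hs h with h | h | ⟨o, h1, h2⟩ | ⟨o, a, b, h1, h2, h3, h4⟩
  · exact Or.inl h
  · exact Or.inr (Or.inl h)
  · refine Or.inr (Or.inr ⟨ro o, by cases o <;> simp [ro], h1, ?_⟩)
    rw [h2, ItRC.hl_ro _ _ _ _ (by omega)]
  · refine Or.inr (Or.inr ⟨ri o, by cases o <;> simp [ri], h3, ?_⟩)
    subst h1 h2
    rw [h4, ItRC.hl_ri _ _ _ _ (by omega)]

/-- neighbours of a vertex of a half leg -/
lemma nb_hl (hA : Adm K P) {I J d s : ℕ} {y : Lab} (hD : Dt K I J d) (h1 : 1 ≤ s)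
    (h2 : s + 1 < lg P I J d) (h : AAdj K P (hl P I J d s) y) :
    y = hl P I J d (s - 1) ∨ y = hl P I J d (s + 1) := by
  rcases ItRC.dt_cases hD with ⟨o, hex, rfl⟩ | ⟨o, a, b, hex, rfl, rfl, rfl⟩
  · rw [ItRC.hl_ro _ _ _ _ (by omega)] at h
    rw [ItRC.lg_ro] at h2
    rcases ItP0.nb_leg hA h with h | h
    · left
      rw [h]
      by_cases e : s = 1
      · subst e
        rw [if_pos rfl, show 1 - 1 = 0 from rfl, ItR7.hl_zero]
      · rw [if_neg e, ItRC.hl_ro _ _ _ _ (by omega)]
    · right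
      rw [h, if_neg (by omega), ItRC.hl_ro _ _ _ _ (by omega)]
  · rw [ItRC.hl_ri _ _ _ _ (by omega)] at h
    rw [ItRC.lg_ri] at h2
    rcases ItP0.nb_leg hA h with h | h
    · right
      rw [h, if_neg (by omega), ItRC.hl_ri _ _ _ _ (by omega),
        show P.l o a b - (s + 1) = P.l o a b - s - 1 by omega]
    · left
      rw [h]
      by_cases e : s = 1
      · subst e
        rw [if_pos (by omega), show 1 - 1 = 0 from rfl, ItR7.hl_zero]
      · rw [if_neg (by omega), ItRC.hl_ri _ _ _ _ (by omega),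
          show P.l o a b - s + 1 = P.l o a b - (s - 1) by omega]

lemma hl_ne_core {I J d s a b c : ℕ} (hs : s ≠ 0) : hl P I J d s ≠ .core a b c := by
  unfold hl
  rw [if_neg hs]
  split_ifs <;> simp

lemma hl_inj {I J d d' s : ℕ} (hI : 1 ≤ I) (hJ : 1 ≤ J) (hd : d < 4) (hd' : d' < 4)
    (hs : s ≠ 0) (h : hl P I J d s = hl P I J d' s) : d = d' := by
  interval_cases d <;> interval_cases d' <;> first
    | rfl
    | (exfalso
       simp only [hl, if_neg hs] at h
       simp at h
       try omega)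

/-- The label `u` sits at the position `a` of the cycle. -/
def Rep (P : Par) (col : Lab → Bool) (I J a : ℕ) (u : Lab) : Prop :=
  (u = .core I J a ∧ col (.core I J a) = true) ∨
    ∃ d, d < 4 ∧ a = P.r I J d ∧ u = hl P I J d 1 ∧ col (.core I J a) = false

lemma rep_uniq (hA : Adm K P) {I J a : ℕ} (hI : I < K) (hJ : J < K) {u v : Lab}
    (hu : Rep P col I J a u) (hv : Rep P col I J a v) : u = v := by
  rcases hu with ⟨hu, hc⟩ | ⟨d, hd, had, hu, hc⟩
  · rcases hv with ⟨hv, -⟩ | ⟨d', -, -, -, hc'⟩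
    · rw [hu, hv]
    · rw [hc] at hc'
      exact absurd hc' (by simp)
  · rcases hv with ⟨-, hc'⟩ | ⟨d', hd', had', hv, -⟩
    · rw [hc] at hc'
      exact absurd hc' (by simp)
    · have h := hA.rinj I J d d' hI hJ hd hd' (had.symm.trans had')
      rw [hu, hv, h]

lemma dt_all {k i j d : ℕ} (hi : i < k) (hj : j < k) (hd : d < 4) :
    Dt (k + 2) (i + 1) (j + 1) d := by
  refine ⟨by omega, by omega, ?_⟩
  interval_cases d
  · exact Or.inl ⟨rfl, by omega⟩
  · exact Or.inr (Or.inl ⟨rfl, by omega⟩)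
  · exact Or.inr (Or.inr (Or.inl ⟨rfl, by omega⟩))
  · exact Or.inr (Or.inr (Or.inr ⟨rfl, by omega⟩))

/-- every element of a core has a position -/
lemma rep_exists {k i j : ℕ} (hA : Adm (k + 2) P) (hi : i < k) (hj : j < k) {u : Lab}
    (hu : u ∈ Cs P col i j) : ∃ a, a < P.z (i + 1) (j + 1) ∧ Rep P col (i + 1) (j + 1) a u := by
  obtain ⟨hc, ⟨s, hs, rfl⟩ | ⟨d, hd, hcd, rfl⟩⟩ := hu
  · exact ⟨s, hs, Or.inl ⟨rfl, hc⟩⟩
  · refine ⟨P.r (i + 1) (j + 1) d, hA.rlt _ _ _ (by omega) (by omega) hd,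
      Or.inr ⟨d, hd, rfl, rfl, ?_⟩⟩
    rw [ItR7.hl_zero] at hcd
    exact hcd

/-- two elements of a core which are adjacent -/
lemma rep_adj {k i j : ℕ} (hA : Adm (k + 2) P) (hi : i < k) (hj : j < k) {u v : Lab} {a b : ℕ}
    (ha : a < P.z (i + 1) (j + 1)) (hb : b < P.z (i + 1) (j + 1))
    (hu : Rep P col (i + 1) (j + 1) a u) (hv : Rep P col (i + 1) (j + 1) b v)
    (h : (Hs (k + 2) P col).Adj u v) :
    (b = (a + 1) % P.z (i + 1) (j + 1) ∨ b = (a + P.z (i + 1) (j + 1) - 1) % P.z (i + 1) (j + 1)) ∨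
      ((b = ((a + 1) % P.z (i + 1) (j + 1) + 1) % P.z (i + 1) (j + 1) ∨
        b = ((a + P.z (i + 1) (j + 1) - 1) % P.z (i + 1) (j + 1) + P.z (i + 1) (j + 1) - 1) %
          P.z (i + 1) (j + 1)) ∧ col (.core (i + 1) (j + 1) a) = true) := by
  obtain ⟨hne, -, -, w, huw, hwv⟩ := h
  have hz := hA.z4 (i + 1) (j + 1) (by omega) (by omega)
  have hvw : AAdj (k + 2) P v w := hwv.symm
  have hwu : AAdj (k + 2) P w u := huw.symm
  set z := P.z (i + 1) (j + 1) with hzdef
  have lgb : ∀ d, d < 4 → 10 ≤ lg P (i + 1) (j + 1) d := fun d hd =>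
    ItR7.lg_ge hA (dt_all hi hj hd)
  rcases hu with ⟨rfl, hcu⟩ | ⟨d, hd, had, rfl, hcu⟩
  · rcases hv with ⟨rfl, hcv⟩ | ⟨d', hd', hbd, rfl, hcv⟩
    · rcases nb_core' ha huw with rfl | rfl | ⟨d, hd, had, rfl⟩
      · rcases nb_core' (Nat.mod_lt _ (by omega)) hwv with h | h | ⟨d, hd, had, h⟩
        · injection h with _ _ h
          exact Or.inr ⟨Or.inl h, hcu⟩
        · exfalso
          apply hne
          rw [h]
          congr 1
          rw [← hzdef]
          rcases Nat.lt_or_ge (a + 1) z with h1 | h1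
          · rw [Nat.mod_eq_of_lt h1, show a + 1 + z - 1 = a + z by omega, Nat.add_mod_right,
              Nat.mod_eq_of_lt ha]
          · have h2 : a + 1 = z := by omega
            rw [h2, Nat.mod_self, Nat.mod_eq_of_lt (by omega)]
            omega
        · exact absurd h.symm (hl_ne_core (by omega))
      · rcases nb_core' (Nat.mod_lt _ (by omega)) hwv with h | h | ⟨d, hd, had, h⟩
        · exfalso
          apply hne
          rw [h]
          congr 1
          rw [← hzdef]
          rw [Nat.mod_add_mod, show a + z - 1 + 1 = a + z by omega, Nat.add_mod_right,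
            Nat.mod_eq_of_lt ha]
        · injection h with _ _ h
          exact Or.inr ⟨Or.inr h, hcu⟩
        · exact absurd h.symm (hl_ne_core (by omega))
      · rcases nb_hl hA (dt_all hi hj hd) (le_refl 1) (by have := lgb d hd; omega) hwv with h | h
        · exfalso
          apply hne
          rw [h, show 1 - 1 = 0 from rfl, ItR7.hl_zero, had]
        · exact absurd h.symm (hl_ne_core (by omega))
    · rcases nb_hl hA (dt_all hi hj hd') (le_refl 1) (by have := lgb d' hd'; omega) hvw with h | h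
      · rw [show 1 - 1 = 0 from rfl, ItR7.hl_zero, ← hbd] at h
        subst h
        rcases nb_core' ha huw with h | h | ⟨d, hd, had, h⟩
        · injection h with _ _ h
          exact Or.inl (Or.inl h)
        · injection h with _ _ h
          exact Or.inl (Or.inr h)
        · exact absurd h.symm (hl_ne_core (by omega))
      · subst h
        rcases nb_hl hA (dt_all hi hj hd') (by omega) (by have := lgb d' hd'; omega) hwu with h | h
        · exact absurd h.symm (hl_ne_core (by omega))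
        · exact absurd h.symm (hl_ne_core (by omega))
  · rcases hv with ⟨rfl, hcv⟩ | ⟨d', hd', hbd, rfl, hcv⟩
    · rcases nb_hl hA (dt_all hi hj hd) (le_refl 1) (by have := lgb d hd; omega) huw with h | h
      · rw [show 1 - 1 = 0 from rfl, ItR7.hl_zero, ← had] at h
        subst h
        rcases nb_core' ha hwv with h | h | ⟨d, hd, had, h⟩
        · injection h with _ _ h
          exact Or.inl (Or.inl h)
        · injection h with _ _ h
          exact Or.inl (Or.inr h)
        · exact absurd h.symm (hl_ne_core (by omega))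
      · subst h
        rcases nb_hl hA (dt_all hi hj hd) (by omega) (by have := lgb d hd; omega) hwv with h | h
        · exact absurd h.symm (hl_ne_core (by omega))
        · exact absurd h.symm (hl_ne_core (by omega))
    · exfalso
      rcases nb_hl hA (dt_all hi hj hd) (le_refl 1) (by have := lgb d hd; omega) huw with h | h
      · rcases nb_hl hA (dt_all hi hj hd') (le_refl 1) (by have := lgb d' hd'; omega) hvw
          with h' | h'
        · rw [h] at h'
          rw [show 1 - 1 = 0 from rfl, ItR7.hl_zero, ItR7.hl_zero] at h'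
          injection h' with _ _ h'
          have h3 := hA.rinj (i + 1) (j + 1) d d' (by omega) (by omega) hd hd' h'
          exact hne (by rw [h3])
        · rw [h] at h'
          rw [show 1 - 1 = 0 from rfl, ItR7.hl_zero] at h'
          exact absurd h'.symm (hl_ne_core (by omega))
      · rcases nb_hl hA (dt_all hi hj hd') (le_refl 1) (by have := lgb d' hd'; omega) hvw
          with h' | h'
        · rw [h] at h'
          rw [show 1 - 1 = 0 from rfl, ItR7.hl_zero] at h'
          exact absurd h' (hl_ne_core (by omega))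
        · rw [h] at h'
          have h3 := hl_inj (by omega) (by omega) hd hd' (by omega) h'
          exact hne (by rw [h3])

/-- the colours along a cycle -/
lemma col_par (hA : Adm K P) (hC : Alt K P col) {I J : ℕ} (hI : I < K) (hJ : J < K) (a : ℕ)
    (ha : a < P.z I J) :
    col (.core I J a) = if a % 2 = 0 then col (.core I J 0) else !col (.core I J 0) := by
  induction a with
  | zero => simp
  | succ a ih =>
    have h1 := ih (by omega)
    have h2 := hC _ _ (Or.inl (AE.cyc (P := P) I J a hI hJ ha))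
    rw [h1] at h2
    rcases Nat.mod_two_eq_zero_or_one a with h | h
    · rw [if_pos h] at h2
      rw [if_neg (by omega)]
      revert h2
      cases col (.core I J 0) <;> cases col (.core I J (a + 1)) <;> simp
    · rw [if_neg (by omega)] at h2
      rw [if_pos (by omega)]
      revert h2
      cases col (.core I J 0) <;> cases col (.core I J (a + 1)) <;> simp

/-- the parity of the positions of colour `true` -/
lemma exists_c (hA : Adm K P) (hC : Alt K P col) {I J : ℕ} (hI : I < K) (hJ : J < K) :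
    ∃ c, c < 2 ∧ ∀ a, a < P.z I J → (col (.core I J a) = true ↔ a % 2 = c) := by
  by_cases h0 : col (.core I J 0) = true
  · refine ⟨0, by omega, fun a ha => ?_⟩
    rw [col_par hA hC hI hJ a ha, h0]
    split_ifs with h
    · simp [h]
    · simp [h]
  · refine ⟨1, by omega, fun a ha => ?_⟩
    rw [col_par hA hC hI hJ a ha]
    simp only [Bool.not_eq_true] at h0
    rw [h0]
    split_ifs with h
    · simp [h]
    · simp; omega

/-- the position relative to `q` -/
def rel (z q a : ℕ) : ℕ := if q ≤ a then a - q else a + z - q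

lemma mod_succ {z a : ℕ} (ha : a < z) : (a + 1) % z = if a + 1 = z then 0 else a + 1 := by
  split_ifs with h
  · rw [h, Nat.mod_self]
  · exact Nat.mod_eq_of_lt (by omega)

lemma mod_pred {z a : ℕ} (ha : a < z) : (a + z - 1) % z = if a = 0 then z - 1 else a - 1 := by
  split_ifs with h
  · subst h
    rw [Nat.mod_eq_of_lt (by omega)]
    omega
  · rw [show a + z - 1 = a - 1 + z by omega, Nat.add_mod_right]
    exact Nat.mod_eq_of_lt (by omega)

lemma rel_inj {z q a b : ℕ} (ha : a < z) (hb : b < z) (hq : q < z) (h : rel z q a = rel z q b) :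
    a = b := by
  unfold rel at h
  split_ifs at h <;> omega

lemma rel_step {z q a b : ℕ} (h2 : 2 ∣ z) (hz : 4 ≤ z) (ha : a < z) (hb : b < z) (hq : q < z)
    (haq : a ≠ q) (hbq : b ≠ q)
    (h : (b = (a + 1) % z ∨ b = (a + z - 1) % z) ∨
      ((b = ((a + 1) % z + 1) % z ∨ b = ((a + z - 1) % z + z - 1) % z) ∧ a % 2 = q % 2)) :
    ((rel z q b : ℤ) = rel z q a + 1 ∨ (rel z q b : ℤ) = rel z q a - 1) ∨
      (((rel z q b : ℤ) = rel z q a + 2 ∨ (rel z q b : ℤ) = rel z q a - 2) ∧
        Even (rel z q a : ℤ)) := by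
  obtain ⟨m, rfl⟩ := h2
  rcases h with (h | h) | ⟨h | h, hp⟩
  · left
    rw [mod_succ ha] at h
    unfold rel
    split_ifs at h ⊢ <;> omega
  · left
    rw [mod_pred ha] at h
    unfold rel
    split_ifs at h ⊢ <;> omega
  · right
    rw [mod_succ (Nat.mod_lt _ (by omega)), mod_succ ha] at h
    have he : Even (rel (2 * m) q a : ℤ) := by
      rw [Int.even_iff]
      unfold rel
      split_ifs <;> omega
    refine ⟨?_, he⟩
    unfold rel
    split_ifs at h ⊢ <;> omega
  · right
    rw [mod_pred (Nat.mod_lt _ (by omega)), mod_pred ha] at h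
    have he : Even (rel (2 * m) q a : ℤ) := by
      rw [Int.even_iff]
      unfold rel
      split_ifs <;> omega
    refine ⟨?_, he⟩
    unfold rel
    split_ifs at h ⊢ <;> omega

end ItP4

open ItP4

/-- P4: no core embeds into another one. -/
theorem P4 (hP1 : PP1) (hP3 : PP3) : PP4 := by
  intro k P col hG hC i j i' j' hi hj hi' hj' hne
  rintro ⟨g, ginj, gmap, gadj⟩
  have hA : Adm (k + 2) P := hG.toAdm
  obtain ⟨hev, hlow, -, hfin⟩ := hP1 k P col hG hC i j hi hj
  obtain ⟨hev', -, hup', hfin'⟩ := hP1 k P col hG hC i' j' hi' hj'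
  have hz := hG.z20 (i + 1) (j + 1) (by omega) (by omega)
  have hz' := hG.z20 (i' + 1) (j' + 1) (by omega) (by omega)
  have hgap := hG.gap (i + 1) (j + 1) (i' + 1) (j' + 1) (by omega) (by omega) (by omega) (by omega)
    (by
      intro h
      apply hne
      simp only [Prod.mk.injEq] at h ⊢
      omega)
  have hcard := Set.ncard_le_ncard_of_injOn g gmap ginj hfin'
  have hgap' : P.z (i + 1) (j + 1) + 10 ≤ P.z (i' + 1) (j' + 1) := by
    rcases hgap with h | h
    · exact h
    · exfalso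
      omega
  obtain ⟨c, hc2, hc⟩ := exists_c hA hC (I := i + 1) (J := j + 1) (by omega) (by omega)
  obtain ⟨c', hc2', hc'⟩ := exists_c hA hC (I := i' + 1) (J := j' + 1) (by omega) (by omega)
  set z := P.z (i + 1) (j + 1) with hzdef
  set z' := P.z (i' + 1) (j' + 1) with hzdef'
  obtain ⟨m, hm⟩ := hev
  obtain ⟨m', hm'⟩ := hev'
  -- the vertices of the cycle
  let x : ℕ → Lab := fun t => .core (i + 1) (j + 1) (c + 2 * t)
  have hx : ∀ t, t < m → x t ∈ Cs P col i j := fun t ht =>
    ⟨(hc _ (by omega)).2 (by omega), Or.inl ⟨c + 2 * t, by omega, rfl⟩⟩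
  have xinj : ∀ s t, x s = x t → s = t := by
    intro s t h
    have h' : Lab.core (i + 1) (j + 1) (c + 2 * s) = .core (i + 1) (j + 1) (c + 2 * t) := h
    injection h' with _ _ h3
    omega
  -- a missing vertex
  obtain ⟨q, hq, hcq, hqm⟩ : ∃ q, q < z' ∧ q % 2 = c' ∧
      ∀ t, t < m → g (x t) ≠ .core (i' + 1) (j' + 1) q := by
    by_contra hcon
    push Not at hcon
    have hsub : (Finset.range m').image
        (fun t => (Lab.core (i' + 1) (j' + 1) (c' + 2 * t))) ⊆
        (Finset.range m).image (fun t => g (x t)) := by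
      intro y hy
      rw [Finset.mem_image] at hy ⊢
      obtain ⟨t, ht, rfl⟩ := hy
      rw [Finset.mem_range] at ht
      obtain ⟨s, hs, hs'⟩ := hcon (c' + 2 * t) (by omega) (by omega)
      exact ⟨s, Finset.mem_range.2 hs, hs'⟩
    have h1 := Finset.card_le_card hsub
    have h2 := Finset.card_image_le (s := Finset.range m) (f := fun t => g (x t))
    have h3 : ((Finset.range m').image
        (fun t => (Lab.core (i' + 1) (j' + 1) (c' + 2 * t)))).card = m' := by
      rw [Finset.card_image_of_injective, Finset.card_range]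
      intro s t h
      injection h with _ _ h3
      omega
    rw [h3] at h1
    rw [Finset.card_range] at h2
    omega
  -- positions
  have hex : ∀ t, ∃ a, t < m → a < z' ∧ Rep P col (i' + 1) (j' + 1) a (g (x t)) := by
    intro t
    by_cases ht : t < m
    · obtain ⟨a, ha⟩ := rep_exists hA hi' hj' (gmap (hx t ht))
      exact ⟨a, fun _ => ha⟩
    · exact ⟨0, fun h => absurd h ht⟩
  choose a ha using hex
  have haq : ∀ t, t < m → a t ≠ q := by
    intro t ht h
    obtain ⟨h1, h2⟩ := ha t ht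
    rcases h2 with ⟨h2, -⟩ | ⟨d, -, -, -, h2⟩
    · rw [h] at h2
      exact hqm t ht h2
    · rw [h] at h2
      have h3 := (hc' q hq).2 hcq
      rw [h3] at h2
      exact absurd h2 (by simp)
  refine hP3 m (fun t => (rel z' q (a t) : ℤ)) (by omega) ?_ ?_
  · intro s t hs ht h
    have h1 : rel z' q (a s) = rel z' q (a t) := by exact_mod_cast h
    have h2 := rel_inj (ha s hs).1 (ha t ht).1 hq h1
    have h3 : g (x s) = g (x t) := by
      refine rep_uniq hA (by omega) (by omega) (ha s hs).2 ?_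
      rw [h2]
      exact (ha t ht).2
    exact xinj s t (ginj (hx s hs) (hx t ht) h3)
  · intro t ht
    have ht' : (t + 1) % m < m := Nat.mod_lt _ (by omega)
    have hadj : (Hs (k + 2) P col).Adj (x t) (x ((t + 1) % m)) := by
      refine ⟨?_, (hx t ht).1, (hx _ ht').1, .core (i + 1) (j + 1) ((c + 2 * t + 1) % z), ?_, ?_⟩
      · intro h
        have h1 := xinj _ _ h
        rw [mod_succ ht] at h1
        split_ifs at h1 <;> omega
      · exact ItRC.cyc_adj hA (by omega) (by omega) (by omega)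
      · have h1 := ItRC.cyc_adj hA (i := i + 1) (j := j + 1) (s := (c + 2 * t + 1) % z)
          (by omega) (by omega) (Nat.mod_lt _ (by omega))
        have h2 : ((c + 2 * t + 1) % z + 1) % z = c + 2 * ((t + 1) % m) := by
          rw [mod_succ (Nat.mod_lt _ (by omega)), mod_succ (by omega), mod_succ ht]
          split_ifs <;> omega
        rw [← hzdef, h2] at h1
        exact h1
    have h1 := gadj _ (hx t ht) _ (hx _ ht') hadj
    have h2 := rep_adj hA hi' hj' (ha t ht).1 (ha _ ht').1 (ha t ht).2 (ha _ ht').2 h1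
    refine rel_step ⟨m', hm'⟩ (by omega) (ha t ht).1 (ha _ ht').1 hq (haq t ht) (haq _ ht') ?_
    rcases h2 with h2 | ⟨h2, h3⟩
    · exact Or.inl h2
    · refine Or.inr ⟨h2, ?_⟩
      rw [(hc' _ (ha t ht).1).1 h3, hcq]

end Pool.Agent.PHer

end

section

/-!
# P7: adjacency between interior leg vertices and cores
-/

set_option autoImplicit false

namespace Pool.Agent.PHer

open Pool.Agent.PEmb Pool.Agent.PReg

namespace ItP7

/-- First leg vertices. -/
lemma hl_one (P : Par) (i j d : ℕ) (hd : d < 4) : ∃ o, (d = ro o ∧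
    hl P (i + 1) (j + 1) d 1 = .leg o (i + 1) (j + 1) 1) ∨
    (d = ri o ∧ ∃ a b, nx o a b = (i + 1, j + 1) ∧
      hl P (i + 1) (j + 1) d 1 = .leg o a b (P.l o a b - 1)) := by
  interval_cases d
  · exact ⟨false, Or.inl ⟨rfl, by simp [hl]⟩⟩
  · exact ⟨false, Or.inr ⟨rfl, i + 1, j, rfl, by simp [hl]⟩⟩
  · exact ⟨true, Or.inl ⟨rfl, by simp [hl]⟩⟩
  · exact ⟨true, Or.inr ⟨rfl, i, j + 1, rfl, by simp [hl]⟩⟩

/-- Core labels of a core. -/
lemma core_mem {P : Par} {col : Lab → Bool} {i' j' a b t : ℕ}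
    (hu : Lab.core a b t ∈ Cs P col i' j') :
    a = i' + 1 ∧ b = j' + 1 ∧ col (.core a b t) = true := by
  obtain ⟨hc, ⟨s, -, hs⟩ | ⟨d, hd, -, hs⟩⟩ := hu
  · injection hs with h1 h2 h3
    exact ⟨h1, h2, hc⟩
  · obtain ⟨o, ⟨-, h⟩ | ⟨-, a', b', -, h⟩⟩ := hl_one P i' j' d hd
    · rw [h] at hs; cases hs
    · rw [h] at hs; cases hs

/-- Leg labels of a core. -/
lemma leg_mem {P : Par} {col : Lab → Bool} {i' j' a b t : ℕ} {o : Bool}
    (hu : Lab.leg o a b t ∈ Cs P col i' j') :
    (a = i' + 1 ∧ b = j' + 1 ∧ t = 1 ∧ col (hl P (i' + 1) (j' + 1) (ro o) 0) = false ∧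
      Lab.leg o a b t = hl P (i' + 1) (j' + 1) (ro o) 1) ∨
    (nx o a b = (i' + 1, j' + 1) ∧ t = P.l o a b - 1 ∧
      col (hl P (i' + 1) (j' + 1) (ri o) 0) = false ∧
      Lab.leg o a b t = hl P (i' + 1) (j' + 1) (ri o) 1) := by
  obtain ⟨-, ⟨s, -, hs⟩ | ⟨d, hd, hcd, hs⟩⟩ := hu
  · cases hs
  · obtain ⟨o', ⟨h0, h⟩ | ⟨h0, a', b', h1, h⟩⟩ := hl_one P i' j' d hd
    · left
      have hs' := hs
      rw [h] at hs
      injection hs with e1 e2 e3 e4
      subst e1
      rw [h0] at hcd hs'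
      exact ⟨e2, e3, e4, hcd, hs'⟩
    · right
      have hs' := hs
      rw [h] at hs
      injection hs with e1 e2 e3 e4
      subst e1 e2 e3
      rw [h0] at hcd hs'
      exact ⟨h1, e4, hcd, hs'⟩

end ItP7

open ItP7

/-- P7. -/
theorem P7 (hP6 : PP6) : PP7 := by
  intro k P col hP hAlt o i j s i' j' u hex hs1 hs2 hi' hj' hu
  obtain ⟨hbig, hsum, hint, hL0, -⟩ := hP6 k P col hP hAlt o i j hex
  obtain ⟨hLs, hp2, hpl⟩ := hint s hs1 hs2
  have hA : Adm (k + 2) P := hP.toAdm
  have hnx : nx o (i + 1) (j + 1) = ((nx o i j).1 + 1, (nx o i j).2 + 1) := by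
    cases o <;> rfl
  have hst : sta P col i j (ro o) ≤ 1 := by
    unfold sta
    split_ifs <;> omega
  have hbig' := hbig i' j' hi' hj'
  rw [hLs]
  generalize hp : sta P col i j (ro o) + 2 * s = p at *
  refine ⟨?_, ?_⟩
  · intro hm
    rcases leg_mem hm with ⟨-, -, h, -, -⟩ | ⟨-, h, -, -⟩ <;> omega
  · rintro ⟨hne, hcu, hcx, y, hy1, hy2⟩
    have hy : y = .leg o (i + 1) (j + 1) (p - 1) ∨ y = .leg o (i + 1) (j + 1) (p + 1) := by
      rcases ItP0.nb_leg hA hy2.symm with h | h
      · rw [if_neg (by omega)] at h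
        exact Or.inl h
      · rw [if_neg (by omega)] at h
        exact Or.inr h
    rcases hy with rfl | rfl
    · rcases ItP0.nb_leg hA hy1.symm with h | h
      · split_ifs at h with h1
        · -- the starting root
          left
          subst h
          obtain ⟨e1, e2, hc⟩ := core_mem hu
          have hs0 : sta P col i j (ro o) = 0 := by omega
          refine ⟨by omega, by omega, by omega, ?_⟩
          unfold rts
          rw [hs0]
          simp [hl]
        · subst h
          rcases leg_mem hu with ⟨e1, e2, e3, hc, he⟩ | ⟨-, e3, -, -⟩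
          · left
            have e4 : i' = i := by omega
            have e5 : j' = j := by omega
            subst e4 e5
            have hs0 : sta P col i' j' (ro o) = 1 := by omega
            refine ⟨by omega, rfl, rfl, ?_⟩
            unfold rts
            rw [hs0]
            exact he
          · omega
      · exfalso
        rw [if_neg (by omega)] at h
        apply hne
        rw [h, show p - 1 + 1 = p by omega]
    · rcases ItP0.nb_leg hA hy1.symm with h | h
      · exfalso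
        rw [if_neg (by omega)] at h
        apply hne
        rw [h]
        rfl
      · split_ifs at h with h1
        · right
          subst h
          obtain ⟨e1, e2, hc⟩ := core_mem hu
          rw [hnx] at e1 e2 hc
          simp only at e1 e2 hc
          have e3 : i' = (nx o i j).1 := by omega
          have e4 : j' = (nx o i j).2 := by omega
          have hst0 : sta P col i' j' (ri o) = 0 := by
            unfold sta
            rw [if_pos]
            rw [e3, e4]
            simpa [hl] using hc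
          refine ⟨?_, ?_, ?_⟩
          · rw [← e3, ← e4, hst0] at hsum
            omega
          · rw [e3, e4]
          · unfold rts
            rw [hst0, hnx, e3, e4]
            simp [hl]
        · subst h
          rcases leg_mem hu with ⟨-, -, e3, -, -⟩ | ⟨e1, e3, hc, he⟩
          · omega
          · right
            rw [hnx] at e1
            simp only [Prod.mk.injEq] at e1
            have e3' : i' = (nx o i j).1 := by omega
            have e4 : j' = (nx o i j).2 := by omega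
            have hst0 : sta P col i' j' (ri o) = 1 := by
              unfold sta
              rw [if_neg]
              rw [hc]
              simp
            refine ⟨?_, ?_, ?_⟩
            · rw [← e3', ← e4, hst0] at hsum
              omega
            · rw [e3', e4]
            · unfold rts
              rw [hst0]
              exact he

end Pool.Agent.PHer

end

section

/-!
# P8: adjacency between interior leg vertices of the half square
-/

set_option autoImplicit false

namespace Pool.Agent.PHer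

open Pool.Agent.PEmb Pool.Agent.PReg

namespace ItP8

variable {K : ℕ} {P : Par}

/-- a leg label in the neighbourhood of a leg label -/
lemma nbl (hA : Adm K P) {o o' : Bool} {a b p a' b' p' : ℕ}
    (h : AAdj K P (.leg o a b p) (.leg o' a' b' p')) :
    o' = o ∧ a' = a ∧ b' = b ∧ (p' + 1 = p ∨ p' = p + 1) := by
  have h1 : 1 ≤ p := (ItRC.adj_vx hA h).1.2.1
  rcases ItP0.nb_leg hA h with h | h
  · split_ifs at h with h2
    injection h with e1 e2 e3 e4
    exact ⟨e1, e2, e3, Or.inl (by omega)⟩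
  · split_ifs at h with h2
    injection h with e1 e2 e3 e4
    exact ⟨e1, e2, e3, Or.inr e4⟩

/-- a neighbour of an interior leg label -/
lemma nbi (hA : Adm K P) {o : Bool} {a b p : ℕ} {z : Lab} (hp : 2 ≤ p)
    (hp' : p + 2 ≤ P.l o a b) (h : AAdj K P (.leg o a b p) z) :
    z = .leg o a b (p - 1) ∨ z = .leg o a b (p + 1) := by
  rcases ItP0.nb_leg hA h with h | h
  · rw [if_neg (by omega)] at h
    exact Or.inl h
  · rw [if_neg (by omega)] at h
    exact Or.inr h

end ItP8

open ItP8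

/-- P8. -/
theorem P8 (hP6 : PP6) : PP8 := by
  intro k P col hA hc o i j s o' i' j' s' hex hex' hs1 hs2 hs1' hs2'
  obtain ⟨-, h1, h2, -, -⟩ := hP6 k P col hA hc o i j hex
  obtain ⟨-, h1', h2', -, -⟩ := hP6 k P col hA hc o' i' j' hex'
  obtain ⟨e, f1, f2⟩ := h2 s hs1 hs2
  obtain ⟨e', f1', f2'⟩ := h2' s' hs1' hs2'
  rw [e, e']
  constructor
  · intro h
    injection h with g1 g2 g3 g4
    have g2 : i = i' := by omega
    have g3 : j = j' := by omega
    subst g1 g2 g3
    exact ⟨rfl, rfl, rfl, by omega⟩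
  · rintro ⟨hne, -, -, z, hz1, hz2⟩
    rcases nbi hA.toAdm f1 f2 hz1 with h | h
    · rw [h] at hz2
      obtain ⟨g1, g2, g3, g4⟩ := nbl hA.toAdm hz2
      have g2 : i = i' := by omega
      have g3 : j = j' := by omega
      subst g1 g2 g3
      refine ⟨rfl, rfl, rfl, ?_⟩
      rcases g4 with g4 | g4
      · right; omega
      · exfalso
        exact hne (by rw [g4]; congr 1; omega)
    · rw [h] at hz2
      obtain ⟨g1, g2, g3, g4⟩ := nbl hA.toAdm hz2
      have g2 : i = i' := by omega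
      have g3 : j = j' := by omega
      subst g1 g2 g3
      refine ⟨rfl, rfl, rfl, ?_⟩
      rcases g4 with g4 | g4
      · exfalso
        exact hne (by congr 1; omega)
      · left; omega

end Pool.Agent.PHer

end

section

/-!
# Hereditary classes: item T2 (cleaning)
-/

set_option autoImplicit false

namespace Pool.Agent.PHer

open Pool.Agent.PEmb Pool.Agent.PReg

theorem ItT2.rs_univ {V : Type} (G : SimpleGraph V) : rs G Set.univ = G := by
  ext u v
  simp [rs]

theorem T2 (hT1 : PT1) (hS5 : PS5) : PT2 := by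
  classical
  intro V _ G w hw hsat htw
  have hex : ∃ n : ℕ, ∃ S : Set V, ¬ TreeWidthLE (rs G S) w ∧ S.ncard = n :=
    ⟨_, Set.univ, by rw [ItT2.rs_univ]; exact htw, rfl⟩
  obtain ⟨S, hS, hcard⟩ := Nat.find_spec hex
  have hmin : ∀ S' : Set V, S'.ncard < S.ncard → TreeWidthLE (rs G S') w := by
    intro S' hlt
    by_contra hno
    rw [hcard] at hlt
    exact Nat.find_min hex hlt ⟨S', hno, rfl⟩
  refine ⟨S, fun v => (hS5 G S S).1 v (hsat v), hS, ?_⟩
  intro b u v huv hb hadj
  have hbu : (rs G S).Adj b u := by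
    have : u ∈ (rs G S).neighborSet b := by rw [hb]; exact Set.mem_insert _ _
    exact this
  have hbS : b ∈ S := hbu.2.1
  apply hS
  refine hT1 (rs G S) w b u v hw hadj hb ?_
  rw [(hS5 G S {b}ᶜ).2.1]
  apply hmin
  apply Set.ncard_lt_ncard _ (Set.toFinite S)
  refine ⟨Set.inter_subset_left, fun h => ?_⟩
  exact (h hbS).2 rfl

end Pool.Agent.PHer

end

section

/-!
# T3: the structure of clean graphs with satisfied vertices
-/

set_option autoImplicit false

namespace Pool.Agent.PHer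

open Pool.Agent.PEmb Pool.Agent.PReg

namespace ItT3

variable {V : Type} [Finite V] {G : SimpleGraph V}

lemma nb3 {v a b c : V} (h3 : dg G v = 3) (hab : a ≠ b) (hac : a ≠ c) (hbc : b ≠ c)
    (ha : G.Adj v a) (hb : G.Adj v b) (hc : G.Adj v c) {u : V} (hu : G.Adj v u) :
    u = a ∨ u = b ∨ u = c := by
  have hsub : ({a, b, c} : Set V) ⊆ G.neighborSet v := by
    intro w hw
    rcases hw with rfl | rfl | rfl
    · exact ha
    · exact hb
    · exact hc
  have hcard : ({a, b, c} : Set V).ncard = 3 := by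
    rw [Set.ncard_eq_three]
    exact ⟨a, b, c, hab, hac, hbc, rfl⟩
  have heq : ({a, b, c} : Set V) = G.neighborSet v := by
    refine Set.eq_of_subset_of_ncard_le hsub ?_ (Set.toFinite _)
    rw [hcard]
    exact le_of_eq h3
  have : u ∈ ({a, b, c} : Set V) := by
    rw [heq]
    exact hu
  simpa using this

lemma le3 {v : V} (h : Sat G v) : dg G v ≤ 3 := by
  rcases h with h | h | h
  · omega
  · exact h.1.le
  · exact h.1.le

/-- vertices of triangles have degree 3 -/
lemma tri3 (hS : ∀ v, Sat G v) (hC : Clean G) {x y z : V} (h1 : G.Adj x y) (h2 : G.Adj y z)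
    (h3 : G.Adj x z) : dg G x = 3 := by
  have hle := le3 (hS x)
  have hyz : y ≠ z := h2.ne
  have hsub : ({y, z} : Set V) ⊆ G.neighborSet x := by
    intro w hw
    rcases hw with rfl | rfl
    · exact h1
    · exact h3
  have hcard : ({y, z} : Set V).ncard = 2 := Set.ncard_pair hyz
  have h2le : 2 ≤ dg G x := by
    unfold dg
    rw [← hcard]
    exact Set.ncard_le_ncard hsub (Set.toFinite _)
  by_contra hne
  have h2e : dg G x = 2 := by omega
  have heq : ({y, z} : Set V) = G.neighborSet x :=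
    Set.eq_of_subset_of_ncard_le hsub (by rw [hcard]; exact le_of_eq h2e) (Set.toFinite _)
  exact hC x y z hyz heq.symm h2

/-- the structure at a vertex of a triangle -/
lemma struct (hS : ∀ v, Sat G v) (hC : Clean G) {x y z : V} (h1 : G.Adj x y) (h2 : G.Adj y z)
    (h3 : G.Adj x z) : ∃ a b c, G.Adj x a ∧ G.Adj x b ∧ G.Adj x c ∧ G.Adj a b ∧
      (∀ u, G.Adj x u → u = a ∨ u = b ∨ u = c) ∧
      ∀ u v, G.Adj c u → G.Adj u v → ¬ G.Adj c v := by
  have hx := tri3 hS hC h1 h2 h3
  have hy := tri3 hS hC h2 h3.symm h1.symm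
  rcases hS x with h | ⟨-, h⟩ | ⟨-, a, b, c, hab, hac, hbc, ha, hb, hc, had, hcd⟩
  · omega
  · have := h y h1
    omega
  · refine ⟨a, b, c, ha, hb, hc, had, fun u hu => nb3 hx hab hac hbc ha hb hc hu, ?_⟩
    intro u v h4 h5 h6
    have := tri3 hS hC h4 h5 h6
    omega

/-- two triangles at a vertex are equal -/
lemma tri_eq (hS : ∀ v, Sat G v) (hC : Clean G) {x y z y' z' : V} (h1 : G.Adj x y)
    (h2 : G.Adj y z) (h3 : G.Adj x z) (h1' : G.Adj x y') (h2' : G.Adj y' z') (h3' : G.Adj x z') :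
    ({x, y, z} : Set V) = {x, y', z'} := by
  obtain ⟨a, b, c, ha, hb, hc, hab, hn, hct⟩ := struct hS hC h1 h2 h3
  have key : ∀ u v, G.Adj x u → G.Adj u v → G.Adj x v → ({x, u, v} : Set V) = {x, a, b} := by
    intro u v h4 h5 h6
    have hu : u ≠ c := by
      rintro rfl
      exact hct v x h5 h6.symm h4.symm
    have hv : v ≠ c := by
      rintro rfl
      exact hct u x h5.symm h4.symm h6.symm
    rcases hn u h4 with rfl | rfl | rfl
    · rcases hn v h6 with rfl | rfl | rfl
      · exact absurd rfl h5.ne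
      · rfl
      · exact absurd rfl hv
    · rcases hn v h6 with rfl | rfl | rfl
      · rw [Set.pair_comm u v]
      · exact absurd rfl h5.ne
      · exact absurd rfl hv
    · exact absurd rfl hu
  rw [key y z h1 h2 h3, key y' z' h1' h2' h3']

/-- the form of an element of `Ed G` which contains an edge -/
lemma ed_form {s : Set V} (hs : s ∈ Ed G) {x y : V} (hx : x ∈ s) (hy : y ∈ s) (h : G.Adj x y) :
    (s = {x, y} ∧ ∀ z, ¬ (G.Adj x z ∧ G.Adj y z)) ∨
      ∃ z, G.Adj x z ∧ G.Adj y z ∧ s = {x, y, z} := by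
  rcases hs with ⟨u, v, h1, rfl, h2⟩ | ⟨u, v, w, h1, h2, h3, rfl⟩
  · left
    rcases hx with rfl | rfl
    · rcases hy with rfl | rfl
      · exact absurd rfl h.ne
      · exact ⟨rfl, h2⟩
    · rcases hy with rfl | rfl
      · exact ⟨Set.pair_comm _ _, fun z hz => h2 z hz.symm⟩
      · exact absurd rfl h.ne
  · right
    rcases hx with rfl | rfl | rfl
    · rcases hy with rfl | rfl | rfl
      · exact absurd rfl h.ne
      · exact ⟨w, h3, h2, rfl⟩
      · exact ⟨v, h1, h2.symm, by rw [Set.pair_comm v]⟩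
    · rcases hy with rfl | rfl | rfl
      · exact ⟨w, h2, h3, Set.insert_comm _ _ _⟩
      · exact absurd rfl h.ne
      · exact ⟨u, h1.symm, h3.symm, by
          rw [Set.insert_comm u, Set.pair_comm u]⟩
    · rcases hy with rfl | rfl | rfl
      · exact ⟨v, h2.symm, h1, by
          rw [Set.pair_comm v, Set.insert_comm y]⟩
      · exact ⟨u, h3.symm, h1.symm, by
          rw [Set.insert_comm u, Set.pair_comm u, Set.insert_comm y]⟩
      · exact absurd rfl h.ne

/-- an element of `Ed G` which contains `x` contains a neighbour of `x` -/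
lemma ed_nb {s : Set V} (hs : s ∈ Ed G) {x : V} (hx : x ∈ s) : ∃ y ∈ s, G.Adj x y := by
  rcases hs with ⟨u, v, h1, rfl, h2⟩ | ⟨u, v, w, h1, h2, h3, rfl⟩
  · rcases hx with rfl | rfl
    · exact ⟨v, by simp, h1⟩
    · exact ⟨u, by simp, h1.symm⟩
  · rcases hx with rfl | rfl | rfl
    · exact ⟨v, by simp, h1⟩
    · exact ⟨u, by simp, h1.symm⟩
    · exact ⟨u, by simp, h3.symm⟩

/-- an edge is in only one element of `Ed G` -/
lemma ed_eq (hS : ∀ v, Sat G v) (hC : Clean G) {s s' : Set V} (hs : s ∈ Ed G) (hs' : s' ∈ Ed G)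
    {x y : V} (h : G.Adj x y) (hx : x ∈ s) (hy : y ∈ s) (hx' : x ∈ s') (hy' : y ∈ s') :
    s = s' := by
  rcases ed_form hs hx hy h with ⟨e, h1⟩ | ⟨z, h1, h2, e⟩
  · rcases ed_form hs' hx' hy' h with ⟨e', h1'⟩ | ⟨z', h1', h2', e'⟩
    · rw [e, e']
    · exact absurd ⟨h1', h2'⟩ (h1 z')
  · rcases ed_form hs' hx' hy' h with ⟨e', h1'⟩ | ⟨z', h1', h2', e'⟩
    · exact absurd ⟨h1, h2⟩ (h1' z)
    · rw [e, e']
      exact tri_eq hS hC h h2 h1 h h2' h1'

lemma cnt_le (hS : ∀ v, Sat G v) (hC : Clean G) (x : V) :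
    {s | s ∈ Ed G ∧ x ∈ s}.ncard ≤ dg G x := by
  classical
  have hch : ∀ s : Set V, ∃ y, s ∈ Ed G ∧ x ∈ s → y ∈ s ∧ G.Adj x y := by
    intro s
    by_cases h : s ∈ Ed G ∧ x ∈ s
    · obtain ⟨y, h1, h2⟩ := ed_nb h.1 h.2
      exact ⟨y, fun _ => ⟨h1, h2⟩⟩
    · exact ⟨x, fun h' => absurd h' h⟩
  choose g hg using hch
  unfold dg
  refine Set.ncard_le_ncard_of_injOn g (fun s hs => (hg s hs).2) ?_ (Set.toFinite _)
  intro s hs s' hs' he
  obtain ⟨h1, h2⟩ := hg s hs
  obtain ⟨h1', h2'⟩ := hg s' hs'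
  rw [← he] at h1'
  exact ed_eq hS hC hs.1 hs'.1 h2 hs.2 h1 hs'.2 h1'

lemma cnt_tri (hS : ∀ v, Sat G v) (hC : Clean G) {x y z : V} (h1 : G.Adj x y)
    (h2 : G.Adj y z) (h3 : G.Adj x z) : {s | s ∈ Ed G ∧ x ∈ s}.ncard ≤ 2 := by
  obtain ⟨a, b, c, ha, hb, hc, hab, hn, hct⟩ := struct hS hC h1 h2 h3
  have hsub : {s | s ∈ Ed G ∧ x ∈ s} ⊆ ({{x, a, b}, {x, c}} : Set (Set V)) := by
    rintro s ⟨hs, hx⟩
    obtain ⟨u, hu, hxu⟩ := ed_nb hs hx
    rcases ed_form hs hx hu hxu with ⟨e, h4⟩ | ⟨v, h4, h5, e⟩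
    · rcases hn u hxu with rfl | rfl | rfl
      · exact absurd ⟨hb, hab⟩ (h4 b)
      · exact absurd ⟨ha, hab.symm⟩ (h4 a)
      · right
        exact e
    · left
      rw [e]
      exact tri_eq hS hC hxu h5 h4 ha hab hb
  refine (Set.ncard_le_ncard hsub (Set.toFinite _)).trans ?_
  exact Set.ncard_insert_le _ _ |>.trans (by rw [Set.ncard_singleton])

end ItT3

open ItT3 in
theorem T3 : PT3 := by
  intro V _ G hS hC
  refine ⟨fun x y z h1 h2 h3 => tri3 hS hC h1 h2 h3,
    fun x y z y' z' h1 h2 h3 h4 h5 h6 => tri_eq hS hC h1 h2 h3 h4 h5 h6,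
    fun x => cnt_le hS hC x, fun x y z h1 h2 h3 => cnt_tri hS hC h1 h2 h3, ?_⟩
  intro x y hxy
  rcases hS x with h | ⟨-, h⟩ | ⟨-, a, b, c, hab, hac, hbc, ha, hb, hc, had, hcd⟩
  · exact Or.inl ((cnt_le hS hC x).trans h)
  · exact Or.inr ((cnt_le hS hC y).trans (h y hxy))
  · exact Or.inl (cnt_tri hS hC ha had hb)

end Pool.Agent.PHer

end

section

/-!
# T5: adjacency in `G` from the pattern in the incidence graph
-/

set_option autoImplicit false

namespace Pool.Agent.PHer

open Pool.Agent.PEmb Pool.Agent.PReg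

namespace ItT5

theorem aadj_symm {k : ℕ} {P : Par} {x y : Lab} (h : AAdj k P x y) : AAdj k P y x := Or.symm h

theorem ed_adj {V : Type} {G : SimpleGraph V} {s : Set V} (hs : s ∈ Ed G) {v w : V} (hv : v ∈ s)
    (hw : w ∈ s) (hne : v ≠ w) : G.Adj v w := by
  rcases hs with ⟨x, y, hxy, rfl, -⟩ | ⟨x, y, z, hxy, hyz, hxz, rfl⟩
  · rcases hv with rfl | hv
    · rcases hw with rfl | hw
      · exact absurd rfl hne
      · rw [Set.mem_singleton_iff.1 hw]; exact hxy
    · rw [Set.mem_singleton_iff.1 hv]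
      rcases hw with rfl | hw
      · exact hxy.symm
      · exact absurd ((Set.mem_singleton_iff.1 hv).trans (Set.mem_singleton_iff.1 hw).symm) hne
  · simp only [Set.mem_insert_iff, Set.mem_singleton_iff] at hv hw
    rcases hv with rfl | rfl | rfl <;> rcases hw with rfl | rfl | rfl <;>
      first
        | exact absurd rfl hne
        | assumption
        | (apply SimpleGraph.Adj.symm; assumption)

theorem inc_inl {V : Type} {G : SimpleGraph V} {v : V} {a : V ⊕ Set V}
    (h : (Inc G).Adj (.inl v) a) : ∃ s, a = .inr s ∧ s ∈ Ed G ∧ v ∈ s := by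
  rcases h with ⟨v', s, h1, h2, h3, h4⟩ | ⟨v', s, h1, h2, h3, h4⟩
  · rw [Sum.inl.injEq] at h1
    subst h1
    exact ⟨s, h2, h3, h4⟩
  · exact absurd h2 (by simp)

theorem inc_inr {V : Type} {G : SimpleGraph V} {s : Set V} {a : V ⊕ Set V}
    (h : (Inc G).Adj (.inr s) a) : ∃ v, a = .inl v ∧ v ∈ s := by
  rcases h with ⟨v', s', h1, h2, h3, h4⟩ | ⟨v', s', h1, h2, h3, h4⟩
  · exact absurd h1 (by simp)
  · rw [Sum.inr.injEq] at h2
    subst h2
    exact ⟨v', h1, h4⟩

section

variable {V : Type} [Finite V] {G : SimpleGraph V} {K : ℕ} {P : Par} {φ : Lab → V ⊕ Set V}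

theorem fact (p1 : ∀ x y, AAdj K P x y → Vx K P x ∧ Vx K P y ∧ x ≠ y)
    (p2 : ∀ x, Vx K P x → ∃ y z, y ≠ z ∧ AAdj K P x y ∧ AAdj K P x z)
    (hinj : ∀ x y, Vx K P x → Vx K P y → φ x = φ y → x = y)
    (hAA : ∀ a b, AAdj K P a b → (Inc G).Adj (φ a) (φ b)) {x : Lab} {v : V} (hx : Vx K P x)
    (hφx : φ x = .inl v) (hc : {s | s ∈ Ed G ∧ v ∈ s}.ncard ≤ 2) {s : Set V} (hs : s ∈ Ed G)
    (hvs : v ∈ s) : ∃ z, AAdj K P x z ∧ φ z = .inr s := by
  obtain ⟨z1, z2, hne, h1, h2⟩ := p2 x hx
  have k1 := hAA _ _ h1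
  have k2 := hAA _ _ h2
  rw [hφx] at k1 k2
  obtain ⟨s1, e1, m1, n1⟩ := inc_inl k1
  obtain ⟨s2, e2, m2, n2⟩ := inc_inl k2
  have hss : s1 ≠ s2 := by
    intro h
    apply hne
    exact hinj _ _ (p1 _ _ h1).2.1 (p1 _ _ h2).2.1 (by rw [e1, e2, h])
  have hsub : ({s1, s2} : Set (Set V)) ⊆ {s | s ∈ Ed G ∧ v ∈ s} := by
    intro t ht
    rcases ht with rfl | ht
    · exact ⟨m1, n1⟩
    · rw [Set.mem_singleton_iff.1 ht]
      exact ⟨m2, n2⟩
  have heq : ({s1, s2} : Set (Set V)) = {s | s ∈ Ed G ∧ v ∈ s} := by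
    refine Set.eq_of_subset_of_ncard_le hsub ?_ (Set.toFinite _)
    rw [Set.ncard_pair hss]
    exact hc
  have hmem : s ∈ ({s1, s2} : Set (Set V)) := by
    rw [heq]
    exact ⟨hs, hvs⟩
  rcases hmem with rfl | hmem
  · exact ⟨z1, h1, e1⟩
  · rw [Set.mem_singleton_iff.1 hmem]
    exact ⟨z2, h2, e2⟩

theorem main (p1 : ∀ x y, AAdj K P x y → Vx K P x ∧ Vx K P y ∧ x ≠ y)
    (p2 : ∀ x, Vx K P x → ∃ y z, y ≠ z ∧ AAdj K P x y ∧ AAdj K P x z)
    (hinj : ∀ x y, Vx K P x → Vx K P y → φ x = φ y → x = y)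
    (hAA : ∀ a b, AAdj K P a b → (Inc G).Adj (φ a) (φ b))
    (t4 : ∀ x y z, G.Adj x y → G.Adj y z → G.Adj x z → {s | s ∈ Ed G ∧ x ∈ s}.ncard ≤ 2)
    {x y : Lab} {v w : V} (hx : Vx K P x) (hy : Vx K P y) (hφx : φ x = .inl v)
    (hφy : φ y = .inl w) (hvw : G.Adj v w) (hc : {s | s ∈ Ed G ∧ v ∈ s}.ncard ≤ 2) :
    ∃ z, AAdj K P x z ∧ AAdj K P z y := by
  by_cases hex : ∃ u, G.Adj v u ∧ G.Adj w u
  · obtain ⟨u, hu1, hu2⟩ := hex
    have hs : ({v, w, u} : Set V) ∈ Ed G := Or.inr ⟨v, w, u, hvw, hu2, hu1, rfl⟩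
    obtain ⟨z, hz1, hz2⟩ := fact p1 p2 hinj hAA hx hφx hc hs (by simp)
    obtain ⟨z', hz1', hz2'⟩ := fact p1 p2 hinj hAA hy hφy (t4 w v u hvw.symm hu1 hu2) hs
      (by simp)
    have hzz : z = z' := hinj _ _ (p1 _ _ hz1).2.1 (p1 _ _ hz1').2.1 (by rw [hz2, hz2'])
    refine ⟨z, hz1, ?_⟩
    rw [hzz]
    exact aadj_symm hz1'
  · have hs : ({v, w} : Set V) ∈ Ed G :=
      Or.inl ⟨v, w, hvw, rfl, fun z hz => hex ⟨z, hz⟩⟩
    obtain ⟨z, hz1, hz2⟩ := fact p1 p2 hinj hAA hx hφx hc hs (by simp)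
    obtain ⟨a, b, hab, ha, hb⟩ := p2 z (p1 _ _ hz1).2.1
    have ka := hAA _ _ ha
    have kb := hAA _ _ hb
    rw [hz2] at ka kb
    obtain ⟨a', ea, ma⟩ := inc_inr ka
    obtain ⟨b', eb, mb⟩ := inc_inr kb
    have hne : a' ≠ b' := by
      intro h
      apply hab
      exact hinj _ _ (p1 _ _ ha).2.1 (p1 _ _ hb).2.1 (by rw [ea, eb, h])
    rcases ma with rfl | ma
    · rcases mb with rfl | mb
      · exact absurd rfl hne
      · rw [Set.mem_singleton_iff.1 mb] at eb
        have : b = y := hinj _ _ (p1 _ _ hb).2.1 hy (by rw [eb, hφy])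
        rw [this] at hb
        exact ⟨z, hz1, hb⟩
    · rw [Set.mem_singleton_iff.1 ma] at ea
      have : a = y := hinj _ _ (p1 _ _ ha).2.1 hy (by rw [ea, hφy])
      rw [this] at ha
      exact ⟨z, hz1, ha⟩

end

end ItT5

theorem T5 (hP0 : Pool.Agent.PReg.PP0) (hT3 : PT3) : PT5 := by
  intro V _ G hsat hclean K P φ hA hinj hadj x y v w hx hy hφx hφy
  obtain ⟨t1, t2, t3, t4, t5⟩ := hT3 G hsat hclean
  obtain ⟨p1, p2, -⟩ := hP0 K P hA
  have hAA : ∀ a b, AAdj K P a b → (Inc G).Adj (φ a) (φ b) := by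
    rintro a b (h | h)
    · exact hadj a b h
    · exact (hadj b a h).symm
  constructor
  · intro hvw
    refine ⟨?_, ?_⟩
    · rintro rfl
      rw [hφx, Sum.inl.injEq] at hφy
      exact hvw.ne hφy
    · rcases t5 v w hvw with h | h
      · exact ItT5.main p1 p2 hinj hAA t4 hx hy hφx hφy hvw h
      · obtain ⟨z, h1, h2⟩ := ItT5.main p1 p2 hinj hAA t4 hy hx hφy hφx hvw.symm h
        exact ⟨z, ItT5.aadj_symm h2, ItT5.aadj_symm h1⟩
  · rintro ⟨hne, z, h1, h2⟩
    have k1 := hAA _ _ h1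
    have k2 := hAA _ _ (ItT5.aadj_symm h2)
    rw [hφx] at k1
    rw [hφy] at k2
    obtain ⟨s, e1, m1, n1⟩ := ItT5.inc_inl k1
    obtain ⟨s', e2, m2, n2⟩ := ItT5.inc_inl k2
    rw [e1, Sum.inr.injEq] at e2
    subst e2
    refine ItT5.ed_adj m1 n1 n2 ?_
    rintro rfl
    exact hne (hinj _ _ hx hy (by rw [hφx, hφy]))

end Pool.Agent.PHer

end

section

/-!
# Item D1: a densest core and a degenerate order
-/

set_option autoImplicit false

namespace Pool.Agent.PHer

open Pool.Agent.PEmb Pool.Agent.PReg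

namespace ItD1

theorem dn_le_card {V : Type} (G : SimpleGraph V) (S : Finset V) (v : V) : dn G S v ≤ S.card := by
  classical
  unfold dn
  convert Finset.card_filter_le S fun u => G.Adj v u

theorem dn_mono {V : Type} (G : SimpleGraph V) {S T : Finset V} (h : S ⊆ T) (v : V) :
    dn G S v ≤ dn G T v := by
  classical
  unfold dn
  exact Finset.card_le_card (Finset.filter_subset_filter _ h)

theorem order {V : Type} (G : SimpleGraph V) (U : Finset V) (k : ℕ)
    (hU : ∀ T : Finset V, T ⊆ U → T.Nonempty → ∃ v ∈ T, dn G T v ≤ k) :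
    ∀ (n : ℕ) (T : Finset V), T.card = n → T ⊆ U → ∃ o : V → ℕ,
      (∀ u ∈ T, ∀ v ∈ T, o u = o v → u = v) ∧ ∀ v ∈ T, dout G o T v ≤ k := by
  classical
  intro n
  induction n with
  | zero =>
    intro T hT _
    rw [Finset.card_eq_zero] at hT
    subst hT
    exact ⟨fun _ => 0, by simp, by simp⟩
  | succ n ih =>
    intro T hT hTU
    have hne : T.Nonempty := by
      rw [← Finset.card_pos]
      omega
    obtain ⟨v0, hv0, hd⟩ := hU T hTU hne
    obtain ⟨o', hi, ho⟩ := ih (T.erase v0) (by rw [Finset.card_erase_of_mem hv0, hT]; rfl)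
      ((Finset.erase_subset _ _).trans hTU)
    refine ⟨fun v => if v = v0 then 0 else o' v + 1, ?_, ?_⟩
    · intro u hu v hv huv
      by_cases h1 : u = v0
      · by_cases h2 : v = v0
        · rw [h1, h2]
        · simp [h1, h2] at huv
      · by_cases h2 : v = v0
        · simp [h1, h2] at huv
        · simp only [h1, h2, if_false] at huv
          exact hi u (Finset.mem_erase.mpr ⟨h1, hu⟩) v (Finset.mem_erase.mpr ⟨h2, hv⟩) (by omega)
    · intro v hv
      by_cases h1 : v = v0
      · subst h1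
        refine le_trans ?_ hd
        unfold dout dn
        apply Finset.card_le_card
        intro u hu
        rw [Finset.mem_filter] at hu ⊢
        exact ⟨hu.1, hu.2.1⟩
      · refine le_trans ?_ (ho v (Finset.mem_erase.mpr ⟨h1, hv⟩))
        unfold dout
        apply Finset.card_le_card
        intro u hu
        rw [Finset.mem_filter] at hu ⊢
        obtain ⟨hu1, hu2, hu3⟩ := hu
        by_cases h2 : u = v0
        · simp [h1, h2] at hu3
        · simp only [h1, h2, if_false] at hu3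
          exact ⟨Finset.mem_erase.mpr ⟨h2, hu1⟩, hu2, by omega⟩

end ItD1

theorem D1 : PD1 := by
  classical
  intro V _ G δ U0 hU0 hδ
  haveI : Fintype V := Fintype.ofFinite V
  let P : ℕ → Prop := fun k => ∃ U : Finset V, U.Nonempty ∧ ∀ v ∈ U, k ≤ dn G U v
  have hPb : ∀ k, P k → k ≤ Fintype.card V := by
    rintro k ⟨U, ⟨v, hv⟩, hU⟩
    exact ((hU v hv).trans (ItD1.dn_le_card G U v)).trans (Finset.card_le_univ U)
  have hP0 : P δ := ⟨U0, hU0, hδ⟩
  have hspec : P (Nat.findGreatest P (Fintype.card V)) := Nat.findGreatest_spec (hPb δ hP0) hP0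
  have hle : δ ≤ Nat.findGreatest P (Fintype.card V) := Nat.le_findGreatest (hPb δ hP0) hP0
  have hmax : ∀ k', P k' → k' ≤ Nat.findGreatest P (Fintype.card V) := fun k' hk' =>
    Nat.le_findGreatest (hPb k' hk') hk'
  generalize Nat.findGreatest P (Fintype.card V) = k at hspec hle hmax
  obtain ⟨U, hUn, hUk⟩ := hspec
  obtain ⟨o, ho1, ho2⟩ := ItD1.order G U k (by
    intro T hTU hTn
    by_contra hcon
    push Not at hcon
    have := hmax (k + 1) ⟨T, hTn, fun v hv => hcon v hv⟩
    omega) U.card U rfl (Finset.Subset.refl U)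
  exact ⟨U, k, o, hUn, hle, hUk, ho1, ho2⟩

end Pool.Agent.PHer

end

section

set_option autoImplicit false

namespace Pool.Agent.PHer

open Pool.Agent.PEmb Pool.Agent.PReg

namespace ItD10

open Classical in
/-- walks in `M` with `i + 1` vertices -/
noncomputable def walks {V : Type} [Fintype V] (G : SimpleGraph V) (M : Finset V) (i : ℕ) :
    Finset (Fin (i + 1) → V) :=
  Finset.univ.filter fun f => (∀ a, f a ∈ M) ∧
    ∀ a b : Fin (i + 1), b.1 = a.1 + 1 → G.Adj (f a) (f b)

lemma card_walks {V : Type} [Fintype V] (G : SimpleGraph V) (M : Finset V) (Δ : ℕ)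
    (hM : ∀ v ∈ M, dn G M v ≤ Δ) (i : ℕ) : (walks G M i).card ≤ M.card * Δ ^ i := by
  classical
  induction i with
  | zero =>
    rw [pow_zero, mul_one]
    apply Finset.card_le_card_of_injOn (fun f => f 0)
    · intro f hf
      have hf' := (Finset.mem_filter.1 hf).2.1 0
      exact hf'
    · intro f _ g _ hfg
      funext a
      have ha : a = 0 := by
        apply Fin.ext
        have := a.2
        simp only [Fin.val_zero]
        omega
      rw [ha]
      exact hfg
  | succ i ih =>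
    have h1 : ∀ f ∈ walks G M (i + 1), (fun a : Fin (i + 1) => f a.castSucc) ∈ walks G M i := by
      intro f hf
      obtain ⟨-, h2, h3⟩ := Finset.mem_filter.1 hf
      refine Finset.mem_filter.2 ⟨Finset.mem_univ _, fun a => h2 _, fun a b hab => ?_⟩
      apply h3
      simpa using hab
    have h2 : ∀ g ∈ walks G M i, ((walks G M (i + 1)).filter
        (fun f => (fun a : Fin (i + 1) => f a.castSucc) = g)).card ≤ Δ := by
      intro g hg
      obtain ⟨-, hg2, hg3⟩ := Finset.mem_filter.1 hg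
      refine le_trans ?_ (hM (g (Fin.last i)) (hg2 _))
      unfold dn
      apply Finset.card_le_card_of_injOn (fun f => f (Fin.last (i + 1)))
      · intro f hf
        obtain ⟨hf1, hf2⟩ := Finset.mem_filter.1 hf
        obtain ⟨-, hf3, hf4⟩ := Finset.mem_filter.1 hf1
        refine Finset.mem_filter.2 ⟨hf3 _, ?_⟩
        rw [← hf2]
        apply hf4
        simp
      · intro f hf f' hf' hff
        obtain ⟨-, hf2⟩ := Finset.mem_filter.1 hf
        obtain ⟨-, hf2'⟩ := Finset.mem_filter.1 hf'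
        funext a
        refine Fin.lastCases ?_ (fun b => ?_) a
        · exact hff
        · exact congrFun (hf2.trans hf2'.symm) b
    calc (walks G M (i + 1)).card ≤ Δ * (walks G M i).card :=
          Finset.card_le_mul_card_image_of_maps_to h1 Δ h2
      _ ≤ Δ * (M.card * Δ ^ i) := Nat.mul_le_mul_left _ ih
      _ = M.card * Δ ^ (i + 1) := by ring

end ItD10

open ItD10 in
theorem D10 : PD10 := by
  classical
  intro V _ G M Δ z j hj hM hz
  obtain ⟨i, rfl⟩ := Nat.exists_eq_add_of_le' hj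
  have e0 : i + 3 - 3 = i := by omega
  rw [e0]
  set C : Finset (Fin (i + 3) → V) :=
    Finset.univ.filter fun c : Fin (i + 3) → V => CycSeq G (i + 3) c ∧ ∀ i, c i ∈ M with hC
  have h1 : ∀ c ∈ C, (fun a : Fin (i + 1) => c ⟨a.1, by omega⟩) ∈ walks G M i := by
    intro c hc
    obtain ⟨-, h2, h3⟩ := Finset.mem_filter.1 hc
    refine Finset.mem_filter.2 ⟨Finset.mem_univ _, fun a => h3 _, fun a b hab => ?_⟩
    exact h2.2.1 _ _ hab
  have h2 : ∀ g ∈ walks G M i, (C.filter
      (fun c => (fun a : Fin (i + 1) => c ⟨a.1, by omega⟩) = g)).card ≤ z := by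
    intro g hg
    obtain ⟨-, hg2, hg3⟩ := Finset.mem_filter.1 hg
    refine le_trans ?_ (hz (g (Fin.last i)) (hg2 _) (g 0) (hg2 _))
    apply Finset.card_le_card_of_injOn
      (fun c => (c ⟨i + 1, by omega⟩, c ⟨i + 2, by omega⟩))
    · intro c hc
      obtain ⟨hc1, hc2⟩ := Finset.mem_filter.1 hc
      obtain ⟨-, hc3, hc4⟩ := Finset.mem_filter.1 hc1
      simp only [Finset.coe_filter, Finset.mem_product, Set.mem_ofPred_eq]
      refine ⟨⟨hc4 _, hc4 _⟩, ?_, ?_, ?_⟩
      · rw [← hc2]
        apply hc3.2.1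
        rfl
      · rw [← hc2]
        apply SimpleGraph.Adj.symm
        apply hc3.2.2
        · rfl
        · rfl
      · apply hc3.2.1
        rfl
    · intro c hc c' hc' hcc
      obtain ⟨-, hc2⟩ := Finset.mem_filter.1 hc
      obtain ⟨-, hc2'⟩ := Finset.mem_filter.1 hc'
      obtain ⟨e1, e2⟩ := Prod.mk.inj hcc
      funext a
      rcases a with ⟨a, ha⟩
      by_cases h3 : a < i + 1
      · exact congrFun (hc2.trans hc2'.symm) ⟨a, h3⟩
      · by_cases h4 : a = i + 1
        · subst h4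
          exact e1
        · have h5 : a = i + 2 := by omega
          subst h5
          exact e2
  calc C.card ≤ z * (walks G M i).card :=
        Finset.card_le_mul_card_image_of_maps_to h1 z h2
    _ ≤ z * (M.card * Δ ^ i) := Nat.mul_le_mul_left _ (card_walks G M Δ hM i)
    _ = M.card * Δ ^ i * z := by ring

end Pool.Agent.PHer

end

section

set_option autoImplicit false

namespace Pool.Agent.PHer

open Pool.Agent.PEmb Pool.Agent.PReg

namespace ItD11

theorem dn_mono {V : Type} (G : SimpleGraph V) {S T : Finset V} (h : S ⊆ T) (v : V) :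
    dn G S v ≤ dn G T v := by
  classical
  unfold dn
  exact Finset.card_le_card (Finset.filter_subset_filter _ h)

theorem sum_dn_comm {V : Type} (G : SimpleGraph V) (A B : Finset V) :
    ∑ v ∈ A, dn G B v = ∑ v ∈ B, dn G A v := by
  classical
  unfold dn
  simp only [Finset.card_filter]
  rw [Finset.sum_comm]
  refine Finset.sum_congr rfl fun x _ => Finset.sum_congr rfl fun y _ => ?_
  simp only [G.adj_comm]

open Classical in
theorem dn_split {V : Type} (G : SimpleGraph V) (S T : Finset V) (h : T ⊆ S) (v : V) :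
    dn G S v = dn G (S \ T) v + dn G T v := by
  unfold dn
  rw [← Finset.card_union_of_disjoint, ← Finset.filter_union, Finset.sdiff_union_of_subset h]
  exact Finset.disjoint_filter_filter Finset.sdiff_disjoint

open Classical in
theorem e2_remove {V : Type} (G : SimpleGraph V) (S T : Finset V) (h : T ⊆ S) :
    e2 G S ≤ e2 G (S \ T) + 2 * ∑ v ∈ T, dn G S v := by
  unfold e2
  have h1 : ∑ v ∈ S, dn G S v = ∑ v ∈ S \ T, dn G S v + ∑ v ∈ T, dn G S v :=
    (Finset.sum_sdiff h).symm
  have h2 : ∑ v ∈ S \ T, dn G S v = ∑ v ∈ S \ T, dn G (S \ T) v + ∑ v ∈ S \ T, dn G T v := by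
    rw [← Finset.sum_add_distrib]
    exact Finset.sum_congr rfl fun v _ => dn_split G S T h v
  have h3 : ∑ v ∈ S \ T, dn G T v ≤ ∑ v ∈ S, dn G T v :=
    Finset.sum_le_sum_of_subset Finset.sdiff_subset
  rw [sum_dn_comm G S T] at h3
  omega

end ItD11

open ItD11 in
theorem D11 (hD5 : PD5) : PD11 := by
  classical
  intro V _ G h D R hR
  set Bd := R.filter (fun v => D < dn G R v) with hBd
  set R1 := R \ Bd with hR1
  have hBdR : Bd ⊆ R := Finset.filter_subset _ _
  have hR1R : R1 ⊆ R := Finset.sdiff_subset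
  have h1 : e2 G R ≤ e2 G R1 + 2 * ∑ v ∈ Bd, dn G R v := e2_remove G R Bd hBdR
  have hR1D : ∀ v ∈ R1, dn G R v ≤ D := by
    intro v hv
    rw [hR1, Finset.mem_sdiff, hBd, Finset.mem_filter] at hv
    by_contra hc
    exact hv.2 ⟨hv.1, by omega⟩
  -- first vertices of the cycles
  let Cy : (j : ℕ) → Finset (Fin j → V) := fun j =>
    Finset.univ.filter fun c : Fin j → V => CycSeq G j c ∧ ∀ i, c i ∈ R
  let fst : (j : ℕ) → (Fin j → V) → Finset V := fun j c =>
    if hj : 0 < j then {c ⟨0, hj⟩} else ∅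
  have hfst : ∀ j c, (fst j c).card ≤ 1 := by
    intro j c
    simp only [fst]
    split_ifs <;> simp
  let Q : Finset V := (Finset.Icc 3 h).biUnion fun j => (Cy j).biUnion (fst j)
  have hQ : Q.card ≤ nc G h R := by
    refine Finset.card_biUnion_le.trans ?_
    unfold nc
    refine Finset.sum_le_sum fun j _ => ?_
    refine Finset.card_biUnion_le.trans ?_
    calc ∑ c ∈ Cy j, (fst j c).card ≤ ∑ c ∈ Cy j, 1 := Finset.sum_le_sum fun c _ => hfst j c
      _ = _ := by simp [Cy]
  set S0 := R1 \ (R1 ∩ Q) with hS0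
  have h2 : e2 G R1 ≤ e2 G S0 + 2 * ∑ v ∈ R1 ∩ Q, dn G R1 v :=
    e2_remove G R1 _ Finset.inter_subset_left
  have h3 : ∑ v ∈ R1 ∩ Q, dn G R1 v ≤ D * nc G h R := by
    calc ∑ v ∈ R1 ∩ Q, dn G R1 v ≤ ∑ v ∈ R1 ∩ Q, D := by
          refine Finset.sum_le_sum fun v hv => ?_
          have hv1 : v ∈ R1 := (Finset.mem_inter.1 hv).1
          exact (dn_mono G hR1R v).trans (hR1D v hv1)
      _ = (R1 ∩ Q).card * D := by simp
      _ ≤ Q.card * D := Nat.mul_le_mul_right _ (Finset.card_le_card Finset.inter_subset_right)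
      _ ≤ nc G h R * D := Nat.mul_le_mul_right _ hQ
      _ = _ := Nat.mul_comm _ _
  have hS0R1 : S0 ⊆ R1 := Finset.sdiff_subset
  have hS0R : S0 ⊆ R := hS0R1.trans hR1R
  have h4 : S0.card ≤ R.card := Finset.card_le_card hS0R
  have h5 : 2 * 4 * S0.card < e2 G S0 := by
    have h6 : 2 * D * nc G h R = 2 * (D * nc G h R) := by ring
    omega
  obtain ⟨S, hSS0, hSne, hSd⟩ := hD5 G S0 4 h5
  refine ⟨S, hSS0.trans hS0R, hSne, fun v hv => ⟨?_, ?_⟩, ?_⟩
  · have := hSd v hv
    omega
  · exact (dn_mono G (hSS0.trans hS0R) v).trans (hR1D v (hS0R1 (hSS0 hv)))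
  · intro j hj3 hjh c hc hcyc
    have h0 : 0 < j := by omega
    have hin : c ⟨0, h0⟩ ∈ Q := by
      simp only [Q, Finset.mem_biUnion]
      refine ⟨j, Finset.mem_Icc.2 ⟨hj3, hjh⟩, c, ?_, ?_⟩
      · simp only [Cy, Finset.mem_filter, Finset.mem_univ, true_and]
        exact ⟨hcyc, fun i => hS0R (hSS0 (hc i))⟩
      · simp only [fst, dif_pos h0, Finset.mem_singleton]
    have hnot := hSS0 (hc ⟨0, h0⟩)
    rw [hS0, Finset.mem_sdiff] at hnot
    exact hnot.2 (Finset.mem_inter.2 ⟨hnot.1, hin⟩)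

end Pool.Agent.PHer

end

section

/-!
# D12: a random subset in the almost regular case
-/

set_option autoImplicit false

namespace Pool.Agent.PHer

open Pool.Agent.PEmb Pool.Agent.PReg

namespace ItD12

open Classical in
/-- D8 for four kinds of indices. -/
theorem four (hD8 : PD8) {V : Type} [Fintype V] (p : ℝ) (hp0 : 0 ≤ p) (hp1 : p ≤ 1)
    {ι1 ι2 ι3 ι4 : Type} (J1 : Finset ι1) (J2 : Finset ι2) (J3 : Finset ι3) (J4 : Finset ι4)
    (c1 c2 c3 c4 : ℝ) (A1 : ι1 → Finset V) (A2 : ι2 → Finset V) (A3 : ι3 → Finset V)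
    (A4 : ι4 → Finset V)
    (h : 0 < c1 * ∑ i ∈ J1, p ^ (A1 i).card + c2 * ∑ i ∈ J2, p ^ (A2 i).card +
      c3 * ∑ i ∈ J3, p ^ (A3 i).card + c4 * ∑ i ∈ J4, p ^ (A4 i).card) :
    ∃ R : Finset V, 0 < c1 * (∑ i ∈ J1, if A1 i ⊆ R then (1 : ℝ) else 0) +
      c2 * (∑ i ∈ J2, if A2 i ⊆ R then (1 : ℝ) else 0) +
      c3 * (∑ i ∈ J3, if A3 i ⊆ R then (1 : ℝ) else 0) +
      c4 * (∑ i ∈ J4, if A4 i ⊆ R then (1 : ℝ) else 0) := by
  obtain ⟨R, hR⟩ := hD8 (V := V) p hp0 hp1
    ((J1.disjSum J2).disjSum (J3.disjSum J4))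
    (Sum.elim (Sum.elim (fun _ => c1) (fun _ => c2)) (Sum.elim (fun _ => c3) (fun _ => c4)))
    (Sum.elim (Sum.elim A1 A2) (Sum.elim A3 A4)) (by
      rw [Finset.sum_disjSum, Finset.sum_disjSum, Finset.sum_disjSum]
      simp only [Sum.elim_inl, Sum.elim_inr]
      rw [Finset.mul_sum, Finset.mul_sum, Finset.mul_sum, Finset.mul_sum] at h
      linarith)
  refine ⟨R, ?_⟩
  rw [Finset.sum_filter, Finset.sum_disjSum, Finset.sum_disjSum, Finset.sum_disjSum] at hR
  simp only [Sum.elim_inl, Sum.elim_inr] at hR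
  rw [Finset.mul_sum, Finset.mul_sum, Finset.mul_sum, Finset.mul_sum]
  simp only [mul_ite, mul_one, mul_zero]
  linarith

end ItD12

open Classical in
theorem D12 (hD8 : PD8) : PD12 := by
  intro V _ G M p Δ D h Z hp0 hp1 hD hZ hdeg hcyc hmain
  set N : V → Finset V := fun v => M.filter fun u => G.Adj v u with hN
  have hNd : ∀ v, dn G M v = (N v).card := fun v => rfl
  set CY : (j : ℕ) → Finset (Fin j → V) := fun j => Finset.univ.filter fun c : Fin j → V =>
    CycSeq G j c ∧ ∀ i, c i ∈ M with hCY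
  have hp0' : (0 : ℝ) ≤ p := hp0.le
  have hDr : (0 : ℝ) < D := by exact_mod_cast hD
  have he2 : (e2 G M : ℝ) = ∑ v ∈ M, ((N v).card : ℝ) := by
    unfold e2; push_cast; rfl
  -- sum 1
  have s1 : ∑ i ∈ M.sigma (fun v => N v), p ^ (({i.1, i.2} : Finset V)).card
      = (e2 G M : ℝ) * p ^ 2 := by
    rw [Finset.sum_sigma, he2, Finset.sum_mul]
    refine Finset.sum_congr rfl fun v hv => ?_
    rw [← nsmul_eq_mul, ← Finset.sum_const]
    refine Finset.sum_congr rfl fun u hu => ?_
    have : v ≠ u := by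
      intro e; rw [hN] at hu; rw [Finset.mem_filter] at hu; exact G.ne_of_adj hu.2 e
    rw [Finset.card_pair this]
  -- sum 2
  have s2 : ∑ i ∈ M.sigma (fun v => N v ×ˢ N v), p ^ (({i.1, i.2.1, i.2.2} : Finset V)).card
      ≤ (e2 G M : ℝ) * (p ^ 2 + p ^ 3 * Δ) := by
    rw [Finset.sum_sigma, he2, Finset.sum_mul]
    refine Finset.sum_le_sum fun v hv => ?_
    rw [Finset.sum_product, ← nsmul_eq_mul, ← Finset.sum_const]
    refine Finset.sum_le_sum fun u hu => ?_
    have hvu : v ≠ u := by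
      intro e; rw [hN] at hu; rw [Finset.mem_filter] at hu; exact G.ne_of_adj hu.2 e
    rw [← Finset.add_sum_erase _ _ hu]
    refine add_le_add ?_ ?_
    · have : ({v, u, u} : Finset V) = {v, u} := by
        ext x; simp
      show p ^ (({v, u, u} : Finset V)).card ≤ p ^ 2
      rw [this, Finset.card_pair hvu]
    · have : ∑ x ∈ (N v).erase u, p ^ (({v, u, x} : Finset V)).card
          ≤ ∑ x ∈ (N v).erase u, p ^ 3 := by
        refine Finset.sum_le_sum fun x hx => ?_
        rw [Finset.mem_erase] at hx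
        have hxN := hx.2
        rw [hN] at hxN
        rw [Finset.mem_filter] at hxN
        have hvx : v ≠ x := G.ne_of_adj hxN.2
        have : (({v, u, x} : Finset V)).card = 3 := by
          rw [Finset.card_insert_of_notMem, Finset.card_pair (Ne.symm hx.1)]
          simp only [Finset.mem_insert, Finset.mem_singleton, not_or]
          exact ⟨hvu, hvx⟩
        rw [this]
      refine this.trans ?_
      rw [Finset.sum_const, nsmul_eq_mul, mul_comm]
      refine mul_le_mul_of_nonneg_left ?_ (by positivity)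
      have h1 : ((N v).erase u).card ≤ (N v).card := Finset.card_le_card (Finset.erase_subset _ _)
      have h2 : (N v).card ≤ Δ := hdeg v hv
      exact_mod_cast h1.trans h2
  -- sum 3
  have s3 : ∑ i ∈ (Finset.Icc 3 h).sigma (fun j => CY j), p ^ (Finset.univ.image i.2).card
      ≤ h * Z := by
    rw [Finset.sum_sigma]
    have : ∀ j ∈ Finset.Icc 3 h, ∑ c ∈ CY j, p ^ (Finset.univ.image c).card ≤ Z := by
      intro j hj
      rw [Finset.mem_Icc] at hj
      refine le_trans (le_of_eq ?_) (hcyc j hj.1 hj.2)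
      rw [← nsmul_eq_mul, ← Finset.sum_const]
      refine Finset.sum_congr rfl fun c hc => ?_
      rw [Finset.mem_filter] at hc
      rw [Finset.card_image_of_injective _ hc.2.1.1, Finset.card_univ, Fintype.card_fin]
    refine (Finset.sum_le_sum this).trans ?_
    rw [Finset.sum_const, nsmul_eq_mul]
    refine mul_le_mul_of_nonneg_right ?_ hZ
    rw [Nat.card_Icc]
    exact_mod_cast (by omega : h + 1 - 3 ≤ h)
  have s4 : ∑ v ∈ M, p ^ (({v} : Finset V)).card = p * M.card := by
    simp only [Finset.card_singleton, pow_one, Finset.sum_const, nsmul_eq_mul]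
    ring
  obtain ⟨R', hR'⟩ := ItD12.four hD8 p hp0' hp1 (M.sigma (fun v => N v))
    (M.sigma (fun v => N v ×ˢ N v)) ((Finset.Icc 3 h).sigma (fun j => CY j)) M
    1 (-(2 / D)) (-(2 * D)) (-8)
    (fun i => ({i.1, i.2} : Finset V)) (fun i => ({i.1, i.2.1, i.2.2} : Finset V))
    (fun i => Finset.univ.image i.2) (fun v => ({v} : Finset V)) (by
      rw [s1, s4]
      have h2 : (2 / D : ℝ) * ∑ i ∈ M.sigma (fun v => N v ×ˢ N v),
          p ^ (({i.1, i.2.1, i.2.2} : Finset V)).card
          ≤ (2 / D : ℝ) * ((e2 G M : ℝ) * (p ^ 2 + p ^ 3 * Δ)) :=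
        mul_le_mul_of_nonneg_left s2 (by positivity)
      have h3 : (2 * D : ℝ) * ∑ i ∈ (Finset.Icc 3 h).sigma (fun j => CY j),
          p ^ (Finset.univ.image i.2).card ≤ (2 * D : ℝ) * (h * Z) :=
        mul_le_mul_of_nonneg_left s3 (by positivity)
      have e1 : 2 / (D : ℝ) * (p ^ 2 + p ^ 3 * Δ) * e2 G M
          = (2 / D : ℝ) * ((e2 G M : ℝ) * (p ^ 2 + p ^ 3 * Δ)) := by ring
      rw [e1] at hmain
      linarith)
  set R : Finset V := M.filter fun v => v ∈ R' with hR
  have hNR : ∀ v, dn G R v = ((N v).filter fun u => u ∈ R').card := by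
    intro v
    unfold dn
    congr 1
    rw [hR, hN]
    ext x
    simp only [Finset.mem_filter]
    tauto
  -- evaluate the sums
  have t1 : (∑ i ∈ M.sigma (fun v => N v), if ({i.1, i.2} : Finset V) ⊆ R' then (1 : ℝ) else 0)
      = (e2 G R : ℝ) := by
    rw [Finset.sum_sigma]
    unfold e2
    push_cast
    rw [hR, Finset.sum_filter]
    refine Finset.sum_congr rfl fun v hv => ?_
    by_cases hvR : v ∈ R'
    · rw [if_pos hvR, ← hR, hNR v, Finset.card_filter]
      push_cast
      refine Finset.sum_congr rfl fun u hu => ?_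
      by_cases huR : u ∈ R'
      · rw [if_pos huR, if_pos]
        intro x hx
        simp only [Finset.mem_insert, Finset.mem_singleton] at hx
        rcases hx with rfl | rfl
        · exact hvR
        · exact huR
      · rw [if_neg huR, if_neg]
        intro hs
        exact huR (hs (by simp))
    · rw [if_neg hvR]
      refine Finset.sum_eq_zero fun u hu => ?_
      rw [if_neg]
      intro hs
      exact hvR (hs (by simp))
  have t2 : (∑ i ∈ M.sigma (fun v => N v ×ˢ N v),
      if ({i.1, i.2.1, i.2.2} : Finset V) ⊆ R' then (1 : ℝ) else 0)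
      = ∑ v ∈ R, (dn G R v : ℝ) ^ 2 := by
    rw [Finset.sum_sigma, hR, Finset.sum_filter]
    refine Finset.sum_congr rfl fun v hv => ?_
    by_cases hvR : v ∈ R'
    · rw [if_pos hvR, ← hR, hNR v, Finset.card_filter, Finset.sum_product]
      push_cast
      rw [pow_two, Finset.sum_mul_sum]
      refine Finset.sum_congr rfl fun u hu => Finset.sum_congr rfl fun x hx => ?_
      by_cases huR : u ∈ R'
      · by_cases hxR : x ∈ R'
        · rw [if_pos huR, if_pos hxR, if_pos, mul_one]
          intro y hy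
          simp only [Finset.mem_insert, Finset.mem_singleton] at hy
          rcases hy with rfl | rfl | rfl
          · exact hvR
          · exact huR
          · exact hxR
        · rw [if_neg hxR, if_neg, mul_zero]
          intro hs
          exact hxR (hs (by simp))
      · rw [if_neg huR, if_neg, zero_mul]
        intro hs
        exact huR (hs (by simp))
    · rw [if_neg hvR]
      refine Finset.sum_eq_zero fun u hu => ?_
      rw [if_neg]
      intro hs
      exact hvR (hs (by simp))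
  have t3 : (∑ i ∈ (Finset.Icc 3 h).sigma (fun j => CY j),
      if Finset.univ.image i.2 ⊆ R' then (1 : ℝ) else 0) = (nc G h R : ℝ) := by
    rw [Finset.sum_sigma]
    unfold nc
    push_cast
    refine Finset.sum_congr rfl fun j hj => ?_
    rw [← Finset.sum_filter, Finset.sum_const, nsmul_eq_mul, mul_one]
    congr 2
    rw [hCY]
    ext c
    simp only [Finset.mem_filter, Finset.mem_univ, true_and]
    constructor
    · rintro ⟨⟨h1, h2⟩, h3⟩
      refine ⟨h1, fun i => ?_⟩
      rw [hR, Finset.mem_filter]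
      exact ⟨h2 i, h3 (Finset.mem_image_of_mem _ (Finset.mem_univ i))⟩
    · rintro ⟨h1, h2⟩
      refine ⟨⟨h1, fun i => ?_⟩, ?_⟩
      · have := h2 i
        rw [hR, Finset.mem_filter] at this
        exact this.1
      · intro x hx
        rw [Finset.mem_image] at hx
        obtain ⟨i, -, rfl⟩ := hx
        have := h2 i
        rw [hR, Finset.mem_filter] at this
        exact this.2
  have t4 : (∑ v ∈ M, if ({v} : Finset V) ⊆ R' then (1 : ℝ) else 0) = (R.card : ℝ) := by
    rw [← Finset.sum_filter, Finset.sum_const, nsmul_eq_mul, mul_one]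
    congr 2
    rw [hR]
    ext x
    simp only [Finset.mem_filter, Finset.singleton_subset_iff]
  rw [t1, t2, t3, t4] at hR'
  refine ⟨R, Finset.filter_subset _ _, ?_⟩
  have hk : 2 * (∑ v ∈ R.filter (fun v => D < dn G R v), (dn G R v : ℝ))
      ≤ (2 / D : ℝ) * ∑ v ∈ R, (dn G R v : ℝ) ^ 2 := by
    rw [Finset.mul_sum, Finset.mul_sum, Finset.sum_filter]
    refine Finset.sum_le_sum fun v hv => ?_
    split_ifs with hd
    · have hd' : (D : ℝ) ≤ dn G R v := by exact_mod_cast hd.le
      rw [div_mul_eq_mul_div, le_div_iff₀ hDr, pow_two]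
      have : (0 : ℝ) ≤ dn G R v := by positivity
      nlinarith
    · positivity
  have : (2 * (∑ v ∈ R.filter (fun v => D < dn G R v), (dn G R v : ℝ)) + 2 * D * nc G h R +
    8 * R.card : ℝ) < e2 G R := by
    linarith
  exact_mod_cast this

end Pool.Agent.PHer

end
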