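import Mathlib
import Pool.Agent.Work.MP_cfa43e_lc.Her.StmtsD
import Pool.Agent.Work.MP_cfa43e_lc.Her.StmtsH

/-! Bundle of small proof modules (one section per former module). -/

section

set_option autoImplicit false

namespace Pool.Agent.PHer

open Pool.Agent.PEmb Pool.Agent.PReg

theorem D13 (hD9 : PD9) (hD10 : PD10) (hD11 : PD11) (hD12 : PD12) : PD13 := by
  classical
  intro t L
  rcases Nat.eq_zero_or_pos L with hL | hL
  · subst hL
    refine ⟨0, fun h => ⟨1, ?_⟩⟩
    intro V _ G k M hk _ hM hdn hke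
    exfalso
    have h0 : e2 G M = 0 := by
      unfold e2
      apply Finset.sum_eq_zero
      intro v hv
      have := hdn v hv
      simpa using this
    rw [h0] at hke
    have h1 : 0 < M.card := hM.card_pos
    have h2 : 0 < k * M.card := Nat.mul_pos (by omega) h1
    omega
  · refine ⟨8 * (1 + 256 * L), fun h => ?_⟩
    set D : ℕ := 8 * (1 + 256 * L) with hDdef
    set m' : ℕ := 2 * D * h * (256 * L) ^ h + 1 with hm'
    obtain ⟨Δ0, hΔ0⟩ := hD9 t m'
    refine ⟨max 256 Δ0, ?_⟩
    intro V _ G k M hk hbic hM hdn hke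
    have hk256 : 256 ≤ k := le_trans (le_max_left _ _) hk
    have hkΔ : Δ0 ≤ k := le_trans (le_max_right _ _) hk
    have hkpos : (0 : ℝ) < k := by
      have : 0 < k := by omega
      exact_mod_cast this
    have hkR : (256 : ℝ) ≤ k := by exact_mod_cast hk256
    have hMpos : (0 : ℝ) < M.card := by exact_mod_cast hM.card_pos
    have hLR : (1 : ℝ) ≤ L := by exact_mod_cast hL
    have hLk : Δ0 ≤ L * k := le_trans hkΔ (Nat.le_mul_of_pos_left k hL)
    set p : ℝ := 256 / k with hp
    have hp0 : 0 < p := by positivity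
    have hp1 : p ≤ 1 := by
      rw [hp, div_le_one hkpos]; exact hkR
    set Δ : ℕ := L * k with hΔ
    have hpΔ : p * (Δ : ℝ) = 256 * L := by
      rw [hp, hΔ]; push_cast; field_simp
    have hm'pos : (0 : ℝ) < m' := by
      have : 0 < m' := by omega
      exact_mod_cast this
    have hz : ∀ a ∈ M, ∀ b ∈ M, ((M ×ˢ M).filter fun p => G.Adj a p.1 ∧ G.Adj b p.2 ∧
        G.Adj p.1 p.2).card ≤ Δ ^ 2 / m' := by
      intro a ha b hb
      have h1 := hΔ0 G Δ (M.filter fun u => G.Adj a u) (M.filter fun u => G.Adj b u) hLk hbic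
        (hdn a ha) (hdn b hb)
      rw [Nat.le_div_iff_mul_le (by omega)]
      refine le_trans ?_ h1
      rw [mul_comm]
      apply Nat.mul_le_mul_left
      apply Finset.card_le_card
      intro q hq
      simp only [Finset.mem_filter, Finset.mem_product] at hq ⊢
      exact ⟨⟨⟨hq.1.1, hq.2.1⟩, hq.1.2, hq.2.2.1⟩, hq.2.2.2⟩
    set Z : ℝ := M.card * p * (256 * L) ^ h / m' with hZ
    have hZ0 : 0 ≤ Z := by positivity
    have hcyc : ∀ j, 3 ≤ j → j ≤ h → ((Finset.univ.filter fun c : Fin j → V =>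
        CycSeq G j c ∧ ∀ i, c i ∈ M).card : ℝ) * p ^ j ≤ Z := by
      intro j hj3 hjh
      have h1 := hD10 G M Δ (Δ ^ 2 / m') j hj3 hdn hz
      have h2 : ((Finset.univ.filter fun c : Fin j → V =>
          CycSeq G j c ∧ ∀ i, c i ∈ M).card : ℝ) ≤ M.card * (Δ : ℝ) ^ (j - 3) *
            ((Δ : ℝ) ^ 2 / m') := by
        have h3 : ((Δ ^ 2 / m' : ℕ) : ℝ) ≤ (Δ : ℝ) ^ 2 / m' := by
          have := @Nat.cast_div_le ℝ _ _ _ (Δ ^ 2) m'
          push_cast at this ⊢
          exact this
        have h4 : ((Finset.univ.filter fun c : Fin j → V =>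
          CycSeq G j c ∧ ∀ i, c i ∈ M).card : ℝ) ≤
            ((M.card * Δ ^ (j - 3) * (Δ ^ 2 / m') : ℕ) : ℝ) := by
          exact_mod_cast h1
        refine h4.trans ?_
        push_cast
        apply mul_le_mul_of_nonneg_left _ (by positivity)
        simpa using h3
      have h5 : (Δ : ℝ) ^ (j - 3) * (Δ : ℝ) ^ 2 = (Δ : ℝ) ^ (j - 1) := by
        rw [← pow_add]; congr 1; omega
      have h6 : p ^ j = p * p ^ (j - 1) := by
        rw [← pow_succ']; congr 1; omega
      calc ((Finset.univ.filter fun c : Fin j → V =>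
          CycSeq G j c ∧ ∀ i, c i ∈ M).card : ℝ) * p ^ j
          ≤ (M.card * (Δ : ℝ) ^ (j - 3) * ((Δ : ℝ) ^ 2 / m')) * p ^ j :=
            mul_le_mul_of_nonneg_right h2 (by positivity)
        _ = M.card * p * (p * Δ) ^ (j - 1) / m' := by
            rw [mul_pow, ← h5, h6]; ring
        _ ≤ Z := by
            rw [hpΔ, hZ]
            apply div_le_div_of_nonneg_right _ hm'pos.le
            apply mul_le_mul_of_nonneg_left _ (by positivity)
            apply pow_le_pow_right₀ (by nlinarith) (by omega)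
    have hDR : (D : ℝ) = 8 * (1 + 256 * L) := by rw [hDdef]; push_cast; ring
    have hDpos : 0 < D := by omega
    have hmain : 2 / (D : ℝ) * (p ^ 2 + p ^ 3 * Δ) * e2 G M + 2 * D * (h * Z) +
        8 * (p * M.card) < p ^ 2 * e2 G M := by
      have e1 : 2 / (D : ℝ) * (p ^ 2 + p ^ 3 * Δ) = p ^ 2 / 4 := by
        have : p ^ 3 * (Δ : ℝ) = p ^ 2 * (256 * L) := by rw [← hpΔ]; ring
        rw [this, hDR]
        field_simp
        ring
      have e2' : 2 * (D : ℝ) * (h * Z) ≤ p * M.card := by
        rw [hZ]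
        have h7 : 2 * (D : ℝ) * h * (256 * L) ^ h ≤ m' := by
          rw [hm']; push_cast; linarith
        have h8 : 2 * (D : ℝ) * (h * (M.card * p * (256 * L) ^ h / m')) =
            (p * M.card) * ((2 * (D : ℝ) * h * (256 * L) ^ h) / m') := by ring
        rw [h8]
        have h9 : (2 * (D : ℝ) * h * (256 * L) ^ h) / m' ≤ 1 := by
          rw [div_le_one hm'pos]; exact h7
        calc (p * M.card) * ((2 * (D : ℝ) * h * (256 * L) ^ h) / m')
            ≤ (p * M.card) * 1 := mul_le_mul_of_nonneg_left h9 (by positivity)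
          _ = p * M.card := mul_one _
      have e3 : 32 * (M.card : ℝ) ≤ p * e2 G M := by
        have h10 : (k : ℝ) * M.card ≤ 8 * e2 G M := by exact_mod_cast hke
        have h11 : p * (k * M.card) ≤ p * (8 * e2 G M) :=
          mul_le_mul_of_nonneg_left h10 hp0.le
        have h12 : p * (k * (M.card : ℝ)) = 256 * M.card := by
          rw [hp]; field_simp
        linarith
      rw [e1]
      have e4 : p * (32 * (M.card : ℝ)) ≤ p * (p * e2 G M) :=
        mul_le_mul_of_nonneg_left e3 hp0.le
      have e5 : 0 < p * (M.card : ℝ) := by positivity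
      nlinarith
    obtain ⟨R, hRM, hR⟩ := hD12 G M p Δ D h Z hp0 hp1 hDpos hZ0 hdn hcyc hmain
    obtain ⟨S, hSR, hS1, hS2, hS3⟩ := hD11 G h D R hR
    exact ⟨S, hSR.trans hRM, hS1, hS2, hS3⟩

end Pool.Agent.PHer

end

section

/-!
# Item D15: a set of minimum degree at least two contains a cycle
-/

set_option autoImplicit false

namespace Pool.Agent.PHer

open Pool.Agent.PEmb Pool.Agent.PReg

theorem D15 : PD15 := by
  classical
  intro V G S hne hdeg
  let P : ℕ → Prop := fun m =>
    ∃ l : List V, l.length = m ∧ l.Nodup ∧ (∀ x ∈ l, x ∈ S) ∧ l.IsChain G.Adj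
  have hbound : ∀ m, P m → m ≤ S.card := by
    rintro m ⟨l, rfl, hnd, hS, _⟩
    rw [← List.toFinset_card_of_nodup hnd]
    exact Finset.card_le_card fun x hx => hS x (List.mem_toFinset.mp hx)
  have hP1 : P 1 := by
    obtain ⟨v, hv⟩ := hne
    exact ⟨[v], rfl, List.nodup_singleton v, by simp [hv], List.isChain_singleton v⟩
  have hm : P (Nat.findGreatest P S.card) := Nat.findGreatest_spec (hbound 1 hP1) hP1
  have hmax : ¬ P (Nat.findGreatest P S.card + 1) := fun h =>
    Nat.findGreatest_is_greatest (Nat.lt_succ_self _) (hbound _ h) h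
  have hm1 : 1 ≤ Nat.findGreatest P S.card := Nat.le_findGreatest (hbound 1 hP1) hP1
  obtain ⟨l, hl, hnd, hS, hc⟩ := hm
  have hpos : 0 < l.length := by omega
  have hv0 : l[0] ∈ S := hS _ (List.getElem_mem _)
  have hnb : ∀ u ∈ S, G.Adj l[0] u → u ∈ l := by
    intro u hu hadj
    by_contra hul
    refine hmax ⟨u :: l, by rw [List.length_cons, hl], List.nodup_cons.mpr ⟨hul, hnd⟩, ?_, ?_⟩
    · intro x hx
      rcases List.mem_cons.mp hx with rfl | hx
      · exact hu
      · exact hS x hx
    · rw [List.isChain_iff_getElem]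
      intro i hi
      cases i with
      | zero => simpa using hadj.symm
      | succ i =>
        rw [List.isChain_iff_getElem] at hc
        have := hc i (by simpa using hi)
        simpa using this
  have h2 : 1 < (S.filter fun u => G.Adj l[0] u).card := by
    have := hdeg _ hv0
    unfold dn at this
    omega
  obtain ⟨u, hu, hne1⟩ := Finset.exists_mem_ne h2 (l.getD 1 l[0])
  rw [Finset.mem_filter] at hu
  obtain ⟨i, hi, hiu⟩ := List.mem_iff_getElem.mp (hnb u hu.1 hu.2)
  have hi0 : i ≠ 0 := by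
    rintro rfl
    rw [← hiu] at hu
    exact G.irrefl hu.2
  have hi1 : i ≠ 1 := by
    rintro rfl
    apply hne1
    rw [← hiu, List.getD_eq_getElem _ _ hi]
  refine ⟨i + 1, fun k => l[k.1]'(by omega), by omega, ?_, fun k => hS _ (List.getElem_mem _),
    ?_, ?_, ?_⟩
  · have := hbound _ ⟨l, hl, hnd, hS, hc⟩
    omega
  · intro a b hab
    have := (List.Nodup.getElem_inj_iff hnd).mp hab
    exact Fin.ext this
  · intro a b hab
    rw [List.isChain_iff_getElem] at hc
    have h3 := hc a.1 (by omega)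
    simp only [hab]
    exact h3
  · intro a b ha hb
    have ha' : a.1 = i := by omega
    simp only [ha', hb]
    rw [hiu]
    exact hu.2.symm

end Pool.Agent.PHer

end

section

set_option autoImplicit false

namespace Pool.Agent.PHer

open Pool.Agent.PEmb Pool.Agent.PReg

/-- D16: graphs of small tree width and minimum degree at least four contain short cycles. -/
theorem D16 (hD5 : PD5) (hD14 : PD14) (hD15 : PD15) : PD16 := by
  classical
  intro V _ G w W htw hW hdeg
  by_cases hc : W.card < w + 2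
  · obtain ⟨j, c, h3, hj, hcW, hcyc⟩ := hD15 G W hW (fun v hv => by have := hdeg v hv; omega)
    exact ⟨j, c, h3, by omega, hcW, hcyc⟩
  · obtain ⟨U, hUW, X, hXW, hU1, hU2, hX, hUX⟩ := hD14 G w (w + 2) W htw (by omega) (by omega)
    have hTc : (U ∪ X).card ≤ U.card + X.card := Finset.card_union_le U X
    have hdn : ∀ v ∈ U, 4 ≤ dn G (U ∪ X) v := by
      intro v hv
      refine (hdeg v (hUW hv)).trans (Finset.card_le_card ?_)
      intro u hu
      rw [Finset.mem_filter] at hu ⊢
      exact ⟨Finset.mem_union.mpr (hUX v hv u hu.1 hu.2), hu.2⟩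
    have he : 4 * U.card ≤ e2 G (U ∪ X) := by
      have h1 : ∑ v ∈ U, dn G (U ∪ X) v ≤ ∑ v ∈ U ∪ X, dn G (U ∪ X) v :=
        Finset.sum_le_sum_of_subset Finset.subset_union_left
      have h2 : U.card • 4 ≤ ∑ v ∈ U, dn G (U ∪ X) v := Finset.card_nsmul_le_sum _ _ _ hdn
      rw [smul_eq_mul] at h2
      unfold e2
      omega
    obtain ⟨S', hS', hne, hd⟩ := hD5 G (U ∪ X) 1 (by omega)
    obtain ⟨j, c, h3, hj, hcS, hcyc⟩ := hD15 G S' hne hd
    have hSc := Finset.card_le_card hS'
    refine ⟨j, c, h3, by omega, fun i => ?_, hcyc⟩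
    exact (Finset.union_subset hUW hXW) (hS' (hcS i))

end Pool.Agent.PHer

end

section

/-!
# Item D18 : a balanced bipartite situation
-/

set_option autoImplicit false

namespace Pool.Agent.PHer

open Pool.Agent.PEmb Pool.Agent.PReg

namespace ItD18

theorem dn_mono {V : Type} (G : SimpleGraph V) {S T : Finset V} (h : S ⊆ T) (v : V) :
    dn G S v ≤ dn G T v := by
  classical
  unfold dn
  exact Finset.card_le_card (Finset.filter_subset_filter _ h)

end ItD18

open ItD18 in
theorem D18 (hD4 : PD4) (hD6 : PD6) : PD18 := by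
  intro V G k m U X Y hk hXU hYU hX hX4 hXk hXY
  obtain ⟨X1, hX1X, hind, hcard⟩ := hD6 G X (4 * k) fun x hx =>
    (dn_mono G hXU x).trans (hX4 x hx)
  have hXpos : 0 < X.card := Finset.card_pos.2 hX
  have hX1pos : 0 < X1.card := by
    rcases Nat.eq_zero_or_pos X1.card with h0 | h0
    · rw [h0] at hcard; omega
    · exact h0
  have h1 : X.card ≤ 5 * (k * X1.card) := by
    refine hcard.trans ?_
    nlinarith
  have h2 : 10 * (m * Y.card) ≤ k * X1.card := by
    have : 400 * (m * Y.card) ≤ 8 * X.card := by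
      have e : 400 * (m * Y.card) = 400 * m * Y.card := by ring
      rw [e]; exact hXY
    omega
  have h3 : k * X1.card ≤ 2 * ∑ x ∈ X1, dn G Y x := by
    rw [Finset.mul_sum, mul_comm k, ← smul_eq_mul, ← Finset.sum_const]
    exact Finset.sum_le_sum fun x hx => hXk x (hX1X hx)
  have ha : 8 * ((k + 7) / 8) ≤ k + 7 := Nat.mul_div_le _ _
  have ha' : k ≤ 8 * ((k + 7) / 8) := by omega
  have h4 : (k + 7) / 8 * X1.card + m * Y.card < ∑ x ∈ X1, dn G Y x := by
    have h5 : 8 * ((k + 7) / 8 * X1.card) ≤ k * X1.card + 7 * X1.card := by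
      calc 8 * ((k + 7) / 8 * X1.card) = (8 * ((k + 7) / 8)) * X1.card := by ring
        _ ≤ (k + 7) * X1.card := Nat.mul_le_mul_right _ ha
        _ = k * X1.card + 7 * X1.card := by ring
    have h6 : 8 * X1.card ≤ k * X1.card := Nat.mul_le_mul_right _ hk
    omega
  obtain ⟨X', hX'X1, Y', hY'Y, hX'n, hY'n, hdx, hdy⟩ := hD4 G X1 Y _ _ h4
  refine ⟨X', hX'X1.trans hX1X, Y', hY'Y, hX'n, hY'n, ?_, ?_, ?_, hdy⟩
  · intro x hx y hy
    exact hind x (hX'X1 hx) y (hX'X1 hy)
  · intro x hx
    exact (dn_mono G (hY'Y.trans hYU) x).trans (hX4 x (hX1X (hX'X1 hx)))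
  · intro x hx
    have := hdx x hx
    omega

end Pool.Agent.PHer

end

section

set_option autoImplicit false

namespace Pool.Agent.PHer

open Pool.Agent.PEmb Pool.Agent.PReg

namespace ItD19

open Classical in
/-- the vertices which destroy a pair -/
noncomputable def Fq {V : Type} (G : SimpleGraph V) (o : V → ℕ) (Y : Finset V) (x y y' : V) :
    Finset V :=
  Y.filter fun u => (u ≠ y ∧ u ≠ y') ∧
    (G.Adj x u ∨ (G.Adj y u ∧ o y < o u) ∨ (G.Adj y' u ∧ o y' < o u))

theorem card_Fq {V : Type} (G : SimpleGraph V) (o : V → ℕ) (Y : Finset V) (x y y' : V) :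
    (Fq G o Y x y y').card ≤ dn G Y x + dout G o Y y + dout G o Y y' := by
  classical
  unfold dn dout
  refine le_trans (Finset.card_le_card (t := (Y.filter (fun u => G.Adj x u) ∪
    Y.filter (fun u => G.Adj y u ∧ o y < o u)) ∪ Y.filter (fun u => G.Adj y' u ∧ o y' < o u)) ?_) ?_
  · intro u hu
    simp only [Fq, Finset.mem_filter] at hu
    simp only [Finset.mem_union, Finset.mem_filter]
    tauto
  · refine (Finset.card_union_le _ _).trans ?_
    have := Finset.card_union_le (Y.filter (fun u => G.Adj x u))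
      (Y.filter (fun u => G.Adj y u ∧ o y < o u))
    omega

theorem good {V : Type} (G : SimpleGraph V) (o : V → ℕ) (X Y R : Finset V) (x y y' : V)
    [DecidableEq V] (hx : x ∈ X) (hxy : G.Adj x y) (hxy' : G.Adj x y') (hne : y ≠ y')
    (hna : ¬ G.Adj y y') (hy : y ∈ Y) (hy' : y' ∈ Y) (hyR : y ∈ R) (hyR' : y' ∈ R)
    (hF : ∀ u ∈ Fq G o Y x y y', u ∉ R) : Gd G o X (Y ∩ R) y y' := by
  refine ⟨Finset.mem_inter.2 ⟨hy, hyR⟩, Finset.mem_inter.2 ⟨hy', hyR'⟩, hne, ?_, ?_, x, hx, hxy,
    hxy', ?_⟩
  · intro u hu hadj hlt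
    rw [Finset.mem_inter] at hu
    refine hF u ?_ hu.2
    simp only [Fq, Finset.mem_filter]
    refine ⟨hu.1, ⟨?_, ?_⟩, Or.inr (Or.inl ⟨hadj, hlt⟩)⟩
    · rintro rfl; exact G.loopless.irrefl _ hadj
    · rintro rfl; exact hna hadj
  · intro u hu hadj hlt
    rw [Finset.mem_inter] at hu
    refine hF u ?_ hu.2
    simp only [Fq, Finset.mem_filter]
    refine ⟨hu.1, ⟨?_, ?_⟩, Or.inr (Or.inr ⟨hadj, hlt⟩)⟩
    · rintro rfl; exact hna hadj.symm
    · rintro rfl; exact G.loopless.irrefl _ hadj
  · intro u hu hadj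
    rw [Finset.mem_inter] at hu
    by_contra hcon
    push Not at hcon
    refine hF u ?_ hu.2
    simp only [Fq, Finset.mem_filter]
    exact ⟨hu.1, hcon, Or.inl hadj⟩

end ItD19

open ItD19 in
theorem D19 (hD2 : PD2) (hD7 : PD7) (hD8 : PD8) : PD19 := by
  classical
  intro t s
  rcases Nat.eq_zero_or_pos t with ht | ht
  · refine ⟨0, 0, ?_⟩
    intro V _ G k o X Y _ hbic
    exfalso
    subst ht
    exact hbic ∅ ∅ (by simp) (by simp) (by simp)
  set m : ℕ := 16 * t * (24 * s + 4) with hm
  set C : ℕ := m.choose t with hC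
  refine ⟨m, 16 * t * C + 16, ?_⟩
  intro V _ G k o X Y hk hbic hYne hdisj hinj hdout hdn4 hdn8 hm_le
  have hk16 : 16 ≤ k := by omega
  have hkC : 16 * t * C ≤ k := by omega
  -- the sets R_y
  have hR : ∀ y, ∃ R : Finset V, y ∈ Y → (R ⊆ X.filter (fun u => G.Adj y u) ∧ R.card = m) := by
    intro y
    by_cases hy : y ∈ Y
    · have h1 := hm_le y hy
      unfold dn at h1
      obtain ⟨R, hR1, hR2⟩ := Finset.exists_subset_card_eq h1
      exact ⟨R, fun _ => ⟨hR1, hR2⟩⟩
    · exact ⟨∅, fun h => absurd h hy⟩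
  choose R hR using hR
  set W : V → Finset V := fun y => (Y.filter fun y' => ∃ x ∈ R y, G.Adj x y').erase y with hW
  have hWcard : ∀ y ∈ Y, (24 * s + 4) * k ≤ (W y).card + 1 := by
    intro y hy
    have h7 := hD7 G t ((k + 7) / 8) (R y) Y hbic (by
      intro x hx
      have hxX : x ∈ X := (Finset.mem_filter.1 ((hR y hy).1 hx)).1
      have := hdn8 x hxX
      omega)
    rw [(hR y hy).2, ← hC] at h7
    have h8 : (Y.filter fun y' => ∃ x ∈ R y, G.Adj x y').card ≤ (W y).card + 1 := by
      have h8' := Finset.pred_card_le_card_erase (s := Y.filter fun y' => ∃ x ∈ R y, G.Adj x y')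
        (a := y)
      have h8'' : (W y).card = ((Y.filter fun y' => ∃ x ∈ R y, G.Adj x y').erase y).card := rfl
      omega
    have h9 : k ≤ 8 * ((k + 7) / 8) := by omega
    have h10 : t * (Y.filter fun y' => ∃ x ∈ R y, G.Adj x y').card ≤ t * ((W y).card + 1) :=
      Nat.mul_le_mul_left _ h8
    have h11 : m * k ≤ 8 * (t * ((W y).card + 1)) + 8 * (m * (t * C)) := by
      calc m * k ≤ m * (8 * ((k + 7) / 8)) := Nat.mul_le_mul_left _ h9
        _ = 8 * (m * ((k + 7) / 8)) := by ring
        _ ≤ 8 * (t * ((W y).card + 1) + m * (t * C)) := by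
            apply Nat.mul_le_mul_left
            refine h7.trans ?_
            omega
        _ = _ := by ring
    have h12 : 16 * (m * (t * C)) ≤ m * k := by
      calc 16 * (m * (t * C)) = m * (16 * t * C) := by ring
        _ ≤ m * k := Nat.mul_le_mul_left _ hkC
    have h13 : m * k ≤ 16 * (t * ((W y).card + 1)) := by omega
    have h14 : (16 * t) * ((24 * s + 4) * k) ≤ (16 * t) * ((W y).card + 1) := by
      calc (16 * t) * ((24 * s + 4) * k) = m * k := by rw [hm]; ring
        _ ≤ 16 * (t * ((W y).card + 1)) := h13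
        _ = _ := by ring
    exact Nat.le_of_mul_le_mul_left h14 (by omega)
  -- the pairs
  set P : Finset (Σ _ : V, V) := Y.sigma fun y => (W y).filter fun y' => ¬ G.Adj y y' with hP
  have hPcard : Y.card * ((24 * s + 1) * k) ≤ P.card := by
    have h1 : e2 G Y ≤ 2 * k * Y.card := hD2 G k o Y hinj hdout
    have h2 : ∀ y ∈ Y, (W y).card ≤ ((W y).filter fun y' => ¬ G.Adj y y').card + dn G Y y := by
      intro y _
      have h3 := Finset.card_filter_add_card_filter_not (s := W y) (fun y' => G.Adj y y')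
      have h4 : ((W y).filter fun y' => G.Adj y y').card ≤ dn G Y y := by
        unfold dn
        apply Finset.card_le_card
        intro u hu
        simp only [hW, Finset.mem_filter, Finset.mem_erase] at hu ⊢
        exact ⟨hu.1.2.1, hu.2⟩
      omega
    have h5 : ∑ y ∈ Y, (W y).card ≤ P.card + e2 G Y := by
      rw [hP, Finset.card_sigma]
      unfold e2
      rw [← Finset.sum_add_distrib]
      exact Finset.sum_le_sum h2
    have h6 : Y.card * ((24 * s + 4) * k) ≤ ∑ y ∈ Y, (W y).card + Y.card := by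
      have h7 : ∑ y ∈ Y, ((24 * s + 4) * k) ≤ ∑ y ∈ Y, ((W y).card + 1) :=
        Finset.sum_le_sum hWcard
      rw [Finset.sum_const, smul_eq_mul, Finset.sum_add_distrib, Finset.sum_const,
        smul_eq_mul, mul_one] at h7
      exact h7
    have h8 : Y.card * ((24 * s + 4) * k) = Y.card * ((24 * s + 1) * k) + 3 * (Y.card * k) := by
      ring
    have h9 : 2 * k * Y.card = 2 * (Y.card * k) := by ring
    have h10 : Y.card ≤ Y.card * k := Nat.le_mul_of_pos_right _ (by omega)
    omega
  have hPmem : ∀ q ∈ P, q.1 ∈ Y ∧ q.2 ∈ Y ∧ q.1 ≠ q.2 ∧ (∃ x ∈ R q.1, G.Adj x q.2) ∧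
      ¬ G.Adj q.1 q.2 := by
    intro q hq
    simp only [hP, hW, Finset.mem_sigma, Finset.mem_filter, Finset.mem_erase] at hq
    exact ⟨hq.1, hq.2.1.2.1, fun h => hq.2.1.1 h.symm, hq.2.1.2.2, hq.2.2⟩
  have hx : ∀ q : (Σ _ : V, V), ∃ x, q ∈ P → (x ∈ X ∧ G.Adj x q.1 ∧ G.Adj x q.2) := by
    intro q
    by_cases hq : q ∈ P
    · obtain ⟨h1, _, _, ⟨x, hx, hxa⟩, _⟩ := hPmem q hq
      refine ⟨x, fun _ => ?_⟩
      have h2 := Finset.mem_filter.1 ((hR q.1 h1).1 hx)
      exact ⟨h2.1, h2.2.symm, hxa⟩
    · exact ⟨q.1, fun h => absurd h hq⟩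
  choose x hx using hx
  set T : Finset (Σ _ : (Σ _ : V, V), V) := P.sigma fun q => Fq G o Y (x q) q.1 q.2 with hT
  have hTcard : T.card ≤ P.card * (6 * k) := by
    rw [hT, Finset.card_sigma, ← smul_eq_mul, ← Finset.sum_const]
    apply Finset.sum_le_sum
    intro q hq
    have h1 := card_Fq G o Y (x q) q.1 q.2
    obtain ⟨hq1, hq2, _⟩ := hPmem q hq
    have h2 := hdn4 (x q) (hx q hq).1
    have h3 := hdout q.1 hq1
    have h4 := hdout q.2 hq2
    omega
  -- random choice
  set J : Finset ((Σ _ : V, V) ⊕ ((Σ _ : (Σ _ : V, V), V) ⊕ V)) := P.disjSum (T.disjSum Y) with hJ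
  set c : (Σ _ : V, V) ⊕ ((Σ _ : (Σ _ : V, V), V) ⊕ V) → ℝ :=
    Sum.elim (fun _ => 1) (Sum.elim (fun _ => -1) (fun _ => -(s : ℝ))) with hc
  set A : (Σ _ : V, V) ⊕ ((Σ _ : (Σ _ : V, V), V) ⊕ V) → Finset V :=
    Sum.elim (fun q => {q.1, q.2}) (Sum.elim (fun q => {q.1.1, q.1.2, q.2}) (fun y => {y})) with hA
  have hkpos : (0 : ℝ) < k := by
    have : 0 < k := by omega
    exact_mod_cast this
  have hkR : (16 : ℝ) ≤ k := by exact_mod_cast hk16
  set p : ℝ := 1 / (12 * k) with hp
  have hp0 : 0 < p := by positivity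
  have hp1 : p ≤ 1 := by
    rw [hp, div_le_one (by positivity)]
    linarith
  have hYpos : (0 : ℝ) < Y.card := by exact_mod_cast hYne.card_pos
  have hsum : 0 < ∑ i ∈ J, c i * p ^ (A i).card := by
    rw [hJ, Finset.sum_disjSum, Finset.sum_disjSum]
    have h1 : ∑ q ∈ P, c (Sum.inl q) * p ^ (A (Sum.inl q)).card = P.card * p ^ 2 := by
      rw [← nsmul_eq_mul, ← Finset.sum_const]
      apply Finset.sum_congr rfl
      intro q hq
      have h2 := (hPmem q hq).2.2.1
      simp only [hc, hA, Sum.elim_inl, one_mul]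
      rw [Finset.card_pair h2]
    have h3 : ∑ q ∈ T, c (Sum.inr (Sum.inl q)) * p ^ (A (Sum.inr (Sum.inl q))).card =
        -(T.card * p ^ 3) := by
      rw [← nsmul_eq_mul, ← Finset.sum_const, ← Finset.sum_neg_distrib]
      apply Finset.sum_congr rfl
      intro q hq
      simp only [hT, Finset.mem_sigma, Fq, Finset.mem_filter] at hq
      have h2 := (hPmem q.1 hq.1).2.2.1
      simp only [hc, hA, Sum.elim_inl, Sum.elim_inr]
      rw [Finset.card_eq_three.2 ⟨q.1.1, q.1.2, q.2, h2, fun h => hq.2.2.1.1 h.symm,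
        fun h => hq.2.2.1.2 h.symm, rfl⟩]
      ring
    have h4 : ∑ y ∈ Y, c (Sum.inr (Sum.inr y)) * p ^ (A (Sum.inr (Sum.inr y))).card =
        -(Y.card * (s * p)) := by
      rw [← nsmul_eq_mul, ← Finset.sum_const, ← Finset.sum_neg_distrib]
      apply Finset.sum_congr rfl
      intro y _
      simp only [hc, hA, Sum.elim_inr]
      rw [Finset.card_singleton]
      ring
    rw [h1, h3, h4]
    have h5 : (T.card : ℝ) ≤ P.card * (6 * k) := by exact_mod_cast hTcard
    have h6 : (Y.card : ℝ) * ((24 * s + 1) * k) ≤ P.card := by exact_mod_cast hPcard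
    have h7 : (T.card : ℝ) * p ^ 3 ≤ P.card * (6 * k) * p ^ 3 :=
      mul_le_mul_of_nonneg_right h5 (by positivity)
    have h8 : (P.card : ℝ) * (6 * k) * p ^ 3 = P.card * p ^ 2 / 2 := by
      have : (k : ℝ) * p = 1 / 12 := by rw [hp]; field_simp
      calc (P.card : ℝ) * (6 * k) * p ^ 3 = P.card * p ^ 2 * (6 * (k * p)) := by ring
        _ = _ := by rw [this]; ring
    have h9 : (Y.card : ℝ) * ((24 * s + 1) * k) * (p ^ 2 / 2) ≤ P.card * (p ^ 2 / 2) :=
      mul_le_mul_of_nonneg_right h6 (by positivity)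
    have h10 : (Y.card : ℝ) * ((24 * s + 1) * k) * (p ^ 2 / 2) = Y.card * p * (s + 1 / 24) := by
      have : (k : ℝ) * p = 1 / 12 := by rw [hp]; field_simp
      calc (Y.card : ℝ) * ((24 * s + 1) * k) * (p ^ 2 / 2) =
          Y.card * p * (24 * s + 1) * (k * p) / 2 := by ring
        _ = _ := by rw [this]; ring
    have h11 : 0 < (Y.card : ℝ) * p * (1 / 24) := by positivity
    nlinarith
  obtain ⟨Q, hQ⟩ := hD8 p hp0.le hp1 J c A hsum
  refine ⟨Y ∩ Q, Finset.inter_subset_left, ?_⟩
  -- compute the sum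
  have hfil : J.filter (fun i => A i ⊆ Q) =
      (P.filter fun q => q.1 ∈ Q ∧ q.2 ∈ Q).disjSum
        ((T.filter fun q => q.1.1 ∈ Q ∧ q.1.2 ∈ Q ∧ q.2 ∈ Q).disjSum (Y ∩ Q)) := by
    ext i
    rcases i with q | q | y
    · simp only [hJ, hA, Finset.mem_filter, Finset.inl_mem_disjSum, Sum.elim_inl,
        Finset.insert_subset_iff, Finset.singleton_subset_iff]
    · simp only [hJ, hA, Finset.mem_filter, Finset.inr_mem_disjSum, Finset.inl_mem_disjSum,
        Sum.elim_inl, Sum.elim_inr, Finset.insert_subset_iff, Finset.singleton_subset_iff]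
    · simp only [hJ, hA, Finset.mem_filter, Finset.inr_mem_disjSum,
        Sum.elim_inr, Finset.singleton_subset_iff, Finset.mem_inter]
  rw [hfil, Finset.sum_disjSum, Finset.sum_disjSum] at hQ
  simp only [hc, Sum.elim_inl, Sum.elim_inr, Finset.sum_const, nsmul_eq_mul, mul_one] at hQ
  set P' := P.filter fun q => q.1 ∈ Q ∧ q.2 ∈ Q with hP'
  set T' := T.filter fun q => q.1.1 ∈ Q ∧ q.1.2 ∈ Q ∧ q.2 ∈ Q with hT'
  set Gs := ((Y ∩ Q) ×ˢ (Y ∩ Q)).filter fun p => Gd G o X (Y ∩ Q) p.1 p.2 with hGs
  have hle : P'.card ≤ Gs.card + T'.card := by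
    have h1 := Finset.card_filter_add_card_filter_not (s := P')
      (fun q => ∀ u ∈ Fq G o Y (x q) q.1 q.2, u ∉ Q)
    have h2 : (P'.filter fun q => ∀ u ∈ Fq G o Y (x q) q.1 q.2, u ∉ Q).card ≤ Gs.card := by
      apply Finset.card_le_card_of_injOn (fun q => (q.1, q.2))
      · intro q hq
        simp only [hP', Finset.coe_filter, Set.mem_ofPred_eq, Finset.mem_filter] at hq
        obtain ⟨⟨hqP, hq1, hq2⟩, hqF⟩ := hq
        obtain ⟨g1, g2, g3, _, g5⟩ := hPmem q hqP
        obtain ⟨x1, x2, x3⟩ := hx q hqP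
        simp only [hGs, Finset.coe_filter, Set.mem_ofPred_eq, Finset.mem_product]
        refine ⟨⟨Finset.mem_inter.2 ⟨g1, hq1⟩, Finset.mem_inter.2 ⟨g2, hq2⟩⟩, ?_⟩
        exact good G o X Y Q (x q) q.1 q.2 x1 x2 x3 g3 g5 g1 g2 hq1 hq2 hqF
      · intro q _ q' _ h
        simp only [Prod.mk.injEq] at h
        exact Sigma.ext h.1 (heq_of_eq h.2)
    have h3 : (P'.filter fun q => ¬ ∀ u ∈ Fq G o Y (x q) q.1 q.2, u ∉ Q).card ≤ T'.card := by
      have hu : ∀ q : (Σ _ : V, V), ∃ u, (¬ ∀ u ∈ Fq G o Y (x q) q.1 q.2, u ∉ Q) →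
          u ∈ Fq G o Y (x q) q.1 q.2 ∧ u ∈ Q := by
        intro q
        by_cases h : ∀ u ∈ Fq G o Y (x q) q.1 q.2, u ∉ Q
        · exact ⟨q.1, fun h' => absurd h h'⟩
        · push Not at h
          obtain ⟨u, hu⟩ := h
          exact ⟨u, fun _ => hu⟩
      choose u hu using hu
      apply Finset.card_le_card_of_injOn (fun q => (⟨q, u q⟩ : (Σ _ : (Σ _ : V, V), V)))
      · intro q hq
        simp only [hP', Finset.coe_filter, Set.mem_ofPred_eq, Finset.mem_filter] at hq
        obtain ⟨⟨hqP, hq1, hq2⟩, hqF⟩ := hq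
        have := hu q hqF
        simp only [hT', hT, Finset.coe_filter, Set.mem_ofPred_eq, Finset.mem_sigma]
        exact ⟨⟨hqP, this.1⟩, hq1, hq2, this.2⟩
      · intro q _ q' _ h
        simp only [Sigma.mk.injEq] at h
        exact h.1
    omega
  have hleR : (P'.card : ℝ) ≤ Gs.card + T'.card := by exact_mod_cast hle
  have hfin : (s : ℝ) * (Y ∩ Q).card < Gs.card := by linarith
  exact_mod_cast hfin

end Pool.Agent.PHer

end

section

/-!
# The number of edges of a degenerate graph
-/

set_option autoImplicit false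

namespace Pool.Agent.PHer

open Pool.Agent.PEmb Pool.Agent.PReg

namespace ItD2

open Classical in
/-- The neighbours split into the later and the earlier ones. -/
theorem dn_le {V : Type} (G : SimpleGraph V) (o : V → ℕ) (T : Finset V)
    (hinj : ∀ u ∈ T, ∀ v ∈ T, o u = o v → u = v) (v : V) (hv : v ∈ T) :
    dn G T v ≤ dout G o T v + (T.filter fun u => G.Adj v u ∧ o u < o v).card := by
  unfold dn dout
  refine le_trans (Finset.card_le_card ?_) (Finset.card_union_le _ _)
  intro u hu
  rw [Finset.mem_filter] at hu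
  rw [Finset.mem_union, Finset.mem_filter, Finset.mem_filter]
  rcases lt_trichotomy (o v) (o u) with h | h | h
  · exact Or.inl ⟨hu.1, hu.2, h⟩
  · exact absurd (hinj v hv u hu.1 h) (G.ne_of_adj hu.2)
  · exact Or.inr ⟨hu.1, hu.2, h⟩

open Classical in
/-- Double counting. -/
theorem swap {V : Type} (G : SimpleGraph V) (o : V → ℕ) (T : Finset V) :
    ∑ v ∈ T, (T.filter fun u => G.Adj v u ∧ o u < o v).card = ∑ v ∈ T, dout G o T v := by
  unfold dout
  simp only [Finset.card_filter]
  rw [Finset.sum_comm]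
  refine Finset.sum_congr rfl fun u _ => Finset.sum_congr rfl fun v _ => ?_
  have h : (G.Adj v u ∧ o u < o v) ↔ (G.Adj u v ∧ o u < o v) := by
    rw [G.adj_comm v u]
  simp only [h]

end ItD2

open Classical in
theorem D2 : PD2 := by
  intro V G k o T hinj hk
  have h1 : e2 G T ≤ ∑ v ∈ T, (dout G o T v +
      (T.filter fun u => G.Adj v u ∧ o u < o v).card) := by
    unfold e2
    exact Finset.sum_le_sum fun v hv => ItD2.dn_le G o T hinj v hv
  rw [Finset.sum_add_distrib, ItD2.swap G o T] at h1
  have h2 : ∑ v ∈ T, dout G o T v ≤ T.card * k := by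
    have := Finset.sum_le_card_nsmul T (fun v => dout G o T v) k hk
    simpa using this
  calc e2 G T ≤ ∑ v ∈ T, dout G o T v + ∑ v ∈ T, dout G o T v := h1
    _ ≤ T.card * k + T.card * k := Nat.add_le_add h2 h2
    _ = 2 * k * T.card := by ring

end Pool.Agent.PHer

end

section

/-!
# D22: a code of an induced subgraph with a grid minor
-/

set_option autoImplicit false

namespace Pool.Agent.PHer

open Pool.Agent.PEmb Pool.Agent.PReg

namespace ItD22

lemma mk_entry (n : ℕ) (F : ℕ → ℕ → Bool) (i j : ℕ) (hi : i < n) (hj : j < n) :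
    entry ((List.range n).map (fun i => (List.range n).map (fun j => F i j))) i j = F i j := by
  unfold entry
  simp [List.getD_eq_getElem?_getD, hi, hj]

open Classical in
/-- a code of the induced subgraph -/
lemma code {V : Type} [Finite V] (G : SimpleGraph V) (S : Set V) :
    ∃ (A : Code) (φ : Fin A.length ≃ S), ∀ x y : Fin A.length,
      (graph A).Adj x y ↔ G.Adj (φ x).1 (φ y).1 := by
  obtain ⟨n, ⟨e⟩⟩ := Finite.exists_equiv_fin S
  set F : ℕ → ℕ → Bool := fun i j =>
    decide (∃ (hi : i < n) (hj : j < n), G.Adj (e.symm ⟨i, hi⟩).1 (e.symm ⟨j, hj⟩).1) with hF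
  set A : Code := (List.range n).map (fun i => (List.range n).map (fun j => F i j)) with hA
  have hlen : A.length = n := by simp [hA]
  refine ⟨A, (finCongr hlen).trans e.symm, ?_⟩
  intro x y
  have hx : (x : ℕ) < n := by rw [← hlen]; exact x.2
  have hy : (y : ℕ) < n := by rw [← hlen]; exact y.2
  have e1 : entry A x y = F x y := mk_entry n F x y hx hy
  have e2 : entry A y x = F y x := mk_entry n F y x hy hx
  have f1 : (finCongr hlen).trans e.symm x = e.symm ⟨x, hx⟩ := rfl
  have f2 : (finCongr hlen).trans e.symm y = e.symm ⟨y, hy⟩ := rfl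
  show (x ≠ y ∧ (entry A x y = true ∨ entry A y x = true)) ↔ _
  rw [e1, e2, f1, f2]
  constructor
  · rintro ⟨_, h | h⟩
    · obtain ⟨_, _, h1⟩ := of_decide_eq_true h
      exact h1
    · obtain ⟨_, _, h1⟩ := of_decide_eq_true h
      exact h1.symm
  · intro h
    refine ⟨?_, Or.inl ?_⟩
    · intro hxy
      subst hxy
      exact h.ne rfl
    · exact decide_eq_true ⟨hx, hy, h⟩

/-- a connected set with a vertex in `S` is contained in `S` -/
lemma sub {V : Type} (G : SimpleGraph V) (S T : Set V) (hT : ((rs G S).induce T).Connected)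
    (a : V) (ha : a ∈ T) (haS : a ∈ S) : T ⊆ S := by
  intro v hv
  by_cases hva : v = a
  · rw [hva]
    exact haS
  · obtain ⟨p⟩ := hT.preconnected ⟨v, hv⟩ ⟨a, ha⟩
    cases p with
    | nil => exact absurd rfl hva
    | cons h _ => exact h.2.1

end ItD22

theorem D22 : PD22 := by
  intro V hfin G S K B hK hdeg hB
  obtain ⟨A, φ, hadj⟩ := ItD22.code G S
  have hsub : ∀ x y, x < K → y < K → B x y ⊆ S := by
    intro x y hx hy
    rcases Nat.lt_or_ge (x + 1) K with h | h
    · obtain ⟨a, ha, b, hb, hab⟩ := hB.hor x y h hy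
      exact ItD22.sub G S _ (hB.conn x y hx hy) a ha hab.2.1
    · have hx1 : x - 1 + 1 = x := by omega
      obtain ⟨a, ha, b, hb, hab⟩ := hB.hor (x - 1) y (by omega) hy
      rw [hx1] at hb
      exact ItD22.sub G S _ (hB.conn x y hx hy) b hb hab.2.2
  have hinj : Function.Injective fun x : Fin A.length => (φ x).1 := by
    intro x y h
    exact φ.injective (Subtype.ext h)
  refine ⟨A, fun x => (φ x).1, hinj, hadj, ?_, fun x y => {z | (φ z).1 ∈ B x y}, ?_, ?_, ?_, ?_⟩
  · intro v
    refine le_trans ?_ (hdeg (φ v).1)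
    refine Set.ncard_le_ncard_of_injOn (fun x : Fin A.length => (φ x).1) ?_ hinj.injOn
      (Set.toFinite _)
    intro u hu
    exact ⟨(hadj v u).1 hu, (φ v).2, (φ u).2⟩
  · intro x y hx hy
    have hc := hB.conn x y hx hy
    let ψ : (rs G S).induce (B x y) →g (graph A).induce {z | (φ z).1 ∈ B x y} :=
      { toFun := fun v => ⟨φ.symm ⟨v.1, hsub x y hx hy v.2⟩, by
          show (φ (φ.symm ⟨v.1, hsub x y hx hy v.2⟩)).1 ∈ B x y
          rw [Equiv.apply_symm_apply]
          exact v.2⟩
        map_rel' := by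
          intro u v huv
          show (graph A).Adj (φ.symm ⟨u.1, _⟩) (φ.symm ⟨v.1, _⟩)
          rw [hadj, Equiv.apply_symm_apply, Equiv.apply_symm_apply]
          exact huv.1 }
    refine hc.map ψ ?_
    rintro ⟨z, hz⟩
    refine ⟨⟨(φ z).1, hz⟩, Subtype.ext ?_⟩
    show φ.symm ⟨(φ z).1, _⟩ = z
    exact φ.symm_apply_apply z
  · intro x y x' y' hx hy hx' hy' hne
    rw [Set.disjoint_left]
    intro z hz hz'
    exact Set.disjoint_left.1 (hB.disj x y x' y' hx hy hx' hy' hne) hz hz'
  · intro x y hx hy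
    obtain ⟨a, ha, b, hb, hab⟩ := hB.hor x y hx hy
    refine ⟨φ.symm ⟨a, hab.2.1⟩, ?_, φ.symm ⟨b, hab.2.2⟩, ?_, ?_⟩
    · show (φ (φ.symm ⟨a, hab.2.1⟩)).1 ∈ B x y
      rw [Equiv.apply_symm_apply]
      exact ha
    · show (φ (φ.symm ⟨b, hab.2.2⟩)).1 ∈ B (x + 1) y
      rw [Equiv.apply_symm_apply]
      exact hb
    · rw [hadj, Equiv.apply_symm_apply, Equiv.apply_symm_apply]
      exact hab.1
  · intro x y hx hy
    obtain ⟨a, ha, b, hb, hab⟩ := hB.ver x y hx hy
    refine ⟨φ.symm ⟨a, hab.2.1⟩, ?_, φ.symm ⟨b, hab.2.2⟩, ?_, ?_⟩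
    · show (φ (φ.symm ⟨a, hab.2.1⟩)).1 ∈ B x y
      rw [Equiv.apply_symm_apply]
      exact ha
    · show (φ (φ.symm ⟨b, hab.2.2⟩)).1 ∈ B x (y + 1)
      rw [Equiv.apply_symm_apply]
      exact hb
    · rw [hadj, Equiv.apply_symm_apply, Equiv.apply_symm_apply]
      exact hab.1

end Pool.Agent.PHer

end

section

/-!
# D23: bicliques, induced bicliques and cliques
-/

set_option autoImplicit false

namespace Pool.Agent.PHer

open Pool.Agent.PEmb Pool.Agent.PReg

namespace ItD23

/-- Finite Ramsey theorem. -/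
theorem ramsey (p q : ℕ) : ∃ N : ℕ, ∀ {V : Type} (G : SimpleGraph V) (S : Finset V),
    N ≤ S.card → (∃ K ⊆ S, K.card = p ∧ G.IsClique (K : Set V)) ∨
      (∃ K ⊆ S, K.card = q ∧ Gᶜ.IsClique (K : Set V)) := by
  classical
  induction p generalizing q with
  | zero =>
    refine ⟨0, fun {V} G S _ => Or.inl ⟨∅, by simp, by simp, by simp⟩⟩
  | succ p ihp =>
    induction q with
    | zero => exact ⟨0, fun {V} G S _ => Or.inr ⟨∅, by simp, by simp, by simp⟩⟩
    | succ q ihq =>
      obtain ⟨N1, h1⟩ := ihp (q + 1)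
      obtain ⟨N2, h2⟩ := ihq
      refine ⟨N1 + N2 + 1, fun {V} G S hS => ?_⟩
      have hne : S.Nonempty := by
        rw [← Finset.card_pos]; omega
      obtain ⟨v, hv⟩ := hne
      set A := (S.erase v).filter (fun w => G.Adj v w) with hA
      set B := (S.erase v).filter (fun w => ¬ G.Adj v w) with hB
      have hAB : A.card + B.card = (S.erase v).card :=
        Finset.card_filter_add_card_filter_not _
      rw [Finset.card_erase_of_mem hv] at hAB
      by_cases hcase : N1 ≤ A.card
      · rcases h1 G A hcase with ⟨K, hK, hc, hcl⟩ | ⟨K, hK, hc, hcl⟩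
        · left
          have hvK : v ∉ K := fun h => by
            have := hK h
            simp [hA] at this
          refine ⟨insert v K, ?_, ?_, ?_⟩
          · intro w hw
            rcases Finset.mem_insert.mp hw with rfl | hw
            · exact hv
            · exact (Finset.mem_erase.mp (Finset.mem_filter.mp (hK hw)).1).2
          · rw [Finset.card_insert_of_notMem hvK, hc]
          · rw [Finset.coe_insert, SimpleGraph.isClique_insert]
            exact ⟨hcl, fun w hw _ => (Finset.mem_filter.mp (hK hw)).2⟩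
        · right
          refine ⟨K, ?_, hc, hcl⟩
          intro w hw
          exact (Finset.mem_erase.mp (Finset.mem_filter.mp (hK hw)).1).2
      · have hcase2 : N2 ≤ B.card := by omega
        rcases h2 G B hcase2 with ⟨K, hK, hc, hcl⟩ | ⟨K, hK, hc, hcl⟩
        · left
          refine ⟨K, ?_, hc, hcl⟩
          intro w hw
          exact (Finset.mem_erase.mp (Finset.mem_filter.mp (hK hw)).1).2
        · right
          have hvK : v ∉ K := fun h => by
            have := hK h
            simp [hB] at this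
          refine ⟨insert v K, ?_, ?_, ?_⟩
          · intro w hw
            rcases Finset.mem_insert.mp hw with rfl | hw
            · exact hv
            · exact (Finset.mem_erase.mp (Finset.mem_filter.mp (hK hw)).1).2
          · rw [Finset.card_insert_of_notMem hvK, hc]
          · rw [Finset.coe_insert, SimpleGraph.isClique_insert]
            refine ⟨hcl, fun w hw hne => ?_⟩
            rw [SimpleGraph.compl_adj]
            exact ⟨hne, (Finset.mem_filter.mp (hK hw)).2⟩

/-- A clique with `s` vertices gives `Kq`. -/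
theorem kq_of {V : Type} (G : SimpleGraph V) (s : ℕ) (K : Finset V) (hcard : K.card = s)
    (hcl : G.IsClique (K : Set V)) : Kq s G := by
  classical
  let e := (Finset.equivFinOfCardEq hcard).symm
  refine ⟨fun a => (e a : V), fun a b hab => ?_⟩
  refine hcl (Finset.mem_coe.mpr (e a).2) (Finset.mem_coe.mpr (e b).2) fun h => hab ?_
  exact e.injective (Subtype.ext h)

end ItD23

theorem D23 : PD23 := by
  intro s t
  obtain ⟨T, hT⟩ := ItD23.ramsey s t
  refine ⟨T, fun {V} G hK hI A B hA hB hAB => ?_⟩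
  have key : ∀ S : Finset V, S.card = T → ∃ S' ⊆ S, S'.card = t ∧
      ∀ a ∈ S', ∀ b ∈ S', ¬ G.Adj a b := by
    intro S hS
    rcases hT G S hS.ge with ⟨K, -, hc, hcl⟩ | ⟨K, hKS, hc, hcl⟩
    · exact absurd (ItD23.kq_of G s K hc hcl) hK
    · refine ⟨K, hKS, hc, fun a ha b hb hab => ?_⟩
      have h1 := hcl (Finset.mem_coe.mpr ha) (Finset.mem_coe.mpr hb) hab.ne
      rw [SimpleGraph.compl_adj] at h1
      exact h1.2 hab
  obtain ⟨A', hAA, hAc, hAi⟩ := key A hA
  obtain ⟨B', hBB, hBc, hBi⟩ := key B hB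
  exact hI A' B' hAc hBc hAi hBi fun a ha b hb => hAB a (hAA ha) b (hBB hb)

end Pool.Agent.PHer

end

section

set_option autoImplicit false

namespace Pool.Agent.PHer

open Pool.Agent.PEmb Pool.Agent.PReg

namespace ItD3

open Classical in
theorem dn_mono {V : Type} (G : SimpleGraph V) {S T : Finset V} (h : S ⊆ T) (v : V) :
    dn G S v ≤ dn G T v :=
  Finset.card_le_card (Finset.filter_subset_filter _ h)

open Classical in
theorem dn_sdiff {V : Type} (G : SimpleGraph V) {S T : Finset V} (h : S ⊆ T) (v : V) :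
    dn G T v = dn G (T \ S) v + dn G S v := by
  unfold dn
  rw [← Finset.card_union_of_disjoint]
  · congr 1
    ext u
    simp only [Finset.mem_filter, Finset.mem_union, Finset.mem_sdiff]
    constructor
    · rintro ⟨h1, h2⟩
      by_cases h3 : u ∈ S
      · exact Or.inr ⟨h3, h2⟩
      · exact Or.inl ⟨⟨h1, h3⟩, h2⟩
    · rintro (⟨⟨h1, _⟩, h2⟩ | ⟨h1, h2⟩)
      · exact ⟨h1, h2⟩
      · exact ⟨h h1, h2⟩
  · rw [Finset.disjoint_left]
    intro u h1 h2
    simp only [Finset.mem_filter, Finset.mem_sdiff] at h1 h2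
    exact h1.1.2 h2.1

theorem sum_ge {V : Type} (G : SimpleGraph V) {S T : Finset V} (h : S ⊆ T) (a : ℕ)
    (ha : ∀ v ∈ S, a ≤ dn G T v) : a * S.card ≤ e2 G T := by
  calc a * S.card = ∑ _v ∈ S, a := by rw [Finset.sum_const, smul_eq_mul, mul_comm]
    _ ≤ ∑ v ∈ S, dn G T v := Finset.sum_le_sum ha
    _ ≤ e2 G T := Finset.sum_le_sum_of_subset h

end ItD3

open Classical in
theorem D3 (hD2 : PD2) : PD3 := by
  intro V G k L o U hk hL hU hmin hinj hdout
  have he : e2 G U ≤ 2 * k * U.card := hD2 G k o U hinj hdout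
  have hn : 0 < U.card := hU.card_pos
  set X0 := U.filter (fun v => dn G U v ≤ 4 * k) with hX0
  set Y0 := U.filter (fun v => L * k < dn G U v) with hY0
  have hX0U : X0 ⊆ U := Finset.filter_subset _ _
  have hY0U : Y0 ⊆ U := Finset.filter_subset _ _
  have hdisj : Disjoint X0 Y0 := by
    rw [Finset.disjoint_left]
    intro v h1 h2
    rw [hX0, Finset.mem_filter] at h1
    rw [hY0, Finset.mem_filter] at h2
    have : 4 * k ≤ L * k := Nat.mul_le_mul_right k hL
    omega
  have hB : (4 * k + 1) * (U \ X0).card ≤ e2 G U := by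
    apply ItD3.sum_ge G Finset.sdiff_subset
    intro v hv
    rw [hX0, Finset.mem_sdiff, Finset.mem_filter] at hv
    have h1 := hv.2
    push Not at h1
    exact h1 hv.1
  have hcard : (U \ X0).card + X0.card = U.card := Finset.card_sdiff_add_card_eq_card hX0U
  have hX0n : U.card < 2 * X0.card := by
    have h1 : 2 * (U \ X0).card < U.card := by
      rcases Nat.eq_zero_or_pos (U \ X0).card with h0 | h0
      · omega
      · have h2 : 2 * k * (2 * (U \ X0).card) < 2 * k * U.card := by nlinarith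
        exact Nat.lt_of_mul_lt_mul_left h2
    omega
  have hY0n : L * Y0.card ≤ 2 * U.card := by
    have h1 : (L * k) * Y0.card ≤ e2 G U := by
      apply ItD3.sum_ge G hY0U
      intro v hv
      rw [hY0, Finset.mem_filter] at hv
      exact hv.2.le
    have h2 : k * (L * Y0.card) ≤ k * (2 * U.card) := by nlinarith
    exact Nat.le_of_mul_le_mul_left h2 hk
  set X1 := X0.filter (fun x => k ≤ 2 * dn G Y0 x) with hX1
  have hX1X0 : X1 ⊆ X0 := Finset.filter_subset _ _
  by_cases hc : X0.card ≤ 2 * X1.card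
  · right
    refine ⟨X1, hX1X0.trans hX0U, Y0, hY0U, ?_, ?_, ?_, ?_, ?_⟩
    · rw [← Finset.card_pos]
      omega
    · exact Finset.disjoint_of_subset_left hX1X0 hdisj
    · intro x hx
      have := hX1X0 hx
      rw [hX0, Finset.mem_filter] at this
      exact this.2
    · intro x hx
      rw [hX1, Finset.mem_filter] at hx
      exact hx.2
    · omega
  · left
    push Not at hc
    have hX2c : (X0 \ X1).card + X1.card = X0.card := Finset.card_sdiff_add_card_eq_card hX1X0
    have hX2M : X0 \ X1 ⊆ U \ Y0 := by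
      intro x hx
      rw [Finset.mem_sdiff] at hx ⊢
      exact ⟨hX0U hx.1, fun h => Finset.disjoint_left.mp hdisj hx.1 h⟩
    have hM2 : (k + 1) * (X0 \ X1).card ≤ 2 * e2 G (U \ Y0) := by
      have h1 : ∀ x ∈ X0 \ X1, k + 1 ≤ 2 * dn G (U \ Y0) x := by
        intro x hx
        rw [Finset.mem_sdiff] at hx
        have h2 : ¬ k ≤ 2 * dn G Y0 x := by
          intro h3
          apply hx.2
          rw [hX1, Finset.mem_filter]
          exact ⟨hx.1, h3⟩
        have h4 := ItD3.dn_sdiff G hY0U x
        have h5 := hmin x (hX0U hx.1)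
        omega
      calc (k + 1) * (X0 \ X1).card = ∑ _x ∈ X0 \ X1, (k + 1) := by
            rw [Finset.sum_const, smul_eq_mul, mul_comm]
        _ ≤ ∑ x ∈ X0 \ X1, 2 * dn G (U \ Y0) x := Finset.sum_le_sum h1
        _ ≤ ∑ x ∈ U \ Y0, 2 * dn G (U \ Y0) x := Finset.sum_le_sum_of_subset hX2M
        _ = 2 * e2 G (U \ Y0) := by rw [e2, Finset.mul_sum]
    have hMU : (U \ Y0).card ≤ U.card := Finset.card_le_card Finset.sdiff_subset
    refine ⟨U \ Y0, Finset.sdiff_subset, ?_, ?_, ?_⟩
    · have h1 : 0 < (X0 \ X1).card := by omega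
      obtain ⟨x, hx⟩ := Finset.card_pos.mp h1
      exact ⟨x, hX2M hx⟩
    · intro v hv
      rw [Finset.mem_sdiff] at hv
      have h1 : ¬ L * k < dn G U v := by
        intro h2
        apply hv.2
        rw [hY0, Finset.mem_filter]
        exact ⟨hv.1, h2⟩
      have h3 := ItD3.dn_mono G (Finset.sdiff_subset : U \ Y0 ⊆ U) v
      omega
    · have h1 : U.card ≤ 4 * (X0 \ X1).card := by omega
      have h2 : k * U.card ≤ k * (4 * (X0 \ X1).card) := Nat.mul_le_mul_left k h1
      have h3 : k * (U \ Y0).card ≤ k * U.card := Nat.mul_le_mul_left k hMU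
      nlinarith

end Pool.Agent.PHer

end

section

/-!
# D4: cleaning of a bipartite graph
-/

set_option autoImplicit false

namespace Pool.Agent.PHer

open Pool.Agent.PEmb Pool.Agent.PReg

namespace ItD4

open Classical in
theorem dn_erase {V : Type} (G : SimpleGraph V) {Y : Finset V} {y : V} (hy : y ∈ Y) (x : V) :
    dn G Y x = dn G (Y.erase y) x + if G.Adj x y then 1 else 0 := by
  unfold dn
  have h : Y.filter (fun u => G.Adj x u) =
      (insert y (Y.erase y)).filter (fun u => G.Adj x u) := by rw [Finset.insert_erase hy]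
  rw [h, Finset.filter_insert]
  split_ifs with hxy
  · rw [Finset.card_insert_of_notMem]
    simp
  · simp

open Classical in
theorem sum_ite {V : Type} (G : SimpleGraph V) (X : Finset V) (y : V) :
    ∑ x ∈ X, (if G.Adj x y then 1 else 0) = dn G X y := by
  unfold dn
  rw [Finset.card_filter]
  refine Finset.sum_congr rfl fun x _ => ?_
  simp only [G.adj_comm x y]

theorem main {V : Type} (G : SimpleGraph V) (a b : ℕ) : ∀ (n : ℕ) (X Y : Finset V),
    X.card + Y.card = n → a * X.card + b * Y.card < ∑ x ∈ X, dn G Y x →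
    ∃ X' ⊆ X, ∃ Y' ⊆ Y, X'.Nonempty ∧ Y'.Nonempty ∧
      (∀ x ∈ X', a ≤ dn G Y' x) ∧ ∀ y ∈ Y', b ≤ dn G X' y := by
  classical
  intro n
  induction n with
  | zero =>
    intro X Y hn h
    have hX : X = ∅ := Finset.card_eq_zero.mp (by omega)
    subst hX
    simp at h
  | succ n ih =>
    intro X Y hn h
    by_cases h1 : ∃ x ∈ X, dn G Y x < a
    · obtain ⟨x, hx, hxa⟩ := h1
      have hs : ∑ x ∈ X, dn G Y x = dn G Y x + ∑ x ∈ X.erase x, dn G Y x :=
        (Finset.add_sum_erase X _ hx).symm
      have hc : X.card = (X.erase x).card + 1 := (Finset.card_erase_add_one hx).symm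
      obtain ⟨X', hX', Y', hY', h3⟩ := ih (X.erase x) Y (by omega) (by
        rw [hs, hc, Nat.mul_add] at h
        omega)
      exact ⟨X', hX'.trans (Finset.erase_subset _ _), Y', hY', h3⟩
    · by_cases h2 : ∃ y ∈ Y, dn G X y < b
      · obtain ⟨y, hy, hyb⟩ := h2
        have hs : ∑ x ∈ X, dn G Y x = ∑ x ∈ X, dn G (Y.erase y) x + dn G X y := by
          rw [← sum_ite, ← Finset.sum_add_distrib]
          exact Finset.sum_congr rfl fun x _ => dn_erase G hy x
        have hc : Y.card = (Y.erase y).card + 1 := (Finset.card_erase_add_one hy).symm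
        obtain ⟨X', hX', Y', hY', h3⟩ := ih X (Y.erase y) (by omega) (by
          rw [hs, hc, Nat.mul_add] at h
          omega)
        exact ⟨X', hX', Y', hY'.trans (Finset.erase_subset _ _), h3⟩
      · push Not at h1 h2
        refine ⟨X, subset_rfl, Y, subset_rfl, ?_, ?_, h1, h2⟩
        · rw [Finset.nonempty_iff_ne_empty]
          rintro rfl
          simp at h
        · rw [Finset.nonempty_iff_ne_empty]
          rintro rfl
          simp [dn] at h

end ItD4

theorem D4 : PD4 := fun G X Y a b h => ItD4.main G a b _ X Y rfl h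

end Pool.Agent.PHer

end

section

/-!
# Item D5: a subset of large minimum degree
-/

set_option autoImplicit false

namespace Pool.Agent.PHer

open Pool.Agent.PEmb Pool.Agent.PReg

namespace ItD5

/-- Degree after removing a vertex. -/
theorem dn_erase {V : Type} [DecidableEq V] (G : SimpleGraph V) (S : Finset V) (v u : V)
    (hv : v ∈ S) [Decidable (G.Adj u v)] :
    dn G S u = dn G (S.erase v) u + (if G.Adj u v then 1 else 0) := by
  classical
  unfold dn
  have h : S = insert v (S.erase v) := (Finset.insert_erase hv).symm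
  conv_lhs => rw [h, Finset.filter_insert]
  by_cases ha : G.Adj u v
  · rw [if_pos ha, if_pos ha, Finset.card_insert_of_notMem]
    simp
  · rw [if_neg ha, if_neg ha, add_zero]

/-- The number of edges after removing a vertex. -/
theorem e2_erase {V : Type} [DecidableEq V] (G : SimpleGraph V) (S : Finset V) (v : V)
    (hv : v ∈ S) : e2 G S = e2 G (S.erase v) + 2 * dn G S v := by
  classical
  unfold e2
  rw [← Finset.add_sum_erase S _ hv]
  have h1 : ∑ u ∈ S.erase v, dn G S u =
      ∑ u ∈ S.erase v, dn G (S.erase v) u + ∑ u ∈ S.erase v, (if G.Adj u v then 1 else 0) := by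
    rw [← Finset.sum_add_distrib]
    exact Finset.sum_congr rfl fun u _ => dn_erase G S v u hv
  have h2 : ∑ u ∈ S.erase v, (if G.Adj u v then 1 else 0) = dn G S v := by
    rw [← Finset.card_filter]
    unfold dn
    congr 1
    ext u
    simp only [Finset.mem_filter, Finset.mem_erase]
    constructor
    · rintro ⟨⟨_, h3⟩, h4⟩
      exact ⟨h3, h4.symm⟩
    · rintro ⟨h3, h4⟩
      exact ⟨⟨h4.ne', h3⟩, h4.symm⟩
  rw [h1, h2]
  ring

end ItD5

theorem D5 : PD5 := by
  classical
  intro V G S a
  induction hn : S.card using Nat.strong_induction_on generalizing S with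
  | _ n ih =>
    intro h
    by_cases hall : ∀ v ∈ S, a + 1 ≤ dn G S v
    · refine ⟨S, le_rfl, ?_, hall⟩
      rw [Finset.nonempty_iff_ne_empty]
      rintro rfl
      simp [e2] at h
    · push Not at hall
      obtain ⟨v, hv, hd⟩ := hall
      have h1 := ItD5.e2_erase G S v hv
      have h2 : (S.erase v).card + 1 = S.card := Finset.card_erase_add_one hv
      have h3 : 2 * a * (S.erase v).card < e2 G (S.erase v) := by
        have h4 : 2 * a * S.card = 2 * a * (S.erase v).card + 2 * a := by
          rw [← h2]; ring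
        rw [hn] at h4
        omega
      obtain ⟨S', hS', hne, hS⟩ := ih (S.erase v).card (by omega) (S.erase v) rfl h3
      exact ⟨S', hS'.trans (Finset.erase_subset v S), hne, hS⟩

end Pool.Agent.PHer

end

section

/-!
# Item D6: a large independent set
-/

set_option autoImplicit false

namespace Pool.Agent.PHer

open Pool.Agent.PEmb Pool.Agent.PReg

theorem D6 : PD6 := by
  classical
  intro V G X Δ hΔ
  -- independent subsets of X
  let I : Finset (Finset V) := X.powerset.filter fun S => ∀ x ∈ S, ∀ y ∈ S, ¬ G.Adj x y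
  have hne : I.Nonempty := ⟨∅, by simp [I]⟩
  obtain ⟨S, hS, hmax⟩ := Finset.exists_max_image I Finset.card hne
  have hS' : S ⊆ X ∧ ∀ x ∈ S, ∀ y ∈ S, ¬ G.Adj x y := by
    have := (Finset.mem_filter.mp hS)
    exact ⟨Finset.mem_powerset.mp this.1, this.2⟩
  refine ⟨S, hS'.1, hS'.2, ?_⟩
  have hcov : X ⊆ S ∪ S.biUnion fun s => X.filter fun x => G.Adj s x := by
    intro x hx
    rw [Finset.mem_union]
    by_cases hxS : x ∈ S
    · exact Or.inl hxS
    right
    by_contra hcon
    rw [Finset.mem_biUnion] at hcon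
    push Not at hcon
    have hna : ∀ s ∈ S, ¬ G.Adj s x := by
      intro s hs hadj
      exact hcon s hs (Finset.mem_filter.mpr ⟨hx, hadj⟩)
    have hmem : insert x S ∈ I := by
      refine Finset.mem_filter.mpr ⟨Finset.mem_powerset.mpr (Finset.insert_subset hx hS'.1), ?_⟩
      intro a ha b hb hab
      rw [Finset.mem_insert] at ha hb
      rcases ha with rfl | ha
      · rcases hb with rfl | hb
        · exact G.loopless.irrefl _ hab
        · exact hna b hb hab.symm
      · rcases hb with rfl | hb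
        · exact hna a ha hab
        · exact hS'.2 a ha b hb hab
    have h1 := hmax _ hmem
    rw [Finset.card_insert_of_notMem hxS] at h1
    omega
  have h1 := Finset.card_le_card hcov
  have h2 : (S.biUnion fun s => X.filter fun x => G.Adj s x).card ≤ S.card * Δ := by
    refine Finset.card_biUnion_le_card_mul S _ Δ fun s hs => ?_
    have h3 := hΔ s (hS'.1 hs)
    unfold dn at h3
    refine le_trans (le_of_eq ?_) h3
    congr
  have h4 := Finset.card_union_le S (S.biUnion fun s => X.filter fun x => G.Adj s x)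
  calc X.card ≤ S.card + S.card * Δ := by omega
    _ = (Δ + 1) * S.card := by ring

end Pool.Agent.PHer

end

section

/-!
# D7: the neighbourhoods of few vertices cover many vertices
-/

set_option autoImplicit false

namespace Pool.Agent.PHer

open Pool.Agent.PEmb Pool.Agent.PReg

namespace ItD7

open Classical in
theorem double {V : Type} (G : SimpleGraph V) (R Y : Finset V) :
    ∑ x ∈ R, dn G Y x = ∑ y ∈ Y, (R.filter fun x => G.Adj x y).card := by
  unfold dn
  simp only [Finset.card_filter]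
  rw [Finset.sum_comm]

open Classical in
theorem big {V : Type} (G : SimpleGraph V) (t : ℕ) (R Y : Finset V) (h : NoBic t G) :
    (Y.filter fun y => t ≤ (R.filter fun x => G.Adj x y).card).card ≤ t * R.card.choose t := by
  have hex : ∀ y : V, ∃ T : Finset V, t ≤ (R.filter fun x => G.Adj x y).card →
      T ⊆ (R.filter fun x => G.Adj x y) ∧ T.card = t := by
    intro y
    by_cases hy : t ≤ (R.filter fun x => G.Adj x y).card
    · obtain ⟨T, hT, hc⟩ := Finset.exists_subset_card_eq hy
      exact ⟨T, fun _ => ⟨hT, hc⟩⟩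
    · exact ⟨∅, fun h' => absurd h' hy⟩
  choose T hT using hex
  rw [← Finset.card_powersetCard]
  apply Finset.card_le_mul_card_image_of_maps_to (f := T)
  · intro y hy
    rw [Finset.mem_filter] at hy
    obtain ⟨h1, h2⟩ := hT y hy.2
    rw [Finset.mem_powersetCard]
    exact ⟨h1.trans (Finset.filter_subset _ _), h2⟩
  · intro A hA
    rw [Finset.mem_powersetCard] at hA
    by_contra hcon
    push Not at hcon
    obtain ⟨B, hB, hBc⟩ := Finset.exists_subset_card_eq hcon.le
    refine h A B hA.2 hBc ?_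
    intro a ha b hb
    have hb' := hB hb
    rw [Finset.mem_filter, Finset.mem_filter] at hb'
    obtain ⟨⟨_, hb2⟩, hb3⟩ := hb'
    have h4 := (hT b hb2).1
    rw [hb3] at h4
    exact (Finset.mem_filter.mp (h4 ha)).2

end ItD7

open ItD7 in
open Classical in
theorem D7 : PD7 := by
  intro V G t a R Y hB ha
  have h1 : R.card * a ≤ ∑ x ∈ R, dn G Y x := by
    rw [← smul_eq_mul]
    exact Finset.card_nsmul_le_sum R _ a ha
  rw [double] at h1
  set μ : V → ℕ := fun y => (R.filter fun x => G.Adj x y).card with hμ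
  set W := Y.filter fun y => ∃ x ∈ R, G.Adj x y with hW
  have h2 : ∑ y ∈ Y, μ y ≤ ∑ y ∈ Y, ((if ∃ x ∈ R, G.Adj x y then t else 0) +
      (if t ≤ μ y then R.card else 0)) := by
    refine Finset.sum_le_sum fun y _ => ?_
    have h3 : μ y ≤ R.card := Finset.card_filter_le _ _
    by_cases h4 : t ≤ μ y
    · rw [if_pos h4]
      omega
    · by_cases h5 : ∃ x ∈ R, G.Adj x y
      · rw [if_pos h5]
        omega
      · have h6 : μ y = 0 := by
          rw [hμ]
          dsimp only
          rw [Finset.card_eq_zero, Finset.filter_eq_empty_iff]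
          intro x hx hadj
          exact h5 ⟨x, hx, hadj⟩
        omega
  have h3 : ∑ y ∈ Y, ((if ∃ x ∈ R, G.Adj x y then t else 0) +
      (if t ≤ μ y then R.card else 0)) = t * W.card +
      R.card * (Y.filter fun y => t ≤ μ y).card := by
    rw [Finset.sum_add_distrib, ← Finset.sum_filter, ← Finset.sum_filter, Finset.sum_const,
      Finset.sum_const, smul_eq_mul, smul_eq_mul, mul_comm t, mul_comm R.card]
  have h4 := big G t R Y hB
  calc R.card * a ≤ ∑ y ∈ Y, μ y := h1
    _ ≤ t * W.card + R.card * (Y.filter fun y => t ≤ μ y).card := by rw [← h3]; exact h2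
    _ ≤ t * W.card + R.card * (t * R.card.choose t) :=
      Nat.add_le_add_left (Nat.mul_le_mul_left _ h4) _

end Pool.Agent.PHer

end

section

/-!
Item D8: random subsets.
-/

set_option autoImplicit false

namespace Pool.Agent.PHer

open Pool.Agent.PEmb Pool.Agent.PReg

namespace ItD8

open Classical in
theorem key {V : Type} [Fintype V] (p : ℝ) (A : Finset V) :
    ∑ R ∈ (Finset.univ : Finset (Finset V)).filter (fun R => A ⊆ R),
      p ^ R.card * (1 - p) ^ (Fintype.card V - R.card) = p ^ A.card := by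
  have h1 : ∑ R ∈ (Finset.univ : Finset (Finset V)).filter (fun R => A ⊆ R),
      p ^ R.card * (1 - p) ^ (Fintype.card V - R.card) =
      ∑ T ∈ (Aᶜ).powerset, p ^ A.card * (p ^ T.card * (1 - p) ^ ((Aᶜ).card - T.card)) := by
    refine Finset.sum_nbij' (fun R => R \ A) (fun T => A ∪ T) ?_ ?_ ?_ ?_ ?_
    · intro R hR
      rw [Finset.mem_powerset]
      intro x hx
      rw [Finset.mem_sdiff] at hx
      rw [Finset.mem_compl]
      exact hx.2
    · intro T hT
      rw [Finset.mem_filter]
      exact ⟨Finset.mem_univ _, Finset.subset_union_left⟩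
    · intro R hR
      rw [Finset.mem_filter] at hR
      exact Finset.union_sdiff_of_subset hR.2
    · intro T hT
      rw [Finset.mem_powerset] at hT
      ext x
      rw [Finset.mem_sdiff, Finset.mem_union]
      constructor
      · rintro ⟨h | h, h2⟩
        · exact absurd h h2
        · exact h
      · intro h
        exact ⟨Or.inr h, by have := hT h; rwa [Finset.mem_compl] at this⟩
    · intro R hR
      rw [Finset.mem_filter] at hR
      have h2 : (R \ A).card = R.card - A.card := Finset.card_sdiff_of_subset hR.2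
      have h3 : A.card ≤ R.card := Finset.card_le_card hR.2
      have h4 : (Aᶜ).card = Fintype.card V - A.card := Finset.card_compl A
      rw [h2, h4, ← mul_assoc, ← pow_add]
      congr 2 <;> omega
  rw [h1, ← Finset.mul_sum, Finset.sum_pow_mul_eq_add_pow]
  simp

end ItD8

open Classical in
theorem D8 : PD8 := by
  intro V _ p hp0 hp1 ι J c A hpos
  by_contra hcon
  push Not at hcon
  have h1 : ∑ R : Finset V, (p ^ R.card * (1 - p) ^ (Fintype.card V - R.card)) *
      ∑ i ∈ J.filter (fun i => A i ⊆ R), c i ≤ 0 := by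
    apply Finset.sum_nonpos
    intro R _
    apply mul_nonpos_of_nonneg_of_nonpos
    · have : 0 ≤ 1 - p := by linarith
      positivity
    · exact hcon R
  have h2 : ∑ R : Finset V, (p ^ R.card * (1 - p) ^ (Fintype.card V - R.card)) *
      ∑ i ∈ J.filter (fun i => A i ⊆ R), c i = ∑ i ∈ J, c i * p ^ (A i).card := by
    have h3 : ∀ R : Finset V, (p ^ R.card * (1 - p) ^ (Fintype.card V - R.card)) *
      ∑ i ∈ J.filter (fun i => A i ⊆ R), c i = ∑ i ∈ J, (if A i ⊆ R then
        c i * (p ^ R.card * (1 - p) ^ (Fintype.card V - R.card)) else 0) := by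
      intro R
      rw [Finset.mul_sum, Finset.sum_filter]
      apply Finset.sum_congr rfl
      intro i _
      split_ifs
      · ring
      · rfl
    rw [Finset.sum_congr rfl (fun R _ => h3 R), Finset.sum_comm]
    apply Finset.sum_congr rfl
    intro i _
    rw [← Finset.sum_filter, ← Finset.mul_sum, ItD8.key]
  linarith

end Pool.Agent.PHer

end

section

/-!
# D9: few edges in graphs without bicliques
-/

set_option autoImplicit false

namespace Pool.Agent.PHer

open Pool.Agent.PEmb Pool.Agent.PReg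

namespace ItD9

open Classical in
theorem count {V : Type} (G : SimpleGraph V) (t : ℕ) (A S : Finset V) (h : NoBic t G) :
    ∑ b ∈ S, ((A.filter fun a => G.Adj a b).card).choose t ≤ t * (A.card).choose t := by
  have h1 : ∀ b ∈ S, ((A.filter fun a => G.Adj a b).card).choose t =
      ∑ T ∈ A.powersetCard t, (if ∀ a ∈ T, G.Adj a b then 1 else 0) := by
    intro b _
    rw [← Finset.card_filter, ← Finset.card_powersetCard]
    congr 1
    ext T
    rw [Finset.mem_filter, Finset.mem_powersetCard, Finset.mem_powersetCard]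
    constructor
    · rintro ⟨h1, h2⟩
      exact ⟨⟨fun a ha => (Finset.mem_filter.1 (h1 ha)).1, h2⟩,
        fun a ha => (Finset.mem_filter.1 (h1 ha)).2⟩
    · rintro ⟨⟨h1, h2⟩, h3⟩
      exact ⟨fun a ha => Finset.mem_filter.2 ⟨h1 ha, h3 a ha⟩, h2⟩
  rw [Finset.sum_congr rfl h1, Finset.sum_comm]
  have h2 : ∀ T ∈ A.powersetCard t, ∑ b ∈ S, (if ∀ a ∈ T, G.Adj a b then 1 else 0) ≤ t := by
    intro T hT
    rw [Finset.mem_powersetCard] at hT
    rw [← Finset.card_filter]
    by_contra hlt
    push Not at hlt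
    obtain ⟨B', hB', hc⟩ := Finset.exists_subset_card_eq hlt.le
    exact h T B' hT.2 hc (fun a ha b hb => (Finset.mem_filter.1 (hB' hb)).2 a ha)
  refine (Finset.sum_le_sum h2).trans ?_
  rw [Finset.sum_const, Finset.card_powersetCard, smul_eq_mul, mul_comm]

end ItD9

open Classical in
theorem D9 : PD9 := by
  intro t m
  rcases Nat.eq_zero_or_pos t with ht | ht
  · subst ht
    refine ⟨0, ?_⟩
    intro V G Δ A B _ hG _ _
    exact absurd (fun a ha => absurd ha (Finset.notMem_empty a)) (hG ∅ ∅ rfl rfl)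
  rcases Nat.eq_zero_or_pos m with hm | hm
  · subst hm
    refine ⟨0, ?_⟩
    intro V G Δ A B _ hG _ _
    rw [Nat.zero_mul]
    exact Nat.zero_le _
  refine ⟨2 * m * t * (4 * m) ^ t + 4 * m * t, ?_⟩
  intro V G Δ A B hΔ hG hA hB
  by_contra hcon
  push Not at hcon
  have hΔ0 : 0 < Δ := by
    have : 0 < 4 * m * t := by positivity
    omega
  set d : V → ℕ := fun b => (A.filter fun a => G.Adj a b).card with hd
  have hE : ((A ×ˢ B).filter fun p => G.Adj p.1 p.2).card = ∑ b ∈ B, d b := by
    rw [Finset.card_filter, Finset.sum_product_right]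
    apply Finset.sum_congr rfl
    intro b _
    rw [hd]
    simp only
    rw [Finset.card_filter]
  rw [hE] at hcon
  have hdle : ∀ b, d b ≤ Δ := fun b => (Finset.card_filter_le _ _).trans hA
  set S := B.filter (fun b => Δ ≤ 2 * m * d b) with hS
  -- many big vertices
  have hbig : Δ < 2 * m * S.card := by
    have h1 : ∀ b ∈ B, 2 * m * d b ≤ Δ + (if Δ ≤ 2 * m * d b then 2 * m * Δ else 0) := by
      intro b _
      split_ifs with h
      · have := Nat.mul_le_mul_left (2 * m) (hdle b)
        omega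
      · omega
    have h2 := Finset.sum_le_sum h1
    rw [← Finset.mul_sum, Finset.sum_add_distrib, Finset.sum_const, ← Finset.sum_filter,
      Finset.sum_const, smul_eq_mul, smul_eq_mul, ← hS] at h2
    have h3 : B.card * Δ ≤ Δ ^ 2 := by
      rw [pow_two]
      exact Nat.mul_le_mul_right _ hB
    have h4 : Δ * Δ < Δ * (2 * m * S.card) := by
      have e1 : 2 * m * ∑ b ∈ B, d b = 2 * (m * ∑ b ∈ B, d b) := by ring
      have e2 : S.card * (2 * m * Δ) = Δ * (2 * m * S.card) := by ring
      have e3 : Δ ^ 2 = Δ * Δ := pow_two Δ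
      rw [e1, e2] at h2
      omega
    exact lt_of_mul_lt_mul_left h4 (Nat.zero_le _)
  -- counting
  have hcount := ItD9.count G t A S hG
  have h5 : ∑ b ∈ S, (d b).descFactorial t ≤ t * Δ ^ t := by
    have e1 : ∑ b ∈ S, (d b).descFactorial t = t.factorial * ∑ b ∈ S, (d b).choose t := by
      rw [Finset.mul_sum]
      apply Finset.sum_congr rfl
      intro b _
      rw [Nat.descFactorial_eq_factorial_mul_choose]
    rw [e1]
    calc t.factorial * ∑ b ∈ S, (d b).choose t ≤ t.factorial * (t * (A.card).choose t) :=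
          Nat.mul_le_mul_left _ hcount
      _ = t * (t.factorial * (A.card).choose t) := by ring
      _ = t * (A.card).descFactorial t := by rw [Nat.descFactorial_eq_factorial_mul_choose]
      _ ≤ t * (A.card) ^ t := Nat.mul_le_mul_left _ (Nat.descFactorial_le_pow _ _)
      _ ≤ t * Δ ^ t := Nat.mul_le_mul_left _ (Nat.pow_le_pow_left hA _)
  have h6 : ∀ b ∈ S, Δ ^ t ≤ (4 * m) ^ t * (d b).descFactorial t := by
    intro b hb
    rw [hS, Finset.mem_filter] at hb
    have e1 : Δ ≤ 4 * m * (d b + 1 - t) := by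
      have e2 : t ≤ d b + 1 := by
        by_contra hlt
        push Not at hlt
        have e3 : 2 * m * d b ≤ 2 * m * t := Nat.mul_le_mul_left _ (by omega)
        have e4 : 2 * m * t < 4 * m * t := by
          have : 0 < m * t := Nat.mul_pos hm ht
          nlinarith
        omega
      obtain ⟨x, hx⟩ := Nat.exists_eq_add_of_le e2
      have e5 : d b + 1 - t = x := by omega
      rw [e5]
      have e6 : 4 * m * (d b + 1) = 4 * m * t + 4 * m * x := by rw [hx]; ring
      have e7 : 4 * m * (d b + 1) = 2 * (2 * m * d b) + 4 * m := by ring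
      omega
    calc Δ ^ t ≤ (4 * m * (d b + 1 - t)) ^ t := Nat.pow_le_pow_left e1 _
      _ = (4 * m) ^ t * (d b + 1 - t) ^ t := by rw [mul_pow]
      _ ≤ (4 * m) ^ t * (d b).descFactorial t :=
          Nat.mul_le_mul_left _ (Nat.pow_sub_le_descFactorial _ _)
  have h7 : S.card * Δ ^ t ≤ (4 * m) ^ t * (t * Δ ^ t) := by
    have h8 := Finset.sum_le_sum h6
    rw [Finset.sum_const, smul_eq_mul, ← Finset.mul_sum] at h8
    exact h8.trans (Nat.mul_le_mul_left _ h5)
  have h9 : S.card ≤ (4 * m) ^ t * t := by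
    have e1 : (4 * m) ^ t * (t * Δ ^ t) = ((4 * m) ^ t * t) * Δ ^ t := by ring
    rw [e1] at h7
    exact Nat.le_of_mul_le_mul_right h7 (pow_pos hΔ0 t)
  have h10 : 2 * m * S.card ≤ 2 * m * t * (4 * m) ^ t := by
    calc 2 * m * S.card ≤ 2 * m * ((4 * m) ^ t * t) := Nat.mul_le_mul_left _ h9
      _ = 2 * m * t * (4 * m) ^ t := by ring
  omega

end Pool.Agent.PHer

end

section

/-!
# Item H1: geodesics
-/

set_option autoImplicit false

namespace Pool.Agent.PHer

open Pool.Agent.PEmb Pool.Agent.PReg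

namespace ItH1

theorem close {W : Type} (H : SimpleGraph W) (hH : H.Connected) {a b : W} (p : H.Walk a b)
    (hp : p.length = H.dist a b) (v : W) (i j : ℕ) (hj : j ≤ p.length)
    (hi : H.Adj v (p.getVert i)) (hjv : H.Adj v (p.getVert j)) : j ≤ i + 2 := by
  have h1 : H.dist a (p.getVert i) ≤ i := by
    refine (SimpleGraph.dist_le (p.take i)).trans ?_
    rw [SimpleGraph.Walk.take_length]
    exact min_le_left _ _
  have h2 : H.dist (p.getVert j) b ≤ p.length - j := by
    refine (SimpleGraph.dist_le (p.drop j)).trans ?_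
    rw [SimpleGraph.Walk.drop_length]
  have h3 : H.dist (p.getVert i) v = 1 := SimpleGraph.dist_eq_one_iff_adj.mpr hi.symm
  have h4 : H.dist v (p.getVert j) = 1 := SimpleGraph.dist_eq_one_iff_adj.mpr hjv
  have h5 := hH.dist_triangle (u := a) (v := p.getVert i) (w := b)
  have h6 := hH.dist_triangle (u := p.getVert i) (v := v) (w := b)
  have h7 := hH.dist_triangle (u := v) (v := p.getVert j) (w := b)
  omega

end ItH1

theorem H1 : PH1 := by
  intro V _ G R hR a ha b hb
  obtain ⟨p, hp⟩ := hR.exists_walk_length_eq_dist ⟨a, ha⟩ ⟨b, hb⟩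
  let p' : G.Walk a b := p.map (SimpleGraph.Embedding.induce R).toHom
  have hmem : ∀ u, u ∈ p'.support ↔ ∃ k ≤ p.length, ((p.getVert k : R) : V) = u := by
    intro u
    show u ∈ (p.map (SimpleGraph.Embedding.induce R).toHom).support ↔ _
    rw [SimpleGraph.Walk.support_map, List.mem_map]
    constructor
    · rintro ⟨w, hw, rfl⟩
      obtain ⟨k, hk, hk'⟩ := SimpleGraph.Walk.mem_support_iff_exists_getVert.mp hw
      exact ⟨k, hk', by rw [hk]; rfl⟩
    · rintro ⟨k, _, rfl⟩
      exact ⟨p.getVert k, p.getVert_mem_support k, rfl⟩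
  refine ⟨{x | x ∈ p'.support}, ?_, p'.start_mem_support, p'.end_mem_support,
    p'.connected_induce_support, ?_⟩
  · intro u hu
    obtain ⟨k, _, rfl⟩ := (hmem u).mp hu
    exact (p.getVert k).2
  · intro v hv
    by_cases hne : ∃ k, k ≤ p.length ∧ G.Adj v (p.getVert k)
    · classical
      have hmin := Nat.find_spec hne
      have hlt : ∀ k, k ≤ p.length → G.Adj v (p.getVert k) → Nat.find hne ≤ k :=
        fun k hk hk' => Nat.find_min' hne ⟨hk, hk'⟩
      set i0 := Nat.find hne with hi0
      have hsub : {u | u ∈ {x | x ∈ p'.support} ∧ G.Adj v u} ⊆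
          (((Finset.Icc i0 (i0 + 2)).image fun k => ((p.getVert k : R) : V) : Finset V) :
            Set V) := by
        rintro u ⟨hu, huv⟩
        obtain ⟨k, hk, rfl⟩ := (hmem u).mp hu
        rw [Finset.mem_coe, Finset.mem_image]
        refine ⟨k, ?_, rfl⟩
        rw [Finset.mem_Icc]
        refine ⟨hlt k hk huv, ?_⟩
        exact ItH1.close (G.induce R) hR p hp ⟨v, hv⟩ i0 k hk hmin.2 huv
      refine (Set.ncard_le_ncard hsub (Finset.finite_toSet _)).trans ?_
      rw [Set.ncard_coe_finset]
      refine Finset.card_image_le.trans ?_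
      rw [Nat.card_Icc]
      omega
    · have : {u | u ∈ {x | x ∈ p'.support} ∧ G.Adj v u} = ∅ := by
        rw [Set.eq_empty_iff_forall_notMem]
        rintro u ⟨hu, huv⟩
        obtain ⟨k, hk, rfl⟩ := (hmem u).mp hu
        exact hne ⟨k, hk, huv⟩
      rw [this, Set.ncard_empty]
      omega

end Pool.Agent.PHer

end
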