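import Mathlib
import Pool.Agent.Work.MP_cfa43e_lc.Her.StmtsH

/-! Bundle of small proof modules (one section per former module). -/

section

/-!
# H2: a connected set of bounded degree through four vertices
-/

set_option autoImplicit false

namespace Pool.Agent.PHer

open Pool.Agent.PEmb Pool.Agent.PReg

theorem H2 (hH1 : PH1) : PH2 := by
  intro V _ G R t hR ht
  obtain ⟨J1, hJ1, h1a, h1b, h1c, h1d⟩ :=
    hH1 G R hR (t 0) (ht 0 (by norm_num)) (t 1) (ht 1 (by norm_num))
  obtain ⟨J2, hJ2, h2a, h2b, h2c, h2d⟩ :=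
    hH1 G R hR (t 0) (ht 0 (by norm_num)) (t 2) (ht 2 (by norm_num))
  obtain ⟨J3, hJ3, h3a, h3b, h3c, h3d⟩ :=
    hH1 G R hR (t 0) (ht 0 (by norm_num)) (t 3) (ht 3 (by norm_num))
  refine ⟨J1 ∪ J2 ∪ J3, Set.union_subset (Set.union_subset hJ1 hJ2) hJ3, ?_, ?_, ?_⟩
  · intro i hi
    have : i = 0 ∨ i = 1 ∨ i = 2 ∨ i = 3 := by omega
    rcases this with rfl | rfl | rfl | rfl
    · exact Or.inl (Or.inl h1a)
    · exact Or.inl (Or.inl h1b)
    · exact Or.inl (Or.inr h2b)
    · exact Or.inr h3b
  · exact SimpleGraph.induce_union_connected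
      (SimpleGraph.induce_union_connected h1c.preconnected h2c.preconnected
        ⟨t 0, h1a, h2a⟩).preconnected h3c.preconnected ⟨t 0, Or.inl h1a, h3a⟩
  · intro v hv
    have h1 : {u | u ∈ J1 ∪ J2 ∪ J3 ∧ G.Adj v u} ⊆
        ({u | u ∈ J1 ∧ G.Adj v u} ∪ {u | u ∈ J2 ∧ G.Adj v u}) ∪ {u | u ∈ J3 ∧ G.Adj v u} := by
      rintro u ⟨(hu | hu) | hu, h⟩
      · exact Or.inl (Or.inl ⟨hu, h⟩)
      · exact Or.inl (Or.inr ⟨hu, h⟩)
      · exact Or.inr ⟨hu, h⟩
    have h2 := Set.ncard_le_ncard h1 (Set.toFinite _)
    have h3 := Set.ncard_union_le ({u | u ∈ J1 ∧ G.Adj v u} ∪ {u | u ∈ J2 ∧ G.Adj v u})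
      {u | u ∈ J3 ∧ G.Adj v u}
    have h4 := Set.ncard_union_le {u | u ∈ J1 ∧ G.Adj v u} {u | u ∈ J2 ∧ G.Adj v u}
    have h5 := h1d v hv
    have h6 := h2d v hv
    have h7 := h3d v hv
    omega

end Pool.Agent.PHer

end

section

/-!
# H3: an induced path through a connected set
-/

set_option autoImplicit false

namespace Pool.Agent.PHer

open Pool.Agent.PEmb Pool.Agent.PReg

namespace ItH3

theorem chain_conn {V : Type} (G : SimpleGraph V) (f : ℕ → V) (m : ℕ)
    (h : ∀ i < m, G.Adj (f i) (f (i + 1))) : (G.induce (f '' {i | i ≤ m})).Connected := by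
  induction m with
  | zero =>
    have h1 : f '' {i | i ≤ 0} = {f 0} := by
      ext x
      simp only [Set.mem_image, Set.mem_ofPred_eq, Nat.le_zero, Set.mem_singleton_iff]
      constructor
      · rintro ⟨i, rfl, rfl⟩; rfl
      · rintro rfl; exact ⟨0, rfl, rfl⟩
    rw [h1]
    have : Nonempty ↥({f 0} : Set V) := ⟨⟨f 0, rfl⟩⟩
    refine SimpleGraph.Connected.mk ?_
    intro x y
    have : x = y := Subsingleton.elim x y
    rw [this]
  | succ m ih =>
    have h1 : f '' {i | i ≤ m + 1} = f '' {i | i ≤ m} ∪ {f m, f (m + 1)} := by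
      ext x
      simp only [Set.mem_image, Set.mem_ofPred_eq, Set.mem_union, Set.mem_insert_iff,
        Set.mem_singleton_iff]
      constructor
      · rintro ⟨i, hi, rfl⟩
        rcases Nat.lt_or_ge m i with h2 | h2
        · have : i = m + 1 := by omega
          right; right; rw [this]
        · left; exact ⟨i, h2, rfl⟩
      · rintro (⟨i, hi, rfl⟩ | rfl | rfl)
        · exact ⟨i, by omega, rfl⟩
        · exact ⟨m, by omega, rfl⟩
        · exact ⟨m + 1, le_rfl, rfl⟩
    rw [h1]
    apply SimpleGraph.induce_union_connected (ih fun i hi => h i (by omega)).preconnected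
      (SimpleGraph.induce_pair_connected_of_adj (h m (by omega))).preconnected
    exact ⟨f m, ⟨m, by simp, rfl⟩, Or.inl rfl⟩

end ItH3

open ItH3 in
theorem H3 : PH3 := by
  intro V _ G A A' C hC hN hN' hno
  classical
  obtain ⟨H, hH⟩ : ∃ H, H = G.induce C := ⟨_, rfl⟩
  rw [← hH] at hC
  have hHadj : ∀ x y : C, H.Adj x y ↔ G.Adj x y := by
    intro x y; rw [hH]; rfl
  obtain ⟨⟨a, b⟩, ⟨haN, hbN⟩, hmin⟩ := Set.exists_min_image
    {q : C × C | (∃ v ∈ A, G.Adj q.1 v) ∧ ∃ v ∈ A', G.Adj q.2 v}
    (fun q => H.dist q.1 q.2) (Set.toFinite _) (by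
      obtain ⟨u, hu, v, hv, h⟩ := hN
      obtain ⟨u', hu', v', hv', h'⟩ := hN'
      exact ⟨(⟨u, hu⟩, ⟨u', hu'⟩), ⟨v, hv, h⟩, ⟨v', hv', h'⟩⟩)
  simp only at haN hbN hmin
  obtain ⟨p, hp, hl⟩ := (hC.preconnected a b).exists_path_of_dist
  obtain ⟨n, hn⟩ : ∃ n, n = p.length := ⟨_, rfl⟩
  have h0 : p.getVert 0 = a := p.getVert_zero
  have hend : p.getVert n = b := by rw [hn]; exact p.getVert_length
  have hinj : ∀ i j, i ≤ n → j ≤ n → p.getVert i = p.getVert j → i = j := by
    intro i j hi hj h
    exact hp.getVert_injOn (by simpa [hn] using hi) (by simpa [hn] using hj) h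
  have hstep : ∀ i < n, G.Adj (p.getVert i) (p.getVert (i + 1)) := by
    intro i hi
    rw [← hHadj]
    exact p.adj_getVert_succ (by omega)
  have hsh : ∀ i j, i < j → j ≤ n → G.Adj (p.getVert i) (p.getVert j) → j = i + 1 := by
    intro i j hij hj h
    rw [← hHadj] at h
    have h1 := SimpleGraph.dist_le (((p.take i).concat h).append (p.drop j))
    rw [SimpleGraph.Walk.length_append, SimpleGraph.Walk.length_concat,
      SimpleGraph.Walk.take_length, SimpleGraph.Walk.drop_length, ← hl] at h1
    have : min i p.length = i := by omega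
    omega
  have hNi : ∀ i ≤ n, ∀ v ∈ A, G.Adj (p.getVert i) v → i = 0 := by
    intro i hi v hv h
    have h1 := hmin (p.getVert i, b) ⟨⟨v, hv, h⟩, hbN⟩
    have h2 := SimpleGraph.dist_le (p.drop i)
    rw [SimpleGraph.Walk.drop_length] at h2
    simp only at h1
    omega
  have hNi' : ∀ i ≤ n, ∀ v ∈ A', G.Adj (p.getVert i) v → i = n := by
    intro i hi v hv h
    have h1 := hmin (a, p.getVert i) ⟨haN, ⟨v, hv, h⟩⟩
    have h2 := SimpleGraph.dist_le (p.take i)
    rw [SimpleGraph.Walk.take_length] at h2
    simp only at h1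
    omega
  have hne : (a : V) ≠ b := by
    intro h
    obtain ⟨v, hv, hv1⟩ := haN
    obtain ⟨v', hv', hv1'⟩ := hbN
    exact hno a a.2 v hv v' hv' ⟨hv1, h ▸ hv1'⟩
  have hn1 : 1 ≤ n := by
    by_contra h
    have : n = 0 := by omega
    rw [this, h0] at hend
    exact hne (congrArg Subtype.val hend)
  have hinjV : ∀ i j, i ≤ n → j ≤ n → ((p.getVert i : C) : V) = p.getVert j → i = j := by
    intro i j hi hj h
    exact hinj i j hi hj (Subtype.ext h)
  refine ⟨(fun i => ((p.getVert i : C) : V)) '' {i | i ≤ n}, a, b, ?_, ?_, ?_, hne, haN, hbN,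
    ?_, ?_, ?_, ?_, ?_⟩
  · rintro _ ⟨i, _, rfl⟩
    exact (p.getVert i).2
  · exact ⟨0, by simp, congrArg Subtype.val h0⟩
  · exact ⟨n, by simp, congrArg Subtype.val hend⟩
  · rintro _ ⟨i, hi, rfl⟩ v hv h
    have h2 := hNi i hi v hv h
    subst h2
    exact congrArg Subtype.val h0
  · rintro _ ⟨i, hi, rfl⟩ v hv h
    have h2 := hNi' i hi v hv h
    rw [h2]
    exact congrArg Subtype.val hend
  · rintro _ ⟨i, hi, rfl⟩
    have h1 : {u | u ∈ (fun i => ((p.getVert i : C) : V)) '' {i | i ≤ n} ∧
        G.Adj ((fun i => ((p.getVert i : C) : V)) i) u} ⊆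
        {((p.getVert (i - 1) : C) : V), ((p.getVert (i + 1) : C) : V)} := by
      rintro _ ⟨⟨j, hj, rfl⟩, h⟩
      simp only [Set.mem_insert_iff, Set.mem_singleton_iff]
      simp only at h
      rcases lt_trichotomy i j with hij | hij | hij
      · right; rw [hsh i j hij hj h]
      · exact absurd rfl (hij ▸ h).ne
      · left
        have := hsh j i hij hi h.symm
        have : j = i - 1 := by omega
        rw [this]
    refine (Set.ncard_le_ncard h1 (Set.toFinite _)).trans ?_
    refine (Set.ncard_insert_le _ _).trans ?_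
    rw [Set.ncard_singleton]
  · have h1 : (fun i => ((p.getVert i : C) : V)) '' {i | i ≤ n} \ {(b : V)} =
        (fun i => ((p.getVert i : C) : V)) '' {i | i ≤ n - 1} := by
      ext x
      simp only [Set.mem_sdiff, Set.mem_image, Set.mem_ofPred_eq, Set.mem_singleton_iff]
      constructor
      · rintro ⟨⟨i, hi, rfl⟩, hx⟩
        refine ⟨i, ?_, rfl⟩
        by_contra hcon
        have : i = n := by omega
        rw [this, hend] at hx
        exact hx rfl
      · rintro ⟨i, hi, rfl⟩
        refine ⟨⟨i, by omega, rfl⟩, ?_⟩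
        intro h
        have := hinjV i n (by omega) le_rfl (by rw [hend]; exact h)
        omega
    rw [h1]
    exact chain_conn G _ (n - 1) fun i hi => hstep i (by omega)
  · refine ⟨p.getVert (n - 1), ⟨n - 1, by simp, rfl⟩, ?_, ?_⟩
    · intro h
      have := hinjV (n - 1) n (by omega) le_rfl (by rw [hend]; exact h)
      omega
    · have := hstep (n - 1) (by omega)
      rw [Nat.sub_add_cancel hn1, hend] at this
      exact this

end Pool.Agent.PHer

end

section

/-!
# H5: an induced subgraph of bounded degree with a grid minor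
-/

set_option autoImplicit false

namespace Pool.Agent.PHer

open Pool.Agent.PEmb Pool.Agent.PReg

namespace ItH5

/-- Adding vertices which lie in or are adjacent to a connected set. -/
theorem addConn {V : Type} (G : SimpleGraph V) (H T : Set V) (hH : (G.induce H).Connected)
    (hT : ∀ x ∈ T, x ∈ H ∨ ∃ v ∈ H, G.Adj x v) : (G.induce (H ∪ T)).Connected := by
  have hne : Nonempty H := hH.nonempty
  obtain ⟨⟨h0, hh0⟩⟩ := hne
  rw [SimpleGraph.connected_iff_exists_forall_reachable]
  refine ⟨⟨h0, Or.inl hh0⟩, ?_⟩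
  have key : ∀ x (hx : x ∈ H), (G.induce (H ∪ T)).Reachable ⟨h0, Or.inl hh0⟩ ⟨x, Or.inl hx⟩ := by
    intro x hx
    have h1 := hH.preconnected ⟨h0, hh0⟩ ⟨x, hx⟩
    exact h1.map (SimpleGraph.induceHomOfLE G (Set.subset_union_left : H ⊆ H ∪ T)).toHom
  rintro ⟨x, hx⟩
  rcases hx with hx | hx
  · exact key x hx
  · rcases hT x hx with h | ⟨v, hv, hadj⟩
    · exact key x h
    · refine (key v hv).trans (SimpleGraph.Adj.reachable ?_)
      exact hadj.symm

/-- Restricting edges to a superset does not change an induced subgraph. -/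
theorem indRs {V : Type} (G : SimpleGraph V) (S B : Set V) (hB : B ⊆ S)
    (h : (G.induce B).Connected) : ((rs G S).induce B).Connected := by
  have : (rs G S).induce B = G.induce B := by
    ext a b
    simp only [SimpleGraph.comap_adj, Function.Embedding.subtype_apply]
    constructor
    · intro h
      exact h.1
    · intro h
      exact ⟨h, hB a.2, hB b.2⟩
  rw [this]
  exact h

end ItH5

theorem H5 (hH2 : PH2) (hH3 : PH3) : PH5 := by
  intro V _ G k Hb C hS
  classical
  rcases isEmpty_or_nonempty V with hV | hV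
  · refine ⟨∅, fun v => (hV.false v).elim, fun _ _ => ∅, ?_⟩
    have hk : ∀ i j, i < k → j < k → False := by
      intro i j hi hj
      obtain ⟨⟨v, _⟩⟩ := (hS.hconn i j hi hj).nonempty
      exact hV.false v
    exact ⟨fun x y hx hy => (hk x y hx hy).elim, fun x y _ _ hx hy _ _ _ => (hk x y hx hy).elim,
      fun x y hx hy => (hk x y (by omega) hy).elim, fun x y hx hy => (hk x y hx (by omega)).elim⟩
  · -- bounds from `Ex`
    have exl : ∀ o i j, Ex k o i j → i < k ∧ j < k := by
      intro o i j h
      cases o <;> simp only [Ex, nx] at h <;> omega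
    have hD : ∀ o i j, Ex k o i j → ∃ (D : Set V) (c c' : V), D ⊆ C o i j ∧ c ∈ D ∧ c' ∈ D ∧
        c ≠ c' ∧ (∃ v ∈ Hb i j, G.Adj c v) ∧
        (∃ v ∈ Hb (nx o i j).1 (nx o i j).2, G.Adj c' v) ∧
        (∀ u ∈ D, ∀ v ∈ Hb i j, G.Adj u v → u = c) ∧
        (∀ u ∈ D, ∀ v ∈ Hb (nx o i j).1 (nx o i j).2, G.Adj u v → u = c') ∧
        (∀ v ∈ D, {u | u ∈ D ∧ G.Adj v u}.ncard ≤ 2) ∧
        (G.induce (D \ {c'})).Connected ∧ ∃ u ∈ D, u ≠ c' ∧ G.Adj u c' := by
      intro o i j h
      exact hH3 G (Hb i j) (Hb (nx o i j).1 (nx o i j).2) (C o i j) (hS.cconn o i j h)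
        (hS.c0 o i j h) (hS.c1 o i j h) (hS.cno o i j h)
    choose! D c c' hDC hcD hcD' hne hca hca' hua hua' hdeg hDconn hnb using hD
    have he : ∀ i j, i < k → j < k → ∃ v, v ∈ Hb i j := by
      intro i j hi hj
      obtain ⟨⟨v, hv⟩⟩ := (hS.hconn i j hi hj).nonempty
      exact ⟨v, hv⟩
    choose! e he using he
    -- the terminals
    have ht : ∀ i j, i < k → j < k → ∃ t : ℕ → V,
        (Ex k false i j → t 0 = c false i j) ∧ (Ex k true i j → t 1 = c true i j) ∧
        (∀ b, j = b + 1 → t 2 = c' false i b) ∧ (∀ a, i = a + 1 → t 3 = c' true a j) ∧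
        (∀ n, n < 4 → (t n ∈ Hb i j) ∨ (∃ o, Ex k o i j ∧ t n = c o i j) ∨
          ∃ o a b, Ex k o a b ∧ nx o a b = (i, j) ∧ t n = c' o a b) := by
      intro i j hi hj
      refine ⟨fun n =>
        if n = 0 then (if Ex k false i j then c false i j else e i j)
        else if n = 1 then (if Ex k true i j then c true i j else e i j)
        else if n = 2 then (if 1 ≤ j then c' false i (j - 1) else e i j)
        else (if 1 ≤ i then c' true (i - 1) j else e i j), ?_, ?_, ?_, ?_, ?_⟩
      · intro h
        simp [h]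
      · intro h
        simp [h]
      · intro b hb
        subst hb
        simp
      · intro a ha
        subst ha
        simp
      · intro n hn
        have hn' : n = 0 ∨ n = 1 ∨ n = 2 ∨ n = 3 := by omega
        rcases hn' with rfl | rfl | rfl | rfl
        · by_cases h : Ex k false i j
          · right; left
            exact ⟨false, h, by simp [h]⟩
          · left
            simp only [h, if_true, if_false]
            exact he i j hi hj
        · by_cases h : Ex k true i j
          · right; left
            exact ⟨true, h, by simp [h]⟩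
          · left
            simp only [h, if_false, one_ne_zero, if_true]
            exact he i j hi hj
        · by_cases h : 1 ≤ j
          · right; right
            refine ⟨false, i, j - 1, ?_, ?_, by simp [h]⟩
            · simp only [Ex, nx]; omega
            · simp only [nx, Prod.mk.injEq, true_and]; omega
          · left
            simp only [h, if_false, OfNat.ofNat_ne_zero, OfNat.ofNat_ne_one, if_true]
            exact he i j hi hj
        · by_cases h : 1 ≤ i
          · right; right
            refine ⟨true, i - 1, j, ?_, ?_, by simp [h]⟩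
            · simp only [Ex, nx]; omega
            · simp only [nx, Prod.mk.injEq, and_true]; omega
          · left
            simp only [h, if_false, OfNat.ofNat_ne_zero, OfNat.ofNat_ne_one]
            exact he i j hi hj
    choose! t ht0 ht1 ht2 ht3 htn using ht
    -- the regions
    have hJ : ∀ i j, i < k → j < k → ∃ J : Set V,
        J ⊆ Hb i j ∪ {x | ∃ n, n < 4 ∧ x = t i j n} ∧ (∀ n, n < 4 → t i j n ∈ J) ∧
        (G.induce J).Connected ∧ ∀ v ∈ Hb i j ∪ {x | ∃ n, n < 4 ∧ x = t i j n},
          {u | u ∈ J ∧ G.Adj v u}.ncard ≤ 9 := by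
      intro i j hi hj
      refine hH2 G _ (t i j) (ItH5.addConn G _ _ (hS.hconn i j hi hj) ?_)
        (fun n hn => Or.inr ⟨n, hn, rfl⟩)
      rintro x ⟨n, hn, rfl⟩
      rcases htn i j hi hj n hn with h | ⟨o, ho, h⟩ | ⟨o, a, b, ho, hab, h⟩
      · exact Or.inl h
      · right
        rw [h]
        exact hca o i j ho
      · right
        rw [h]
        have := hca' o a b ho
        rw [hab] at this
        exact this
    choose! J hJR htJ hJconn hJ9 using hJ
    -- elements of `J i j`
    have hJc : ∀ i j, i < k → j < k → ∀ v ∈ J i j, v ∈ Hb i j ∨ (∃ o, Ex k o i j ∧ v = c o i j) ∨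
        ∃ o a b, Ex k o a b ∧ nx o a b = (i, j) ∧ v = c' o a b := by
      intro i j hi hj v hv
      rcases hJR i j hi hj hv with h | ⟨n, hn, rfl⟩
      · exact Or.inl h
      · exact htn i j hi hj n hn
    have hcJ : ∀ o i j, Ex k o i j → c o i j ∈ J i j := by
      intro o i j h
      obtain ⟨hi, hj⟩ := exl o i j h
      cases o
      · rw [← ht0 i j hi hj h]
        exact htJ i j hi hj 0 (by omega)
      · rw [← ht1 i j hi hj h]
        exact htJ i j hi hj 1 (by omega)
    have hcJ' : ∀ o i j, Ex k o i j → c' o i j ∈ J (nx o i j).1 (nx o i j).2 := by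
      intro o i j h
      cases o
      · have h' : i < k ∧ j + 1 < k := h
        simp only [nx]
        rw [← ht2 i (j + 1) h'.1 h'.2 j rfl]
        exact htJ i (j + 1) h'.1 h'.2 2 (by omega)
      · have h' : i + 1 < k ∧ j < k := h
        simp only [nx]
        rw [← ht3 (i + 1) j h'.1 h'.2 i rfl]
        exact htJ (i + 1) j h'.1 h'.2 3 (by omega)
    -- the set `S`
    let S : Set V := {v | (∃ i j, i < k ∧ j < k ∧ v ∈ J i j) ∨ ∃ o i j, Ex k o i j ∧ v ∈ D o i j}
    have hSc : ∀ v ∈ S, (∃ i j, i < k ∧ j < k ∧ v ∈ J i j ∧ v ∈ Hb i j) ∨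
        ∃ o i j, Ex k o i j ∧ v ∈ D o i j := by
      rintro v (⟨i, j, hi, hj, hv⟩ | h)
      · rcases hJc i j hi hj v hv with h | ⟨o, ho, rfl⟩ | ⟨o, a, b, ho, hab, rfl⟩
        · exact Or.inl ⟨i, j, hi, hj, hv, h⟩
        · exact Or.inr ⟨o, i, j, ho, hcD o i j ho⟩
        · exact Or.inr ⟨o, a, b, ho, hcD' o a b ho⟩
      · exact Or.inr h
    refine ⟨S, ?_, ?_⟩
    · -- degrees
      intro v
      by_cases hvS : v ∈ S
      swap
      · have : (rs G S).neighborSet v = ∅ := by
          ext u
          simp only [SimpleGraph.mem_neighborSet, Set.mem_empty_iff_false, iff_false]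
          intro h
          exact hvS h.2.1
        simp [dg, this]
      rcases hSc v hvS with ⟨i, j, hi, hj, hvJ, hvH⟩ | ⟨o, i, j, ho, hvD⟩
      · -- a hub vertex
        have hsub : (rs G S).neighborSet v ⊆ {u | u ∈ J i j ∧ G.Adj v u} := by
          intro u hu
          have hadj : G.Adj v u := hu.1
          have huS : u ∈ S := hu.2.2
          refine ⟨?_, hadj⟩
          rcases hSc u huS with ⟨a, b, ha, hb, huJ, huH⟩ | ⟨o, a, b, ho, huD⟩
          · by_cases hab : (i, j) = (a, b)
            · simp only [Prod.mk.injEq] at hab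
              rw [hab.1, hab.2]
              exact huJ
            · exact ((hS.hh i j a b hi hj ha hb hab v hvH u huH).2 hadj).elim
          · rcases (hS.ch o a b i j ho hi hj u (hDC o a b ho huD) v hvH).2 hadj.symm with h | h
            · simp only [Prod.mk.injEq] at h
              rw [h.1, h.2] at hvH ⊢
              rw [hua o a b ho u huD v hvH hadj.symm]
              exact hcJ o a b ho
            · have h1 : i = (nx o a b).1 := congrArg Prod.fst h
              have h2 : j = (nx o a b).2 := congrArg Prod.snd h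
              rw [h1, h2] at hvH ⊢
              rw [hua' o a b ho u huD v hvH hadj.symm]
              exact hcJ' o a b ho
        calc dg (rs G S) v ≤ {u | u ∈ J i j ∧ G.Adj v u}.ncard :=
              Set.ncard_le_ncard hsub (Set.toFinite _)
          _ ≤ 9 := hJ9 i j hi hj v (Or.inl hvH)
          _ ≤ 11 := by norm_num
      · -- a chain vertex
        have hX : ∃ X : Set V, X.ncard ≤ 9 ∧ ∀ a b, a < k → b < k → ∀ u, u ∈ J a b → u ∈ Hb a b →
            G.Adj v u → u ∈ X := by
          obtain ⟨hi, hj⟩ := exl o i j ho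
          by_cases h1 : v = c o i j
          · refine ⟨{u | u ∈ J i j ∧ G.Adj v u}, ?_, ?_⟩
            · exact hJ9 i j hi hj v (hJR i j hi hj (by rw [h1]; exact hcJ o i j ho))
            · intro a b ha hb u huJ huH hadj
              rcases (hS.ch o i j a b ho ha hb v (hDC o i j ho hvD) u huH).2 hadj with h | h
              · simp only [Prod.mk.injEq] at h
                rw [h.1, h.2] at huJ
                exact ⟨huJ, hadj⟩
              · have h2 : a = (nx o i j).1 := congrArg Prod.fst h
                have h3 : b = (nx o i j).2 := congrArg Prod.snd h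
                rw [h2, h3] at huH
                exact (hne o i j ho (h1.symm.trans (hua' o i j ho v hvD u huH hadj))).elim
          · by_cases h1' : v = c' o i j
            · refine ⟨{u | u ∈ J (nx o i j).1 (nx o i j).2 ∧ G.Adj v u}, ?_, ?_⟩
              · exact hJ9 _ _ ho.1 ho.2 v
                  (hJR _ _ ho.1 ho.2 (by rw [h1']; exact hcJ' o i j ho))
              · intro a b ha hb u huJ huH hadj
                rcases (hS.ch o i j a b ho ha hb v (hDC o i j ho hvD) u huH).2 hadj with h | h
                · simp only [Prod.mk.injEq] at h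
                  rw [h.1, h.2] at huH
                  exact (h1 (hua o i j ho v hvD u huH hadj)).elim
                · have h2 : a = (nx o i j).1 := congrArg Prod.fst h
                  have h3 : b = (nx o i j).2 := congrArg Prod.snd h
                  rw [h2, h3] at huJ
                  exact ⟨huJ, hadj⟩
            · refine ⟨∅, by simp, ?_⟩
              intro a b ha hb u huJ huH hadj
              rcases (hS.ch o i j a b ho ha hb v (hDC o i j ho hvD) u huH).2 hadj with h | h
              · simp only [Prod.mk.injEq] at h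
                rw [h.1, h.2] at huH
                exact (h1 (hua o i j ho v hvD u huH hadj)).elim
              · have h2 : a = (nx o i j).1 := congrArg Prod.fst h
                have h3 : b = (nx o i j).2 := congrArg Prod.snd h
                rw [h2, h3] at huH
                exact (h1' (hua' o i j ho v hvD u huH hadj)).elim
        obtain ⟨X, hX9, hX⟩ := hX
        have hsub : (rs G S).neighborSet v ⊆ {u | u ∈ D o i j ∧ G.Adj v u} ∪ X := by
          intro u hu
          have hadj : G.Adj v u := hu.1
          have huS : u ∈ S := hu.2.2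
          rcases hSc u huS with ⟨a, b, ha, hb, huJ, huH⟩ | ⟨o', a, b, ho', huD⟩
          · exact Or.inr (hX a b ha hb u huJ huH hadj)
          · left
            by_cases hab : (o, i, j) = (o', a, b)
            · simp only [Prod.mk.injEq] at hab
              obtain ⟨rfl, rfl, rfl⟩ := hab
              exact ⟨huD, hadj⟩
            · exact ((hS.cc o i j o' a b ho ho' hab v (hDC o i j ho hvD) u
                (hDC o' a b ho' huD)).2 hadj).elim
        calc dg (rs G S) v ≤ ({u | u ∈ D o i j ∧ G.Adj v u} ∪ X).ncard :=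
              Set.ncard_le_ncard hsub (Set.toFinite _)
          _ ≤ {u | u ∈ D o i j ∧ G.Adj v u}.ncard + X.ncard := Set.ncard_union_le _ _
          _ ≤ 2 + 9 := Nat.add_le_add (hdeg o i j ho v hvD) hX9
    · -- the grid
      let E : Bool → ℕ → ℕ → Set V := fun o i j => {v | Ex k o i j ∧ v ∈ D o i j ∧ v ≠ c' o i j}
      let B : ℕ → ℕ → Set V := fun i j => J i j ∪ E false i j ∪ E true i j
      have hBc : ∀ i j, i < k → j < k → ∀ v ∈ B i j, v ∈ Hb i j ∨
          (∃ o, Ex k o i j ∧ v ∈ D o i j ∧ v ≠ c' o i j) ∨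
          ∃ o a b, Ex k o a b ∧ nx o a b = (i, j) ∧ v = c' o a b := by
        intro i j hi hj v hv
        rcases hv with (hv | hv) | hv
        · rcases hJc i j hi hj v hv with h | ⟨o, ho, rfl⟩ | h
          · exact Or.inl h
          · exact Or.inr (Or.inl ⟨o, ho, hcD o i j ho, hne o i j ho⟩)
          · exact Or.inr (Or.inr h)
        · exact Or.inr (Or.inl ⟨false, hv⟩)
        · exact Or.inr (Or.inl ⟨true, hv⟩)
      have hstep : ∀ o i j, Ex k o i j → ∃ a ∈ B i j, ∃ b ∈ B (nx o i j).1 (nx o i j).2,
          (rs G S).Adj a b := by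
        intro o i j ho
        obtain ⟨u, huD, hune, hadj⟩ := hnb o i j ho
        refine ⟨u, ?_, c' o i j, Or.inl (Or.inl (hcJ' o i j ho)), hadj, Or.inr ⟨o, i, j, ho, huD⟩,
          Or.inr ⟨o, i, j, ho, hcD' o i j ho⟩⟩
        cases o
        · exact Or.inl (Or.inr ⟨ho, huD, hune⟩)
        · exact Or.inr ⟨ho, huD, hune⟩
      refine ⟨B, ?_, ?_, ?_, ?_⟩
      · -- connected
        intro i j hi hj
        apply ItH5.indRs
        · rintro v ((hv | hv) | hv)
          · exact Or.inl ⟨i, j, hi, hj, hv⟩
          · exact Or.inr ⟨false, i, j, hv.1, hv.2.1⟩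
          · exact Or.inr ⟨true, i, j, hv.1, hv.2.1⟩
        · have hE : ∀ (o : Bool) (K : Set V), J i j ⊆ K → (G.induce K).Connected →
              (G.induce (K ∪ E o i j)).Connected := by
            intro o K hJK hK
            by_cases ho : Ex k o i j
            · have hEe : E o i j = D o i j \ {c' o i j} := by
                ext v
                simp only [E, Set.mem_ofPred_eq, Set.mem_sdiff, Set.mem_singleton_iff, ho, true_and,
                  ne_eq]
              rw [hEe]
              refine SimpleGraph.induce_union_connected hK.preconnected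
                (hDconn o i j ho).preconnected ?_
              exact ⟨c o i j, hJK (hcJ o i j ho), hcD o i j ho, hne o i j ho⟩
            · have hEe : E o i j = ∅ := by
                ext v
                simp only [E, Set.mem_ofPred_eq, Set.mem_empty_iff_false, iff_false]
                exact fun h => ho h.1
              rw [hEe, Set.union_empty]
              exact hK
          exact hE true _ Set.subset_union_left
            (hE false _ (Set.Subset.refl _) (hJconn i j hi hj))
      · -- disjoint
        intro i j i' j' hi hj hi' hj' hne'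
        rw [Set.disjoint_left]
        intro v hv hv'
        rcases hBc i j hi hj v hv with h | ⟨o, ho, hD1, hc1⟩ | ⟨o, a, b, ho, hab, h⟩
        · rcases hBc i' j' hi' hj' v hv' with g | ⟨o', ho', hD2, hc2⟩ | ⟨o', a', b', ho', hab', g⟩
          · exact (hS.hh i j i' j' hi hj hi' hj' hne' v h v g).1 rfl
          · exact (hS.ch o' i' j' i j ho' hi hj v (hDC _ _ _ ho' hD2) v h).1 rfl
          · have hvD : v ∈ D o' a' b' := by rw [g]; exact hcD' o' a' b' ho'
            exact (hS.ch o' a' b' i j ho' hi hj v (hDC _ _ _ ho' hvD) v h).1 rfl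
        · rcases hBc i' j' hi' hj' v hv' with g | ⟨o', ho', hD2, hc2⟩ | ⟨o', a', b', ho', hab', g⟩
          · exact (hS.ch o i j i' j' ho hi' hj' v (hDC _ _ _ ho hD1) v g).1 rfl
          · refine (hS.cc o i j o' i' j' ho ho' ?_ v (hDC _ _ _ ho hD1) v
              (hDC _ _ _ ho' hD2)).1 rfl
            intro hh
            simp only [Prod.mk.injEq] at hh
            exact hne' (by rw [hh.2.1, hh.2.2])
          · have hvD : v ∈ D o' a' b' := by rw [g]; exact hcD' o' a' b' ho'
            refine (hS.cc o i j o' a' b' ho ho' ?_ v (hDC _ _ _ ho hD1) v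
              (hDC _ _ _ ho' hvD)).1 rfl
            intro hh
            simp only [Prod.mk.injEq] at hh
            obtain ⟨rfl, rfl, rfl⟩ := hh
            exact hc1 g
        · have hvD : v ∈ D o a b := by rw [h]; exact hcD' o a b ho
          rcases hBc i' j' hi' hj' v hv' with g | ⟨o', ho', hD2, hc2⟩ | ⟨o', a', b', ho', hab', g⟩
          · exact (hS.ch o a b i' j' ho hi' hj' v (hDC _ _ _ ho hvD) v g).1 rfl
          · refine (hS.cc o a b o' i' j' ho ho' ?_ v (hDC _ _ _ ho hvD) v
              (hDC _ _ _ ho' hD2)).1 rfl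
            intro hh
            simp only [Prod.mk.injEq] at hh
            obtain ⟨rfl, rfl, rfl⟩ := hh
            exact hc2 h
          · have hvD' : v ∈ D o' a' b' := by rw [g]; exact hcD' o' a' b' ho'
            refine (hS.cc o a b o' a' b' ho ho' ?_ v (hDC _ _ _ ho hvD) v
              (hDC _ _ _ ho' hvD')).1 rfl
            intro hh
            simp only [Prod.mk.injEq] at hh
            obtain ⟨rfl, rfl, rfl⟩ := hh
            exact hne' (hab.symm.trans hab')
      · intro x y hx hy
        exact hstep true x y ⟨hx, hy⟩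
      · intro x y hx hy
        exact hstep false x y ⟨hx, hy⟩

end Pool.Agent.PHer

end
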