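import Pool.Agent.Work.MP_cfa43e_lc.Her.Stmts
import Pool.Agent.Work.MP_cfa43e_lc.Bd.B10
import Pool.Agent.Work.MP_cfa43e_lc.Bd.B04
import Pool.Agent.Work.MP_cfa43e_lc.Q9
import Pool.Agent.Work.MP_cfa43e_lc.Bd.B02
import Pool.Agent.Work.MP_cfa43e_lc.Her.StmtsD
import Pool.Agent.Work.MP_cfa43e_lc.Her.StmtsH
import Pool.Agent.Work.MP_cfa43e_lc.Reg.All
import Pool.Agent.Work.MP_cfa43e_lc.Bd.B09
import Pool.Agent.Work.MP_cfa43e_lc.Her.T1
import Pool.Agent.Work.MP_cfa43e_lc.Her.T4
import Pool.Agent.Work.MP_cfa43e_lc.Her.P6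
import Pool.Agent.Work.MP_cfa43e_lc.Bd.B11
import Pool.Agent.Work.MP_cfa43e_lc.Her.D14
import Pool.Agent.Work.MP_cfa43e_lc.Her.D17
import Pool.Agent.Work.MP_cfa43e_lc.Her.D20

/-! Bundle of small proof modules (one section per former module). -/

section

/-!
# P5: disjoint cores, adjacency between cores
-/

set_option autoImplicit false

namespace Pool.Agent.PHer

open Pool.Agent.PEmb Pool.Agent.PReg

namespace ItP5

variable {K : ℕ} {P : Par} {col : Lab → Bool}

lemma zone_hl {k i j d s : ℕ} (hA : Adm (k + 2) P) (hi : i < k) (hj : j < k) (hd : d < 4)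
    (hs : s ≤ 2) : zone P (hl P (i + 1) (j + 1) d s) = .cell (i + 1) (j + 1) := by
  have h := ItP4.dt_all hi hj hd
  have h5 := ItR7.al_ge hA h
  exact ItR7.zone_lt hA h (by omega)

lemma zone_cs {k i j : ℕ} (hA : Adm (k + 2) P) (hi : i < k) (hj : j < k) {u : Lab}
    (hu : u ∈ Cs P col i j) : zone P u = .cell (i + 1) (j + 1) := by
  obtain ⟨-, ⟨s, hs, rfl⟩ | ⟨d, hd, -, rfl⟩⟩ := hu
  · rfl
  · exact zone_hl hA hi hj hd (by omega)

lemma zone_nb {k i j : ℕ} (hA : Adm (k + 2) P) (hi : i < k) (hj : j < k) {u w : Lab}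
    (hu : u ∈ Cs P col i j) (h : AAdj (k + 2) P u w) : zone P w = .cell (i + 1) (j + 1) := by
  obtain ⟨-, ⟨s, hs, rfl⟩ | ⟨d, hd, -, rfl⟩⟩ := hu
  · rcases ItP4.nb_core' hs h with rfl | rfl | ⟨d, hd, -, rfl⟩
    · rfl
    · rfl
    · exact zone_hl hA hi hj hd (by omega)
  · have hD := ItP4.dt_all hi hj hd
    have h10 := ItR7.lg_ge hA hD
    rcases ItP4.nb_hl hA hD le_rfl (by omega) h with rfl | rfl
    · exact zone_hl hA hi hj hd (by omega)
    · exact zone_hl hA hi hj hd (by omega)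

end ItP5

theorem P5 : PP5 := by
  intro k P col hA hAlt i j i' j' hi hj hi' hj'
  have hA' : Adm (k + 2) P := hA.toAdm
  refine ⟨?_, ?_⟩
  · intro hne
    rw [Set.disjoint_left]
    intro x hx hx'
    have h1 := ItP5.zone_cs hA' hi hj hx
    have h2 := ItP5.zone_cs hA' hi' hj' hx'
    rw [h1] at h2
    injection h2 with h3 h4
    exact hne (by rw [Prod.mk.injEq]; omega)
  · intro u hu v hv huv
    obtain ⟨-, -, -, w, h1, h2⟩ := huv
    have h3 := ItP5.zone_nb hA' hi hj hu h1
    have h4 := ItP5.zone_nb hA' hi' hj' hv (show AAdj (k + 2) P v w from h2.symm)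
    rw [h3] at h4
    injection h4 with h5 h6
    omega

end Pool.Agent.PHer

end

section

/-!
# Hereditary classes of graphs without large induced stars
-/

set_option autoImplicit false

namespace Pool.Agent.PHer

open Pool.Agent.PEmb Pool.Agent.PReg

/-- Finite Ramsey theorem. -/
theorem ramsey (p q : ℕ) : ∃ N : ℕ, ∀ {V : Type} (G : SimpleGraph V) (S : Finset V),
    N ≤ S.card → (∃ K ⊆ S, K.card = p ∧ G.IsClique (K : Set V)) ∨
      (∃ K ⊆ S, K.card = q ∧ Gᶜ.IsClique (K : Set V)) := by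
  classical
  induction p generalizing q with
  | zero =>
    refine ⟨0, fun {V} G S _ => Or.inl ⟨∅, by simp, by simp, by simp⟩⟩
  | succ p ihp =>
    induction q with
    | zero => exact ⟨0, fun {V} G S _ => Or.inr ⟨∅, by simp, by simp, by simp⟩⟩
    | succ q ihq =>
      obtain ⟨N1, h1⟩ := ihp (q + 1)
      obtain ⟨N2, h2⟩ := ihq
      refine ⟨N1 + N2 + 1, fun {V} G S hS => ?_⟩
      have hne : S.Nonempty := by
        rw [← Finset.card_pos]; omega
      obtain ⟨v, hv⟩ := hne
      set A := (S.erase v).filter (fun w => G.Adj v w) with hA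
      set B := (S.erase v).filter (fun w => ¬ G.Adj v w) with hB
      have hAB : A.card + B.card = (S.erase v).card :=
        Finset.card_filter_add_card_filter_not _
      rw [Finset.card_erase_of_mem hv] at hAB
      by_cases hcase : N1 ≤ A.card
      · rcases h1 G A hcase with ⟨K, hK, hc, hcl⟩ | ⟨K, hK, hc, hcl⟩
        · left
          have hvK : v ∉ K := fun h => by
            have := hK h
            simp [hA] at this
          refine ⟨insert v K, ?_, ?_, ?_⟩
          · intro w hw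
            rcases Finset.mem_insert.mp hw with rfl | hw
            · exact hv
            · exact (Finset.mem_erase.mp (Finset.mem_filter.mp (hK hw)).1).2
          · rw [Finset.card_insert_of_notMem hvK, hc]
          · rw [Finset.coe_insert, SimpleGraph.isClique_insert]
            exact ⟨hcl, fun w hw _ => (Finset.mem_filter.mp (hK hw)).2⟩
        · right
          refine ⟨K, ?_, hc, hcl⟩
          intro w hw
          exact (Finset.mem_erase.mp (Finset.mem_filter.mp (hK hw)).1).2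
      · have hcase2 : N2 ≤ B.card := by omega
        rcases h2 G B hcase2 with ⟨K, hK, hc, hcl⟩ | ⟨K, hK, hc, hcl⟩
        · left
          refine ⟨K, ?_, hc, hcl⟩
          intro w hw
          exact (Finset.mem_erase.mp (Finset.mem_filter.mp (hK hw)).1).2
        · right
          have hvK : v ∉ K := fun h => by
            have := hK h
            simp [hB] at this
          refine ⟨insert v K, ?_, ?_, ?_⟩
          · intro w hw
            rcases Finset.mem_insert.mp hw with rfl | hw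
            · exact hv
            · exact (Finset.mem_erase.mp (Finset.mem_filter.mp (hK hw)).1).2
          · rw [Finset.card_insert_of_notMem hvK, hc]
          · rw [Finset.coe_insert, SimpleGraph.isClique_insert]
            refine ⟨hcl, fun w hw hne => ?_⟩
            rw [SimpleGraph.compl_adj]
            exact ⟨hne, (Finset.mem_filter.mp (hK hw)).2⟩

/-- `G` has no induced star with `t` leaves. -/
def NoStar {V : Type} (t : ℕ) (G : SimpleGraph V) : Prop :=
  ∀ (v : V) (s : Finset V), (∀ u ∈ s, G.Adj v u) → (∀ u ∈ s, ∀ u' ∈ s, ¬ G.Adj u u') →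
    s.card < t

/-- Graphs without large induced stars and cliques have bounded degree. -/
theorem deg_le {V : Type} [Finite V] (s t : ℕ) (N : ℕ)
    (hN : ∀ (G : SimpleGraph V) (S : Finset V), N ≤ S.card →
      (∃ K ⊆ S, K.card = s ∧ G.IsClique (K : Set V)) ∨
        (∃ K ⊆ S, K.card = t ∧ Gᶜ.IsClique (K : Set V)))
    (G : SimpleGraph V) (hs : NoStar t G) (hc : ¬ Kq s G) (v : V) :
    (G.neighborSet v).ncard ≤ N := by
  classical
  by_contra hcon
  push Not at hcon
  have hfin := Set.toFinite (G.neighborSet v)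
  rcases hN G hfin.toFinset (by
    rw [← Set.ncard_eq_toFinset_card _ hfin]; exact hcon.le) with ⟨K, hK, hcard, hcl⟩ |
    ⟨K, hK, hcard, hcl⟩
  · apply hc
    let e := (Finset.equivFinOfCardEq hcard).symm
    refine ⟨fun a => (e a : V), fun a b hab => ?_⟩
    refine hcl (Finset.mem_coe.mpr (e a).2) (Finset.mem_coe.mpr (e b).2) fun h => hab ?_
    exact e.injective (Subtype.ext h)
  · have := hs v K (fun u hu => by
      have := hK hu
      simpa using this) (fun u hu u' hu' huu => by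
        have h1 := hcl (Finset.mem_coe.mpr hu) (Finset.mem_coe.mpr hu') huu.ne
        rw [SimpleGraph.compl_adj] at h1
        exact h1.2 huu)
    omega

/-! ## Classes which contain all complete graphs -/

/-- The reduction. -/
def redK (x : List (List Bool) × (Code × ℕ)) : Code × Code := (x.1, x.2.1)

open Pool.Agent.PT N487b59b3 Pool.Agent.Work.MP_5296b6_lc in
theorem redK_poly : N68a2faeb.IsPolyTime redK := by
  unfold N68a2faeb.IsPolyTime N68a2faeb.IsPolyTimeWithEncoding
  have h1 : PTF (fun x : List Bool => IQ9.dLL (pPair x).1) :=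
    IQ9.ptf_dLL.comp (PTF.fst.comp IQ9.ptf_pPair)
  have h2 : PTF (fun x : List Bool => IQ9.dLL (pPair (pPair x).2).1) :=
    IQ9.ptf_dLL.comp (PTF.fst.comp (IQ9.ptf_pPair.comp (PTF.snd.comp IQ9.ptf_pPair)))
  have h3 : PTF (fun x : List Bool => ((IQ9.dLL (pPair x).1,
      IQ9.dLL (pPair (pPair x).2).1) : Code × Code)) := PTF.pair h1 h2
  have h4 : EncP (Code × Code) := EncP.prod (EncP.list (EncP.list EncP.bool))
    (EncP.list (EncP.list EncP.bool))
  refine tm2_of (g := fun x => bitEncode ((IQ9.dLL (pPair x).1,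
      IQ9.dLL (pPair (pPair x).2).1) : Code × Code)) (h4.apply h3) ?_
  intro x
  obtain ⟨a, G, k⟩ := x
  have e1 : pPair (bitEncode (a, (G, k))) = (bitEncode a, bitEncode (G, k)) := pPair_eq _
  have e2 : pPair (bitEncode (G, k)) = (bitEncode G, bitEncode k) := pPair_eq _
  show bitEncode ((IQ9.dLL (pPair (bitEncode (a, (G, k)))).1,
      IQ9.dLL (pPair (pPair (bitEncode (a, (G, k)))).2).1) : Code × Code) = bitEncode _
  rw [e1]
  dsimp only
  rw [e2]
  dsimp only
  rw [IQ9.dLL_eq, IQ9.dLL_eq]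
  rfl

theorem kc_adj (k : ℕ) (a b : Fin (kc k).length) : (graph (kc k)).Adj a b ↔ a ≠ b := by
  constructor
  · exact fun h => h.ne
  · intro h
    refine ⟨h, Or.inl ?_⟩
    have ha : a.1 < k := by have := a.2; simpa only [ItB10.kc_length] using this
    have hb : b.1 < k := by have := b.2; simpa only [ItB10.kc_length] using this
    rw [ItB10.kc_entry k a.1 b.1 ha hb, decide_eq_true_eq]
    exact fun h' => h (Fin.ext h')

theorem kc_embeds {W : Type} (k : ℕ) (G : SimpleGraph W) : Embeds (graph (kc k)) G ↔ Kq k G := by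
  constructor
  · rintro ⟨f, hf, hf2⟩
    refine ⟨fun a => f (Fin.cast (ItB10.kc_length k).symm a), fun a b hab => hf2 _ _ ?_⟩
    rw [kc_adj]
    exact fun h => hab (Fin.cast_injective _ h)
  · rintro ⟨w, hw⟩
    refine ⟨fun a => w (Fin.cast (ItB10.kc_length k) a), fun a b hab => ?_, fun a b hab => ?_⟩
    · by_contra hne
      exact (hw _ _ (fun h => hne (Fin.cast_injective _ h))).ne hab
    · exact hw _ _ (fun h => hab.ne (Fin.cast_injective _ h))

theorem MainK (C : Code → Prop) (hC : ∀ k, C (kc k)) :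
    FptReducible Clique cliqueParam (Emb C) embParam := by
  refine ⟨kc, fun k => (N487b59b3.bitEncode (kc k)).length, redK, ItB8.kcPrim.to_comp, ?_,
    redK_poly, ?_⟩
  · exact (Q11.comp ItB8.kcPrim).to_comp
  · rintro ⟨G, k⟩
    refine ⟨?_, le_refl _⟩
    show Clique (G, k) ↔ C (kc k) ∧ Embeds (graph (kc k)) (graph G)
    rw [kc_embeds, B12]
    exact ⟨fun h => ⟨hC k, h⟩, fun h => h.2⟩

/-- The class contains graphs without induced stars with `t` leaves of arbitrarily large tree
width. -/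
def StarUnb (t : ℕ) (C : Code → Prop) : Prop := ∀ w : ℕ, ∃ A : Code, C A ∧
  NoStar t (graph A) ∧ ¬ TreeWidthLE (graph A) w

theorem her_kc {C : Code → Prop} (hH : Hereditary C) {A : Code} (hA : C A) {k : ℕ}
    (hk : Kq k (graph A)) : C (kc k) := by
  refine hH _ A hA ?_
  obtain ⟨w, hw⟩ := hk
  refine ⟨⟨⟨fun a => w (Fin.cast (ItB10.kc_length k) a), fun a b hab => ?_⟩,
    fun {a b} => ?_⟩⟩
  · by_contra hne
    exact (hw _ _ (fun h => hne (Fin.cast_injective _ h))).ne hab
  · show (graph A).Adj (w _) (w _) ↔ _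
    rw [kc_adj]
    constructor
    · rintro h rfl
      exact h.ne rfl
    · exact fun h => hw _ _ (fun h' => h (Fin.cast_injective _ h'))

theorem MainStar (hb : PB) (hs : PHerSem) (t : ℕ) (C : Code → Prop) (hC : ComputablePred C)
    (hH : Hereditary C) (hU : StarUnb t C) : FptReducible Clique cliqueParam (Emb C) embParam := by
  by_cases hk : ∀ k, C (kc k)
  · exact MainK C hk
  · push Not at hk
    obtain ⟨s, hs'⟩ := hk
    obtain ⟨N, hN⟩ := ramsey s t
    refine MainHer hb hs N C hC hH fun w => ?_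
    obtain ⟨A, hA, hst, htw⟩ := hU w
    refine ⟨A, hA, fun v => ?_, htw⟩
    exact deg_le s t N (fun G S hS => hN G S hS) (graph A) hst (fun h => hs' (her_kc hH hA h)) v

end Pool.Agent.PHer

end

section

/-!
# Assembly: hereditary classes of unbounded degeneracy
-/

set_option autoImplicit false

namespace Pool.Agent.PHer

open Pool.Agent.PEmb Pool.Agent.PReg

theorem grid_mono {V : Type} {G : SimpleGraph V} {K K' : ℕ} {B : ℕ → ℕ → Set V}
    (h : Grid G K' B) (hK : K ≤ K') : Grid G K B :=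
  ⟨fun x y hx hy => h.conn x y (by omega) (by omega),
    fun x y x' y' hx hy hx' hy' => h.disj x y x' y' (by omega) (by omega) (by omega) (by omega),
    fun x y hx hy => h.hor x y (by omega) (by omega),
    fun x y hx hy => h.ver x y (by omega) (by omega)⟩

open Classical in
theorem dg_rs_le {V : Type} (G : SimpleGraph V) (S : Finset V) (D : ℕ)
    (h : ∀ v ∈ S, dn G S v ≤ D) (v : V) : dg (rs G (S : Set V)) v ≤ D := by
  unfold dg
  by_cases hv : v ∈ S
  · have e : (rs G (S : Set V)).neighborSet v = ((S.filter fun u => G.Adj v u : Finset V) : Set V) := by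
      ext u
      simp only [SimpleGraph.mem_neighborSet, Finset.coe_filter, Set.mem_ofPred_eq]
      exact ⟨fun h => ⟨h.2.2, h.1⟩, fun h => ⟨h.2, hv, h.1⟩⟩
    rw [e, Set.ncard_coe_finset]
    exact h v hv
  · have e : (rs G (S : Set V)).neighborSet v = ∅ := by
      ext u
      simp only [SimpleGraph.mem_neighborSet, Set.mem_empty_iff_false, iff_false]
      exact fun h => hv h.2.1
    rw [e, Set.ncard_empty]
    omega

open Classical in
theorem dn_rs {V : Type} (G : SimpleGraph V) (S : Finset V) (v : V) (hv : v ∈ S) :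
    dn (rs G (S : Set V)) S v = dn G S v := by
  unfold dn
  congr 1
  apply Finset.filter_congr
  intro u hu
  exact ⟨fun h => h.1, fun h => ⟨h, hv, hu⟩⟩

open Classical in
theorem dn_mono {V : Type} (G : SimpleGraph V) {S S' : Finset V} (h : S ⊆ S') (v : V) :
    dn G S v ≤ dn G S' v :=
  Finset.card_le_card (Finset.filter_subset_filter _ h)

open Classical in
theorem dout_mono {V : Type} (G : SimpleGraph V) (o : V → ℕ) {S S' : Finset V} (h : S ⊆ S')
    (v : V) : dout G o S v ≤ dout G o S' v :=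
  Finset.card_le_card (Finset.filter_subset_filter _ h)

theorem D21_of (hS : PS) (hS5 : PS5) (hG : PGr) (d1 : PD1) (d3 : PD3) (d13 : PD13) (d16 : PD16)
    (d18 : PD18) (d19 : PD19) (d20 : PD20) : PD21 := by
  intro t K0
  obtain ⟨K, hKK, hK2⟩ : ∃ K, K0 ≤ K ∧ 2 ≤ K := ⟨K0 + 2, by omega, by omega⟩
  obtain ⟨s, hs⟩ := d20 K hK2
  obtain ⟨m, kB, hB⟩ := d19 t s
  obtain ⟨D, hD⟩ := d13 t (400 * (m + 1))
  obtain ⟨K', hK'⟩ := hS D K
  obtain ⟨w, hw⟩ := hG K'
  obtain ⟨kA, hA⟩ := hD (3 * w + 5)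
  refine ⟨kA + kB + 8, fun {V} _ G U0 hbic hne hdeg => ?_⟩
  have : Fintype V := Fintype.ofFinite V
  obtain ⟨U, k, o, hU, hk, hUdeg, hinj, hout⟩ := d1 G _ U0 hne hdeg
  rcases d3 G k (400 * (m + 1)) o U (by omega) (by omega) hU hUdeg hinj hout with
    ⟨M, hMU, hMne, hMdeg, hMe⟩ | ⟨X, hXU, Y, hYU, hXne, hXY, hXd, hXY2, hcard⟩
  · -- the almost regular case
    obtain ⟨S, hSM, hSne, hSd, hcyc⟩ := hA G k M (by omega) hbic hMne hMdeg hMe
    have htw : ¬ TreeWidthLE (rs G (S : Set V)) w := by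
      intro h
      obtain ⟨j, c, hj3, hj, hcS, hc⟩ := d16 (rs G (S : Set V)) w S h hSne
        (fun v hv => by rw [dn_rs G S v hv]; exact (hSd v hv).1)
      refine hcyc j hj3 hj c hcS ⟨hc.1, fun a b hab => (hc.2.1 a b hab).1,
        fun a b ha hb => (hc.2.2 a b ha hb).1⟩
    obtain ⟨B, hB⟩ := hw _ htw
    obtain ⟨S2, ⟨B', hB'⟩, hsat⟩ := hK' (rs G (S : Set V))
      (dg_rs_le G S D (fun v hv => (hSd v hv).2)) B hB
    rw [(hS5 G S S2).2.1] at hB' hsat
    refine ⟨_, fun v => ?_, B', grid_mono hB' hKK⟩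
    rcases hsat v with h | h | h
    · omega
    · exact h.1.le
    · exact h.1.le
  · -- the unbalanced case
    obtain ⟨X', hX', Y', hY', hX'ne, hY'ne, hind, h4, h8, hm⟩ := d18 G k (m + 1) U X Y (by omega)
      hXU hYU hXne hXd hXY2 hcard
    obtain ⟨Y2, hY2, hgood⟩ := hB G k o X' Y' (by omega) hbic hY'ne
      (hXY.mono hX' hY') (fun u hu v hv => hinj u (hYU (hY' hu)) v (hYU (hY' hv)))
      (fun v hv => (dout_mono G o (hY'.trans hYU) v).trans (hout v (hYU (hY' hv)))) h4 h8
      (fun y hy => by have := hm y hy; omega)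
    obtain ⟨S, hSd, B, hB⟩ := hs G o X' Y2
      (fun u hu v hv => hinj u (hYU (hY' (hY2 hu))) v (hYU (hY' (hY2 hv))))
      (hXY.mono hX' (hY2.trans hY')) hind hgood
    exact ⟨S, hSd, B, grid_mono hB hKK⟩

/-- The class contains graphs without induced bicliques of order `t` of arbitrarily large minimum
degree. -/
def DegUnb (t : ℕ) (C : Code → Prop) : Prop := ∀ δ : ℕ, ∃ A : Code, C A ∧ A ≠ [] ∧
  NoIBic t (graph A) ∧ ∀ v, δ ≤ ((graph A).neighborSet v).ncard

theorem DegUnb_bd (h2 : PS2) (d21 : PD21) (d22 : PD22) (d23 : PD23) (t : ℕ) (C : Code → Prop)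
    (hH : Hereditary C) (hU : DegUnb t C) (hk : ¬ ∀ k, C (kc k)) : BDUnb 3 C := by
  push Not at hk
  obtain ⟨s, hs⟩ := hk
  intro w
  obtain ⟨T, hT⟩ := d23 s t
  obtain ⟨δ, hδ⟩ := d21 T (w + 2)
  obtain ⟨A, hA, hne, hbic, hdeg⟩ := hU δ
  have hpos : 0 < A.length := List.length_pos_of_ne_nil hne
  obtain ⟨S, hSd, B, hB⟩ := hδ (graph A) Finset.univ
    (hT (graph A) (fun h => hs (her_kc hH hA h)) hbic) ⟨⟨0, hpos⟩, Finset.mem_univ _⟩
    (fun v _ => by
      classical
      refine (hdeg v).trans (le_of_eq ?_)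
      unfold dn
      rw [← Set.ncard_coe_finset]
      congr 1
      ext u
      simp)
  obtain ⟨A', f, hf, hfa, hd3, B', hB'⟩ := d22 (graph A) S (w + 2) B (by omega) hSd hB
  refine ⟨A', hH A' A hA ⟨⟨⟨f, hf⟩, fun {x y} => (hfa x y).symm⟩⟩, hd3, fun h => ?_⟩
  have := h2 _ _ _ _ h hB'
  omega

theorem MainDeg (hb : PB) (hs : PHerSem) (h2 : PS2) (d21 : PD21) (d22 : PD22) (d23 : PD23) (t : ℕ)
    (C : Code → Prop) (hC : ComputablePred C) (hH : Hereditary C) (hU : DegUnb t C) :
    FptReducible Clique cliqueParam (Emb C) embParam := by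
  by_cases hk : ∀ k, C (kc k)
  · exact MainK C hk
  · exact MainHer hb hs 3 C hC hH (DegUnb_bd h2 d21 d22 d23 t C hH hU hk)

end Pool.Agent.PHer

end

section

/-!
# Assembly: hereditary classes with large induced grid minors
-/

set_option autoImplicit false

namespace Pool.Agent.PHer

open Pool.Agent.PEmb Pool.Agent.PReg

/-- The class contains graphs with arbitrarily large induced grid minors. -/
def IGridUnb (C : Code → Prop) : Prop := ∀ K : ℕ, ∃ A : Code, C A ∧ ∃ B, IGrid (graph A) K B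

theorem IGridUnb_bd (hS : PS) (hS5 : PS5) (h2 : PS2) (h4 : PH4) (h5 : PH5) (d22 : PD22)
    (C : Code → Prop) (hH : Hereditary C) (hU : IGridUnb C) : BDUnb 3 C := by
  intro w
  obtain ⟨K', hK'⟩ := hS 11 (w + 2)
  obtain ⟨A, hA, B, hB⟩ := hU (4 * K')
  obtain ⟨Hb, Ch, hsys⟩ := h4 (graph A) K' B hB
  obtain ⟨S, hSd, B1, hB1⟩ := h5 (graph A) K' Hb Ch hsys
  obtain ⟨S2, ⟨B2, hB2⟩, hsat⟩ := hK' (rs (graph A) S) hSd B1 hB1
  rw [(hS5 (graph A) S S2).2.1] at hB2 hsat
  obtain ⟨A', f, hf, hfa, hd3, B3, hB3⟩ := d22 (graph A) (S ∩ S2) (w + 2) B2 (by omega)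
    (fun v => by
      rcases hsat v with h | h | h
      · omega
      · exact h.1.le
      · exact h.1.le) hB2
  refine ⟨A', hH A' A hA ⟨⟨⟨f, hf⟩, fun {x y} => (hfa x y).symm⟩⟩, hd3, fun h => ?_⟩
  have := h2 _ _ _ _ h hB3
  omega

theorem MainIG (hb : PB) (hs : PHerSem) (hS : PS) (hS5 : PS5) (h2 : PS2) (h4 : PH4) (h5 : PH5)
    (d22 : PD22) (C : Code → Prop) (hC : ComputablePred C) (hH : Hereditary C)
    (hU : IGridUnb C) : FptReducible Clique cliqueParam (Emb C) embParam :=
  MainHer hb hs 3 C hC hH (IGridUnb_bd hS hS5 h2 h4 h5 d22 C hH hU)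

end Pool.Agent.PHer

end

section

/-!
# Hereditary classes: all items together
-/

set_option autoImplicit false

namespace Pool.Agent.PHer

open Pool.Agent.PEmb Pool.Agent.PReg

theorem e3' : PE3 := E3 Pool.Agent.PEmb.E12 Pool.Agent.PEmb.E14 Pool.Agent.PEmb.E15
  Pool.Agent.PEmb.e16 Pool.Agent.PEmb.e17 E1 E2
theorem e4' : PE4 := E4 Pool.Agent.PEmb.e3 Pool.Agent.PEmb.e7 Pool.Agent.PEmb.E8
  Pool.Agent.PEmb.E9 Pool.Agent.PEmb.E21
theorem e : PE := E_of e3' e4'
theorem t2 : PT2 := T2 T1 Pool.Agent.PReg.S5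
theorem t5 : PT5 := T5 Pool.Agent.PReg.P0 T3
theorem p4 : PP4 := P4 P1 P3
theorem p7 : PP7 := P7 P6
theorem p8 : PP8 := P8 P6
theorem p : PP := P_of P1 P2 p4 P5 P6 p7 p8
theorem g2 : PG2 := G2 G1
theorem g3 : PG3 := G3 G1
theorem g5 : PG5 := G5 G1 g2 G4
theorem g6 : PG6 := G6 g3 g5
theorem g7 : PG7 := G7 G1 g2 g3 g5 g6
theorem g9 : PG9 := G9 G1 G8
theorem g10 : PG10 := G10 G1 g7 g9
theorem g12 : PG12 := G12 g10 G11
theorem herSem : PHerSem :=
  HerSem Pool.Agent.PReg.sall Pool.Agent.PReg.s2 Pool.Agent.PReg.gr e Pool.Agent.PReg.P0 t2 T4 t5 p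
    C1 g12 C2

/-- Hereditary classes. -/
theorem mainHer (d : ℕ) (C : Code → Prop) (hC : ComputablePred C) (hH : Hereditary C)
    (hU : BDUnb d C) : FptReducible Clique cliqueParam (Emb C) embParam :=
  MainHer Pool.Agent.PReg.b herSem d C hC hH hU

/-- Hereditary classes without large induced stars. -/
theorem mainStar (t : ℕ) (C : Code → Prop) (hC : ComputablePred C) (hH : Hereditary C)
    (hU : StarUnb t C) : FptReducible Clique cliqueParam (Emb C) embParam :=
  MainStar Pool.Agent.PReg.b herSem t C hC hH hU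

end Pool.Agent.PHer

end

section

/-!
# Hereditary classes of unbounded degeneracy: all items together
-/

set_option autoImplicit false

namespace Pool.Agent.PHer

open Pool.Agent.PEmb Pool.Agent.PReg

theorem d3 : PD3 := D3 D2
theorem d11 : PD11 := D11 D5
theorem d12 : PD12 := D12 D8
theorem d13 : PD13 := D13 D9 D10 d11 d12
theorem d14 : PD14 := D14 Pool.Agent.PReg.S2a Pool.Agent.PReg.S2b
theorem d16 : PD16 := D16 D5 d14 D15
theorem d17 : PD17 := D17 Pool.Agent.PReg.S2a Pool.Agent.PReg.S2b D5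
theorem d18 : PD18 := D18 D4 D6
theorem d19 : PD19 := D19 D2 D7 D8
theorem d20 : PD20 := D20 d17 Pool.Agent.PReg.s6 Pool.Agent.PReg.S7 Pool.Agent.PReg.gr
  Pool.Agent.PEmb.e23
theorem d21 : PD21 := D21_of Pool.Agent.PReg.sall Pool.Agent.PReg.S5 Pool.Agent.PReg.gr D1 d3 d13
  d16 d18 d19 d20

/-- Hereditary classes of unbounded degeneracy. -/
theorem mainDeg (t : ℕ) (C : Code → Prop) (hC : ComputablePred C) (hH : Hereditary C)
    (hU : DegUnb t C) : FptReducible Clique cliqueParam (Emb C) embParam :=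
  MainDeg Pool.Agent.PReg.b herSem Pool.Agent.PReg.s2 d21 D22 D23 t C hC hH hU

end Pool.Agent.PHer

end
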